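import Mathlib

/-!
# LibGP48: definitions and basic lemmas
Growth of residually soluble groups (MP_419902_al), helper48.
-/

namespace GP48

open Subgroup

/-! ## balls -/

section growth

variable {G : Type*} [Group G]

/-- elements that are words of length at most `n` -/
def wball (S : Set G) (n : ℕ) : Set G :=
  {g : G | ∃ l : List G, l.length ≤ n ∧ (∀ x ∈ l, x ∈ S ∨ x⁻¹ ∈ S) ∧ l.prod = g}

lemma wball_one (S : Set G) (n : ℕ) : (1 : G) ∈ wball S n :=
  ⟨[], by simp, by simp, by simp⟩

lemma wball_mono (S : Set G) {m n : ℕ} (h : m ≤ n) : wball S m ⊆ wball S n := by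
  rintro g ⟨l, h1, h2, h3⟩
  exact ⟨l, h1.trans h, h2, h3⟩

lemma wball_mul {S : Set G} {m n : ℕ} {g h : G} (hg : g ∈ wball S m) (hh : h ∈ wball S n) :
    g * h ∈ wball S (m + n) := by
  obtain ⟨l, h1, h2, h3⟩ := hg
  obtain ⟨l', h1', h2', h3'⟩ := hh
  refine ⟨l ++ l', by simp; omega, ?_, by simp [h3, h3']⟩
  intro x hx
  rcases List.mem_append.1 hx with hx | hx
  · exact h2 x hx
  · exact h2' x hx

lemma wball_inv {S : Set G} {m : ℕ} {g : G} (hg : g ∈ wball S m) : g⁻¹ ∈ wball S m := by
  obtain ⟨l, h1, h2, h3⟩ := hg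
  refine ⟨(l.map (·⁻¹)).reverse, by simpa using h1, ?_, ?_⟩
  · intro x hx
    simp only [List.mem_reverse, List.mem_map] at hx
    obtain ⟨y, hy, rfl⟩ := hx
    rcases h2 y hy with h | h
    · exact Or.inr (by simpa using h)
    · exact Or.inl h
  · rw [← h3, List.prod_inv_reverse]

lemma wball_gen {S : Set G} {g : G} (hg : g ∈ S) : g ∈ wball S 1 :=
  ⟨[g], by simp, by simp [hg], by simp⟩

lemma wball_finite {S : Set G} (hS : S.Finite) (n : ℕ) : (wball S n).Finite := by
  induction n with
  | zero =>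
    refine (Set.finite_singleton (1 : G)).subset ?_
    rintro g ⟨l, h1, _, h3⟩
    have : l = [] := List.length_eq_zero_iff.1 (by omega)
    subst this
    simpa using h3.symm
  | succ n ih =>
    have hT : (S ∪ S⁻¹).Finite := hS.union hS.inv
    refine ((hT.mul ih).union (Set.finite_singleton (1 : G))).subset ?_
    rintro g ⟨l, h1, h2, h3⟩
    cases l with
    | nil => right; simpa using h3.symm
    | cons a l =>
      left
      refine ⟨a, ?_, l.prod, ⟨l, by simpa using h1, fun x hx => h2 x (by simp [hx]), rfl⟩, by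
        simpa using h3⟩
      rcases h2 a (by simp) with h | h
      · exact Or.inl h
      · exact Or.inr (by simpa using h)

end growth

/-! ## derived series and iterated commutators of subgroups, inside the big group -/

section series

variable {G : Type*} [Group G]

/-- the `j`-th term of the derived series of the subgroup `H`, as a subgroup of `G` -/
def ds (H : Subgroup G) : ℕ → Subgroup G
  | 0 => H
  | j + 1 => ⁅ds H j, ds H j⁆

/-- `[X, N, ..., N]` with `k` factors `N` -/
def ic (N X : Subgroup G) : ℕ → Subgroup G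
  | 0 => X
  | k + 1 => ⁅ic N X k, N⁆

/-- `N` is nilpotent modulo `U` -/
def NM (N U : Subgroup G) : Prop := ∃ k, ic N N k ≤ U

@[simp] lemma ds_zero (H : Subgroup G) : ds H 0 = H := rfl

lemma ds_succ (H : Subgroup G) (j : ℕ) : ds H (j + 1) = ⁅ds H j, ds H j⁆ := rfl

@[simp] lemma ic_zero (N X : Subgroup G) : ic N X 0 = X := rfl

lemma ic_succ (N X : Subgroup G) (k : ℕ) : ic N X (k + 1) = ⁅ic N X k, N⁆ := rfl

instance ds_normal (H : Subgroup G) [H.Normal] (j : ℕ) : (ds H j).Normal := by
  induction j with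
  | zero => simpa
  | succ j ih => rw [ds_succ]; exact Subgroup.commutator_normal _ _

instance ic_normal (N X : Subgroup G) [N.Normal] [X.Normal] (k : ℕ) : (ic N X k).Normal := by
  induction k with
  | zero => simpa
  | succ k ih => rw [ic_succ]; exact Subgroup.commutator_normal _ _

lemma ds_mono {H H' : Subgroup G} (h : H ≤ H') (j : ℕ) : ds H j ≤ ds H' j := by
  induction j with
  | zero => exact h
  | succ j ih => exact Subgroup.commutator_mono ih ih

lemma comm_le_self (H : Subgroup G) : ⁅H, H⁆ ≤ H := by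
  rw [Subgroup.commutator_le]
  intro a ha b hb
  rw [commutatorElement_def]
  exact H.mul_mem (H.mul_mem (H.mul_mem ha hb) (H.inv_mem ha)) (H.inv_mem hb)

lemma ds_succ_le (H : Subgroup G) (j : ℕ) : ds H (j + 1) ≤ ds H j := comm_le_self _

lemma ds_antitone (H : Subgroup G) : Antitone (ds H) := antitone_nat_of_succ_le (ds_succ_le H)

lemma ds_le (H : Subgroup G) (j : ℕ) : ds H j ≤ H := ds_antitone H (Nat.zero_le j)

lemma ds_add (H : Subgroup G) (i j : ℕ) : ds H (i + j) = ds (ds H i) j := by
  induction j with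
  | zero => rfl
  | succ j ih => rw [← Nat.add_assoc, ds_succ, ds_succ, ih]

lemma ds_top (j : ℕ) : ds (⊤ : Subgroup G) j = derivedSeries G j := by
  induction j with
  | zero => rfl
  | succ j ih => rw [ds_succ, ih, derivedSeries_succ]

/-- the derived series of the group `H`, seen in `G` -/
lemma map_derivedSeries (H : Subgroup G) (j : ℕ) :
    (derivedSeries H j).map H.subtype = ds H j := by
  induction j with
  | zero =>
    rw [derivedSeries_zero, ← MonoidHom.range_eq_map, Subgroup.range_subtype]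
    rfl
  | succ j ih => rw [derivedSeries_succ, Subgroup.map_commutator, ih, ds_succ]

lemma ds_map {G' : Type*} [Group G'] (f : G →* G') (H : Subgroup G) (j : ℕ) :
    (ds H j).map f = ds (H.map f) j := by
  induction j with
  | zero => rfl
  | succ j ih => rw [ds_succ, Subgroup.map_commutator, ih, ds_succ]

lemma ic_mono {N N' X X' : Subgroup G} (hN : N ≤ N') (hX : X ≤ X') (k : ℕ) :
    ic N X k ≤ ic N' X' k := by
  induction k with
  | zero => exact hX
  | succ k ih => exact Subgroup.commutator_mono ih hN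

lemma ic_add (N X : Subgroup G) (i j : ℕ) : ic N X (i + j) = ic N (ic N X i) j := by
  induction j with
  | zero => rfl
  | succ j ih => rw [← Nat.add_assoc, ic_succ, ic_succ, ih]

lemma ic_le (N X : Subgroup G) [X.Normal] (k : ℕ) : ic N X k ≤ X := by
  have h : ∀ k, ic N X k ≤ X := by
    intro k
    induction k with
    | zero => exact le_rfl
    | succ k ih =>
      rw [ic_succ]
      refine (Subgroup.commutator_mono ih le_rfl).trans ?_
      exact Subgroup.commutator_le_left X N
  exact h k

end series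

/-! ## chief pairs -/

/-- `X / Y` is a finite abelian chief factor of `G` -/
structure Chief {G : Type*} [Group G] (Y X : Subgroup G) : Prop where
  nY : Y.Normal
  nX : X.Normal
  lt : Y < X
  ab : ⁅X, X⁆ ≤ Y
  fin : Y.relIndex X ≠ 0
  min : ∀ Z : Subgroup G, Z.Normal → Y ≤ Z → Z ≤ X → Z = Y ∨ Z = X

/-! ## linear and permutation bounds for the derived length -/

/-- `φ` is an irreducible linear action -/
def Irr {F V G : Type*} [Semiring F] [AddCommMonoid V] [Module F V] [Group G]
    (φ : G →* (V ≃ₗ[F] V)) : Prop :=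
  Nontrivial V ∧ ∀ W : Submodule F V, (∀ g : G, ∀ w ∈ W, φ g w ∈ W) → W = ⊥ ∨ W = ⊤

/-- the column space `(F_p)^n` -/
abbrev VV (p n : ℕ) := Fin n → ZMod p

/-- the group `GL_n(p)` -/
abbrev GLV (p n : ℕ) := VV p n ≃ₗ[ZMod p] VV p n

/-- every soluble irreducible subgroup of `GL_n(p)` has derived length at most `g` -/
def LB (n p g : ℕ) : Prop :=
  ∀ K : Subgroup (GLV p n), Group.IsSolvable K → Irr K.subtype → derivedSeries K g = ⊥

/-- every soluble transitive permutation group of degree `t` has derived length at most `d` -/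
def PB (t d : ℕ) : Prop :=
  ∀ P : Subgroup (Equiv.Perm (Fin t)), Group.IsSolvable P → MulAction.IsPretransitive P (Fin t) →
    derivedSeries P d = ⊥

lemma derivedSeries_le_of_le {G : Type*} [Group G] {m n : ℕ} (h : m ≤ n) :
    derivedSeries G n ≤ derivedSeries G m := by
  rw [← ds_top, ← ds_top]
  exact ds_antitone _ h

lemma LB.mono {n p g g' : ℕ} (h : LB n p g) (hg : g ≤ g') : LB n p g' := by
  intro K h1 h2
  exact le_bot_iff.1 ((derivedSeries_le_of_le hg).trans (h K h1 h2).le)

lemma PB.mono {t d d' : ℕ} (h : PB t d) (hd : d ≤ d') : PB t d' := by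
  intro K h1 h2
  exact le_bot_iff.1 ((derivedSeries_le_of_le hd).trans (h K h1 h2).le)

/-! ## growth hypothesis -/

/-- `f(n) <= exp(n^β)` for all large `n` -/
def Gro (f : ℕ → ℕ) (β : ℝ) : Prop :=
  ∀ᶠ n : ℕ in Filter.atTop, (f n : ℝ) ≤ Real.exp ((n : ℝ) ^ β)

/-! ## systems of imprimitivity, enveloping algebras -/

/-- a transitive system of imprimitivity -/
structure Sys {F V G : Type*} [Field F] [AddCommGroup V] [Module F V] [Group G]
    (φ : G →* (V ≃ₗ[F] V)) (Ω : Finset (Submodule F V)) : Prop where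
  ne : ∀ W ∈ Ω, W ≠ ⊥
  map : ∀ g : G, ∀ W ∈ Ω, W.map (φ g : V →ₗ[F] V) ∈ Ω
  trans : ∀ W ∈ Ω, ∀ W' ∈ Ω, ∃ g : G, W.map (φ g : V →ₗ[F] V) = W'
  ind : sSupIndep (Ω : Set (Submodule F V))
  top : sSup (Ω : Set (Submodule F V)) = ⊤

/-- the enveloping algebra of a subgroup -/
def Env {p : ℕ} {V G : Type*} [AddCommGroup V] [Module (ZMod p) V] [Group G]
    (φ : G →* (V ≃ₗ[ZMod p] V)) (A : Subgroup G) : Subalgebra (ZMod p) (Module.End (ZMod p) V) :=
  Algebra.adjoin (ZMod p) ((fun x : G => ((φ x : V ≃ₗ[ZMod p] V) : V →ₗ[ZMod p] V)) '' (A : Set G))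

/-- `Env φ A` is a field -/
def EnvField {p : ℕ} {V G : Type*} [AddCommGroup V] [Module (ZMod p) V] [Group G]
    (φ : G →* (V ≃ₗ[ZMod p] V)) (A : Subgroup G) : Prop :=
  (∀ x ∈ Env φ A, ∀ y ∈ Env φ A, x * y = y * x) ∧ ∀ x ∈ Env φ A, x ≠ 0 → ∃ y ∈ Env φ A, x * y = 1

end GP48
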