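import Mathlib
import Pool.Agent.LibGP48.Defs

/-!
# LibGP48: definitions of the second part (helper50)
-/

namespace GP48

open Subgroup

/-- `X` is normal and generated by its elements of length at most `m` -/
structure Rch {G : Type*} [Group G] (S : Set G) (X : Subgroup G) (m : ℕ) : Prop where
  nor : X.Normal
  gen : X = closure ((X : Set G) ∩ wball S m)

lemma Rch.mono {G : Type*} [Group G] {S : Set G} {X : Subgroup G} {m m' : ℕ} (h : Rch S X m)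
    (hm : m ≤ m') : Rch S X m' := by
  refine ⟨h.nor, le_antisymm ?_ ?_⟩
  · conv_lhs => rw [h.gen]
    exact Subgroup.closure_mono (Set.inter_subset_inter_right _ (wball_mono S hm))
  · exact (Subgroup.closure_le _).2 Set.inter_subset_left

/-- normal closures of sets of elements of length `c m` are generated by elements of length at
most `c^κ m` -/
def CostH {G : Type*} [Group G] (S : Set G) (κ : ℝ) (m0 : ℕ) : Prop :=
  ∀ (T : Subgroup G) (E : Set G) (c m : ℕ), T.Normal → 2 ≤ c → m0 ≤ m →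
    E ⊆ (T : Set G) ∩ wball S (c * m) → T ≤ normalClosure E →
    ∃ m' : ℕ, m0 ≤ m' ∧ (m' : ℝ) ≤ (c : ℝ) ^ κ * m ∧ Rch S T m'

/-- the binary chain: `[[X, D s1], D s2], ...` with `s1 > s2 > ...` the binary digits of `ε` -/
def Yc {G : Type*} [Group G] (D : ℕ → Subgroup G) : ℕ → Subgroup G → ℕ → Subgroup G
  | 0, X, _ => X
  | t + 1, X, ε => if ε < 2 ^ t then Yc D t X ε else Yc D t ⁅X, D t⁆ (ε - 2 ^ t)

/-- number of binary digits 1 of `ε < 2^t` -/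
def pc : ℕ → ℕ → ℕ
  | 0, _ => 0
  | t + 1, ε => if ε < 2 ^ t then pc t ε else pc t (ε - 2 ^ t) + 1

/-- polynomials with coefficients -1, 0, 1 -/
def Sml (p : Polynomial ℤ) : Prop := p ≠ 0 ∧ ∀ i, p.coeff i = -1 ∨ p.coeff i = 0 ∨ p.coeff i = 1

/-- the abelian section `T / U`, as a module `A` with the action of `G` by conjugation -/
structure Lay {G : Type*} [Group G] (T U : Subgroup G) (A : Type*) [AddCommGroup A] where
  nor : T.Normal
  ψ : T →* Multiplicative A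
  ρ : G →* (A ≃ₗ[ℤ] A)
  sur : Function.Surjective ψ
  ker : ∀ t : T, ψ t = 1 ↔ (t : G) ∈ U
  eqv : ∀ (g : G) (t : T), Multiplicative.toAdd (ψ ⟨g * t * g⁻¹, nor.conj_mem t t.2 g⟩) =
    ρ g (Multiplicative.toAdd (ψ t))

/-- iterated augmentation: `au ρ N (k+1) = [au ρ N k, N]` -/
def au {G : Type*} [Group G] {A : Type*} [AddCommGroup A] (ρ : G →* (A ≃ₗ[ℤ] A))
    (N : Subgroup G) :
    ℕ → AddSubgroup A
  | 0 => ⊤
  | k + 1 => AddSubgroup.closure {x | ∃ h ∈ N, ∃ a ∈ au ρ N k, x = ρ h a - a}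

/-- the endomorphism of an automorphism -/
def en {A : Type*} [AddCommGroup A] (f : A ≃ₗ[ℤ] A) : Module.End ℤ A := (f : A →ₗ[ℤ] A)

/-- outcome Y: a short normal subgroup, not inside `C`, abelian modulo `C` -/
def OutY {G : Type*} [Group G] (S : Set G) (m0 : ℕ) (C : Subgroup G) (b : ℝ) : Prop :=
  ∃ (Y : Subgroup G) (m : ℕ), Rch S Y m ∧ m0 ≤ m ∧ (m : ℝ) ≤ b ∧ ¬ Y ≤ C ∧ ⁅Y, Y⁆ ≤ C

/-- outcome Z: a short normal subgroup inside `K`, not inside `C` -/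
def OutZ {G : Type*} [Group G] (S : Set G) (m0 : ℕ) (C K : Subgroup G) (b : ℝ) : Prop :=
  ∃ (Z : Subgroup G) (m : ℕ), Rch S Z m ∧ m0 ≤ m ∧ (m : ℝ) ≤ b ∧ ¬ Z ≤ C ∧ Z ≤ K

/-- one step from the normal subgroups inside `K'` to those inside `K`, nominal cost `N` -/
def Stp {G : Type*} [Group G] (S : Set G) (κ : ℝ) (m0 : ℕ) (C K' K : Subgroup G) (N : ℝ) :
    Prop :=
  ∀ (X : Subgroup G) (m : ℕ), Rch S X m → m0 ≤ m → X ≤ K' → ¬ X ≤ C →
    OutY S m0 C (N ^ κ * m) ∨ OutZ S m0 C K (N ^ κ * m)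

lemma OutY.mono {G : Type*} [Group G] {S : Set G} {m0 : ℕ} {C : Subgroup G} {b b' : ℝ}
    (h : OutY S m0 C b) (hb : b ≤ b') : OutY S m0 C b' := by
  obtain ⟨Y, m, h1, h2, h3, h4, h5⟩ := h
  exact ⟨Y, m, h1, h2, h3.trans hb, h4, h5⟩

lemma OutZ.mono {G : Type*} [Group G] {S : Set G} {m0 : ℕ} {C K : Subgroup G} {b b' : ℝ}
    (h : OutZ S m0 C K b) (hb : b ≤ b') : OutZ S m0 C K b' := by
  obtain ⟨Y, m, h1, h2, h3, h4, h5⟩ := h
  exact ⟨Y, m, h1, h2, h3.trans hb, h4, h5⟩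

/-- composition of steps -/
lemma Stp.comp {G : Type*} [Group G] {S : Set G} {κ : ℝ} {m0 : ℕ} {C K1 K2 K3 : Subgroup G}
    {N1 N2 : ℝ} (hN1 : 1 ≤ N1) (hN2 : 1 ≤ N2) (hκ : 1 ≤ κ) (h1 : Stp S κ m0 C K1 K2 N1)
    (h2 : Stp S κ m0 C K2 K3 N2) : Stp S κ m0 C K1 K3 (N1 * N2) := by
  intro X m hX hm hXK hXC
  have e : (N1 * N2) ^ κ = N1 ^ κ * N2 ^ κ := Real.mul_rpow (by linarith) (by linarith)
  have p1 : (0 : ℝ) ≤ N1 ^ κ := Real.rpow_nonneg (by linarith) _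
  have p2 : (1 : ℝ) ≤ N2 ^ κ := Real.one_le_rpow hN2 (by linarith)
  rcases h1 X m hX hm hXK hXC with h | h
  · left
    refine h.mono ?_
    rw [e, mul_right_comm]
    exact le_mul_of_one_le_right (by positivity) p2
  · obtain ⟨Z, m', z1, z2, z3, z4, z5⟩ := h
    have hb : N2 ^ κ * (m' : ℝ) ≤ (N1 * N2) ^ κ * m := by
      rw [e]
      calc N2 ^ κ * (m' : ℝ) ≤ N2 ^ κ * (N1 ^ κ * m) :=
            mul_le_mul_of_nonneg_left z3 (by linarith)
        _ = N1 ^ κ * N2 ^ κ * m := by ring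
    rcases h2 Z m' z1 z2 z5 z4 with h | h
    · exact Or.inl (h.mono hb)
    · exact Or.inr (h.mono hb)

end GP48
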