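import Mathlib
import Pool.Agent.LibGP48.XDefs

/-!
# LibGP48 CQ (MEDIUM)

WQ1: a word in f(S) is the image of a word in S (list induction), and conversely; ncard of an image <= ncard (Set.ncard_image_le, wball_finite). CQ: given T' normal in Q, E' ⊆ T' n wball (f''S) (c*m), T' <= normalClosure E'. E = f⁻¹(E') n wball S (c*m), T = normalClosure E (normal). E ⊆ T n wball S (c*m).
hC gives m' with Rch S T m'. T.map f = normalClosure (f '' E) = normalClosure E' (f '' E = E' by WQ1; Subgroup.map_normalClosure for surjective f) = T' (E' ⊆ T' normal). T' = T.map f = closure (f '' (T n wball S m')) <= closure (T' n wball (f''S) m') <= T'.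
-/

namespace GP48

open Subgroup

private theorem cq_lift {G Q : Type*} [Group G] [Group Q] (f : G →* Q) {S : Set G} :
    ∀ l : List Q, (∀ x ∈ l, x ∈ f '' S ∨ x⁻¹ ∈ f '' S) →
      ∃ l' : List G, (∀ y ∈ l', y ∈ S ∨ y⁻¹ ∈ S) ∧ l'.map f = l := by
  intro l
  induction l with
  | nil => intro _; exact ⟨[], by simp, by simp⟩
  | cons a l ih =>
    intro h
    obtain ⟨l', h1, h2⟩ := ih (fun x hx => h x (by simp [hx]))
    have : ∃ b : G, (b ∈ S ∨ b⁻¹ ∈ S) ∧ f b = a := by
      rcases h a (by simp) with ⟨b, hb, rfl⟩ | ⟨b, hb, hba⟩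
      · exact ⟨b, Or.inl hb, rfl⟩
      · exact ⟨b⁻¹, Or.inr (by simpa using hb), by rw [map_inv, hba, inv_inv]⟩
    obtain ⟨b, hb, hba⟩ := this
    refine ⟨b :: l', ?_, by simp [hba, h2]⟩
    intro y hy
    rcases List.mem_cons.1 hy with rfl | hy
    · exact hb
    · exact h1 y hy

theorem WQ {G Q : Type*} [Group G] [Group Q] (f : G →* Q) {S : Set G} (n : ℕ) :
    wball (f '' S) n = f '' wball S n := by
  ext q
  constructor
  · rintro ⟨l, h1, h2, h3⟩
    obtain ⟨l', h4, h5⟩ := cq_lift f l h2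
    refine ⟨l'.prod, ⟨l', ?_, h4, rfl⟩, ?_⟩
    · have := congrArg List.length h5
      rw [List.length_map] at this
      omega
    · rw [map_list_prod, h5, h3]
  · rintro ⟨g, ⟨l, h1, h2, h3⟩, rfl⟩
    refine ⟨l.map f, by simpa using h1, ?_, by rw [← map_list_prod, h3]⟩
    intro x hx
    obtain ⟨y, hy, rfl⟩ := List.mem_map.1 hx
    rcases h2 y hy with h | h
    · exact Or.inl ⟨y, h, rfl⟩
    · exact Or.inr ⟨y⁻¹, h, map_inv f y⟩

theorem WQ' {G Q : Type*} [Group G] [Group Q] (f : G →* Q) {S : Set G} (hS : S.Finite) (n : ℕ) :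
    (wball (f '' S) n).ncard ≤ (wball S n).ncard := by
  rw [WQ f n]
  exact Set.ncard_image_le (wball_finite hS n)

/-- the cost hypothesis passes to quotients -/
theorem CQ {G Q : Type*} [Group G] [Group Q] (f : G →* Q) (hf : Function.Surjective f) (S : Set G)
    (κ : ℝ) (m0 : ℕ) (hC : CostH S κ m0) : CostH (f '' S) κ m0 := by
  intro T' E' c m hT' hc hm hE hTE
  have hEe : f '' (f ⁻¹' E' ∩ wball S (c * m)) = E' := by
    ext q
    constructor
    · rintro ⟨g, ⟨hg, _⟩, rfl⟩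
      exact hg
    · intro hq
      have h := (hE hq).2
      rw [WQ f (c * m)] at h
      obtain ⟨g, hg, rfl⟩ := h
      exact ⟨g, ⟨hq, hg⟩, rfl⟩
  obtain ⟨m', h1, h2, h3⟩ := hC (normalClosure (f ⁻¹' E' ∩ wball S (c * m)))
    (f ⁻¹' E' ∩ wball S (c * m)) c m inferInstance hc hm
    (fun x hx => ⟨Subgroup.subset_normalClosure hx, hx.2⟩) le_rfl
  refine ⟨m', h1, h2, hT', ?_⟩
  have hmap : (normalClosure (f ⁻¹' E' ∩ wball S (c * m))).map f = T' := by
    rw [Subgroup.map_normalClosure _ f hf, hEe]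
    refine le_antisymm ?_ hTE
    exact Subgroup.normalClosure_le_normal (fun x hx => (hE hx).1)
  refine le_antisymm ?_ ((Subgroup.closure_le _).2 Set.inter_subset_left)
  conv_lhs => rw [← hmap, h3.gen, MonoidHom.map_closure]
  refine Subgroup.closure_mono ?_
  rintro q ⟨g, ⟨hg1, hg2⟩, rfl⟩
  refine ⟨?_, ?_⟩
  · rw [← hmap]
    exact ⟨g, hg1, rfl⟩
  · rw [WQ f m']
    exact ⟨g, hg2, rfl⟩

end GP48
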