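import Mathlib
import Pool.Agent.LibGP48.Defs

/-!
# LibGP48 D1 (MEDIUM)

Choose a basis: e : V ≃ₗ[ZMod p] VV p n (finrank = n; LinearEquiv.ofFinrankEq or finBasis). ψ : G →* GLV p n, ψ g = e.symm.trans ((φ g).trans e) (conjugate), K = ψ.range.
K soluble: ds ⊤ e ≤ ψ.ker = φ.ker, image (Subgroup.map_derivedSeries_le..., ds_map / map_derivedSeries). K irreducible: pull back W by e. So derivedSeries K g = ⊥, ds ⊤ g ≤ ψ.ker.
-/

namespace GP48

open Subgroup

private def D1_conj {n p : ℕ} [Fact p.Prime] {G V : Type*} [Group G] [AddCommGroup V]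
    [Module (ZMod p) V] (φ : G →* (V ≃ₗ[ZMod p] V)) (e : V ≃ₗ[ZMod p] VV p n) :
    G →* GLV p n where
  toFun g := e.symm.trans ((φ g).trans e)
  map_one' := by
    ext1 v
    simp
  map_mul' g h := by
    ext1 v
    simp [LinearEquiv.mul_apply]

private theorem D1_ds_range {G G' : Type*} [Group G] [Group G'] (ψ : G →* G') (m : ℕ) :
    derivedSeries ψ.range m = ⊥ ↔ ds (⊤ : Subgroup G) m ≤ ψ.ker := by
  rw [← Subgroup.map_eq_bot_iff, ds_map, ← MonoidHom.range_eq_map, ← map_derivedSeries,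
    Subgroup.map_eq_bot_iff_of_injective _ ψ.range.subtype_injective]

theorem D1 {n p g : ℕ} [Fact p.Prime] (h : LB n p g) {G V : Type*} [Group G] [AddCommGroup V]
    [Module (ZMod p) V] [Module.Finite (ZMod p) V] (hn : Module.finrank (ZMod p) V = n)
    (φ : G →* (V ≃ₗ[ZMod p] V)) (hirr : Irr φ) (hsol : ∃ e, ds (⊤ : Subgroup G) e ≤ φ.ker) :
    ds (⊤ : Subgroup G) g ≤ φ.ker := by
  have e : V ≃ₗ[ZMod p] VV p n := LinearEquiv.ofFinrankEq V (VV p n) (by rw [hn]; simp)
  obtain ⟨ψ, hψ⟩ : ∃ ψ : G →* GLV p n, ∀ g v, ψ g (e v) = e (φ g v) := by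
    refine ⟨D1_conj φ e, fun g v => ?_⟩
    show e (φ g (e.symm (e v))) = e (φ g v)
    rw [LinearEquiv.symm_apply_apply]
  have hker : ψ.ker = φ.ker := by
    ext g
    rw [MonoidHom.mem_ker, MonoidHom.mem_ker]
    constructor
    · intro h1
      ext v
      have h2 := hψ g v
      rw [h1] at h2
      exact e.injective h2.symm
    · intro h1
      ext1 w
      obtain ⟨v, rfl⟩ := e.surjective w
      rw [hψ, h1]
      rfl
  obtain ⟨m, hm⟩ := hsol
  have hsolK : Group.IsSolvable ψ.range :=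
    ⟨m, (D1_ds_range ψ m).2 (by rw [hker]; exact hm)⟩
  have hirrK : Irr (ψ.range).subtype := by
    obtain ⟨h1, h2⟩ := hirr
    refine ⟨e.symm.toEquiv.nontrivial, fun W hW => ?_⟩
    have h3 : W.comap (e : V →ₗ[ZMod p] VV p n) = ⊥ ∨ W.comap (e : V →ₗ[ZMod p] VV p n) = ⊤ := by
      refine h2 _ fun g v hv => ?_
      rw [Submodule.mem_comap] at hv ⊢
      have h4 := hW ⟨ψ g, g, rfl⟩ (e v) hv
      have h5 : (ψ.range).subtype ⟨ψ g, g, rfl⟩ (e v) = e (φ g v) := hψ g v
      rw [h5] at h4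
      exact h4
    have h6 : (W.comap (e : V →ₗ[ZMod p] VV p n)).map (e : V →ₗ[ZMod p] VV p n) = W :=
      Submodule.map_comap_eq_of_surjective e.surjective W
    rcases h3 with h3 | h3
    · left
      rw [← h6, h3, Submodule.map_bot]
    · right
      rw [← h6, h3, Submodule.map_top]
      exact LinearMap.range_eq_top.2 e.surjective
  have hfin := h ψ.range hsolK hirrK
  rw [← hker]
  exact (D1_ds_range ψ g).1 hfin

end GP48
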