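import Mathlib
import Pool.Agent.LibGP48.Defs

/-!
# LibGP48 D2 (MEDIUM)

Same as D1 for permutations: Ω ≃ Fin t (Finite.equivFinOfCardEq), ψ : G →* Equiv.Perm (Fin t), P = ψ.range soluble (image of ds ⊤ e trivial) and transitive on Fin t.
derivedSeries P d = ⊥ gives the claim.
-/

namespace GP48

open Subgroup

private theorem D2_map {G Ω' : Type*} [Group G] (ψ : G →* Equiv.Perm Ω') (j : ℕ) :
    (derivedSeries ψ.range j).map ψ.range.subtype = (ds (⊤ : Subgroup G) j).map ψ := by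
  rw [map_derivedSeries, ds_map, ← MonoidHom.range_eq_map]

theorem D2 {t d : ℕ} (h : PB t d) {G Ω : Type*} [Group G] [MulAction G Ω] [Finite Ω]
    (ht : Nat.card Ω = t) (htr : MulAction.IsPretransitive G Ω)
    (hsol : ∃ e, ∀ g ∈ ds (⊤ : Subgroup G) e, ∀ w : Ω, g • w = w) :
    ∀ g ∈ ds (⊤ : Subgroup G) d, ∀ w : Ω, g • w = w := by
  obtain ⟨k, hk⟩ := hsol
  let e : Ω ≃ Fin t := Finite.equivFinOfCardEq ht
  let ψ : G →* Equiv.Perm (Fin t) := (e.permCongrHom : Equiv.Perm Ω →* Equiv.Perm (Fin t)).comp (MulAction.toPermHom G Ω)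
  have hψ : ∀ g x, ψ g x = e (g • e.symm x) := fun g x => rfl
  have htriv : ∀ g, (∀ w : Ω, g • w = w) ↔ ψ g = 1 := by
    intro g
    constructor
    · intro hg
      ext x
      rw [hψ, hg, Equiv.apply_symm_apply]
      rfl
    · intro hg w
      have h1 := hψ g (e w)
      rw [hg, Equiv.symm_apply_apply, Equiv.Perm.one_apply] at h1
      exact (e.injective h1).symm
  have hsolv : Group.IsSolvable ψ.range := by
    refine ⟨⟨k, ?_⟩⟩
    have h1 := D2_map ψ k
    have h2 : (ds (⊤ : Subgroup G) k).map ψ = ⊥ := by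
      rw [Subgroup.map_eq_bot_iff]
      intro g hg
      rw [MonoidHom.mem_ker]
      exact (htriv g).1 (hk g hg)
    rw [h2] at h1
    exact (Subgroup.map_eq_bot_iff_of_injective _ (Subgroup.subtype_injective _)).1 h1
  have htrans : MulAction.IsPretransitive ψ.range (Fin t) := by
    refine ⟨fun x y => ?_⟩
    obtain ⟨g, hg⟩ := htr.exists_smul_eq (e.symm x) (e.symm y)
    refine ⟨⟨ψ g, ⟨g, rfl⟩⟩, ?_⟩
    show ψ g x = y
    rw [hψ, hg, Equiv.apply_symm_apply]
  have h3 := h ψ.range hsolv htrans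
  intro g hg w
  refine (htriv g).2 ?_ w
  have h4 := D2_map ψ d
  rw [h3, Subgroup.map_bot] at h4
  have h5 : ψ g ∈ (ds (⊤ : Subgroup G) d).map ψ := Subgroup.mem_map_of_mem ψ hg
  rw [← h4, Subgroup.mem_bot] at h5
  exact h5

end GP48
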