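import Mathlib
import Pool.Agent.LibGP48.Defs
import Pool.Agent.LibGP48.D1

/-!
# LibGP48 D3 (STRONG)

V0 = X ⧸ (Y.subgroupOf X), finite, abelian, non trivial. r a prime divisor of its order: Z = {x in X : x^r in Y} is a normal subgroup of G (X/Y abelian), Y <= Z <= X, Z != Y by Cauchy,
so Z = X (Chief.min). So V = Additive V0 is a module over ZMod r (AddCommGroup.zmodModule), finite, |V| = r^s, s = finrank >= 1. G acts by conjugation: φ : G →* (V ≃ₗ[ZMod r] V).
Irr φ: a G-invariant submodule W corresponds to a normal subgroup of G between Y and X (Chief.min). x in φ.ker iff [x,X] <= Y; so (∃ e, ⁅ds ⊤ e, X⁆ <= Y) gives hsol of D1 and D1 gives ds ⊤ g <= φ.ker,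
that is ⁅ds ⊤ g, X⁆ <= Y.
-/

namespace GP48

open Subgroup

private theorem D3_lin {G V : Type*} [Group G] [AddCommGroup V] (r : ℕ) (hr : ∀ v : V, r • v = 0)
    (c : G → V →+ V) (h1 : ∀ v, c 1 v = v) (hm : ∀ g h v, c (g * h) v = c g (c h v)) :
    ∃ (_ : Module (ZMod r) V) (φ : G →* (V ≃ₗ[ZMod r] V)), ∀ g v, φ g v = c g v := by
  obtain ⟨i1⟩ : Nonempty (Module (ZMod r) V) := ⟨AddCommGroup.zmodModule hr⟩
  let Φ : G → (V ≃ₗ[ZMod r] V) := fun g =>
    { toFun := fun v => c g v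
      map_add' := fun v w => map_add (c g) v w
      map_smul' := fun a v => ZMod.map_smul (c g) a v
      invFun := fun v => c g⁻¹ v
      left_inv := fun v => by
        show c g⁻¹ (c g v) = v
        rw [← hm, inv_mul_cancel, h1]
      right_inv := fun v => by
        show c g (c g⁻¹ v) = v
        rw [← hm, mul_inv_cancel, h1] }
  have hΦ : ∀ g v, Φ g v = c g v := fun g v => rfl
  have h2 : ∀ g h, Φ (g * h) = Φ g * Φ h := fun g h => LinearEquiv.ext fun v => by
    rw [LinearEquiv.mul_apply, hΦ, hΦ, hΦ, hm]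
  exact ⟨i1, MonoidHom.mk' Φ h2, fun g a => rfl⟩

private theorem D3_rep.{u} {G : Type u} [Group G] {Y X : Subgroup G} [Y.Normal] [X.Normal]
    (ab : ⁅X, X⁆ ≤ Y) (r : ℕ) (hr : ∀ x ∈ X, x ^ r ∈ Y) :
    ∃ (V : Type u) (_ : AddCommGroup V) (_ : Module (ZMod r) V) (π : X → V)
      (φ : G →* (V ≃ₗ[ZMod r] V)), Function.Surjective π ∧ (∀ x y : X, π (x * y) = π x + π y) ∧
      (∀ x : X, π x = 0 ↔ (x : G) ∈ Y) ∧ Nat.card V = Y.relIndex X ∧
      ∀ (g : G) (x : X), φ g (π x) = π (MulAut.conjNormal g x) := by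
  have hcomm : ∀ a b : X ⧸ Y.subgroupOf X, a * b = b * a := by
    intro a b
    obtain ⟨x, rfl⟩ := QuotientGroup.mk_surjective a
    obtain ⟨y, rfl⟩ := QuotientGroup.mk_surjective b
    rw [← QuotientGroup.mk_mul, ← QuotientGroup.mk_mul, QuotientGroup.eq, Subgroup.mem_subgroupOf]
    have h1 := ab (Subgroup.commutator_mem_commutator (X.inv_mem y.2) (X.inv_mem x.2))
    simpa [commutatorElement_def, mul_assoc] using h1
  let i0 : CommGroup (X ⧸ Y.subgroupOf X) :=
    { (inferInstance : Group (X ⧸ Y.subgroupOf X)) with mul_comm := hcomm }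
  let c : G → (X ⧸ Y.subgroupOf X) →* (X ⧸ Y.subgroupOf X) := fun g =>
    QuotientGroup.map (Y.subgroupOf X) (Y.subgroupOf X) (MulAut.conjNormal g : MulAut X).toMonoidHom
      (by
        intro x hx
        rw [Subgroup.mem_subgroupOf] at hx
        show ((MulAut.conjNormal g x : X) : G) ∈ Y
        rw [MulAut.conjNormal_apply]
        exact (inferInstance : Y.Normal).conj_mem _ hx g)
  have hc : ∀ (g : G) (x : X), c g (QuotientGroup.mk x) = QuotientGroup.mk (MulAut.conjNormal g x) :=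
    fun g x => rfl
  obtain ⟨i2, φ, hφ⟩ := @D3_lin G (Additive (X ⧸ Y.subgroupOf X)) _ (@Additive.addCommGroup _ i0) r
    (by
      intro a
      obtain ⟨x, rfl⟩ := QuotientGroup.mk_surjective a
      exact (QuotientGroup.eq_one_iff (N := Y.subgroupOf X) (x ^ r)).2 (hr x x.2))
    (fun g => MonoidHom.toAdditive (c g))
    (by
      intro a
      obtain ⟨x, rfl⟩ := QuotientGroup.mk_surjective a
      show c 1 (QuotientGroup.mk x) = QuotientGroup.mk x
      rw [hc, map_one, MulAut.one_apply])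
    (by
      intro g h a
      obtain ⟨x, rfl⟩ := QuotientGroup.mk_surjective a
      show c (g * h) (QuotientGroup.mk x) = c g (c h (QuotientGroup.mk x))
      rw [hc, hc, hc, map_mul]
      rfl)
  refine ⟨Additive (X ⧸ Y.subgroupOf X), @Additive.addCommGroup _ i0, i2,
    fun x => Additive.ofMul (QuotientGroup.mk x), φ, ?_, ?_, ?_, ?_, ?_⟩
  · intro v
    obtain ⟨x, hx⟩ := QuotientGroup.mk_surjective (Additive.toMul v)
    exact ⟨x, by show Additive.ofMul _ = v; rw [hx]; rfl⟩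
  · intro x y
    rfl
  · intro x
    exact QuotientGroup.eq_one_iff (N := Y.subgroupOf X) x
  · rfl
  · intro g x
    exact hφ g _

private theorem D3_pow {G : Type*} [Group G] {Y X : Subgroup G} (h : Chief Y X) :
    ∃ r : ℕ, r.Prime ∧ ∀ x ∈ X, x ^ r ∈ Y := by
  have := h.nY
  have := h.nX
  obtain ⟨V, i1, _, π, _, hsur, hmul, hker, hcard, _⟩ := D3_rep h.ab 0 (fun x _ => by
    rw [pow_zero]; exact Y.one_mem)
  have h0 : Nat.card V ≠ 0 := by rw [hcard]; exact h.fin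
  have h1 : Nat.card V ≠ 1 := by
    rw [hcard]
    intro h2
    exact not_le_of_gt h.lt (Subgroup.relIndex_eq_one.1 h2)
  have hfin : Finite V := Nat.finite_of_card_ne_zero h0
  obtain ⟨r, hr, hdvd⟩ := Nat.exists_prime_and_dvd h1
  have : Fact r.Prime := ⟨hr⟩
  refine ⟨r, hr, ?_⟩
  have hone : π 1 = 0 := by
    have h2 := hmul 1 1
    rw [mul_one] at h2
    exact (add_eq_left.1 h2.symm)
  have hinv : ∀ x : X, π x⁻¹ = - π x := by
    intro x
    have h2 := hmul x⁻¹ x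
    rw [inv_mul_cancel, hone] at h2
    exact eq_neg_of_add_eq_zero_left h2.symm
  have hpow : ∀ (n : ℕ) (x : X), π (x ^ n) = n • π x := by
    intro n x
    induction n with
    | zero => rw [pow_zero, hone, zero_smul]
    | succ n ih => rw [pow_succ, hmul, ih, succ_nsmul]
  let Z : Subgroup G :=
    { carrier := {x | ∃ hx : x ∈ X, r • π ⟨x, hx⟩ = 0}
      one_mem' := ⟨X.one_mem, by
        have : (⟨1, X.one_mem⟩ : X) = 1 := rfl
        rw [this, hone, smul_zero]⟩
      mul_mem' := by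
        rintro x y ⟨hx, hx'⟩ ⟨hy, hy'⟩
        refine ⟨X.mul_mem hx hy, ?_⟩
        have : (⟨x * y, X.mul_mem hx hy⟩ : X) = ⟨x, hx⟩ * ⟨y, hy⟩ := rfl
        rw [this, hmul, smul_add, hx', hy', add_zero]
      inv_mem' := by
        rintro x ⟨hx, hx'⟩
        refine ⟨X.inv_mem hx, ?_⟩
        have : (⟨x⁻¹, X.inv_mem hx⟩ : X) = (⟨x, hx⟩ : X)⁻¹ := rfl
        rw [this, hinv, smul_neg, hx', neg_zero] }
  have hZ : ∀ x : G, x ∈ Z ↔ x ∈ X ∧ x ^ r ∈ Y := by
    intro x
    constructor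
    · rintro ⟨hx, hx'⟩
      rw [← hpow, hker] at hx'
      exact ⟨hx, hx'⟩
    · rintro ⟨hx, hx'⟩
      refine ⟨hx, ?_⟩
      rw [← hpow, hker]
      exact hx'
  have hZn : Z.Normal := by
    refine ⟨fun x hx g => ?_⟩
    rw [hZ] at hx ⊢
    refine ⟨h.nX.conj_mem x hx.1 g, ?_⟩
    rw [conj_pow]
    exact h.nY.conj_mem _ hx.2 g
  rcases h.min Z hZn (fun x hx => (hZ x).2 ⟨h.lt.le hx, Y.pow_mem hx r⟩) (fun x hx => ((hZ x).1 hx).1)
    with h2 | h2
  · exfalso
    obtain ⟨v, hv⟩ := exists_prime_addOrderOf_dvd_card' r hdvd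
    obtain ⟨x, rfl⟩ := hsur v
    have h3 : (x : G) ∈ Z := (hZ x).2 ⟨x.2, by
      have h4 : r • π x = 0 := by rw [← hv]; exact addOrderOf_nsmul_eq_zero _
      rw [← hpow, hker] at h4
      exact h4⟩
    rw [h2] at h3
    have h5 : π x = 0 := (hker x).2 h3
    rw [h5, addOrderOf_zero] at hv
    exact hr.one_lt.ne hv
  · intro x hx
    rw [← h2] at hx
    exact ((hZ x).1 hx).2

theorem D3 {G : Type*} [Group G] {Y X : Subgroup G} (h : Chief Y X) :
    ∃ r s : ℕ, r.Prime ∧ 1 ≤ s ∧ Y.relIndex X = r ^ s ∧ (∀ x ∈ X, x ^ r ∈ Y) ∧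
      ∀ g, LB s r g → (∃ e, ⁅ds (⊤ : Subgroup G) e, X⁆ ≤ Y) →
        ⁅ds (⊤ : Subgroup G) g, X⁆ ≤ Y := by
  have := h.nY
  have := h.nX
  obtain ⟨r, hr, hpow⟩ := D3_pow h
  have : Fact r.Prime := ⟨hr⟩
  obtain ⟨V, i1, i2, π, φ, hsur, hmul, hker, hcard, hφ⟩ := D3_rep h.ab r hpow
  have h0 : Nat.card V ≠ 0 := by rw [hcard]; exact h.fin
  have h1 : Nat.card V ≠ 1 := by
    rw [hcard]
    intro h2
    exact not_le_of_gt h.lt (Subgroup.relIndex_eq_one.1 h2)
  have hfin : Finite V := Nat.finite_of_card_ne_zero h0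
  have hnt : Nontrivial V := by
    by_contra hcon
    rw [not_nontrivial_iff_subsingleton] at hcon
    apply h1
    have : Nonempty V := ⟨0⟩
    exact Nat.card_unique
  have hmf : Module.Finite (ZMod r) V := Module.Finite.of_finite
  have hpc : Nat.card V = r ^ Module.finrank (ZMod r) V := by
    rw [Module.natCard_eq_pow_finrank (K := ZMod r), Nat.card_zmod]
  have hone : π 1 = 0 := (hker 1).2 Y.one_mem
  have hinv : ∀ x : X, π x⁻¹ = - π x := by
    intro x
    have h2 := hmul x⁻¹ x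
    rw [inv_mul_cancel, hone] at h2
    exact eq_neg_of_add_eq_zero_left h2.symm
  -- the kernel of the representation
  have hkerφ : ∀ g : G, g ∈ φ.ker ↔ ∀ x ∈ X, g * x * g⁻¹ * x⁻¹ ∈ Y := by
    intro g
    rw [MonoidHom.mem_ker]
    have key : ∀ x : X, (φ g (π x) = π x ↔ g * (x : G) * g⁻¹ * (x : G)⁻¹ ∈ Y) := by
      intro x
      rw [hφ, ← sub_eq_zero, sub_eq_add_neg, ← hinv, ← hmul, hker]
      rfl
    constructor
    · intro hg x hx
      rw [← key ⟨x, hx⟩, hg]
      rfl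
    · intro hg
      refine LinearEquiv.ext fun v => ?_
      obtain ⟨x, rfl⟩ := hsur v
      exact (key x).2 (hg x x.2)
  have hcomm : ∀ H : Subgroup G, ⁅H, X⁆ ≤ Y ↔ H ≤ φ.ker := by
    intro H
    rw [Subgroup.commutator_le]
    exact ⟨fun h2 g hg => (hkerφ g).2 (h2 g hg), fun h2 g hg => (hkerφ g).1 (h2 hg)⟩
  have hirr : Irr φ := by
    refine ⟨hnt, fun W hW => ?_⟩
    let Z : Subgroup G :=
      { carrier := {x | ∃ hx : x ∈ X, π ⟨x, hx⟩ ∈ W}
        one_mem' := ⟨X.one_mem, by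
          have : (⟨1, X.one_mem⟩ : X) = 1 := rfl
          rw [this, hone]
          exact W.zero_mem⟩
        mul_mem' := by
          rintro x y ⟨hx, hx'⟩ ⟨hy, hy'⟩
          refine ⟨X.mul_mem hx hy, ?_⟩
          have : (⟨x * y, X.mul_mem hx hy⟩ : X) = ⟨x, hx⟩ * ⟨y, hy⟩ := rfl
          rw [this, hmul]
          exact W.add_mem hx' hy'
        inv_mem' := by
          rintro x ⟨hx, hx'⟩
          refine ⟨X.inv_mem hx, ?_⟩
          have : (⟨x⁻¹, X.inv_mem hx⟩ : X) = (⟨x, hx⟩ : X)⁻¹ := rfl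
          rw [this, hinv]
          exact W.neg_mem hx' }
    have hZ : ∀ x : X, (x : G) ∈ Z ↔ π x ∈ W := by
      intro x
      exact ⟨fun ⟨_, hx⟩ => hx, fun hx => ⟨x.2, hx⟩⟩
    have hZn : Z.Normal := by
      refine ⟨fun x hx g => ?_⟩
      obtain ⟨hx1, hx2⟩ := hx
      have h3 := hW g _ hx2
      rw [hφ] at h3
      exact ⟨h.nX.conj_mem x hx1 g, h3⟩
    rcases h.min Z hZn (fun x hx => (hZ ⟨x, h.lt.le hx⟩).2 (by
        rw [(hker ⟨x, h.lt.le hx⟩).2 hx]; exact W.zero_mem)) (fun x hx => hx.1) with h2 | h2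
    · left
      rw [eq_bot_iff]
      intro v hv
      obtain ⟨x, rfl⟩ := hsur v
      have h3 : (x : G) ∈ Z := (hZ x).2 hv
      rw [h2] at h3
      rw [Submodule.mem_bot]
      exact (hker x).2 h3
    · right
      rw [eq_top_iff]
      intro v _
      obtain ⟨x, rfl⟩ := hsur v
      have h3 : (x : G) ∈ Z := by rw [h2]; exact x.2
      exact (hZ x).1 h3
  refine ⟨r, Module.finrank (ZMod r) V, hr, ?_, by rw [← hcard, hpc], hpow, ?_⟩
  · by_contra hcon
    apply h1
    rw [hpc, show Module.finrank (ZMod r) V = 0 by omega, pow_zero]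
  · rintro g hLB ⟨e, he⟩
    rw [hcomm] at he ⊢
    exact D1 hLB rfl φ hirr ⟨e, he⟩

end GP48
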