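import Mathlib
import Pool.Agent.LibGP48.Defs

/-!
# LibGP48 G4 (MEDIUM (real analysis))

n0 from Gro. (a) t = 0 or t(x+2t) < n0: t <= n0. Else t log 2 <= (t(x+2t))^β. If t >= x: <= (3t^2)^β so
t^(1-2β) <= 3^β/log 2, t bounded. If t < x: <= (3tx)^β, t^(1-β) <= (3^β/log 2) x^β, t <= C x^(β/(1-β)) (x >= 1).
(b) the same and simpler: s log 2 <= (s x)^β.
-/

namespace GP48

open Subgroup

private theorem g4_base {t A γ : ℝ} (ht : 0 < t) (hA : 0 ≤ A) (hγ : γ < 1)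
    (h : t ≤ A * t ^ γ) : t ≤ A ^ (1 / (1 - γ)) := by
  have h1 : (0 : ℝ) < 1 - γ := by linarith
  have h2 : t ^ (1 - γ) ≤ A := by
    have h3 : t ^ (1 - γ) * t ^ γ = t := by
      rw [← Real.rpow_add ht]
      norm_num
    have h4 : 0 < t ^ γ := Real.rpow_pos_of_pos ht γ
    by_contra hcon
    push Not at hcon
    have : A * t ^ γ < t ^ (1 - γ) * t ^ γ := mul_lt_mul_of_pos_right hcon h4
    rw [h3] at this
    linarith
  have h5 : (t ^ (1 - γ)) ^ (1 / (1 - γ)) = t := by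
    rw [← Real.rpow_mul ht.le, mul_one_div_cancel h1.ne', Real.rpow_one]
  calc t = (t ^ (1 - γ)) ^ (1 / (1 - γ)) := h5.symm
    _ ≤ A ^ (1 / (1 - γ)) := Real.rpow_le_rpow (Real.rpow_nonneg ht.le _) h2 (by positivity)

private theorem g4_log {f : ℕ → ℕ} {β : ℝ} {n t : ℕ} (h : (f n : ℝ) ≤ Real.exp ((n : ℝ) ^ β))
    (ht : 2 ^ t ≤ f n) : (t : ℝ) * Real.log 2 ≤ (n : ℝ) ^ β := by
  have h1 : ((2 : ℝ) ^ t) ≤ Real.exp ((n : ℝ) ^ β) := by
    refine le_trans ?_ h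
    exact_mod_cast ht
  have h2 := Real.log_le_log (by positivity) h1
  rwa [Real.log_pow, Real.log_exp] at h2

private theorem g4_pow {A x β : ℝ} (hA : 0 ≤ A) (hx : 0 ≤ x) :
    (A * x ^ β) ^ (1 / (1 - β)) = A ^ (1 / (1 - β)) * x ^ (β / (1 - β)) := by
  rw [Real.mul_rpow hA (Real.rpow_nonneg hx _), ← Real.rpow_mul hx]
  congr 2
  ring

theorem G4a (f : ℕ → ℕ) (β : ℝ) (h0 : 0 < β) (h1 : β < 1 / 2) (h : Gro f β) :
    ∃ C : ℝ, 1 ≤ C ∧ ∀ x t : ℕ, 1 ≤ x → 2 ^ t ≤ f (t * (x + 2 * t)) →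
      (t : ℝ) ≤ C * (x : ℝ) ^ (β / (1 - β)) := by
  obtain ⟨n0, hn0⟩ := Filter.eventually_atTop.1 h
  have hl2 : 0 < Real.log 2 := Real.log_pos (by norm_num)
  set A : ℝ := (3 : ℝ) ^ β / Real.log 2 with hA
  have hA0 : 0 ≤ A := by positivity
  refine ⟨max (max 1 (n0 : ℝ)) (max (A ^ (1 / (1 - 2 * β))) (A ^ (1 / (1 - β)))),
    le_trans (le_max_left _ _) (le_max_left _ _), ?_⟩
  intro x t hx ht
  have hθ : 0 ≤ β / (1 - β) := div_nonneg h0.le (by linarith)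
  have hx1 : (1 : ℝ) ≤ (x : ℝ) := by exact_mod_cast hx
  have hxθ : 1 ≤ (x : ℝ) ^ (β / (1 - β)) := Real.one_le_rpow hx1 hθ
  have hC0 : 0 ≤ max (max 1 (n0 : ℝ)) (max (A ^ (1 / (1 - 2 * β))) (A ^ (1 / (1 - β)))) :=
    le_trans zero_le_one (le_trans (le_max_left _ _) (le_max_left _ _))
  rcases Nat.eq_zero_or_pos t with rfl | htpos
  · simp only [Nat.cast_zero]
    positivity
  have ht0 : (0 : ℝ) < t := by exact_mod_cast htpos
  have hred : ∀ c : ℝ, (t : ℝ) ≤ c →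
      c ≤ max (max 1 (n0 : ℝ)) (max (A ^ (1 / (1 - 2 * β))) (A ^ (1 / (1 - β)))) →
      (t : ℝ) ≤ max (max 1 (n0 : ℝ)) (max (A ^ (1 / (1 - 2 * β))) (A ^ (1 / (1 - β)))) *
        (x : ℝ) ^ (β / (1 - β)) := by
    intro c h2 h3
    calc (t : ℝ) ≤ _ := h2.trans h3
      _ ≤ _ := le_mul_of_one_le_right hC0 hxθ
  rcases lt_or_ge (t * (x + 2 * t)) n0 with hlt | hge
  · apply hred (n0 : ℝ)
    · have : t ≤ n0 := by
        have : t * 1 ≤ t * (x + 2 * t) := Nat.mul_le_mul_left t (by omega)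
        omega
      exact_mod_cast this
    · exact le_trans (le_max_right _ _) (le_max_left _ _)
  have hlog := g4_log (hn0 _ hge) ht
  push_cast at hlog
  rcases le_total x t with hxt | hxt
  · have hxt' : (x : ℝ) ≤ t := by exact_mod_cast hxt
    have h5 : (t : ℝ) * ((x : ℝ) + 2 * t) ≤ 3 * (t : ℝ) ^ 2 := by nlinarith
    have h6 : ((t : ℝ) * ((x : ℝ) + 2 * t)) ^ β ≤ 3 ^ β * (t : ℝ) ^ (2 * β) := by
      refine le_trans (Real.rpow_le_rpow (by positivity) h5 h0.le) ?_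
      rw [Real.mul_rpow (by norm_num) (by positivity), ← Real.rpow_natCast (t : ℝ) 2,
        ← Real.rpow_mul ht0.le]
      norm_num
    have h7 : (t : ℝ) ≤ A * (t : ℝ) ^ (2 * β) := by
      have h8 : (t : ℝ) * Real.log 2 ≤ 3 ^ β * (t : ℝ) ^ (2 * β) := hlog.trans h6
      rw [hA, div_mul_eq_mul_div, le_div_iff₀ hl2]
      exact h8
    exact hred _ (g4_base ht0 hA0 (by linarith) h7)
      (le_trans (le_max_left _ _) (le_max_right _ _))
  · have hxt' : (t : ℝ) ≤ x := by exact_mod_cast hxt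
    have h5 : (t : ℝ) * ((x : ℝ) + 2 * t) ≤ 3 * ((t : ℝ) * x) := by nlinarith
    have h6 : ((t : ℝ) * ((x : ℝ) + 2 * t)) ^ β ≤ 3 ^ β * ((t : ℝ) ^ β * (x : ℝ) ^ β) := by
      refine le_trans (Real.rpow_le_rpow (by positivity) h5 h0.le) ?_
      rw [Real.mul_rpow (by norm_num) (by positivity), Real.mul_rpow ht0.le (by positivity)]
    have h7 : (t : ℝ) ≤ (A * (x : ℝ) ^ β) * (t : ℝ) ^ β := by
      have h8 : (t : ℝ) * Real.log 2 ≤ 3 ^ β * ((t : ℝ) ^ β * (x : ℝ) ^ β) := hlog.trans h6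
      have h9 : (A * (x : ℝ) ^ β) * (t : ℝ) ^ β = (3 ^ β * ((t : ℝ) ^ β * (x : ℝ) ^ β)) / Real.log 2 := by
        rw [hA]; ring
      rw [h9, le_div_iff₀ hl2]
      exact h8
    have h10 := g4_base ht0 (by positivity) (by linarith) h7
    rw [g4_pow hA0 (by positivity)] at h10
    refine h10.trans ?_
    apply mul_le_mul_of_nonneg_right _ (by positivity)
    exact le_trans (le_max_right _ _) (le_max_right _ _)

theorem G4b (f : ℕ → ℕ) (β : ℝ) (h0 : 0 < β) (h1 : β < 1 / 2) (h : Gro f β) :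
    ∃ C : ℝ, 1 ≤ C ∧ ∀ x s : ℕ, 1 ≤ x → 2 ^ s ≤ f (s * x) →
      (s : ℝ) ≤ C * (x : ℝ) ^ (β / (1 - β)) := by
  obtain ⟨n0, hn0⟩ := Filter.eventually_atTop.1 h
  have hl2 : 0 < Real.log 2 := Real.log_pos (by norm_num)
  set A : ℝ := 1 / Real.log 2 with hA
  have hA0 : 0 ≤ A := by positivity
  refine ⟨max (max 1 (n0 : ℝ)) (A ^ (1 / (1 - β))),
    le_trans (le_max_left _ _) (le_max_left _ _), ?_⟩
  intro x t hx ht
  have hθ : 0 ≤ β / (1 - β) := div_nonneg h0.le (by linarith)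
  have hx1 : (1 : ℝ) ≤ (x : ℝ) := by exact_mod_cast hx
  have hxθ : 1 ≤ (x : ℝ) ^ (β / (1 - β)) := Real.one_le_rpow hx1 hθ
  have hC0 : 0 ≤ max (max 1 (n0 : ℝ)) (A ^ (1 / (1 - β))) :=
    le_trans zero_le_one (le_trans (le_max_left _ _) (le_max_left _ _))
  rcases Nat.eq_zero_or_pos t with rfl | htpos
  · simp only [Nat.cast_zero]
    positivity
  have ht0 : (0 : ℝ) < t := by exact_mod_cast htpos
  rcases lt_or_ge (t * x) n0 with hlt | hge
  · have h2 : (t : ℝ) ≤ n0 := by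
      have : t ≤ n0 := by
        have : t * 1 ≤ t * x := Nat.mul_le_mul_left t hx
        omega
      exact_mod_cast this
    calc (t : ℝ) ≤ n0 := h2
      _ ≤ max (max 1 (n0 : ℝ)) (A ^ (1 / (1 - β))) := le_trans (le_max_right _ _) (le_max_left _ _)
      _ ≤ _ := le_mul_of_one_le_right hC0 hxθ
  have hlog := g4_log (hn0 _ hge) ht
  push_cast at hlog
  have h6 : ((t : ℝ) * (x : ℝ)) ^ β = (t : ℝ) ^ β * (x : ℝ) ^ β :=
    Real.mul_rpow ht0.le (by positivity)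
  have h7 : (t : ℝ) ≤ (A * (x : ℝ) ^ β) * (t : ℝ) ^ β := by
    have h9 : (A * (x : ℝ) ^ β) * (t : ℝ) ^ β = ((t : ℝ) ^ β * (x : ℝ) ^ β) / Real.log 2 := by
      rw [hA]; ring
    rw [h9, le_div_iff₀ hl2, ← h6]
    exact hlog
  have h10 := g4_base ht0 (by positivity) (by linarith) h7
  rw [g4_pow hA0 (by positivity)] at h10
  refine h10.trans ?_
  apply mul_le_mul_of_nonneg_right _ (by positivity)
  exact le_max_right _ _

end GP48
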