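import Mathlib
import Pool.Agent.LibGP48.Defs
import Pool.Agent.LibGP48.G4

/-!
# LibGP48 F0 (MEDIUM (real analysis))

f n, β as in G4b: C from G4b. 2^s <= f (s*m) and m <= b gives s <= C m^θ <= C b^θ, θ = β/(1-β). With b = (B s^(5/2))^κ: s <= C B^(κθ) s^(5κθ/2), and 5κθ/2 < 1 (hκ), so s^(1-5κθ/2) <= C B^(κθ) =: D, s <= D^(1/(1-5κθ/2)); s0 = ceil.  (s >= 1, m >= 1 as in G4b.)
-/

namespace GP48

open Subgroup

private theorem F0_base {t A γ : ℝ} (ht : 0 < t) (hγ : γ < 1)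
    (h : t ≤ A * t ^ γ) : t ≤ A ^ (1 / (1 - γ)) := by
  have h1 : (0 : ℝ) < 1 - γ := by linarith
  have h2 : t ^ (1 - γ) ≤ A := by
    have h3 : t ^ (1 - γ) * t ^ γ = t := by
      rw [← Real.rpow_add ht]
      norm_num
    have h4 : 0 < t ^ γ := Real.rpow_pos_of_pos ht γ
    by_contra hcon
    push Not at hcon
    have : A * t ^ γ < t ^ (1 - γ) * t ^ γ := mul_lt_mul_of_pos_right hcon h4
    rw [h3] at this
    linarith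
  have h5 : (t ^ (1 - γ)) ^ (1 / (1 - γ)) = t := by
    rw [← Real.rpow_mul ht.le, mul_one_div_cancel h1.ne', Real.rpow_one]
  calc t = (t ^ (1 - γ)) ^ (1 / (1 - γ)) := h5.symm
    _ ≤ A ^ (1 / (1 - γ)) := Real.rpow_le_rpow (Real.rpow_nonneg ht.le _) h2 (by positivity)

theorem F0 (f : ℕ → ℕ) (β κ B : ℝ) (h0 : 0 < β) (h1 : β < 1 / 2) (hκ0 : 0 < κ) (hB : 1 ≤ B)
    (hκ : 5 / 2 * κ * (β / (1 - β)) < 1) (h : Gro f β) :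
    ∃ s0 : ℕ, ∀ s m : ℕ, 1 ≤ s → 1 ≤ m → 2 ^ s ≤ f (s * m) →
      (m : ℝ) ≤ (B * (s : ℝ) ^ (5 / 2 : ℝ)) ^ κ → s ≤ s0 := by
  obtain ⟨C, hC1, hC⟩ := G4b f β h0 h1 h
  set θ : ℝ := β / (1 - β) with hθd
  have hθ : 0 < θ := div_pos h0 (by linarith)
  set D : ℝ := C * B ^ (κ * θ) with hD
  refine ⟨⌈D ^ (1 / (1 - 5 / 2 * κ * θ))⌉₊, ?_⟩
  intro s m hs hm hf hmb
  have hs0 : (0 : ℝ) < s := by exact_mod_cast hs
  have hm0 : (0 : ℝ) < m := by exact_mod_cast hm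
  have h2 : (s : ℝ) ≤ C * (m : ℝ) ^ θ := hC m s hm hf
  have hb0 : 0 ≤ B * (s : ℝ) ^ (5 / 2 : ℝ) := by positivity
  have h3 : (m : ℝ) ^ θ ≤ ((B * (s : ℝ) ^ (5 / 2 : ℝ)) ^ κ) ^ θ := Real.rpow_le_rpow hm0.le hmb hθ.le
  have h4 : ((B * (s : ℝ) ^ (5 / 2 : ℝ)) ^ κ) ^ θ = B ^ (κ * θ) * (s : ℝ) ^ (5 / 2 * κ * θ) := by
    rw [← Real.rpow_mul hb0, Real.mul_rpow (by linarith) (Real.rpow_nonneg hs0.le _), ← Real.rpow_mul hs0.le]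
    congr 2
    ring
  have h5 : (s : ℝ) ≤ D * (s : ℝ) ^ (5 / 2 * κ * θ) := by
    calc (s : ℝ) ≤ C * (m : ℝ) ^ θ := h2
      _ ≤ C * (B ^ (κ * θ) * (s : ℝ) ^ (5 / 2 * κ * θ)) := by
        rw [← h4]
        exact mul_le_mul_of_nonneg_left h3 (by linarith)
      _ = D * (s : ℝ) ^ (5 / 2 * κ * θ) := by rw [hD]; ring
  have h6 := F0_base hs0 hκ h5
  exact_mod_cast h6.trans (Nat.le_ceil _)

end GP48
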