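import Mathlib
import Pool.Agent.LibGP48.XDefs

/-!
# LibGP48 V1: cost of a commutator subgroup
-/

namespace GP48

open Subgroup

/-- elements of `closure A` and `closure B` commute modulo `N` as soon as generators do -/
private lemma V1_aux {G : Type*} [Group G] (N : Subgroup G) [N.Normal] (A B : Set G)
    (h : ∀ x ∈ A, ∀ y ∈ B, x * y * x⁻¹ * y⁻¹ ∈ N) : ⁅closure A, closure B⁆ ≤ N := by
  have key : ∀ x ∈ A, ∀ y ∈ B, QuotientGroup.mk' N x * QuotientGroup.mk' N y =
      QuotientGroup.mk' N y * QuotientGroup.mk' N x := by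
    intro x hx y hy
    have h1 : QuotientGroup.mk' N (x * y * x⁻¹ * y⁻¹) = 1 :=
      (QuotientGroup.eq_one_iff _).2 (h x hx y hy)
    rw [map_mul, map_mul, map_mul, map_inv, map_inv] at h1
    calc QuotientGroup.mk' N x * QuotientGroup.mk' N y = (QuotientGroup.mk' N x *
          QuotientGroup.mk' N y * (QuotientGroup.mk' N x)⁻¹ * (QuotientGroup.mk' N y)⁻¹) *
          (QuotientGroup.mk' N y * QuotientGroup.mk' N x) := by group
      _ = _ := by rw [h1, one_mul]
  have s1 : ∀ x ∈ A, ∀ y ∈ closure B, QuotientGroup.mk' N x * QuotientGroup.mk' N y =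
      QuotientGroup.mk' N y * QuotientGroup.mk' N x := by
    intro x hx y hy
    have h2 : closure B ≤ (centralizer {QuotientGroup.mk' N x}).comap (QuotientGroup.mk' N) := by
      rw [closure_le]
      intro z hz
      rw [SetLike.mem_coe, mem_comap, mem_centralizer_singleton_iff]
      exact (key x hx z hz).symm
    have h3 := h2 hy
    rw [mem_comap, mem_centralizer_singleton_iff] at h3
    exact h3.symm
  have s2 : ∀ y ∈ closure B, ∀ x ∈ closure A, QuotientGroup.mk' N x * QuotientGroup.mk' N y =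
      QuotientGroup.mk' N y * QuotientGroup.mk' N x := by
    intro y hy x hx
    have h2 : closure A ≤ (centralizer {QuotientGroup.mk' N y}).comap (QuotientGroup.mk' N) := by
      rw [closure_le]
      intro z hz
      rw [SetLike.mem_coe, mem_comap, mem_centralizer_singleton_iff]
      exact s1 z hz y hy
    have h3 := h2 hx
    rwa [mem_comap, mem_centralizer_singleton_iff] at h3
  rw [commutator_le]
  intro x hx y hy
  rw [← QuotientGroup.eq_one_iff, commutatorElement_def]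
  have h4 := s2 y hy x hx
  change QuotientGroup.mk' N (x * y * x⁻¹ * y⁻¹) = 1
  rw [map_mul, map_mul, map_mul, map_inv, map_inv, h4]
  group

/-- cost of a commutator subgroup -/
theorem V1 {G : Type*} [Group G] {S : Set G} {κ : ℝ} {m0 : ℕ} (hC : CostH S κ m0)
    (X Y : Subgroup G) (a b : ℕ) (hX : Rch S X a) (hY : Rch S Y b) (hab : m0 ≤ a + b) :
    ∃ m' : ℕ, m0 ≤ m' ∧ (m' : ℝ) ≤ (2 : ℝ) ^ κ * ((a : ℝ) + b) ∧ Rch S ⁅X, Y⁆ m' := by
  have hXn := hX.nor
  have hYn := hY.nor
  obtain ⟨m', h1, h2, h3⟩ := hC ⁅X, Y⁆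
    {g | ∃ x ∈ (X : Set G) ∩ wball S a, ∃ y ∈ (Y : Set G) ∩ wball S b,
      g = x * y * x⁻¹ * y⁻¹} 2 (a + b) inferInstance le_rfl hab
    (by
      rintro g ⟨x, ⟨hx, hx'⟩, y, ⟨hy, hy'⟩, rfl⟩
      refine ⟨commutator_mem_commutator hx hy, ?_⟩
      refine wball_mono S (by omega : a + b + a + b ≤ 2 * (a + b)) ?_
      exact wball_mul (wball_mul (wball_mul hx' hy') (wball_inv hx')) (wball_inv hy'))
    (by
      have h4 := V1_aux (normalClosure {g | ∃ x ∈ (X : Set G) ∩ wball S a,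
        ∃ y ∈ (Y : Set G) ∩ wball S b, g = x * y * x⁻¹ * y⁻¹}) ((X : Set G) ∩ wball S a)
        ((Y : Set G) ∩ wball S b) (fun x hx y hy => subset_normalClosure ⟨x, hx, y, hy, rfl⟩)
      rwa [← hX.gen, ← hY.gen] at h4)
  refine ⟨m', h1, ?_, h3⟩
  have h5 : ((2 : ℕ) : ℝ) ^ κ * ((a + b : ℕ) : ℝ) = (2 : ℝ) ^ κ * ((a : ℝ) + b) := by
    push_cast
    ring
  rw [← h5]
  exact h2

end GP48
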