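import Mathlib
import Pool.Agent.LibGP48.XDefs
import Pool.Agent.LibGP48.V1

/-!
# LibGP48 ITER (MEDIUM)

For j with ¬ ds Z j ≤ C: Rch S (ds Z j) m_j with m0 <= m_j, m_j <= (4^j)^κ m (induction: V1 with X = Y = ds Z j: m_(j+1) <= 2^κ (2 m_j) <= 4^κ m_j because 2 <= 2^κ as κ >= 1; Rch of ds Z 0 = Z). Let j be the largest (j < d) with ¬ ds Z j ≤ C (Nat.find of the first
j with ds Z j ≤ C, j >= 1 since ¬ Z ≤ C): Y = ds Z (j-1), ⁅Y,Y⁆ = ds Z j ≤ C, bound (4^(j-1))^κ m <= (4^d)^κ m.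
-/

namespace GP48

open Subgroup

/-- derived steps -/
theorem ITER {G : Type*} [Group G] {S : Set G} {κ : ℝ} (hκ : 1 ≤ κ) {m0 : ℕ} (hC : CostH S κ m0)
    (C Z : Subgroup G) (m : ℕ) (hZ : Rch S Z m) (hm : m0 ≤ m) (hZC : ¬ Z ≤ C) (d : ℕ)
    (hd : ds Z d ≤ C) : OutY S m0 C (((4 : ℝ) ^ d) ^ κ * m) := by
  classical
  have key : ∀ j : ℕ, ∃ mj : ℕ, m0 ≤ mj ∧ (mj : ℝ) ≤ ((4 : ℝ) ^ j) ^ κ * m ∧
      Rch S (ds Z j) mj := by
    intro j
    induction j with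
    | zero => exact ⟨m, hm, by rw [pow_zero, Real.one_rpow, one_mul], hZ⟩
    | succ j ih =>
      obtain ⟨mj, h1, h2, h3⟩ := ih
      obtain ⟨m', g1, g2, g3⟩ := V1 hC (ds Z j) (ds Z j) mj mj h3 h3 (by omega)
      refine ⟨m', g1, g2.trans ?_, by rw [ds_succ]; exact g3⟩
      have h2k : (2 : ℝ) ≤ (2 : ℝ) ^ κ := by
        calc (2 : ℝ) = (2 : ℝ) ^ (1 : ℝ) := (Real.rpow_one 2).symm
          _ ≤ (2 : ℝ) ^ κ := Real.rpow_le_rpow_of_exponent_le (by norm_num) hκ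
      have h4 : (4 : ℝ) ^ κ = (2 : ℝ) ^ κ * (2 : ℝ) ^ κ := by
        rw [← Real.mul_rpow (by norm_num) (by norm_num)]
        norm_num
      have h5 : ((4 : ℝ) ^ (j + 1)) ^ κ = (4 : ℝ) ^ κ * ((4 : ℝ) ^ j) ^ κ := by
        rw [pow_succ, mul_comm, Real.mul_rpow (by norm_num) (by positivity)]
      have hmj : (0 : ℝ) ≤ mj := Nat.cast_nonneg _
      have hp : (0 : ℝ) ≤ (2 : ℝ) ^ κ := by positivity
      calc (2 : ℝ) ^ κ * ((mj : ℝ) + mj) = (2 : ℝ) ^ κ * (2 * (mj : ℝ)) := by ring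
        _ ≤ (2 : ℝ) ^ κ * ((2 : ℝ) ^ κ * (mj : ℝ)) :=
            mul_le_mul_of_nonneg_left (mul_le_mul_of_nonneg_right h2k hmj) hp
        _ = (4 : ℝ) ^ κ * (mj : ℝ) := by rw [h4]; ring
        _ ≤ (4 : ℝ) ^ κ * (((4 : ℝ) ^ j) ^ κ * m) :=
            mul_le_mul_of_nonneg_left h2 (by positivity)
        _ = ((4 : ℝ) ^ (j + 1)) ^ κ * m := by rw [h5]; ring
  have hex : ∃ j, ds Z j ≤ C := ⟨d, hd⟩
  have hn : Nat.find hex ≤ d := Nat.find_min' hex hd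
  have hspec := Nat.find_spec hex
  have hmin : ∀ k, k < Nat.find hex → ¬ ds Z k ≤ C := fun k hk => Nat.find_min hex hk
  generalize Nat.find hex = n at hn hspec hmin
  cases n with
  | zero => exact absurd hspec hZC
  | succ k =>
    obtain ⟨mk, h1, h2, h3⟩ := key k
    refine ⟨ds Z k, mk, h3, h1, h2.trans ?_, hmin k (Nat.lt_succ_self k), hspec⟩
    refine mul_le_mul_of_nonneg_right ?_ (Nat.cast_nonneg _)
    refine Real.rpow_le_rpow (by positivity) ?_ (by linarith)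
    exact pow_le_pow_right₀ (by norm_num) (by omega)

end GP48
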