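import Mathlib
import Pool.Agent.LibGP48.Defs

/-!
# LibGP48 I2 (MEDIUM)

All members of Ω have the same dimension (Sys.trans, LinearEquiv.finrank_eq for φ g); V is their direct sum (ind, top), so finrank V = sum of the finranks = card * finrank W
(e.g. DirectSum.IsInternal / iSupIndep and iSup = ⊤, Submodule.finrank_eq... ; or induction on subfinsets with finrank (W ⊔ W') = sum for disjoint).
-/

namespace GP48

open Subgroup

theorem I2 {p : ℕ} [Fact p.Prime] {V G : Type*} [AddCommGroup V] [Module (ZMod p) V]
    [Module.Finite (ZMod p) V] [Group G] (φ : G →* (V ≃ₗ[ZMod p] V))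
    (Ω : Finset (Submodule (ZMod p) V)) (hΩ : Sys φ Ω) :
    ∀ W ∈ Ω, Ω.card * Module.finrank (ZMod p) W = Module.finrank (ZMod p) V := by
  classical
  intro W hW
  have hdim : ∀ W' ∈ Ω, Module.finrank (ZMod p) W' = Module.finrank (ZMod p) W := by
    intro W' hW'
    obtain ⟨g, hg⟩ := hΩ.trans W hW W' hW'
    rw [← hg]
    exact LinearMap.finrank_range_of_inj (f := ((φ g : V →ₗ[ZMod p] V).comp W.subtype))
      (by
        intro x y hxy
        exact Subtype.ext ((φ g).injective hxy)) ▸ (by
        rw [LinearMap.range_comp, Submodule.range_subtype])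
  have hint : DirectSum.IsInternal (fun i : (Ω : Set (Submodule (ZMod p) V)) => (i : Submodule (ZMod p) V)) := by
    apply DirectSum.isInternal_submodule_of_iSupIndep_of_iSup_eq_top
    · exact (sSupIndep_iff _).1 hΩ.ind
    · rw [← sSup_eq_iSup']
      exact hΩ.top
  have e := LinearEquiv.ofBijective (DirectSum.coeLinearMap
    (fun i : (Ω : Set (Submodule (ZMod p) V)) => (i : Submodule (ZMod p) V))) hint
  have h1 := e.finrank_eq
  rw [Module.finrank_directSum] at h1
  rw [← h1, Finset.sum_congr rfl fun i _ => hdim i.1 i.2, Finset.sum_const, smul_eq_mul, Finset.card_univ]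
  congr 1
  simp

end GP48
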