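import Mathlib
import Pool.Agent.LibGP48.Defs

/-!
# LibGP48 I4 (STRONG)

Refinement of a system of imprimitivity. W in Ω, H its stabiliser, Ω' a system for the action of H on W. Ω'' = {(U.map W.subtype).map (φ g) : U in Ω', g in G} (finite: V is finite dimensional over ZMod p, so Submodule (ZMod p) V is
finite: use V finite, classical Finset of all of them). For W' = φ g W in Ω the members of Ω'' inside W' are the (U.map W.subtype).map (φ g), U in Ω' (if φ g W = φ g' W then g⁻¹ g' in H permutes Ω'). They are independent with sup W' (ind, top of Ω' transported by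
φ g), the W' are independent with sup ⊤: so Ω'' is independent with sup ⊤ (Finset.sup / iSupIndep of iSupIndep; or by dimensions: the sum of the finranks of the members of Ω'' is Ω.card * Ω'.card * finrank U = finrank V and their sup is ⊤, hence independent).
Members of Ω'' for different W' are different (nonzero, inside independent W'), so card Ω'' = Ω.card * Ω'.card. Transitivity, ne, map: clear.
-/

namespace GP48

open Subgroup

/-- refinement of a system of imprimitivity -/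
theorem I4 {p : ℕ} [Fact p.Prime] {V G : Type*} [AddCommGroup V] [Module (ZMod p) V]
    [Module.Finite (ZMod p) V] [Group G] (φ : G →* (V ≃ₗ[ZMod p] V))
    (Ω : Finset (Submodule (ZMod p) V)) (hΩ : Sys φ Ω) (W : Submodule (ZMod p) V) (hW : W ∈ Ω)
    (H : Subgroup G) (hH : ∀ g : G, g ∈ H ↔ W.map (φ g : V →ₗ[ZMod p] V) = W)
    (ψ : H →* (W ≃ₗ[ZMod p] W)) (hψ : ∀ (h : H) (w : W), (ψ h w : V) = φ h w)
    (Ω' : Finset (Submodule (ZMod p) W)) (hΩ' : Sys ψ Ω') :
    ∃ Ω'' : Finset (Submodule (ZMod p) V), Sys φ Ω'' ∧ Ω''.card = Ω.card * Ω'.card := by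
  classical
  -- the embedding `φ g` restricted to `W`
  let f : G → (W →ₗ[ZMod p] V) := fun g => (φ g : V →ₗ[ZMod p] V) ∘ₗ W.subtype
  have hfa : ∀ g w, f g w = φ g (w : V) := fun g w => rfl
  have hfinj : ∀ g, Function.Injective (f g) := fun g x y hxy =>
    Subtype.ext ((φ g).injective (by simpa [hfa] using hxy))
  have hfle : ∀ g (U : Submodule (ZMod p) W), U.map (f g) ≤ W.map (φ g : V →ₗ[ZMod p] V) := by
    rintro g U _ ⟨x, _, rfl⟩
    exact ⟨x, x.2, rfl⟩
  have hfmul : ∀ g g' (U : Submodule (ZMod p) W),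
      (U.map (f g)).map (φ g' : V →ₗ[ZMod p] V) = U.map (f (g' * g)) := by
    intro g g' U
    rw [← Submodule.map_comp]
    congr 1
    ext w
    simp [hfa]
  have hfH : ∀ g (h : H) (U : Submodule (ZMod p) W),
      U.map (f (g * h)) = (U.map (ψ h : W →ₗ[ZMod p] W)).map (f g) := by
    intro g h U
    rw [← Submodule.map_comp]
    congr 1
    ext w
    simp [hfa, hψ]
  -- choice of the transporters
  choose! γ hγ using fun (W' : Submodule (ZMod p) V) (hW' : W' ∈ Ω) => hΩ.trans W hW W' hW'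
  -- two members of `Ω` with a common nonzero part are equal
  have hΩeq : ∀ W₁ ∈ Ω, ∀ W₂ ∈ Ω, ∀ X : Submodule (ZMod p) V, X ≠ ⊥ → X ≤ W₁ → X ≤ W₂ → W₁ = W₂ := by
    intro W₁ h₁ W₂ h₂ X hX hX₁ hX₂
    by_contra hne
    have hd : Disjoint W₁ W₂ := hΩ.ind.pairwiseDisjoint h₁ h₂ hne
    exact hX (le_bot_iff.1 (hd hX₁ hX₂))
  have hfne : ∀ g, ∀ U ∈ Ω', U.map (f g) ≠ ⊥ := by
    intro g U hU h
    apply hΩ'.ne U hU
    rw [eq_bot_iff]
    intro x hx
    have h1 : f g x ∈ U.map (f g) := ⟨x, hx, rfl⟩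
    rw [h, Submodule.mem_bot] at h1
    exact (Submodule.mem_bot _).2 (hfinj g (by rw [h1, map_zero]))
  let F : Submodule (ZMod p) V × Submodule (ZMod p) W → Submodule (ZMod p) V := fun x => x.2.map (f (γ x.1))
  have hmem : ∀ g, ∀ U ∈ Ω', U.map (f g) ∈ (Ω ×ˢ Ω').image F := by
    intro g U hU
    have hW' : W.map (φ g : V →ₗ[ZMod p] V) ∈ Ω := hΩ.map g W hW
    set W' := W.map (φ g : V →ₗ[ZMod p] V) with hW'def
    have h1 := hγ W' hW'
    have hh : (γ W')⁻¹ * g ∈ H := by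
      rw [hH]
      have h2 : W.map (φ ((γ W')⁻¹ * g) : V →ₗ[ZMod p] V) =
          (W.map (φ g : V →ₗ[ZMod p] V)).map (φ (γ W')⁻¹ : V →ₗ[ZMod p] V) := by
        rw [← Submodule.map_comp]
        congr 1
        ext v
        simp
      have e : W.map (φ g : V →ₗ[ZMod p] V) = W.map (φ (γ W') : V →ₗ[ZMod p] V) := h1.symm
      rw [h2, e, ← Submodule.map_comp]
      have h3 : ((φ (γ W')⁻¹ : V →ₗ[ZMod p] V) ∘ₗ (φ (γ W') : V →ₗ[ZMod p] V)) = LinearMap.id := by
        ext v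
        simp only [LinearMap.comp_apply, LinearEquiv.coe_coe, LinearMap.id_apply]
        rw [map_inv]
        exact (φ (γ W')).symm_apply_apply v
      rw [h3, Submodule.map_id]
    refine Finset.mem_image.2 ⟨(W', U.map (ψ ⟨_, hh⟩ : W →ₗ[ZMod p] W)),
      Finset.mem_product.2 ⟨hW', hΩ'.map _ U hU⟩, ?_⟩
    show (U.map (ψ ⟨_, hh⟩ : W →ₗ[ZMod p] W)).map (f (γ W')) = U.map (f g)
    rw [← hfH]
    congr 2
    show γ W' * ((γ W')⁻¹ * g) = g
    group
  have hrep : ∀ X ∈ (Ω ×ˢ Ω').image F, ∃ W' ∈ Ω, ∃ U ∈ Ω', X = U.map (f (γ W')) := by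
    intro X hX
    obtain ⟨⟨W', U⟩, h1, rfl⟩ := Finset.mem_image.1 hX
    exact ⟨W', (Finset.mem_product.1 h1).1, U, (Finset.mem_product.1 h1).2, rfl⟩
  have hinj : ∀ g, Function.Injective (fun U : Submodule (ZMod p) W => U.map (f g)) := fun g =>
    Submodule.map_injective_of_injective (hfinj g)
  refine ⟨(Ω ×ˢ Ω').image F, ⟨?_, ?_, ?_, ?_, ?_⟩, ?_⟩
  · intro X hX
    obtain ⟨W', hW', U, hU, rfl⟩ := hrep X hX
    exact hfne _ U hU
  · intro g X hX
    obtain ⟨W', hW', U, hU, rfl⟩ := hrep X hX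
    rw [hfmul]
    exact hmem _ U hU
  · intro X hX X' hX'
    obtain ⟨W₁, hW₁, U₁, hU₁, rfl⟩ := hrep X hX
    obtain ⟨W₂, hW₂, U₂, hU₂, rfl⟩ := hrep X' hX'
    obtain ⟨h, hh⟩ := hΩ'.trans U₁ hU₁ U₂ hU₂
    refine ⟨γ W₂ * h * (γ W₁)⁻¹, ?_⟩
    rw [hfmul, ← hh, ← hfH]
    congr 2
    group
  · intro X hX
    obtain ⟨W', hW', U, hU, rfl⟩ := hrep X hX
    have hle : sSup ((((Ω ×ˢ Ω').image F : Finset _) : Set (Submodule (ZMod p) V)) \ {U.map (f (γ W'))}) ≤
        (sSup ((Ω' : Set (Submodule (ZMod p) W)) \ {U})).map (f (γ W')) ⊔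
          sSup ((Ω : Set (Submodule (ZMod p) V)) \ {W'}) := by
      apply sSup_le
      rintro Y ⟨hY, hYne⟩
      obtain ⟨W₂, hW₂, U₂, hU₂, rfl⟩ := hrep Y hY
      by_cases h : W₂ = W'
      · subst h
        have hmem2 : U₂ ∈ ((Ω' : Set (Submodule (ZMod p) W)) \ {U}) := by
          refine ⟨hU₂, fun h => ?_⟩
          apply hYne
          rw [Set.mem_singleton_iff] at h ⊢
          rw [h]
        exact le_trans (Submodule.map_mono (le_sSup hmem2)) le_sup_left
      · refine le_trans ?_ le_sup_right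
        refine le_trans (hfle _ U₂) ?_
        rw [hγ W₂ hW₂]
        exact le_sSup ⟨hW₂, h⟩
    refine Disjoint.mono_right hle ?_
    apply Disjoint.disjoint_sup_right_of_disjoint_sup_left
    · rw [disjoint_iff, ← Submodule.map_inf _ (hfinj _), (hΩ'.ind hU).eq_bot, Submodule.map_bot]
    · refine Disjoint.mono_left ?_ (hΩ.ind hW')
      refine sup_le ?_ ?_
      · exact le_trans (hfle _ U) (hγ W' hW').le
      · exact le_trans (hfle _ _) (hγ W' hW').le
  · rw [eq_top_iff, ← hΩ.top]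
    apply sSup_le
    intro W' hW'
    have h1 : W' = (sSup (Ω' : Set (Submodule (ZMod p) W))).map (f (γ W')) := by
      rw [hΩ'.top, Submodule.map_top]
      have h2 : W.map (φ (γ W') : V →ₗ[ZMod p] V) = LinearMap.range (f (γ W')) := by
        ext v
        constructor
        · rintro ⟨w, hw, rfl⟩
          exact ⟨⟨w, hw⟩, rfl⟩
        · rintro ⟨w, rfl⟩
          exact ⟨w, w.2, rfl⟩
      rw [← h2, hγ W' hW']
    rw [h1, sSup_eq_iSup, Submodule.map_iSup]
    refine iSup_le fun U => ?_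
    rw [Submodule.map_iSup]
    refine iSup_le fun hU => ?_
    exact le_sSup (hmem _ U hU)
  · rw [Finset.card_image_of_injOn, Finset.card_product]
    rintro ⟨W₁, U₁⟩ h₁ ⟨W₂, U₂⟩ h₂ heq
    have h₁' := Finset.mem_product.1 (Finset.mem_coe.1 h₁)
    have h₂' := Finset.mem_product.1 (Finset.mem_coe.1 h₂)
    have heq' : U₁.map (f (γ W₁)) = U₂.map (f (γ W₂)) := heq
    have hWW : W₁ = W₂ := by
      refine hΩeq W₁ h₁'.1 W₂ h₂'.1 (U₁.map (f (γ W₁))) (hfne _ U₁ h₁'.2) ?_ ?_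
      · exact le_trans (hfle _ U₁) (hγ W₁ h₁'.1).le
      · rw [heq']
        exact le_trans (hfle _ U₂) (hγ W₂ h₂'.1).le
    subst hWW
    have hUU : U₁ = U₂ := hinj _ heq'
    rw [hUU]

end GP48
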