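import Mathlib
import Pool.Agent.LibGP48.Defs

/-!
# LibGP48 I5 (MEDIUM)

H = {g | W.map (φ g) = W} (subgroup), ψ h = the restriction of φ h to W (LinearEquiv.ofSubmodules / LinearEquiv.ofBijective; see the proof of I3 in I3.lean, which contains all this). Irr ψ: let U <= W be ψ-invariant, U != ⊥;
U_g = (U.map W.subtype).map (φ g) depends only on φ g W; the sup of all of them is φ-invariant, nonzero, so ⊤ (hirr); each U_g lies in φ g W, and Ω is independent, so U = W (copy from I3.lean). W is nontrivial (hΩ.ne).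
-/

namespace GP48

open Subgroup

private lemma I5_map_one {F V G : Type*} [Field F] [AddCommGroup V] [Module F V] [Group G]
    (φ : G →* (V ≃ₗ[F] V)) {x : G} (hx : φ x = 1) (W : Submodule F V) :
    W.map (φ x : V →ₗ[F] V) = W := by
  rw [hx]
  ext v
  simp [Submodule.mem_map]

private lemma I5_map_mul {F V G : Type*} [Field F] [AddCommGroup V] [Module F V] [Group G]
    (φ : G →* (V ≃ₗ[F] V)) (a b : G) (W : Submodule F V) :
    W.map (φ (a * b) : V →ₗ[F] V) = (W.map (φ b : V →ₗ[F] V)).map (φ a : V →ₗ[F] V) := by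
  rw [map_mul, ← Submodule.map_comp]
  rfl

/-- the action of the stabiliser on the block -/
private def I5_res {F V G : Type*} [Field F] [AddCommGroup V] [Module F V] [Group G]
    (φ : G →* (V ≃ₗ[F] V)) (W : Submodule F V) (H : Subgroup G)
    (hH : ∀ h ∈ H, ∀ w ∈ W, φ h w ∈ W) : H →* (W ≃ₗ[F] W) where
  toFun h := LinearEquiv.ofLinear
    ((φ (h : G) : V →ₗ[F] V).restrict (fun w hw => hH h h.2 w hw))
    ((φ ((h : G)⁻¹) : V →ₗ[F] V).restrict (fun w hw => hH _ (H.inv_mem h.2) w hw))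
    (by
      ext w
      change φ (h : G) (φ ((h : G)⁻¹) w) = w
      rw [← LinearEquiv.mul_apply, ← map_mul, mul_inv_cancel, map_one]; rfl)
    (by
      ext w
      change φ ((h : G)⁻¹) (φ (h : G) w) = w
      rw [← LinearEquiv.mul_apply, ← map_mul, inv_mul_cancel, map_one]; rfl)
  map_one' := by
    ext w
    change φ ((1 : H) : G) (w : V) = w
    rw [Subgroup.coe_one, map_one]; rfl
  map_mul' a b := by
    ext w
    change φ (((a * b : H)) : G) (w : V) = φ (a : G) (φ (b : G) w)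
    rw [Subgroup.coe_mul, map_mul]; rfl

private lemma I5_res_apply {F V G : Type*} [Field F] [AddCommGroup V] [Module F V] [Group G]
    (φ : G →* (V ≃ₗ[F] V)) (W : Submodule F V) (H : Subgroup G)
    (hH : ∀ h ∈ H, ∀ w ∈ W, φ h w ∈ W) (h : H) (w : W) :
    ((I5_res φ W H hH h w : W) : V) = φ (h : G) (w : V) := rfl

/-- the action of the stabiliser of a member of a system of imprimitivity is irreducible -/
theorem I5 {p : ℕ} [Fact p.Prime] {V G : Type*} [AddCommGroup V] [Module (ZMod p) V]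
    [Module.Finite (ZMod p) V] [Group G] (φ : G →* (V ≃ₗ[ZMod p] V)) (hirr : Irr φ)
    (Ω : Finset (Submodule (ZMod p) V)) (hΩ : Sys φ Ω) (W : Submodule (ZMod p) V) (hW : W ∈ Ω) :
    ∃ (H : Subgroup G) (ψ : H →* (W ≃ₗ[ZMod p] W)),
      (∀ g : G, g ∈ H ↔ W.map (φ g : V →ₗ[ZMod p] V) = W) ∧
      (∀ (h : H) (w : W), (ψ h w : V) = φ h w) ∧ Irr ψ := by
  classical
  let H : Subgroup G :=
    { carrier := {g | W.map (φ g : V →ₗ[ZMod p] V) = W}
      mul_mem' := by
        intro a b ha hb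
        show W.map (φ (a * b) : V →ₗ[ZMod p] V) = W
        rw [I5_map_mul, hb, ha]
      one_mem' := I5_map_one φ (map_one φ) W
      inv_mem' := by
        intro a ha
        show W.map (φ a⁻¹ : V →ₗ[ZMod p] V) = W
        have h1 : W.map (φ (a⁻¹ * a) : V →ₗ[ZMod p] V) = W := by
          rw [inv_mul_cancel]
          exact I5_map_one φ (map_one φ) W
        rwa [I5_map_mul, (show W.map (φ a : V →ₗ[ZMod p] V) = W from ha)] at h1 }
  have hHmem : ∀ h : G, h ∈ H ↔ W.map (φ h : V →ₗ[ZMod p] V) = W := fun h => Iff.rfl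
  have hH : ∀ h ∈ H, ∀ w ∈ W, φ h w ∈ W := by
    intro h hh w hw
    have h1 := (hHmem h).1 hh
    rw [← h1]
    exact Submodule.mem_map_of_mem (f := (φ h : V →ₗ[ZMod p] V)) hw
  let ψ := I5_res φ W H hH
  refine ⟨H, ψ, hHmem, fun h w => I5_res_apply φ W H hH h w, ?_⟩
  refine ⟨(Submodule.nontrivial_iff_ne_bot).2 (hΩ.ne W hW), ?_⟩
  intro U hU
  by_cases hU0 : U = ⊥
  · exact Or.inl hU0
  right
  set U' : Submodule (ZMod p) V := U.map W.subtype with hU'
  have hU'W : U' ≤ W := by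
    rintro _ ⟨u, _, rfl⟩
    exact u.2
  have hU'inv : ∀ h ∈ H, U'.map (φ h : V →ₗ[ZMod p] V) ≤ U' := by
    rintro h hh _ ⟨_, ⟨u, hu, rfl⟩, rfl⟩
    exact ⟨ψ ⟨h, hh⟩ u, hU ⟨h, hh⟩ u hu, rfl⟩
  have htop : (⨆ x : G, U'.map (φ x : V →ₗ[ZMod p] V)) = ⊤ := by
    rcases hirr.2 (⨆ x : G, U'.map (φ x : V →ₗ[ZMod p] V)) (by
      intro y w hw
      have h1 : (⨆ x : G, U'.map (φ x : V →ₗ[ZMod p] V)).map (φ y : V →ₗ[ZMod p] V) ≤
          ⨆ x : G, U'.map (φ x : V →ₗ[ZMod p] V) := by
        rw [Submodule.map_iSup]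
        refine iSup_le fun x => ?_
        rw [← I5_map_mul]
        exact le_iSup (fun x : G => U'.map (φ x : V →ₗ[ZMod p] V)) (y * x)
      exact h1 (Submodule.mem_map_of_mem (f := (φ y : V →ₗ[ZMod p] V)) hw)) with h0 | h0
    · exfalso
      apply hU0
      rw [Submodule.eq_bot_iff]
      intro u hu
      have h2 : (u : V) ∈ ⨆ x : G, U'.map (φ x : V →ₗ[ZMod p] V) := by
        refine (le_iSup (fun x : G => U'.map (φ x : V →ₗ[ZMod p] V)) 1) ?_
        refine ⟨(u : V), ⟨u, hu, rfl⟩, ?_⟩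
        rw [map_one]; rfl
      rw [h0, Submodule.mem_bot] at h2
      exact Subtype.ext h2
    · exact h0
  have hle : (⊤ : Submodule (ZMod p) V) ≤
      U' ⊔ sSup ((Ω : Set (Submodule (ZMod p) V)) \ {W}) := by
    rw [← htop]
    refine iSup_le fun x => ?_
    by_cases hx : x ∈ H
    · exact (hU'inv x hx).trans le_sup_left
    · refine le_trans ?_ le_sup_right
      refine le_trans (Submodule.map_mono hU'W) (le_sSup ⟨hΩ.map x W hW, ?_⟩)
      intro heq
      exact hx ((hHmem x).2 heq)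
  have hWU : W ≤ U' := by
    intro w hw
    obtain ⟨u, hu, v, hv, huv⟩ := Submodule.mem_sup.1 (hle (Submodule.mem_top (x := w)))
    have hvW : v ∈ W := by
      have : v = w - u := by rw [← huv]; abel
      rw [this]
      exact W.sub_mem hw (hU'W hu)
    have hdis := hΩ.ind hW
    have hv0 : v ∈ (⊥ : Submodule (ZMod p) V) := hdis.le_bot ⟨hvW, hv⟩
    rw [Submodule.mem_bot] at hv0
    rw [← huv, hv0, add_zero]
    exact hu
  rw [eq_top_iff]
  intro w _
  obtain ⟨u, hu, huw⟩ := hWU w.2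
  have : u = w := Subtype.ext huw
  exact this ▸ hu

end GP48
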