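import Mathlib
import Pool.Agent.LibGP48.Defs

/-!
# LibGP48 I1 (STRONG)

R is a finite dimensional commutative algebra (make it a CommRing by hcomm), V a faithful R-module. Take a minimal nonzero R-submodule U of V (V finite dimensional); I0 = annihilator of U in R is a
maximal ideal (U simple). For an ideal I: V_I = {v : x v = 0 for all x in I}. U <= V_I0, so V_I0 != 0. For g in G: I0^g = {φ g x φ g⁻¹ : x in I0} is again a maximal ideal of R (hnorm) and
φ g (V_I0) = V_(I0^g). Ω = {V_(I0^g) : g in G}. Distinct members come from distinct maximal ideals, and for pairwise comaximal ideals the V_I are independent (Submodule.supIndep_torsionBySet_ideal,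
V_I = torsionBySet R V I), so Ω is finite (finite dimension: an independent set of nonzero subspaces) and sSupIndep. sSup Ω is φ-invariant and nonzero, so = ⊤ (hirr). Sys.map, Sys.trans are clear.
If Ω had only one element then V = V_I0, so I0 kills V, I0 = 0 (faithful), R is a field, against hnf. So 2 <= card.
-/

namespace GP48

open Subgroup

private theorem exists_max {F V R : Type*} [Field F] [AddCommGroup V] [Module F V]
    [Module.Finite F V] [Nontrivial V] [CommRing R] [Algebra F R] [Module R V]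
    [IsScalarTower F R V] :
    ∃ I : Ideal R, I.IsMaximal ∧ Submodule.torsionBySet R V I ≠ ⊥ := by
  haveI : IsArtinian R V := isArtinian_of_tower F inferInstance
  obtain ⟨U, hU⟩ := IsAtomic.exists_atom (Submodule R V)
  haveI : IsSimpleModule R U := isSimpleModule_iff_isAtom.2 hU
  refine ⟨Module.annihilator R U, IsSimpleModule.annihilator_isMaximal, ?_⟩
  intro h
  apply hU.1
  rw [eq_bot_iff, ← h]
  intro v hv
  rw [Submodule.mem_torsionBySet_iff]
  rintro ⟨a, ha⟩
  have := Module.mem_annihilator.1 ha ⟨v, hv⟩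
  simpa using congrArg Subtype.val this

private theorem indep_max {F V R : Type*} [Field F] [AddCommGroup V] [Module F V]
    [CommRing R] [Algebra F R] [Module R V] [IsScalarTower F R V] :
    iSupIndep (fun I : MaximalSpectrum R =>
      (Submodule.torsionBySet R V (I.asIdeal : Set R)).restrictScalars F) := by
  have h1 : iSupIndep (fun I : MaximalSpectrum R =>
      (Submodule.torsionBySet R V (I.asIdeal : Set R))) := by
    rw [iSupIndep_iff_supIndep]
    intro s
    apply Submodule.supIndep_torsionBySet_ideal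
    intro i _ j _ hij
    refine Ideal.IsMaximal.coprime_of_ne i.isMaximal j.isMaximal ?_
    intro h
    exact hij (MaximalSpectrum.ext h)
  rw [iSupIndep_def]
  intro i
  rw [disjoint_iff, eq_bot_iff]
  intro v hv
  have h2 := iSupIndep_def.1 h1 i
  rw [disjoint_iff, eq_bot_iff] at h2
  apply h2
  refine ⟨hv.1, ?_⟩
  have h3 : (⨆ j, ⨆ (_ : j ≠ i), (Submodule.torsionBySet R V (j.asIdeal : Set R)).restrictScalars F)
      ≤ (⨆ j, ⨆ (_ : j ≠ i), (Submodule.torsionBySet R V (j.asIdeal : Set R))).restrictScalars F := by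
    refine iSup₂_le fun j hj => ?_
    intro w hw
    exact (le_iSup₂ (f := fun j (_ : j ≠ i) => (Submodule.torsionBySet R V (j.asIdeal : Set R))) j hj) hw
  exact h3 hv.2

theorem I1 {F V G : Type*} [Field F] [AddCommGroup V] [Module F V] [Module.Finite F V] [Group G]
    (φ : G →* (V ≃ₗ[F] V)) (hirr : Irr φ) (R : Subalgebra F (Module.End F V))
    (hcomm : ∀ x ∈ R, ∀ y ∈ R, x * y = y * x)
    (hnorm : ∀ g : G, ∀ x ∈ R, (φ g : V →ₗ[F] V) ∘ₗ x ∘ₗ (φ g⁻¹ : V →ₗ[F] V) ∈ R)
    (hnf : ¬ ∀ x ∈ R, x ≠ 0 → ∃ y ∈ R, x * y = 1) :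
    ∃ Ω : Finset (Submodule F V), Sys φ Ω ∧ 2 ≤ Ω.card := by
  classical
  obtain ⟨hnt, hirr⟩ := hirr
  letI cR : CommRing R :=
    { (inferInstance : Ring R) with mul_comm := fun x y => Subtype.ext (hcomm x.1 x.2 y.1 y.2) }
  letI aR : Algebra F R := Subalgebra.algebra R
  haveI : IsScalarTower F R V := ⟨fun a x v => rfl⟩
  obtain ⟨I0, hI0, hne⟩ := exists_max (F := F) (V := V) (R := R)
  have hinv : ∀ (g : G) (v : V), φ g⁻¹ (φ g v) = v := by
    intro g v
    have : (φ g⁻¹ * φ g) v = v := by rw [← map_mul]; simp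
    exact this
  have hinv' : ∀ (g : G) (v : V), φ g (φ g⁻¹ v) = v := by
    intro g v
    have : (φ g * φ g⁻¹) v = v := by rw [← map_mul]; simp
    exact this
  have hmul : ∀ (g h : G) (v : V), φ (g * h) v = φ g (φ h v) := by
    intro g h v
    rw [map_mul]; rfl
  -- conjugation
  let c : G → R →+* R := fun g =>
    { toFun := fun x => ⟨(φ g : V →ₗ[F] V) ∘ₗ x.1 ∘ₗ (φ g⁻¹ : V →ₗ[F] V), hnorm g x.1 x.2⟩
      map_one' := by
        apply Subtype.ext
        ext v
        exact hinv' g v
      map_mul' := by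
        intro x y
        apply Subtype.ext
        ext v
        change φ g (x.1 (y.1 (φ g⁻¹ v))) = φ g (x.1 (φ g⁻¹ (φ g (y.1 (φ g⁻¹ v)))))
        rw [hinv]
      map_zero' := by
        apply Subtype.ext
        ext v
        exact map_zero (φ g)
      map_add' := by
        intro x y
        apply Subtype.ext
        ext v
        exact map_add (φ g) _ _ }
  have hc : ∀ (g : G) (x : R) (v : V), (c g x).1 v = φ g (x.1 (φ g⁻¹ v)) := fun g x v => rfl
  have hcc : ∀ (g : G) (x : R), c g (c g⁻¹ x) = x := by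
    intro g x
    apply Subtype.ext
    ext v
    rw [hc, hc, inv_inv, hinv', hinv']
  -- conjugate ideals
  let J : G → MaximalSpectrum R := fun g =>
    ⟨I0.comap (c g⁻¹), Ideal.comap_isMaximal_of_surjective (c g⁻¹) (fun x => ⟨c g x, by
      have := hcc g⁻¹ x
      rwa [inv_inv] at this⟩)⟩
  let f : MaximalSpectrum R → Submodule F V := fun I =>
      (Submodule.torsionBySet R V (I.asIdeal : Set R)).restrictScalars F
  let W0 : Submodule F V := (Submodule.torsionBySet R V (I0 : Set R)).restrictScalars F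
  have hmemW : ∀ (I : Ideal R) (v : V), v ∈ (Submodule.torsionBySet R V (I : Set R)).restrictScalars F ↔
      ∀ x ∈ I, (x : R).1 v = 0 := by
    intro I v
    rw [Submodule.restrictScalars_mem, Submodule.mem_torsionBySet_iff]
    constructor
    · intro h x hx
      exact h ⟨x, hx⟩
    · rintro h ⟨x, hx⟩
      exact h x hx
  have hJ : ∀ g, W0.map (φ g : V →ₗ[F] V) = f (J g) := by
    intro g
    ext v
    rw [Submodule.mem_map]
    constructor
    · rintro ⟨w, hw, rfl⟩
      refine (hmemW _ _).2 ?_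
      intro x hx
      have h1 : (c g⁻¹ x).1 w = 0 := (hmemW I0 w).1 hw _ hx
      rw [hc, inv_inv] at h1
      have h2 := congrArg (φ g) h1
      rw [hinv', map_zero] at h2
      exact h2
    · intro hv
      refine ⟨φ g⁻¹ v, ?_, hinv' g v⟩
      refine (hmemW _ _).2 ?_
      intro x hx
      have h1 := (hmemW (J g).asIdeal v).1 hv (c g x) (by
        change c g⁻¹ (c g x) ∈ I0
        have := hcc g⁻¹ x
        rw [inv_inv] at this
        rw [this]; exact hx)
      rw [hc] at h1
      exact (φ g).map_eq_zero_iff.1 h1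
  let S : Set (Submodule F V) := Set.range (fun g : G => W0.map (φ g : V →ₗ[F] V))
  have hSsub : S ⊆ Set.range f := by
    rintro _ ⟨g, rfl⟩
    exact ⟨J g, (hJ g).symm⟩
  have hSind : sSupIndep S :=
    (indep_max (F := F) (V := V) (R := R)).sSupIndep_range.mono hSsub
  have hSfin : S.Finite := WellFoundedGT.finite_of_sSupIndep hSind
  have hW0 : W0 ≠ ⊥ := by
    intro h
    apply hne
    rw [eq_bot_iff]
    intro v hv
    have : v ∈ W0 := hv
    rw [h] at this
    exact this
  have hmapW : ∀ g h : G, (W0.map (φ h : V →ₗ[F] V)).map (φ g : V →ₗ[F] V) =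
      W0.map (φ (g * h) : V →ₗ[F] V) := by
    intro g h
    rw [← Submodule.map_comp]
    congr 1
    ext v
    exact (hmul g h v).symm
  have hmap1 : W0.map (φ 1 : V →ₗ[F] V) = W0 := by
    rw [map_one]
    exact Submodule.map_id W0
  have hW0S : W0 ∈ S := ⟨1, hmap1⟩
  refine ⟨hSfin.toFinset, ⟨?_, ?_, ?_, ?_, ?_⟩, ?_⟩
  · intro W hW
    rw [Set.Finite.mem_toFinset] at hW
    obtain ⟨g, rfl⟩ := hW
    intro h
    apply hW0
    rw [eq_bot_iff]
    intro v hv
    have h1 : φ g v ∈ W0.map (φ g : V →ₗ[F] V) := ⟨v, hv, rfl⟩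
    have h2 : W0.map (φ g : V →ₗ[F] V) = ⊥ := h
    rw [h2] at h1
    exact (φ g).map_eq_zero_iff.1 h1
  · intro g W hW
    rw [Set.Finite.mem_toFinset] at hW ⊢
    obtain ⟨h, rfl⟩ := hW
    exact ⟨g * h, (hmapW g h).symm⟩
  · intro W hW W' hW'
    rw [Set.Finite.mem_toFinset] at hW hW'
    obtain ⟨h, rfl⟩ := hW
    obtain ⟨h', rfl⟩ := hW'
    refine ⟨h' * h⁻¹, ?_⟩
    simp only [hmapW, inv_mul_cancel_right]
  · rw [Set.Finite.coe_toFinset]
    exact hSind
  · rw [Set.Finite.coe_toFinset]
    refine (hirr (sSup S) ?_).resolve_left ?_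
    · intro g w hw
      have h1 : (sSup S) ≤ (sSup S).comap (φ g : V →ₗ[F] V) := by
        refine sSup_le ?_
        rintro _ ⟨h, rfl⟩
        rw [← Submodule.map_le_iff_le_comap, hmapW]
        exact le_sSup ⟨g * h, rfl⟩
      exact h1 hw
    · intro h
      apply hW0
      rw [eq_bot_iff, ← h]
      exact le_sSup hW0S
  · by_contra hcard
    apply hnf
    have h1 : ∀ W ∈ S, W = W0 := by
      intro W hW
      have h2 : hSfin.toFinset.card ≤ 1 := by omega
      rw [Finset.card_le_one] at h2
      exact h2 W ((Set.Finite.mem_toFinset _).2 hW) W0 ((Set.Finite.mem_toFinset _).2 hW0S)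
    have h2 : W0 = ⊤ := by
      refine (hirr W0 ?_).resolve_left hW0
      intro g w hw
      have h3 : W0.map (φ g : V →ₗ[F] V) = W0 := h1 _ ⟨g, rfl⟩
      rw [← h3]
      exact ⟨w, hw, rfl⟩
    have h3 : ∀ x ∈ I0, x = 0 := by
      intro x hx
      apply Subtype.ext
      ext v
      have : v ∈ W0 := by rw [h2]; trivial
      exact (hmemW I0 v).1 this x hx
    intro x hx hx0
    have h4 : (⟨x, hx⟩ : R) ∉ I0 := by
      intro h
      exact hx0 (congrArg Subtype.val (h3 _ h))
    obtain ⟨y, i, hi, hy⟩ := hI0.exists_inv h4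
    rw [h3 i hi, add_zero] at hy
    refine ⟨y.1, y.2, ?_⟩
    rw [hcomm x hx y.1 y.2]
    exact congrArg Subtype.val hy

end GP48
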