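import Mathlib
import Pool.Agent.LibGP48.Defs
import Pool.Agent.LibGP48.D1
import Pool.Agent.LibGP48.D2
import Pool.Agent.LibGP48.I2

/-!
# LibGP48 I3 (STRONG)

G acts on the finite type Ω by g • W = W.map (φ g), transitively (Ω nonempty because sSup Ω = ⊤ and V nontrivial). D2 (card Ω = Ω.card; hsol: ds ⊤ e ≤ φ.ker acts trivially): every g in ds ⊤ d
fixes every W in Ω. Fix W in Ω, H = {h : G | W.map (φ h) = W} (stabiliser), φ_W : H →* (W ≃ₗ W). It is irreducible: let 0 != U <= W be H-invariant; U_W' := U.map (φ g) for any g with W.map (φ g) = W' (does not depend on g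
because U is H-invariant), the sup of the U_W' is G-invariant, nonzero, so ⊤ (hirr); U_W' <= W' and Ω is independent, so U_W = W (e.g. dimension count, or: w in W is a sum of elements of the U_W', by independence w in U_W).
finrank W = m (I2 and hm). D1 for H, φ_W: ds (⊤ : Subgroup H) g' ≤ ker, where the solvability of φ_W follows from hsol (ds H e <= ds ⊤ e, map_derivedSeries / ds_map with H.subtype). Since ds ⊤ d <= H,
ds ⊤ (d+g) = ds (ds ⊤ d) g <= ds H g acts trivially on W; this for all W in Ω and sSup Ω = ⊤ give φ x = 1.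
-/

namespace GP48

open Subgroup

private lemma I3_map_one {F V G : Type*} [Field F] [AddCommGroup V] [Module F V] [Group G]
    (φ : G →* (V ≃ₗ[F] V)) {x : G} (hx : φ x = 1) (W : Submodule F V) :
    W.map (φ x : V →ₗ[F] V) = W := by
  rw [hx]
  ext v
  simp [Submodule.mem_map]

private lemma I3_map_mul {F V G : Type*} [Field F] [AddCommGroup V] [Module F V] [Group G]
    (φ : G →* (V ≃ₗ[F] V)) (a b : G) (W : Submodule F V) :
    W.map (φ (a * b) : V →ₗ[F] V) = (W.map (φ b : V →ₗ[F] V)).map (φ a : V →ₗ[F] V) := by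
  rw [map_mul, ← Submodule.map_comp]
  rfl

private def I3_act {F V G : Type*} [Field F] [AddCommGroup V] [Module F V] [Group G]
    (φ : G →* (V ≃ₗ[F] V)) (Ω : Finset (Submodule F V)) (hΩ : Sys φ Ω) : MulAction G ↥Ω where
  smul g W := ⟨W.1.map (φ g : V →ₗ[F] V), hΩ.map g W.1 W.2⟩
  one_smul W := Subtype.ext (I3_map_one φ (map_one φ) W.1)
  mul_smul a b W := Subtype.ext (I3_map_mul φ a b W.1)

/-- the action of the stabiliser on the block -/
private def I3_res {F V G : Type*} [Field F] [AddCommGroup V] [Module F V] [Group G]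
    (φ : G →* (V ≃ₗ[F] V)) (W : Submodule F V) (H : Subgroup G)
    (hH : ∀ h ∈ H, ∀ w ∈ W, φ h w ∈ W) : H →* (W ≃ₗ[F] W) where
  toFun h := LinearEquiv.ofLinear
    ((φ (h : G) : V →ₗ[F] V).restrict (fun w hw => hH h h.2 w hw))
    ((φ ((h : G)⁻¹) : V →ₗ[F] V).restrict (fun w hw => hH _ (H.inv_mem h.2) w hw))
    (by
      ext w
      change φ (h : G) (φ ((h : G)⁻¹) w) = w
      rw [← LinearEquiv.mul_apply, ← map_mul, mul_inv_cancel, map_one]; rfl)
    (by
      ext w
      change φ ((h : G)⁻¹) (φ (h : G) w) = w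
      rw [← LinearEquiv.mul_apply, ← map_mul, inv_mul_cancel, map_one]; rfl)
  map_one' := by
    ext w
    change φ ((1 : H) : G) (w : V) = w
    rw [Subgroup.coe_one, map_one]; rfl
  map_mul' a b := by
    ext w
    change φ (((a * b : H)) : G) (w : V) = φ (a : G) (φ (b : G) w)
    rw [Subgroup.coe_mul, map_mul]; rfl

private lemma I3_res_apply {F V G : Type*} [Field F] [AddCommGroup V] [Module F V] [Group G]
    (φ : G →* (V ≃ₗ[F] V)) (W : Submodule F V) (H : Subgroup G)
    (hH : ∀ h ∈ H, ∀ w ∈ W, φ h w ∈ W) (h : H) (w : W) :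
    ((I3_res φ W H hH h w : W) : V) = φ (h : G) (w : V) := rfl

theorem I3 {p : ℕ} [Fact p.Prime] {V G : Type*} [AddCommGroup V] [Module (ZMod p) V]
    [Module.Finite (ZMod p) V] [Group G] (φ : G →* (V ≃ₗ[ZMod p] V)) (hirr : Irr φ)
    (hsol : ∃ e, ds (⊤ : Subgroup G) e ≤ φ.ker)
    (Ω : Finset (Submodule (ZMod p) V)) (hΩ : Sys φ Ω) (m d g : ℕ)
    (hm : Ω.card * m = Module.finrank (ZMod p) V) (hd : PB Ω.card d) (hg : LB m p g) :
    ds (⊤ : Subgroup G) (d + g) ≤ φ.ker := by
  classical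
  obtain ⟨e, he⟩ := hsol
  -- the permutation action
  letI := I3_act φ Ω hΩ
  have hsm : ∀ (x : G) (W : ↥Ω), ((x • W : ↥Ω) : Submodule (ZMod p) V) =
      W.1.map (φ x : V →ₗ[ZMod p] V) := fun _ _ => rfl
  have hcard : Nat.card ↥Ω = Ω.card := by
    rw [Nat.card_eq_fintype_card, Fintype.card_coe]
  have htr : MulAction.IsPretransitive G ↥Ω := by
    constructor
    rintro ⟨W, hW⟩ ⟨W', hW'⟩
    obtain ⟨x, hx⟩ := hΩ.trans W hW W' hW'
    exact ⟨x, Subtype.ext hx⟩
  have hfix := D2 hd (G := G) (Ω := ↥Ω) hcard htr ⟨e, fun x hx W =>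
    Subtype.ext (I3_map_one φ (MonoidHom.mem_ker.1 (he hx)) W.1)⟩
  have hfix' : ∀ x ∈ ds (⊤ : Subgroup G) d, ∀ W ∈ Ω, W.map (φ x : V →ₗ[ZMod p] V) = W := by
    intro x hx W hW
    exact congrArg Subtype.val (hfix x hx ⟨W, hW⟩)
  -- on every block
  have hblock : ∀ W ∈ Ω, ∀ x ∈ ds (⊤ : Subgroup G) (d + g), ∀ w ∈ W, φ x w = w := by
    intro W hW
    let H : Subgroup G := MulAction.stabilizer G (⟨W, hW⟩ : ↥Ω)
    have hHmem : ∀ h : G, h ∈ H ↔ W.map (φ h : V →ₗ[ZMod p] V) = W := by
      intro h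
      constructor
      · intro hh
        exact congrArg Subtype.val (MulAction.mem_stabilizer_iff.1 hh)
      · intro hh
        exact MulAction.mem_stabilizer_iff.2 (Subtype.ext hh)
    have hH : ∀ h ∈ H, ∀ w ∈ W, φ h w ∈ W := by
      intro h hh w hw
      have h1 := (hHmem h).1 hh
      rw [← h1]
      exact Submodule.mem_map_of_mem (f := (φ h : V →ₗ[ZMod p] V)) hw
    let ψ := I3_res φ W H hH
    have hirrW : Irr ψ := by
      refine ⟨(Submodule.nontrivial_iff_ne_bot).2 (hΩ.ne W hW), ?_⟩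
      intro U hU
      by_cases hU0 : U = ⊥
      · exact Or.inl hU0
      right
      set U' : Submodule (ZMod p) V := U.map W.subtype with hU'
      have hU'W : U' ≤ W := by
        rintro _ ⟨u, _, rfl⟩
        exact u.2
      have hU'inv : ∀ h ∈ H, U'.map (φ h : V →ₗ[ZMod p] V) ≤ U' := by
        rintro h hh _ ⟨_, ⟨u, hu, rfl⟩, rfl⟩
        exact ⟨ψ ⟨h, hh⟩ u, hU ⟨h, hh⟩ u hu, rfl⟩
      have htop : (⨆ x : G, U'.map (φ x : V →ₗ[ZMod p] V)) = ⊤ := by
        rcases hirr.2 (⨆ x : G, U'.map (φ x : V →ₗ[ZMod p] V)) (by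
          intro y w hw
          have h1 : (⨆ x : G, U'.map (φ x : V →ₗ[ZMod p] V)).map (φ y : V →ₗ[ZMod p] V) ≤
              ⨆ x : G, U'.map (φ x : V →ₗ[ZMod p] V) := by
            rw [Submodule.map_iSup]
            refine iSup_le fun x => ?_
            rw [← I3_map_mul]
            exact le_iSup (fun x : G => U'.map (φ x : V →ₗ[ZMod p] V)) (y * x)
          exact h1 (Submodule.mem_map_of_mem (f := (φ y : V →ₗ[ZMod p] V)) hw)) with h0 | h0
        · exfalso
          apply hU0
          rw [Submodule.eq_bot_iff]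
          intro u hu
          have h2 : (u : V) ∈ ⨆ x : G, U'.map (φ x : V →ₗ[ZMod p] V) := by
            refine (le_iSup (fun x : G => U'.map (φ x : V →ₗ[ZMod p] V)) 1) ?_
            refine ⟨(u : V), ⟨u, hu, rfl⟩, ?_⟩
            rw [map_one]; rfl
          rw [h0, Submodule.mem_bot] at h2
          exact Subtype.ext h2
        · exact h0
      have hle : (⊤ : Submodule (ZMod p) V) ≤
          U' ⊔ sSup ((Ω : Set (Submodule (ZMod p) V)) \ {W}) := by
        rw [← htop]
        refine iSup_le fun x => ?_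
        by_cases hx : x ∈ H
        · exact (hU'inv x hx).trans le_sup_left
        · refine le_trans ?_ le_sup_right
          refine le_trans (Submodule.map_mono hU'W) (le_sSup ⟨hΩ.map x W hW, ?_⟩)
          intro heq
          exact hx ((hHmem x).2 heq)
      have hWU : W ≤ U' := by
        intro w hw
        obtain ⟨u, hu, v, hv, huv⟩ := Submodule.mem_sup.1 (hle (Submodule.mem_top (x := w)))
        have hvW : v ∈ W := by
          have : v = w - u := by rw [← huv]; abel
          rw [this]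
          exact W.sub_mem hw (hU'W hu)
        have hdis := hΩ.ind hW
        have hv0 : v ∈ (⊥ : Submodule (ZMod p) V) := hdis.le_bot ⟨hvW, hv⟩
        rw [Submodule.mem_bot] at hv0
        rw [← huv, hv0, add_zero]
        exact hu
      rw [eq_top_iff]
      intro w _
      obtain ⟨u, hu, huw⟩ := hWU w.2
      have : u = w := Subtype.ext huw
      exact this ▸ hu
    have hfr : Module.finrank (ZMod p) W = m := by
      have h1 := I2 φ Ω hΩ W hW
      rw [← hm] at h1
      exact Nat.eq_of_mul_eq_mul_left (Finset.card_pos.2 ⟨W, hW⟩) h1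
    have hdsH : ∀ (j : ℕ) (x : G), x ∈ ds H j → ∃ h : H, h ∈ ds (⊤ : Subgroup H) j ∧ (h : G) = x := by
      intro j x hx
      have h1 : (ds (⊤ : Subgroup H) j).map H.subtype = ds H j := by
        rw [ds_map, ← MonoidHom.range_eq_map, Subgroup.range_subtype]
      rw [← h1] at hx
      obtain ⟨h, hh, hhx⟩ := hx
      exact ⟨h, hh, hhx⟩
    have hsolW : ∃ e', ds (⊤ : Subgroup H) e' ≤ ψ.ker := by
      refine ⟨e, fun h hh => ?_⟩
      have h1 : (h : G) ∈ ds H e := by
        have h2 : (ds (⊤ : Subgroup H) e).map H.subtype = ds H e := by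
          rw [ds_map, ← MonoidHom.range_eq_map, Subgroup.range_subtype]
        rw [← h2]
        exact ⟨h, hh, rfl⟩
      have h3 : φ (h : G) = 1 := MonoidHom.mem_ker.1 (he (ds_mono le_top e h1))
      rw [MonoidHom.mem_ker]
      ext w
      change φ (h : G) (w : V) = w
      rw [h3]; rfl
    have hD1 := D1 hg hfr ψ hirrW hsolW
    intro x hx w hw
    rw [ds_add] at hx
    have hle : ds (⊤ : Subgroup G) d ≤ H := fun y hy => (hHmem y).2 (hfix' y hy W hW)
    obtain ⟨h, hh, rfl⟩ := hdsH g x (ds_mono hle g hx)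
    have h4 := MonoidHom.mem_ker.1 (hD1 hh)
    have h5 := congrArg (fun f : W ≃ₗ[ZMod p] W => ((f ⟨w, hw⟩ : W) : V)) h4
    exact h5
  intro x hx
  rw [MonoidHom.mem_ker]
  have hall : (⊤ : Submodule (ZMod p) V) ≤
      LinearMap.eqLocus (φ x : V →ₗ[ZMod p] V) (LinearMap.id) := by
    rw [← hΩ.top]
    refine sSup_le fun W hW w hw => ?_
    exact hblock W hW x hx w hw
  ext v
  exact hall (Submodule.mem_top (x := v))

end GP48
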