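import Mathlib
import Pool.Agent.LibGP48.Defs

/-!
# LibGP48 Q1 (STRONG)

E = Env φ A, a finite commutative domain: a field of order p^a, a = finrank E. V is a vector space over E (E acts through Module.End), finrank E V * a = finrank V (Module.finrank_mul_finrank): a ∣ finrank V.
Conjugation x ↦ φ g x φ g⁻¹ maps E to E (A normal): G →* (E ≃ₐ[ZMod p] E), and Gal(E/F_p) is cyclic (Mathlib: instance IsCyclic Gal(L/K) for finite L, FieldTheory/Finite/Basic), so commutative; so a commutator of G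
acts trivially on E, i.e. commutes with φ(A); φ injective: ⁅⊤,⊤⁆ <= centralizer A. If a = 1 then E = scalars (finrank 1: Subalgebra.bot_eq_top..., E = ⊥), so φ(A) is central in φ(G). z in A, z^r = 1, z != 1: φ z is a unit of E of order r,
so r ∣ |E| - 1 = p^a - 1.
-/

namespace GP48

open Subgroup

universe u

private theorem exists_field {p : ℕ} [Fact p.Prime] {V : Type u} {G : Type*} [AddCommGroup V]
    [Module (ZMod p) V] [Nontrivial V] [Group G] (φ : G →* (V ≃ₗ[ZMod p] V)) (A : Subgroup G)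
    (hE : EnvField φ A) :
    ∃ (F : Type u) (_ : Field F) (_ : Algebra (ZMod p) F)
      (ψ : F →ₐ[ZMod p] Module.End (ZMod p) V), Function.Injective ψ ∧
      (∀ x, x ∈ Env φ A ↔ ∃ y, ψ y = x) ∧
      Module.finrank (ZMod p) F = Module.finrank (ZMod p) (Env φ A) := by
  have hF : IsField (Env φ A) :=
    { exists_pair_ne := ⟨0, 1, zero_ne_one⟩
      mul_comm := fun x y => Subtype.ext (hE.1 x x.2 y y.2)
      mul_inv_cancel := fun {x} hx => by
        obtain ⟨y, hy, hxy⟩ := hE.2 x x.2 (fun h => hx (Subtype.ext h))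
        exact ⟨⟨y, hy⟩, Subtype.ext hxy⟩ }
  refine ⟨Env φ A, hF.toField, (Env φ A).algebra, (Env φ A).val, Subtype.val_injective,
    fun x => ⟨fun hx => ⟨⟨x, hx⟩, rfl⟩, ?_⟩, rfl⟩
  rintro ⟨y, rfl⟩
  exact y.2

private theorem conj_mem {p : ℕ} [Fact p.Prime] {V : Type u} {G : Type*} [AddCommGroup V]
    [Module (ZMod p) V] [Group G] (φ : G →* (V ≃ₗ[ZMod p] V)) (A : Subgroup G) [A.Normal]
    (g : G) (x : Module.End (ZMod p) V) (hx : x ∈ Env φ A) :
    ((φ g : V ≃ₗ[ZMod p] V) : V →ₗ[ZMod p] V) * x *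
      ((φ g⁻¹ : V ≃ₗ[ZMod p] V) : V →ₗ[ZMod p] V) ∈ Env φ A := by
  have hinv : ((φ g⁻¹ : V ≃ₗ[ZMod p] V) : V →ₗ[ZMod p] V) *
      ((φ g : V ≃ₗ[ZMod p] V) : V →ₗ[ZMod p] V) = 1 := by
    refine LinearMap.ext fun v => ?_
    change φ g⁻¹ (φ g v) = v
    rw [← LinearEquiv.mul_apply, ← map_mul, inv_mul_cancel, map_one]
    rfl
  have hinv' : ((φ g : V ≃ₗ[ZMod p] V) : V →ₗ[ZMod p] V) *
      ((φ g⁻¹ : V ≃ₗ[ZMod p] V) : V →ₗ[ZMod p] V) = 1 := by
    refine LinearMap.ext fun v => ?_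
    change φ g (φ g⁻¹ v) = v
    rw [← LinearEquiv.mul_apply, ← map_mul, mul_inv_cancel, map_one]
    rfl
  unfold Env at hx ⊢
  induction hx using Algebra.adjoin_induction with
  | mem x hx =>
    obtain ⟨a, ha, rfl⟩ := hx
    apply Algebra.subset_adjoin
    refine ⟨g * a * g⁻¹, Subgroup.Normal.conj_mem inferInstance a ha g, ?_⟩
    refine LinearMap.ext fun v => ?_
    change φ (g * a * g⁻¹) v = φ g (φ a (φ g⁻¹ v))
    rw [map_mul, map_mul]
    rfl
  | algebraMap r =>
    have h1 : ((φ g : V ≃ₗ[ZMod p] V) : V →ₗ[ZMod p] V) *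
        algebraMap (ZMod p) (Module.End (ZMod p) V) r *
        ((φ g⁻¹ : V ≃ₗ[ZMod p] V) : V →ₗ[ZMod p] V) =
        algebraMap (ZMod p) (Module.End (ZMod p) V) r := by
      rw [← Algebra.commutes, mul_assoc, hinv', mul_one]
    rw [h1]
    exact Subalgebra.algebraMap_mem _ r
  | add x y _ _ hx hy =>
    rw [mul_add, add_mul]
    exact Subalgebra.add_mem _ hx hy
  | mul x y _ _ hx hy =>
    have h1 : ((φ g : V ≃ₗ[ZMod p] V) : V →ₗ[ZMod p] V) * (x * y) *
        ((φ g⁻¹ : V ≃ₗ[ZMod p] V) : V →ₗ[ZMod p] V) =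
        (((φ g : V ≃ₗ[ZMod p] V) : V →ₗ[ZMod p] V) * x *
        ((φ g⁻¹ : V ≃ₗ[ZMod p] V) : V →ₗ[ZMod p] V)) *
        (((φ g : V ≃ₗ[ZMod p] V) : V →ₗ[ZMod p] V) * y *
        ((φ g⁻¹ : V ≃ₗ[ZMod p] V) : V →ₗ[ZMod p] V)) := by
      calc _ = ((φ g : V ≃ₗ[ZMod p] V) : V →ₗ[ZMod p] V) * x * 1 * y *
        ((φ g⁻¹ : V ≃ₗ[ZMod p] V) : V →ₗ[ZMod p] V) := by
            rw [mul_one, mul_assoc _ x y]
        _ = _ := by
            rw [← hinv]
            simp only [mul_assoc]
    rw [h1]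
    exact Subalgebra.mul_mem _ hx hy

private theorem comm_trivial {p : ℕ} [Fact p.Prime] {V : Type u} {G : Type*} [AddCommGroup V]
    [Module (ZMod p) V] [Group G] (φ : G →* (V ≃ₗ[ZMod p] V)) (A : Subgroup G) [A.Normal]
    (F : Type u) [Field F] [Finite F] [Algebra (ZMod p) F]
    (ψ : F →ₐ[ZMod p] Module.End (ZMod p) V) (hψ : Function.Injective ψ)
    (hmem : ∀ x, x ∈ Env φ A ↔ ∃ y, ψ y = x) (g h : G) (f : F) (v : V) :
    φ (g * h * g⁻¹ * h⁻¹) (ψ f v) = ψ f (φ (g * h * g⁻¹ * h⁻¹) v) := by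
  have h1 : ∀ (g : G) (f : F), ∃ f' : F, ψ f' = ((φ g : V ≃ₗ[ZMod p] V) : V →ₗ[ZMod p] V) * ψ f *
      ((φ g⁻¹ : V ≃ₗ[ZMod p] V) : V →ₗ[ZMod p] V) := fun g f =>
    (hmem _).1 (conj_mem φ A g (ψ f) ((hmem _).2 ⟨f, rfl⟩))
  choose σ hσ using h1
  have hσv : ∀ g f v, ψ (σ g f) v = φ g (ψ f (φ g⁻¹ v)) := fun g f v => by
    rw [hσ]
    rfl
  have hσv' : ∀ g f v, ψ (σ g f) (φ g v) = φ g (ψ f v) := fun g f v => by
    rw [hσv, ← LinearEquiv.mul_apply, ← map_mul, inv_mul_cancel, map_one]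
    rfl
  have hcomp : ∀ g h f, σ (g * h) f = σ g (σ h f) := by
    intro g h f
    apply hψ
    refine LinearMap.ext fun v => ?_
    rw [hσv, hσv, hσv, mul_inv_rev, map_mul, map_mul]
    rfl
  have hone : ∀ f, σ 1 f = f := by
    intro f
    apply hψ
    refine LinearMap.ext fun v => ?_
    rw [hσv, inv_one, map_one]
    rfl
  let τ : G → Gal(F/ZMod p) := fun g =>
    { toFun := σ g
      invFun := σ g⁻¹
      left_inv := fun f => by rw [← hcomp, inv_mul_cancel, hone]
      right_inv := fun f => by rw [← hcomp, mul_inv_cancel, hone]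
      map_mul' := fun a b => by
        apply hψ
        refine LinearMap.ext fun v => ?_
        rw [map_mul ψ (σ g a), Module.End.mul_apply, hσv g b v, hσv', hσv, map_mul,
          Module.End.mul_apply]
      map_add' := fun a b => by
        apply hψ
        refine LinearMap.ext fun v => ?_
        rw [map_add ψ (σ g a), LinearMap.add_apply, hσv, hσv, hσv, map_add,
          LinearMap.add_apply, map_add]
      commutes' := fun r => by
        apply hψ
        refine LinearMap.ext fun v => ?_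
        rw [hσv, AlgHom.commutes, Module.algebraMap_end_apply, Module.algebraMap_end_apply,
          map_smul, ← LinearEquiv.mul_apply, ← map_mul, mul_inv_cancel, map_one]
        rfl }
  have hτ : ∀ g f, τ g f = σ g f := fun _ _ => rfl
  have hcm : ∀ g h f, σ g (σ h f) = σ h (σ g f) := by
    intro g h f
    have h2 : τ g * τ h = τ h * τ g := mul_comm' (τ g) (τ h)
    have h3 := AlgEquiv.congr_fun h2 f
    exact h3
  have hfix : σ (g * h * g⁻¹ * h⁻¹) f = f := by
    rw [hcomp, hcomp, hcomp, hcm h g⁻¹, ← hcomp g, mul_inv_cancel, hone, ← hcomp, mul_inv_cancel,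
      hone]
  have h4 := hσv' (g * h * g⁻¹ * h⁻¹) f v
  rw [hfix] at h4
  exact h4.symm

theorem Q1 {p : ℕ} [Fact p.Prime] {V G : Type*} [AddCommGroup V] [Module (ZMod p) V]
    [Module.Finite (ZMod p) V] [Nontrivial V] [Group G] (φ : G →* (V ≃ₗ[ZMod p] V))
    (hφ : Function.Injective φ) (A : Subgroup G) [A.Normal] (hE : EnvField φ A) (a : ℕ)
    (ha : a = Module.finrank (ZMod p) (Env φ A)) :
    1 ≤ a ∧ a ∣ Module.finrank (ZMod p) V ∧
      ⁅(⊤ : Subgroup G), ⊤⁆ ≤ centralizer (A : Set G) ∧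
      (a = 1 → centralizer (A : Set G) = ⊤) ∧
      (∀ r : ℕ, r.Prime → ∀ z ∈ A, z ^ r = 1 → z ≠ 1 → r ∣ p ^ a - 1) := by
  obtain ⟨F, _, _, ψ, hψ, hmem, hfin⟩ := exists_field φ A hE
  rw [← hfin] at ha
  haveI : Module.Finite (ZMod p) F :=
    Module.Finite.of_injective ψ.toLinearMap hψ
  haveI : Finite F := Module.finite_of_finite (ZMod p)
  have hA : ∀ x ∈ A, ∃ f : F, ∀ v, ψ f v = φ x v := by
    intro x hx
    obtain ⟨f, hf⟩ := (hmem ((φ x : V ≃ₗ[ZMod p] V) : V →ₗ[ZMod p] V)).1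
      (Algebra.subset_adjoin ⟨x, hx, rfl⟩)
    exact ⟨f, fun v => by rw [hf]; rfl⟩
  refine ⟨?_, ?_, ?_, ?_, ?_⟩
  · rw [ha]
    exact Module.finrank_pos
  · letI : Module F V := Module.compHom V ψ.toRingHom
    have hsm : ∀ (f : F) (v : V), f • v = ψ f v := fun _ _ => rfl
    haveI : IsScalarTower (ZMod p) F V := ⟨fun c f v => by
      rw [hsm, hsm, map_smul, LinearMap.smul_apply]⟩
    rw [ha, ← Module.finrank_mul_finrank (ZMod p) F V]
    exact Dvd.intro _ rfl
  · rw [Subgroup.commutator_le]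
    intro g _ h _
    rw [Subgroup.mem_centralizer_iff]
    intro x hx
    obtain ⟨f, hf⟩ := hA x hx
    apply hφ
    refine LinearEquiv.ext fun v => ?_
    rw [map_mul, map_mul, LinearEquiv.mul_apply, LinearEquiv.mul_apply, commutatorElement_def,
      ← hf, ← hf]
    exact (comm_trivial φ A F ψ hψ hmem g h f v).symm
  · intro ha1
    rw [eq_top_iff]
    intro g _
    rw [Subgroup.mem_centralizer_iff]
    intro x hx
    obtain ⟨f, hf⟩ := hA x hx
    obtain ⟨c, hc⟩ := (finrank_eq_one_iff_of_nonzero' (1 : F) one_ne_zero).1 (ha ▸ ha1) f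
    have hx' : ∀ v, φ x v = c • v := fun v => by
      rw [← hf, ← hc, map_smul, map_one]
      rfl
    apply hφ
    refine LinearEquiv.ext fun v => ?_
    rw [map_mul, map_mul, LinearEquiv.mul_apply, LinearEquiv.mul_apply, hx', hx', map_smul]
  · intro r hr z hz hzr hz1
    obtain ⟨f, hf⟩ := hA z hz
    have hpow : ∀ (n : ℕ) (v : V), ψ (f ^ n) v = φ (z ^ n) v := by
      intro n
      induction n with
      | zero =>
        intro v
        rw [pow_zero, pow_zero, map_one, map_one]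
        rfl
      | succ n ih =>
        intro v
        rw [pow_succ, pow_succ, map_mul, map_mul, Module.End.mul_apply, LinearEquiv.mul_apply,
          ih, hf]
    have hfr : f ^ r = 1 := by
      apply hψ
      refine LinearMap.ext fun v => ?_
      rw [hpow, hzr, map_one, map_one]
      rfl
    have hf1 : f ≠ 1 := by
      rintro rfl
      apply hz1
      apply hφ
      refine LinearEquiv.ext fun v => ?_
      rw [← hf, map_one, map_one]
      rfl
    have hf0 : f ≠ 0 := by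
      rintro rfl
      rw [zero_pow hr.ne_zero] at hfr
      exact zero_ne_one hfr
    haveI : Fintype F := Fintype.ofFinite F
    haveI : Fact r.Prime := ⟨hr⟩
    classical
    have hu : orderOf (Units.mk0 f hf0) = r := by
      refine orderOf_eq_prime ?_ ?_
      · apply Units.ext
        rw [Units.val_pow_eq_pow_val, Units.val_mk0, hfr, Units.val_one]
      · intro h
        apply hf1
        have := congrArg Units.val h
        rwa [Units.val_mk0, Units.val_one] at this
    have hd := orderOf_dvd_card (x := Units.mk0 f hf0)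
    rw [hu, Fintype.card_units, Module.card_eq_pow_finrank (K := ZMod p), ZMod.card, ← ha] at hd
    exact hd

end GP48
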