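import Mathlib
import Pool.Agent.LibGP48.Defs

/-!
# LibGP48 Q2 (STRONG)

E = Env φ A a field, a = finrank E, V a vector space over E of dimension k with k*a = finrank V. x in D commutes with A, so φ x is E-linear: an element of End_E(V), of E-dimension k^2.
Claim: if x_1..x_q in D lie in different cosets of A then φ x_1..φ x_q are linearly independent over E: minimal relation sum c_j φ(x_j) = 0, c_j in E nonzero, q >= 2 (q = 1 impossible). For y in D conjugate by φ y: c_j stays
(y commutes with A, so with E), φ x_j becomes φ(y x_j y⁻¹) = φ([y,x_j]) φ(x_j) with [y,x_j] in A. Subtract φ([y,x_1]) times the relation: a shorter relation, so φ([y,x_j]) = φ([y,x_1]) for all j, y, so x_j x_1⁻¹ commutes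
with D (class 2 computation) and lies in A: contradiction. So the number of cosets of A in D is finite and <= k^2 (relIndex = Nat.card of the quotient; finite because any finite set of cosets has <= k^2 elements).
-/

namespace GP48

open Subgroup

private theorem li_of_eig {K M ι Y : Type*} [Field K] [AddCommGroup M] [Module K M]
    (v : ι → M) (hv : ∀ i, v i ≠ 0) (T : Y → M →ₗ[K] M) (e : Y → ι → K)
    (hT : ∀ y i, T y (v i) = e y i • v i) (hne : ∀ i j, i ≠ j → ∃ y, e y i ≠ e y j) :
    LinearIndependent K v := by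
  classical
  rw [linearIndependent_iff']
  intro s
  induction s using Finset.induction_on with
  | empty => intro g _ i hi; simp at hi
  | insert i0 s hi0 ih =>
    intro g hg
    rw [Finset.sum_insert hi0] at hg
    have h1 : ∀ i ∈ s, g i = 0 := by
      intro i hi
      obtain ⟨y, hy⟩ := hne i i0 (fun h => hi0 (h ▸ hi))
      have h2 := congrArg (T y) hg
      rw [map_add, map_smul, hT, map_zero, map_sum] at h2
      have h3 : ∑ j ∈ s, (g j * (e y j - e y i0)) • v j = 0 := by
        have h4 : ∑ j ∈ s, T y (g j • v j) = ∑ j ∈ s, (g j * e y j) • v j := by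
          refine Finset.sum_congr rfl fun j _ => ?_
          rw [map_smul, hT, smul_smul]
        have h5 : ∑ j ∈ s, (g j * (e y j - e y i0)) • v j =
            ∑ j ∈ s, (g j * e y j) • v j - e y i0 • ∑ j ∈ s, g j • v j := by
          rw [Finset.smul_sum, ← Finset.sum_sub_distrib]
          refine Finset.sum_congr rfl fun j _ => ?_
          rw [smul_smul, ← sub_smul]
          congr 1
          ring
        rw [h5, ← h4, eq_neg_of_add_eq_zero_right h2, eq_neg_of_add_eq_zero_right hg, smul_smul,
          smul_neg, smul_smul, mul_comm (g i0)]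
        abel
      have h6 := ih (fun j => g j * (e y j - e y i0)) h3 i hi
      rcases mul_eq_zero.1 h6 with h | h
      · exact h
      · exact absurd (sub_eq_zero.1 h) hy
    intro i hi
    rcases Finset.mem_insert.1 hi with rfl | hi
    · have h7 : ∑ j ∈ s, g j • v j = 0 := Finset.sum_eq_zero fun j hj => by rw [h1 j hj, zero_smul]
      rw [h7, add_zero] at hg
      exact (smul_eq_zero.1 hg).resolve_right (hv i)
    · exact h1 i hi

private theorem env_comm {p : ℕ} {V G : Type*} [AddCommGroup V] [Module (ZMod p) V] [Group G]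
    (φ : G →* (V ≃ₗ[ZMod p] V)) (A : Subgroup G) {x : G} (hx : x ∈ centralizer (A : Set G)) :
    ∀ e ∈ Env φ A, ∀ v : V, φ x (e v) = e (φ x v) := by
  intro e he
  induction he using Algebra.adjoin_induction with
  | mem e he =>
    obtain ⟨a, ha, rfl⟩ := he
    intro v
    change (φ x * φ a) v = (φ a * φ x) v
    rw [← map_mul, ← map_mul, Subgroup.mem_centralizer_iff.1 hx a ha]
  | algebraMap r =>
    intro v
    rw [Module.algebraMap_end_apply, Module.algebraMap_end_apply, map_smul]
  | add e f _ _ ihe ihf =>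
    intro v
    rw [LinearMap.add_apply, LinearMap.add_apply, map_add, ihe, ihf]
  | mul e f _ _ ihe ihf =>
    intro v
    rw [Module.End.mul_apply, Module.End.mul_apply, ihe, ihf]

theorem Q2 {p : ℕ} [Fact p.Prime] {V G : Type*} [AddCommGroup V] [Module (ZMod p) V]
    [Module.Finite (ZMod p) V] [Nontrivial V] [Group G] (φ : G →* (V ≃ₗ[ZMod p] V))
    (hφ : Function.Injective φ) (A : Subgroup G) [A.Normal] (hE : EnvField φ A) (a : ℕ)
    (ha : a = Module.finrank (ZMod p) (Env φ A)) (D : Subgroup G) (hAD : A ≤ D)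
    (hDC : D ≤ centralizer (A : Set G)) (hDD : ⁅D, D⁆ ≤ A)
    (hZ : ∀ x ∈ D, (∀ y ∈ D, x * y = y * x) → x ∈ A) :
    A.relIndex D ≤ (Module.finrank (ZMod p) V / a) ^ 2 := by
  classical
  letI cR : CommRing (Env φ A) :=
    { (inferInstance : Ring (Env φ A)) with
      mul_comm := fun x y => Subtype.ext (hE.1 x.1 x.2 y.1 y.2) }
  letI aR : Algebra (ZMod p) (Env φ A) := Subalgebra.algebra _
  haveI : IsScalarTower (ZMod p) (Env φ A) V := ⟨fun a x v => rfl⟩
  have hfld : IsField (Env φ A) := by
    refine ⟨⟨0, 1, ?_⟩, fun x y => mul_comm x y, ?_⟩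
    · intro h
      obtain ⟨v, hv⟩ := exists_ne (0 : V)
      apply hv
      have h1 := congrArg Subtype.val h
      have h2 : (0 : Module.End (ZMod p) V) v = (1 : Module.End (ZMod p) V) v := by
        rw [show (0 : Module.End (ZMod p) V) = 1 from h1]
      exact h2.symm
    · intro x hx
      obtain ⟨y, hy, hxy⟩ := hE.2 x.1 x.2 (fun h => hx (Subtype.ext h))
      exact ⟨⟨y, hy⟩, Subtype.ext hxy⟩
  letI fR : Field (Env φ A) := { hfld.toField with toCommRing := cR }
  haveI : Module.Finite (Env φ A) V := Module.Finite.of_restrictScalars_finite (ZMod p) (Env φ A) V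
  haveI : Module.Finite (ZMod p) (Env φ A) := inferInstance
  have hfr : Module.finrank (ZMod p) (Env φ A) * Module.finrank (Env φ A) V =
      Module.finrank (ZMod p) V := Module.finrank_mul_finrank (ZMod p) (Env φ A) V
  have hapos : 0 < a := by
    rw [ha]
    exact Module.finrank_pos
  have hk : Module.finrank (ZMod p) V / a = Module.finrank (Env φ A) V := by
    rw [← hfr, ← ha]
    exact Nat.mul_div_cancel_left _ hapos
  rw [hk]
  have hinv : ∀ (g : G) (v : V), φ g⁻¹ (φ g v) = v := by
    intro g v
    have : (φ g⁻¹ * φ g) v = v := by rw [← map_mul]; simp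
    exact this
  have hinv' : ∀ (g : G) (v : V), φ g (φ g⁻¹ v) = v := by
    intro g v
    have : (φ g * φ g⁻¹) v = v := by rw [← map_mul]; simp
    exact this
  have hmul : ∀ (g h : G) (v : V), φ (g * h) v = φ g (φ h v) := by
    intro g h v
    rw [map_mul]; rfl
  let ψ : D → Module.End (Env φ A) V := fun x =>
    { toFun := fun v => φ x.1 v
      map_add' := fun v w => map_add (φ x.1) v w
      map_smul' := fun e v => env_comm φ A (hDC x.2) e.1 e.2 v }
  have hψ : ∀ (x : D) (v : V), ψ x v = φ x.1 v := fun x v => rfl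
  let T : D → Module.End (Env φ A) V →ₗ[Env φ A] Module.End (Env φ A) V := fun y =>
    { toFun := fun X => ψ y * X * ψ y⁻¹
      map_add' := fun X Y => by rw [mul_add, add_mul]
      map_smul' := fun e X => by
        rw [RingHom.id_apply, mul_smul_comm, smul_mul_assoc] }
  let ι := D ⧸ A.subgroupOf D
  let r : ι → D := fun i => Quotient.out i
  have hr : ∀ i j : ι, i ≠ j → (r i).1⁻¹ * (r j).1 ∉ A := by
    intro i j hij h
    apply hij
    rw [← Quotient.out_eq' i, ← Quotient.out_eq' j]
    exact QuotientGroup.eq.2 h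
  have hcom : ∀ x y : D, y.1 * x.1 * y.1⁻¹ * x.1⁻¹ ∈ A := by
    intro x y
    exact hDD (Subgroup.commutator_mem_commutator y.2 x.2)
  let c : D → ι → Env φ A := fun y i =>
    ⟨((φ (y.1 * (r i).1 * y.1⁻¹ * (r i).1⁻¹) : V ≃ₗ[ZMod p] V) : V →ₗ[ZMod p] V),
      Algebra.subset_adjoin ⟨_, hcom (r i) y, rfl⟩⟩
  have li : LinearIndependent (Env φ A) (fun i : ι => ψ (r i)) := by
    refine li_of_eig _ ?_ T c ?_ ?_
    · intro i h
      obtain ⟨v, hv⟩ := exists_ne (0 : V)
      have h1 : ψ (r i) v = 0 := by rw [h]; rfl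
      rw [hψ] at h1
      exact hv ((φ (r i).1).map_eq_zero_iff.1 h1)
    · intro y i
      ext v
      change φ y.1 (φ (r i).1 (φ (y⁻¹ : D).1 v)) =
        φ (y.1 * (r i).1 * y.1⁻¹ * (r i).1⁻¹) (φ (r i).1 v)
      rw [← hmul, ← hmul, ← hmul]
      congr 2
      rw [Subgroup.coe_inv]
      group
    · intro i j hij
      by_contra hcon
      push Not at hcon
      apply hr i j hij
      apply hZ
      · exact D.mul_mem (D.inv_mem (r i).2) (r j).2
      · intro y hy
        have h1 := hcon ⟨y⁻¹, D.inv_mem hy⟩
        have h2 : φ (y⁻¹ * (r i).1 * (y⁻¹)⁻¹ * (r i).1⁻¹) = φ (y⁻¹ * (r j).1 * (y⁻¹)⁻¹ * (r j).1⁻¹) := by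
          have h3 := congrArg Subtype.val h1
          ext v
          exact LinearMap.congr_fun h3 v
        have h4 := hφ h2
        have h5 : (r i).1 * y * (r i).1⁻¹ = (r j).1 * y * (r j).1⁻¹ := by
          have h6 := congrArg (fun z => y * z) h4
          simp only [mul_assoc, mul_inv_cancel_left, inv_inv] at h6
          simpa only [mul_assoc] using h6
        have h7 : (r j).1⁻¹ * (r i).1 * y = y * ((r j).1⁻¹ * (r i).1) := by
          have h8 := congrArg (fun z => (r j).1⁻¹ * z * (r i).1) h5
          simp only [mul_assoc, inv_mul_cancel_left, inv_mul_cancel, mul_one] at h8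
          simpa only [mul_assoc] using h8
        have h9 := congrArg (fun z => ((r j).1⁻¹ * (r i).1)⁻¹ * z * ((r j).1⁻¹ * (r i).1)⁻¹) h7
        simp only [mul_inv_rev, inv_inv, mul_assoc, inv_mul_cancel_left, mul_inv_cancel_left,
          mul_inv_cancel, inv_mul_cancel, mul_one] at h9
        simpa only [mul_assoc] using h9.symm
  change Nat.card ι ≤ _
  rcases finite_or_infinite ι with hfin | hinf
  · haveI := Fintype.ofFinite ι
    rw [Nat.card_eq_fintype_card]
    refine li.fintype_card_le_finrank.trans ?_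
    rw [Module.finrank_linearMap, sq]
  · rw [Nat.card_eq_zero_of_infinite]
    exact Nat.zero_le _

end GP48
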