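import Mathlib
import Pool.Agent.LibGP48.Defs

/-!
# LibGP48 H1a (MEDIUM)

Strong induction on h. If U = T: ic N T h <= T = U. Otherwise there is a minimal normal subgroup X of G with U < X <= T (finite index, so
finitely many subgroups in between; or minimal relIndex); Chief U X (X minimal; [X,X] <= [T,T] <= U). Then [X,N] <= U. U.relIndex X * X.relIndex T = p^h,
so X.relIndex T = p^h' with h' < h; hch is inherited (X <= Y' implies U <= Y'), [T,T] <= U <= X; so ic N T h' <= X, ic N T (h'+1) <= [X,N] <= U and h'+1 <= h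
(ic is antitone in k since T is normal).
-/

namespace GP48

open Subgroup

private theorem H1a_chief {G : Type*} [Group G] (T U : Subgroup G) [hTn : T.Normal] [hUn : U.Normal]
    (hUT : U < T) (hab : ⁅T, T⁆ ≤ U) (hfin : U.relIndex T ≠ 0) :
    ∃ X : Subgroup G, Chief U X ∧ X ≤ T := by
  classical
  let S : Set ℕ := {k | ∃ X : Subgroup G, X.Normal ∧ U < X ∧ X ≤ T ∧ U.relIndex X = k}
  have hS : ∃ k, k ∈ S := ⟨_, T, hTn, hUT, le_rfl, rfl⟩
  obtain ⟨X, hXn, hUX, hXT, hXk⟩ := Nat.find_spec hS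
  have hmin : ∀ Z : Subgroup G, Z.Normal → U < Z → Z ≤ T → U.relIndex X ≤ U.relIndex Z := by
    intro Z hZ hUZ hZT
    rw [hXk]
    exact Nat.find_min' hS ⟨Z, hZ, hUZ, hZT, rfl⟩
  have hXf : U.relIndex X ≠ 0 := by
    have h1 := Subgroup.relIndex_mul_relIndex U X T hUX.le hXT
    intro h0
    rw [h0, zero_mul] at h1
    exact hfin h1.symm
  refine ⟨X, ⟨hUn, hXn, hUX, (Subgroup.commutator_mono hXT hXT).trans hab, hXf, ?_⟩, hXT⟩
  intro Z hZ hUZ hZX
  by_cases he : Z = U
  · exact Or.inl he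
  · right
    have hlt : U < Z := lt_of_le_of_ne hUZ (Ne.symm he)
    have h1 := hmin Z hZ hlt (hZX.trans hXT)
    have h2 := Subgroup.relIndex_mul_relIndex U Z X hUZ hZX
    have h3 : 0 < U.relIndex X := Nat.pos_of_ne_zero hXf
    have h4 : Z.relIndex X = 1 := by
      have h5 : 0 < U.relIndex Z := by
        rcases Nat.eq_zero_or_pos (U.relIndex Z) with h | h
        · rw [h, zero_mul] at h2
          omega
        · exact h
      have h6 : U.relIndex Z * Z.relIndex X ≤ U.relIndex Z * 1 := by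
        rw [h2, mul_one]
        exact h1
      have h7 := Nat.le_of_mul_le_mul_left h6 h5
      have h8 : Z.relIndex X ≠ 0 := by
        intro h
        rw [h, mul_zero] at h2
        omega
      omega
    exact le_antisymm hZX (Subgroup.relIndex_eq_one.1 h4)

private theorem H1a_anti {G : Type*} [Group G] (N T : Subgroup G) [N.Normal] [T.Normal] {a b : ℕ}
    (h : a ≤ b) : ic N T b ≤ ic N T a := by
  obtain ⟨c, rfl⟩ := Nat.exists_eq_add_of_le h
  rw [ic_add]
  exact ic_le N (ic N T a) c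

theorem H1a {G : Type*} [Group G] (N T U : Subgroup G) [N.Normal] [T.Normal] [U.Normal]
    (hUT : U ≤ T) (hab : ⁅T, T⁆ ≤ U) (p h : ℕ) (hp : p.Prime) (hcard : U.relIndex T = p ^ h)
    (hch : ∀ Y X : Subgroup G, Chief Y X → U ≤ Y → X ≤ T → ⁅X, N⁆ ≤ Y) :
    ic N T h ≤ U := by
  induction h using Nat.strong_induction_on generalizing U with
  | _ h ih =>
    rcases hUT.eq_or_lt with he | hlt
    · rw [he]
      exact ic_le N T h
    · have hfin : U.relIndex T ≠ 0 := by
        rw [hcard]
        exact pow_ne_zero _ hp.ne_zero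
      obtain ⟨X, hC, hXT⟩ := H1a_chief T U hlt hab hfin
      haveI := hC.nX
      have h1 := Subgroup.relIndex_mul_relIndex U X T hC.lt.le hXT
      rw [hcard] at h1
      obtain ⟨h', hh', hX⟩ := (Nat.dvd_prime_pow hp).1 (Dvd.intro_left _ h1)
      have hne : h' ≠ h := by
        rintro rfl
        rw [hX] at h1
        have h2 : U.relIndex X = 1 := by
          have h3 : 0 < p ^ h' := pow_pos hp.pos _
          exact Nat.eq_of_mul_eq_mul_right h3 (by rw [h1, one_mul])
        exact absurd (Subgroup.relIndex_eq_one.1 h2) (not_le_of_gt hC.lt)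
      have h2 : ic N T h' ≤ X := ih h' (by omega) X hXT (hab.trans hC.lt.le) hX
        (fun Y' X' hC' hXY hX' => hch Y' X' hC' (hC.lt.le.trans hXY) hX')
      calc ic N T h ≤ ic N T (h' + 1) := H1a_anti N T (by omega)
        _ = ⁅ic N T h', N⁆ := ic_succ N T h'
        _ ≤ ⁅X, N⁆ := Subgroup.commutator_mono h2 le_rfl
        _ ≤ U := hch U X hC le_rfl hXT

/-- the same for any finite section -/
theorem H1b {G : Type*} [Group G] (N T U : Subgroup G) [N.Normal] [T.Normal] [U.Normal]
    (hUT : U ≤ T) (hab : ⁅T, T⁆ ≤ U) (hfin : U.relIndex T ≠ 0)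
    (hch : ∀ Y X : Subgroup G, Chief Y X → U ≤ Y → X ≤ T → ⁅X, N⁆ ≤ Y) :
    ∃ k, ic N T k ≤ U := by
  obtain ⟨n, hn⟩ : ∃ n, U.relIndex T = n := ⟨_, rfl⟩
  induction n using Nat.strong_induction_on generalizing U with
  | _ n ih =>
    rcases hUT.eq_or_lt with he | hlt
    · exact ⟨0, by rw [he]; exact ic_le N T 0⟩
    · obtain ⟨X, hC, hXT⟩ := H1a_chief T U hlt hab hfin
      haveI := hC.nX
      have h1 := Subgroup.relIndex_mul_relIndex U X T hC.lt.le hXT
      have hX0 : X.relIndex T ≠ 0 := by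
        intro h0
        rw [h0, mul_zero] at h1
        exact hfin h1.symm
      have hne : U.relIndex X ≠ 1 := fun h2 =>
        absurd (Subgroup.relIndex_eq_one.1 h2) (not_le_of_gt hC.lt)
      have hlt2 : X.relIndex T < n := by
        have h3 := hC.fin
        have h4 : 2 ≤ U.relIndex X := by omega
        have h5 : 0 < X.relIndex T := Nat.pos_of_ne_zero hX0
        rw [← hn, ← h1]
        nlinarith
      obtain ⟨k, hk⟩ := ih (X.relIndex T) hlt2 X hXT (hab.trans hC.lt.le) hX0
        (fun Y' X' hC' hXY hX' => hch Y' X' hC' (hC.lt.le.trans hXY) hX') rfl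
      refine ⟨k + 1, ?_⟩
      calc ic N T (k + 1) = ⁅ic N T k, N⁆ := ic_succ N T k
        _ ≤ ⁅X, N⁆ := Subgroup.commutator_mono hk le_rfl
        _ ≤ U := hch U X hC le_rfl hXT

end GP48
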