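import Mathlib
import Pool.Agent.LibGP48.Defs

/-!
# LibGP48 Q5 (SHORT/MEDIUM)

Suppose not; the set of k with ic N N k not <= A is nonempty (k = 1) and bounded (hnil); take the largest k >= 1, X = ic N N k (normal). [X,N] <= A, [A,N] = ⊥, X <= [N,N] (k >= 1).
Three subgroups (Subgroup.commutator_commutator_eq_bot_of_rotate): [[N,N],X] = ⊥ since [[N,X],N] <= [A,N] = ⊥ and [[X,N],N] = ⊥. So [X,X] <= [[N,N],X] = ⊥, X abelian normal <= N, so X <= A by hmax: contradiction.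
-/

namespace GP48

open Subgroup

theorem Q5 {G : Type*} [Group G] (A N : Subgroup G) [A.Normal] [N.Normal] (hA : A ≤ N)
    (hcen : ⁅N, A⁆ = ⊥)
    (hmax : ∀ B : Subgroup G, B.Normal → B ≤ N → ⁅B, B⁆ = ⊥ → B ≤ A)
    (hnil : NM N ⊥) : ⁅N, N⁆ ≤ A := by
  classical
  by_contra hcon
  have hex : ∃ m, ic N N m ≤ A := by
    obtain ⟨m, hm⟩ := hnil
    exact ⟨m, hm.trans bot_le⟩
  obtain ⟨m, hm, hmin⟩ : ∃ m, ic N N m ≤ A ∧ ∀ l < m, ¬ ic N N l ≤ A :=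
    ⟨Nat.find hex, Nat.find_spec hex, fun l hl => Nat.find_min hex hl⟩
  have hm0 : m ≠ 0 := by
    rintro rfl
    exact hcon ((comm_le_self N).trans hm)
  have hm1 : m ≠ 1 := by
    rintro rfl
    exact hcon hm
  obtain ⟨k, rfl⟩ : ∃ k, m = k + 1 + 1 := ⟨m - 2, by omega⟩
  have hX := hmin (k + 1) (by omega)
  have hXN : ic N N (k + 1) ≤ N := ic_le N N (k + 1)
  have hXNN : ic N N (k + 1) ≤ ⁅N, N⁆ := by
    have h1 : ic N N (k + 1) = ic N (ic N N 1) k := by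
      rw [← ic_add, Nat.add_comm]
    rw [h1]
    exact ic_le N (ic N N 1) k
  have hAN : ⁅A, N⁆ = ⊥ := by
    rw [Subgroup.commutator_comm]
    exact hcen
  have h1 : ⁅⁅ic N N (k + 1), N⁆, N⁆ = ⊥ := by
    rw [eq_bot_iff, ← hAN]
    exact Subgroup.commutator_mono hm le_rfl
  have h2 : ⁅⁅N, ic N N (k + 1)⁆, N⁆ = ⊥ := by
    rw [Subgroup.commutator_comm N]
    exact h1
  have h3 : ⁅⁅N, N⁆, ic N N (k + 1)⁆ = ⊥ :=
    Subgroup.commutator_commutator_eq_bot_of_rotate h2 h1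
  have h4 : ⁅ic N N (k + 1), ic N N (k + 1)⁆ = ⊥ := by
    rw [eq_bot_iff, ← h3]
    exact Subgroup.commutator_mono hXNN le_rfl
  exact hX (hmax _ (ic_normal N N (k + 1)) hXN h4)

end GP48
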