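import Mathlib
import Pool.Agent.LibGP48.Defs
import Pool.Agent.LibGP48.H1a
import Pool.Agent.LibGP48.Q5

/-!
# LibGP48 Q6 (MEDIUM)

Suppose M is not <= D. R = M ⊔ D (normal, <= C). G soluble: ds R j = ⊥ for some j, so there is j with N := ds R j ⊔ D != D and ds R (j+1) ⊔ D = D (j minimal such that ds R (j+1) <= D). N normal, D < N <= C,
[N,N] <= D (commutator of a sup of normal subgroups; or elementwise mod D). For a chief pair (Y,X) with A <= Y, X <= D: [X,M] <= Y (hM), [X,D] <= [D,D] <= A <= Y, so [X,R] <= Y and [X,N] <= Y. H1b with T = D, U = A (relIndex != 0: G finite): ic N D k <= A.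
So ic N N (1+k) <= ic N D k <= A and ic N N (k+2) <= [A,N] = ⊥ (N <= C, hcen): NM N ⊥. Q5 (A <= N): [N,N] <= A, so N <= D by hDmax: contradiction.
-/

namespace GP48

open Subgroup

private theorem Q6_key {G : Type*} [Group G] (Z K : Subgroup G) [Z.Normal] :
    K ≤ Z ↔ K.map (QuotientGroup.mk' Z) = ⊥ := by
  rw [Subgroup.map_eq_bot_iff, QuotientGroup.ker_mk']

/-- A commutator with a supremum, modulo a normal subgroup. -/
private theorem Q6_sup {G : Type*} [Group G] (X M D Y : Subgroup G) [Y.Normal]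
    (h1 : ⁅X, M⁆ ≤ Y) (h2 : ⁅X, D⁆ ≤ Y) : ⁅X, M ⊔ D⁆ ≤ Y := by
  rw [commutator_comm] at h1 h2 ⊢
  rw [Q6_key, map_commutator, commutator_eq_bot_iff_le_centralizer] at h1 h2 ⊢
  rw [Subgroup.map_sup]
  exact sup_le h1 h2


theorem Q6 {G : Type*} [Group G] [Finite G] [Group.IsSolvable G] (A D C M : Subgroup G)
    [A.Normal] [D.Normal] [C.Normal] [M.Normal] (hAD : A ≤ D) (hDC : D ≤ C) (hcen : ⁅C, A⁆ = ⊥)
    (hmax : ∀ B : Subgroup G, B.Normal → B ≤ C → ⁅B, B⁆ = ⊥ → B ≤ A) (hDA : ⁅D, D⁆ ≤ A)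
    (hDmax : ∀ D' : Subgroup G, D'.Normal → D ≤ D' → D' ≤ C → ⁅D', D'⁆ ≤ A → D' ≤ D)
    (hMC : M ≤ C)
    (hM : ∀ Y X : Subgroup G, Chief Y X → A ≤ Y → X ≤ D → ⁅X, M⁆ ≤ Y) : M ≤ D := by
  by_contra hMD
  have hn : ∃ n, ds (M ⊔ D) (n + 1) ≤ D := by
    obtain ⟨n, hn⟩ := (inferInstance : Group.IsSolvable G).solvable
    refine ⟨n, ?_⟩
    have h1 : ds (M ⊔ D) n ≤ ds (⊤ : Subgroup G) n := ds_mono le_top n
    rw [ds_top, hn] at h1
    exact ((ds_succ_le _ _).trans h1).trans bot_le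
  classical
  obtain ⟨j, hj1, hj2⟩ : ∃ j, ds (M ⊔ D) (j + 1) ≤ D ∧ ¬ ds (M ⊔ D) j ≤ D := by
    refine ⟨Nat.find hn, Nat.find_spec hn, ?_⟩
    intro hcon
    rcases Nat.eq_zero_or_pos (Nat.find hn) with h0 | h0
    · rw [h0, ds_zero] at hcon
      exact hMD (le_sup_left.trans hcon)
    · obtain ⟨m, hm⟩ : ∃ m, Nat.find hn = m + 1 := ⟨Nat.find hn - 1, by omega⟩
      have h1 := Nat.find_min hn (m := m) (by omega)
      rw [hm] at hcon
      exact h1 hcon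
  have hRC : M ⊔ D ≤ C := sup_le hMC hDC
  have hNR : ds (M ⊔ D) j ⊔ D ≤ M ⊔ D := sup_le (ds_le _ _) le_sup_right
  have hNC : ds (M ⊔ D) j ⊔ D ≤ C := hNR.trans hRC
  have hND : ⁅ds (M ⊔ D) j ⊔ D, ds (M ⊔ D) j ⊔ D⁆ ≤ D := by
    have h1 : (ds (M ⊔ D) j ⊔ D).map (QuotientGroup.mk' D) =
        (ds (M ⊔ D) j).map (QuotientGroup.mk' D) := by
      rw [Subgroup.map_sup, (Q6_key D D).1 le_rfl, sup_bot_eq]
    rw [Q6_key, map_commutator, h1, ← map_commutator, ← Q6_key]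
    exact hj1
  have hch : ∀ Y X : Subgroup G, Chief Y X → A ≤ Y → X ≤ D → ⁅X, ds (M ⊔ D) j ⊔ D⁆ ≤ Y := by
    intro Y X hYX hAY hXD
    have := hYX.nY
    refine (commutator_mono le_rfl hNR).trans (Q6_sup X M D Y (hM Y X hYX hAY hXD) ?_)
    exact ((commutator_mono hXD le_rfl).trans hDA).trans hAY
  have hfin : A.relIndex D ≠ 0 := Subgroup.index_ne_zero_of_finite (H := A.subgroupOf D)
  obtain ⟨k, hk⟩ := H1b (ds (M ⊔ D) j ⊔ D) D A hAD hDA hfin hch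
  have hAN : ⁅A, ds (M ⊔ D) j ⊔ D⁆ = ⊥ := by
    rw [eq_bot_iff, ← hcen, commutator_comm C A]
    exact commutator_mono le_rfl hNC
  have hnil : NM (ds (M ⊔ D) j ⊔ D) ⊥ := by
    refine ⟨1 + k + 1, ?_⟩
    rw [ic_succ, ic_add]
    have h1 : ic (ds (M ⊔ D) j ⊔ D) (ic (ds (M ⊔ D) j ⊔ D) (ds (M ⊔ D) j ⊔ D) 1) k ≤ A :=
      (ic_mono le_rfl hND k).trans hk
    rw [← hAN]
    exact commutator_mono h1 le_rfl
  have hQ := Q5 A (ds (M ⊔ D) j ⊔ D) (hAD.trans le_sup_right)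
    (by rw [commutator_comm]; exact hAN) (fun B hB1 hB2 hB3 => hmax B hB1 (hB2.trans hNC) hB3) hnil
  exact hj2 (le_sup_left.trans (hDmax _ inferInstance le_sup_right hNC hQ))

end GP48
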