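import Mathlib
import Pool.Agent.LibGP48.Defs

/-!
# LibGP48 Q7 (MEDIUM)

Cauchy in D/A: x in D \ A with x^r in A. hZ: y in D with c = x y x⁻¹ y⁻¹ != 1, c in A central in D (hDA, hcen), c^r = [x^r, y] = 1. u ↦ [x,u] is a homomorphism D → A (class 2) with kernel K0 = centraliser of x in D;
its image contains c of order r, so [D : K0] >= r; K0 contains A and x, and r ∣ [K0 : A] (x has order r mod A), so [K0 : A] >= r; relIndex is multiplicative.
-/

namespace GP48

open Subgroup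

open scoped commutatorElement in
theorem Q7 {G : Type*} [Group G] [Finite G] (A D : Subgroup G) [A.Normal] [D.Normal]
    (hAD : A ≤ D) (hDA : ⁅D, D⁆ ≤ A) (hcen : ⁅D, A⁆ = ⊥)
    (hZ : ∀ x ∈ D, (∀ y ∈ D, x * y = y * x) → x ∈ A) (r : ℕ) (hr : r.Prime)
    (hdvd : r ∣ A.relIndex D) :
    r ^ 2 ≤ A.relIndex D ∧ ∃ z ∈ A, z ^ r = 1 ∧ z ≠ 1 := by
  classical
  haveI : Fact r.Prime := ⟨hr⟩
  have hcard : r ∣ Nat.card (D ⧸ A.subgroupOf D) := hdvd
  obtain ⟨q, hq⟩ := exists_prime_orderOf_dvd_card' r hcard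
  obtain ⟨x, rfl⟩ := QuotientGroup.mk_surjective q
  have hxr : x ^ r ∈ A.subgroupOf D := by
    rw [← QuotientGroup.eq_one_iff, QuotientGroup.mk_pow, ← hq, pow_orderOf_eq_one]
  have hxA : x ∉ A.subgroupOf D := by
    intro h
    rw [← QuotientGroup.eq_one_iff] at h
    rw [h, orderOf_one] at hq
    exact hr.one_lt.ne hq
  have hc : ∀ a ∈ A.subgroupOf D, ∀ u : D, a * u = u * a := by
    intro a ha u
    have h1 : ⁅(u : G), (a : G)⁆ ∈ ⁅D, A⁆ := Subgroup.commutator_mem_commutator u.2 ha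
    rw [hcen, Subgroup.mem_bot, commutatorElement_eq_one_iff_mul_comm] at h1
    exact Subtype.ext h1.symm
  have hcomm : ∀ u v : D, ⁅u, v⁆ ∈ A.subgroupOf D := by
    intro u v
    exact hDA (Subgroup.commutator_mem_commutator u.2 v.2)
  obtain ⟨y, hy⟩ : ∃ y : D, x * y ≠ y * x := by
    by_contra hcon
    push Not at hcon
    exact hxA (hZ x x.2 fun y hy => congrArg Subtype.val (hcon ⟨y, hy⟩))
  have hL : ∀ u v w : D, ⁅u, v * w⁆ = ⁅u, v⁆ * ⁅u, w⁆ := by
    intro u v w
    have h1 : ⁅u, v * w⁆ = ⁅u, v⁆ * (v * ⁅u, w⁆ * v⁻¹) := by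
      simp only [commutatorElement_def]
      group
    rw [h1, ← hc _ (hcomm u w) v, mul_inv_cancel_right]
  have hR : ∀ u v w : D, ⁅u * v, w⁆ = ⁅v, w⁆ * ⁅u, w⁆ := by
    intro u v w
    have h1 : ⁅u * v, w⁆ = (u * ⁅v, w⁆ * u⁻¹) * ⁅u, w⁆ := by
      simp only [commutatorElement_def]
      group
    rw [h1, ← hc _ (hcomm v w) u, mul_inv_cancel_right]
  have hpow : ∀ n : ℕ, ⁅x ^ n, y⁆ = ⁅x, y⁆ ^ n := by
    intro n
    induction n with
    | zero => simp
    | succ n ih => rw [pow_succ, hR, ih, pow_succ, pow_mul_comm']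
  have hcr : ⁅x, y⁆ ^ r = 1 := by
    rw [← hpow, commutatorElement_eq_one_iff_mul_comm]
    exact hc _ hxr y
  have hc1 : ⁅x, y⁆ ≠ 1 := by
    intro h
    rw [commutatorElement_eq_one_iff_mul_comm] at h
    exact hy h
  let φ : D →* D := 
    { toFun := fun u => ⁅x, u⁆
      map_one' := commutatorElement_one_right x
      map_mul' := fun v w => hL x v w }
  have hφ : ∀ u, φ u = ⁅x, u⁆ := fun u => rfl
  have hAK : A.subgroupOf D ≤ φ.ker := by
    intro a ha
    rw [MonoidHom.mem_ker, hφ, commutatorElement_eq_one_iff_mul_comm]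
    exact (hc a ha x).symm
  have hxK : x ∈ φ.ker := by
    rw [MonoidHom.mem_ker, hφ, commutatorElement_eq_one_iff_mul_comm]
  have h1 : r ∣ φ.ker.index := by
    rw [Subgroup.index_ker]
    have h2 : orderOf (⟨φ y, y, rfl⟩ : φ.range) = r := by
      refine orderOf_eq_prime ?_ ?_
      · exact Subtype.ext hcr
      · intro h
        exact hc1 (congrArg Subtype.val h)
    have h3 := orderOf_dvd_natCard (⟨φ y, y, rfl⟩ : φ.range)
    rwa [h2] at h3
  have h2 : r ∣ (A.subgroupOf D).relIndex φ.ker := by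
    have h3 : orderOf (QuotientGroup.mk (⟨x, hxK⟩ : φ.ker) :
        φ.ker ⧸ (A.subgroupOf D).subgroupOf φ.ker) = r := by
      refine orderOf_eq_prime ?_ ?_
      · rw [← QuotientGroup.mk_pow, QuotientGroup.eq_one_iff]
        exact hxr
      · intro h
        rw [QuotientGroup.eq_one_iff] at h
        exact hxA h
    have h4 := orderOf_dvd_natCard (QuotientGroup.mk (⟨x, hxK⟩ : φ.ker) :
        φ.ker ⧸ (A.subgroupOf D).subgroupOf φ.ker)
    rw [h3] at h4
    exact h4
  have h5 : r ^ 2 ∣ A.relIndex D := by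
    have h6 := Subgroup.relIndex_mul_index hAK
    have h7 : A.relIndex D = (A.subgroupOf D).index := rfl
    rw [h7, ← h6, pow_two]
    exact mul_dvd_mul h2 h1
  refine ⟨Nat.le_of_dvd (Nat.pos_of_ne_zero ?_) h5, ((⁅x, y⁆ : D) : G), hcomm x y, ?_, ?_⟩
  · exact Subgroup.index_ne_zero_of_finite
  · have := congrArg Subtype.val hcr
    exact this
  · intro h
    exact hc1 (Subtype.ext h)

end GP48
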