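import Mathlib
import Pool.Agent.LibGP48.Defs
import Pool.Agent.LibGP48.D3
import Pool.Agent.LibGP48.Q1
import Pool.Agent.LibGP48.Q2
import Pool.Agent.LibGP48.Q6
import Pool.Agent.LibGP48.Q7

/-!
# LibGP48 Q8 (STRONG (assembly))

A a maximal abelian normal subgroup of G, C = centralizer A (normal), a from Q1; D a maximal normal subgroup with A <= D <= C, [D,D] <= A. hmax: B normal abelian <= C: B ⊔ A abelian normal, so = A. Z(D) = A: the centre of D is abelian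
normal and contains A. Case D = A: Q6 with M = C (no chief pair between A and D) gives C <= A, so ds ⊤ 2 = [[⊤,⊤],[⊤,⊤]] <= [C,C] <= [A,A] = ⊥. Case D != A: a prime r0 ∣ A.relIndex D; Q7, Q2: r0^2 <= (n/a)^2, so r0 <= n/a; r0 ∣ p^a-1.
For g: M = ds C g; chief pair (Y,X), A <= Y, X <= D: D3 gives r, s with Y.relIndex X = r^s ∣ A.relIndex D, r^s <= (n/a)^2, r ∣ A.relIndex D so r <= n/a, r ∣ p^a-1: LB s r g; [ds ⊤ g, X] <= Y so [X,M] <= Y. Q6: M <= D. ds D 2 = ⊥. If a = 1: C = ⊤, ds ⊤ (g+2) = ds M 2 = ⊥.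
Improved version (helper50): M = ds ⊤ (max e g) lies in C, so ds ⊤ (max e g + 2) <= ds D 2 = ⊥.
-/

namespace GP48

open Subgroup

private theorem q8_relIndex {G : Type} [Group G] [Finite G] (A B : Subgroup G) : A.relIndex B ≠ 0 :=
  (A.subgroupOf B).index_ne_zero_of_finite

private theorem q8_cen {G : Type} [Group G] {H K : Subgroup G} (h : H ≤ centralizer (K : Set G)) : ⁅H, K⁆ = ⊥ :=
  commutator_eq_bot_iff_le_centralizer.2 h

/-- the sup of two commuting abelian subgroups is abelian -/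
private theorem q8_sup {G : Type} [Group G] {A B : Subgroup G} (hA : ⁅A, A⁆ = ⊥) (hB : ⁅B, B⁆ = ⊥)
    (hAB : B ≤ centralizer (A : Set G)) : ⁅B ⊔ A, B ⊔ A⁆ = ⊥ := by
  have h1 : A ≤ centralizer (A : Set G) := commutator_eq_bot_iff_le_centralizer.1 hA
  have h2 : B ≤ centralizer (B : Set G) := commutator_eq_bot_iff_le_centralizer.1 hB
  have h3 : A ≤ centralizer (B : Set G) := le_centralizer_iff.1 hAB
  refine q8_cen (sup_le ?_ ?_)
  · exact le_centralizer_iff.1 (sup_le h2 h3)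
  · exact le_centralizer_iff.1 (sup_le hAB h1)

theorem Q8 {p : ℕ} [Fact p.Prime] {V G : Type} [AddCommGroup V] [Module (ZMod p) V]
    [Module.Finite (ZMod p) V] [Group G] [Finite G] [Group.IsSolvable G]
    (φ : G →* (V ≃ₗ[ZMod p] V)) (hφ : Function.Injective φ) (hirr : Irr φ) (n : ℕ)
    (hn : Module.finrank (ZMod p) V = n)
    (hf : ∀ A : Subgroup G, A.Normal → ⁅A, A⁆ = ⊥ → EnvField φ A) :
    ds (⊤ : Subgroup G) 2 = ⊥ ∨ ∃ a, 1 ≤ a ∧ a ∣ n ∧
      (∃ r, r.Prime ∧ r ≤ n / a ∧ r ∣ p ^ a - 1) ∧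
      ∀ g, (∀ r m : ℕ, r.Prime → 1 ≤ m → r ^ m ≤ (n / a) ^ 2 → r ≤ n / a → r ∣ p ^ a - 1 →
        LB m r g) → ds (⊤ : Subgroup G) (max (if a = 1 then 0 else 1) g + 2) = ⊥ := by
  have hne : Nontrivial V := hirr.1
  -- a maximal abelian normal subgroup
  obtain ⟨A, hAmax⟩ : ∃ A : Subgroup G, Maximal (fun x => x ∈ {B : Subgroup G | B.Normal ∧ ⁅B, B⁆ = ⊥}) A := by
    refine Set.Finite.exists_maximal (Set.toFinite _) ⟨⊥, ?_, ?_⟩
    · infer_instance
    · exact commutator_bot_left ⊥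
  have hAn : A.Normal := hAmax.prop.1
  have hAA : ⁅A, A⁆ = ⊥ := hAmax.prop.2
  have hAA' : A ≤ centralizer (A : Set G) := commutator_eq_bot_iff_le_centralizer.1 hAA
  obtain ⟨C, hC⟩ : ∃ C : Subgroup G, C = centralizer (A : Set G) := ⟨_, rfl⟩
  have hCn : C.Normal := by
    rw [hC]
    exact normal_centralizer
  have hAC : A ≤ C := by
    rw [hC]
    exact hAA'
  have hcen : ⁅C, A⁆ = ⊥ := by
    rw [hC]
    exact q8_cen le_rfl
  obtain ⟨a, ha⟩ : ∃ a, a = Module.finrank (ZMod p) (Env φ A) := ⟨_, rfl⟩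
  obtain ⟨q1, q2, q3, q4, q5⟩ := Q1 φ hφ A (hf A hAn hAA) a ha
  rw [← hC] at q3 q4
  have hmax : ∀ B : Subgroup G, B.Normal → B ≤ C → ⁅B, B⁆ = ⊥ → B ≤ A := by
    intro B hB hBC hBB
    have h1 : B ⊔ A ∈ {B : Subgroup G | B.Normal ∧ ⁅B, B⁆ = ⊥} :=
      ⟨inferInstance, q8_sup hAA hBB (by rw [← hC]; exact hBC)⟩
    exact le_sup_left.trans (hAmax.le_of_ge h1 le_sup_right)
  -- a maximal `D`
  obtain ⟨D, hDm⟩ : ∃ D : Subgroup G, Maximal (fun x => x ∈ {D : Subgroup G | D.Normal ∧ A ≤ D ∧ D ≤ C ∧ ⁅D, D⁆ ≤ A}) D := by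
    refine Set.Finite.exists_maximal (Set.toFinite _) ⟨A, hAn, le_rfl, hAC, ?_⟩
    rw [hAA]
    exact bot_le
  obtain ⟨hDn, hAD, hDC, hDA⟩ := hDm.prop
  have hDmax : ∀ D' : Subgroup G, D'.Normal → D ≤ D' → D' ≤ C → ⁅D', D'⁆ ≤ A → D' ≤ D := by
    intro D' h1 h2 h3 h4
    exact hDm.le_of_ge ⟨h1, hAD.trans h2, h3, h4⟩ h2
  have hsucc : ∀ H : Subgroup G, ds H 1 = ⁅H, H⁆ := fun H => rfl
  have hDD2 : ds D 2 = ⊥ := by
    rw [eq_bot_iff, ← hAA]
    change ⁅⁅D, D⁆, ⁅D, D⁆⁆ ≤ ⁅A, A⁆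
    exact commutator_mono hDA hDA
  by_cases hDA0 : D = A
  · left
    have h1 : C ≤ D := by
      refine Q6 A D C C hAD hDC hcen hmax hDA hDmax le_rfl ?_
      intro Y X hYX hAY hXD
      exfalso
      rw [hDA0] at hXD
      exact absurd (hXD.trans hAY) (not_le_of_gt hYX.lt)
    rw [eq_bot_iff, ← hDD2]
    change ⁅⁅(⊤ : Subgroup G), ⊤⁆, ⁅(⊤ : Subgroup G), ⊤⁆⁆ ≤ ⁅⁅D, D⁆, ⁅D, D⁆⁆
    have h2 : ⁅(⊤ : Subgroup G), ⊤⁆ ≤ A := by
      rw [← hDA0]
      exact q3.trans h1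
    refine (commutator_mono h2 h2).trans ?_
    rw [hAA]
    exact bot_le
  right
  have hZ : ∀ x ∈ D, (∀ y ∈ D, x * y = y * x) → x ∈ A := by
    intro x hx hxy
    have h1 : D ⊓ centralizer (D : Set G) ≤ A := by
      refine hmax _ ?_ (inf_le_left.trans hDC) ?_
      · have h3 : (centralizer (D : Set G)).Normal := normal_centralizer
        infer_instance
      · refine q8_cen ?_
        intro y hy
        rw [mem_centralizer_iff]
        intro z hz
        exact (mem_centralizer_iff.1 hy.2) z hz.1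
    refine h1 ⟨hx, ?_⟩
    change x ∈ centralizer (D : Set G)
    rw [mem_centralizer_iff]
    intro y hy
    exact (hxy y hy).symm
  have hDcenA : ⁅D, A⁆ = ⊥ := by
    refine q8_cen ?_
    rw [← hC]
    exact hDC
  have hQ2 : A.relIndex D ≤ (n / a) ^ 2 := by
    rw [← hn]
    refine Q2 φ hφ A (hf A hAn hAA) a ha D hAD ?_ hDA hZ
    rw [← hC]
    exact hDC
  -- a prime divisor of the index
  have hprime : ∀ r : ℕ, r.Prime → r ∣ A.relIndex D → r ≤ n / a ∧ r ∣ p ^ a - 1 := by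
    intro r hr hrd
    obtain ⟨h1, z, hz, hz1, hz2⟩ := Q7 A D hAD hDA hDcenA hZ r hr hrd
    refine ⟨?_, q5 r hr z hz hz1 hz2⟩
    exact (Nat.pow_le_pow_iff_left (by norm_num : (2 : ℕ) ≠ 0)).1 (h1.trans hQ2)
  refine ⟨a, q1, by rw [← hn]; exact q2, ?_, ?_⟩
  · have h1 : A.relIndex D ≠ 1 := by
      intro h
      rw [relIndex_eq_one] at h
      exact hDA0 (le_antisymm h hAD)
    obtain ⟨r, hr, hrd⟩ := Nat.exists_prime_and_dvd h1
    exact ⟨r, hr, hprime r hr hrd⟩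
  · intro g hLB
    have hM : ∀ Y X : Subgroup G, Chief Y X → A ≤ Y → X ≤ D →
        ⁅X, ds (⊤ : Subgroup G) (max (if a = 1 then 0 else 1) g)⁆ ≤ Y := by
      intro Y X hYX hAY hXD
      obtain ⟨r, s, hr, hs, hrs, -, hD3⟩ := D3 hYX
      have hdvd : r ^ s ∣ A.relIndex D := by
        have h1 := relIndex_mul_relIndex A Y X hAY hYX.lt.le
        have h2 := relIndex_mul_relIndex A X D (hAY.trans hYX.lt.le) hXD
        rw [← h2, ← h1, hrs]
        exact Dvd.dvd.mul_right (Dvd.intro_left _ rfl) _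
      have hle : r ^ s ≤ (n / a) ^ 2 := (Nat.le_of_dvd (Nat.pos_of_ne_zero (q8_relIndex A D)) hdvd).trans hQ2
      obtain ⟨h3, h4⟩ := hprime r hr ((dvd_pow_self r (by omega)).trans hdvd)
      have h5 := hD3 g (hLB r s hr hs hle h3 h4) (by
        obtain ⟨e, he⟩ := (inferInstance : Group.IsSolvable G).solvable
        refine ⟨e, ?_⟩
        rw [ds_top, he, commutator_bot_left]
        exact bot_le)
      rw [commutator_comm]
      exact (commutator_mono (ds_antitone _ (le_max_right _ _)) le_rfl).trans h5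
    have hMC : ds (⊤ : Subgroup G) (max (if a = 1 then 0 else 1) g) ≤ C := by
      by_cases ha1 : a = 1
      · rw [q4 ha1]
        exact le_top
      · refine (ds_antitone _ (le_max_left _ _)).trans ?_
        rw [if_neg ha1, hsucc]
        exact q3
    have hMD := Q6 A D C _ hAD hDC hcen hmax hDA hDmax hMC hM
    rw [ds_add, eq_bot_iff, ← hDD2]
    exact ds_mono hMD 2

end GP48
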