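import Mathlib
import Pool.Agent.LibGP48.Defs
import Pool.Agent.LibGP48.I1
import Pool.Agent.LibGP48.I2
import Pool.Agent.LibGP48.I3
import Pool.Agent.LibGP48.Q8

/-!
# LibGP48 L0: one step for linear groups
-/

namespace GP48

open Subgroup

lemma Env_comm {p : ℕ} {V G : Type*} [AddCommGroup V] [Module (ZMod p) V] [Group G]
    (φ : G →* (V ≃ₗ[ZMod p] V)) (A : Subgroup G) (hA : ⁅A, A⁆ = ⊥) :
    ∀ x ∈ Env φ A, ∀ y ∈ Env φ A, x * y = y * x := by
  intro x hx y hy
  refine Algebra.adjoin_induction₂ (p := fun x y _ _ => x * y = y * x) ?_ ?_ ?_ ?_ ?_ ?_ ?_ ?_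
    hx hy
  · rintro _ _ ⟨a, ha, rfl⟩ ⟨b, hb, rfl⟩
    have hab : a * b = b * a := by
      have h1 : a * b * a⁻¹ * b⁻¹ ∈ ⁅A, A⁆ := Subgroup.commutator_mem_commutator ha hb
      rw [hA, Subgroup.mem_bot] at h1
      have h2 : a * b = (a * b * a⁻¹ * b⁻¹) * (b * a) := by group
      rw [h2, h1, one_mul]
    have h3 : φ a * φ b = φ b * φ a := by rw [← map_mul, ← map_mul, hab]
    ext v
    exact DFunLike.congr_fun h3 v
  · intro r s
    exact (Algebra.commutes r _)
  · intro r x _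
    exact (Algebra.commutes r _)
  · intro r x _
    exact (Algebra.commutes r _).symm
  · intro x y z _ _ _ h1 h2
    rw [add_mul, mul_add, h1, h2]
  · intro x y z _ _ _ h1 h2
    rw [add_mul, mul_add, h1, h2]
  · intro x y z _ _ _ h1 h2
    rw [mul_assoc, h2, ← mul_assoc, h1, mul_assoc]
  · intro x y z _ _ _ h1 h2
    rw [← mul_assoc, h1, mul_assoc, h2, mul_assoc]

/-- one step for linear groups -/
theorem L0 (n p d : ℕ) [Fact p.Prime] (hn : 1 ≤ n) (hd : 2 ≤ d)
    (h1 : ∀ t, 2 ≤ t → t ∣ n → ∃ d1 g, PB t d1 ∧ LB (n / t) p g ∧ d1 + g ≤ d)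
    (h2 : ∀ a, 1 ≤ a → a ∣ n → (∃ r, r.Prime ∧ r ≤ n / a ∧ r ∣ p ^ a - 1) →
      ∃ g, (∀ r m : ℕ, r.Prime → 1 ≤ m → r ^ m ≤ (n / a) ^ 2 → r ≤ n / a → r ∣ p ^ a - 1 →
        LB m r g) ∧ max (if a = 1 then 0 else 1) g + 2 ≤ d) : LB n p d := by
  intro K hsol hirr
  haveI : Finite (GLV p n) := Finite.of_injective (fun f : GLV p n => (f : VV p n → VV p n))
    DFunLike.coe_injective
  haveI : Finite K := inferInstance
  haveI := hsol
  have hfin : Module.finrank (ZMod p) (VV p n) = n := by simp [VV]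
  by_cases hf : ∀ A : Subgroup K, A.Normal → ⁅A, A⁆ = ⊥ → EnvField K.subtype A
  · rcases Q8 K.subtype K.subtype_injective hirr n hfin hf with h | ⟨a, ha1, ha2, hr, hg⟩
    · rw [ds_top] at h
      exact le_bot_iff.1 ((derivedSeries_le_of_le hd).trans h.le)
    · obtain ⟨g, hg1, hg2⟩ := h2 a ha1 ha2 hr
      have := hg g hg1
      rw [ds_top] at this
      exact le_bot_iff.1 ((derivedSeries_le_of_le hg2).trans this.le)
  · push Not at hf
    obtain ⟨A, hAn, hAc, hnE⟩ := hf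
    haveI := hAn
    have hcomm := Env_comm K.subtype A hAc
    have hker : ∃ e, ds (⊤ : Subgroup K) e ≤ K.subtype.ker := by
      obtain ⟨e, he⟩ := hsol.solvable
      exact ⟨e, by rw [ds_top, he]; exact bot_le⟩
    obtain ⟨Ω, hΩ, hcard⟩ := I1 K.subtype hirr (Env K.subtype A) hcomm (by
      intro g x hx
      refine Algebra.adjoin_induction (p := fun x _ =>
        (K.subtype g : VV p n →ₗ[ZMod p] VV p n) ∘ₗ x ∘ₗ
          (K.subtype g⁻¹ : VV p n →ₗ[ZMod p] VV p n) ∈ Env K.subtype A) ?_ ?_ ?_ ?_ hx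
      · rintro _ ⟨a, ha, rfl⟩
        refine Algebra.subset_adjoin ⟨g * a * g⁻¹, hAn.conj_mem a ha g, ?_⟩
        ext v
        simp
      · intro r
        have : (K.subtype g : VV p n →ₗ[ZMod p] VV p n) ∘ₗ
            (algebraMap (ZMod p) (Module.End (ZMod p) (VV p n)) r) ∘ₗ
            (K.subtype g⁻¹ : VV p n →ₗ[ZMod p] VV p n) =
            algebraMap (ZMod p) (Module.End (ZMod p) (VV p n)) r := by
          ext v
          simp [Module.algebraMap_end_apply]
        rw [this]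
        exact Subalgebra.algebraMap_mem _ _
      · intro x y _ _ h3 h4
        rw [LinearMap.add_comp, LinearMap.comp_add]
        exact Subalgebra.add_mem _ h3 h4
      · intro x y _ _ h3 h4
        have : (K.subtype g : VV p n →ₗ[ZMod p] VV p n) ∘ₗ (x * y) ∘ₗ
            (K.subtype g⁻¹ : VV p n →ₗ[ZMod p] VV p n) =
            ((K.subtype g : VV p n →ₗ[ZMod p] VV p n) ∘ₗ x ∘ₗ
              (K.subtype g⁻¹ : VV p n →ₗ[ZMod p] VV p n)) *
            ((K.subtype g : VV p n →ₗ[ZMod p] VV p n) ∘ₗ y ∘ₗ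
              (K.subtype g⁻¹ : VV p n →ₗ[ZMod p] VV p n)) := by
          refine LinearMap.ext fun v => ?_
          simp only [LinearMap.comp_apply, Module.End.mul_apply, LinearEquiv.coe_coe]
          congr 2
          have h5 : (K.subtype g⁻¹ * K.subtype g) = 1 := by rw [← map_mul]; simp
          have h6 := DFunLike.congr_fun h5 (y ((K.subtype g⁻¹) v))
          simpa using h6.symm
        rw [this]
        exact Subalgebra.mul_mem _ h3 h4) (by
      intro h
      exact hnE ⟨hcomm, h⟩)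
    obtain ⟨W, hW⟩ : Ω.Nonempty := Finset.card_pos.1 (by omega)
    have h3 := I2 K.subtype Ω hΩ W hW
    rw [hfin] at h3
    obtain ⟨d1, g, hd1, hg, hle⟩ := h1 Ω.card hcard ⟨_, h3.symm⟩
    have h4 := I3 K.subtype hirr hker Ω hΩ (n / Ω.card) d1 g (by
      rw [hfin]
      exact Nat.mul_div_cancel' ⟨_, h3.symm⟩) hd1 hg
    rw [ds_top] at h4
    have h5 : K.subtype.ker = ⊥ := (MonoidHom.ker_eq_bot_iff _).2 K.subtype_injective
    rw [h5] at h4
    exact le_bot_iff.1 ((derivedSeries_le_of_le hle).trans h4)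

end GP48
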