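import Mathlib
import Pool.Agent.LibGP48.Defs
import Pool.Agent.LibGP48.D1
import Pool.Agent.LibGP48.I1
import Pool.Agent.LibGP48.L0
import Pool.Agent.LibGP48.Q8

/-!
# LibGP48 L2 (MEDIUM/STRONG)

e : V ≃ₗ VV p n (LinearEquiv.ofFinrankEq). ψ' : G →* GLV p n, ψ' g = e.symm.trans ((ψ g).trans e) (as in D1), K = ψ'.range, soluble (image of ds ⊤ e trivial), irreducible (K.subtype). Now copy the proof of L0 (L0.lean in the tar, proved): if some abelian normal
subgroup A of K is not EnvField then I1 with R = Env K.subtype A gives Ω0 with Sys K.subtype Ω0, 2 <= card; transport it by e to Ω = Ω0.image (map e.symm) for ψ. Otherwise Q8 (new version, with max): ds ⊤ 2 = ⊥, or for g: LB m r g for all r^m <= (n/a)^2 <= n^2, so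
ds (⊤ : Subgroup K) (max (0 or 1) g + 2) = ⊥, and max (0 or 1) g = g since 1 <= g. Transport: ds (⊤ : Subgroup G) (g+2) maps to ds (⊤ : Subgroup K) (g+2) = ⊥ (ds_map with the surjection G → K), and ker of G → K is ψ.ker.
-/

namespace GP48

open Subgroup

/-- an abelian normal subgroup whose enveloping algebra is not a field gives a system of imprimitivity -/
private theorem L2_sys {p n : ℕ} [Fact p.Prime] (K : Subgroup (GLV p n)) (hirr : Irr K.subtype)
    (A : Subgroup K) (hAn : A.Normal) (hAc : ⁅A, A⁆ = ⊥) (hnE : ¬ EnvField K.subtype A) :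
    ∃ Ω : Finset (Submodule (ZMod p) (VV p n)), Sys K.subtype Ω ∧ 2 ≤ Ω.card := by
  have hcomm := Env_comm K.subtype A hAc
  exact I1 K.subtype hirr (Env K.subtype A) hcomm (by
      intro g x hx
      refine Algebra.adjoin_induction (p := fun x _ =>
        (K.subtype g : VV p n →ₗ[ZMod p] VV p n) ∘ₗ x ∘ₗ
          (K.subtype g⁻¹ : VV p n →ₗ[ZMod p] VV p n) ∈ Env K.subtype A) ?_ ?_ ?_ ?_ hx
      · rintro _ ⟨a, ha, rfl⟩
        refine Algebra.subset_adjoin ⟨g * a * g⁻¹, hAn.conj_mem a ha g, ?_⟩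
        ext v
        simp
      · intro r
        have : (K.subtype g : VV p n →ₗ[ZMod p] VV p n) ∘ₗ
            (algebraMap (ZMod p) (Module.End (ZMod p) (VV p n)) r) ∘ₗ
            (K.subtype g⁻¹ : VV p n →ₗ[ZMod p] VV p n) =
            algebraMap (ZMod p) (Module.End (ZMod p) (VV p n)) r := by
          ext v
          simp [Module.algebraMap_end_apply]
        rw [this]
        exact Subalgebra.algebraMap_mem _ _
      · intro x y _ _ h3 h4
        rw [LinearMap.add_comp, LinearMap.comp_add]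
        exact Subalgebra.add_mem _ h3 h4
      · intro x y _ _ h3 h4
        have : (K.subtype g : VV p n →ₗ[ZMod p] VV p n) ∘ₗ (x * y) ∘ₗ
            (K.subtype g⁻¹ : VV p n →ₗ[ZMod p] VV p n) =
            ((K.subtype g : VV p n →ₗ[ZMod p] VV p n) ∘ₗ x ∘ₗ
              (K.subtype g⁻¹ : VV p n →ₗ[ZMod p] VV p n)) *
            ((K.subtype g : VV p n →ₗ[ZMod p] VV p n) ∘ₗ y ∘ₗ
              (K.subtype g⁻¹ : VV p n →ₗ[ZMod p] VV p n)) := by
          refine LinearMap.ext fun v => ?_
          simp only [LinearMap.comp_apply, Module.End.mul_apply, LinearEquiv.coe_coe]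
          congr 2
          have h5 : (K.subtype g⁻¹ * K.subtype g) = 1 := by rw [← map_mul]; simp
          have h6 := DFunLike.congr_fun h5 (y ((K.subtype g⁻¹) v))
          exact h6.symm
        rw [this]
        exact Subalgebra.mul_mem _ h3 h4) (by
      intro h
      exact hnE ⟨hcomm, h⟩)

/-- imprimitive, or small derived length -/
theorem L2 {p n : ℕ} [Fact p.Prime] {V G : Type*} [AddCommGroup V] [Module (ZMod p) V]
    [Module.Finite (ZMod p) V] [Group G] (ψ : G →* (V ≃ₗ[ZMod p] V)) (hirr : Irr ψ)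
    (hn : Module.finrank (ZMod p) V = n) (hsol : ∃ e, ds (⊤ : Subgroup G) e ≤ ψ.ker) :
    (∃ Ω : Finset (Submodule (ZMod p) V), Sys ψ Ω ∧ 2 ≤ Ω.card) ∨
      ∀ g, 1 ≤ g → (∀ r m : ℕ, r.Prime → 1 ≤ m → r ^ m ≤ n ^ 2 → LB m r g) →
        ds (⊤ : Subgroup G) (g + 2) ≤ ψ.ker := by
  classical
  have hfin : Module.finrank (ZMod p) (VV p n) = n := by simp [VV]
  let e : V ≃ₗ[ZMod p] VV p n := LinearEquiv.ofFinrankEq V (VV p n) (by rw [hn, hfin])
  let ψ' : G →* GLV p n :=
    { toFun := fun g => e.symm.trans ((ψ g).trans e)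
      map_one' := by
        refine LinearEquiv.ext fun v => ?_
        simp
      map_mul' := by
        intro g h
        refine LinearEquiv.ext fun v => ?_
        simp }
  have hψ' : ∀ g v, ψ' g v = e (ψ g (e.symm v)) := fun g v => rfl
  let f : G →* ψ'.range := ψ'.rangeRestrict
  have hf1 : Function.Surjective f := ψ'.rangeRestrict_surjective
  have hf2 : ∀ g, (f g : GLV p n) = ψ' g := fun g => rfl
  have hds : ∀ k, (ds (⊤ : Subgroup G) k).map f = ds (⊤ : Subgroup ψ'.range) k := by
    intro k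
    rw [ds_map, Subgroup.map_top_of_surjective f hf1]
  have hker : ∀ g, f g = 1 → g ∈ ψ.ker := by
    intro g hg
    rw [MonoidHom.mem_ker]
    refine LinearEquiv.ext fun v => ?_
    have h1 : ψ' g = 1 := by
      rw [← hf2, hg]
      rfl
    have h2 := hψ' g (e v)
    rw [h1, e.symm_apply_apply] at h2
    exact (e.injective h2).symm
  have hker' : ∀ g ∈ ψ.ker, f g = 1 := by
    intro g hg
    apply Subtype.ext
    rw [hf2]
    refine LinearEquiv.ext fun v => ?_
    rw [hψ', MonoidHom.mem_ker.1 hg]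
    show e (e.symm v) = v
    exact e.apply_symm_apply v
  have htr : ∀ k, ds (⊤ : Subgroup ψ'.range) k = ⊥ → ds (⊤ : Subgroup G) k ≤ ψ.ker := by
    intro k hk x hx
    apply hker
    have h1 : f x ∈ (ds (⊤ : Subgroup G) k).map f := Subgroup.mem_map_of_mem f hx
    rw [hds, hk, Subgroup.mem_bot] at h1
    exact h1
  have hsolK : Group.IsSolvable ψ'.range := by
    obtain ⟨k, hk⟩ := hsol
    refine ⟨⟨k, ?_⟩⟩
    rw [← ds_top, ← hds, eq_bot_iff]
    rintro _ ⟨x, hx, rfl⟩
    exact hker' x (hk hx)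
  have : Finite (GLV p n) := Finite.of_injective (fun f : GLV p n => (f : VV p n → VV p n))
    DFunLike.coe_injective
  have : Finite ψ'.range := inferInstance
  have hirr' : Irr ψ'.range.subtype := by
    obtain ⟨hnt, hI⟩ := hirr
    refine ⟨e.symm.toEquiv.nontrivial, fun W hW => ?_⟩
    have h1 := hI (W.comap (e : V →ₗ[ZMod p] VV p n)) (by
      intro g w hw
      have h2 := hW (f g) (e w) hw
      show e (ψ g w) ∈ W
      have h3 : ψ'.range.subtype (f g) (e w) = e (ψ g w) := by
        show ψ' g (e w) = _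
        rw [hψ', e.symm_apply_apply]
      rwa [h3] at h2)
    have h2 : (W.comap (e : V →ₗ[ZMod p] VV p n)).map (e : V →ₗ[ZMod p] VV p n) = W :=
      Submodule.map_comap_eq_of_surjective e.surjective W
    rcases h1 with h1 | h1
    · left
      rw [← h2, h1, Submodule.map_bot]
    · right
      rw [← h2, h1, Submodule.map_top]
      exact LinearMap.range_eq_top.2 e.surjective
  by_cases hf : ∀ A : Subgroup ψ'.range, A.Normal → ⁅A, A⁆ = ⊥ → EnvField ψ'.range.subtype A
  · right
    intro g hg hLB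
    apply htr
    rcases Q8 ψ'.range.subtype ψ'.range.subtype_injective hirr' n hfin hf with h | ⟨a, ha1, ha2, hr, hgg⟩
    · rw [eq_bot_iff, ← h]
      exact ds_antitone _ (by omega)
    · have h1 := hgg g (fun r m hr hm hle _ _ => hLB r m hr hm
        (hle.trans (Nat.pow_le_pow_left (Nat.div_le_self n a) 2)))
      have h2 : max (if a = 1 then 0 else 1) g = g := by
        apply max_eq_right
        split_ifs <;> omega
      rwa [h2] at h1
  · left
    push Not at hf
    obtain ⟨A, hAn, hAc, hnE⟩ := hf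
    obtain ⟨Ω, hΩ, hcard⟩ := L2_sys ψ'.range hirr' A hAn hAc hnE
    let T : Submodule (ZMod p) (VV p n) ≃o Submodule (ZMod p) V := Submodule.orderIsoMapComap e.symm
    have hT : ∀ W, T W = W.map (e.symm : VV p n →ₗ[ZMod p] V) := fun W => rfl
    have hTg : ∀ (g : G) (W : Submodule (ZMod p) (VV p n)),
        (T W).map (ψ g : V →ₗ[ZMod p] V) = T (W.map (ψ'.range.subtype (f g) : VV p n →ₗ[ZMod p] VV p n)) := by
      intro g W
      rw [hT, hT, ← Submodule.map_comp, ← Submodule.map_comp]
      congr 1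
      refine LinearMap.ext fun v => ?_
      show ψ g (e.symm v) = e.symm (ψ' g v)
      rw [hψ', e.symm_apply_apply]
    refine ⟨Ω.image T, ⟨?_, ?_, ?_, ?_, ?_⟩, ?_⟩
    · intro W hW
      obtain ⟨W0, hW0, rfl⟩ := Finset.mem_image.1 hW
      intro h
      apply hΩ.ne W0 hW0
      rw [← T.map_bot] at h
      exact T.injective h
    · intro g W hW
      obtain ⟨W0, hW0, rfl⟩ := Finset.mem_image.1 hW
      rw [hTg]
      exact Finset.mem_image_of_mem _ (hΩ.map (f g) W0 hW0)
    · intro W hW W' hW'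
      obtain ⟨W0, hW0, rfl⟩ := Finset.mem_image.1 hW
      obtain ⟨W0', hW0', rfl⟩ := Finset.mem_image.1 hW'
      obtain ⟨k, hk⟩ := hΩ.trans W0 hW0 W0' hW0'
      obtain ⟨g, rfl⟩ := hf1 k
      refine ⟨g, ?_⟩
      rw [hTg, hk]
    · have h1 : iSupIndep (fun W : (Ω : Set (Submodule (ZMod p) (VV p n))) => (W : Submodule (ZMod p) (VV p n))) :=
        (sSupIndep_iff _).1 hΩ.ind
      have h2 := (h1.map_orderIso T).sSupIndep_range
      refine h2.mono ?_
      intro W hW
      obtain ⟨W0, hW0, rfl⟩ := Finset.mem_image.1 (Finset.mem_coe.1 hW)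
      exact ⟨⟨W0, hW0⟩, rfl⟩
    · rw [Finset.coe_image, ← T.map_top, ← hΩ.top, sSup_image, T.map_sSup]
    · rw [Finset.card_image_of_injective _ T.injective]
      exact hcard

end GP48
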