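import Mathlib
import Pool.Agent.LibGP48.Defs
import Pool.Agent.LibGP48.I2
import Pool.Agent.LibGP48.I4
import Pool.Agent.LibGP48.I5
import Pool.Agent.LibGP48.L2

/-!
# LibGP48 LIN (MEDIUM/STRONG (assembly))

Systems exist ({⊤}: V = VV p s is nontrivial by Irr; sSupIndep of a singleton) and VV p s is finite so the cardinals are bounded: take Ω with Sys ψ Ω and Ω.card =: t maximal. n = finrank W for W in Ω, t*n = s by I2. G acts on Ω by g • W = W.map (ψ g): fix a bijection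
Ω ≃ Fin t (Finset.equivFin), φ : G →* Equiv.Perm (Fin t); transitive (hΩ.trans), ψ.ker <= φ.ker. Fix g >= 1 as stated, W in Ω, (H, ψ_W) from I5 (φ.ker <= H). L2 for ψ_W (hsol: ds ⊤ e of H maps into ds ⊤ e of G, which acts trivially): the first alternative
contradicts the maximality by I4 (t * card >= 2t > t); so ds (⊤ : Subgroup H) (g+2) acts trivially on W. ds φ.ker (g+2) <= ds H (g+2) = image of ds (⊤ : Subgroup H) (g+2) (ds_map with H.subtype, or map_derivedSeries and ds_top), so every x in ds φ.ker (g+2) acts trivially on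
every W in Ω, and sSup Ω = ⊤: ψ x = 1.
-/

namespace GP48

open Subgroup

private lemma LIN_map_one {F V G : Type*} [Field F] [AddCommGroup V] [Module F V] [Group G]
    (φ : G →* (V ≃ₗ[F] V)) {x : G} (hx : φ x = 1) (W : Submodule F V) :
    W.map (φ x : V →ₗ[F] V) = W := by
  rw [hx]
  ext v
  simp [Submodule.mem_map]

private lemma LIN_map_mul {F V G : Type*} [Field F] [AddCommGroup V] [Module F V] [Group G]
    (φ : G →* (V ≃ₗ[F] V)) (a b : G) (W : Submodule F V) :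
    W.map (φ (a * b) : V →ₗ[F] V) = (W.map (φ b : V →ₗ[F] V)).map (φ a : V →ₗ[F] V) := by
  rw [map_mul, ← Submodule.map_comp]
  rfl

@[reducible] private def LIN_act {F V G : Type*} [Field F] [AddCommGroup V] [Module F V] [Group G]
    (φ : G →* (V ≃ₗ[F] V)) (Ω : Finset (Submodule F V)) (hΩ : Sys φ Ω) : MulAction G ↥Ω where
  smul g W := ⟨W.1.map (φ g : V →ₗ[F] V), hΩ.map g W.1 W.2⟩
  one_smul W := Subtype.ext (LIN_map_one φ (map_one φ) W.1)
  mul_smul a b W := Subtype.ext (LIN_map_mul φ a b W.1)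

/-- the finest system of imprimitivity -/
theorem LIN {p s : ℕ} [Fact p.Prime] {G : Type*} [Group G] (ψ : G →* GLV p s) (hirr : Irr ψ)
    (hsol : ∃ e, ds (⊤ : Subgroup G) e ≤ ψ.ker) :
    ∃ (t n : ℕ) (φ : G →* Equiv.Perm (Fin t)), 1 ≤ t ∧ 1 ≤ n ∧ t * n = s ∧
      (∀ i j, ∃ g, φ g i = j) ∧ ψ.ker ≤ φ.ker ∧
      ∀ g, 1 ≤ g → (∀ r m : ℕ, r.Prime → 1 ≤ m → r ^ m ≤ n ^ 2 → LB m r g) →
        ds φ.ker (g + 2) ≤ ψ.ker := by
  classical
  obtain ⟨e, he⟩ := hsol
  have hfin : Module.finrank (ZMod p) (VV p s) = s := by simp [VV]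
  haveI : Nontrivial (VV p s) := hirr.1
  -- the trivial system
  have hsys : Sys ψ ({⊤} : Finset (Submodule (ZMod p) (VV p s))) := by
    have hmt : ∀ g : G, (⊤ : Submodule (ZMod p) (VV p s)).map (ψ g : VV p s →ₗ[ZMod p] VV p s) = ⊤ := by
      intro g
      rw [Submodule.map_top]
      exact LinearEquiv.range _
    refine ⟨?_, ?_, ?_, ?_, ?_⟩
    · intro W hW
      rw [Finset.mem_singleton] at hW
      rw [hW]
      exact top_ne_bot
    · intro g W hW
      rw [Finset.mem_singleton] at hW ⊢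
      rw [hW]
      exact hmt g
    · intro W hW W' hW'
      rw [Finset.mem_singleton] at hW hW'
      rw [hW, hW']
      exact ⟨1, hmt 1⟩
    · rw [Finset.coe_singleton]
      exact sSupIndep_singleton _
    · rw [Finset.coe_singleton]
      exact sSup_singleton
  -- positivity
  have hpos : ∀ Ω : Finset (Submodule (ZMod p) (VV p s)), Sys ψ Ω → ∀ W ∈ Ω, 1 ≤ Module.finrank (ZMod p) W := by
    intro Ω hΩ W hW
    exact Submodule.one_le_finrank_iff.2 (hΩ.ne W hW)
  have hne : ∀ Ω : Finset (Submodule (ZMod p) (VV p s)), Sys ψ Ω → Ω.Nonempty := by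
    intro Ω hΩ
    rw [Finset.nonempty_iff_ne_empty]
    intro h
    have := hΩ.top
    rw [h, Finset.coe_empty, sSup_empty] at this
    exact bot_ne_top this
  have hbd : ∀ Ω : Finset (Submodule (ZMod p) (VV p s)), Sys ψ Ω → Ω.card ≤ s := by
    intro Ω hΩ
    obtain ⟨W, hW⟩ := hne Ω hΩ
    have h1 := I2 ψ Ω hΩ W hW
    rw [hfin] at h1
    have h2 := hpos Ω hΩ W hW
    nlinarith
  obtain ⟨Ω, hΩ, hmax⟩ : ∃ Ω : Finset (Submodule (ZMod p) (VV p s)), Sys ψ Ω ∧
      ∀ Ω' : Finset (Submodule (ZMod p) (VV p s)), Sys ψ Ω' → Ω'.card ≤ Ω.card := by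
    have h1 : {c : ℕ | ∃ Ω : Finset (Submodule (ZMod p) (VV p s)), Sys ψ Ω ∧ Ω.card = c}.Nonempty :=
      ⟨_, _, hsys, rfl⟩
    have h2 : BddAbove {c : ℕ | ∃ Ω : Finset (Submodule (ZMod p) (VV p s)), Sys ψ Ω ∧ Ω.card = c} := by
      refine ⟨s, ?_⟩
      rintro c ⟨Ω, hΩ, rfl⟩
      exact hbd Ω hΩ
    obtain ⟨Ω, hΩ, hc⟩ := Nat.sSup_mem h1 h2
    refine ⟨Ω, hΩ, fun Ω' hΩ' => ?_⟩
    rw [hc]
    exact le_csSup h2 ⟨Ω', hΩ', rfl⟩
  obtain ⟨W0, hW0⟩ := hne Ω hΩ
  have hcard : 1 ≤ Ω.card := Finset.card_pos.2 ⟨W0, hW0⟩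
  have hfr : ∀ W ∈ Ω, Module.finrank (ZMod p) W = Module.finrank (ZMod p) W0 := by
    intro W hW
    have h1 := I2 ψ Ω hΩ W hW
    rw [← I2 ψ Ω hΩ W0 hW0] at h1
    exact Nat.eq_of_mul_eq_mul_left hcard h1
  letI := LIN_act ψ Ω hΩ
  have hsm : ∀ (x : G) (W : ↥Ω), ((x • W : ↥Ω) : Submodule (ZMod p) (VV p s)) =
      W.1.map (ψ x : VV p s →ₗ[ZMod p] VV p s) := fun _ _ => rfl
  let ε : ↥Ω ≃ Fin Ω.card := Ω.equivFin
  let φ : G →* Equiv.Perm (Fin Ω.card) := (ε.permCongrHom.toMonoidHom).comp (MulAction.toPermHom G ↥Ω)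
  have hφ : ∀ (x : G) (i : Fin Ω.card), φ x i = ε (x • ε.symm i) := fun _ _ => rfl
  have hker : ∀ x : G, x ∈ φ.ker ↔ ∀ W ∈ Ω, W.map (ψ x : VV p s →ₗ[ZMod p] VV p s) = W := by
    intro x
    rw [MonoidHom.mem_ker]
    constructor
    · intro h W hW
      have h1 := DFunLike.congr_fun h (ε ⟨W, hW⟩)
      rw [hφ, Equiv.symm_apply_apply] at h1
      have h2 := ε.injective h1
      exact congrArg Subtype.val h2
    · intro h
      ext i
      rw [hφ]
      have : x • ε.symm i = ε.symm i := Subtype.ext (h _ (ε.symm i).2)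
      rw [this, Equiv.apply_symm_apply]
      rfl
  refine ⟨Ω.card, Module.finrank (ZMod p) W0, φ, hcard, hpos Ω hΩ W0 hW0, ?_, ?_, ?_, ?_⟩
  · rw [I2 ψ Ω hΩ W0 hW0, hfin]
  · intro i j
    obtain ⟨x, hx⟩ := hΩ.trans _ (ε.symm i).2 _ (ε.symm j).2
    refine ⟨x, ?_⟩
    rw [hφ]
    have : x • ε.symm i = ε.symm j := Subtype.ext hx
    rw [this, Equiv.apply_symm_apply]
  · intro x hx
    rw [hker]
    intro W _
    exact LIN_map_one ψ (MonoidHom.mem_ker.1 hx) W
  · intro g hg hLB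
    have hblock : ∀ W ∈ Ω, ∀ x ∈ ds φ.ker (g + 2), ∀ w ∈ W, ψ x w = w := by
      intro W hW x hx w hw
      obtain ⟨H, ψW, hH, hψW, hirrW⟩ := I5 ψ hirr Ω hΩ W hW
      have hle : φ.ker ≤ H := fun y hy => (hH y).2 ((hker y).1 hy W hW)
      have hmapH : ∀ j, (ds (⊤ : Subgroup H) j).map H.subtype = ds H j := by
        intro j
        rw [ds_map, ← MonoidHom.range_eq_map, Subgroup.range_subtype]
      have hsolW : ∃ e', ds (⊤ : Subgroup H) e' ≤ ψW.ker := by
        refine ⟨e, fun h hh => ?_⟩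
        have h1 : (h : G) ∈ ds H e := by
          rw [← hmapH e]
          exact ⟨h, hh, rfl⟩
        have h3 : ψ (h : G) = 1 := MonoidHom.mem_ker.1 (he (ds_mono le_top e h1))
        rw [MonoidHom.mem_ker]
        apply LinearEquiv.ext
        intro w
        apply Subtype.ext
        rw [hψW, h3]
        rfl
      rcases L2 ψW hirrW (hfr W hW) hsolW with ⟨Ω', hΩ', hc⟩ | h2
      · exfalso
        obtain ⟨Ω'', hΩ'', hc''⟩ := I4 ψ Ω hΩ W hW H hH ψW hψW Ω' hΩ'
        have h1 := hmax Ω'' hΩ''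
        rw [hc''] at h1
        nlinarith
      · have h3 := h2 g hg hLB
        have h4 : x ∈ ds H (g + 2) := ds_mono hle _ hx
        rw [← hmapH] at h4
        obtain ⟨h, hh, rfl⟩ := h4
        have h5 := MonoidHom.mem_ker.1 (h3 hh)
        have h6 := hψW h ⟨w, hw⟩
        rw [h5] at h6
        exact h6.symm
    intro x hx
    rw [MonoidHom.mem_ker]
    have hall : (⊤ : Submodule (ZMod p) (VV p s)) ≤
        LinearMap.eqLocus (ψ x : VV p s →ₗ[ZMod p] VV p s) (LinearMap.id) := by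
      rw [← hΩ.top]
      refine sSup_le fun W hW w hw => ?_
      exact hblock W hW x hx w hw
    apply LinearEquiv.ext
    intro v
    exact hall (Submodule.mem_top (x := v))

end GP48
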