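import Mathlib
import Pool.Agent.LibGP48.Defs

/-!
# LibGP48 L1 (SHORT)

GL_1 is commutative: an F-linear automorphism of (F_p)^1 is a scalar (determined by the image of the basis vector). p = 2: the scalar is 1 (the only nonzero element of ZMod 2). P3: Perm (Fin 1) is trivial.
-/

namespace GP48

open Subgroup

private theorem l1_scalar {p : ℕ} (a : GLV p 1) (v : VV p 1) : a v = (a 1 0) • v := by
  have h1 : v = v 0 • (1 : VV p 1) := by
    funext i
    have : i = 0 := Subsingleton.elim _ _
    subst this
    simp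
  have h2 : a 1 = (a 1 0) • (1 : VV p 1) := by
    funext i
    have : i = 0 := Subsingleton.elim _ _
    subst this
    simp
  calc a v = a (v 0 • (1 : VV p 1)) := by rw [← h1]
    _ = v 0 • a 1 := map_smul _ _ _
    _ = v 0 • ((a 1 0) • (1 : VV p 1)) := by rw [← h2]
    _ = (a 1 0) • (v 0 • (1 : VV p 1)) := smul_comm _ _ _
    _ = (a 1 0) • v := by rw [← h1]

private theorem l1_comm {p : ℕ} (a b : GLV p 1) : a * b = b * a := by
  apply LinearEquiv.ext
  intro v
  show a (b v) = b (a v)
  rw [l1_scalar b v, l1_scalar a v, map_smul, map_smul, l1_scalar a v, l1_scalar b v]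
  exact smul_comm _ _ _

theorem L1 (p : ℕ) [Fact p.Prime] : LB 1 p 1 := by
  intro K _ _
  rw [derivedSeries_succ, derivedSeries_zero, Subgroup.commutator_eq_bot_iff_le_centralizer]
  intro x _
  rw [mem_centralizer_iff]
  intro y _
  exact Subtype.ext (l1_comm _ _)

theorem L1' : LB 1 2 0 := by
  intro K _ _
  rw [derivedSeries_zero]
  rw [eq_bot_iff]
  intro x _
  rw [mem_bot]
  apply Subtype.ext
  apply LinearEquiv.ext
  intro v
  show (x : GLV 2 1) v = v
  rw [l1_scalar]
  have h0 : (x : GLV 2 1) 1 0 ≠ 0 := by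
    intro h
    have h1 : (x : GLV 2 1) 1 = 0 := by
      funext i
      have : i = 0 := Subsingleton.elim _ _
      subst this
      exact h
    have h2 : (1 : VV 2 1) = 0 := by
      apply (x : GLV 2 1).injective
      rw [h1, map_zero]
    have h3 := congrFun h2 0
    exact absurd h3 (by decide)
  have h1 : ∀ z : ZMod 2, z ≠ 0 → z = 1 := by decide
  rw [h1 _ h0, one_smul]

theorem P3 : PB 1 0 := by
  intro P _ _
  rw [derivedSeries_zero, eq_bot_iff]
  intro x _
  rw [mem_bot]
  apply Subtype.ext
  exact Subsingleton.elim _ _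

end GP48
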