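import Mathlib
import Pool.Agent.LibGP48.Defs
import Pool.Agent.LibGP48.D2

/-!
# LibGP48 P1 (MEDIUM/STRONG)

Not preprimitive: there is a block B that is neither a subsingleton nor univ; b = B.ncard, 1 < b < t, b * (number of translates) = t (MulAction.IsBlock.ncard_block_mul_ncard_orbit_eq). P acts transitively on the set of translates of B
(t/b of them): D2 with PB (t/b) d1: derivedSeries P d1 fixes every translate setwise. Each translate B' has stabiliser H' acting transitively on B' (a block of a transitive group: MulAction.IsBlock ... isPretransitive of the set-stabiliser), D2 for H' and PB b d2: ds H' d2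
acts trivially on B'. So ds ⊤ (d1+d2) = ds (ds ⊤ d1) d2 is trivial on every B', so trivial.
-/

namespace GP48

open Subgroup Pointwise

private theorem ds_eq_bot_of {H : Type*} [Group H] (h : Group.IsSolvable H) :
    ∃ e, ds (⊤ : Subgroup H) e = ⊥ := by
  obtain ⟨e, he⟩ := h.solvable
  exact ⟨e, by rw [ds_top, he]⟩

theorem P1 {t : ℕ} (P : Subgroup (Equiv.Perm (Fin t))) (hsol : Group.IsSolvable P)
    (htr : MulAction.IsPretransitive P (Fin t)) (hnp : ¬ MulAction.IsPreprimitive P (Fin t)) :
    ∃ b, 1 < b ∧ b < t ∧ b ∣ t ∧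
      ∀ d1 d2, PB (t / b) d1 → PB b d2 → derivedSeries P (d1 + d2) = ⊥ := by
  obtain ⟨B, hB, hBt⟩ : ∃ B : Set (Fin t), MulAction.IsBlock P B ∧ ¬ MulAction.IsTrivialBlock B := by
    by_contra hcon
    exact hnp ⟨fun {B} hB => by
      by_contra h
      exact hcon ⟨B, hB, h⟩⟩
  have hBs : ¬ B.Subsingleton := fun h => hBt (Or.inl h)
  have hBu : B ≠ Set.univ := fun h => hBt (Or.inr h)
  have hBne : B.Nonempty := by
    rw [Set.nonempty_iff_ne_empty]
    rintro rfl
    exact hBs Set.subsingleton_empty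
  have hb1 : 1 < B.ncard := by
    rw [Set.one_lt_ncard_iff_nontrivial]
    exact Set.not_subsingleton_iff.mp hBs
  have hbt : B.ncard < t := by
    have h1 := Set.ncard_lt_ncard (Set.ssubset_univ_iff.mpr hBu) Set.finite_univ
    rwa [Set.ncard_univ, Nat.card_eq_fintype_card, Fintype.card_fin] at h1
  have hmul := MulAction.IsBlock.ncard_block_mul_ncard_orbit_eq hB hBne
  rw [Nat.card_eq_fintype_card, Fintype.card_fin] at hmul
  have horb : (MulAction.orbit P B).ncard = t / B.ncard := by
    exact (Nat.div_eq_of_eq_mul_right (by omega) hmul.symm).symm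
  refine ⟨B.ncard, hb1, hbt, ⟨_, hmul.symm⟩, ?_⟩
  intro d1 d2 h1 h2
  obtain ⟨e, he⟩ := ds_eq_bot_of hsol
  -- the translates
  have k1 : ∀ g ∈ ds (⊤ : Subgroup P) d1, ∀ w : MulAction.orbit P B, g • w = w := by
    refine D2 h1 (G := P) (Ω := MulAction.orbit P B) horb inferInstance ⟨e, ?_⟩
    intro g hg w
    rw [he, Subgroup.mem_bot] at hg
    rw [hg, one_smul]
  -- each translate
  have k2 : ∀ γ : P, ∀ g ∈ ds (MulAction.stabilizer P (γ • B)) d2, ∀ w ∈ γ • B, g • w = w := by
    intro γ
    let H : Subgroup P := MulAction.stabilizer P (γ • B)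
    have hH : ∀ h : H, ∀ w ∈ γ • B, (h : P) • w ∈ γ • B := by
      intro h w hw
      have h4 : (h : P) • (γ • B) = γ • B := h.2
      have h5 : (h : P) • w ∈ (h : P) • (γ • B) := Set.smul_mem_smul_set hw
      rwa [h4] at h5
    let act : MulAction H (γ • B : Set (Fin t)) :=
      { smul := fun h w => ⟨(h : P) • w.1, hH h _ w.2⟩
        one_smul := fun w => Subtype.ext (one_smul P w.1)
        mul_smul := fun h h' w => Subtype.ext (mul_smul (h : P) (h' : P) w.1) }
    have hblock : MulAction.IsBlock P (γ • B) := hB.translate γ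
    have htrans : MulAction.IsPretransitive H (γ • B : Set (Fin t)) := by
      refine ⟨fun w w' => ?_⟩
      obtain ⟨g, hg⟩ := MulAction.exists_smul_eq P w.1 w'.1
      have h3 : g • (γ • B) = γ • B := by
        refine MulAction.isBlock_iff_smul_eq_of_nonempty.mp hblock ?_
        exact ⟨w'.1, ⟨w.1, w.2, hg⟩, w'.2⟩
      exact ⟨⟨g, h3⟩, Subtype.ext hg⟩
    have hcard : Nat.card (γ • B : Set (Fin t)) = B.ncard := by
      rw [← Set.ncard_smul_set γ B]
      rfl
    have k3 : ∀ g ∈ ds (⊤ : Subgroup H) d2, ∀ w : (γ • B : Set (Fin t)), g • w = w := by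
      refine D2 h2 (G := H) (Ω := (γ • B : Set (Fin t))) hcard htrans ⟨e, ?_⟩
      intro g hg w
      have h5 : (ds (⊤ : Subgroup H) e).map H.subtype ≤ ds (⊤ : Subgroup P) e := by
        rw [ds_map]
        exact ds_mono le_top e
      have h6 : (g : P) ∈ ds (⊤ : Subgroup P) e := h5 ⟨g, hg, rfl⟩
      rw [he, Subgroup.mem_bot] at h6
      have h7 : g = 1 := Subtype.ext h6
      rw [h7, one_smul]
    intro g hg w hw
    rw [← map_derivedSeries, ← ds_top] at hg
    obtain ⟨g', hg', rfl⟩ := hg
    exact congrArg Subtype.val (k3 g' hg' ⟨w, hw⟩)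
  rw [← ds_top, eq_bot_iff, ds_add]
  intro g hg
  rw [Subgroup.mem_bot]
  have key : ∀ w : Fin t, g • w = w := by
    intro w
    obtain ⟨w0, hw0⟩ := hBne
    obtain ⟨γ, hγ⟩ := MulAction.exists_smul_eq P w0 w
    have hw : w ∈ γ • B := ⟨w0, hw0, hγ⟩
    refine k2 γ g ?_ w hw
    refine ds_mono ?_ d2 hg
    intro g' hg'
    have := k1 g' hg' ⟨γ • B, ⟨γ, rfl⟩⟩
    exact congrArg Subtype.val this
  apply Subtype.ext
  apply Equiv.ext
  intro w
  exact key w

end GP48
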