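import Mathlib
import Pool.Agent.LibGP48.Defs
import Pool.Agent.LibGP48.D3

/-!
# LibGP48 P2 (MEDIUM/STRONG)

P is finite, soluble, not trivial (t >= 2, transitive). M a minimal normal subgroup of P; [M,M] is normal and != M, so [M,M] = ⊥; Chief ⊥ M. D3 (with G = P): |M| = r^k. M is transitive on Fin t (MulAction.IsPreprimitive.isQuasiPreprimitive: a normal subgroup
acting nontrivially is transitive), abelian and faithful, so regular: |M| = t (a stabiliser in a transitive abelian group fixes everything). Centraliser of M in P is M: z commuting with M, z w = m w for some m in M, z⁻¹ m commutes with M and fixes w, so is 1. LB k r g: D3 gives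
[ds ⊤ g, M] = ⊥ (solvable: ds ⊤ e = ⊥), so ds ⊤ g <= M and ds ⊤ (g+1) <= [M,M] = ⊥.
-/

namespace GP48

open Subgroup

private theorem ds_eq_bot_of' {H : Type*} [Group H] (h : Group.IsSolvable H) :
    ∃ e, ds (⊤ : Subgroup H) e = ⊥ := by
  obtain ⟨e, he⟩ := h.solvable
  exact ⟨e, by rw [ds_top, he]⟩

theorem P2 {t : ℕ} (ht : 2 ≤ t) (P : Subgroup (Equiv.Perm (Fin t))) (hsol : Group.IsSolvable P)
    (hp : MulAction.IsPreprimitive P (Fin t)) :
    ∃ r k, r.Prime ∧ 1 ≤ k ∧ t = r ^ k ∧ ∀ g, LB k r g → derivedSeries P (g + 1) = ⊥ := by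
  obtain ⟨e, he⟩ := ds_eq_bot_of' hsol
  have faith : ∀ g : P, (∀ w : Fin t, g • w = w) → g = 1 := by
    intro g hg
    apply Subtype.ext
    apply Equiv.ext
    intro w
    exact hg w
  let w0 : Fin t := ⟨0, by omega⟩
  let w1 : Fin t := ⟨1, by omega⟩
  have hw01 : w0 ≠ w1 := by
    intro h
    have := congrArg Fin.val h
    simp [w0, w1] at this
  have htop : (⊤ : Subgroup P) ≠ ⊥ := by
    intro h
    obtain ⟨g, hg⟩ := MulAction.exists_smul_eq P w0 w1
    have h1 : g ∈ (⊤ : Subgroup P) := trivial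
    rw [h, Subgroup.mem_bot] at h1
    rw [h1, one_smul] at hg
    exact hw01 hg
  -- a minimal normal subgroup
  obtain ⟨M, hMin⟩ : ∃ M : Subgroup P, Minimal (fun N : Subgroup P => N.Normal ∧ N ≠ ⊥) M := by
    have hfin : {N : Subgroup P | N.Normal ∧ N ≠ ⊥}.Finite := Set.toFinite _
    exact hfin.exists_minimal ⟨⊤, inferInstance, htop⟩
  obtain ⟨⟨hMn, hM0⟩, hMmin⟩ := hMin
  have hmin : ∀ Z : Subgroup P, Z.Normal → Z ≤ M → Z = ⊥ ∨ Z = M := by
    intro Z hZ hZM
    by_cases h0 : Z = ⊥
    · exact Or.inl h0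
    · exact Or.inr (le_antisymm hZM (hMmin ⟨hZ, h0⟩ hZM))
  have hMM : ⁅M, M⁆ = ⊥ := by
    rcases hmin ⁅M, M⁆ inferInstance (comm_le_self M) with h | h
    · exact h
    · exfalso
      have h1 : ∀ n, ds M n = M := by
        intro n
        induction n with
        | zero => rfl
        | succ n ih => rw [ds_succ, ih, h]
      have h2 : ds M e ≤ ds (⊤ : Subgroup P) e := ds_mono le_top e
      rw [h1, he] at h2
      exact hM0 (le_bot_iff.mp h2)
  have hcomm : ∀ a ∈ M, ∀ b ∈ M, a * b = b * a := by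
    intro a ha b hb
    have h1 : M ≤ centralizer (M : Set P) := Subgroup.commutator_eq_bot_iff_le_centralizer.mp hMM
    exact (Subgroup.mem_centralizer_iff.mp (h1 ha) b hb).symm
  have hch : Chief (⊥ : Subgroup P) M :=
    { nY := inferInstance
      nX := hMn
      lt := bot_lt_iff_ne_bot.mpr hM0
      ab := hMM.le
      fin := by
        rw [relIndex_bot_left]
        exact Nat.card_pos.ne'
      min := fun Z hZ _ hZM => hmin Z hZ hZM }
  obtain ⟨r, s, hr, hs, hcard, _, hD⟩ := D3 hch
  rw [relIndex_bot_left] at hcard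
  have hMt : MulAction.IsPretransitive M (Fin t) := by
    have hq : MulAction.IsQuasiPreprimitive P (Fin t) := hp.isQuasiPreprimitive
    refine hq.isPretransitive_of_normal ?_
    intro h
    apply hM0
    rw [eq_bot_iff]
    intro m hm
    rw [Subgroup.mem_bot]
    refine faith m fun w => ?_
    have h1 : w ∈ MulAction.fixedPoints M (Fin t) := by rw [h]; trivial
    exact h1 ⟨m, hm⟩
  have hfix : ∀ z : P, (∀ m ∈ M, z * m = m * z) → z • w0 = w0 → z = 1 := by
    intro z hz hz0
    refine faith z fun w => ?_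
    obtain ⟨n, hn⟩ := MulAction.exists_smul_eq M w0 w
    have hn' : (n : P) • w0 = w := hn
    rw [← hn', ← mul_smul, hz n n.2, mul_smul, hz0]
  have hbij : Function.Bijective (fun m : M => m • w0) := by
    constructor
    · intro m m' h
      have h1 : (m : P) • w0 = (m' : P) • w0 := h
      have h2 : (m : P)⁻¹ * (m' : P) = 1 := by
        refine hfix _ ?_ ?_
        · intro n hn
          exact hcomm _ (M.mul_mem (M.inv_mem m.2) m'.2) n hn
        · rw [mul_smul, ← h1, inv_smul_smul]
      exact Subtype.ext (inv_mul_eq_one.mp h2)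
    · intro w
      exact MulAction.exists_smul_eq M w0 w
  have ht' : t = r ^ s := by
    rw [← hcard, Nat.card_congr (Equiv.ofBijective _ hbij), Nat.card_eq_fintype_card,
      Fintype.card_fin]
  refine ⟨r, s, hr, hs, ht', ?_⟩
  intro g hg
  have h1 := hD g hg ⟨e, by rw [he, Subgroup.commutator_bot_left]⟩
  have h2 : ds (⊤ : Subgroup P) g ≤ M := by
    intro z hz
    have hzc : ∀ m ∈ M, z * m = m * z := by
      intro m hm
      have h3 : ds (⊤ : Subgroup P) g ≤ centralizer (M : Set P) :=
        Subgroup.commutator_eq_bot_iff_le_centralizer.mp (le_bot_iff.mp h1)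
      exact (Subgroup.mem_centralizer_iff.mp (h3 hz) m hm).symm
    obtain ⟨m, hm⟩ := MulAction.exists_smul_eq M w0 (z • w0)
    have hm' : (m : P) • w0 = z • w0 := hm
    have h5 : z⁻¹ * (m : P) = 1 := by
      refine hfix _ ?_ ?_
      · intro n hn
        have h6 := hcomm m m.2 n hn
        have h7 := hzc n hn
        calc z⁻¹ * (m : P) * n = z⁻¹ * (n * m) := by rw [mul_assoc, h6]
          _ = z⁻¹ * (n * z) * (z⁻¹ * m) := by group
          _ = z⁻¹ * (z * n) * (z⁻¹ * m) := by rw [h7]
          _ = n * (z⁻¹ * m) := by group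
      · rw [mul_smul, hm', inv_smul_smul]
    have h6 : z = m := inv_mul_eq_one.mp h5
    rw [h6]
    exact m.2
  rw [← ds_top, ds_succ, eq_bot_iff, ← hMM]
  exact Subgroup.commutator_mono h2 h2

end GP48
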