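import Mathlib
import Pool.Agent.LibGP48.Defs
import Pool.Agent.LibGP48.P1
import Pool.Agent.LibGP48.P2

/-!
# LibGP48 P0: one step for permutation groups
-/

namespace GP48

open Subgroup

/-- one step for permutation groups -/
theorem P0 (t d : ℕ) (ht : 2 ≤ t)
    (h1 : ∀ b, 1 < b → b < t → b ∣ t → ∃ d1 d2, PB (t / b) d1 ∧ PB b d2 ∧ d1 + d2 ≤ d)
    (h2 : ∀ r k, r.Prime → 1 ≤ k → t = r ^ k → ∃ g, LB k r g ∧ g + 1 ≤ d) : PB t d := by
  intro P hsol htr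
  by_cases hp : MulAction.IsPreprimitive P (Fin t)
  · obtain ⟨r, k, hr, hk, htk, hg⟩ := P2 ht P hsol hp
    obtain ⟨g, hg1, hg2⟩ := h2 r k hr hk htk
    exact le_bot_iff.1 ((derivedSeries_le_of_le hg2).trans (hg g hg1).le)
  · obtain ⟨b, hb1, hb2, hb3, hb⟩ := P1 P hsol htr hp
    obtain ⟨d1, d2, h3, h4, h5⟩ := h1 b hb1 hb2 hb3
    exact le_bot_iff.1 ((derivedSeries_le_of_le h5).trans (hb d1 d2 h3 h4).le)

end GP48
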