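import Mathlib
import Pool.Agent.LibGP48.Defs
import Pool.Agent.LibGP48.L0
import Pool.Agent.LibGP48.L1
import Pool.Agent.LibGP48.P0

/-!
# LibGP48 M0 (MEDIUM (numbers))

Each by L0 (linear) or P0 (permutation), in the order listed; LB.mono, PB.mono. In L0 the divisors t of n (t >= 2) and the pairs (a, r) with r prime, r <= n/a, r | p^a-1 are few (interval_cases; for the second hypothesis give g and check all (r,m) with r^m <= (n/a)^2, r <= n/a, r | p^a - 1: m is small).
PB 2 1: prime degree, P0 h2 with r = 2, k = 1, LB 1 2 0. PB 3 2: LB 1 3 1. LB 2 2 2: t = 2: PB 2 1, LB 1 2 0; a = 1, 2: no r. LB 2 p 4: t = 2: PB 2 1, LB 1 p 1; a = 1: r = 2, m <= 2, g = 2 (LB 1 2 0, LB 2 2 2); a = 2: no r. PB 4 3: b = 2: 1+1; 4 = 2^2: LB 2 2 2. LB 3 2 2: t = 3: PB 3 2, LB 1 2 0; no r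
(p^1-1 = 1; a = 3: r <= 1). LB 3 3 4: t = 3: 2+1; a = 1: r | 2 so r = 2, 2^m <= 9, m <= 3, g = 2. LB 3 p 6: a = 1: r in {2,3}: r = 2, m <= 3: g = 2; r = 3: m <= 2, LB 1 3 1, LB 2 3 4: g = 4. LB 4 2 3: t = 2: PB 2 1 + LB 2 2 2; t = 4: PB 4 3 + LB 1 2 0; a = 1: none, a = 2: r <= 2, r | 3: none; a = 4 none.
LB 4 3 5: t = 2: 1 + LB 2 3 4; t = 4: 3+1; a = 1: r | 2: r = 2, m <= 4, g = 3: max 0 3 + 2; a = 2: n/a = 2: r = 2, m <= 2: g = 2, max 1 2 + 2 = 4. LB 4 p 6: t = 2: 1+4; t = 4: 3+1; a = 1: r = 2: m <= 4: 3; r = 3: m <= 2: 4; g = 4: 6; a = 2: r = 2: g = 2. PB 5 2: LB 1 5 1. LB 5 2 2: t = 5: PB 5 2, LB 1 2 0; no r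
(a = 1: r | 1; a = 5: r <= 1). LB 5 p 6: t = 5: 2+1; a = 1: r in {2,3,5}: r = 2, 2^m <= 25: m <= 4, 3; r = 3: m <= 2: 4; r = 5: m <= 2: LB 2 5 4. PB 6 3: b = 2: PB 3 2 + PB 2 1; b = 3: PB 2 1 + PB 3 2; 6 is not a prime power. LB 6 2 6: t = 2: 1 + LB 3 2 2; t = 3: 2 + LB 2 2 2; t = 6: PB 6 3 + LB 1 2 0; a = 1: none;
a = 2: n/a = 3, r | 3: r = 3, 3^m <= 9: m <= 2, g = 4: max 1 4 + 2 = 6; a = 3: n/a = 2, r = 2 does not divide 7; a = 6: none. PB 7 2: LB 1 7 1. LB 7 2 2: t = 7: PB 7 2 + LB 1 2 0; a = 1: r | 1; a = 7: r <= 1. Note L0 needs Fact p.Prime and 2 <= d.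
-/

namespace GP48

open Subgroup

private theorem M0_prime (q g d : ℕ) (hq : q.Prime) (h : LB 1 q g) (hd : g + 1 ≤ d) : PB q d := by
  refine P0 q d hq.two_le ?_ ?_
  · intro b hb1 hb2 hb3
    rcases (Nat.dvd_prime hq).1 hb3 with h1 | h1 <;> omega
  · intro r k hr hk hqr
    have hk1 : k = 1 := by
      rw [hqr] at hq
      exact hq.eq_one_of_pow
    subst hk1
    rw [pow_one] at hqr
    subst hqr
    exact ⟨g, h, hd⟩

private theorem M0_pow (r m b c : ℕ) (hr : 0 < r) (h : r ^ m ≤ b) (hc : b < r ^ c) : m < c := by
  by_contra hcon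
  push Not at hcon
  have := Nat.pow_le_pow_right hr hcon
  omega

/-- small degrees -/
theorem M0 : PB 2 1 ∧ PB 3 2 ∧ LB 2 2 2 ∧ (∀ p, p.Prime → LB 2 p 4) ∧ PB 4 3 ∧ LB 3 2 2 ∧
    LB 3 3 4 ∧ (∀ p, p.Prime → LB 3 p 6) ∧ LB 4 2 3 ∧ LB 4 3 5 ∧ (∀ p, p.Prime → LB 4 p 6) ∧
    PB 5 2 ∧ LB 5 2 2 ∧ (∀ p, p.Prime → LB 5 p 6) ∧ PB 6 3 ∧ LB 6 2 6 ∧ PB 7 2 ∧
    LB 7 2 2 := by
  have F2 : Fact (Nat.Prime 2) := ⟨by norm_num⟩
  have F3 : Fact (Nat.Prime 3) := ⟨by norm_num⟩
  have F5 : Fact (Nat.Prime 5) := ⟨by norm_num⟩
  have F7 : Fact (Nat.Prime 7) := ⟨by norm_num⟩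
  have L12 : LB 1 2 0 := L1'
  have L13 : LB 1 3 1 := L1 3
  have L15 : LB 1 5 1 := L1 5
  have L17 : LB 1 7 1 := L1 7
  have P2' : PB 2 1 := M0_prime 2 0 1 (by norm_num) L12 (by norm_num)
  have P3' : PB 3 2 := M0_prime 3 1 2 (by norm_num) L13 (by norm_num)
  have P5' : PB 5 2 := M0_prime 5 1 2 (by norm_num) L15 (by norm_num)
  have P7' : PB 7 2 := M0_prime 7 1 2 (by norm_num) L17 (by norm_num)
  have L22 : LB 2 2 2 := by
    refine L0 2 2 2 (by norm_num) (by norm_num) ?_ ?_
    · intro t ht1 ht2
      have := Nat.le_of_dvd (by norm_num) ht2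
      interval_cases t
      exact ⟨1, 0, P2', L12, by norm_num⟩
    · rintro a ha1 ha2 ⟨r, hr, hr1, hr2⟩
      have := Nat.le_of_dvd (by norm_num) ha2
      have := hr.two_le
      exfalso
      interval_cases a
      · norm_num at hr2
        omega
      · norm_num at hr1
        omega
  have L2p : ∀ p, p.Prime → LB 2 p 4 := by
    intro p hp
    haveI : Fact p.Prime := ⟨hp⟩
    refine L0 2 p 4 (by norm_num) (by norm_num) ?_ ?_
    · intro t ht1 ht2
      have := Nat.le_of_dvd (by norm_num) ht2
      interval_cases t
      exact ⟨1, 1, P2', L1 p, by norm_num⟩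
    · rintro a ha1 ha2 ⟨r, hr, hr1, -⟩
      have := Nat.le_of_dvd (by norm_num) ha2
      have := hr.two_le
      interval_cases a
      · refine ⟨2, ?_, by norm_num⟩
        intro r m hr hm hrm hr1 _
        have := hr.two_le
        norm_num at hr1 hrm
        interval_cases r
        have hm3 := M0_pow 2 m 4 3 (by norm_num) hrm (by norm_num)
        interval_cases m
        · exact L12.mono (by norm_num)
        · exact L22
      · exfalso
        norm_num at hr1
        omega
  have P4' : PB 4 3 := by
    refine P0 4 3 (by norm_num) ?_ ?_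
    · intro b hb1 hb2 hb3
      interval_cases b
      · exact ⟨1, 1, P2', P2', by norm_num⟩
      · omega
    · intro r k hr hk h
      have hr2 := hr.two_le
      have hk3 := M0_pow r k 4 3 (by omega) h.ge (by
        calc 4 < 2 ^ 3 := by norm_num
          _ ≤ r ^ 3 := Nat.pow_le_pow_left hr2 3)
      interval_cases k
      · rw [pow_one] at h
        subst h
        norm_num at hr
      · have : r = 2 := by nlinarith
        subst this
        exact ⟨2, L22, by norm_num⟩
  have L32 : LB 3 2 2 := by
    refine L0 3 2 2 (by norm_num) (by norm_num) ?_ ?_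
    · intro t ht1 ht2
      have := Nat.le_of_dvd (by norm_num) ht2
      interval_cases t
      · omega
      · exact ⟨2, 0, P3', L12, by norm_num⟩
    · rintro a ha1 ha2 ⟨r, hr, hr1, hr2⟩
      have := Nat.le_of_dvd (by norm_num) ha2
      have := hr.two_le
      exfalso
      interval_cases a
      · norm_num at hr2
        omega
      · omega
      · norm_num at hr1
        omega
  have L33 : LB 3 3 4 := by
    refine L0 3 3 4 (by norm_num) (by norm_num) ?_ ?_
    · intro t ht1 ht2
      have := Nat.le_of_dvd (by norm_num) ht2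
      interval_cases t
      · omega
      · exact ⟨2, 1, P3', L13, by norm_num⟩
    · rintro a ha1 ha2 ⟨r, hr, hr1, hr2⟩
      have := Nat.le_of_dvd (by norm_num) ha2
      have := hr.two_le
      interval_cases a
      · refine ⟨2, ?_, by norm_num⟩
        intro r m hr hm hrm hr1 hr3
        have := hr.two_le
        norm_num at hr1 hrm hr3
        have hr4 := Nat.le_of_dvd (by norm_num) hr3
        interval_cases r
        have hm3 := M0_pow 2 m 9 4 (by norm_num) hrm (by norm_num)
        interval_cases m
        · exact L12.mono (by norm_num)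
        · exact L22
        · exact L32
      · omega
      · exfalso
        norm_num at hr1
        omega
  have L3p : ∀ p, p.Prime → LB 3 p 6 := by
    intro p hp
    haveI : Fact p.Prime := ⟨hp⟩
    refine L0 3 p 6 (by norm_num) (by norm_num) ?_ ?_
    · intro t ht1 ht2
      have := Nat.le_of_dvd (by norm_num) ht2
      interval_cases t
      · omega
      · exact ⟨2, 1, P3', L1 p, by norm_num⟩
    · rintro a ha1 ha2 ⟨r, hr, hr1, -⟩
      have := Nat.le_of_dvd (by norm_num) ha2
      have := hr.two_le
      interval_cases a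
      · refine ⟨4, ?_, by norm_num⟩
        intro r m hr hm hrm hr1 _
        have := hr.two_le
        norm_num at hr1 hrm
        interval_cases r
        · have hm3 := M0_pow 2 m 9 4 (by norm_num) hrm (by norm_num)
          interval_cases m
          · exact L12.mono (by norm_num)
          · exact L22.mono (by norm_num)
          · exact L32.mono (by norm_num)
        · have hm3 := M0_pow 3 m 9 3 (by norm_num) hrm (by norm_num)
          interval_cases m
          · exact L13.mono (by norm_num)
          · exact L2p 3 (by norm_num)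
      · omega
      · exfalso
        norm_num at hr1
        omega
  have L42 : LB 4 2 3 := by
    refine L0 4 2 3 (by norm_num) (by norm_num) ?_ ?_
    · intro t ht1 ht2
      have := Nat.le_of_dvd (by norm_num) ht2
      interval_cases t
      · exact ⟨1, 2, P2', L22, by norm_num⟩
      · omega
      · exact ⟨3, 0, P4', L12, by norm_num⟩
    · rintro a ha1 ha2 ⟨r, hr, hr1, hr2⟩
      have := Nat.le_of_dvd (by norm_num) ha2
      have := hr.two_le
      exfalso
      interval_cases a
      · norm_num at hr2
        omega
      · norm_num at hr1 hr2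
        interval_cases r
        omega
      · omega
      · norm_num at hr1
        omega
  have L43 : LB 4 3 5 := by
    refine L0 4 3 5 (by norm_num) (by norm_num) ?_ ?_
    · intro t ht1 ht2
      have := Nat.le_of_dvd (by norm_num) ht2
      interval_cases t
      · exact ⟨1, 4, P2', L2p 3 (by norm_num), by norm_num⟩
      · omega
      · exact ⟨3, 1, P4', L13, by norm_num⟩
    · rintro a ha1 ha2 ⟨r, hr, hr1, hr2⟩
      have := Nat.le_of_dvd (by norm_num) ha2
      have := hr.two_le
      interval_cases a
      · refine ⟨3, ?_, by norm_num⟩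
        intro r m hr hm hrm hr1 hr3
        have := hr.two_le
        norm_num at hr1 hrm hr3
        have hr4 := Nat.le_of_dvd (by norm_num) hr3
        interval_cases r
        have hm3 := M0_pow 2 m 16 5 (by norm_num) hrm (by norm_num)
        interval_cases m
        · exact L12.mono (by norm_num)
        · exact L22.mono (by norm_num)
        · exact L32.mono (by norm_num)
        · exact L42
      · refine ⟨2, ?_, by norm_num⟩
        intro r m hr hm hrm hr1 hr3
        have := hr.two_le
        norm_num at hr1 hrm hr3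
        interval_cases r
        have hm3 := M0_pow 2 m 4 3 (by norm_num) hrm (by norm_num)
        interval_cases m
        · exact L12.mono (by norm_num)
        · exact L22
      · omega
      · exfalso
        norm_num at hr1
        omega
  have L4p : ∀ p, p.Prime → LB 4 p 6 := by
    intro p hp
    haveI : Fact p.Prime := ⟨hp⟩
    refine L0 4 p 6 (by norm_num) (by norm_num) ?_ ?_
    · intro t ht1 ht2
      have := Nat.le_of_dvd (by norm_num) ht2
      interval_cases t
      · exact ⟨1, 4, P2', L2p p hp, by norm_num⟩
      · omega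
      · exact ⟨3, 1, P4', L1 p, by norm_num⟩
    · rintro a ha1 ha2 ⟨r, hr, hr1, -⟩
      have := Nat.le_of_dvd (by norm_num) ha2
      have := hr.two_le
      interval_cases a
      · refine ⟨4, ?_, by norm_num⟩
        intro r m hr hm hrm hr1 _
        have := hr.two_le
        norm_num at hr1 hrm
        interval_cases r
        · have hm3 := M0_pow 2 m 16 5 (by norm_num) hrm (by norm_num)
          interval_cases m
          · exact L12.mono (by norm_num)
          · exact L22.mono (by norm_num)
          · exact L32.mono (by norm_num)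
          · exact L42.mono (by norm_num)
        · have hm3 := M0_pow 3 m 16 3 (by norm_num) hrm (by norm_num)
          interval_cases m
          · exact L13.mono (by norm_num)
          · exact L2p 3 (by norm_num)
        · norm_num at hr
      · refine ⟨2, ?_, by norm_num⟩
        intro r m hr hm hrm hr1 _
        have := hr.two_le
        norm_num at hr1 hrm
        interval_cases r
        have hm3 := M0_pow 2 m 4 3 (by norm_num) hrm (by norm_num)
        interval_cases m
        · exact L12.mono (by norm_num)
        · exact L22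
      · omega
      · exfalso
        norm_num at hr1
        omega
  have L52 : LB 5 2 2 := by
    refine L0 5 2 2 (by norm_num) (by norm_num) ?_ ?_
    · intro t ht1 ht2
      have := Nat.le_of_dvd (by norm_num) ht2
      have h5 : t = 5 := by
        interval_cases t <;> omega
      subst h5
      exact ⟨2, 0, P5', L12, by norm_num⟩
    · rintro a ha1 ha2 ⟨r, hr, hr1, hr2⟩
      have := Nat.le_of_dvd (by norm_num) ha2
      have := hr.two_le
      exfalso
      have h5 : a = 1 ∨ a = 5 := by
        interval_cases a <;> omega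
      rcases h5 with rfl | rfl
      · norm_num at hr2
        omega
      · norm_num at hr1
        omega
  have L5p : ∀ p, p.Prime → LB 5 p 6 := by
    intro p hp
    haveI : Fact p.Prime := ⟨hp⟩
    refine L0 5 p 6 (by norm_num) (by norm_num) ?_ ?_
    · intro t ht1 ht2
      have := Nat.le_of_dvd (by norm_num) ht2
      have h5 : t = 5 := by
        interval_cases t <;> omega
      subst h5
      exact ⟨2, 1, P5', L1 p, by norm_num⟩
    · rintro a ha1 ha2 ⟨r, hr, hr1, -⟩
      have := Nat.le_of_dvd (by norm_num) ha2
      have := hr.two_le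
      have h5 : a = 1 ∨ a = 5 := by
        interval_cases a <;> omega
      rcases h5 with rfl | rfl
      · refine ⟨4, ?_, by norm_num⟩
        intro r m hr hm hrm hr1 _
        have := hr.two_le
        norm_num at hr1 hrm
        interval_cases r
        · have hm3 := M0_pow 2 m 25 5 (by norm_num) hrm (by norm_num)
          interval_cases m
          · exact L12.mono (by norm_num)
          · exact L22.mono (by norm_num)
          · exact L32.mono (by norm_num)
          · exact L42.mono (by norm_num)
        · have hm3 := M0_pow 3 m 25 3 (by norm_num) hrm (by norm_num)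
          interval_cases m
          · exact L13.mono (by norm_num)
          · exact L2p 3 (by norm_num)
        · norm_num at hr
        · have hm3 := M0_pow 5 m 25 3 (by norm_num) hrm (by norm_num)
          interval_cases m
          · exact L15.mono (by norm_num)
          · exact L2p 5 (by norm_num)
      · exfalso
        norm_num at hr1
        omega
  have P6' : PB 6 3 := by
    refine P0 6 3 (by norm_num) ?_ ?_
    · intro b hb1 hb2 hb3
      interval_cases b
      · exact ⟨2, 1, P3', P2', by norm_num⟩
      · exact ⟨1, 2, P2', P3', by norm_num⟩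
      · omega
      · omega
    · intro r k hr hk h
      exfalso
      have h2 : 2 ∣ r ^ k := by rw [← h]; norm_num
      have h3 : 3 ∣ r ^ k := by rw [← h]; norm_num
      have h4 := (Nat.prime_dvd_prime_iff_eq Nat.prime_two hr).1 (Nat.prime_two.dvd_of_dvd_pow h2)
      have h5 := (Nat.prime_dvd_prime_iff_eq Nat.prime_three hr).1 (Nat.prime_three.dvd_of_dvd_pow h3)
      omega
  have L62 : LB 6 2 6 := by
    refine L0 6 2 6 (by norm_num) (by norm_num) ?_ ?_
    · intro t ht1 ht2
      have := Nat.le_of_dvd (by norm_num) ht2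
      interval_cases t
      · exact ⟨1, 2, P2', L32, by norm_num⟩
      · exact ⟨2, 2, P3', L22, by norm_num⟩
      · omega
      · omega
      · exact ⟨3, 0, P6', L12, by norm_num⟩
    · rintro a ha1 ha2 ⟨r, hr, hr1, hr2⟩
      have := Nat.le_of_dvd (by norm_num) ha2
      have := hr.two_le
      interval_cases a
      · exfalso
        norm_num at hr2
        omega
      · refine ⟨4, ?_, by norm_num⟩
        intro r m hr hm hrm hr1 hr3
        have := hr.two_le
        norm_num at hr1 hrm hr3
        interval_cases r
        · omega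
        · have hm3 := M0_pow 3 m 9 3 (by norm_num) hrm (by norm_num)
          interval_cases m
          · exact L13.mono (by norm_num)
          · exact L2p 3 (by norm_num)
      · exfalso
        norm_num at hr1 hr2
        interval_cases r
        omega
      · omega
      · omega
      · exfalso
        norm_num at hr1
        omega
  have L72 : LB 7 2 2 := by
    refine L0 7 2 2 (by norm_num) (by norm_num) ?_ ?_
    · intro t ht1 ht2
      have := Nat.le_of_dvd (by norm_num) ht2
      have h5 : t = 7 := by
        interval_cases t <;> omega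
      subst h5
      exact ⟨2, 0, P7', L12, by norm_num⟩
    · rintro a ha1 ha2 ⟨r, hr, hr1, hr2⟩
      have := Nat.le_of_dvd (by norm_num) ha2
      have := hr.two_le
      exfalso
      have h5 : a = 1 ∨ a = 7 := by
        interval_cases a <;> omega
      rcases h5 with rfl | rfl
      · norm_num at hr2
        omega
      · norm_num at hr1
        omega
  exact ⟨P2', P3', L22, L2p, P4', L32, L33, L3p, L42, L43, L4p, P5', L52, L5p, P6', L62, P7', L72⟩

end GP48
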