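import Mathlib
import Pool.Agent.LibGP48.Defs
import Pool.Agent.LibGP48.L1
import Pool.Agent.LibGP48.M0

/-!
# LibGP48 M2 (MEDIUM (numbers))

Pure bookkeeping. HL m: for all d, m^5*9^5 < 9^(d+1) → LB m r d. Take d = Nat.log 9 (m^5*9^5): 9^d <= m^5*9^5 < 9^(d+1).
(a) exists g with LB m r g and 9^(g+1) <= (r^m)^5: m = 1: r = 2: g = 0; r >= 3: g = 1 (81 <= 243). m = 2: r = 2: g = 2 (729 <= 1024); r >= 3: g = 4 (9^5 = 3^10 <= r^10). m = 3: r = 2: g = 2; r = 3: g = 4; r >= 5: g = 6 (9^7 <= 5^15). m = 4: r = 2: g = 3 (9^4 <= 2^20); m = 5, r = 2: g = 2; m = 6, r = 2: g = 6 (9^7 <= 2^30).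
Otherwise (r = 2, m >= 7; r = 3, m >= 4; r >= 5, m >= 4) g = d above: 9^(g+1) <= 9^6*m^5 <= (r^5)^m (induction on m: 9^6*m^5 <= 32^m for m >= 7, <= 243^m for m >= 4).
(b) exists g with LB m r g and 81^g <= 81^3*r^(5m): any g <= 3 is fine: m = 1, (2,2), (3,2), (4,2), (5,2), (7,2) [written (m,r)]; m = 2, r >= 3: g = 4: 81 <= 3^10. (3,3): g = 4. m = 3, r >= 5: g = 6: 81^3 <= 5^15. (4,3): 5, m = 4, r >= 5: 6. m = 5, r >= 3: 6; (6,2): 6: 81^3 = 531441 <= 2^30. (8,2): d = 9: 81^6 <= 2^40.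
Otherwise g = d: 81^g <= (m^5*9^5)^2, so 81^g <= 81^3*(81^2*m^10) and 6561*m^10 <= (r^5)^m for r = 2, m >= 9; r >= 3, m >= 5 (m = 6, 7, 8.. all fine for r >= 3).
(c) exists g with LB m r g and 16^(g+1) <= (r^m)^5, except (m,r) = (1,3), (2,2), (2,3): m = 1: r = 2: g = 0 (16 <= 32); r >= 5: g = 1 (256 <= 3125). m = 2, r >= 5: g = 4 (16^5 = 2^20 <= 5^10). (3,2): g = 2: 16^3 = 4096 <= 2^15. (3,3): g = 4: 16^5 <= 3^15. m = 3, r >= 5: g = 6: 16^7 = 2^28 <= 5^15. (4,2): g = 3: 16^4 <= 2^20.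
(4,3): g = 5: 16^6 = 2^24 <= 3^20. m = 4, r >= 5: g = 6. (5,2): g = 2; m = 5, r >= 3: g = 6. (6,2): g = 6: 16^7 = 2^28 <= 2^30. (7,2): g = 2. (8,2): d = 9: 16^10 = 2^40. (9,2): d = 10: 2^44 <= 2^45. (10,2): d = 10, (11,2)... general r = 2, m >= 10: 16^(d+1): from 9^d <= m^5*9^5 get 16^d <= (9^d)^(19/15) since
16^15 <= 9^19 (2^60 <= 3^38: 1.15e18 <= 1.35e18, true), so 16^(15(d+1)) <= 16^15*(m^5*9^5)^19 <= 32^(15 m) for m >= 10 (check by induction; if too tight, m = 10..20 by explicit values of d). r >= 3, m >= 6: same and comfortable (243^m).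
-/

namespace GP48

open Subgroup

private theorem m2_G (q m0 : ℕ) (hq : 32 ≤ q) (h3 : 3 ≤ m0) (b1 : 9 ^ 6 * m0 ^ 5 ≤ q ^ m0)
    (b2 : 6561 * m0 ^ 10 ≤ q ^ m0) (b3 : 16 ^ 15 * (m0 ^ 5 * 9 ^ 5) ^ 19 ≤ (q ^ m0) ^ 15) :
    ∀ m, m0 ≤ m → 9 ^ 6 * m ^ 5 ≤ q ^ m ∧ 6561 * m ^ 10 ≤ q ^ m ∧
      16 ^ 15 * (m ^ 5 * 9 ^ 5) ^ 19 ≤ (q ^ m) ^ 15 := by
  intro m hm
  induction m, hm using Nat.le_induction with
  | base => exact ⟨b1, b2, b3⟩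
  | succ m hm ih =>
    obtain ⟨i1, i2, i3⟩ := ih
    have s1 : m + 1 ≤ 2 * m := by omega
    have s2 : (m + 1) ^ 2 ≤ 2 * m ^ 2 := by nlinarith
    have t1 : (m + 1) ^ 5 ≤ 32 * m ^ 5 := by
      calc (m + 1) ^ 5 ≤ (2 * m) ^ 5 := Nat.pow_le_pow_left s1 5
        _ = 32 * m ^ 5 := by rw [mul_pow]; norm_num
    have t2 : (m + 1) ^ 10 ≤ 32 * m ^ 10 := by
      calc (m + 1) ^ 10 = ((m + 1) ^ 2) ^ 5 := by rw [← pow_mul]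
        _ ≤ (2 * m ^ 2) ^ 5 := Nat.pow_le_pow_left s2 5
        _ = 32 * m ^ 10 := by rw [mul_pow, ← pow_mul]; norm_num
    have t3 : ((m + 1) ^ 5) ^ 19 ≤ 32 ^ 15 * (m ^ 5) ^ 19 := by
      calc ((m + 1) ^ 5) ^ 19 = ((m + 1) ^ 2) ^ 47 * (m + 1) := by
            rw [← pow_mul, ← pow_mul, ← pow_succ]
        _ ≤ (2 * m ^ 2) ^ 47 * (2 * m) := Nat.mul_le_mul (Nat.pow_le_pow_left s2 47) s1
        _ = 2 ^ 48 * (m ^ 5) ^ 19 := by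
            rw [mul_pow, ← pow_mul, ← pow_mul]
            ring
        _ ≤ 32 ^ 15 * (m ^ 5) ^ 19 := Nat.mul_le_mul_right _ (by norm_num)
    refine ⟨?_, ?_, ?_⟩
    · calc 9 ^ 6 * (m + 1) ^ 5 ≤ 9 ^ 6 * (32 * m ^ 5) := Nat.mul_le_mul_left _ t1
        _ = 9 ^ 6 * m ^ 5 * 32 := by ring
        _ ≤ q ^ m * q := Nat.mul_le_mul i1 hq
        _ = q ^ (m + 1) := (pow_succ q m).symm
    · calc 6561 * (m + 1) ^ 10 ≤ 6561 * (32 * m ^ 10) := Nat.mul_le_mul_left _ t2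
        _ = 6561 * m ^ 10 * 32 := by ring
        _ ≤ q ^ m * q := Nat.mul_le_mul i2 hq
        _ = q ^ (m + 1) := (pow_succ q m).symm
    · calc 16 ^ 15 * ((m + 1) ^ 5 * 9 ^ 5) ^ 19 = 16 ^ 15 * (((m + 1) ^ 5) ^ 19 * (9 ^ 5) ^ 19) := by rw [mul_pow]
        _ ≤ 16 ^ 15 * ((32 ^ 15 * (m ^ 5) ^ 19) * (9 ^ 5) ^ 19) :=
            Nat.mul_le_mul_left _ (Nat.mul_le_mul_right _ t3)
        _ = 16 ^ 15 * (m ^ 5 * 9 ^ 5) ^ 19 * 32 ^ 15 := by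
            rw [mul_pow]
            ring
        _ ≤ (q ^ m) ^ 15 * q ^ 15 := Nat.mul_le_mul i3 (Nat.pow_le_pow_left hq 15)
        _ = (q ^ (m + 1)) ^ 15 := by rw [← mul_pow, ← pow_succ]

private theorem m2_all (m r k g : ℕ) (hk : k ≤ r) (h : LB m r g) (h1 : 9 ^ (g + 1) ≤ (k ^ m) ^ 5)
    (h2 : 81 ^ g ≤ 81 ^ 3 * k ^ (5 * m)) (h3 : 16 ^ (g + 1) ≤ (k ^ m) ^ 5) :
    (∃ g, LB m r g ∧ 9 ^ (g + 1) ≤ (r ^ m) ^ 5) ∧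
      (∃ g, LB m r g ∧ 81 ^ g ≤ 81 ^ 3 * r ^ (5 * m)) ∧
      (¬ (m = 1 ∧ r = 3) → ¬ (m = 2 ∧ r = 2) → ¬ (m = 2 ∧ r = 3) →
        ∃ g, LB m r g ∧ 16 ^ (g + 1) ≤ (r ^ m) ^ 5) := by
  have e1 : (k ^ m) ^ 5 ≤ (r ^ m) ^ 5 := Nat.pow_le_pow_left (Nat.pow_le_pow_left hk m) 5
  have e2 : k ^ (5 * m) ≤ r ^ (5 * m) := Nat.pow_le_pow_left hk _
  exact ⟨⟨g, h, h1.trans e1⟩, ⟨g, h, h2.trans (Nat.mul_le_mul_left _ e2)⟩, fun _ _ _ => ⟨g, h, h3.trans e1⟩⟩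

private theorem m2_gen (m r k : ℕ) (hk : k ≤ r) (hm : 1 ≤ m)
    (HL : ∀ d, m ^ 5 * 9 ^ 5 < 9 ^ (d + 1) → LB m r d)
    (G : 9 ^ 6 * m ^ 5 ≤ (k ^ 5) ^ m ∧ 6561 * m ^ 10 ≤ (k ^ 5) ^ m ∧
      16 ^ 15 * (m ^ 5 * 9 ^ 5) ^ 19 ≤ ((k ^ 5) ^ m) ^ 15) :
    (∃ g, LB m r g ∧ 9 ^ (g + 1) ≤ (r ^ m) ^ 5) ∧
      (∃ g, LB m r g ∧ 81 ^ g ≤ 81 ^ 3 * r ^ (5 * m)) ∧
      (¬ (m = 1 ∧ r = 3) → ¬ (m = 2 ∧ r = 2) → ¬ (m = 2 ∧ r = 3) →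
        ∃ g, LB m r g ∧ 16 ^ (g + 1) ≤ (r ^ m) ^ 5) := by
  obtain ⟨G1, G2, G3⟩ := G
  have hn : m ^ 5 * 9 ^ 5 ≠ 0 := by positivity
  have d1 : 9 ^ Nat.log 9 (m ^ 5 * 9 ^ 5) ≤ m ^ 5 * 9 ^ 5 := Nat.pow_log_le_self 9 hn
  have d2 : m ^ 5 * 9 ^ 5 < 9 ^ (Nat.log 9 (m ^ 5 * 9 ^ 5) + 1) := Nat.lt_pow_succ_log_self (by norm_num) _
  set d := Nat.log 9 (m ^ 5 * 9 ^ 5) with hd
  have ek : (k ^ m) ^ 5 = (k ^ 5) ^ m := by rw [← pow_mul, ← pow_mul, mul_comm]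
  have ek2 : k ^ (5 * m) = (k ^ 5) ^ m := pow_mul k 5 m
  refine m2_all m r k d hk (HL d d2) ?_ ?_ ?_
  · rw [ek]
    calc 9 ^ (d + 1) = 9 ^ d * 9 := pow_succ 9 d
      _ ≤ m ^ 5 * 9 ^ 5 * 9 := Nat.mul_le_mul_right _ d1
      _ = 9 ^ 6 * m ^ 5 := by ring
      _ ≤ (k ^ 5) ^ m := G1
  · rw [ek2]
    calc 81 ^ d = (9 ^ d) ^ 2 := by
          rw [← pow_mul, mul_comm, pow_mul]
          norm_num
      _ ≤ (m ^ 5 * 9 ^ 5) ^ 2 := Nat.pow_le_pow_left d1 2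
      _ = 81 ^ 3 * (6561 * m ^ 10) := by
          rw [mul_pow, ← pow_mul]
          ring
      _ ≤ 81 ^ 3 * (k ^ 5) ^ m := Nat.mul_le_mul_left _ G2
  · rw [ek]
    have h15 : (16 ^ (d + 1)) ^ 15 ≤ ((k ^ 5) ^ m) ^ 15 := by
      calc (16 ^ (d + 1)) ^ 15 = 16 ^ 15 * (16 ^ 15) ^ d := by
            rw [← pow_mul, ← pow_mul, ← pow_add]
            congr 1
            ring
        _ ≤ 16 ^ 15 * (9 ^ 19) ^ d := Nat.mul_le_mul_left _ (Nat.pow_le_pow_left (by norm_num) d)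
        _ = 16 ^ 15 * (9 ^ d) ^ 19 := by rw [← pow_mul, ← pow_mul, mul_comm 19 d]
        _ ≤ 16 ^ 15 * (m ^ 5 * 9 ^ 5) ^ 19 := Nat.mul_le_mul_left _ (Nat.pow_le_pow_left d1 19)
        _ ≤ _ := G3
    exact (Nat.pow_le_pow_iff_left (by norm_num)).1 h15

/-- the three numerical consequences of the bound `5 log_9 m + 5` and of the small table -/
theorem M2 (m r : ℕ) (hr : r.Prime) (hm : 1 ≤ m)
    (HL : ∀ d, m ^ 5 * 9 ^ 5 < 9 ^ (d + 1) → LB m r d) :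
    (∃ g, LB m r g ∧ 9 ^ (g + 1) ≤ (r ^ m) ^ 5) ∧
      (∃ g, LB m r g ∧ 81 ^ g ≤ 81 ^ 3 * r ^ (5 * m)) ∧
      (¬ (m = 1 ∧ r = 3) → ¬ (m = 2 ∧ r = 2) → ¬ (m = 2 ∧ r = 3) →
        ∃ g, LB m r g ∧ 16 ^ (g + 1) ≤ (r ^ m) ^ 5) := by
  obtain ⟨-, -, L22, L2p, -, L32, L33, L3p, L42, L43, L4p, -, L52, L5p, -, L62, -, L72⟩ := M0
  have hr2 := hr.two_le
  have hr4 : r ≠ 4 := by
    rintro rfl
    exact absurd hr (by norm_num)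
  rcases (by omega : r = 2 ∨ r = 3 ∨ 5 ≤ r) with rfl | rfl | h5
  · rcases (by omega : m = 1 ∨ m = 2 ∨ m = 3 ∨ m = 4 ∨ m = 5 ∨ m = 6 ∨ m = 7 ∨ m = 8 ∨ m = 9 ∨ 10 ≤ m) with
      rfl | rfl | rfl | rfl | rfl | rfl | rfl | rfl | rfl | hm
    · exact m2_all 1 2 2 0 le_rfl L1' (by norm_num) (by norm_num) (by norm_num)
    · exact ⟨⟨2, L22, by norm_num⟩, ⟨2, L22, by norm_num⟩, fun _ h _ => absurd ⟨rfl, rfl⟩ h⟩
    · exact m2_all 3 2 2 2 le_rfl L32 (by norm_num) (by norm_num) (by norm_num)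
    · exact m2_all 4 2 2 3 le_rfl L42 (by norm_num) (by norm_num) (by norm_num)
    · exact m2_all 5 2 2 2 le_rfl L52 (by norm_num) (by norm_num) (by norm_num)
    · exact m2_all 6 2 2 6 le_rfl L62 (by norm_num) (by norm_num) (by norm_num)
    · exact m2_all 7 2 2 2 le_rfl L72 (by norm_num) (by norm_num) (by norm_num)
    · exact m2_all 8 2 2 9 le_rfl (HL 9 (by norm_num)) (by norm_num) (by norm_num) (by norm_num)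
    · exact m2_all 9 2 2 10 le_rfl (HL 10 (by norm_num)) (by norm_num) (by norm_num) (by norm_num)
    · exact m2_gen m 2 2 le_rfl (by omega) HL
        (m2_G (2 ^ 5) 10 (by norm_num) (by norm_num) (by norm_num) (by norm_num) (by norm_num) m hm)
  · rcases (by omega : m = 1 ∨ m = 2 ∨ m = 3 ∨ m = 4 ∨ m = 5 ∨ 6 ≤ m) with rfl | rfl | rfl | rfl | rfl | hm
    · have : Fact (Nat.Prime 3) := ⟨hr⟩
      exact ⟨⟨1, L1 3, by norm_num⟩, ⟨1, L1 3, by norm_num⟩, fun h _ _ => absurd ⟨rfl, rfl⟩ h⟩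
    · exact ⟨⟨4, L2p 3 hr, by norm_num⟩, ⟨4, L2p 3 hr, by norm_num⟩, fun _ _ h => absurd ⟨rfl, rfl⟩ h⟩
    · exact m2_all 3 3 3 4 le_rfl L33 (by norm_num) (by norm_num) (by norm_num)
    · exact m2_all 4 3 3 5 le_rfl L43 (by norm_num) (by norm_num) (by norm_num)
    · exact m2_all 5 3 3 6 le_rfl (L5p 3 hr) (by norm_num) (by norm_num) (by norm_num)
    · exact m2_gen m 3 3 le_rfl (by omega) HL
        (m2_G (3 ^ 5) 6 (by norm_num) (by norm_num) (by norm_num) (by norm_num) (by norm_num) m hm)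
  · rcases (by omega : m = 1 ∨ m = 2 ∨ m = 3 ∨ m = 4 ∨ m = 5 ∨ 6 ≤ m) with rfl | rfl | rfl | rfl | rfl | hm
    · have : Fact (Nat.Prime r) := ⟨hr⟩
      exact m2_all 1 r 5 1 h5 (L1 r) (by norm_num) (by norm_num) (by norm_num)
    · exact m2_all 2 r 5 4 h5 (L2p r hr) (by norm_num) (by norm_num) (by norm_num)
    · exact m2_all 3 r 5 6 h5 (L3p r hr) (by norm_num) (by norm_num) (by norm_num)
    · exact m2_all 4 r 5 6 h5 (L4p r hr) (by norm_num) (by norm_num) (by norm_num)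
    · exact m2_all 5 r 5 6 h5 (L5p r hr) (by norm_num) (by norm_num) (by norm_num)
    · exact m2_gen m r 3 (by omega) (by omega) HL
        (m2_G (3 ^ 5) 6 (by norm_num) (by norm_num) (by norm_num) (by norm_num) (by norm_num) m hm)

end GP48
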