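import Mathlib
import Pool.Agent.LibGP48.Defs
import Pool.Agent.LibGP48.L0
import Pool.Agent.LibGP48.L1
import Pool.Agent.LibGP48.P0
import Pool.Agent.LibGP48.M0
import Pool.Agent.LibGP48.M2

/-!
# LibGP48 M1 (MEDIUM/STRONG (numerical induction))

Strong induction on n. PB part first: n = 1: P3 and PB.mono. n >= 2: P0 n d: h1: b: d1 = Nat.log 9 ((n/b)^5), d2 = Nat.log 9 (b^5): 9^(d1+d2) <= (n/b)^5*b^5 = n^5 < 9^(d+1), so d1+d2 <= d; IH for n/b and b (< n). h2: n = r^k, k < n: HL from IH at k (first part), M2 (a): 9^(g+1) <= n^5 < 9^(d+1), so g+1 <= d.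
LB part (uses PB for all t <= n, the LB part only for smaller degrees): p, d with n^5*9^5 < 9^(d+1); so d >= 5 >= 2. L0 n p d. h1: t | n, t >= 2: d1 = Nat.log 9 (t^5), g = Nat.log 9 ((n/t)^5*9^5): sum <= d as before (t^5*((n/t)^5*9^5) = n^5*9^5). h2: a | n, N = n/a >= 2 (there is a prime r <= N). g := d-2: for r, m with r^m <= N^2, r prime, m >= 1:
m < r^m.. m <= 2 log_2 N < n ? we need m < n to use the IH: 2^m <= r^m <= N^2 <= n^2; for n >= 5 this gives m < n (2^n > n^2 for n >= 5); for n = 2: 2^m <= 4: m <= 2 = n: here use M0 (LB 2 2 2, LB 1 p 1; r = 2, or r = 3 with m = 1); n = 3: r^m <= 9: m <= 3: M0 (LB 3 2 2); n = 4: r^m <= 16: m <= 4: M0 (LB 4 2 3). (Or: M0 gives LB n p d directly for n = 2, 3, 4: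
d >= 6, 7, 8; LB 2 p 4, LB 3 p 6, LB 4 p 6; so start the general step at n >= 5.) M2 (b) with HL from IH: g' with LB m r g', 81^g' <= 81^3*r^(5m) <= 81^3*N^10, so 9^g' <= 9^3*N^5 <= 9^3*n^5 and 9^(g'+2) <= 9^5*n^5 < 9^(d+1): g'+2 <= d, LB.mono. max (0 or 1) (d-2) + 2 = d because d >= 5. n = 1: LB 1 p 1 (L1), d >= 5.
-/

namespace GP48

open Subgroup

private theorem m1_log (x : ℕ) (hx : 1 ≤ x) : 9 ^ Nat.log 9 x ≤ x ∧ x < 9 ^ (Nat.log 9 x + 1) :=
  ⟨Nat.pow_log_le_self 9 (by omega), Nat.lt_pow_succ_log_self (by norm_num) x⟩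

private theorem m1_lt {a b x : ℕ} (h1 : 9 ^ a ≤ x) (h2 : x < 9 ^ (b + 1)) : a ≤ b := by
  have h3 : 9 ^ a < 9 ^ (b + 1) := lt_of_le_of_lt h1 h2
  have h4 := (Nat.pow_lt_pow_iff_right (by norm_num : 1 < 9)).1 h3
  omega

private theorem m1_sq {n : ℕ} (hn : 5 ≤ n) : n ^ 2 < 2 ^ n := by
  induction n, hn using Nat.le_induction with
  | base => norm_num
  | succ k hk ih =>
    rw [pow_succ 2 k]
    nlinarith

private theorem m1_pb (n : ℕ) (hn : 1 ≤ n)
    (ih : ∀ m, m < n → 1 ≤ m → (∀ p, p.Prime → ∀ d, m ^ 5 * 9 ^ 5 < 9 ^ (d + 1) → LB m p d) ∧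
      (∀ d, m ^ 5 < 9 ^ (d + 1) → PB m d)) (d : ℕ) (hd : n ^ 5 < 9 ^ (d + 1)) : PB n d := by
  rcases Nat.lt_or_ge n 2 with h | h
  · have h1 : n = 1 := by omega
    subst h1
    exact P3.mono (Nat.zero_le d)
  · refine P0 n d h ?_ ?_
    · intro b hb1 hb2 hb3
      have hq : n / b * b = n := Nat.div_mul_cancel hb3
      have hq0 : 1 ≤ n / b := Nat.div_pos hb2.le (by omega)
      have hq1 : n / b < n := Nat.div_lt_self (by omega) hb1
      obtain ⟨e1, f1⟩ := m1_log ((n / b) ^ 5) (Nat.one_le_pow _ _ hq0)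
      obtain ⟨e2, f2⟩ := m1_log (b ^ 5) (Nat.one_le_pow _ _ (by omega))
      refine ⟨_, _, (ih _ hq1 hq0).2 _ f1, (ih b hb2 (by omega)).2 _ f2, ?_⟩
      refine m1_lt ?_ hd
      rw [pow_add]
      calc 9 ^ Nat.log 9 ((n / b) ^ 5) * 9 ^ Nat.log 9 (b ^ 5) ≤ (n / b) ^ 5 * b ^ 5 :=
            Nat.mul_le_mul e1 e2
        _ = n ^ 5 := by rw [← mul_pow, hq]
    · intro r k hr hk hnk
      have hkn : k < n := by
        rw [hnk]
        exact Nat.lt_pow_self hr.one_lt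
      obtain ⟨g, hg1, hg2⟩ := (M2 k r hr hk fun e he => (ih k hkn hk).1 r hr e he).1
      rw [← hnk] at hg2
      exact ⟨g, hg1, m1_lt hg2 hd⟩

theorem M1 (n : ℕ) (hn : 1 ≤ n) :
    (∀ p, p.Prime → ∀ d, n ^ 5 * 9 ^ 5 < 9 ^ (d + 1) → LB n p d) ∧
      (∀ d, n ^ 5 < 9 ^ (d + 1) → PB n d) := by
  induction n using Nat.strong_induction_on with
  | _ n ih =>
  have hP : ∀ d, n ^ 5 < 9 ^ (d + 1) → PB n d := m1_pb n hn ih
  refine ⟨?_, hP⟩
  intro p hp d hd
  haveI : Fact p.Prime := ⟨hp⟩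
  have hd5 : 5 ≤ d := by
    refine m1_lt ?_ hd
    exact Nat.le_mul_of_pos_left _ (Nat.pow_pos (by omega))
  obtain ⟨-, -, -, h2, -, -, -, h3, -, -, h4, -⟩ := M0
  by_cases hn5 : n < 5
  · interval_cases n
    · exact (L1 p).mono (by omega)
    · exact (h2 p hp).mono (by omega)
    · have h6 : 6 ≤ d := by
        refine m1_lt ?_ hd
        norm_num
      exact (h3 p hp).mono h6
    · have h6 : 6 ≤ d := by
        refine m1_lt ?_ hd
        norm_num
      exact (h4 p hp).mono h6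
  · push Not at hn5
    refine L0 n p d hn (by omega) ?_ ?_
    · intro t ht1 ht2
      have hq : n / t * t = n := Nat.div_mul_cancel ht2
      have htn : t ≤ n := Nat.le_of_dvd (by omega) ht2
      have hq0 : 1 ≤ n / t := Nat.div_pos htn (by omega)
      have hq1 : n / t < n := Nat.div_lt_self (by omega) (by omega)
      obtain ⟨e1, f1⟩ := m1_log (t ^ 5) (Nat.one_le_pow _ _ (by omega))
      obtain ⟨e2, f2⟩ := m1_log ((n / t) ^ 5 * 9 ^ 5)
        (Nat.mul_pos (Nat.pow_pos (by omega)) (by norm_num))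
      have hPt : PB t (Nat.log 9 (t ^ 5)) := by
        rcases Nat.lt_or_ge t n with h | h
        · exact (ih t h (by omega)).2 _ f1
        · have h5 : t = n := le_antisymm htn h
          rw [h5]
          rw [h5] at f1
          exact hP _ f1
      refine ⟨_, _, hPt, (ih _ hq1 hq0).1 p hp _ f2, m1_lt ?_ hd⟩
      rw [pow_add]
      calc 9 ^ Nat.log 9 (t ^ 5) * 9 ^ Nat.log 9 ((n / t) ^ 5 * 9 ^ 5)
            ≤ t ^ 5 * ((n / t) ^ 5 * 9 ^ 5) := Nat.mul_le_mul e1 e2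
        _ = (n / t * t) ^ 5 * 9 ^ 5 := by ring
        _ = n ^ 5 * 9 ^ 5 := by rw [hq]
    · intro a ha1 ha2 _
      refine ⟨d - 2, ?_, ?_⟩
      · intro r m hr hm hrm _ _
        have hN : n / a ≤ n := Nat.div_le_self n a
        have hmn : m < n := by
          have k1 : 2 ^ m ≤ r ^ m := Nat.pow_le_pow_left hr.two_le m
          have k2 : (n / a) ^ 2 ≤ n ^ 2 := Nat.pow_le_pow_left hN 2
          have k3 := m1_sq hn5
          exact (Nat.pow_lt_pow_iff_right (by norm_num : 1 < 2)).1 (by omega)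
        obtain ⟨g, hg1, hg2⟩ := (M2 m r hr hm fun e he => (ih m hmn hm).1 r hr e he).2.1
        refine hg1.mono ?_
        have k4 : r ^ (5 * m) ≤ n ^ 10 := by
          calc r ^ (5 * m) = (r ^ m) ^ 5 := by rw [← pow_mul, mul_comm]
            _ ≤ ((n / a) ^ 2) ^ 5 := Nat.pow_le_pow_left hrm 5
            _ ≤ (n ^ 2) ^ 5 := Nat.pow_le_pow_left (Nat.pow_le_pow_left hN 2) 5
            _ = n ^ 10 := by ring
        have k5 : (9 ^ g) ^ 2 ≤ (9 ^ 3 * n ^ 5) ^ 2 := by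
          calc (9 ^ g) ^ 2 = 81 ^ g := by rw [← pow_mul, mul_comm, pow_mul]; norm_num
            _ ≤ 81 ^ 3 * r ^ (5 * m) := hg2
            _ ≤ 81 ^ 3 * n ^ 10 := Nat.mul_le_mul_left _ k4
            _ = (9 ^ 3 * n ^ 5) ^ 2 := by ring
        have k6 : 9 ^ g ≤ 9 ^ 3 * n ^ 5 := (Nat.pow_le_pow_iff_left (by norm_num)).1 k5
        have k7 : g + 2 ≤ d := by
          refine m1_lt ?_ hd
          calc 9 ^ (g + 2) = 9 ^ g * 9 ^ 2 := pow_add _ _ _
            _ ≤ (9 ^ 3 * n ^ 5) * 9 ^ 2 := Nat.mul_le_mul_right _ k6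
            _ = n ^ 5 * 9 ^ 5 := by ring
        omega
      · have k8 : (if a = 1 then 0 else 1) ≤ d - 2 := by
          split_ifs <;> omega
        rw [max_eq_right k8]
        omega

end GP48
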