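import Mathlib
import Pool.Agent.LibGP48.Defs
import Pool.Agent.LibGP48.M1

/-!
# LibGP48 NL (MEDIUM (numbers))

w = Nat.log 2 (n^2): r^m <= n^2 with r >= 2, m >= 1 gives 2^m <= n^2, so m <= w. g = Nat.log 9 (w^5 * 9^5) + 1 say (so g >= 1 and m^5*9^5 <= w^5*9^5 < 9^(g+1) for m <= w; 9^(g-1) <= w^5*9^5 if w >= 1). LB m r g by M1 m: (M1 m hm).1 r hr g.
4^(g+2) = 64 * 4^(g-1) and 4^(g-1) <= (9^(g-1))^(2/3) (4^3 = 64 <= 81 = 9^2) <= (w^5 * 9^5)^(2/3) <= (9 w)^(10/3) <= (9w)^4; and w^4 <= 5 * 2^(5w/4) <= 5 n^(5/2) for all w (2^w <= n^2), up to constants: any A works, e.g. first w^4 <= 100 * 2^w... choose a comfortable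
inequality: w^4 <= 1024 * 2^w is true for all w (w^4 <= 2^(w+10)); then 4^(g+2) <= 64 * 9^4 * 1024 * 2^w <= A n^2 <= A n^(5/2). w = 0 (n = 1): no m, take g = 1.
-/

namespace GP48

open Subgroup

private theorem NL_pow (w : ℕ) : w ^ 4 ≤ 1024 * 2 ^ w := by
  induction w with
  | zero => norm_num
  | succ w ih =>
    rcases Nat.lt_or_ge w 6 with h | h
    · interval_cases w <;> norm_num
    · have h1 : (w + 1) ^ 4 ≤ 2 * w ^ 4 := by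
        obtain ⟨k, rfl⟩ := Nat.exists_eq_add_of_le h
        ring_nf
        nlinarith [Nat.zero_le k, Nat.zero_le (k ^ 2), Nat.zero_le (k ^ 3), Nat.zero_le (k ^ 4)]
      rw [pow_succ 2 w]
      omega

private theorem NL_nat (w : ℕ) : 4 ^ (Nat.log 9 (w ^ 5 * 9 ^ 5)) ≤ 6561 * 1024 * 2 ^ w := by
  rcases Nat.eq_zero_or_pos w with rfl | hw
  · simp
  set h := Nat.log 9 (w ^ 5 * 9 ^ 5) with hh
  have h9 : 9 ^ h ≤ w ^ 5 * 9 ^ 5 :=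
    Nat.pow_log_le_self 9 (by positivity)
  have h1 : (4 ^ h) ^ 3 ≤ ((9 * w) ^ 4) ^ 3 := by
    calc (4 ^ h) ^ 3 = 64 ^ h := by rw [← pow_mul, mul_comm, pow_mul]; norm_num
      _ ≤ 81 ^ h := Nat.pow_le_pow_left (by norm_num) h
      _ = (9 ^ h) ^ 2 := by rw [← pow_mul, mul_comm, pow_mul]; norm_num
      _ ≤ (w ^ 5 * 9 ^ 5) ^ 2 := Nat.pow_le_pow_left h9 2
      _ = (9 * w) ^ 10 := by ring
      _ ≤ (9 * w) ^ 12 := Nat.pow_le_pow_right (by omega) (by norm_num)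
      _ = ((9 * w) ^ 4) ^ 3 := by rw [← pow_mul]
  have h2 : 4 ^ h ≤ (9 * w) ^ 4 := by
    by_contra hc
    push Not at hc
    exact absurd h1 (not_le.mpr (Nat.pow_lt_pow_left hc (by norm_num)))
  calc 4 ^ h ≤ (9 * w) ^ 4 := h2
    _ = 6561 * w ^ 4 := by rw [mul_pow]; norm_num
    _ ≤ 6561 * (1024 * 2 ^ w) := Nat.mul_le_mul_left _ (NL_pow w)
    _ = 6561 * 1024 * 2 ^ w := by ring

theorem NL : ∃ A : ℝ, 1 ≤ A ∧ ∀ n : ℕ, 1 ≤ n → ∃ g, 1 ≤ g ∧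
    (∀ r m : ℕ, r.Prime → 1 ≤ m → r ^ m ≤ n ^ 2 → LB m r g) ∧
    (4 : ℝ) ^ (g + 2) ≤ A * (n : ℝ) ^ (5 / 2 : ℝ) := by
  refine ⟨64 * (6561 * 1024), by norm_num, ?_⟩
  intro n hn
  have hn2 : n ^ 2 ≠ 0 := pow_ne_zero 2 (by omega)
  refine ⟨Nat.log 9 ((Nat.log 2 (n ^ 2)) ^ 5 * 9 ^ 5) + 1, by omega, ?_, ?_⟩
  · intro r m hr hm hrm
    have h1 : 2 ^ m ≤ n ^ 2 := le_trans (Nat.pow_le_pow_left hr.two_le m) hrm
    have h2 : m ≤ Nat.log 2 (n ^ 2) := (Nat.le_log_iff_pow_le (by norm_num) hn2).mpr h1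
    refine (M1 m hm).1 r hr _ ?_
    calc m ^ 5 * 9 ^ 5 ≤ (Nat.log 2 (n ^ 2)) ^ 5 * 9 ^ 5 :=
          Nat.mul_le_mul_right _ (Nat.pow_le_pow_left h2 5)
      _ < 9 ^ (Nat.log 9 ((Nat.log 2 (n ^ 2)) ^ 5 * 9 ^ 5) + 1) :=
          Nat.lt_pow_succ_log_self (by norm_num) _
      _ ≤ 9 ^ (Nat.log 9 ((Nat.log 2 (n ^ 2)) ^ 5 * 9 ^ 5) + 1 + 1) :=
          Nat.pow_le_pow_right (by norm_num) (by omega)
  · have h3 : 4 ^ (Nat.log 9 ((Nat.log 2 (n ^ 2)) ^ 5 * 9 ^ 5) + 1 + 2) ≤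
        64 * (6561 * 1024) * n ^ 2 := by
      have h4 := NL_nat (Nat.log 2 (n ^ 2))
      have h5 : 2 ^ (Nat.log 2 (n ^ 2)) ≤ n ^ 2 := Nat.pow_log_le_self 2 hn2
      calc 4 ^ (Nat.log 9 ((Nat.log 2 (n ^ 2)) ^ 5 * 9 ^ 5) + 1 + 2)
          = 64 * 4 ^ (Nat.log 9 ((Nat.log 2 (n ^ 2)) ^ 5 * 9 ^ 5)) := by
            rw [add_assoc, pow_add]; norm_num [mul_comm]
        _ ≤ 64 * (6561 * 1024 * 2 ^ (Nat.log 2 (n ^ 2))) := Nat.mul_le_mul_left _ h4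
        _ ≤ 64 * (6561 * 1024 * n ^ 2) :=
            Nat.mul_le_mul_left _ (Nat.mul_le_mul_left _ h5)
        _ = 64 * (6561 * 1024) * n ^ 2 := by ring
    have h6 : (4 : ℝ) ^ (Nat.log 9 ((Nat.log 2 (n ^ 2)) ^ 5 * 9 ^ 5) + 1 + 2) ≤
        64 * (6561 * 1024) * (n : ℝ) ^ 2 := by exact_mod_cast h3
    have h7 : (n : ℝ) ^ 2 ≤ (n : ℝ) ^ (5 / 2 : ℝ) := by
      rw [← Real.rpow_natCast]
      exact Real.rpow_le_rpow_of_exponent_le (by exact_mod_cast hn) (by norm_num)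
    exact le_trans h6 (mul_le_mul_of_nonneg_left h7 (by norm_num))

end GP48
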