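import Mathlib
import Pool.Agent.LibGP48.XDefs

/-!
# LibGP48: definitions of the block part (helper50)
All radii are real numbers `b`; `Rch S X ⌊b⌋₊` : `X` is normal and generated by elements of length
at most `b`.
-/

namespace GP48

open Subgroup

variable {G : Type*} [Group G]

lemma Rch.monoR {S : Set G} {X : Subgroup G} {b b' : ℝ} (h : Rch S X ⌊b⌋₊) (hb : b ≤ b') :
    Rch S X ⌊b'⌋₊ := h.mono (Nat.floor_mono hb)

/-- costs with a small enlargement `R` of the radius -/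
def CostE (S : Set G) (κ : ℝ) (c1 : ℕ) : Prop :=
  ∀ (T : Subgroup G) (E : Set G) (c R : ℕ) (b : ℝ), T.Normal → 2 ≤ c →
    (c1 : ℝ) * ((R : ℝ) + 1) ≤ b → E ⊆ (T : Set G) ∩ wball S (c * (⌊b⌋₊ + R)) →
    T ≤ normalClosure E → Rch S T ⌊(c : ℝ) ^ κ * b⌋₊

/-- outcome Y: a short normal subgroup, not inside `C`, abelian modulo `C` -/
def YY (S : Set G) (C : Subgroup G) (b : ℝ) : Prop :=
  ∃ Y : Subgroup G, Rch S Y ⌊b⌋₊ ∧ ¬ Y ≤ C ∧ ⁅Y, Y⁆ ≤ C

/-- state: a short normal subgroup, not inside `C`, abelian modulo the core of `H` -/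
def AA (S : Set G) (C H : Subgroup G) (b : ℝ) : Prop :=
  ∃ W : Subgroup G, Rch S W ⌊b⌋₊ ∧ ¬ W ≤ C ∧ ⁅W, W⁆ ≤ H.normalCore

lemma YY.mono {S : Set G} {C : Subgroup G} {b b' : ℝ} (h : YY S C b) (hb : b ≤ b') :
    YY S C b' := by
  obtain ⟨Y, h1, h2, h3⟩ := h
  exact ⟨Y, h1.monoR hb, h2, h3⟩

lemma AA.mono {S : Set G} {C H : Subgroup G} {b b' : ℝ} (h : AA S C H b) (hb : b ≤ b') :
    AA S C H b' := by
  obtain ⟨Y, h1, h2, h3⟩ := h
  exact ⟨Y, h1.monoR hb, h2, h3⟩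

/-- squares of commutators of short elements of `W` -/
def sqc (S : Set G) (W : Subgroup G) (m : ℕ) : Set G :=
  {q | ∃ a ∈ (W : Set G) ∩ wball S m, ∃ b ∈ (W : Set G) ∩ wball S m, q = (a * b * a⁻¹ * b⁻¹) ^ 2}

/-- cost of a block of degree `n` -/
noncomputable def cst (κ : ℝ) (n : ℕ) : ℝ := ((n : ℝ) ^ (5 / 2 : ℝ)) ^ κ

lemma cst_mul (κ : ℝ) (m n : ℕ) : cst κ (m * n) = cst κ m * cst κ n := by
  unfold cst
  rw [Nat.cast_mul, Real.mul_rpow (Nat.cast_nonneg _) (Nat.cast_nonneg _),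
    Real.mul_rpow (Real.rpow_nonneg (Nat.cast_nonneg _) _)
      (Real.rpow_nonneg (Nat.cast_nonneg _) _)]

lemma cst_nonneg (κ : ℝ) (n : ℕ) : 0 ≤ cst κ n :=
  Real.rpow_nonneg (Real.rpow_nonneg (Nat.cast_nonneg _) _) _

/-- nominal costs `c ≤ n^(5/2)`, i.e. `c^2 ≤ n^5` -/
lemma le_cst {κ : ℝ} (hκ : 0 ≤ κ) {c n : ℕ} (h : c ^ 2 ≤ n ^ 5) : ((c : ℝ)) ^ κ ≤ cst κ n := by
  unfold cst
  refine Real.rpow_le_rpow (Nat.cast_nonneg _) ?_ hκ
  have h' : ((c : ℝ)) ^ 2 ≤ (n : ℝ) ^ 5 := by exact_mod_cast h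
  have e : (c : ℝ) = ((c : ℝ) ^ 2) ^ (1 / 2 : ℝ) := by
    rw [← Real.rpow_natCast, ← Real.rpow_mul (Nat.cast_nonneg _)]
    norm_num
  have e2 : (n : ℝ) ^ (5 / 2 : ℝ) = ((n : ℝ) ^ 5) ^ (1 / 2 : ℝ) := by
    rw [← Real.rpow_natCast, ← Real.rpow_mul (Nat.cast_nonneg _)]
    norm_num
  rw [e, e2]
  exact Real.rpow_le_rpow (by positivity) h' (by norm_num)

/-- the value of a homomorphism `π : H →* P` at an element of `G` (`1` outside `H`) -/
noncomputable def ev {P : Type*} [Group P] {H : Subgroup G} (π : H →* P) (x : G) : P := by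
  classical exact if h : x ∈ H then π ⟨x, h⟩ else 1

section ev

variable {P : Type*} [Group P] {H : Subgroup G} (π : H →* P)

lemma ev_mem {x : G} (h : x ∈ H) : ev π x = π ⟨x, h⟩ := by
  classical
  unfold ev
  rw [dif_pos h]

lemma ev_coe (x : H) : ev π (x : G) = π x := ev_mem π x.2

lemma ev_one : ev π (1 : G) = 1 := by
  rw [ev_mem π H.one_mem]
  exact π.map_one

lemma ev_mul {x y : G} (hx : x ∈ H) (hy : y ∈ H) : ev π (x * y) = ev π x * ev π y := by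
  rw [ev_mem π hx, ev_mem π hy, ev_mem π (H.mul_mem hx hy), ← π.map_mul]
  rfl

lemma ev_inv {x : G} (hx : x ∈ H) : ev π x⁻¹ = (ev π x)⁻¹ := by
  rw [ev_mem π hx, ev_mem π (H.inv_mem hx), ← π.map_inv]
  rfl

lemma ev_pow {x : G} (hx : x ∈ H) (n : ℕ) : ev π (x ^ n) = ev π x ^ n := by
  induction n with
  | zero => simp [ev_one]
  | succ n ih => rw [pow_succ, ev_mul π (H.pow_mem hx n) hx, ih, pow_succ]

/-- elements of the core of `H` can be evaluated at every `y` -/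
lemma core_conj {x : G} (hx : x ∈ H.normalCore) (y : G) : y⁻¹ * x * y ∈ H := by
  have h := hx y⁻¹
  rwa [inv_inv] at h

lemma core_mem {x : G} (hx : x ∈ H.normalCore) : x ∈ H := H.normalCore_le hx

/-- the value at `y`, multiplicativity on the core -/
lemma evc_mul {x z : G} (hx : x ∈ H.normalCore) (hz : z ∈ H.normalCore) (y : G) :
    ev π (y⁻¹ * (x * z) * y) = ev π (y⁻¹ * x * y) * ev π (y⁻¹ * z * y) := by
  have e : y⁻¹ * (x * z) * y = (y⁻¹ * x * y) * (y⁻¹ * z * y) := by group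
  rw [e, ev_mul π (core_conj hx y) (core_conj hz y)]

lemma evc_inv {x : G} (hx : x ∈ H.normalCore) (y : G) :
    ev π (y⁻¹ * x⁻¹ * y) = (ev π (y⁻¹ * x * y))⁻¹ := by
  have e : y⁻¹ * x⁻¹ * y = (y⁻¹ * x * y)⁻¹ := by group
  rw [e, ev_inv π (core_conj hx y)]

lemma evc_pow {x : G} (hx : x ∈ H.normalCore) (y : G) (n : ℕ) :
    ev π (y⁻¹ * x ^ n * y) = (ev π (y⁻¹ * x * y)) ^ n := by
  induction n with
  | zero => simp [ev_one]
  | succ n ih => rw [pow_succ, evc_mul π (H.normalCore.pow_mem hx n) hx, ih, pow_succ]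

/-- values at `y` of a conjugate are values at another point -/
lemma evc_conj (x g y : G) :
    ev π (y⁻¹ * (g * x * g⁻¹) * y) = ev π ((g⁻¹ * y)⁻¹ * x * (g⁻¹ * y)) := by
  have e : y⁻¹ * (g * x * g⁻¹) * y = (g⁻¹ * y)⁻¹ * x * (g⁻¹ * y) := by group
  rw [e]

/-- the preimage of a normal subgroup `Z` of `P`, in the core of `H`: all values are in `Z` -/
def pre (Z : Subgroup P) : Subgroup G where
  carrier := {x | x ∈ H.normalCore ∧ ∀ y : G, ev π (y⁻¹ * x * y) ∈ Z}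
  one_mem' := ⟨H.normalCore.one_mem, fun y => by simp [ev_one, Z.one_mem]⟩
  mul_mem' := by
    rintro a b ⟨ha, ha'⟩ ⟨hb, hb'⟩
    exact ⟨H.normalCore.mul_mem ha hb, fun y => by
      rw [evc_mul π ha hb]; exact Z.mul_mem (ha' y) (hb' y)⟩
  inv_mem' := by
    rintro a ⟨ha, ha'⟩
    exact ⟨H.normalCore.inv_mem ha, fun y => by rw [evc_inv π ha]; exact Z.inv_mem (ha' y)⟩

lemma mem_pre {Z : Subgroup P} {x : G} :
    x ∈ pre π Z ↔ x ∈ H.normalCore ∧ ∀ y : G, ev π (y⁻¹ * x * y) ∈ Z := Iff.rfl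

instance pre_normal (Z : Subgroup P) : (pre π Z).Normal := by
  constructor
  rintro x ⟨hx, hx'⟩ g
  refine ⟨(inferInstance : H.normalCore.Normal).conj_mem x hx g, fun y => ?_⟩
  rw [evc_conj]
  exact hx' _

lemma pre_le_core (Z : Subgroup P) : pre π Z ≤ H.normalCore := fun _ h => h.1

lemma pre_mono {Z Z' : Subgroup P} (h : Z ≤ Z') : pre π Z ≤ pre π Z' :=
  fun _ hx => ⟨hx.1, fun y => h (hx.2 y)⟩

/-- a normal subgroup of `G` inside the core, all of whose values (at 1) are in `Z` -/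
lemma le_pre {Z : Subgroup P} {X : Subgroup G} (hX : X.Normal) (hXH : X ≤ H.normalCore)
    (h : ∀ x ∈ X, ev π x ∈ Z) : X ≤ pre π Z := by
  intro x hx
  refine ⟨hXH hx, fun y => h _ ?_⟩
  have := hX.conj_mem x hx y⁻¹
  rwa [inv_inv] at this

end ev

section ev2

variable {P : Type*} [Group P] {H : Subgroup G} (π : H →* P)

lemma pre_comm (Z1 Z2 : Subgroup P) : ⁅pre π Z1, pre π Z2⁆ ≤ pre π ⁅Z1, Z2⁆ := by
  rw [Subgroup.commutator_le]
  intro a ha b hb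
  rw [commutatorElement_def]
  have ha' := ha.1
  have hb' := hb.1
  refine ⟨H.normalCore.mul_mem (H.normalCore.mul_mem (H.normalCore.mul_mem ha' hb')
    (H.normalCore.inv_mem ha')) (H.normalCore.inv_mem hb'), fun y => ?_⟩
  rw [evc_mul π (H.normalCore.mul_mem (H.normalCore.mul_mem ha' hb') (H.normalCore.inv_mem ha'))
    (H.normalCore.inv_mem hb'), evc_mul π (H.normalCore.mul_mem ha' hb')
    (H.normalCore.inv_mem ha'), evc_mul π ha' hb', evc_inv π ha', evc_inv π hb',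
    ← commutatorElement_def]
  exact Subgroup.commutator_mem_commutator (ha.2 y) (hb.2 y)

lemma pre_comm_bot {Z : Subgroup P} (hZ : ∀ x ∈ Z, ∀ y ∈ Z, x * y = y * x) {X : Subgroup G}
    (hX : X ≤ pre π Z) : ⁅X, X⁆ ≤ pre π ⊥ := by
  refine (Subgroup.commutator_mono hX hX).trans ((pre_comm π Z Z).trans (pre_mono π ?_))
  rw [Subgroup.commutator_le]
  intro a ha b hb
  rw [Subgroup.mem_bot, commutatorElement_def, hZ a ha b hb]
  group

end ev2

/-- cost of a normal closure -/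
lemma CostE.ncl {S : Set G} {κ : ℝ} {c1 : ℕ} (hc : CostE S κ c1) (E : Set G) (c R : ℕ) (b : ℝ)
    (h2 : 2 ≤ c) (hb : (c1 : ℝ) * ((R : ℝ) + 1) ≤ b) (hE : E ⊆ wball S (c * (⌊b⌋₊ + R))) :
    Rch S (normalClosure E) ⌊(c : ℝ) ^ κ * b⌋₊ :=
  hc _ E c R b inferInstance h2 hb (fun _ hx => ⟨subset_normalClosure hx, hE hx⟩) le_rfl

/-- the map `-1` of `(F_3)^2` -/
def ng : GLV 3 2 := LinearEquiv.neg (ZMod 3)

lemma ng_apply (v : VV 3 2) : ng v = -v := rfl

lemma ng_mul_self : ng * ng = 1 := by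
  ext v
  simp [LinearEquiv.mul_apply, ng_apply]

lemma ng_comm (x : GLV 3 2) : ng * x = x * ng := by
  ext v
  simp [LinearEquiv.mul_apply, ng_apply]

/-- the subgroup `{1, -1}` -/
def pm9 : Subgroup (GLV 3 2) where
  carrier := {x | x = 1 ∨ x = ng}
  one_mem' := Or.inl rfl
  mul_mem' := by
    rintro a b (rfl | rfl) (rfl | rfl)
    · exact Or.inl (by simp)
    · exact Or.inr (by simp)
    · exact Or.inr (by simp)
    · exact Or.inl ng_mul_self
  inv_mem' := by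
    rintro a (rfl | rfl)
    · exact Or.inl (by simp)
    · exact Or.inr (inv_eq_of_mul_eq_one_left ng_mul_self)

lemma mem_pm9 {x : GLV 3 2} : x ∈ pm9 ↔ x = 1 ∨ x = ng := Iff.rfl

lemma pm9_comm (x : GLV 3 2) (hx : x ∈ pm9) (y : GLV 3 2) : x * y = y * x := by
  rcases hx with rfl | rfl
  · simp
  · exact ng_comm y

/-- `H` acts on the cosets of `H'` by affine maps `v ↦ lam x v + τ x` of `(F_r)^k`, `H'` is the
stabiliser of `0`, and all translations occur -/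
structure Aff (H' H : Subgroup G) (r k : ℕ) (lam : H →* GLV r k) (τ : H → VV r k) : Prop where
  le : H' ≤ H
  mul : ∀ x y : H, τ (x * y) = lam x (τ y) + τ x
  stab : ∀ x : H, τ x = 0 ↔ (x : G) ∈ H'
  trans : ∀ v : VV r k, ∃ x : H, lam x = 1 ∧ τ x = v

/-- square of a commutator -/
def cm2 (x y : G) : G := (x * y * x⁻¹ * y⁻¹) ^ 2

/-- the word with 30 letters: the commutator of `[y,x]^2` and `[x,z]^2` -/
def w30 (x y z : G) : G := cm2 y x * cm2 x z * (cm2 y x)⁻¹ * (cm2 x z)⁻¹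

/-- the numerical input (proved by helper48) -/
def NumH : Prop := ∀ r k : ℕ, r.Prime → 1 ≤ k → ¬ (r = 3 ∧ k = 1) → ¬ (r = 2 ∧ k = 2) →
  ¬ (r = 3 ∧ k = 2) → ∃ g, LB k r g ∧ 16 ^ (g + 1) ≤ (r ^ k) ^ 5

end GP48
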