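import Mathlib
import Pool.Agent.LibGP48.YDefs

/-!
# LibGP48 YN3 (MEDIUM (real numbers))

Choose K : ℕ, K >= 2, with 1 + 1/K <= 2^(κ-κ1) (possible: 2^(κ-κ1) > 1). Given T, E, c, R, b with hypotheses of CostE S κ (K*m0):
(K*m0)*(R+1) <= b, so b >= K*m0 >= m0 and R <= b/K (m0 >= 1). m := ⌊b⌋₊ + R >= m0 (Nat.le_floor). CostH gives m' with m' <= c^κ1 * (⌊b⌋₊+R) <= c^κ1 * (b + b/K)
<= c^κ1 * 2^(κ-κ1) * b <= c^κ1 * c^(κ-κ1) * b = c^κ b (c >= 2). Rch.mono with m' <= ⌊c^κ b⌋₊ (Nat.le_floor).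
-/

namespace GP48

open Subgroup

universe u

/-- from costs in the form CostH to costs with enlargement of the radius -/
theorem YN3 (κ1 κ : ℝ) (h1 : 1 ≤ κ1) (h : κ1 < κ) : ∃ K : ℕ, 1 ≤ K ∧
    ∀ {G : Type u} [Group G] (S : Set G) (m0 : ℕ), 1 ≤ m0 → CostH S κ1 m0 →
      CostE S κ (K * m0) := by
  have hd : 0 < κ - κ1 := sub_pos.2 h
  have h2 : (1 : ℝ) < (2 : ℝ) ^ (κ - κ1) := Real.one_lt_rpow (by norm_num) hd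
  obtain ⟨K0, hK0⟩ := exists_nat_one_div_lt (sub_pos.2 h2)
  refine ⟨K0 + 1, by omega, ?_⟩
  intro G _ S m0 hm0 hH T E c R b hT hc hb hE hTE
  have hKpos : (0 : ℝ) < (K0 : ℝ) + 1 := by positivity
  have hm0' : (1 : ℝ) ≤ (m0 : ℝ) := by exact_mod_cast hm0
  have hR0 : (0 : ℝ) ≤ (R : ℝ) := Nat.cast_nonneg R
  push_cast at hb
  -- b >= m0
  have hK1 : (1 : ℝ) ≤ (K0 : ℝ) + 1 := by
    have : (0 : ℝ) ≤ (K0 : ℝ) := Nat.cast_nonneg K0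
    linarith
  have hbm : (m0 : ℝ) ≤ b := by
    refine le_trans ?_ hb
    have e1 : (m0 : ℝ) ≤ ((K0 : ℝ) + 1) * m0 := by nlinarith
    have e2 : ((K0 : ℝ) + 1) * m0 ≤ ((K0 : ℝ) + 1) * m0 * ((R : ℝ) + 1) := by
      have : 0 ≤ ((K0 : ℝ) + 1) * m0 := by positivity
      nlinarith
    linarith
  have hb0 : 0 ≤ b := by linarith
  have hRb : (R : ℝ) ≤ 1 / ((K0 : ℝ) + 1) * b := by
    rw [one_div, ← div_eq_inv_mul, le_div_iff₀ hKpos]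
    have e1 : (R : ℝ) * ((K0 : ℝ) + 1) ≤ ((K0 : ℝ) + 1) * m0 * ((R : ℝ) + 1) := by
      have e3 : ((K0 : ℝ) + 1) * ((R : ℝ) + 1) ≤ ((K0 : ℝ) + 1) * m0 * ((R : ℝ) + 1) := by
        have e4 : (K0 : ℝ) + 1 ≤ ((K0 : ℝ) + 1) * m0 := by nlinarith
        exact mul_le_mul_of_nonneg_right e4 (by linarith)
      nlinarith
    linarith
  have hfl : m0 ≤ ⌊b⌋₊ := Nat.le_floor hbm
  obtain ⟨m', _, hm2, hm3⟩ := hH T E c (⌊b⌋₊ + R) hT hc (by omega) hE hTE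
  refine hm3.mono (Nat.le_floor (hm2.trans ?_))
  have hc2 : (2 : ℝ) ≤ (c : ℝ) := by exact_mod_cast hc
  have hc0 : (0 : ℝ) < (c : ℝ) := by linarith
  have hflb : ((⌊b⌋₊ : ℕ) : ℝ) ≤ b := Nat.floor_le hb0
  have e1 : ((⌊b⌋₊ + R : ℕ) : ℝ) ≤ (2 : ℝ) ^ (κ - κ1) * b := by
    push_cast
    have : (1 / ((K0 : ℝ) + 1)) * b ≤ ((2 : ℝ) ^ (κ - κ1) - 1) * b :=
      mul_le_mul_of_nonneg_right hK0.le hb0
    linarith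
  have e2 : (2 : ℝ) ^ (κ - κ1) ≤ (c : ℝ) ^ (κ - κ1) :=
    Real.rpow_le_rpow (by norm_num) hc2 hd.le
  have e3 : (c : ℝ) ^ κ = (c : ℝ) ^ κ1 * (c : ℝ) ^ (κ - κ1) := by
    rw [← Real.rpow_add hc0]
    congr 1
    ring
  have e4 : 0 ≤ (c : ℝ) ^ κ1 := Real.rpow_nonneg hc0.le _
  calc (c : ℝ) ^ κ1 * ((⌊b⌋₊ + R : ℕ) : ℝ) ≤ (c : ℝ) ^ κ1 * ((2 : ℝ) ^ (κ - κ1) * b) :=
        mul_le_mul_of_nonneg_left e1 e4
    _ ≤ (c : ℝ) ^ κ1 * ((c : ℝ) ^ (κ - κ1) * b) :=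
        mul_le_mul_of_nonneg_left (mul_le_mul_of_nonneg_right e2 hb0) e4
    _ = (c : ℝ) ^ κ * b := by rw [e3]; ring

end GP48
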