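import Mathlib
import Pool.Agent.LibGP48.YDefs

/-!
# LibGP48 YAF1 (MEDIUM (ONLY YDefs))

K := U.normalCore, of finite index (Subgroup.FiniteIndex of normalCore: finiteIndex_normalCore), so Γ ⧸ K is finite and there are finitely many subgroups between K and ⊤. Choose M minimal (e.g. minimal K.relIndex M, Nat.find / WellFounded) among the normal subgroups M with K < M
(⊤ is one: K <= U < ⊤). Chief K M: fin from finite index; min: a normal Z with K <= Z <= M is K or M by minimality. ab: Z = ⁅M,M⁆ ⊔ K is normal, K <= Z <= M; if Z = M then by induction M <= ds M j ⊔ K for all j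
(M = ⁅M,M⁆ ⊔ K, so ⁅M,M⁆ <= ⁅ds M j ⊔ K, ds M j ⊔ K⁆ <= ds M (j+1) ⊔ K; or map to Γ ⧸ K: M/K perfect and soluble so trivial); ds ⊤ e <= U is normal so <= K: M <= K, contradiction. So Z = K.
M ⊄ U (a normal subgroup inside U is inside K), so M ⊔ U = ⊤ (IsCoatom). M ⊓ U: contains K; normalised by U (M normal) and by M (⁅M,M⁆ <= K <= M ⊓ U), so by ⊤ = M ⊔ U: normal (normalizer = ⊤), inside U, so <= K.
-/

namespace GP48

open Subgroup

private lemma YAF1_comm {Γ : Type*} [Group Γ] (K M : Subgroup Γ) [K.Normal] (e : ℕ)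
    (he : ds M e ≤ K) (h : ⁅M, M⁆ ⊔ K = M) : M ≤ K := by
  have h1 : ⁅M.map (QuotientGroup.mk' K), M.map (QuotientGroup.mk' K)⁆ =
      M.map (QuotientGroup.mk' K) := by
    have h2 := congrArg (Subgroup.map (QuotientGroup.mk' K)) h
    rw [Subgroup.map_sup, Subgroup.map_commutator] at h2
    have h3 : K.map (QuotientGroup.mk' K) = ⊥ := by
      rw [Subgroup.map_eq_bot_iff, QuotientGroup.ker_mk']
    rw [h3, sup_bot_eq] at h2
    exact h2
  have h4 : ∀ j, ds (M.map (QuotientGroup.mk' K)) j = M.map (QuotientGroup.mk' K) := by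
    intro j
    induction j with
    | zero => rfl
    | succ j ih => rw [ds_succ, ih, h1]
  have h5 := h4 e
  rw [← ds_map] at h5
  have h6 : (ds M e).map (QuotientGroup.mk' K) = ⊥ := by
    rw [Subgroup.map_eq_bot_iff, QuotientGroup.ker_mk']
    exact he
  rw [h6] at h5
  have h7 := h5.symm
  rw [Subgroup.map_eq_bot_iff, QuotientGroup.ker_mk'] at h7
  exact h7

private lemma YAF1_norm {Γ : Type*} [Group Γ] {L : Subgroup Γ} {H : Subgroup Γ}
    (h : ∀ g ∈ H, ∀ x ∈ L, g * x * g⁻¹ ∈ L) : H ≤ normalizer (L : Set Γ) := by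
  intro g hg
  rw [Subgroup.mem_normalizer_iff]
  intro x
  constructor
  · exact fun hx => h g hg x hx
  · intro hx
    have h2 := h g⁻¹ (H.inv_mem hg) _ hx
    have e : g⁻¹ * (g * x * g⁻¹) * g⁻¹⁻¹ = x := by group
    rwa [e] at h2

/-- minimal normal subgroup modulo the core of a maximal subgroup -/
theorem YAF1 {Γ : Type*} [Group Γ] (U : Subgroup Γ) (hU : IsCoatom U) (hfin : U.index ≠ 0)
    (hsol : ∃ e, ds (⊤ : Subgroup Γ) e ≤ U) :
    ∃ M : Subgroup Γ, Chief U.normalCore M ∧ M ⊓ U = U.normalCore ∧ M ⊔ U = ⊤ := by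
  classical
  haveI : U.FiniteIndex := ⟨hfin⟩
  obtain ⟨e, he⟩ := hsol
  set K := U.normalCore with hK
  have hKU : K ≤ U := Subgroup.normalCore_le U
  have hKi : K.index ≠ 0 := Subgroup.FiniteIndex.index_ne_zero
  have hKn : K.Normal := Subgroup.normalCore_normal U
  have hKtop : K < ⊤ := lt_of_le_of_lt hKU (lt_top_iff_ne_top.2 hU.1)
  have hdsK : ds (⊤ : Subgroup Γ) e ≤ K := (Subgroup.normal_le_normalCore).2 he
  have hex : ∃ n : ℕ, ∃ M : Subgroup Γ, M.Normal ∧ K < M ∧ K.relIndex M = n :=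
    ⟨_, ⊤, inferInstance, hKtop, rfl⟩
  obtain ⟨M, hMn, hKM, hMi⟩ := Nat.find_spec hex
  have hmin : ∀ Z : Subgroup Γ, Z.Normal → K < Z → K.relIndex M ≤ K.relIndex Z := by
    intro Z hZ hKZ
    rw [hMi]
    exact Nat.find_min' hex ⟨Z, hZ, hKZ, rfl⟩
  have hri : ∀ Z : Subgroup Γ, K.relIndex Z ≠ 0 := by
    intro Z hZ
    exact hKi (Nat.eq_zero_of_zero_dvd (hZ ▸ Subgroup.relIndex_dvd_index_of_normal K Z))
  have hM : ∀ Z : Subgroup Γ, Z.Normal → K ≤ Z → Z ≤ M → Z = K ∨ Z = M := by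
    intro Z hZ hKZ hZM
    by_cases h : Z = K
    · exact Or.inl h
    · right
      have h1 := hmin Z hZ (lt_of_le_of_ne hKZ (Ne.symm h))
      have h2 := Subgroup.relIndex_mul_relIndex K Z M hKZ hZM
      have h3 : 0 < K.relIndex Z := Nat.pos_of_ne_zero (hri Z)
      have h4 : Z.relIndex M ≤ 1 := by
        by_contra hcon
        push Not at hcon
        have h5 : K.relIndex Z * 2 ≤ K.relIndex Z * Z.relIndex M := Nat.mul_le_mul_left _ hcon
        omega
      have h5 : Z.relIndex M ≠ 0 := by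
        intro h6
        rw [h6, mul_zero] at h2
        exact hri M h2.symm
      have h6 : Z.relIndex M = 1 := by omega
      exact le_antisymm hZM (Subgroup.relIndex_eq_one.1 h6)
  have hab : ⁅M, M⁆ ≤ K := by
    have hZn : (⁅M, M⁆ ⊔ K).Normal := inferInstance
    rcases hM (⁅M, M⁆ ⊔ K) hZn le_sup_right (sup_le (Subgroup.commutator_le_left M M) hKM.le) with h | h
    · rw [← h]
      exact le_sup_left
    · exact absurd (YAF1_comm K M e ((ds_mono le_top e).trans hdsK) h) (not_le_of_gt hKM)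
  have hMU : ¬ M ≤ U := by
    intro h
    exact not_le_of_gt hKM ((Subgroup.normal_le_normalCore).2 h)
  have htop : M ⊔ U = ⊤ := by
    refine hU.2 _ (lt_of_le_of_ne le_sup_right ?_)
    intro h
    exact hMU (h ▸ le_sup_left)
  refine ⟨M, ⟨hKn, hMn, hKM, hab, hri M, hM⟩, ?_, htop⟩
  have hKL : K ≤ M ⊓ U := le_inf hKM.le hKU
  have hN : (M ⊓ U).Normal := by
    rw [← Subgroup.normalizer_eq_top_iff, eq_top_iff, ← htop]
    refine sup_le (YAF1_norm fun g hg x hx => ?_) (YAF1_norm fun g hg x hx => ?_)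
    · have h1 : g * x * g⁻¹ * x⁻¹ ∈ K := hab (Subgroup.commutator_mem_commutator hg hx.1)
      have h2 := (M ⊓ U).mul_mem (hKL h1) hx
      have e1 : g * x * g⁻¹ * x⁻¹ * x = g * x * g⁻¹ := by group
      rwa [e1] at h2
    · exact ⟨hMn.conj_mem x hx.1 g, U.mul_mem (U.mul_mem hg hx.2) (U.inv_mem hg)⟩
  exact le_antisymm ((Subgroup.normal_le_normalCore (hN := hN)).2 inf_le_right) hKL

end GP48
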