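import Mathlib
import Pool.Agent.LibGP48.YDefs

/-!
# LibGP48 YAF2 (MEDIUM (ONLY YDefs; see /team-store/GP48_D3.lean, which contains most of it))

V0 = M ⧸ (K.subgroupOf M), finite, abelian (h.ab), nontrivial. r a prime divisor of its order; {x in M : x^r in K} is normal in Γ, between K and M, ≠ K (Cauchy), so = M. V = Additive V0 is a ZMod r-module (AddCommGroup.zmodModule), finite dimensional, dimension k >= 1, |V| = r^k = K.relIndex M.
e : V ≃ₗ[ZMod r] VV r k (basis). ψ m = e (class of m). lam g = e ∘ (conjugation by g on V) ∘ e.symm. Irr lam: an invariant submodule of VV r k corresponds to a normal subgroup of Γ between K and M. All of this is in GP48_D3.lean (proof of D3 by a helper48 row); take its construction.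
-/

namespace GP48

open Subgroup

private theorem YAF2_lin {G V : Type*} [Group G] [AddCommGroup V] (r : ℕ) (hr : ∀ v : V, r • v = 0)
    (c : G → V →+ V) (h1 : ∀ v, c 1 v = v) (hm : ∀ g h v, c (g * h) v = c g (c h v)) :
    ∃ (_ : Module (ZMod r) V) (φ : G →* (V ≃ₗ[ZMod r] V)), ∀ g v, φ g v = c g v := by
  obtain ⟨i1⟩ : Nonempty (Module (ZMod r) V) := ⟨AddCommGroup.zmodModule hr⟩
  let Φ : G → (V ≃ₗ[ZMod r] V) := fun g =>
    { toFun := fun v => c g v
      map_add' := fun v w => map_add (c g) v w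
      map_smul' := fun a v => ZMod.map_smul (c g) a v
      invFun := fun v => c g⁻¹ v
      left_inv := fun v => by
        show c g⁻¹ (c g v) = v
        rw [← hm, inv_mul_cancel, h1]
      right_inv := fun v => by
        show c g (c g⁻¹ v) = v
        rw [← hm, mul_inv_cancel, h1] }
  have hΦ : ∀ g v, Φ g v = c g v := fun g v => rfl
  have h2 : ∀ g h, Φ (g * h) = Φ g * Φ h := fun g h => LinearEquiv.ext fun v => by
    rw [LinearEquiv.mul_apply, hΦ, hΦ, hΦ, hm]
  exact ⟨i1, MonoidHom.mk' Φ h2, fun g a => rfl⟩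

private theorem YAF2_rep.{u} {G : Type u} [Group G] {Y X : Subgroup G} [Y.Normal] [X.Normal]
    (ab : ⁅X, X⁆ ≤ Y) (r : ℕ) (hr : ∀ x ∈ X, x ^ r ∈ Y) :
    ∃ (V : Type u) (_ : AddCommGroup V) (_ : Module (ZMod r) V) (π : X → V)
      (φ : G →* (V ≃ₗ[ZMod r] V)), Function.Surjective π ∧ (∀ x y : X, π (x * y) = π x + π y) ∧
      (∀ x : X, π x = 0 ↔ (x : G) ∈ Y) ∧ Nat.card V = Y.relIndex X ∧
      ∀ (g : G) (x : X), φ g (π x) = π (MulAut.conjNormal g x) := by
  have hcomm : ∀ a b : X ⧸ Y.subgroupOf X, a * b = b * a := by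
    intro a b
    obtain ⟨x, rfl⟩ := QuotientGroup.mk_surjective a
    obtain ⟨y, rfl⟩ := QuotientGroup.mk_surjective b
    rw [← QuotientGroup.mk_mul, ← QuotientGroup.mk_mul, QuotientGroup.eq, Subgroup.mem_subgroupOf]
    have h1 := ab (Subgroup.commutator_mem_commutator (X.inv_mem y.2) (X.inv_mem x.2))
    simpa [commutatorElement_def, mul_assoc] using h1
  let i0 : CommGroup (X ⧸ Y.subgroupOf X) :=
    { (inferInstance : Group (X ⧸ Y.subgroupOf X)) with mul_comm := hcomm }
  let c : G → (X ⧸ Y.subgroupOf X) →* (X ⧸ Y.subgroupOf X) := fun g =>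
    QuotientGroup.map (Y.subgroupOf X) (Y.subgroupOf X) (MulAut.conjNormal g : MulAut X).toMonoidHom
      (by
        intro x hx
        rw [Subgroup.mem_subgroupOf] at hx
        show ((MulAut.conjNormal g x : X) : G) ∈ Y
        rw [MulAut.conjNormal_apply]
        exact (inferInstance : Y.Normal).conj_mem _ hx g)
  have hc : ∀ (g : G) (x : X), c g (QuotientGroup.mk x) = QuotientGroup.mk (MulAut.conjNormal g x) :=
    fun g x => rfl
  obtain ⟨i2, φ, hφ⟩ := @YAF2_lin G (Additive (X ⧸ Y.subgroupOf X)) _ (@Additive.addCommGroup _ i0) r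
    (by
      intro a
      obtain ⟨x, rfl⟩ := QuotientGroup.mk_surjective a
      exact (QuotientGroup.eq_one_iff (N := Y.subgroupOf X) (x ^ r)).2 (hr x x.2))
    (fun g => MonoidHom.toAdditive (c g))
    (by
      intro a
      obtain ⟨x, rfl⟩ := QuotientGroup.mk_surjective a
      show c 1 (QuotientGroup.mk x) = QuotientGroup.mk x
      rw [hc, map_one, MulAut.one_apply])
    (by
      intro g h a
      obtain ⟨x, rfl⟩ := QuotientGroup.mk_surjective a
      show c (g * h) (QuotientGroup.mk x) = c g (c h (QuotientGroup.mk x))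
      rw [hc, hc, hc, map_mul]
      rfl)
  refine ⟨Additive (X ⧸ Y.subgroupOf X), @Additive.addCommGroup _ i0, i2,
    fun x => Additive.ofMul (QuotientGroup.mk x), φ, ?_, ?_, ?_, ?_, ?_⟩
  · intro v
    obtain ⟨x, hx⟩ := QuotientGroup.mk_surjective (Additive.toMul v)
    exact ⟨x, by show Additive.ofMul _ = v; rw [hx]; rfl⟩
  · intro x y
    rfl
  · intro x
    exact QuotientGroup.eq_one_iff (N := Y.subgroupOf X) x
  · rfl
  · intro g x
    exact hφ g _

private theorem YAF2_pow {G : Type*} [Group G] {Y X : Subgroup G} (h : Chief Y X) :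
    ∃ r : ℕ, r.Prime ∧ ∀ x ∈ X, x ^ r ∈ Y := by
  have := h.nY
  have := h.nX
  obtain ⟨V, i1, _, π, _, hsur, hmul, hker, hcard, _⟩ := YAF2_rep h.ab 0 (fun x _ => by
    rw [pow_zero]; exact Y.one_mem)
  have h0 : Nat.card V ≠ 0 := by rw [hcard]; exact h.fin
  have h1 : Nat.card V ≠ 1 := by
    rw [hcard]
    intro h2
    exact not_le_of_gt h.lt (Subgroup.relIndex_eq_one.1 h2)
  have hfin : Finite V := Nat.finite_of_card_ne_zero h0
  obtain ⟨r, hr, hdvd⟩ := Nat.exists_prime_and_dvd h1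
  have : Fact r.Prime := ⟨hr⟩
  refine ⟨r, hr, ?_⟩
  have hone : π 1 = 0 := by
    have h2 := hmul 1 1
    rw [mul_one] at h2
    exact (add_eq_left.1 h2.symm)
  have hinv : ∀ x : X, π x⁻¹ = - π x := by
    intro x
    have h2 := hmul x⁻¹ x
    rw [inv_mul_cancel, hone] at h2
    exact eq_neg_of_add_eq_zero_left h2.symm
  have hpow : ∀ (n : ℕ) (x : X), π (x ^ n) = n • π x := by
    intro n x
    induction n with
    | zero => rw [pow_zero, hone, zero_smul]
    | succ n ih => rw [pow_succ, hmul, ih, succ_nsmul]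
  let Z : Subgroup G :=
    { carrier := {x | ∃ hx : x ∈ X, r • π ⟨x, hx⟩ = 0}
      one_mem' := ⟨X.one_mem, by
        have : (⟨1, X.one_mem⟩ : X) = 1 := rfl
        rw [this, hone, smul_zero]⟩
      mul_mem' := by
        rintro x y ⟨hx, hx'⟩ ⟨hy, hy'⟩
        refine ⟨X.mul_mem hx hy, ?_⟩
        have : (⟨x * y, X.mul_mem hx hy⟩ : X) = ⟨x, hx⟩ * ⟨y, hy⟩ := rfl
        rw [this, hmul, smul_add, hx', hy', add_zero]
      inv_mem' := by
        rintro x ⟨hx, hx'⟩
        refine ⟨X.inv_mem hx, ?_⟩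
        have : (⟨x⁻¹, X.inv_mem hx⟩ : X) = (⟨x, hx⟩ : X)⁻¹ := rfl
        rw [this, hinv, smul_neg, hx', neg_zero] }
  have hZ : ∀ x : G, x ∈ Z ↔ x ∈ X ∧ x ^ r ∈ Y := by
    intro x
    constructor
    · rintro ⟨hx, hx'⟩
      rw [← hpow, hker] at hx'
      exact ⟨hx, hx'⟩
    · rintro ⟨hx, hx'⟩
      refine ⟨hx, ?_⟩
      rw [← hpow, hker]
      exact hx'
  have hZn : Z.Normal := by
    refine ⟨fun x hx g => ?_⟩
    rw [hZ] at hx ⊢
    refine ⟨h.nX.conj_mem x hx.1 g, ?_⟩
    rw [conj_pow]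
    exact h.nY.conj_mem _ hx.2 g
  rcases h.min Z hZn (fun x hx => (hZ x).2 ⟨h.lt.le hx, Y.pow_mem hx r⟩) (fun x hx => ((hZ x).1 hx).1)
    with h2 | h2
  · exfalso
    obtain ⟨v, hv⟩ := exists_prime_addOrderOf_dvd_card' r hdvd
    obtain ⟨x, rfl⟩ := hsur v
    have h3 : (x : G) ∈ Z := (hZ x).2 ⟨x.2, by
      have h4 : r • π x = 0 := by rw [← hv]; exact addOrderOf_nsmul_eq_zero _
      rw [← hpow, hker] at h4
      exact h4⟩
    rw [h2] at h3
    have h5 : π x = 0 := (hker x).2 h3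
    rw [h5, addOrderOf_zero] at hv
    exact hr.one_lt.ne hv
  · intro x hx
    rw [← h2] at hx
    exact ((hZ x).1 hx).2

/-- a chief factor as an irreducible module -/
theorem YAF2 {Γ : Type*} [Group Γ] {K M : Subgroup Γ} (h : Chief K M) :
    ∃ r k : ℕ, r.Prime ∧ 1 ≤ k ∧ K.relIndex M = r ^ k ∧
      ∃ (ψ : M →* Multiplicative (VV r k)) (lam : Γ →* GLV r k), Function.Surjective ψ ∧
        (∀ m : M, ψ m = 1 ↔ (m : Γ) ∈ K) ∧
        (∀ (g : Γ) (m : M), Multiplicative.toAdd (ψ ⟨g * m * g⁻¹, h.nX.conj_mem m m.2 g⟩) =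
          lam g (Multiplicative.toAdd (ψ m))) ∧ Irr lam := by
  have := h.nY
  have := h.nX
  obtain ⟨r, hr, hpow⟩ := YAF2_pow h
  have : Fact r.Prime := ⟨hr⟩
  obtain ⟨V, i1, i2, π, φ, hsur, hmul, hker, hcard, hφ⟩ := YAF2_rep h.ab r hpow
  have h0 : Nat.card V ≠ 0 := by rw [hcard]; exact h.fin
  have h1 : Nat.card V ≠ 1 := by
    rw [hcard]
    intro h2
    exact not_le_of_gt h.lt (Subgroup.relIndex_eq_one.1 h2)
  have hfin : Finite V := Nat.finite_of_card_ne_zero h0
  have hnt : Nontrivial V := by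
    by_contra hcon
    rw [not_nontrivial_iff_subsingleton] at hcon
    apply h1
    have : Nonempty V := ⟨0⟩
    exact Nat.card_unique
  have hmf : Module.Finite (ZMod r) V := Module.Finite.of_finite
  have hpc : Nat.card V = r ^ Module.finrank (ZMod r) V := by
    rw [Module.natCard_eq_pow_finrank (K := ZMod r), Nat.card_zmod]
  have hone : π 1 = 0 := (hker 1).2 K.one_mem
  have hinv : ∀ x : M, π x⁻¹ = - π x := by
    intro x
    have h2 := hmul x⁻¹ x
    rw [inv_mul_cancel, hone] at h2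
    exact eq_neg_of_add_eq_zero_left h2.symm
  have hirr : Irr φ := by
    refine ⟨hnt, fun W hW => ?_⟩
    let Z : Subgroup Γ :=
      { carrier := {x | ∃ hx : x ∈ M, π ⟨x, hx⟩ ∈ W}
        one_mem' := ⟨M.one_mem, by
          have : (⟨1, M.one_mem⟩ : M) = 1 := rfl
          rw [this, hone]
          exact W.zero_mem⟩
        mul_mem' := by
          rintro x y ⟨hx, hx'⟩ ⟨hy, hy'⟩
          refine ⟨M.mul_mem hx hy, ?_⟩
          have : (⟨x * y, M.mul_mem hx hy⟩ : M) = ⟨x, hx⟩ * ⟨y, hy⟩ := rfl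
          rw [this, hmul]
          exact W.add_mem hx' hy'
        inv_mem' := by
          rintro x ⟨hx, hx'⟩
          refine ⟨M.inv_mem hx, ?_⟩
          have : (⟨x⁻¹, M.inv_mem hx⟩ : M) = (⟨x, hx⟩ : M)⁻¹ := rfl
          rw [this, hinv]
          exact W.neg_mem hx' }
    have hZ : ∀ x : M, (x : Γ) ∈ Z ↔ π x ∈ W := by
      intro x
      exact ⟨fun ⟨_, hx⟩ => hx, fun hx => ⟨x.2, hx⟩⟩
    have hZn : Z.Normal := by
      refine ⟨fun x hx g => ?_⟩
      obtain ⟨hx1, hx2⟩ := hx
      have h3 := hW g _ hx2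
      rw [hφ] at h3
      exact ⟨h.nX.conj_mem x hx1 g, h3⟩
    rcases h.min Z hZn (fun x hx => (hZ ⟨x, h.lt.le hx⟩).2 (by
        rw [(hker ⟨x, h.lt.le hx⟩).2 hx]; exact W.zero_mem)) (fun x hx => hx.1) with h2 | h2
    · left
      rw [eq_bot_iff]
      intro v hv
      obtain ⟨x, rfl⟩ := hsur v
      have h3 : (x : Γ) ∈ Z := (hZ x).2 hv
      rw [h2] at h3
      rw [Submodule.mem_bot]
      exact (hker x).2 h3
    · right
      rw [eq_top_iff]
      intro v _
      obtain ⟨x, rfl⟩ := hsur v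
      have h3 : (x : Γ) ∈ Z := by rw [h2]; exact x.2
      exact (hZ x).1 h3
  let k := Module.finrank (ZMod r) V
  let e : V ≃ₗ[ZMod r] VV r k := (Module.finBasis (ZMod r) V).equivFun
  let ψ : M →* Multiplicative (VV r k) := MonoidHom.mk' (fun m => Multiplicative.ofAdd (e (π m)))
    (fun a b => by
      rw [hmul, map_add]
      rfl)
  have hψ : ∀ m, Multiplicative.toAdd (ψ m) = e (π m) := fun m => rfl
  let lam : Γ →* GLV r k := MonoidHom.mk' (fun g => (e.symm.trans (φ g)).trans e)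
    (fun a b => LinearEquiv.ext fun v => by
      simp [LinearEquiv.mul_apply, map_mul])
  have hlam : ∀ g v, lam g v = e (φ g (e.symm v)) := fun g v => rfl
  refine ⟨r, k, hr, ?_, by rw [← hcard, hpc], ψ, lam, ?_, ?_, ?_, ?_⟩
  · by_contra hcon
    apply h1
    rw [hpc, show Module.finrank (ZMod r) V = 0 from by
      have : Module.finrank (ZMod r) V = k := rfl
      omega, pow_zero]
  · intro v
    obtain ⟨m, hm⟩ := hsur (e.symm (Multiplicative.toAdd v))
    refine ⟨m, ?_⟩
    apply Multiplicative.toAdd.injective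
    rw [hψ, hm, LinearEquiv.apply_symm_apply]
  · intro m
    rw [← hker, ← toAdd_eq_zero, hψ, LinearEquiv.map_eq_zero_iff]
  · intro g m
    rw [hψ, hψ, hlam, LinearEquiv.symm_apply_apply, hφ]
    rfl
  · refine ⟨e.symm.toEquiv.nontrivial, fun W hW => ?_⟩
    rcases hirr.2 (W.comap (e : V →ₗ[ZMod r] VV r k)) (by
        intro g w hw
        rw [Submodule.mem_comap] at hw ⊢
        have h2 := hW g _ hw
        rw [hlam] at h2
        simpa using h2) with h2 | h2
    · left
      rw [eq_bot_iff]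
      intro w hw
      have h3 : e.symm w ∈ W.comap (e : V →ₗ[ZMod r] VV r k) := by
        rw [Submodule.mem_comap]
        simpa using hw
      rw [h2, Submodule.mem_bot] at h3
      rw [Submodule.mem_bot]
      simpa using h3
    · right
      rw [eq_top_iff]
      intro w _
      have h3 : e.symm w ∈ W.comap (e : V →ₗ[ZMod r] VV r k) := by rw [h2]; exact Submodule.mem_top
      rw [Submodule.mem_comap] at h3
      simpa using h3

end GP48
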