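import Mathlib
import Pool.Agent.LibGP48.YDefs
import Pool.Agent.LibGP48.YAF1
import Pool.Agent.LibGP48.YAF2

/-!
# LibGP48 YAF (MEDIUM (assembly))

Γ = H (as a type), U = H'.subgroupOf H: IsCoatom from H' ⋖ H (Subgroup.map / subgroupOf order iso; a subgroup Z of H with U < Z corresponds to Z.map H.subtype between H' and H), U.index = H'.relIndex H, hsol: ds ⊤ e (in H) <= U (map_derivedSeries / ds_map with H.subtype: (ds ⊤ e).map = ds H e <= H').
M from YAF1, K = U.normalCore, ψ, lam from YAF2. K.relIndex M = U.index: M ⊓ U = K and M ⊔ U = ⊤ (Subgroup.relIndex_sup_... : U.index = U.relIndex ⊤ = (M ⊓ U).relIndex M because M normal, M ⊔ U = ⊤). For x : H choose m ∈ M, u ∈ U with x = m * u (M normal, M ⊔ U = ⊤: Subgroup.mul_normal / mem_sup);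
τ x := toAdd (ψ m); independent of the choice because m u = m' u' gives m'⁻¹ m ∈ M ⊓ U = K. lam u acts as lam x (lam m = 1: M/K abelian: ψ (m n m⁻¹) = ψ n and ψ surjective). τ (x y): x = m u, y = m' u', x y = m (u m' u⁻¹) u u'. τ x = 0 iff m ∈ K <= U iff x ∈ U.
trans: v = toAdd (ψ m), x = m (lam m = 1).
-/

namespace GP48

open Subgroup

/-- affine structure on the cosets of a maximal subgroup -/
theorem YAF {G : Type*} [Group G] (H' H : Subgroup G) (hcov : H' ⋖ H)
    (hfin : H'.relIndex H ≠ 0) (hsol : ∃ e, ds H e ≤ H') :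
    ∃ r k : ℕ, r.Prime ∧ 1 ≤ k ∧ H'.relIndex H = r ^ k ∧
      ∃ (lam : H →* GLV r k) (τ : H → VV r k), Aff H' H r k lam τ ∧ Irr lam := by
  obtain ⟨U, hU⟩ : ∃ U : Subgroup H, U = H'.subgroupOf H := ⟨_, rfl⟩
  have hle : H' ≤ H := hcov.1.le
  have hUmap : U.map H.subtype = H' := by
    rw [hU, Subgroup.map_subgroupOf_eq_of_le hle]
  have hUmem : ∀ x : H, x ∈ U ↔ (x : G) ∈ H' := by
    intro x
    rw [hU, Subgroup.mem_subgroupOf]
  have hinj : Function.Injective H.subtype := Subgroup.subtype_injective H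
  have hcoat : IsCoatom U := by
    refine ⟨?_, ?_⟩
    · rw [hU, Ne, Subgroup.subgroupOf_eq_top]
      exact not_le_of_gt hcov.1
    · intro Z hZ
      have h1 : H' ≤ Z.map H.subtype := by
        rw [← hUmap]
        exact Subgroup.map_mono hZ.le
      have h2 : H' ≠ Z.map H.subtype := by
        intro h
        rw [← hUmap] at h
        exact hZ.ne (Subgroup.map_injective hinj h)
      have h3 : Z.map H.subtype ≤ H := by
        rintro _ ⟨x, _, rfl⟩
        exact x.2
      have h4 : Z.map H.subtype = H := by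
        by_contra hne
        exact hcov.2 (lt_of_le_of_ne h1 h2) (lt_of_le_of_ne h3 hne)
      rw [eq_top_iff]
      intro x _
      have h5 : (x : G) ∈ Z.map H.subtype := by
        rw [h4]
        exact x.2
      obtain ⟨z, hz, hzx⟩ := h5
      have h6 : z = x := hinj hzx
      rw [← h6]
      exact hz
  have hidx : U.index = H'.relIndex H := by
    rw [hU]
    rfl
  have hUfin : U.index ≠ 0 := by
    rw [hidx]
    exact hfin
  have hsol' : ∃ e, ds (⊤ : Subgroup H) e ≤ U := by
    obtain ⟨e, he⟩ := hsol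
    refine ⟨e, fun x hx => (hUmem x).2 (he ?_)⟩
    have h1 : (ds (⊤ : Subgroup H) e).map H.subtype = ds H e := by
      rw [ds_map, ← MonoidHom.range_eq_map, Subgroup.range_subtype]
    rw [← h1]
    exact ⟨x, hx, rfl⟩
  obtain ⟨M, hch, hMU, hMU'⟩ := YAF1 U hcoat hUfin hsol'
  obtain ⟨r, k, hr, hk, hrel, ψ, lam, hsurj, hker, heq, hIrr⟩ := YAF2 hch
  have hMn : M.Normal := hch.nX
  -- the index
  have hindex : U.normalCore.relIndex M = U.index := by
    have : U.FiniteIndex := ⟨hUfin⟩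
    have hK : U.normalCore.index ≠ 0 := Subgroup.FiniteIndex.index_ne_zero
    have e1 := Subgroup.relIndex_mul_index hch.lt.le
    have e2 := Subgroup.relIndex_mul_index U.normalCore_le
    have e3 : U.normalCore.relIndex U = M.index := by
      rw [← hMU, Subgroup.inf_relIndex_right]
      have e4 := Subgroup.relIndex_sup_right U M
      rw [sup_comm, hMU', Subgroup.relIndex_top_right] at e4
      exact e4.symm
    have hMi : M.index ≠ 0 := by
      intro h0
      rw [h0, mul_zero] at e1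
      exact hK e1.symm
    rw [e3] at e2
    have e5 : M.index * U.index = M.index * U.normalCore.relIndex M := by
      rw [e2, ← e1, mul_comm]
    exact (Nat.eq_of_mul_eq_mul_left (Nat.pos_of_ne_zero hMi) e5).symm
  -- decomposition
  have hdec : ∀ x : H, ∃ m : M, (m : H)⁻¹ * x ∈ U := by
    intro x
    have h1 : x ∈ ((M ⊔ U : Subgroup H) : Set H) := by
      rw [hMU']
      trivial
    rw [Subgroup.normal_mul] at h1
    obtain ⟨m, hm, u, hu, hmu⟩ := Set.mem_mul.1 h1
    refine ⟨⟨m, hm⟩, ?_⟩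
    show m⁻¹ * x ∈ U
    rw [← hmu, inv_mul_cancel_left]
    exact hu
  choose f hf using hdec
  have uniq : ∀ (x : H) (m : M), (m : H)⁻¹ * x ∈ U → ψ m = ψ (f x) := by
    intro x m hm
    have h1 : (((f x)⁻¹ * m : M) : H) ∈ U := by
      have h2 : (((f x)⁻¹ * m : M) : H) = ((f x : H)⁻¹ * x) * ((m : H)⁻¹ * x)⁻¹ := by
        push_cast
        group
      rw [h2]
      exact U.mul_mem (hf x) (U.inv_mem hm)
    have h3 : (((f x)⁻¹ * m : M) : H) ∈ U.normalCore := by
      rw [← hMU]
      exact ⟨((f x)⁻¹ * m : M).2, h1⟩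
    have h4 := (hker _).2 h3
    rw [map_mul, map_inv, inv_mul_eq_one] at h4
    exact h4.symm
  have lam1 : ∀ m : M, lam (m : H) = 1 := by
    intro m
    apply LinearEquiv.ext
    intro v
    obtain ⟨n, hn⟩ := hsurj (Multiplicative.ofAdd v)
    have h1 := heq (m : H) n
    have h2 : (⟨(m : H) * n * (m : H)⁻¹, hch.nX.conj_mem n n.2 (m : H)⟩ : M) = m * n * m⁻¹ :=
      Subtype.ext rfl
    have h3 : ψ (m * n * m⁻¹) = ψ n := by
      rw [map_mul ψ, map_mul ψ, map_inv ψ, mul_comm (ψ m) (ψ n), mul_inv_cancel_right]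
    rw [h2, h3, hn] at h1
    exact h1.symm
  refine ⟨r, k, hr, hk, ?_, lam, fun x => Multiplicative.toAdd (ψ (f x)), ⟨hle, ?_, ?_, ?_⟩, hIrr⟩
  · rw [← hidx, ← hindex, hrel]
  · intro x y
    have hu : (f x : H)⁻¹ * x ∈ U := hf x
    have hc : (f x : H)⁻¹ * x * (f y : H) * ((f x : H)⁻¹ * x)⁻¹ ∈ M :=
      hMn.conj_mem (f y : H) (f y).2 ((f x : H)⁻¹ * x)
    have h1 : ((f x * ⟨_, hc⟩ : M) : H)⁻¹ * (x * y) ∈ U := by
      have h2 : ((f x * ⟨_, hc⟩ : M) : H)⁻¹ * (x * y) =
          ((f x : H)⁻¹ * x) * ((f y : H)⁻¹ * y) := by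
        push_cast
        group
      rw [h2]
      exact U.mul_mem hu (hf y)
    have h3 := uniq (x * y) _ h1
    have h4 := heq ((f x : H)⁻¹ * x) (f y)
    have h5 : lam ((f x : H)⁻¹ * x) = lam x := by
      rw [map_mul, map_inv, lam1, inv_one, one_mul]
    rw [h5] at h4
    show Multiplicative.toAdd (ψ (f (x * y))) = lam x (Multiplicative.toAdd (ψ (f y))) +
      Multiplicative.toAdd (ψ (f x))
    rw [← h3, map_mul ψ, toAdd_mul, ← h4, add_comm]
  · intro x
    show Multiplicative.toAdd (ψ (f x)) = 0 ↔ (x : G) ∈ H'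
    rw [toAdd_eq_zero, hker, ← hUmem, ← hMU]
    constructor
    · intro h
      have h1 := U.mul_mem h.2 (hf x)
      rwa [mul_inv_cancel_left] at h1
    · intro h
      refine ⟨(f x).2, ?_⟩
      have h1 := U.mul_mem h (U.inv_mem (hf x))
      have h2 : x * ((f x : H)⁻¹ * x)⁻¹ = (f x : H) := by group
      rwa [h2] at h1
  · intro v
    obtain ⟨m, hm⟩ := hsurj (Multiplicative.ofAdd v)
    refine ⟨(m : H), lam1 m, ?_⟩
    have h1 := uniq (m : H) m (by rw [inv_mul_cancel]; exact U.one_mem)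
    show Multiplicative.toAdd (ψ (f (m : H))) = v
    rw [← h1, hm]
    rfl

end GP48
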