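import Mathlib
import Pool.Agent.LibGP48.Defs

/-!
# LibGP48 G3 (SHORT)

In G/N the images of E commute pairwise, so the subgroup they generate is commutative (Subgroup.closure_induction twice,
or Subgroup.isMulCommutative_closure / centralizer argument), so all commutators of elements of T are in N.
-/

namespace GP48

open Subgroup

theorem G3 {G : Type*} [Group G] (T : Subgroup G) (E : Set G) (hE : T = closure E)
    (N : Subgroup G) [N.Normal] (h : ∀ a ∈ E, ∀ b ∈ E, a * b * a⁻¹ * b⁻¹ ∈ N) : ⁅T, T⁆ ≤ N := by
  have hc : ∀ x n : G, x * n * x⁻¹ * n⁻¹ ∈ N ↔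
      QuotientGroup.mk' N x * QuotientGroup.mk' N n = QuotientGroup.mk' N n * QuotientGroup.mk' N x := by
    intro x n
    have h1 : x * n * x⁻¹ * n⁻¹ ∈ N ↔ QuotientGroup.mk' N (x * n * x⁻¹ * n⁻¹) = 1 :=
      (QuotientGroup.eq_one_iff (N := N) _).symm
    rw [h1, map_mul, map_mul, map_mul, map_inv, map_inv, mul_inv_eq_one, mul_inv_eq_iff_eq_mul]
  have h1 : ∀ b ∈ E, ∀ a ∈ T,
      QuotientGroup.mk' N a * QuotientGroup.mk' N b = QuotientGroup.mk' N b * QuotientGroup.mk' N a := by
    intro b hb
    have : T ≤ (centralizer ({QuotientGroup.mk' N b} : Set (G ⧸ N))).comap (QuotientGroup.mk' N) := by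
      rw [hE, closure_le]
      intro a ha
      rw [SetLike.mem_coe, mem_comap, mem_centralizer_iff]
      intro y hy
      rw [Set.mem_singleton_iff] at hy
      rw [hy]
      exact ((hc a b).1 (h a ha b hb)).symm
    intro a ha
    have h2 := this ha
    rw [mem_comap, mem_centralizer_iff] at h2
    exact (h2 _ (Set.mem_singleton _)).symm
  have h2 : ∀ a ∈ T, ∀ b ∈ T,
      QuotientGroup.mk' N a * QuotientGroup.mk' N b = QuotientGroup.mk' N b * QuotientGroup.mk' N a := by
    intro a ha
    have : T ≤ (centralizer ({QuotientGroup.mk' N a} : Set (G ⧸ N))).comap (QuotientGroup.mk' N) := by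
      conv_lhs => rw [hE]
      rw [closure_le]
      intro b hb
      rw [SetLike.mem_coe, mem_comap, mem_centralizer_iff]
      intro y hy
      rw [Set.mem_singleton_iff] at hy
      rw [hy]
      exact h1 b hb a ha
    intro b hb
    have h2 := this hb
    rw [mem_comap, mem_centralizer_iff] at h2
    exact h2 _ (Set.mem_singleton _)
  rw [commutator_le]
  intro a ha b hb
  rw [commutatorElement_def, hc]
  exact h2 a ha b hb

end GP48
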