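import Mathlib
import Pool.Agent.LibGP48.YDefs
import Pool.Agent.LibGP48.G3

/-!
# LibGP48 YE0 (SHORT/MEDIUM)

E = {x*y*x⁻¹*y⁻¹ : x, y in X n wball S ⌊b⌋₊} ⊆ wball S (4 * (⌊b⌋₊ + 0)) (wball_mul, wball_inv). N := normalClosure E. G3 (T = X, its E = X n wball S ⌊b⌋₊, hX.gen): ⁅X,X⁆ <= N. E ⊆ ⁅X,X⁆ (commutator_mem_commutator).
hc with T = ⁅X,X⁆ (normal: hX.nor, Subgroup.commutator_normal), c = 4, R = 0. Second: powers, E = {x^j}, CostE.ncl; length of x^j at most j*(⌊b⌋₊+R) (induction, wball_mul).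
Third: cm2 x y has length <= 8 M. Fourth: w30: s = (y x y⁻¹ x⁻¹)^2, s' = (x z x⁻¹ z⁻¹)^2; s s' = y x y⁻¹ x⁻¹ y x y⁻¹ z x⁻¹ z⁻¹ x z x⁻¹ z⁻¹ (14 letters: x⁻¹ x cancels), s⁻¹ 8 letters, s'⁻¹ 8 letters
(rewrite w30 x y z as such a product (group) and use wball_mul 29 times, or write it as ofList).
-/

namespace GP48

open Subgroup

private lemma YE0_pow {G : Type*} [Group G] {S : Set G} {m : ℕ} {x : G} (hx : x ∈ wball S m)
    (j : ℕ) : x ^ j ∈ wball S (j * m) := by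
  induction j with
  | zero =>
    rw [pow_zero]
    exact wball_one S _
  | succ j ih =>
    rw [pow_succ, Nat.succ_mul]
    exact wball_mul ih hx

private lemma YE0_comm {G : Type*} [Group G] {S : Set G} {m : ℕ} {x y : G} (hx : x ∈ wball S m)
    (hy : y ∈ wball S m) : x * y * x⁻¹ * y⁻¹ ∈ wball S (4 * m) :=
  wball_mono S (by omega)
    (wball_mul (wball_mul (wball_mul hx hy) (wball_inv hx)) (wball_inv hy))

/-- cost of the commutator subgroup -/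
theorem YE0 {G : Type*} [Group G] {S : Set G} {κ : ℝ} {c1 : ℕ} (hc : CostE S κ c1) (b : ℝ)
    (hb : (c1 : ℝ) ≤ b) (X : Subgroup G) (hX : Rch S X ⌊b⌋₊) :
    Rch S ⁅X, X⁆ ⌊(4 : ℝ) ^ κ * b⌋₊ := by
  have hnX := hX.nor
  have hn : (⁅X, X⁆ : Subgroup G).Normal := Subgroup.commutator_normal _ _
  set E : Set G := {q | ∃ x ∈ (X : Set G) ∩ wball S ⌊b⌋₊, ∃ y ∈ (X : Set G) ∩ wball S ⌊b⌋₊,
    q = x * y * x⁻¹ * y⁻¹} with hE
  have h1 : E ⊆ ((⁅X, X⁆ : Subgroup G) : Set G) ∩ wball S (4 * (⌊b⌋₊ + 0)) := by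
    rintro q ⟨x, hx, y, hy, rfl⟩
    refine ⟨?_, YE0_comm hx.2 hy.2⟩
    rw [← commutatorElement_def]
    exact Subgroup.commutator_mem_commutator hx.1 hy.1
  have h2 : ⁅X, X⁆ ≤ normalClosure E := by
    refine G3 X ((X : Set G) ∩ wball S ⌊b⌋₊) hX.gen (normalClosure E) ?_
    intro x hx y hy
    exact subset_normalClosure ⟨x, hx, y, hy, rfl⟩
  have h3 := hc ⁅X, X⁆ E 4 0 b hn (by norm_num) (by simpa using hb) h1 h2
  simpa using h3

/-- cost of the normal closure of powers -/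
theorem YE0p {G : Type*} [Group G] {S : Set G} {κ : ℝ} {c1 : ℕ} (hc : CostE S κ c1) (b : ℝ)
    (j R : ℕ) (hj : 2 ≤ j) (hb : (c1 : ℝ) * ((R : ℝ) + 1) ≤ b) (X : Subgroup G) :
    Rch S (normalClosure {q | ∃ x ∈ (X : Set G) ∩ wball S (⌊b⌋₊ + R), q = x ^ j})
      ⌊((j : ℕ) : ℝ) ^ κ * b⌋₊ := by
  refine hc.ncl _ j R b hj hb ?_
  rintro q ⟨x, hx, rfl⟩
  exact YE0_pow hx.2 j

theorem YE0c {G : Type*} [Group G] {S : Set G} {M : ℕ} {x y : G} (hx : x ∈ wball S M)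
    (hy : y ∈ wball S M) : cm2 x y ∈ wball S (8 * M) := by
  have h := YE0_pow (YE0_comm hx hy) 2
  rw [← Nat.mul_assoc] at h
  exact h

theorem YE0w {G : Type*} [Group G] {S : Set G} {M : ℕ} {x y z : G} (hx : x ∈ wball S M)
    (hy : y ∈ wball S M) (hz : z ∈ wball S M) : w30 x y z ∈ wball S (30 * M) := by
  have hxi := wball_inv hx
  have hyi := wball_inv hy
  have hzi := wball_inv hz
  have e : cm2 y x * cm2 x z =
      y * x * y⁻¹ * x⁻¹ * y * x * y⁻¹ * z * x⁻¹ * z⁻¹ * x * z * x⁻¹ * z⁻¹ := by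
    simp only [cm2, pow_two]
    group
  have h1 : cm2 y x * cm2 x z ∈ wball S (14 * M) := by
    rw [e]
    refine wball_mono S (by omega : M + M + M + M + M + M + M + M + M + M + M + M + M + M ≤
      14 * M) ?_
    exact wball_mul (wball_mul (wball_mul (wball_mul (wball_mul (wball_mul (wball_mul (wball_mul
      (wball_mul (wball_mul (wball_mul (wball_mul (wball_mul hy hx) hyi) hxi) hy) hx) hyi) hz)
      hxi) hzi) hx) hz) hxi) hzi
  have h2 := wball_mul (wball_mul h1 (wball_inv (YE0c hy hx))) (wball_inv (YE0c hx hz))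
  exact wball_mono S (by omega) h2

end GP48
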