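import Mathlib
import Pool.Agent.LibGP48.YDefs

/-!
# LibGP48 YPM (SHORT/MEDIUM (ONLY YDefs))

H acts on H ⧸ (H'.subgroupOf H), which has n elements (H'.relIndex H = (H'.subgroupOf H).index = n ≥ 1, so finite); e : H ⧸ .. ≃ Fin n (Finite.equivFinOfCardEq); π = (Equiv.Perm congruence by e) ∘ MulAction.toPermHom.
If π x = 1, x fixes the class of 1, so x ∈ H'. If x ∈ C, C normal in G, C <= H' : x h H' = h (h⁻¹ x h) H' = h H' for h ∈ H, so π x = 1. ev_mem.
-/

namespace GP48

open Subgroup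

/-- the permutation representation on `H / H'` -/
theorem YPM {G : Type*} [Group G] (H' H : Subgroup G) (hle : H' ≤ H) (n : ℕ) (hn : 1 ≤ n)
    (hrel : H'.relIndex H = n) : ∃ π : H →* Equiv.Perm (Fin n),
      (∀ x ∈ H, ev π x = 1 → x ∈ H') ∧
        ∀ C : Subgroup G, C.Normal → C ≤ H' → ∀ x ∈ C, ev π x = 1 := by
  classical
  have hcard : Nat.card (H ⧸ H'.subgroupOf H) = n := hrel
  have hfin : Finite (H ⧸ H'.subgroupOf H) := Nat.finite_of_card_ne_zero (by omega)
  let e : (H ⧸ H'.subgroupOf H) ≃ Fin n := Finite.equivFinOfCardEq hcard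
  let ρ : H →* Equiv.Perm (H ⧸ H'.subgroupOf H) :=
    MulAction.toPermHom H (H ⧸ H'.subgroupOf H)
  let π : H →* Equiv.Perm (Fin n) := (e.permCongrHom).toMonoidHom.comp ρ
  have key : ∀ x : H, π x = 1 ↔ ∀ q : H ⧸ H'.subgroupOf H, x • q = q := by
    intro x
    have h0 : π x = e.permCongrHom (ρ x) := rfl
    rw [h0, MulEquiv.map_eq_one_iff]
    constructor
    · intro h q
      exact congrArg (fun f : Equiv.Perm (H ⧸ H'.subgroupOf H) => f q) h
    · intro h
      exact Equiv.ext h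
  refine ⟨π, ?_, ?_⟩
  · intro x hx h
    rw [ev_mem π hx, key] at h
    have h1 := h ((1 : H) : H ⧸ H'.subgroupOf H)
    rw [MulAction.Quotient.smul_coe, smul_eq_mul, mul_one, eq_comm, QuotientGroup.eq] at h1
    rw [Subgroup.mem_subgroupOf] at h1
    simpa using h1
  · intro C hC hCH x hx
    have hxH : x ∈ H := hle (hCH hx)
    rw [ev_mem π hxH, key]
    intro q
    induction q using QuotientGroup.induction_on with
    | H h =>
      rw [MulAction.Quotient.smul_coe, smul_eq_mul, eq_comm, QuotientGroup.eq,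
        Subgroup.mem_subgroupOf]
      have h1 := hC.conj_mem x hx (h : G)⁻¹
      rw [inv_inv] at h1
      have h2 := hCH h1
      have e1 : ((h⁻¹ * (⟨x, hxH⟩ * h) : H) : G) = (h : G)⁻¹ * x * h := by
        simp [mul_assoc]
      rw [e1]
      exact h2

/-- consequences for normal subgroups -/
theorem YPM' {G : Type*} [Group G] {H' H : Subgroup G} {n : ℕ} (π : H →* Equiv.Perm (Fin n))
    (h1 : ∀ x ∈ H, ev π x = 1 → x ∈ H')
    (h2 : ∀ C : Subgroup G, C.Normal → C ≤ H' → ∀ x ∈ C, ev π x = 1) (hle : H' ≤ H) :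
    pre π ⊥ ≤ H'.normalCore ∧ ∀ C : Subgroup G, C.Normal → C ≤ H' → C ≤ pre π ⊥ := by
  refine ⟨?_, ?_⟩
  · intro x hx b
    have h3 := hx.2 b⁻¹
    have h4 := core_conj hx.1 b⁻¹
    rw [inv_inv] at h3 h4
    exact h1 _ h4 (Subgroup.mem_bot.1 h3)
  · intro C hC hCH
    have h3 : C ≤ H.normalCore := by
      intro x hx b
      exact hle (hCH (hC.conj_mem x hx b))
    exact le_pre π hC h3 (fun x hx => Subgroup.mem_bot.2 (h2 C hC hCH x hx))

end GP48
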