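import Mathlib
import Pool.Agent.LibGP48.YDefs

/-!
# LibGP48 YS43 (MEDIUM (ONLY YDefs))

S_4 → S_3: action on the three partitions of Fin 4 into pairs: f σ i. E.g. code the partition {0,i+1 | rest} by i : Fin 3; for σ : Perm (Fin 4), the partition i is mapped to the partition j such that the partner of σ 0 in σ(partition i) ...: p σ i := the index j with {σ 0, σ (i+1)} equal to {0, j+1}
or to its complement. (Any definition that can be checked by decide is fine, e.g. j+1 = σ0 ^^^ σ(i+1) with xor of 2-bit numbers: partner difference: for two elements a, b of Fin 4 = F_2^2 the partition containing {a,b} is a xor b ≠ 0. So f σ (d) = σ 0 xor σ d is only affine-linear: in S_4 = AGL_2(2)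
every permutation of Fin 4 = F_2^2 is affine, σ a xor σ b depends only on a xor b.) Kernel = V_4, commutative: decide over Equiv.Perm (Fin 4) (576 pairs) or via the description of the kernel. Second theorem: a proper subgroup of Perm (Fin 3) is commutative (order 1, 2 or 3: Lagrange, card divides 6; groups of prime order are cyclic; or decide).
Third: image of X under ev π at 1 is a subgroup P (X <= core H <= H); P = ⊤ or commutative; if commutative then X <= pre π P (le_pre) and pre_comm_bot.
-/

namespace GP48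

open Subgroup

/-- the action on the three partitions into pairs -/
private def YS43_p (σ : Equiv.Perm (Fin 4)) (i : Fin 3) : Fin 3 :=
  Fin.ofNat 3 (((σ 0).val ^^^ (σ i.succ).val) - 1)

private theorem YS43_mul : ∀ σ τ : Equiv.Perm (Fin 4), ∀ i, YS43_p (σ * τ) i = YS43_p σ (YS43_p τ i) := by
  decide +kernel

private theorem YS43_one : ∀ i, YS43_p 1 i = i := by
  decide +kernel

private theorem YS43_comm : ∀ x y : Equiv.Perm (Fin 4), (∀ i, YS43_p x i = i) → (∀ i, YS43_p y i = i) →
    x * y = y * x := by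
  decide +kernel

theorem YS43 : ∃ f : Equiv.Perm (Fin 4) →* Equiv.Perm (Fin 3),
    ∀ x y, f x = 1 → f y = 1 → x * y = y * x := by
  refine ⟨{ toFun := fun σ => ⟨YS43_p σ, YS43_p σ⁻¹, fun i => ?_, fun i => ?_⟩
            map_one' := ?_
            map_mul' := ?_ }, ?_⟩
  · rw [← YS43_mul, inv_mul_cancel, YS43_one]
  · rw [← YS43_mul, mul_inv_cancel, YS43_one]
  · ext i : 1
    exact YS43_one i
  · intro σ τ
    ext i : 1
    exact YS43_mul σ τ i
  · intro x y hx hy
    exact YS43_comm x y (fun i => Equiv.ext_iff.1 hx i) (fun i => Equiv.ext_iff.1 hy i)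

private theorem YS3p_all : ∀ x y z : Equiv.Perm (Fin 3), x * y ≠ y * x →
    z = 1 ∨ z = x ∨ z = y ∨ z = x * y ∨ z = y * x ∨ z = x * y * x ∨ z = x * x ∨ z = y * y := by
  decide +kernel

theorem YS3p (P : Subgroup (Equiv.Perm (Fin 3))) (h : P ≠ ⊤) :
    ∀ x ∈ P, ∀ y ∈ P, x * y = y * x := by
  intro x hx y hy
  by_contra hxy
  apply h
  rw [eq_top_iff]
  intro z _
  rcases YS3p_all x y z hxy with h1 | h1 | h1 | h1 | h1 | h1 | h1 | h1 <;> rw [h1]
  · exact P.one_mem
  · exact hx
  · exact hy
  · exact P.mul_mem hx hy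
  · exact P.mul_mem hy hx
  · exact P.mul_mem (P.mul_mem hx hy) hx
  · exact P.mul_mem hx hx
  · exact P.mul_mem hy hy

/-- dichotomy -/
theorem YDI {G : Type*} [Group G] {H : Subgroup G} (π : H →* Equiv.Perm (Fin 3))
    (X : Subgroup G) (hX : X.Normal) (hXH : X ≤ H.normalCore) :
    (∀ σ : Equiv.Perm (Fin 3), ∃ x ∈ X, ev π x = σ) ∨ ⁅X, X⁆ ≤ pre π ⊥ := by
  by_cases hP : (X.subgroupOf H).map π = ⊤
  · left
    intro σ
    have h1 : σ ∈ (X.subgroupOf H).map π := by rw [hP]; exact mem_top σ
    obtain ⟨x, hx, hxσ⟩ := Subgroup.mem_map.1 h1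
    exact ⟨x, Subgroup.mem_subgroupOf.1 hx, by rw [ev_coe]; exact hxσ⟩
  · right
    refine pre_comm_bot π (YS3p _ hP) (le_pre π hX hXH ?_)
    intro x hx
    have hxH : x ∈ H := core_mem (hXH hx)
    rw [ev_mem π hxH]
    exact Subgroup.mem_map_of_mem π (Subgroup.mem_subgroupOf.2 hx)

end GP48
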