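import Mathlib
import Pool.Agent.LibGP48.XDefs

/-!
# LibGP48 W0 (MEDIUM)

A = Additive (T ⧸ U.subgroupOf T): U.subgroupOf T is normal in T and contains the commutators of T, so the quotient is commutative (build the CommGroup structure: mul_comm from hab; QuotientGroup.mk' surjective).
ψ = toMultiplicative/ofAdd version of QuotientGroup.mk'. ρ g = conjugation by g: T ≃* T (MulAut.conjNormal g), it maps U.subgroupOf T to itself, so it induces an automorphism of the quotient (QuotientGroup.congr); additive automorphism, so ℤ-linear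
(AddEquiv.toIntLinearEquiv). Second claim: the images of the elements of F n T ... careful: F need not lie in T? T = closure F ⊔ U implies F ⊆ T. A is spanned by the ψ-images of F (an element of closure F ⊔ U is a product c*u with c in closure F because U is normal).
Third claim: a = toAdd (ψ t), n • a = 0 gives t^n in U (natAbs).
-/

namespace GP48

open Subgroup

theorem W0 {G : Type} [Group G] (T U : Subgroup G) (hT : T.Normal) (hU : U.Normal)
    (hab : ⁅T, T⁆ ≤ U) : ∃ (A : Type) (_ : AddCommGroup A), Nonempty (Lay T U A) := by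
  have _ := hT
  have _ := hU
  have hcomm : ∀ x y : T ⧸ (U.subgroupOf T), x * y = y * x := by
    intro x y
    obtain ⟨a, rfl⟩ := QuotientGroup.mk_surjective x
    obtain ⟨b, rfl⟩ := QuotientGroup.mk_surjective y
    rw [← QuotientGroup.mk_mul, ← QuotientGroup.mk_mul]
    apply QuotientGroup.eq.mpr
    rw [mem_subgroupOf]
    apply hab
    have h1 := Subgroup.commutator_mem_commutator (H₁ := T) (H₂ := T) (T.inv_mem b.2) (T.inv_mem a.2)
    rw [commutatorElement_def] at h1
    have h2 : (b : G)⁻¹ * (a : G)⁻¹ * ((b : G)⁻¹)⁻¹ * ((a : G)⁻¹)⁻¹ = (((a * b)⁻¹ * (b * a) : T) : G) := by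
      push_cast
      group
    rw [← h2]
    exact h1
  let cg : CommGroup (T ⧸ (U.subgroupOf T)) :=
    { (inferInstance : Group (T ⧸ (U.subgroupOf T))) with mul_comm := hcomm }
  have hmap : ∀ g : G, (U.subgroupOf T).map ((MulAut.conjNormal g : MulAut T) : T →* T) = U.subgroupOf T := by
    have key : ∀ g : G, ∀ t : T, t ∈ U.subgroupOf T → (MulAut.conjNormal g : MulAut T) t ∈ U.subgroupOf T := by
      intro g t ht
      rw [mem_subgroupOf] at ht ⊢
      rw [MulAut.conjNormal_apply]
      exact hU.conj_mem _ ht g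
    intro g
    apply le_antisymm
    · rintro _ ⟨t, ht, rfl⟩
      exact key g t ht
    · intro t ht
      refine ⟨(MulAut.conjNormal g⁻¹ : MulAut T) t, key _ _ ht, ?_⟩
      show (MulAut.conjNormal g : MulAut T) ((MulAut.conjNormal g⁻¹ : MulAut T) t) = t
      apply Subtype.ext
      rw [MulAut.conjNormal_apply, MulAut.conjNormal_apply]
      group
  refine ⟨Additive (T ⧸ (U.subgroupOf T)), inferInstance, ⟨?_⟩⟩
  refine
    { nor := hT
      ψ :=
        { toFun := fun t => Multiplicative.ofAdd (Additive.ofMul (QuotientGroup.mk t : T ⧸ (U.subgroupOf T)))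
          map_one' := rfl
          map_mul' := fun _ _ => rfl }
      ρ :=
        { toFun := fun g => (MulEquiv.toAdditive (QuotientGroup.congr (U.subgroupOf T) (U.subgroupOf T)
            (MulAut.conjNormal g : MulAut T) (hmap g))).toIntLinearEquiv
          map_one' := ?_
          map_mul' := ?_ }
      sur := ?_
      ker := ?_
      eqv := ?_ }
  · apply LinearEquiv.ext
    intro x
    obtain ⟨t, ht⟩ := QuotientGroup.mk_surjective (Additive.toMul x)
    have hx : x = Additive.ofMul (QuotientGroup.mk t : T ⧸ (U.subgroupOf T)) := congrArg Additive.ofMul ht.symm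
    rw [hx]
    show Additive.ofMul (QuotientGroup.mk ((MulAut.conjNormal (1 : G) : MulAut T) t) : T ⧸ (U.subgroupOf T)) =
      Additive.ofMul (QuotientGroup.mk t : T ⧸ (U.subgroupOf T))
    rw [map_one]
    rfl
  · intro g h
    apply LinearEquiv.ext
    intro x
    obtain ⟨t, ht⟩ := QuotientGroup.mk_surjective (Additive.toMul x)
    have hx : x = Additive.ofMul (QuotientGroup.mk t : T ⧸ (U.subgroupOf T)) := congrArg Additive.ofMul ht.symm
    rw [hx]
    show Additive.ofMul (QuotientGroup.mk ((MulAut.conjNormal (g * h) : MulAut T) t) : T ⧸ (U.subgroupOf T)) =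
      Additive.ofMul (QuotientGroup.mk ((MulAut.conjNormal g : MulAut T) ((MulAut.conjNormal h : MulAut T) t)) :
        T ⧸ (U.subgroupOf T))
    rw [map_mul]
    rfl
  · intro x
    obtain ⟨t, ht⟩ := QuotientGroup.mk_surjective (Additive.toMul (Multiplicative.toAdd x))
    exact ⟨t, congrArg (fun z => Multiplicative.ofAdd (Additive.ofMul z)) ht⟩
  · intro t
    rw [← mem_subgroupOf, ← QuotientGroup.eq_one_iff]
    rfl
  · intro g t
    show Additive.ofMul (QuotientGroup.mk _ : T ⧸ (U.subgroupOf T)) = Additive.ofMul (QuotientGroup.mk _ : T ⧸ (U.subgroupOf T))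
    congr 2

theorem W0a {G : Type} [Group G] (T U : Subgroup G) (hU : U.Normal) {A : Type} [AddCommGroup A]
    (L : Lay T U A) (F : Finset G) (hF : T = closure (F : Set G) ⊔ U) : Module.Finite ℤ A := by
  classical
  have hFT : ∀ f ∈ F, f ∈ T := by
    intro f hf
    rw [hF]
    exact mem_sup_left (subset_closure hf)
  have hUT : U ≤ T := by
    rw [hF]
    exact le_sup_right
  let s : Finset A := F.attach.image fun f => Multiplicative.toAdd (L.ψ ⟨f.1, hFT f.1 f.2⟩)
  let P : Submodule ℤ A := Submodule.span ℤ (s : Set A)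
  let K : Subgroup T :=
    { carrier := {t | Multiplicative.toAdd (L.ψ t) ∈ P}
      mul_mem' := by
        intro a b ha hb
        show Multiplicative.toAdd (L.ψ (a * b)) ∈ P
        rw [map_mul, toAdd_mul]
        exact P.add_mem ha hb
      one_mem' := by
        show Multiplicative.toAdd (L.ψ 1) ∈ P
        rw [map_one, toAdd_one]
        exact P.zero_mem
      inv_mem' := by
        intro a ha
        show Multiplicative.toAdd (L.ψ a⁻¹) ∈ P
        rw [map_inv, toAdd_inv]
        exact P.neg_mem ha }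
  have hTK : T ≤ K.map T.subtype := by
    conv_lhs => rw [hF]
    apply sup_le
    · rw [closure_le]
      intro f hf
      refine ⟨⟨f, hFT f hf⟩, ?_, rfl⟩
      show Multiplicative.toAdd (L.ψ ⟨f, hFT f hf⟩) ∈ P
      apply Submodule.subset_span
      exact Finset.mem_coe.mpr (Finset.mem_image.mpr ⟨⟨f, hf⟩, Finset.mem_attach _ _, rfl⟩)
    · intro u hu
      refine ⟨⟨u, hUT hu⟩, ?_, rfl⟩
      show Multiplicative.toAdd (L.ψ ⟨u, hUT hu⟩) ∈ P
      rw [(L.ker ⟨u, hUT hu⟩).mpr hu, toAdd_one]
      exact P.zero_mem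
  refine ⟨⟨s, ?_⟩⟩
  rw [eq_top_iff]
  intro a _
  obtain ⟨t, ht⟩ := L.sur (Multiplicative.ofAdd a)
  obtain ⟨t', ht', he⟩ := hTK t.2
  have h1 : t' = t := Subtype.ext he
  rw [h1] at ht'
  have h2 : Multiplicative.toAdd (L.ψ t) ∈ P := ht'
  rw [ht, toAdd_ofAdd] at h2
  exact h2

theorem W0b {G : Type} [Group G] (T U : Subgroup G) {A : Type} [AddCommGroup A] (L : Lay T U A)
    (htf : ∀ x ∈ T, ∀ n : ℕ, 1 ≤ n → x ^ n ∈ U → x ∈ U) (n : ℤ) (hn : n ≠ 0) (a : A)
    (ha : n • a = 0) : a = 0 := by
  obtain ⟨t, ht⟩ := L.sur (Multiplicative.ofAdd a)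
  have h0 : (n.natAbs : ℤ) • a = 0 := by
    rcases Int.natAbs_eq n with h | h
    · rw [← h]
      exact ha
    · have h' : (n.natAbs : ℤ) = -n := by omega
      rw [h', neg_smul, ha, neg_zero]
  rw [natCast_zsmul] at h0
  have h1 : L.ψ (t ^ n.natAbs) = 1 := by
    rw [map_pow, ht, ← ofAdd_nsmul, h0, ofAdd_zero]
  have h2 := (L.ker _).mp h1
  have h3 := htf t t.2 n.natAbs (Int.natAbs_pos.mpr hn) h2
  have h4 := (L.ker t).mpr h3
  rw [ht] at h4
  exact ofAdd_eq_one.mp h4

end GP48
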