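import Mathlib
import Pool.Agent.LibGP48.YDefs

/-!
# LibGP48 YQL (MEDIUM (algebra, ONLY YDefs))

Work in Module.End ℤ A or with the ring of additive endomorphisms; write j, a for ρ j, ρ a, 3 = 0. (1) For j, j' in J: j^2 = j'^2 = (j j')^2 = 1, so j j' = j' j (J acts by commuting involutions).
(2) a ∈ I: N = a - 1, N^2 = 0 (hq), so a⁻¹ = 1 - N and a^3 = 1 + 3N = 1. j ∈ J: J is normal, so j commutes with a⁻¹ j a = (1-N) j (1+N) and with a j a⁻¹ = (1+N) j (1-N). With j^2 = 1 these give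
N - jNj - jNjN = jNj - N - NjNj and -N + jNj - jNjN = -jNj + N - NjNj; subtract: 4 N = 4 jNj, so N = jNj (3 = 0), i.e. j a = a j.
(3) So the set of w with ρ w commuting with ρ J contains I, is a subgroup: all of W. (4) a, b ∈ I: c = a b a⁻¹ b⁻¹ ∈ J, ρ c commutes with everything, c^2 = 1. a b a⁻¹ = c b, so a^3 b a^-3 = c^3 b; a^3 = 1 gives c^3 = 1, so c = 1.
(5) the images of the generators commute, so ρ(W) is commutative (closure_induction twice).
-/

namespace GP48

open Subgroup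

private lemma YQL_comm {W E : Type*} [Group W] [Ring E] (φ : W →* E) (I : Set W)
    (hI : closure I = ⊤) (x : E) (h : ∀ a ∈ I, φ a * x = x * φ a) (w : W) :
    φ w * x = x * φ w := by
  have hw : w ∈ closure I := by
    rw [hI]
    exact mem_top w
  induction hw using Subgroup.closure_induction with
  | mem a ha => exact h a ha
  | one => rw [map_one, one_mul, mul_one]
  | mul a b _ _ iha ihb => rw [map_mul, mul_assoc, ihb, ← mul_assoc, iha, mul_assoc]
  | inv a _ iha =>
    have h1 : φ a⁻¹ * φ a = 1 := by rw [← map_mul, inv_mul_cancel, map_one]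
    have h2 : φ a * φ a⁻¹ = 1 := by rw [← map_mul, mul_inv_cancel, map_one]
    calc φ a⁻¹ * x = φ a⁻¹ * x * (φ a * φ a⁻¹) := by rw [h2, mul_one]
      _ = φ a⁻¹ * (x * φ a) * φ a⁻¹ := by noncomm_ring
      _ = φ a⁻¹ * (φ a * x) * φ a⁻¹ := by rw [iha]
      _ = (φ a⁻¹ * φ a) * x * φ a⁻¹ := by noncomm_ring
      _ = x * φ a⁻¹ := by rw [h1, one_mul]

private lemma YQL_invol {E : Type*} [Ring E] {j k : E} (hj : j * j = 1) (hk : k * k = 1)
    (hjk : (j * k) * (j * k) = 1) : j * k = k * j := by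
  calc j * k = j * k * ((j * k) * (j * k)) * 1 := by rw [hjk, mul_one, mul_one]
    _ = j * k * ((j * k) * (j * k)) * (k * k) := by rw [hk]
    _ = (j * k) * (j * k) * (j * (k * k) * k) := by noncomm_ring
    _ = j * k := by rw [hjk, hk, mul_one, one_mul]
    _ = k * j := by
      have e : k * j * ((j * k) * (j * k)) = k * (j * j) * k * (j * k) := by noncomm_ring
      rw [hjk, hj, mul_one, mul_one, hk, one_mul] at e
      exact e.symm

private lemma YQL_key {E : Type*} [Ring E] (h3 : (3 : E) = 0) {j N : E} (hj : j * j = 1)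
    (h1 : j * ((1 - N) * j * (1 + N)) = (1 - N) * j * (1 + N) * j)
    (h2 : j * ((1 + N) * j * (1 - N)) = (1 + N) * j * (1 - N) * j) : j * N = N * j := by
  have e1 : j * ((1 - N) * j * (1 + N)) = j * j + j * j * N - j * N * j - j * N * j * N := by
    noncomm_ring
  have e2 : (1 - N) * j * (1 + N) * j = j * j + j * N * j - N * (j * j) - N * j * N * j := by
    noncomm_ring
  have e3 : j * ((1 + N) * j * (1 - N)) = j * j - j * j * N + j * N * j - j * N * j * N := by
    noncomm_ring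
  have e4 : (1 + N) * j * (1 - N) * j = j * j - j * N * j + N * (j * j) - N * j * N * j := by
    noncomm_ring
  rw [e1, e2, hj, one_mul, mul_one] at h1
  rw [e3, e4, hj, one_mul, mul_one] at h2
  have h4 : N - j * N * j = 0 := by
    have h5 : (3 : E) * (N - j * N * j) = 0 := by rw [h3, zero_mul]
    have h6 : (4 : E) * (N - j * N * j) =
        ((1 + N - j * N * j - j * N * j * N) - (1 + j * N * j - N - N * j * N * j)) -
        ((1 - N + j * N * j - j * N * j * N) - (1 - j * N * j + N - N * j * N * j)) := by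
      noncomm_ring
    rw [h1, h2, sub_self, sub_self, sub_zero] at h6
    have h7 : N - j * N * j = (4 : E) * (N - j * N * j) - (3 : E) * (N - j * N * j) := by
      noncomm_ring
    rw [h7, h6, h5, sub_zero]
  have h8 : N = j * N * j := sub_eq_zero.mp h4
  calc j * N = j * (j * N * j) := by rw [← h8]
    _ = (j * j) * N * j := by noncomm_ring
    _ = N * j := by rw [hj, one_mul]

private lemma YQL_main {W E : Type*} [Group W] [Ring E] (h3 : (3 : E) = 0) (φ : W →* E)
    (I : Set W) (hI : closure I = ⊤) (J : Subgroup W) (hJ : J.Normal)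
    (hJc : ⁅(⊤ : Subgroup W), (⊤ : Subgroup W)⁆ ≤ J) (hJ2 : ∀ j ∈ J, φ j * φ j = 1)
    (hq : ∀ a ∈ I, (φ a - 1) * (φ a - 1) = 0) (a b : W) : φ a * φ b = φ b * φ a := by
  have hJJ : ∀ j ∈ J, ∀ k ∈ J, φ j * φ k = φ k * φ j := by
    intro j hj k hk
    refine YQL_invol (hJ2 j hj) (hJ2 k hk) ?_
    rw [← map_mul]
    exact hJ2 _ (J.mul_mem hj hk)
  have hinv : ∀ a ∈ I, φ a⁻¹ = 1 - (φ a - 1) := by
    intro a ha
    have h1 : φ a⁻¹ * φ a = 1 := by rw [← map_mul, inv_mul_cancel, map_one]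
    have h2 : φ a * (1 - (φ a - 1)) = 1 := by
      have : φ a * (1 - (φ a - 1)) = 1 - (φ a - 1) * (φ a - 1) := by noncomm_ring
      rw [this, hq a ha, sub_zero]
    calc φ a⁻¹ = φ a⁻¹ * (φ a * (1 - (φ a - 1))) := by rw [h2, mul_one]
      _ = (φ a⁻¹ * φ a) * (1 - (φ a - 1)) := by noncomm_ring
      _ = 1 - (φ a - 1) := by rw [h1, one_mul]
  have hIJ : ∀ j ∈ J, ∀ a ∈ I, φ a * φ j = φ j * φ a := by
    intro j hj a ha
    have ea : φ a = 1 + (φ a - 1) := by noncomm_ring
    have k1 : a⁻¹ * j * a ∈ J := by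
      have := hJ.conj_mem j hj a⁻¹
      rwa [inv_inv] at this
    have k2 : a * j * a⁻¹ ∈ J := hJ.conj_mem j hj a
    have h1 := hJJ j hj _ k1
    have h2 := hJJ j hj _ k2
    rw [map_mul, map_mul, hinv a ha] at h1 h2
    have h4 : φ j * (φ a - 1) = (φ a - 1) * φ j := by
      refine YQL_key h3 (hJ2 j hj) ?_ ?_
      · rw [← ea]
        exact h1
      · rw [← ea]
        exact h2
    rw [mul_sub, sub_mul, mul_one, one_mul] at h4
    have h5 := sub_left_inj.mp h4
    exact h5.symm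
  have hcen : ∀ j ∈ J, ∀ w, φ w * φ j = φ j * φ w := fun j hj w =>
    YQL_comm φ I hI (φ j) (fun a ha => hIJ j hj a ha) w
  have hII : ∀ a ∈ I, ∀ b ∈ I, φ a * φ b = φ b * φ a := by
    intro a ha b hb
    have hc : a * b * a⁻¹ * b⁻¹ ∈ J := by
      apply hJc
      rw [← commutatorElement_def]
      exact commutator_mem_commutator (mem_top a) (mem_top b)
    have hc2 := hJ2 _ hc
    have hcc := hcen _ hc a
    have e1 : φ a * φ b = φ (a * b * a⁻¹ * b⁻¹) * φ b * φ a := by
      rw [← map_mul, ← map_mul, ← map_mul]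
      congr 1
      group
    set c : E := φ (a * b * a⁻¹ * b⁻¹) with hcdef
    have ha3 : φ a * φ a * φ a = 1 := by
      have e : φ a * φ a * φ a = 1 + 3 * (φ a - 1) + 3 * ((φ a - 1) * (φ a - 1)) +
          (φ a - 1) * ((φ a - 1) * (φ a - 1)) := by noncomm_ring
      rw [e, hq a ha, h3]
      simp
    have e2 : φ a * φ a * φ a * φ b = c * c * c * φ b * (φ a * φ a * φ a) := by
      calc φ a * φ a * φ a * φ b = φ a * φ a * (φ a * φ b) := by noncomm_ring
        _ = φ a * φ a * (c * φ b * φ a) := by rw [e1]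
        _ = φ a * (φ a * c) * φ b * φ a := by noncomm_ring
        _ = φ a * (c * φ a) * φ b * φ a := by rw [hcc]
        _ = (φ a * c) * (φ a * φ b) * φ a := by noncomm_ring
        _ = (c * φ a) * (c * φ b * φ a) * φ a := by rw [hcc, e1]
        _ = c * (φ a * c) * φ b * φ a * φ a := by noncomm_ring
        _ = c * (c * φ a) * φ b * φ a * φ a := by rw [hcc]
        _ = c * c * (φ a * φ b) * φ a * φ a := by noncomm_ring
        _ = c * c * (c * φ b * φ a) * φ a * φ a := by rw [e1]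
        _ = c * c * c * φ b * (φ a * φ a * φ a) := by noncomm_ring
    rw [ha3, one_mul, mul_one, hc2, one_mul] at e2
    rw [e1, ← e2]
  have h1 : ∀ b ∈ I, ∀ w, φ w * φ b = φ b * φ w := fun b hb w =>
    YQL_comm φ I hI (φ b) (fun a ha => hII a ha b hb) w
  exact (YQL_comm φ I hI (φ a) (fun b hb => (h1 b hb a).symm) b).symm

/-- quadratic action in characteristic 3 -/
theorem YQL {W : Type*} [Group W] {A : Type*} [AddCommGroup A] (h3 : ∀ a : A, (3 : ℤ) • a = 0)
    (ρ : W →* (A ≃ₗ[ℤ] A)) (I : Set W) (hI : closure I = ⊤) (J : Subgroup W) (hJ : J.Normal)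
    (hJc : ⁅(⊤ : Subgroup W), (⊤ : Subgroup W)⁆ ≤ J) (hJ2 : ∀ j ∈ J, ρ (j * j) = 1)
    (hq : ∀ a ∈ I, ∀ x : A, ρ (a * a) x - (2 : ℤ) • ρ a x + x = 0) :
    ∀ a b : W, ρ (a * b) = ρ (b * a) := by
  intro a b
  let φ : W →* Module.End ℤ A :=
    (LinearEquiv.automorphismGroup.toLinearMapMonoidHom (R := ℤ) (M := A)).comp ρ
  have hφ : ∀ w x, φ w x = ρ w x := fun w x => rfl
  have h3' : (3 : Module.End ℤ A) = 0 := by
    ext x
    have e : (3 : Module.End ℤ A) x = (3 : ℤ) • x := by
      have : (3 : Module.End ℤ A) = (3 : ℤ) • (1 : Module.End ℤ A) := by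
        rw [zsmul_eq_mul, mul_one]
        norm_num
      rw [this]
      rfl
    rw [e, h3 x]
    rfl
  have hJ2' : ∀ j ∈ J, φ j * φ j = 1 := by
    intro j hj
    rw [← map_mul]
    ext x
    rw [hφ, hJ2 j hj]
    rfl
  have hq' : ∀ a ∈ I, (φ a - 1) * (φ a - 1) = 0 := by
    intro a ha
    ext x
    have h := hq a ha x
    have e : ((φ a - 1) * (φ a - 1)) x = ρ (a * a) x - (2 : ℤ) • ρ a x + x := by
      have e1 : (φ a - 1) * (φ a - 1) = φ (a * a) - (2 : ℤ) • φ a + 1 := by
        rw [map_mul]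
        noncomm_ring
      rw [e1]
      rfl
    rw [e, h]
    rfl
  have h := YQL_main h3' φ I hI J hJ hJc hJ2' hq' a b
  rw [← map_mul, ← map_mul] at h
  ext x
  exact LinearMap.congr_fun h x

end GP48
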