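import Mathlib
import Pool.Agent.LibGP48.YDefs
import Pool.Agent.LibGP48.W0
import Pool.Agent.LibGP48.YQL

/-!
# LibGP48 YST1 (MEDIUM/STRONG)

By contradiction: all these values are 1. T := ds W 2 = ⁅⁅W,W⁆,⁅W,W⁆⁆ (normal, ds_normal), T <= pre π (alternatingGroup (Fin 3)) (values of ⁅W,W⁆ are in Perm (Fin 3), commutators of permutations are even: pre_comm with Z = ⊤).
U := T ⊓ pre π ⊥ (normal). ⁅T,T⁆ <= U (pre_comm_bot; A_3 is commutative; ⁅T,T⁆ <= T comm_le_self). W0: A and L : Lay T U A. 3•a = 0: for t in T, t^3 in U (values in A_3, cube 1; evc_pow), a = toAdd (L.ψ t) (L.sur).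
ρ := L.ρ.comp W.subtype, I' = {a : W | (a:G) ∈ I} (closure I' = ⊤ from hI), J := (W ⊓ H.normalCore).subgroupOf W (normal, contains all commutators by hWH).
hJ2: j ∈ W n core, t ∈ T: value at y of (j j) t (j j)⁻¹ is σσ τ (σσ)⁻¹ = τ for σ ∈ Perm (Fin 3), τ ∈ A_3 (decide over Perm (Fin 3)), so (jj) t (jj)⁻¹ t⁻¹ ∈ U, so ρ (j j) fixes ψ t (L.eqv, L.ker). hq: a ∈ I', t = n ∈ T:
[a, n a n⁻¹] = (a n a⁻¹) * (a a n⁻¹ a⁻¹ a⁻¹) * (a n a⁻¹) * n⁻¹ (group), it is in T and has all values 1 (assumption), so in U; L.eqv: 2 ρ(a) x - ρ(a a) x - x = 0 with x = ψ n.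
YQL: ρ (a b) = ρ (b a) for a, b ∈ W, so ρ x = 1 for x ∈ ⁅W,W⁆ (closure_induction on commutators). Take x, x' ∈ ⁅W,W⁆ with ev π x = swap 0 1, ev π x' = swap 1 2 (hfull), t = x x' x⁻¹ x'⁻¹ ∈ T; ρ x = 1 gives x t x⁻¹ t⁻¹ ∈ U,
its value at y = 1 should be 1; but it is σ c σ⁻¹ c⁻¹ ≠ 1 with σ = swap 0 1, c = [σ, swap 1 2] (decide).
-/

namespace GP48

open Subgroup

private lemma YST1_alt (σ : Equiv.Perm (Fin 3)) (h : σ ∈ alternatingGroup (Fin 3)) : σ ^ 3 = 1 := by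
  revert σ
  simp only [Equiv.Perm.mem_alternatingGroup]
  decide

private lemma YST1_alt_comm (σ τ : Equiv.Perm (Fin 3)) (h : σ ∈ alternatingGroup (Fin 3))
    (h' : τ ∈ alternatingGroup (Fin 3)) : σ * τ = τ * σ := by
  revert σ τ
  simp only [Equiv.Perm.mem_alternatingGroup]
  decide

private lemma YST1_sq (σ τ : Equiv.Perm (Fin 3)) (h : τ ∈ alternatingGroup (Fin 3)) :
    (σ * σ) * τ * (σ * σ)⁻¹ * τ⁻¹ = 1 := by
  have h1 : σ * σ ∈ alternatingGroup (Fin 3) := by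
    rw [Equiv.Perm.mem_alternatingGroup, map_mul]
    exact Int.units_mul_self _
  rw [YST1_alt_comm _ _ h1 h]
  group

private lemma YST1_top : ⁅(⊤ : Subgroup (Equiv.Perm (Fin 3))), (⊤ : Subgroup (Equiv.Perm (Fin 3)))⁆ ≤
    alternatingGroup (Fin 3) := by
  rw [Subgroup.commutator_le]
  intro a _ b _
  rw [Equiv.Perm.mem_alternatingGroup, commutatorElement_def, map_mul, map_mul, map_mul, map_inv,
    map_inv]
  rcases Int.units_eq_one_or (Equiv.Perm.sign a) with h | h <;>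
    rcases Int.units_eq_one_or (Equiv.Perm.sign b) with h' | h' <;> simp [h, h']

/-- the action fixes the class of `t` iff the commutator is in `U` -/
private lemma YST1_fix {G : Type} [Group G] {T U : Subgroup G} {A : Type} [AddCommGroup A]
    (L : Lay T U A) (g : G) (t : T) :
    L.ρ g (Multiplicative.toAdd (L.ψ t)) = Multiplicative.toAdd (L.ψ t) ↔
      g * t * g⁻¹ * (t : G)⁻¹ ∈ U := by
  rw [← L.eqv, Multiplicative.toAdd.injective.eq_iff]
  have h1 := L.ker (⟨g * t * g⁻¹, L.nor.conj_mem t t.2 g⟩ * t⁻¹)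
  rw [map_mul, map_inv, mul_inv_eq_one] at h1
  rw [h1]
  rfl

/-- lemma (*), first part: some commutator `[a, a^n]` with `n` in `W''` has a nontrivial value -/
theorem YST1 {G : Type} [Group G] {H : Subgroup G} (π : H →* Equiv.Perm (Fin 3))
    (W : Subgroup G) (hW : W.Normal) (I : Set G) (hI : W = closure I)
    (hWH : ⁅W, W⁆ ≤ H.normalCore) (hfull : ∀ σ : Equiv.Perm (Fin 3), ∃ x ∈ ⁅W, W⁆, ev π x = σ) :
    ∃ a ∈ I, ∃ n ∈ ds W 2, ∃ y : G,
      ev π (y⁻¹ * (a * (n * a * n⁻¹) * a⁻¹ * (n * a * n⁻¹)⁻¹) * y) ≠ 1 := by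
  by_contra hneg
  push Not at hneg
  set T : Subgroup G := ds W 2 with hTdef
  have hTdef' : T = ⁅⁅W, W⁆, ⁅W, W⁆⁆ := rfl
  have hTn : T.Normal := ds_normal W 2
  have hWW : ⁅W, W⁆ ≤ pre π (⊤ : Subgroup (Equiv.Perm (Fin 3))) :=
    le_pre π (Subgroup.commutator_normal _ _) hWH fun _ _ => Subgroup.mem_top _
  have hTA : T ≤ pre π (alternatingGroup (Fin 3)) := by
    rw [hTdef']
    exact (Subgroup.commutator_mono hWW hWW).trans ((pre_comm π _ _).trans (pre_mono π YST1_top))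
  have hTcore : T ≤ H.normalCore := hTA.trans (pre_le_core π _)
  set U : Subgroup G := T ⊓ pre π ⊥ with hUdef
  have hUn : U.Normal := inferInstance
  have hab : ⁅T, T⁆ ≤ U := by
    refine le_inf (comm_le_self T) (pre_comm_bot π (Z := alternatingGroup (Fin 3)) ?_ hTA)
    intro x hx y hy
    exact YST1_alt_comm x y hx hy
  obtain ⟨A, iA, ⟨L⟩⟩ := W0 T U hTn hUn hab
  have hUmem : ∀ x ∈ T, (∀ y : G, ev π (y⁻¹ * x * y) = 1) → x ∈ U := by
    intro x hx hy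
    exact ⟨hx, hTcore hx, fun y => Subgroup.mem_bot.2 (hy y)⟩
  have hval : ∀ x ∈ T, ∀ y : G, ev π (y⁻¹ * x * y) ∈ alternatingGroup (Fin 3) :=
    fun x hx y => (hTA hx).2 y
  -- exponent 3
  have h3 : ∀ a : A, (3 : ℤ) • a = 0 := by
    intro a
    obtain ⟨t, ht⟩ := L.sur (Multiplicative.ofAdd a)
    have h1 : (t : G) ^ 3 ∈ U := by
      refine hUmem _ (T.pow_mem t.2 3) fun y => ?_
      rw [evc_pow π (hTcore t.2)]
      exact YST1_alt _ (hval _ t.2 y)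
    have h2 : L.ψ (t ^ 3) = 1 := (L.ker (t ^ 3)).2 h1
    rw [map_pow, ht, ← ofAdd_nsmul] at h2
    have h4 : (3 : ℕ) • a = 0 := ofAdd_eq_one.1 h2
    rw [← h4]
    exact natCast_zsmul a 3
  -- the action of W
  set ρ : W →* (A ≃ₗ[ℤ] A) := L.ρ.comp W.subtype with hρ
  have hρa : ∀ a : W, ρ a = L.ρ (a : G) := fun _ => rfl
  have hI' : closure {a : W | (a : G) ∈ I} = ⊤ := by
    subst hI
    exact Subgroup.closure_closure_coe_preimage
  have hJn : (H.normalCore.subgroupOf W).Normal := inferInstance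
  have hJc : ⁅(⊤ : Subgroup W), (⊤ : Subgroup W)⁆ ≤ H.normalCore.subgroupOf W := by
    rw [Subgroup.commutator_le]
    intro a _ b _
    rw [Subgroup.mem_subgroupOf]
    apply hWH
    exact Subgroup.commutator_mem_commutator a.2 b.2
  have hJ2 : ∀ j ∈ H.normalCore.subgroupOf W, ρ (j * j) = 1 := by
    intro j hj
    rw [Subgroup.mem_subgroupOf] at hj
    apply LinearEquiv.ext
    intro x
    obtain ⟨t, ht⟩ := L.sur (Multiplicative.ofAdd x)
    have hx : x = Multiplicative.toAdd (L.ψ t) := by rw [ht]; rfl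
    rw [hx]
    show L.ρ ((j : G) * j) (Multiplicative.toAdd (L.ψ t)) = Multiplicative.toAdd (L.ψ t)
    rw [YST1_fix]
    have hjj : (j : G) * j ∈ H.normalCore := H.normalCore.mul_mem hj hj
    have htc := hTcore t.2
    refine hUmem _ (T.mul_mem (hTn.conj_mem t t.2 _) (T.inv_mem t.2)) fun y => ?_
    rw [evc_mul π (H.normalCore.mul_mem (H.normalCore.mul_mem hjj htc) (H.normalCore.inv_mem hjj)) (H.normalCore.inv_mem htc),
      evc_mul π (H.normalCore.mul_mem hjj htc) (H.normalCore.inv_mem hjj), evc_mul π hjj htc, evc_inv π hjj,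
      evc_inv π htc, evc_mul π hj hj]
    exact YST1_sq _ _ (hval _ t.2 y)
  have hq : ∀ a ∈ {a : W | (a : G) ∈ I}, ∀ x : A, ρ (a * a) x - (2 : ℤ) • ρ a x + x = 0 := by
    intro a ha x
    obtain ⟨n, hn⟩ := L.sur (Multiplicative.ofAdd x)
    have hx : x = Multiplicative.toAdd (L.ψ n) := by rw [hn]; rfl
    have e1 := L.eqv (a : G) n
    have e2 := L.eqv ((a : G) * a) n⁻¹
    set t1 : T := ⟨(a : G) * n * (a : G)⁻¹, L.nor.conj_mem n n.2 a⟩ with ht1
    set t2 : T := ⟨((a : G) * a) * ((n⁻¹ : T) : G) * ((a : G) * a)⁻¹, L.nor.conj_mem _ (n⁻¹).2 _⟩ with ht2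
    have h1 : ((t1 * t2 * t1 * n⁻¹ : T) : G) ∈ U := by
      apply hUmem _ (t1 * t2 * t1 * n⁻¹).2
      intro y
      rw [← hneg a ha n n.2 y]
      congr 1
      simp only [ht1, ht2, Subgroup.coe_mul, Subgroup.coe_inv]
      group
    have h2 := (L.ker _).2 h1
    rw [map_mul, map_mul, map_mul] at h2
    have h4 := congrArg Multiplicative.toAdd h2
    rw [toAdd_mul, toAdd_mul, toAdd_mul, toAdd_one, e1, e2, map_inv, toAdd_inv, map_neg, ← hx] at h4
    rw [hρa, hρa, Subgroup.coe_mul, two_smul]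
    have h5 : (L.ρ (↑a * ↑a)) x - ((L.ρ ↑a) x + (L.ρ ↑a) x) + x =
      -((L.ρ ↑a) x + -(L.ρ (↑a * ↑a)) x + (L.ρ ↑a) x + -x) := by abel
    rw [h5, h4, neg_zero]
  have hYQL := YQL h3 ρ {a : W | (a : G) ∈ I} hI' (H.normalCore.subgroupOf W) hJn hJc hJ2 hq
  have hker : ⁅W, W⁆ ≤ L.ρ.ker := by
    rw [Subgroup.commutator_le]
    intro a ha b hb
    rw [MonoidHom.mem_ker, commutatorElement_def]
    have h1 : L.ρ (a * b) = L.ρ (b * a) := hYQL ⟨a, ha⟩ ⟨b, hb⟩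
    have h2 : a * b * a⁻¹ * b⁻¹ = (a * b) * (b * a)⁻¹ := by group
    rw [h2, map_mul, h1, map_inv, mul_inv_cancel]
  obtain ⟨x, hx, hxσ⟩ := hfull (Equiv.swap 0 1)
  obtain ⟨x', hx', hxσ'⟩ := hfull (Equiv.swap 1 2)
  have ht : x * x' * x⁻¹ * x'⁻¹ ∈ T := by
    rw [hTdef']
    have := Subgroup.commutator_mem_commutator hx hx'
    rwa [commutatorElement_def] at this
  have h1 := (YST1_fix L x ⟨_, ht⟩).1 (by rw [MonoidHom.mem_ker.1 (hker hx)]; rfl)
  have h2 := h1.2.2 1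
  rw [Subgroup.mem_bot] at h2
  have hxc := hWH hx
  have hxc' := hWH hx'
  have htc : x * x' * x⁻¹ * x'⁻¹ ∈ H.normalCore := hTcore ht
  change ev π (1⁻¹ * (x * (x * x' * x⁻¹ * x'⁻¹) * x⁻¹ * (x * x' * x⁻¹ * x'⁻¹)⁻¹) * 1) = 1 at h2
  have hc1 := H.normalCore.mul_mem hxc hxc'
  have hc2 := H.normalCore.mul_mem hc1 (H.normalCore.inv_mem hxc)
  have hc3 := H.normalCore.mul_mem hxc htc
  have hc4 := H.normalCore.mul_mem hc3 (H.normalCore.inv_mem hxc)
  rw [evc_mul π hc4 (H.normalCore.inv_mem htc), evc_mul π hc3 (H.normalCore.inv_mem hxc), evc_mul π hxc htc,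
    evc_inv π htc, evc_mul π hc2 (H.normalCore.inv_mem hxc'), evc_mul π hc1 (H.normalCore.inv_mem hxc),
    evc_mul π hxc hxc', evc_inv π hxc, evc_inv π hxc', inv_one, one_mul, mul_one, one_mul, mul_one, hxσ, hxσ'] at h2
  revert h2
  decide

end GP48
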