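import Mathlib
import Pool.Agent.LibGP48.YDefs

/-!
# LibGP48 YSCH (MEDIUM (ONLY YDefs))

Schreier. Let A k = {g • D : g ∈ wball S k} ⊆ G ⧸ D (finite, G ⧸ D has D.index elements). A is increasing. If A (k+1) = A k then A k is stable under left multiplication by every s in S and its inverse (s g ∈ wball S (k+1)),
hence by G (closure S = ⊤, closure_induction on the stabiliser), and contains the class of 1, so A k = univ. Hence card (A k) >= min (k+1) D.index, so A D.index = univ. For n: the class of n is in A D.index: g with g D = n D, n⁻¹ g ∈ D (QuotientGroup.eq).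
-/

namespace GP48

open Subgroup

/-- short representatives of cosets -/
theorem YSCH {G : Type*} [Group G] {S : Set G} (hS : closure S = ⊤) (D : Subgroup G)
    (hD : D.index ≠ 0) (n : G) : ∃ g ∈ wball S D.index, n⁻¹ * g ∈ D := by
  classical
  have hfin : Finite (G ⧸ D) := Nat.finite_of_card_ne_zero hD
  have hft : Fintype (G ⧸ D) := Fintype.ofFinite _
  let A : ℕ → Finset (G ⧸ D) := fun k =>
    Finset.univ.filter (fun q => ∃ g ∈ wball S k, (g : G ⧸ D) = q)
  have hA : ∀ k q, q ∈ A k ↔ ∃ g ∈ wball S k, (g : G ⧸ D) = q := by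
    intro k q
    simp [A]
  have hmono : ∀ k, A k ⊆ A (k + 1) := by
    intro k q hq
    rw [hA] at hq ⊢
    obtain ⟨g, hg, hq⟩ := hq
    exact ⟨g, wball_mono S (Nat.le_succ k) hg, hq⟩
  have hstab : ∀ k, A (k + 1) = A k → A k = Finset.univ := by
    intro k hk
    have h1 : ∀ s : G, (s ∈ S ∨ s⁻¹ ∈ S) → ∀ q ∈ A k, s • q ∈ A k := by
      intro s hs q hq
      rw [← hk, hA]
      obtain ⟨g, hg, rfl⟩ := (hA k q).1 hq
      refine ⟨s * g, ?_, rfl⟩
      have h2 : s ∈ wball S 1 := ⟨[s], by simp, by simpa using hs, by simp⟩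
      have h3 := wball_mul h2 hg
      rwa [Nat.add_comm] at h3
    have h2 : ∀ x : G, (∀ q ∈ A k, x • q ∈ A k) ∧ (∀ q ∈ A k, x⁻¹ • q ∈ A k) := by
      intro x
      have hx : x ∈ closure S := by
        rw [hS]
        exact Subgroup.mem_top x
      induction hx using Subgroup.closure_induction with
      | mem x hx =>
        exact ⟨h1 x (Or.inl hx), h1 x⁻¹ (Or.inr (by rwa [inv_inv]))⟩
      | one =>
        refine ⟨fun q hq => by rwa [one_smul], fun q hq => by rwa [inv_one, one_smul]⟩
      | mul x y _ _ hx hy =>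
        refine ⟨fun q hq => ?_, fun q hq => ?_⟩
        · rw [mul_smul]
          exact hx.1 _ (hy.1 _ hq)
        · rw [mul_inv_rev, mul_smul]
          exact hy.2 _ (hx.2 _ hq)
      | inv x _ hx =>
        refine ⟨hx.2, ?_⟩
        rw [inv_inv]
        exact hx.1
    rw [Finset.eq_univ_iff_forall]
    intro q
    induction q using QuotientGroup.induction_on with
    | H g =>
      have h3 : ((1 : G) : G ⧸ D) ∈ A k := (hA k _).2 ⟨1, wball_one S k, rfl⟩
      have h4 := (h2 g).1 _ h3
      rwa [MulAction.Quotient.smul_coe, smul_eq_mul, mul_one] at h4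
  have hcard : ∀ k, k + 1 ≤ (A k).card ∨ A k = Finset.univ := by
    intro k
    induction k with
    | zero =>
      left
      have h3 : ((1 : G) : G ⧸ D) ∈ A 0 := (hA 0 _).2 ⟨1, wball_one S 0, rfl⟩
      exact Finset.card_pos.2 ⟨_, h3⟩
    | succ k ih =>
      rcases ih with ih | ih
      · by_cases h : A (k + 1) = A k
        · right
          rw [h]
          exact hstab k h
        · left
          have h4 : A k ⊂ A (k + 1) := by
            refine (Finset.ssubset_iff_subset_ne).2 ⟨hmono k, fun h' => h h'.symm⟩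
          have h5 := Finset.card_lt_card h4
          omega
      · right
        rw [Finset.eq_univ_iff_forall]
        intro q
        exact hmono k (by rw [ih]; exact Finset.mem_univ q)
  have huniv : A D.index = Finset.univ := by
    rcases hcard D.index with h | h
    · exfalso
      have h1 : (A D.index).card ≤ Fintype.card (G ⧸ D) := Finset.card_le_univ _
      have h2 : Fintype.card (G ⧸ D) = D.index := by
        rw [← Nat.card_eq_fintype_card]
        rfl
      omega
    · exact h
  have hn : ((n : G) : G ⧸ D) ∈ A D.index := by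
    rw [huniv]
    exact Finset.mem_univ _
  obtain ⟨g, hg, hgn⟩ := (hA _ _).1 hn
  refine ⟨g, hg, ?_⟩
  exact QuotientGroup.eq.1 hgn.symm

end GP48
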