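import Mathlib
import Pool.Agent.LibGP48.YDefs

/-!
# LibGP48 YST2 (MEDIUM (ONLY YDefs))

For z in G let H_z = {d : z⁻¹ d z ∈ H} = H.comap (MulAut.conj z⁻¹) (index = H.index, Subgroup.index_comap_of_surjective). D1 = H_y ⊓ H_(a⁻¹y): index <= H.index^2 and ≠ 0 (Subgroup.index_inf_le, index_inf_ne_zero).
CLAIM D1 <= H_(a⁻¹a⁻¹y). Cosets: g ∈ H_z iff g z H = z H (in G ⧸ H). Let g ∈ D1, w' = a g⁻¹ a⁻¹ g = a * (g⁻¹ a⁻¹ g) ∈ W. w' y H = a g⁻¹ a⁻¹ y H = a a⁻¹ y H = y H. Next a w' = c w' a ... : a⁻¹ w' = w' a⁻¹ c' with c' ∈ ⁅W,W⁆ <= core H (fixes all cosets), so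
w' a⁻¹ y H = a⁻¹ w' y H = a⁻¹ y H. Hence a g⁻¹ a⁻¹ g a⁻¹ y H = a⁻¹ y H, g a⁻¹ y H = a⁻¹ y H, so g⁻¹ a⁻¹ a⁻¹ y H = a⁻¹ a⁻¹ y H. (Or purely with elements: compute (a⁻¹a⁻¹y)⁻¹ g (a⁻¹a⁻¹y) as a product of elements of H and of conjugates of elements of ⁅W,W⁆.)
D := {d ∈ D1 : the three values ev π (z⁻¹ d z) are 1} = kernel of the homomorphism D1 → Perm (Fin 3)^3 (each d ↦ ev π (z⁻¹ d z) is a homomorphism on H_z by ev_mul), so D.relIndex D1 <= 6^3 = 216, and ≠ 0 (index of a kernel = card of the range;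
Nat.card (Perm (Fin 3)) = 6). D.index = D.relIndex D1 * D1.index (Subgroup.relIndex_mul_index).
-/

namespace GP48

open Subgroup

/-- the elements whose value at `z` is defined -/
private def y2st {G : Type*} [Group G] (H : Subgroup G) (z : G) : Subgroup G :=
  H.comap (MulAut.conj z⁻¹).toMonoidHom

private lemma y2_mem {G : Type*} [Group G] (H : Subgroup G) (z d : G) : d ∈ y2st H z ↔ z⁻¹ * d * z ∈ H := by
  unfold y2st
  rw [Subgroup.mem_comap]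
  simp

private lemma y2_index {G : Type*} [Group G] (H : Subgroup G) (z : G) : (y2st H z).index = H.index := by
  unfold y2st
  exact H.index_comap_of_surjective (MulEquiv.surjective _)

private noncomputable def y2hom {G : Type*} [Group G] {H : Subgroup G} (π : H →* Equiv.Perm (Fin 3)) (K : Subgroup G)
    (z : G) (hK : ∀ d ∈ K, z⁻¹ * d * z ∈ H) : K →* Equiv.Perm (Fin 3) where
  toFun d := ev π (z⁻¹ * (d : G) * z)
  map_one' := by simp [ev_one]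
  map_mul' a b := by
    have h : z⁻¹ * ((a * b : K) : G) * z = (z⁻¹ * (a : G) * z) * (z⁻¹ * (b : G) * z) := by
      push_cast
      group
    rw [h, ev_mul π (hK _ a.2) (hK _ b.2)]

/-- lemma (*), second part: labels at three vertices cost only `216 * H.index ^ 2` -/
theorem YST2 {G : Type*} [Group G] {H : Subgroup G} (hH : H.index ≠ 0)
    (π : H →* Equiv.Perm (Fin 3)) (W : Subgroup G) (hW : W.Normal)
    (hWH : ⁅W, W⁆ ≤ H.normalCore) (a : G) (ha : a ∈ W) (y : G) :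
    ∃ D : Subgroup G, D.index ≠ 0 ∧ D.index ≤ 216 * H.index ^ 2 ∧ ∀ d ∈ D,
      ∀ z ∈ ({y, a⁻¹ * y, a⁻¹ * (a⁻¹ * y)} : Set G), z⁻¹ * d * z ∈ H ∧
        ev π (z⁻¹ * d * z) = 1 := by
  classical
  set D1 : Subgroup G := y2st H y ⊓ y2st H (a⁻¹ * y) with hD1
  have hi1 : D1.index ≠ 0 :=
    Subgroup.index_inf_ne_zero (by rwa [y2_index]) (by rwa [y2_index])
  have hi2 : D1.index ≤ H.index ^ 2 := by
    have h := Subgroup.index_inf_le (H := y2st H y) (K := y2st H (a⁻¹ * y))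
    rw [y2_index, y2_index] at h
    rw [pow_two]
    exact h
  have k1 : ∀ d ∈ D1, y⁻¹ * d * y ∈ H := fun d hd => (y2_mem H y d).1 hd.1
  have k2 : ∀ d ∈ D1, (a⁻¹ * y)⁻¹ * d * (a⁻¹ * y) ∈ H := fun d hd =>
    (y2_mem H (a⁻¹ * y) d).1 hd.2
  have k3 : ∀ d ∈ D1, (a⁻¹ * (a⁻¹ * y))⁻¹ * d * (a⁻¹ * (a⁻¹ * y)) ∈ H := by
    intro g hg
    have h1 := k1 g hg
    have h2 := k2 g hg
    have hw : a * g⁻¹ * a⁻¹ * g ∈ W := by
      have e : a * g⁻¹ * a⁻¹ * g = a * (g⁻¹ * a⁻¹ * (g⁻¹)⁻¹) := by group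
      rw [e]
      exact W.mul_mem ha (hW.conj_mem _ (W.inv_mem ha) _)
    have hc : a * (a * g⁻¹ * a⁻¹ * g) * a⁻¹ * (a * g⁻¹ * a⁻¹ * g)⁻¹ ∈ ⁅W, W⁆ := by
      have := Subgroup.commutator_mem_commutator ha hw
      rwa [commutatorElement_def] at this
    have hc2 := core_conj (hWH hc) y
    have e : ((a⁻¹ * (a⁻¹ * y))⁻¹ * g * (a⁻¹ * (a⁻¹ * y)))⁻¹ =
        (y⁻¹ * (a * (a * g⁻¹ * a⁻¹ * g) * a⁻¹ * (a * g⁻¹ * a⁻¹ * g)⁻¹) * y) *
          ((((a⁻¹ * y)⁻¹ * g * (a⁻¹ * y))⁻¹ * (y⁻¹ * g * y)) *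
            ((a⁻¹ * y)⁻¹ * g * (a⁻¹ * y))⁻¹) := by
      simp only [mul_inv_rev, inv_inv, mul_assoc, inv_mul_cancel_left, mul_inv_cancel_left]
    have h3 : ((a⁻¹ * (a⁻¹ * y))⁻¹ * g * (a⁻¹ * (a⁻¹ * y)))⁻¹ ∈ H := by
      rw [e]
      exact H.mul_mem hc2 (H.mul_mem (H.mul_mem (H.inv_mem h2) h1) (H.inv_mem h2))
    have h4 := H.inv_mem h3
    rwa [inv_inv] at h4
  let φ : D1 →* Equiv.Perm (Fin 3) × (Equiv.Perm (Fin 3) × Equiv.Perm (Fin 3)) :=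
    (y2hom π D1 y k1).prod ((y2hom π D1 (a⁻¹ * y) k2).prod (y2hom π D1 (a⁻¹ * (a⁻¹ * y)) k3))
  have hφ : ∀ d : D1, d ∈ φ.ker ↔ ev π (y⁻¹ * (d : G) * y) = 1 ∧
      ev π ((a⁻¹ * y)⁻¹ * (d : G) * (a⁻¹ * y)) = 1 ∧
      ev π ((a⁻¹ * (a⁻¹ * y))⁻¹ * (d : G) * (a⁻¹ * (a⁻¹ * y))) = 1 := by
    intro d
    rw [MonoidHom.mem_ker]
    have : φ d = (ev π (y⁻¹ * (d : G) * y), (ev π ((a⁻¹ * y)⁻¹ * (d : G) * (a⁻¹ * y)),
      ev π ((a⁻¹ * (a⁻¹ * y))⁻¹ * (d : G) * (a⁻¹ * (a⁻¹ * y))))) := rfl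
    rw [this, Prod.ext_iff, Prod.ext_iff]
    rfl
  have hk : φ.ker.index ≤ 216 ∧ φ.ker.index ≠ 0 := by
    rw [Subgroup.index_ker]
    constructor
    · refine (Subgroup.card_le_card_group φ.range).trans ?_
      rw [Nat.card_prod, Nat.card_prod, Nat.card_perm, Nat.card_eq_fintype_card]
      decide
    · exact Nat.card_pos.ne'
  refine ⟨φ.ker.map D1.subtype, ?_, ?_, ?_⟩
  · have h0 : (φ.ker.map D1.subtype).index = φ.ker.index * D1.index := by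
      rw [← Subgroup.relIndex_mul_index (Subgroup.map_subtype_le φ.ker)]
      congr 1
      rw [Subgroup.relIndex, Subgroup.subgroupOf,
        Subgroup.comap_map_eq_self_of_injective D1.subtype_injective]
    rw [h0]
    exact mul_ne_zero hk.2 hi1
  · have h0 : (φ.ker.map D1.subtype).index = φ.ker.index * D1.index := by
      rw [← Subgroup.relIndex_mul_index (Subgroup.map_subtype_le φ.ker)]
      congr 1
      rw [Subgroup.relIndex, Subgroup.subgroupOf,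
        Subgroup.comap_map_eq_self_of_injective D1.subtype_injective]
    rw [h0]
    exact Nat.mul_le_mul hk.1 hi2
  · rintro d ⟨d', hd', rfl⟩ z hz
    have h1 := (hφ d').1 hd'
    simp only [Set.mem_insert_iff, Set.mem_singleton_iff] at hz
    rcases hz with rfl | rfl | rfl
    · exact ⟨k1 _ d'.2, h1.1⟩
    · exact ⟨k2 _ d'.2, h1.2.1⟩
    · exact ⟨k3 _ d'.2, h1.2.2⟩

end GP48
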