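import Mathlib
import Pool.Agent.LibGP48.YDefs
import Pool.Agent.LibGP48.YST2
import Pool.Agent.LibGP48.YSCH

/-!
# LibGP48 YST3 (MEDIUM)

D from YST2, g from YSCH (D, n): g ∈ wball S D.index ⊆ wball S (216 * H.index^2) (wball_mono), n⁻¹ g ∈ D. For z in the set of three elements: z⁻¹ g z = (z⁻¹ n z) (z⁻¹ (n⁻¹ g) z) ∈ H, with value ev π (z⁻¹ n z) * 1 (n ∈ core H: core_conj).
Formula for every x ∈ G: y⁻¹ (a (x a x⁻¹) a⁻¹ (x a x⁻¹)⁻¹) y = (z1⁻¹ x z1) (z2⁻¹ x⁻¹ z2) (z1⁻¹ x z1) (y⁻¹ x⁻¹ y), z1 = a⁻¹ y, z2 = a⁻¹ a⁻¹ y (group). For x = g and x = n all factors are in H with equal values (ev_mul, ev_inv).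
-/

namespace GP48

open Subgroup

private lemma yst3_formula {G : Type*} [Group G] (a x y : G) :
    y⁻¹ * (a * (x * a * x⁻¹) * a⁻¹ * (x * a * x⁻¹)⁻¹) * y =
      ((a⁻¹ * y)⁻¹ * x * (a⁻¹ * y)) *
        ((a⁻¹ * (a⁻¹ * y))⁻¹ * x * (a⁻¹ * (a⁻¹ * y)))⁻¹ *
        ((a⁻¹ * y)⁻¹ * x * (a⁻¹ * y)) * (y⁻¹ * x * y)⁻¹ := by
  group

private lemma yst3_value {G : Type*} [Group G] {H : Subgroup G}
    (π : H →* Equiv.Perm (Fin 3)) (a x y : G)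
    (h0 : y⁻¹ * x * y ∈ H) (h1 : (a⁻¹ * y)⁻¹ * x * (a⁻¹ * y) ∈ H)
    (h2 : (a⁻¹ * (a⁻¹ * y))⁻¹ * x * (a⁻¹ * (a⁻¹ * y)) ∈ H) :
    ev π (y⁻¹ * (a * (x * a * x⁻¹) * a⁻¹ * (x * a * x⁻¹)⁻¹) * y) =
      ev π ((a⁻¹ * y)⁻¹ * x * (a⁻¹ * y)) *
        (ev π ((a⁻¹ * (a⁻¹ * y))⁻¹ * x * (a⁻¹ * (a⁻¹ * y))))⁻¹ *
        ev π ((a⁻¹ * y)⁻¹ * x * (a⁻¹ * y)) * (ev π (y⁻¹ * x * y))⁻¹ := by
  rw [yst3_formula, ev_mul π (H.mul_mem (H.mul_mem h1 (H.inv_mem h2)) h1) (H.inv_mem h0),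
    ev_mul π (H.mul_mem h1 (H.inv_mem h2)) h1, ev_mul π h1 (H.inv_mem h2),
    ev_inv π h2, ev_inv π h0]

private lemma yst3_split {G : Type*} [Group G] {H : Subgroup G}
    (π : H →* Equiv.Perm (Fin 3)) {n g z : G} (hn : n ∈ H.normalCore)
    (h : z⁻¹ * (n⁻¹ * g) * z ∈ H ∧ ev π (z⁻¹ * (n⁻¹ * g) * z) = 1) :
    z⁻¹ * g * z ∈ H ∧ ev π (z⁻¹ * g * z) = ev π (z⁻¹ * n * z) := by
  have e : z⁻¹ * g * z = (z⁻¹ * n * z) * (z⁻¹ * (n⁻¹ * g) * z) := by group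
  have hz : z⁻¹ * n * z ∈ H := core_conj hn z
  refine ⟨e ▸ H.mul_mem hz h.1, ?_⟩
  rw [e, ev_mul π hz h.1, h.2, mul_one]

/-- lemma (*), third part: the conjugating element may be taken short -/
theorem YST3 {G : Type*} [Group G] {S : Set G} (hS : closure S = ⊤) {H : Subgroup G}
    (hH : H.index ≠ 0) (π : H →* Equiv.Perm (Fin 3)) (W : Subgroup G) (hW : W.Normal)
    (hWH : ⁅W, W⁆ ≤ H.normalCore) (a : G) (ha : a ∈ W) (n : G) (hn : n ∈ H.normalCore) (y : G) :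
    ∃ g ∈ wball S (216 * H.index ^ 2),
      ev π (y⁻¹ * (a * (g * a * g⁻¹) * a⁻¹ * (g * a * g⁻¹)⁻¹) * y) =
        ev π (y⁻¹ * (a * (n * a * n⁻¹) * a⁻¹ * (n * a * n⁻¹)⁻¹) * y) := by
  obtain ⟨D, hD0, hDi, hD⟩ := YST2 hH π W hW hWH a ha y
  obtain ⟨g, hg, hng⟩ := YSCH hS D hD0 n
  refine ⟨g, wball_mono S hDi hg, ?_⟩
  have k0 := yst3_split π hn (hD _ hng y (by simp))
  have k1 := yst3_split π hn (hD _ hng (a⁻¹ * y) (by simp))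
  have k2 := yst3_split π hn (hD _ hng (a⁻¹ * (a⁻¹ * y)) (by simp))
  rw [yst3_value π a g y k0.1 k1.1 k2.1,
    yst3_value π a n y (core_conj hn y) (core_conj hn _) (core_conj hn _), k0.2, k1.2, k2.2]

end GP48
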