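import Mathlib
import Pool.Agent.LibGP48.YDefs
import Pool.Agent.LibGP48.YST1
import Pool.Agent.LibGP48.YST3
import Pool.Agent.LibGP48.YE0

/-!
# LibGP48 YSTQ (MEDIUM (assembly))

m = ⌊b⌋₊, R = 432 * H.index^2, I = W n wball S m (hW.gen). E = sqc S W (m + R) = {cm2-type squares}, Q = normalClosure E. Rch: CostE.ncl with c = 8 (elements of sqc have length <= 8 (m+R), YE0c). E ⊆ ⁅W,W⁆ (powers of commutators), normal, so Q <= ⁅W,W⁆ <= core H.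
Q <= pre π (alternatingGroup (Fin 3)): this is a normal subgroup; for q = (a b a⁻¹ b⁻¹)^2 ∈ E, c = a b a⁻¹ b⁻¹ ∈ ⁅W,W⁆ <= core, values of c^2 are squares in Perm (Fin 3), so even (evc_pow; sign (σ^2) = 1).
¬ Q <= pre π ⊥: YST1 gives a ∈ I, n ∈ ds W 2 (<= ⁅W,W⁆ <= core H), y; YST3 gives g ∈ wball S (216 H.index^2) with the same value v ≠ 1. v is even: by the formula in YST3 for n: product of values of elements of ds W 2, which are even (pre_comm with Z = ⊤), so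
v^2 ≠ 1 (decide: σ even, σ^2 = 1 → σ = 1). b' = g a g⁻¹ ∈ W n wball S (m + 432 H.index^2), q = (a b' a⁻¹ b'⁻¹)^2 ∈ E ⊆ Q, its value at y is v^2 ≠ 1 (evc_pow; a b' a⁻¹ b'⁻¹ ∈ ⁅W,W⁆ <= core).
-/

namespace GP48

open Subgroup

/-- lemma (*): the normal closure of the squares of short commutators -/
theorem YSTQ {G : Type} [Group G] {S : Set G} {κ : ℝ} {c1 : ℕ} (hc : CostE S κ c1)
    (hS : closure S = ⊤) {H : Subgroup G} (hH : H.index ≠ 0) (π : H →* Equiv.Perm (Fin 3))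
    (W : Subgroup G) (b : ℝ) (hW : Rch S W ⌊b⌋₊) (hWH : ⁅W, W⁆ ≤ H.normalCore)
    (hfull : ∀ σ : Equiv.Perm (Fin 3), ∃ x ∈ ⁅W, W⁆, ev π x = σ)
    (hb : (c1 : ℝ) * (432 * (H.index : ℝ) ^ 2 + 1) ≤ b) :
    ∃ Q : Subgroup G, Rch S Q ⌊(8 : ℝ) ^ κ * b⌋₊ ∧ Q ≤ ⁅W, W⁆ ∧
      Q ≤ pre π (alternatingGroup (Fin 3)) ∧ ¬ Q ≤ pre π ⊥ := by
  haveI hWn : W.Normal := hW.nor
  haveI hWWn : (⁅W, W⁆ : Subgroup G).Normal := Subgroup.commutator_normal W W
  have hsq : ∀ x ∈ W, ∀ y ∈ W, x * y * x⁻¹ * y⁻¹ ∈ ⁅W, W⁆ := by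
    intro x hx y hy
    rw [← commutatorElement_def]
    exact commutator_mem_commutator hx hy
  have hEsub : sqc S W (⌊b⌋₊ + 432 * H.index ^ 2) ⊆ ((⁅W, W⁆ : Subgroup G) : Set G) := by
    rintro q ⟨x, hx, y, hy, rfl⟩
    exact Subgroup.pow_mem _ (hsq x hx.1 y hy.1) 2
  refine ⟨normalClosure (sqc S W (⌊b⌋₊ + 432 * H.index ^ 2)), ?_, ?_, ?_, ?_⟩
  · have h1 := hc.ncl (sqc S W (⌊b⌋₊ + 432 * H.index ^ 2)) 8 (432 * H.index ^ 2) b (by norm_num)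
      (by
        refine le_trans (le_of_eq ?_) hb
        push_cast
        ring) (by
        rintro q ⟨x, hx, y, hy, rfl⟩
        exact YE0c hx.2 hy.2)
    have e : (((8 : ℕ) : ℝ)) = (8 : ℝ) := by norm_num
    rw [e] at h1
    exact h1
  · exact normalClosure_le_normal hEsub
  · refine normalClosure_le_normal ?_
    rintro q ⟨x, hx, y, hy, rfl⟩
    have hc1 : x * y * x⁻¹ * y⁻¹ ∈ H.normalCore := hWH (hsq x hx.1 y hy.1)
    refine (mem_pre π).mpr ⟨H.normalCore.pow_mem hc1 2, fun z => ?_⟩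
    rw [evc_pow π hc1, Equiv.Perm.mem_alternatingGroup, map_pow]
    exact Int.units_sq _
  · intro hle
    obtain ⟨a, haI, n, hn, y, hne⟩ := YST1 π W hWn ((W : Set G) ∩ wball S ⌊b⌋₊) hW.gen hWH hfull
    have hn1 : n ∈ ⁅W, W⁆ := ds_succ_le W 1 hn
    obtain ⟨g, hg, hgv⟩ := YST3 hS hH π W hWn hWH a haI.1 n (hWH hn1) y
    -- the value is even
    have hcn : a * (n * a * n⁻¹) * a⁻¹ * (n * a * n⁻¹)⁻¹ ∈ ds W 2 := by
      have e : a * (n * a * n⁻¹) * a⁻¹ * (n * a * n⁻¹)⁻¹ =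
          (a * n * a⁻¹) * ((a * a) * n⁻¹ * (a * a)⁻¹) * (a * n * a⁻¹) * n⁻¹ := by group
      rw [e]
      have hN : (ds W 2).Normal := inferInstance
      exact Subgroup.mul_mem _ (Subgroup.mul_mem _ (Subgroup.mul_mem _ (hN.conj_mem n hn a)
        (hN.conj_mem _ (Subgroup.inv_mem _ hn) (a * a))) (hN.conj_mem n hn a))
        (Subgroup.inv_mem _ hn)
    have hT : ⁅W, W⁆ ≤ pre π ⊤ := fun x hx => (mem_pre π).mpr ⟨hWH hx, fun _ => mem_top _⟩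
    have hds : ds W 2 ≤ pre π (alternatingGroup (Fin 3)) := by
      refine (commutator_mono hT hT).trans ((pre_comm π ⊤ ⊤).trans (pre_mono π ?_))
      rw [commutator_le]
      intro σ _ τ _
      rw [Equiv.Perm.mem_alternatingGroup, commutatorElement_def, map_mul, map_mul, map_mul,
        map_inv, map_inv]
      have : ∀ u v : ℤˣ, u * v * u⁻¹ * v⁻¹ = 1 := by decide
      exact this _ _
    have hev : ev π (y⁻¹ * (a * (n * a * n⁻¹) * a⁻¹ * (n * a * n⁻¹)⁻¹) * y) ∈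
        alternatingGroup (Fin 3) := (hds hcn).2 y
    have hdec : ∀ σ : Equiv.Perm (Fin 3), Equiv.Perm.sign σ = 1 → σ ^ 2 = 1 → σ = 1 := by decide
    have hsq2 : (ev π (y⁻¹ * (a * (g * a * g⁻¹) * a⁻¹ * (g * a * g⁻¹)⁻¹) * y)) ^ 2 ≠ 1 := by
      intro h
      rw [hgv] at h
      exact hne (hdec _ (Equiv.Perm.mem_alternatingGroup.mp hev) h)
    have hb' : g * a * g⁻¹ ∈ W := hWn.conj_mem a haI.1 g
    have hball : g * a * g⁻¹ ∈ wball S (⌊b⌋₊ + 432 * H.index ^ 2) := by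
      refine wball_mono S ?_ (wball_mul (wball_mul hg haI.2) (wball_inv hg))
      omega
    have hball2 : a ∈ wball S (⌊b⌋₊ + 432 * H.index ^ 2) := wball_mono S (Nat.le_add_right _ _) haI.2
    have hcg : a * (g * a * g⁻¹) * a⁻¹ * (g * a * g⁻¹)⁻¹ ∈ H.normalCore :=
      hWH (hsq _ haI.1 _ hb')
    have hq : (a * (g * a * g⁻¹) * a⁻¹ * (g * a * g⁻¹)⁻¹) ^ 2 ∈
        normalClosure (sqc S W (⌊b⌋₊ + 432 * H.index ^ 2)) :=
      subset_normalClosure ⟨a, ⟨haI.1, hball2⟩, g * a * g⁻¹, ⟨hb', hball⟩, rfl⟩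
    have h1 := (hle hq).2 y
    rw [evc_pow π hcg, mem_bot] at h1
    exact hsq2 h1

end GP48
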