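import Mathlib
import Pool.Agent.LibGP48.YDefs
import Pool.Agent.LibGP48.YSTQ
import Pool.Agent.LibGP48.YPM
import Pool.Agent.LibGP48.YS43
import Pool.Agent.LibGP48.YE0

/-!
# LibGP48 YB3 (MEDIUM (assembly))

π from YPM (n = 3), with YPM': pre π ⊥ <= H'.normalCore, C <= pre π ⊥. hA gives W. N' = ⁅W,W⁆ <= core H. If N' <= C: YY (Y = W; b <= 8^κ b since b >= c1*.. >= 0 and 8^κ >= 1). YDI for X = N'. Case 1 (full): YSTQ: Q with Rch at 8^κ b, Q <= pre π A_3, ¬ Q <= pre π ⊥, so ¬ Q <= C; ⁅Q,Q⁆ <= pre π ⊥ (pre_comm_bot, A_3 commutative: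
decide) <= H'.normalCore: AA with Q. Case 2: ⁅N',N'⁆ <= pre π ⊥ <= H'.normalCore, N' Rch at 4^κ b (YE0; c1 <= b because c1*(432*idx^2+1) >= c1): AA with N', 4^κ <= 8^κ.
-/

namespace GP48

open Subgroup

private theorem yb3_A3 : ∀ x ∈ alternatingGroup (Fin 3), ∀ y ∈ alternatingGroup (Fin 3),
    x * y = y * x := by
  have h : ∀ x : Equiv.Perm (Fin 3), Equiv.Perm.sign x = 1 → ∀ y : Equiv.Perm (Fin 3),
      Equiv.Perm.sign y = 1 → x * y = y * x := by decide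
  intro x hx y hy
  exact h x (Equiv.Perm.mem_alternatingGroup.1 hx) y (Equiv.Perm.mem_alternatingGroup.1 hy)

/-- block of degree 3 -/
theorem YB3 {G : Type} [Group G] {S : Set G} {κ : ℝ} {c1 : ℕ} (hc : CostE S κ c1)
    (hS : closure S = ⊤) (hκ : 0 ≤ κ) {C : Subgroup G} (hC : C.Normal) {H' H : Subgroup G}
    (hH : H.index ≠ 0) (hle : H' ≤ H) (hrel : H'.relIndex H = 3) (hCH : C ≤ H') (b : ℝ)
    (hb : (c1 : ℝ) * (432 * (H.index : ℝ) ^ 2 + 1) ≤ b) (hA : AA S C H b) :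
    YY S C ((8 : ℝ) ^ κ * b) ∨ AA S C H' ((8 : ℝ) ^ κ * b) := by
  obtain ⟨π, h1, h2⟩ := YPM H' H hle 3 (by norm_num) hrel
  obtain ⟨hp1, hp2⟩ := YPM' π h1 h2 hle
  obtain ⟨W, hW1, hW2, hW3⟩ := hA
  have hWn : W.Normal := hW1.nor
  have hc0 : (0 : ℝ) ≤ (c1 : ℝ) := Nat.cast_nonneg _
  have hc1b : (c1 : ℝ) ≤ b := by
    refine le_trans ?_ hb
    have : (1 : ℝ) ≤ 432 * (H.index : ℝ) ^ 2 + 1 := by
      have : (0 : ℝ) ≤ 432 * (H.index : ℝ) ^ 2 := by positivity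
      linarith
    nlinarith
  have hb0 : 0 ≤ b := hc0.trans hc1b
  have h8 : (1 : ℝ) ≤ (8 : ℝ) ^ κ := Real.one_le_rpow (by norm_num) hκ
  have h48 : (4 : ℝ) ^ κ ≤ (8 : ℝ) ^ κ := Real.rpow_le_rpow (by norm_num) (by norm_num) hκ
  have hb8 : b ≤ (8 : ℝ) ^ κ * b := le_mul_of_one_le_left hb0 h8
  by_cases hN : ⁅W, W⁆ ≤ C
  · exact Or.inl ⟨W, hW1.monoR hb8, hW2, hN⟩
  · right
    rcases YDI π ⁅W, W⁆ inferInstance hW3 with hfull | hab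
    · obtain ⟨Q, hQ1, _, hQ3, hQ4⟩ := YSTQ hc hS hH π W b hW1 hW3 hfull hb
      exact ⟨Q, hQ1, fun h => hQ4 (h.trans (hp2 C hC hCH)),
        (pre_comm_bot π yb3_A3 hQ3).trans hp1⟩
    · exact ⟨⁅W, W⁆, (YE0 hc b hc1b W hW1).monoR (mul_le_mul_of_nonneg_right h48 hb0), hN,
        hab.trans hp1⟩

end GP48
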