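import Mathlib
import Pool.Agent.LibGP48.YDefs
import Pool.Agent.LibGP48.YSTQ
import Pool.Agent.LibGP48.YPM
import Pool.Agent.LibGP48.YS43
import Pool.Agent.LibGP48.YE0

/-!
# LibGP48 YB4 (MEDIUM (assembly))

π4 from YPM (n = 4), f from YS43, π = f.comp π4. YPM': pre π4 ⊥ <= H'.normalCore, C <= pre π4 ⊥ <= pre π ⊥ (ev (f.comp π4) x = f (ev π4 x)). If X <= pre π ⊥ then X <= pre π4 f.ker, so ⁅X,X⁆ <= pre π4 ⊥ (pre_comm_bot, kernel commutative) <= H'.normalCore. hA gives W. N' = ⁅W,W⁆ <= core H.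
If N' <= C: YY with W. YDI for N'. Case full: YSTQ: Q at 8^κ b, Q' = ⁅Q,Q⁆ <= pre π ⊥ (A_3 commutative), ¬ Q <= C (C <= pre π ⊥). If Q' <= C: YY with Q (8^κ <= 32^κ); else Q' at 4^κ 8^κ b = 32^κ b (YE0 with 8^κ b >= c1; Real.mul_rpow): AA with Q'. Case 2: N'' = ⁅N',N'⁆ <= pre π ⊥: N' at 4^κ b; if N'' <= C: YY with N'; else N'' at 16^κ b: AA with N''.
-/

namespace GP48

open Subgroup

private lemma YB4_ev {G : Type} [Group G] {H : Subgroup G} {P Q : Type} [Group P] [Group Q]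
    (π4 : H →* P) (f : P →* Q) (x : G) : ev (f.comp π4) x = f (ev π4 x) := by
  by_cases hx : x ∈ H
  · rw [ev_mem _ hx, ev_mem _ hx]
    rfl
  · unfold ev
    rw [dif_neg hx, dif_neg hx, map_one]

private lemma YB4_alt : ∀ x ∈ alternatingGroup (Fin 3), ∀ y ∈ alternatingGroup (Fin 3),
    x * y = y * x := by
  have h : ∀ x y : Equiv.Perm (Fin 3), Equiv.Perm.sign x = 1 → Equiv.Perm.sign y = 1 →
      x * y = y * x := by decide
  intro x hx y hy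
  exact h x y (Equiv.Perm.mem_alternatingGroup.mp hx) (Equiv.Perm.mem_alternatingGroup.mp hy)

/-- block of degree 4 -/
theorem YB4 {G : Type} [Group G] {S : Set G} {κ : ℝ} {c1 : ℕ} (hc : CostE S κ c1)
    (hS : closure S = ⊤) (hκ : 0 ≤ κ) {C : Subgroup G} (hC : C.Normal) {H' H : Subgroup G}
    (hH : H.index ≠ 0) (hle : H' ≤ H) (hrel : H'.relIndex H = 4) (hCH : C ≤ H') (b : ℝ)
    (hb : (c1 : ℝ) * (432 * (H.index : ℝ) ^ 2 + 1) ≤ b) (hA : AA S C H b) :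
    YY S C ((32 : ℝ) ^ κ * b) ∨ AA S C H' ((32 : ℝ) ^ κ * b) := by
  obtain ⟨π4, h1, h2⟩ := YPM H' H hle 4 (by norm_num) hrel
  obtain ⟨f, hf⟩ := YS43
  obtain ⟨hbot, hCbot⟩ := YPM' π4 h1 h2 hle
  have hCpre : C ≤ pre (f.comp π4) ⊥ := by
    intro x hx
    obtain ⟨a1, a2⟩ := hCbot C hC hCH hx
    refine ⟨a1, fun y => ?_⟩
    rw [YB4_ev, Subgroup.mem_bot, (Subgroup.mem_bot).mp (a2 y), map_one]
  have hker : ∀ X : Subgroup G, X ≤ pre (f.comp π4) ⊥ → ⁅X, X⁆ ≤ H'.normalCore := by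
    intro X hX
    refine le_trans (pre_comm_bot π4 (Z := f.ker) ?_ ?_) hbot
    · intro x hx y hy
      exact hf x y hx hy
    · intro x hx
      obtain ⟨a1, a2⟩ := hX hx
      refine ⟨a1, fun y => ?_⟩
      have a3 := a2 y
      rw [YB4_ev, Subgroup.mem_bot] at a3
      exact a3
  have hc0 : (0 : ℝ) ≤ (c1 : ℝ) := Nat.cast_nonneg _
  have hi0 : (0 : ℝ) ≤ 432 * (H.index : ℝ) ^ 2 := by positivity
  have hcb : (c1 : ℝ) ≤ b := by
    refine le_trans ?_ hb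
    nlinarith
  have hb0 : (0 : ℝ) ≤ b := hc0.trans hcb
  have e1 : ∀ c : ℝ, 1 ≤ c → (1 : ℝ) ≤ c ^ κ := fun c hc' => Real.one_le_rpow hc' hκ
  have hmono : ∀ c : ℝ, 0 ≤ c → c ≤ 32 → c ^ κ * b ≤ (32 : ℝ) ^ κ * b := fun c h0 h32 =>
    mul_le_mul_of_nonneg_right (Real.rpow_le_rpow h0 h32 hκ) hb0
  have hbb : ∀ c : ℝ, 1 ≤ c → b ≤ c ^ κ * b := fun c hc' => le_mul_of_one_le_left hb0 (e1 c hc')
  obtain ⟨W, hW, hWC, hWH⟩ := hA
  by_cases hN : ⁅W, W⁆ ≤ C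
  · left
    exact YY.mono ⟨W, hW, hWC, hN⟩ (hbb 32 (by norm_num))
  have hWn := hW.nor
  have hNn : (⁅W, W⁆ : Subgroup G).Normal := inferInstance
  rcases YDI (f.comp π4) ⁅W, W⁆ hNn hWH with hfull | hsmall
  · obtain ⟨Q, hQ1, -, hQ3, hQ4⟩ := YSTQ hc hS hH (f.comp π4) W b hW hWH hfull hb
    have hQC : ¬ Q ≤ C := fun h => hQ4 (h.trans hCpre)
    have hQQ : ⁅Q, Q⁆ ≤ pre (f.comp π4) ⊥ := pre_comm_bot _ YB4_alt hQ3
    by_cases hQc : ⁅Q, Q⁆ ≤ C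
    · left
      exact YY.mono ⟨Q, hQ1, hQC, hQc⟩ (hmono 8 (by norm_num) (by norm_num))
    · right
      have h3 := YE0 hc ((8 : ℝ) ^ κ * b) (hcb.trans (hbb 8 (by norm_num))) Q hQ1
      have e : (4 : ℝ) ^ κ * ((8 : ℝ) ^ κ * b) = (32 : ℝ) ^ κ * b := by
        rw [← mul_assoc, ← Real.mul_rpow (by norm_num) (by norm_num)]
        norm_num
      rw [e] at h3
      exact ⟨⁅Q, Q⁆, h3, hQc, hker _ hQQ⟩
  · have h4 := YE0 hc b hcb W hW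
    by_cases hNN : ⁅⁅W, W⁆, ⁅W, W⁆⁆ ≤ C
    · left
      exact YY.mono ⟨⁅W, W⁆, h4, hN, hNN⟩ (hmono 4 (by norm_num) (by norm_num))
    · right
      have h5 := YE0 hc ((4 : ℝ) ^ κ * b) (hcb.trans (hbb 4 (by norm_num))) ⁅W, W⁆ h4
      have e : (4 : ℝ) ^ κ * ((4 : ℝ) ^ κ * b) = (16 : ℝ) ^ κ * b := by
        rw [← mul_assoc, ← Real.mul_rpow (by norm_num) (by norm_num)]
        norm_num
      rw [e] at h5
      exact AA.mono ⟨⁅⁅W, W⁆, ⁅W, W⁆⁆, h5, hNN, hker _ hsmall⟩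
        (hmono 16 (by norm_num) (by norm_num))

end GP48
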