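import Mathlib
import Pool.Agent.LibGP48.YDefs
import Pool.Agent.LibGP48.D1

/-!
# LibGP48 YAL (MEDIUM)

YALa: τ 1 = 0 (hA.mul 1 1). For x, z in H with lam x = lam z = 1: τ (x z) = τ z + τ x = τ (z x), so τ ((x z) (z x)⁻¹) = 0 (from τ (p * q) with p = (xz)(zx)⁻¹, q = z x, lam p = 1): x z x⁻¹ z⁻¹ ∈ H'. For x, z ∈ X (X <= pre lam ⊥, so x, z ∈ H with ev lam x = 1 (y = 1)) the commutator is in H'.
⁅X,X⁆ is normal in G and <= H', so <= H'.normalCore. YALb: x ∈ C <= H' <= H; C normal: core conjugates are in C; C <= H'.normalCore <= H.normalCore. v : choose h with lam h = 1, τ h = v; x h = h (h⁻¹ x h), h⁻¹ x h ∈ C <= H', so τ (x h) = lam h 0 + τ h = v; and τ (x h) = lam x v + τ x = lam x v.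
So lam x = 1 (ext). YALc: lam is irreducible, ds ⊤ e (in H) is in lam.ker for some e (ds H e <= C, YALb), so D1 (V = VV r k, finrank = k; Fact r.Prime) gives ds ⊤ g <= lam.ker in H; X <= H.normalCore: ds X g <= H.normalCore and its elements have ev lam = 1; ds X g is normal: le_pre.
-/

namespace GP48

open Subgroup

private lemma YAL_ev {G : Type*} [Group G] {H : Subgroup G} {r k : ℕ} {lam : H →* GLV r k}
    {x : G} (hx : x ∈ pre lam ⊥) (hxH : x ∈ H) : lam ⟨x, hxH⟩ = 1 := by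
  have h := hx.2 1
  rw [inv_one, one_mul, mul_one, Subgroup.mem_bot, ev_mem lam hxH] at h
  exact h

theorem YALa {G : Type*} [Group G] {H' H : Subgroup G} {r k : ℕ} {lam : H →* GLV r k}
    {τ : H → VV r k} (hA : Aff H' H r k lam τ) (X : Subgroup G) (hX : X.Normal)
    (hXl : X ≤ pre lam ⊥) : ⁅X, X⁆ ≤ H'.normalCore := by
  have hn : (⁅X, X⁆ : Subgroup G).Normal := Subgroup.commutator_normal _ _
  rw [Subgroup.normal_le_normalCore, Subgroup.commutator_le]
  intro a ha b hb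
  have haH : a ∈ H := core_mem (hXl ha).1
  have hbH : b ∈ H := core_mem (hXl hb).1
  have h1 := YAL_ev (hXl ha) haH
  have h2 := YAL_ev (hXl hb) hbH
  rw [commutatorElement_def]
  set x : H := ⟨a, haH⟩ with hx
  set z : H := ⟨b, hbH⟩ with hz
  have e1 : τ (x * z) = τ z + τ x := by
    rw [hA.mul, h1]
    rfl
  have e2 : τ (z * x) = τ x + τ z := by
    rw [hA.mul, h2]
    rfl
  have hl : lam (x * z * x⁻¹ * z⁻¹) = 1 := by
    rw [map_mul, map_mul, map_mul, map_inv, map_inv, h1, h2]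
    group
  have e3 : τ (x * z) = τ (z * x) + τ (x * z * x⁻¹ * z⁻¹) := by
    have e4 : x * z = (x * z * x⁻¹ * z⁻¹) * (z * x) := by group
    have e5 := hA.mul (x * z * x⁻¹ * z⁻¹) (z * x)
    rw [← e4, hl] at e5
    exact e5
  have e6 : τ (x * z * x⁻¹ * z⁻¹) = 0 := by
    rw [e1, e2, add_comm (τ z) (τ x)] at e3
    exact (left_eq_add.1 e3)
  exact (hA.stab _).1 e6

theorem YALb {G : Type*} [Group G] {H' H : Subgroup G} {r k : ℕ} {lam : H →* GLV r k}
    {τ : H → VV r k} (hA : Aff H' H r k lam τ) (C : Subgroup G) (hC : C.Normal)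
    (hCH : C ≤ H') : C ≤ pre lam ⊥ := by
  have hCH2 : C ≤ H := hCH.trans hA.le
  refine le_pre lam hC ((Subgroup.normal_le_normalCore).2 hCH2) fun x hx => ?_
  rw [Subgroup.mem_bot, ev_mem lam (hCH2 hx)]
  set x' : H := ⟨x, hCH2 hx⟩ with hx'
  refine LinearEquiv.ext fun v => ?_
  obtain ⟨h, hh1, hh2⟩ := hA.trans v
  have hy : (h : G)⁻¹ * x * h ∈ C := by
    have := hC.conj_mem x hx (h : G)⁻¹
    rwa [inv_inv] at this
  have hyt : τ (h⁻¹ * x' * h) = 0 := (hA.stab _).2 (hCH hy)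
  have hxt : τ x' = 0 := (hA.stab _).2 (hCH hx)
  have e1 : τ (x' * h) = v := by
    have e2 : x' * h = h * (h⁻¹ * x' * h) := by group
    rw [e2, hA.mul, hyt, hh2, map_zero, zero_add]
  rw [hA.mul, hh2, hxt, add_zero] at e1
  rw [e1]
  rfl

theorem YALc {G : Type*} [Group G] {H' H : Subgroup G} {r k g : ℕ} {lam : H →* GLV r k}
    {τ : H → VV r k} (hA : Aff H' H r k lam τ) (hr : r.Prime) (hirr : Irr lam) (C : Subgroup G)
    (hC : C.Normal) (hCH : C ≤ H') (hsol : ∃ e, ds (⊤ : Subgroup G) e ≤ C) (hLB : LB k r g)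
    (X : Subgroup G) (hX : X.Normal) (hXH : X ≤ H.normalCore) : ds X g ≤ pre lam ⊥ := by
  have : Fact r.Prime := ⟨hr⟩
  have hCl := YALb hA C hC hCH
  have hmap : ∀ e : ℕ, (ds (⊤ : Subgroup H) e).map H.subtype = ds H e := by
    intro e
    rw [ds_map, ← MonoidHom.range_eq_map, Subgroup.range_subtype]
  have hsolH : ∃ e, ds (⊤ : Subgroup H) e ≤ lam.ker := by
    obtain ⟨e, he⟩ := hsol
    refine ⟨e, fun x hx => ?_⟩
    have h1 : (x : G) ∈ ds H e := by
      rw [← hmap e]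
      exact ⟨x, hx, rfl⟩
    have h2 : (x : G) ∈ C := he (ds_mono le_top e h1)
    rw [MonoidHom.mem_ker]
    exact YAL_ev (hCl h2) x.2
  have hD := D1 hLB (Module.finrank_fin_fun (ZMod r)) lam hirr hsolH
  have hXH2 : X ≤ H := hXH.trans H.normalCore_le
  refine le_pre lam inferInstance ((ds_le X g).trans hXH) fun x hx => ?_
  have h1 : x ∈ ds H g := ds_mono hXH2 g hx
  rw [← hmap g] at h1
  obtain ⟨y, hy, rfl⟩ := h1
  rw [Subgroup.mem_bot]
  have h2 := hD hy
  rw [MonoidHom.mem_ker] at h2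
  rw [← h2]
  exact ev_coe lam y

end GP48
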