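import Mathlib
import Pool.Agent.LibGP48.YDefs

/-!
# LibGP48 YGL9 (MEDIUM (finite group theory, ONLY YDefs))

GL_2(3) acts on the 4 lines of F_3^2 (kernel ±1): f1 : GLV 3 2 →* Perm (Fin 4), then S_4 → S_3 (see YS43) or directly: GL_2(3) acts by conjugation on the 3 cyclic subgroups of order 4 of Q_8, i.e. on the three pairs {i,-i}, {j,-j}, {k,-k} of trace 0 determinant 1 matrices
i = [[0,-1],[1,0]], j = [[1,1],[1,-1]], k = i*j = [[-1,1],[1,1]]. Kernel of θ = Q_8 (elements commuting with i, j, k up to sign: 48/6 = 8 elements): squares of elements of Q_8 are ±1, and x^2 = 1 only for x = ±1. Suggestion: work with matrices Matrix (Fin 2) (Fin 2) (ZMod 3) (81 matrices, `decide`),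
transport to GLV by LinearMap.toMatrix' / Matrix.toLin' (x : GLV 3 2 ↦ matrix of x, multiplicative, injective). Facts needed (decidable over the 81 matrices with nonzero determinant): for every invertible x and t in {i,j,k}: x t x⁻¹ is ± one of i, j, k (x t = ± t' x);
if x t = ± t x for t = i, j then x*x = ±1, and x*x = 1 → x = ±1.
-/

namespace GP48

open Subgroup

private abbrev YGL9_M := Matrix (Fin 2) (Fin 2) (ZMod 3)

/-- the quaternion units -/
private def YGL9_t : Fin 3 → YGL9_M := ![!![0, -1; 1, 0], !![1, 1; 1, -1], !![-1, 1; 1, 1]]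

/-- `M t_s M⁻¹ = ± t_s'` -/
private abbrev YGL9_R (M : YGL9_M) (s s' : Fin 3) : Prop :=
  M * YGL9_t s = YGL9_t s' * M ∨ M * YGL9_t s = -(YGL9_t s' * M)

private theorem YGL9_f1 : ∀ a b c d : ZMod 3, a * d - b * c ≠ 0 →
    ∀ s, ∃ s', YGL9_R !![a, b; c, d] s s' := by
  decide +kernel

private theorem YGL9_f2 : ∀ s s' : Fin 3,
    (YGL9_t s = YGL9_t s' ∨ YGL9_t s = -YGL9_t s') → s = s' := by
  decide +kernel

private theorem YGL9_f3 : ∀ a b c d : ZMod 3, a * d - b * c ≠ 0 →
    (∀ s, YGL9_R !![a, b; c, d] s s) →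
    !![a, b; c, d] * !![a, b; c, d] = (1 : YGL9_M) ∨
      !![a, b; c, d] * !![a, b; c, d] = (-1 : YGL9_M) := by
  decide +kernel

private theorem YGL9_f4 : ∀ a b c d : ZMod 3, a * d - b * c ≠ 0 →
    ((∀ s, YGL9_R !![a, b; c, d] s s) ∧ !![a, b; c, d] * !![a, b; c, d] = (1 : YGL9_M)) →
    (!![a, b; c, d] = (1 : YGL9_M) ∨ !![a, b; c, d] = (-1 : YGL9_M)) := by
  decide +kernel

private theorem YGL9_det {M N : YGL9_M} (h : M * N = 1) : M 0 0 * M 1 1 - M 0 1 * M 1 0 ≠ 0 := by
  intro h0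
  have h1 : M.det * N.det = 1 := by rw [← Matrix.det_mul, h, Matrix.det_one]
  rw [Matrix.det_fin_two M, h0, zero_mul] at h1
  exact absurd h1 (by decide)

private theorem YGL9_g1 {M N : YGL9_M} (h : M * N = 1) (s : Fin 3) : ∃ s', YGL9_R M s s' := by
  have h1 := YGL9_f1 _ _ _ _ (YGL9_det h) s
  rwa [← Matrix.eta_fin_two M] at h1

private theorem YGL9_g2 {M N : YGL9_M} (h : M * N = 1) {s s' s'' : Fin 3} (h1 : YGL9_R M s s')
    (h2 : YGL9_R M s s'') : s' = s'' := by
  apply YGL9_f2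
  have key : ∀ t t' : YGL9_M, t * M = t' * M → t = t' := by
    intro t t' ht
    have h3 := congrArg (fun X => X * N) ht
    simp only [mul_assoc, h, mul_one] at h3
    exact h3
  rcases h1 with h1 | h1 <;> rcases h2 with h2 | h2
  · left
    exact key _ _ (h1.symm.trans h2)
  · right
    apply key
    rw [neg_mul]
    exact h1.symm.trans h2
  · right
    apply key
    rw [neg_mul]
    have h3 := h1.symm.trans h2
    rw [← h3, neg_neg]
  · left
    apply key
    have h3 := h1.symm.trans h2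
    exact neg_injective h3

private theorem YGL9_comp {M M' : YGL9_M} {s s' s'' : Fin 3} (h' : YGL9_R M' s s')
    (h : YGL9_R M s' s'') : YGL9_R (M * M') s s'' := by
  rcases h' with h' | h' <;> rcases h with h | h
  · left
    rw [mul_assoc, h', ← mul_assoc, h, mul_assoc]
  · right
    rw [mul_assoc, h', ← mul_assoc, h, neg_mul, mul_assoc]
  · right
    rw [mul_assoc, h', mul_neg, ← mul_assoc, h, mul_assoc]
  · left
    rw [mul_assoc, h', mul_neg, ← mul_assoc, h, neg_mul, neg_neg, mul_assoc]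

private noncomputable def YGL9_mt (x : GLV 3 2) : YGL9_M :=
  LinearMap.toMatrix' (x : VV 3 2 →ₗ[ZMod 3] VV 3 2)

private theorem YGL9_mt_mul (x y : GLV 3 2) : YGL9_mt (x * y) = YGL9_mt x * YGL9_mt y := by
  unfold YGL9_mt
  rw [← LinearMap.toMatrix'_mul]
  rfl

private theorem YGL9_mt_one : YGL9_mt 1 = 1 := by
  unfold YGL9_mt
  exact LinearMap.toMatrix'_one

private theorem YGL9_mt_ng : YGL9_mt ng = -1 := by
  unfold YGL9_mt
  have h1 : ((ng : GLV 3 2) : VV 3 2 →ₗ[ZMod 3] VV 3 2) = -1 := by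
    ext1
    rfl
  rw [h1, map_neg, LinearMap.toMatrix'_one]

private theorem YGL9_mt_inj {x y : GLV 3 2} (h : YGL9_mt x = YGL9_mt y) : x = y := by
  unfold YGL9_mt at h
  have h1 := LinearMap.toMatrix'.injective h
  exact LinearEquiv.toLinearMap_injective h1

private theorem YGL9_inv (x : GLV 3 2) : YGL9_mt x * YGL9_mt x⁻¹ = 1 := by
  rw [← YGL9_mt_mul, mul_inv_cancel, YGL9_mt_one]

private theorem YGL9_inv' (x : GLV 3 2) : YGL9_mt x⁻¹ * YGL9_mt x = 1 := by
  rw [← YGL9_mt_mul, inv_mul_cancel, YGL9_mt_one]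

theorem YGL9 : ∃ θ : GLV 3 2 →* Equiv.Perm (Fin 3),
    (∀ x, θ x = 1 → x * x ∈ pm9) ∧ ∀ x, θ x = 1 → x * x = 1 → x ∈ pm9 := by
  choose σ hσ using fun (x : GLV 3 2) (s : Fin 3) => YGL9_g1 (YGL9_inv x) s
  have hone : ∀ s, YGL9_R (YGL9_mt 1) s s := by
    intro s
    left
    rw [YGL9_mt_one, one_mul, mul_one]
  have hmul : ∀ x y s, σ (x * y) s = σ x (σ y s) := by
    intro x y s
    have h1 := YGL9_comp (hσ y s) (hσ x (σ y s))
    rw [← YGL9_mt_mul] at h1
    exact YGL9_g2 (YGL9_inv (x * y)) (hσ (x * y) s) h1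
  have h1s : ∀ s, σ 1 s = s := fun s => YGL9_g2 (YGL9_inv 1) (hσ 1 s) (hone s)
  let θ : GLV 3 2 →* Equiv.Perm (Fin 3) :=
    { toFun := fun x =>
        { toFun := σ x
          invFun := σ x⁻¹
          left_inv := fun s => by rw [← hmul, inv_mul_cancel, h1s]
          right_inv := fun s => by rw [← hmul, mul_inv_cancel, h1s] }
      map_one' := by
        ext1 s
        exact h1s s
      map_mul' := fun x y => by
        ext1 s
        exact hmul x y s }
  have hθ : ∀ x, θ x = 1 → ∀ s, YGL9_R (YGL9_mt x) s s := by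
    intro x hx s
    have h1 : σ x s = s := Equiv.congr_fun hx s
    have h2 := hσ x s
    rw [h1] at h2
    exact h2
  refine ⟨θ, ?_, ?_⟩
  · intro x hx
    have h1 := YGL9_f3 _ _ _ _ (YGL9_det (YGL9_inv x))
    rw [← Matrix.eta_fin_two (YGL9_mt x)] at h1
    rw [mem_pm9]
    rcases h1 (hθ x hx) with h2 | h2
    · left
      apply YGL9_mt_inj
      rw [YGL9_mt_mul, h2, YGL9_mt_one]
    · right
      apply YGL9_mt_inj
      rw [YGL9_mt_mul, h2, YGL9_mt_ng]
  · intro x hx hxx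
    have h1 := YGL9_f4 _ _ _ _ (YGL9_det (YGL9_inv x))
    rw [← Matrix.eta_fin_two (YGL9_mt x)] at h1
    rw [mem_pm9]
    rcases h1 ⟨hθ x hx, by rw [← YGL9_mt_mul, hxx, YGL9_mt_one]⟩ with h2 | h2
    · left
      apply YGL9_mt_inj
      rw [h2, YGL9_mt_one]
    · right
      apply YGL9_mt_inj
      rw [h2, YGL9_mt_ng]

end GP48
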