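import Mathlib
import Pool.Agent.LibGP48.YDefs
import Pool.Agent.LibGP48.YGL9
import Pool.Agent.LibGP48.YAL
import Pool.Agent.LibGP48.YE0

/-!
# LibGP48 YB9a (MEDIUM (assembly))

θ is given with its two properties (h1, h2). C <= pre lam ⊥ (YALb). m = ⌊b⌋₊. Case A: x^2 ∈ C for all x ∈ X n wball S m. Then for such x all values t of x under lam satisfy θ t = 1, t^2 = 1 (evc_pow), so t ∈ pm9 (h2): x ∈ pre lam pm9; X = closure (X n wball) <= pre lam pm9; X' = ⁅X,X⁆ <= pre lam ⊥ (pre_comm_bot with pm9_comm);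
if X' <= C: YY with X; else X' at 4^κ b (YE0) and ⁅X',X'⁆ <= H'.normalCore (YALa): AA with X'. Case B: some x^2 ∉ C: X2 = normalClosure of the squares (YE0p, j = 2, R = 0), at 2^κ b, ¬ X2 <= C, X2 <= pre lam pm9 (h1; normalClosure_le_normal), X3 = ⁅X2,X2⁆ <= pre lam ⊥; if X3 <= C: YY with X2;
else X3 at 4^κ 2^κ b = 8^κ b: AA with X3 (YALa).
-/

namespace GP48

open Subgroup

private lemma YB9a_le {κ b : ℝ} (hκ : 0 ≤ κ) (c : ℝ) (hc : 1 ≤ c) (hb : 0 ≤ b) :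
    b ≤ c ^ κ * b :=
  le_mul_of_one_le_left hb (Real.one_le_rpow hc hκ)

/-- a normal subgroup with values in the quaternion group -/
theorem YB9a {G : Type*} [Group G] {S : Set G} {κ : ℝ} {c1 : ℕ} (hc : CostE S κ c1)
    (hκ : 0 ≤ κ) {C : Subgroup G} (hC : C.Normal) {H' H : Subgroup G} (hCH : C ≤ H')
    {lam : H →* GLV 3 2} {τ : H → VV 3 2} (hAff : Aff H' H 3 2 lam τ)
    (θ : GLV 3 2 →* Equiv.Perm (Fin 3)) (h1 : ∀ x, θ x = 1 → x * x ∈ pm9)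
    (h2 : ∀ x, θ x = 1 → x * x = 1 → x ∈ pm9) (X : Subgroup G) (b : ℝ) (hb : (c1 : ℝ) ≤ b)
    (hX : Rch S X ⌊b⌋₊) (hXC : ¬ X ≤ C) (hXθ : X ≤ pre lam θ.ker) :
    YY S C ((8 : ℝ) ^ κ * b) ∨ AA S C H' ((8 : ℝ) ^ κ * b) := by
  have hCpre : C ≤ pre lam ⊥ := YALb hAff C hC hCH
  have hb0 : (0 : ℝ) ≤ b := (Nat.cast_nonneg c1).trans hb
  have hX8 : b ≤ (8 : ℝ) ^ κ * b := YB9a_le hκ 8 (by norm_num) hb0
  have h48 : (4 : ℝ) ^ κ * b ≤ (8 : ℝ) ^ κ * b :=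
    mul_le_mul_of_nonneg_right (Real.rpow_le_rpow (by norm_num) (by norm_num) hκ) hb0
  have h28 : (2 : ℝ) ^ κ * b ≤ (8 : ℝ) ^ κ * b :=
    mul_le_mul_of_nonneg_right (Real.rpow_le_rpow (by norm_num) (by norm_num) hκ) hb0
  have hcomm : ∀ x ∈ pm9, ∀ y ∈ pm9, x * y = y * x := fun x hx y _ => pm9_comm x hx y
  by_cases hA : ∀ x ∈ (X : Set G) ∩ wball S ⌊b⌋₊, x ^ 2 ∈ C
  · -- case A
    have hXpm : X ≤ pre lam pm9 := by
      conv_lhs => rw [hX.gen]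
      rw [closure_le]
      intro x hx
      have hxθ := hXθ hx.1
      refine ⟨hxθ.1, fun y => ?_⟩
      have hθ : θ (ev lam (y⁻¹ * x * y)) = 1 := hxθ.2 y
      refine h2 _ hθ ?_
      have h3 := (hCpre (hA x hx)).2 y
      rw [Subgroup.mem_bot, evc_pow lam hxθ.1 y 2, sq] at h3
      exact h3
    have hX' : ⁅X, X⁆ ≤ pre lam ⊥ := pre_comm_bot lam hcomm hXpm
    by_cases hXX : ⁅X, X⁆ ≤ C
    · exact Or.inl ⟨X, hX.monoR hX8, hXC, hXX⟩
    · right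
      have hY := YE0 hc b hb X hX
      exact AA.mono ⟨⁅X, X⁆, hY, hXX, YALa hAff _ hY.nor hX'⟩ h48
  · -- case B
    push Not at hA
    obtain ⟨x, hx, hxC⟩ := hA
    have hR2 := YE0p (S := S) hc b 2 0 le_rfl (by simpa using hb) X
    set X2 := normalClosure {q | ∃ x ∈ (X : Set G) ∩ wball S (⌊b⌋₊ + 0), q = x ^ 2} with hX2
    have hX2C : ¬ X2 ≤ C := fun h => hxC (h (subset_normalClosure ⟨x, by simpa using hx, rfl⟩))
    have hX2pm : X2 ≤ pre lam pm9 := by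
      rw [hX2]
      refine normalClosure_le_normal ?_
      rintro q ⟨z, hz, rfl⟩
      have hzθ := hXθ hz.1
      refine ⟨H.normalCore.pow_mem hzθ.1 2, fun y => ?_⟩
      rw [evc_pow lam hzθ.1 y 2, sq]
      exact h1 _ (hzθ.2 y)
    have hX3 : ⁅X2, X2⁆ ≤ pre lam ⊥ := pre_comm_bot lam hcomm hX2pm
    have hR2' : Rch S X2 ⌊(2 : ℝ) ^ κ * b⌋₊ := by
      have := hR2
      push_cast at this
      exact this
    by_cases hXX : ⁅X2, X2⁆ ≤ C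
    · exact Or.inl ⟨X2, hR2'.monoR h28, hX2C, hXX⟩
    · right
      have hb2 : (c1 : ℝ) ≤ (2 : ℝ) ^ κ * b := hb.trans (YB9a_le hκ 2 (by norm_num) hb0)
      have hY := YE0 hc _ hb2 X2 hR2'
      have e : (4 : ℝ) ^ κ * ((2 : ℝ) ^ κ * b) = (8 : ℝ) ^ κ * b := by
        rw [← mul_assoc, ← Real.mul_rpow (by norm_num) (by norm_num)]
        norm_num
      rw [e] at hY
      exact ⟨⁅X2, X2⁆, hY, hXX, YALa hAff _ hY.nor hX3⟩

end GP48
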