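import Mathlib
import Pool.Agent.LibGP48.YDefs

/-!
# LibGP48 YGT3 (MEDIUM (finite linear algebra over F_3, ONLY YDefs))

x^3 = 1 in GL_2(3) iff x = 1 + N with N^2 = 0 ((x-1)^3 = 0 and size 2). N = [[a,b],[c,-a]] with a^2 + bc = 0: 9 matrices. For x = 1+N, y = 1+M (both with square zero): x y x⁻¹ y⁻¹ has trace 2 + (tr NM)^2 and determinant 1, so its square is -1 iff its trace is 0 iff tr(NM) ≠ 0 iff N, M ≠ 0 and not proportional.
So: x ~ y (cm2 x y = ng) iff N, M nonzero with different kernels (lines). If x ~ y, not x ~ z, z ≠ 1, then z has the same line as x, so z ~ y. Suggestion: matrices over ZMod 3 and decide: the list of the 9 matrices of order dividing 3 (81 matrices: decide), then 9^3 triples: decide.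
-/

namespace GP48

open Subgroup

/-- 2x2 matrices over `ZMod 3` as lists of entries -/
private abbrev YQ := ZMod 3 × ZMod 3 × ZMod 3 × ZMod 3

private def ymq (a b : YQ) : YQ :=
  (a.1 * b.1 + a.2.1 * b.2.2.1, a.1 * b.2.1 + a.2.1 * b.2.2.2,
    a.2.2.1 * b.1 + a.2.2.2 * b.2.2.1, a.2.2.1 * b.2.1 + a.2.2.2 * b.2.2.2)

private def ycc (a b : YQ) : YQ :=
  ymq (ymq (ymq (ymq a b) (ymq a a)) (ymq b b)) (ymq (ymq (ymq a b) (ymq a a)) (ymq b b))

private def yL : List YQ :=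
  [(1, 0, 0, 1), (1, 1, 0, 1), (1, 2, 0, 1), (1, 0, 1, 1), (1, 0, 2, 1),
   (2, 1, 2, 0), (2, 2, 1, 0), (0, 1, 2, 2), (0, 2, 1, 2)]

private lemma yL_mem : ∀ q : YQ, ymq (ymq q q) q = (1, 0, 0, 1) → q ∈ yL := by
  decide +kernel

private lemma yL_triple0 : (yL.all fun x => yL.all fun y => yL.all fun z =>
    decide (z ≠ (1, 0, 0, 1) → ycc x y = (2, 0, 0, 2) → ycc x z ≠ (2, 0, 0, 2) →
      ycc z y = (2, 0, 0, 2))) = true := by
  decide +kernel

private lemma yL_triple (x : YQ) (hx : x ∈ yL) (y : YQ) (hy : y ∈ yL) (z : YQ) (hz : z ∈ yL)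
    (h0 : z ≠ (1, 0, 0, 1)) (h1 : ycc x y = (2, 0, 0, 2)) (h2 : ycc x z ≠ (2, 0, 0, 2)) :
    ycc z y = (2, 0, 0, 2) :=
  of_decide_eq_true (List.all_eq_true.mp (List.all_eq_true.mp (List.all_eq_true.mp yL_triple0
    x hx) y hy) z hz) h0 h1 h2

private def yq (f : GLV 3 2) : YQ :=
  (LinearMap.toMatrix' (f : VV 3 2 →ₗ[ZMod 3] VV 3 2) 0 0,
   LinearMap.toMatrix' (f : VV 3 2 →ₗ[ZMod 3] VV 3 2) 0 1,
   LinearMap.toMatrix' (f : VV 3 2 →ₗ[ZMod 3] VV 3 2) 1 0,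
   LinearMap.toMatrix' (f : VV 3 2 →ₗ[ZMod 3] VV 3 2) 1 1)

private lemma yq_mul (f g : GLV 3 2) : yq (f * g) = ymq (yq f) (yq g) := by
  have h : LinearMap.toMatrix' ((f * g : GLV 3 2) : VV 3 2 →ₗ[ZMod 3] VV 3 2)
      = LinearMap.toMatrix' (f : VV 3 2 →ₗ[ZMod 3] VV 3 2)
        * LinearMap.toMatrix' (g : VV 3 2 →ₗ[ZMod 3] VV 3 2) := by
    rw [← LinearMap.toMatrix'_comp]
    rfl
  unfold yq ymq
  rw [h]
  simp [Matrix.mul_apply, Fin.sum_univ_two]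

private lemma yq_one : yq 1 = (1, 0, 0, 1) := by
  have h : LinearMap.toMatrix' ((1 : GLV 3 2) : VV 3 2 →ₗ[ZMod 3] VV 3 2) = 1 :=
    LinearMap.toMatrix'_id
  unfold yq
  rw [h]
  simp

private lemma yq_ng : yq ng = (2, 0, 0, 2) := by
  have h : LinearMap.toMatrix' (ng : VV 3 2 →ₗ[ZMod 3] VV 3 2) = -1 := by
    have h' : (ng : VV 3 2 →ₗ[ZMod 3] VV 3 2) = -LinearMap.id := by
      ext v
      simp [ng_apply]
    rw [h', map_neg, LinearMap.toMatrix'_id]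
  unfold yq
  rw [h]
  simp only [Matrix.neg_apply, Matrix.one_apply_eq, ne_eq, zero_ne_one, not_false_eq_true,
    Matrix.one_apply_ne, neg_zero, one_ne_zero]
  decide

private lemma yq_inj {f g : GLV 3 2} (h : yq f = yq g) : f = g := by
  unfold yq at h
  simp only [Prod.mk.injEq] at h
  obtain ⟨h1, h2, h3, h4⟩ := h
  have e : (f : VV 3 2 →ₗ[ZMod 3] VV 3 2) = (g : VV 3 2 →ₗ[ZMod 3] VV 3 2) := by
    apply LinearMap.toMatrix'.injective
    ext i j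
    fin_cases i <;> fin_cases j
    · exact h1
    · exact h2
    · exact h3
    · exact h4
  exact LinearEquiv.toLinearMap_injective e

private lemma yq_cube {x : GLV 3 2} (hx : x ^ 3 = 1) : yq x ∈ yL := by
  apply yL_mem
  rw [← yq_mul, ← yq_mul, ← yq_one, ← hx, pow_succ, pow_two]

private lemma yq_cm2 {x y : GLV 3 2} (hx : x ^ 3 = 1) (hy : y ^ 3 = 1) :
    yq (cm2 x y) = ycc (yq x) (yq y) := by
  have ix : x⁻¹ = x * x := by
    rw [inv_eq_iff_mul_eq_one, ← pow_two, ← pow_succ', hx]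
  have iy : y⁻¹ = y * y := by
    rw [inv_eq_iff_mul_eq_one, ← pow_two, ← pow_succ', hy]
  unfold cm2 ycc
  rw [ix, iy, pow_two]
  simp only [yq_mul]

/-- commuting up to sign of elements of order 3 of `GL_2(3)` is complete multipartite -/
theorem YGT3 (x y z : GLV 3 2) (hx : x ^ 3 = 1) (hy : y ^ 3 = 1) (hz : z ^ 3 = 1)
    (hz1 : z ≠ 1) (h1 : cm2 x y = ng) (h2 : cm2 x z ≠ ng) : cm2 z y = ng := by
  have e : ∀ {u : GLV 3 2}, u = ng ↔ yq u = (2, 0, 0, 2) := by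
    intro u
    rw [← yq_ng]
    exact ⟨fun h => by rw [h], fun h => yq_inj h⟩
  rw [e, yq_cm2 hx hy] at h1
  rw [Ne, e, yq_cm2 hx hz] at h2
  rw [e, yq_cm2 hz hy]
  refine yL_triple _ (yq_cube hx) _ (yq_cube hy) _ (yq_cube hz) ?_ h1 h2
  rw [← yq_one]
  exact fun h => hz1 (yq_inj h)

end GP48
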