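import Mathlib
import Pool.Agent.LibGP48.YDefs
import Pool.Agent.LibGP48.YSCH

/-!
# LibGP48 YPT (MEDIUM)

Aff facts: τ 1 = 0; τ (x⁻¹) = - lam x⁻¹ (τ x). The point reflection s (lam s = ng) fixes exactly p with -p + τ s = p, i.e. p = - τ s (3 = 0 in ZMod 3: 2 p = τ s, p = 2 τ s = - τ s). Choose m : H with lam m = 1, τ m = p. D0 = {x : G | ∃ hx : m⁻¹ x m ∈ H'} = conjugate of H' by m (a subgroup of G inside H, index = H'.index);
for x in H: x ∈ D0 iff lam x p + τ x = p (τ (m⁻¹ x m) = 0). D = conjugate of D0 by u: D = {d : u⁻¹ d u ∈ D0}, index = H'.index. Choose t : H with lam t = 1, τ t = q ≠ 0 (e.g. q = fun _ => 1). YSCH with D and n = u t u⁻¹: w ∈ wball S H'.index, n⁻¹ w ∈ D: u⁻¹ w u = t d with d = u⁻¹ (n⁻¹ w) u ∈ D0 <= H. h = t d ∈ H.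
lam h = lam d, τ h = τ d + q, lam d p + τ d = p, so lam h p + τ h = p + q. τ (h s h⁻¹): let v = τ (h s h⁻¹), lam (h s h⁻¹) = ng (ng_comm). From τ (h s) = τ ((h s h⁻¹) h): lam h (τ s) + τ h = - τ h + v, so v = 2 τ h + lam h (τ s) = - τ h - lam h p = - (p + q) ≠ - p = τ s.
-/

namespace GP48

open Subgroup

private lemma YPT_three (v : VV 3 2) : v + v + v = 0 := by
  funext i
  have h : ∀ x : ZMod 3, x + x + x = 0 := by decide
  exact h (v i)

private lemma YPT_one {G : Type*} [Group G] {H' H : Subgroup G} {lam : H →* GLV 3 2}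
    {τ : H → VV 3 2} (hAff : Aff H' H 3 2 lam τ) : τ 1 = 0 := by
  have h := hAff.mul 1 1
  rw [mul_one, map_one] at h
  have h2 : τ 1 = τ 1 + τ 1 := h
  exact left_eq_add.1 h2

private lemma YPT_inv {G : Type*} [Group G] {H' H : Subgroup G} {lam : H →* GLV 3 2}
    {τ : H → VV 3 2} (hAff : Aff H' H 3 2 lam τ) (m : H) (hm : lam m = 1) : τ m⁻¹ = - τ m := by
  have h := hAff.mul m⁻¹ m
  rw [inv_mul_cancel, YPT_one hAff, map_inv, hm, inv_one] at h
  have h2 : (0 : VV 3 2) = τ m + τ m⁻¹ := h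
  exact (neg_eq_of_add_eq_zero_right h2.symm).symm

/-- the conjugate of an element of `H'` -/
private lemma YPT_fix {G : Type*} [Group G] {H' H : Subgroup G} {lam : H →* GLV 3 2}
    {τ : H → VV 3 2} (hAff : Aff H' H 3 2 lam τ) (m : H) (hm : lam m = 1) (d' : H)
    (hd' : (d' : G) ∈ H') : lam (m * d' * m⁻¹) (τ m) + τ (m * d' * m⁻¹) = τ m := by
  have h0 : τ d' = 0 := (hAff.stab d').2 hd'
  have e1 : lam (m * d' * m⁻¹) = lam d' := by
    rw [map_mul, map_mul, map_inv, hm, one_mul, inv_one, mul_one]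
  have e2 : τ (m * d' * m⁻¹) = lam d' (- τ m) + τ m := by
    rw [mul_assoc, hAff.mul, hAff.mul, hm, h0, YPT_inv hAff m hm, add_zero]
    rfl
  rw [e1, e2, map_neg]
  abel

/-- a short element moving the centre of a point reflection -/
theorem YPT {G : Type*} [Group G] {S : Set G} (hS : closure S = ⊤) {H' H : Subgroup G}
    (hH' : H'.index ≠ 0) {lam : H →* GLV 3 2} {τ : H → VV 3 2} (hAff : Aff H' H 3 2 lam τ)
    (u : G) (s : H) (hs : lam s = ng) :
    ∃ w ∈ wball S H'.index, ∃ h : H, (h : G) = u⁻¹ * w * u ∧ τ (h * s * h⁻¹) ≠ τ s := by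
  obtain ⟨m, hm, hmp⟩ := hAff.trans (- τ s)
  obtain ⟨t, ht, htq⟩ := hAff.trans (fun _ => 1)
  set f : G →* G := (MulAut.conj (u * (m : G))⁻¹).toMonoidHom with hf
  have hfs : Function.Surjective f := (MulAut.conj (u * (m : G))⁻¹).surjective
  have hidx : (H'.comap f).index = H'.index := Subgroup.index_comap_of_surjective H' hfs
  obtain ⟨w, hw, hwD⟩ := YSCH hS (H'.comap f) (by rw [hidx]; exact hH') (u * (t : G) * u⁻¹)
  rw [hidx] at hw
  have hd : (m : G)⁻¹ * (t : G)⁻¹ * (u⁻¹ * w * u) * (m : G) ∈ H' := by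
    have h := hwD
    rw [Subgroup.mem_comap, hf] at h
    have e : (MulAut.conj (u * (m : G))⁻¹).toMonoidHom ((u * (t : G) * u⁻¹)⁻¹ * w) =
        (m : G)⁻¹ * (t : G)⁻¹ * (u⁻¹ * w * u) * (m : G) := by
      simp only [MulEquiv.coe_toMonoidHom, MulAut.conj_apply]
      group
    rwa [e] at h
  obtain ⟨d', hd'⟩ : ∃ d' : H, (d' : G) = (m : G)⁻¹ * (t : G)⁻¹ * (u⁻¹ * w * u) * (m : G) :=
    ⟨⟨_, hAff.le hd⟩, rfl⟩
  have hfix := YPT_fix hAff m hm d' (by rw [hd']; exact hd)
  set d : H := m * d' * m⁻¹ with hdd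
  refine ⟨w, hw, t * d, ?_, ?_⟩
  · rw [hdd]
    push_cast
    rw [hd']
    group
  · have e1 : lam (t * d) = lam d := by rw [map_mul, ht, one_mul]
    have e2 : τ (t * d) = τ d + τ t := by
      rw [hAff.mul, ht]
      rfl
    have e3 : lam (t * d) (τ m) + τ (t * d) = τ m + τ t := by
      rw [e1, e2, ← add_assoc, hfix]
    have e4 : lam (t * d * s * (t * d)⁻¹) = ng := by
      rw [map_mul, map_mul, hs, map_inv, ← ng_comm, mul_inv_cancel_right]
    have e5 : τ (t * d * s) = lam (t * d) (τ s) + τ (t * d) := hAff.mul _ _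
    have e6 : τ (t * d * s) = - τ (t * d) + τ (t * d * s * (t * d)⁻¹) := by
      have h := hAff.mul (t * d * s * (t * d)⁻¹) (t * d)
      rw [inv_mul_cancel_right, e4, ng_apply] at h
      exact h
    intro hcon
    rw [hcon] at e6
    have hs' : τ s = - τ m := by rw [hmp, neg_neg]
    rw [hs', map_neg] at e5
    rw [hs'] at e6
    have h3 := YPT_three (τ (t * d))
    have e7 : τ t = 0 := by
      have h7 : - lam (t * d) (τ m) + τ (t * d) = - τ (t * d) + - τ m := e5.symm.trans e6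
      have h8 : τ t = (lam (t * d) (τ m) + τ (t * d)) - τ m := by rw [e3]; abel
      have h9 : lam (t * d) (τ m) = τ (t * d) + τ (t * d) + τ m := by
        have : lam (t * d) (τ m) = τ (t * d) - (- lam (t * d) (τ m) + τ (t * d)) := by abel
        rw [this, h7]
        abel
      rw [h8, h9]
      calc τ (t * d) + τ (t * d) + τ m + τ (t * d) - τ m
          = τ (t * d) + τ (t * d) + τ (t * d) := by abel
        _ = 0 := h3
    rw [e7] at htq
    have h10 := congrFun htq 0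
    have h11 : (0 : ZMod 3) = 1 := h10
    exact absurd h11 (by decide)

end GP48
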