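import Mathlib
import Pool.Agent.LibGP48.YDefs
import Pool.Agent.LibGP48.YPT
import Pool.Agent.LibGP48.YGT3
import Pool.Agent.LibGP48.YAL

/-!
# LibGP48 YB9c (MEDIUM/STRONG)

By contradiction: w30 x y z ∈ C for all x, y, z ∈ I := Q n wball S (m + R). C <= pre lam ⊥ (YALb) and C <= H' (so τ = 0 on C, also on conjugates). For p, q ∈ I write s(p,q) = the element u⁻¹ (cm2 p q) u of H (cm2 p q ∈ Q <= core H), c(p,q) = τ (s(p,q)), E(p,q): lam (s(p,q)) = ng, i.e. cm2 P Q = ng for the values P, Q of p, q at u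
(evc_mul, evc_inv, evc_pow). Values of elements of I have cube 1 (h3). Facts: (F1) E(p,q) -> E(q,p), c(p,q) = c(q,p): cm2 q p = (cm2 p q)⁻¹, and τ (s⁻¹) = τ s if lam s = ng (0 = τ (s s⁻¹) = - τ (s⁻¹) + τ s). (F2) E(x,y), E(x,z) -> c(y,x) = c(x,z): w30 x y z = s s' s⁻¹ s'⁻¹ ∈ C, so its value τ is 0 and s s' = c0 s' s with c0 ∈ H', lam c0 = 1:
τ (s s') = - τ s' + τ s, τ (s' s) = - τ s + τ s', τ(c0 (s' s)) = τ (s' s) + τ c0 = τ(s' s); so 2 (τ s - τ s') = 0, τ s = τ s'. (F3) YGT3: E(x,y), not E(x,z), value of z ≠ 1 -> E(z,y). Let E(x0,y0) (hypothesis hu: the value of cm2 x0 y0 at u is ng). YPT with s = s(x0,y0): w, h. R >= 2 * H'.index: x1 = w x0 w⁻¹, y1 = w y0 w⁻¹ ∈ I.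
s(x1,y1) = h s(x0,y0) h⁻¹, so E(x1,y1) and c(x1,y1) ≠ c(x0,y0). If E(x0,x1): c(x0,y0) = c(y0,x0) = c(x0,x1) [F2 with x = x0, y = y0, z = x1] and c(x0,x1) = c(x1,y1) [F2 with x = x1, y = x0, z = y1, E(x1,x0)]: contradiction. If not E(x0,x1): value of x1 ≠ 1 (E(x1,y1)), so by F3 E(x1,y0), E(y0,x1): c(x0,y0) = c(y0,x1) [F2 with x = y0, y = x0, z = x1],
c(y0,x1) = c(x1,y1) [F2 with x = x1, y = y0, z = y1]: contradiction.
-/

namespace GP48

open Subgroup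

private lemma YB9c_map {G G' : Type*} [Group G] [Group G'] (f : G →* G') (x y : G) :
    f (cm2 x y) = cm2 (f x) (f y) := by
  simp [cm2]

private lemma YB9c_inv {G : Type*} [Group G] (x y : G) : cm2 y x = (cm2 x y)⁻¹ := by
  unfold cm2
  rw [← inv_pow]
  congr 1
  group

private lemma YB9c_ng : ng ≠ 1 := by
  intro h
  have h1 := congrArg (fun f : GLV 3 2 => f (fun _ => 1) 0) h
  revert h1
  decide

private lemma YB9c_ng_inv : ng⁻¹ = ng := inv_eq_of_mul_eq_one_left ng_mul_self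

private lemma YB9c_z3 (a b : VV 3 2) (h : -b + a = -a + b) : a = b := by
  funext i
  have h1 := congrFun h i
  simp only [Pi.add_apply, Pi.neg_apply] at h1
  generalize a i = p at h1 ⊢
  generalize b i = q at h1 ⊢
  revert p q
  decide

/-- common centre argument -/
theorem YB9c {G : Type*} [Group G] {S : Set G} (hS : closure S = ⊤) {C : Subgroup G}
    (hC : C.Normal) {H' H : Subgroup G} (hCH : C ≤ H') (hH' : H'.index ≠ 0)
    {lam : H →* GLV 3 2} {τ : H → VV 3 2} (hAff : Aff H' H 3 2 lam τ) (Q : Subgroup G)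
    (hQ : Q.Normal) (hQH : Q ≤ H.normalCore) (m R : ℕ) (hR : 2 * H'.index ≤ R)
    (h3 : ∀ x ∈ (Q : Set G) ∩ wball S (m + R), x ^ 3 ∈ C) (x0 y0 : G)
    (hx0 : x0 ∈ (Q : Set G) ∩ wball S m) (hy0 : y0 ∈ (Q : Set G) ∩ wball S m) (u : G)
    (hu : ev lam (u⁻¹ * cm2 x0 y0 * u) = ng) :
    ∃ x ∈ (Q : Set G) ∩ wball S (m + R), ∃ y ∈ (Q : Set G) ∩ wball S (m + R),
      ∃ z ∈ (Q : Set G) ∩ wball S (m + R), w30 x y z ∉ C := by
  by_contra hneg
  push Not at hneg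
  have hCl := YALb hAff C hC hCH
  -- evaluation at u
  let e : Q →* H :=
    { toFun := fun q => ⟨u⁻¹ * q * u, core_conj (hQH q.2) u⟩
      map_one' := by
        apply Subtype.ext
        show u⁻¹ * ((1 : Q) : G) * u = 1
        rw [Subgroup.coe_one]
        group
      map_mul' := by
        intro a b
        apply Subtype.ext
        show u⁻¹ * ((a * b : Q) : G) * u = (u⁻¹ * a * u) * (u⁻¹ * b * u)
        rw [Subgroup.coe_mul]
        group }
  have he : ∀ q : Q, ((e q : H) : G) = u⁻¹ * q * u := fun _ => rfl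
  have hcm : ∀ p q : Q, ((cm2 p q : Q) : G) = cm2 (p : G) (q : G) := fun p q => YB9c_map Q.subtype p q
  have hτ1 : τ 1 = 0 := (hAff.stab 1).2 H'.one_mem
  have hτinv : ∀ s : H, lam s = ng → τ s⁻¹ = τ s := by
    intro s hs
    have h1 := hAff.mul s⁻¹ s
    rw [inv_mul_cancel, hτ1, map_inv, hs, YB9c_ng_inv, ng_apply] at h1
    have h2 : τ s⁻¹ - τ s = 0 := by rw [h1]; abel
    exact sub_eq_zero.1 h2
  -- F1
  have F1a : ∀ p q : Q, lam (e (cm2 p q)) = ng → lam (e (cm2 q p)) = ng := by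
    intro p q h
    rw [YB9c_inv p q, map_inv, map_inv, h, YB9c_ng_inv]
  have F1b : ∀ p q : Q, lam (e (cm2 p q)) = ng → τ (e (cm2 q p)) = τ (e (cm2 p q)) := by
    intro p q h
    rw [YB9c_inv p q, map_inv]
    exact hτinv _ h
  -- F2
  have F2 : ∀ x y z : Q, (x : G) ∈ wball S (m + R) → (y : G) ∈ wball S (m + R) →
      (z : G) ∈ wball S (m + R) → lam (e (cm2 x y)) = ng → lam (e (cm2 x z)) = ng →
      τ (e (cm2 y x)) = τ (e (cm2 x z)) := by
    intro x y z hx hy hz h1 h2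
    have h4 := hneg x ⟨x.2, hx⟩ y ⟨y.2, hy⟩ z ⟨z.2, hz⟩
    set s : H := e (cm2 y x) with hs
    set s' : H := e (cm2 x z) with hs'
    have hls : lam s = ng := F1a x y h1
    have h5 : ((s * s' * s⁻¹ * s'⁻¹ : H) : G) ∈ H' := by
      apply hCH
      have h6 : ((s * s' * s⁻¹ * s'⁻¹ : H) : G) = u⁻¹ * w30 (x : G) y z * (u⁻¹)⁻¹ := by
        have h7 : s * s' * s⁻¹ * s'⁻¹ = e (w30 x y z) := by
          simp only [w30, map_mul, map_inv, hs, hs']
        rw [h7, he, inv_inv]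
        have h8 : ((w30 x y z : Q) : G) = w30 (x : G) y z := by
          simp only [w30, Subgroup.coe_mul, Subgroup.coe_inv, hcm]
        rw [h8]
      rw [h6]
      exact hC.conj_mem _ h4 _
    have h6 := (hAff.stab _).2 h5
    have h7 := hAff.mul (s * s' * s⁻¹ * s'⁻¹) (s' * s)
    have h8 : s * s' * s⁻¹ * s'⁻¹ * (s' * s) = s * s' := by group
    have h9 : lam (s * s' * s⁻¹ * s'⁻¹) = 1 := by
      rw [map_mul, map_mul, map_mul, map_inv, map_inv, hls, h2, mul_inv_cancel_right, mul_inv_cancel]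
    have h10 : ∀ v : VV 3 2, (1 : GLV 3 2) v = v := fun _ => rfl
    rw [h8, h6, h9, add_zero, h10, hAff.mul, hAff.mul, hls, h2, ng_apply, ng_apply] at h7
    exact YB9c_z3 _ _ h7
  -- cubes
  have hcube : ∀ x : Q, (x : G) ∈ wball S (m + R) → lam (e x) ^ 3 = 1 := by
    intro x hx
    have h4 := h3 x ⟨x.2, hx⟩
    have h5 := (hCl h4).2 u
    rw [Subgroup.mem_bot] at h5
    rw [← map_pow, ← map_pow, ← ev_coe lam (e (x ^ 3)), he, Subgroup.coe_pow]
    exact h5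
  -- F3
  have F3 : ∀ x y z : Q, (x : G) ∈ wball S (m + R) → (y : G) ∈ wball S (m + R) →
      (z : G) ∈ wball S (m + R) → lam (e z) ≠ 1 → lam (e (cm2 x y)) = ng →
      lam (e (cm2 x z)) ≠ ng → lam (e (cm2 z y)) = ng := by
    intro x y z hx hy hz hz1 h1 h2
    rw [YB9c_map, YB9c_map] at h1 h2 ⊢
    exact YGT3 _ _ _ (hcube x hx) (hcube y hy) (hcube z hz) hz1 h1 h2
  -- start
  have hwm : wball S m ⊆ wball S (m + R) := wball_mono S (by omega)
  let X0 : Q := ⟨x0, hx0.1⟩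
  let Y0 : Q := ⟨y0, hy0.1⟩
  have hE0 : lam (e (cm2 X0 Y0)) = ng := by
    rw [← ev_coe lam (e (cm2 X0 Y0)), he, hcm]
    exact hu
  obtain ⟨w, hw, h, hh, hne⟩ := YPT hS hH' hAff u (e (cm2 X0 Y0)) hE0
  have hconj : ∀ x ∈ (Q : Set G) ∩ wball S m, w * x * w⁻¹ ∈ (Q : Set G) ∩ wball S (m + R) := by
    intro x hx
    refine ⟨hQ.conj_mem x hx.1 w, ?_⟩
    have h4 := wball_mul (wball_mul hw hx.2) (wball_inv hw)
    exact wball_mono S (by omega) h4
  let X1 : Q := ⟨w * x0 * w⁻¹, (hconj x0 hx0).1⟩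
  let Y1 : Q := ⟨w * y0 * w⁻¹, (hconj y0 hy0).1⟩
  have heX : e X1 = h * e X0 * h⁻¹ := by
    apply Subtype.ext
    show u⁻¹ * (w * x0 * w⁻¹) * u = (h : G) * (u⁻¹ * x0 * u) * (h : G)⁻¹
    rw [hh]
    group
  have heY : e Y1 = h * e Y0 * h⁻¹ := by
    apply Subtype.ext
    show u⁻¹ * (w * y0 * w⁻¹) * u = (h : G) * (u⁻¹ * y0 * u) * (h : G)⁻¹
    rw [hh]
    group
  have hec : e (cm2 X1 Y1) = h * e (cm2 X0 Y0) * h⁻¹ := by
    rw [YB9c_map, YB9c_map, heX, heY]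
    have := YB9c_map (MulAut.conj h).toMonoidHom (e X0) (e Y0)
    exact this.symm
  have hE1 : lam (e (cm2 X1 Y1)) = ng := by
    rw [hec, map_mul, map_mul, hE0, ← ng_comm, map_inv, mul_inv_cancel_right]
  have hc1 : τ (e (cm2 X1 Y1)) ≠ τ (e (cm2 X0 Y0)) := by
    rw [hec]
    exact hne
  have bX0 : (X0 : G) ∈ wball S (m + R) := hwm hx0.2
  have bY0 : (Y0 : G) ∈ wball S (m + R) := hwm hy0.2
  have bX1 : (X1 : G) ∈ wball S (m + R) := (hconj x0 hx0).2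
  have bY1 : (Y1 : G) ∈ wball S (m + R) := (hconj y0 hy0).2
  by_cases hE : lam (e (cm2 X0 X1)) = ng
  · apply hc1
    have e1 := F1b X0 Y0 hE0
    have e2 := F2 X0 Y0 X1 bX0 bY0 bX1 hE0 hE
    have e3 := F2 X1 X0 Y1 bX1 bX0 bY1 (F1a _ _ hE) hE1
    rw [← e3, ← e2, e1]
  · have hX1 : lam (e X1) ≠ 1 := by
      intro h1
      rw [YB9c_map, YB9c_map, h1] at hE1
      apply YB9c_ng
      rw [← hE1]
      simp [cm2]
    have hE2 := F3 X0 Y0 X1 bX0 bY0 bX1 hX1 hE0 hE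
    apply hc1
    have e1 := F2 Y0 X0 X1 bY0 bX0 bX1 (F1a _ _ hE0) (F1a _ _ hE2)
    have e2 := F2 X1 Y0 Y1 bX1 bY0 bY1 hE2 hE1
    rw [← e2, ← e1]

end GP48
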