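import Mathlib
import Pool.Agent.LibGP48.YDefs
import Pool.Agent.LibGP48.YB9a
import Pool.Agent.LibGP48.YB9c

/-!
# LibGP48 YB9b (MEDIUM/STRONG (assembly))

m = ⌊b⌋₊, R = 2 * H'.index, I = Q n wball S (m+R). C <= pre lam ⊥ (YALb). θ(values of Q) ∈ A_3 (commutative), so for x, y ∈ Q: value c of x y x⁻¹ y⁻¹ has θ c = 1; value of cm2 x y is in pm9 (h1).
(a) some x ∈ I with x^3 ∉ C: Q3 = normalClosure of the cubes of I (YE0p j = 3), at 3^κ b, Q3 <= pre lam θ.ker (θ value^3 = 1, A_3 has exponent 3: decide; normalClosure_le_normal): YB9a at 3^κ b (>= c1): total 24^κ <= 30^κ. (b) otherwise all cubes of I are in C.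
(b1) cm2 x y ∈ C for all x, y ∈ Q n wball S m: value c of the commutator: θ c = 1, c^2 = 1, so c ∈ pm9 (h2): by G3 (T = Q, N = pre lam pm9; G3 is imported by YE0) Q1 = ⁅Q,Q⁆ <= pre lam pm9; if Q1 <= C: YY with Q. Q1 at 4^κ b; Q2 = ⁅Q1,Q1⁆ <= pre lam ⊥; if Q2 <= C: YY with Q1; else AA with Q2 at 16^κ b (YALa).
(b2) cm2 x y ∉ C for some x, y ∈ Q n wball S m, but all values (all y, all such pairs) of cm2 are 1: F = normalClosure {cm2 x y : x, y ∈ Q n wball S m} (CostE.ncl, c = 8, R = 0, YE0c) <= pre lam ⊥: AA with F at 8^κ b (YALa). (b3) some value ≠ 1 at some u, so = ng: YB9c: x, y, z ∈ I with w30 x y z ∉ C.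
E30 = normalClosure {w30 x y z : x, y, z ∈ I} (CostE.ncl c = 30, YE0w) <= pre lam ⊥ (values of cm2 in pm9, which is central: pm9_comm), ¬ <= C: AA with E30 at 30^κ b (YALa).
-/

namespace GP48

open Subgroup

private lemma YB9b_le {κ b : ℝ} (hκ : 0 ≤ κ) (c : ℝ) (hc : 1 ≤ c) (hb : 0 ≤ b) :
    b ≤ c ^ κ * b :=
  le_mul_of_one_le_left hb (Real.one_le_rpow hc hκ)

private lemma YB9b_cube0 : ∀ p : Equiv.Perm (Fin 3), Equiv.Perm.sign p = 1 → p ^ 3 = 1 := by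
  decide

private lemma YB9b_cube (p : Equiv.Perm (Fin 3)) (hp : p ∈ alternatingGroup (Fin 3)) :
    p ^ 3 = 1 := YB9b_cube0 p (Equiv.Perm.mem_alternatingGroup.1 hp)

private lemma YB9b_comm0 : ∀ p q : Equiv.Perm (Fin 3), Equiv.Perm.sign p = 1 →
    Equiv.Perm.sign q = 1 → p * q = q * p := by
  decide

private lemma YB9b_comm (p : Equiv.Perm (Fin 3)) (hp : p ∈ alternatingGroup (Fin 3))
    (q : Equiv.Perm (Fin 3)) (hq : q ∈ alternatingGroup (Fin 3)) : p * q = q * p :=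
  YB9b_comm0 p q (Equiv.Perm.mem_alternatingGroup.1 hp) (Equiv.Perm.mem_alternatingGroup.1 hq)

/-- a normal subgroup with even values -/
theorem YB9b {G : Type*} [Group G] {S : Set G} {κ : ℝ} {c1 : ℕ} (hc : CostE S κ c1)
    (hS : closure S = ⊤) (hκ : 0 ≤ κ) {C : Subgroup G} (hC : C.Normal) {H' H : Subgroup G}
    (hCH : C ≤ H') (hH' : H'.index ≠ 0) {lam : H →* GLV 3 2} {τ : H → VV 3 2}
    (hAff : Aff H' H 3 2 lam τ) (θ : GLV 3 2 →* Equiv.Perm (Fin 3))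
    (h1 : ∀ x, θ x = 1 → x * x ∈ pm9) (h2 : ∀ x, θ x = 1 → x * x = 1 → x ∈ pm9)
    (Q : Subgroup G) (b : ℝ) (hb : (c1 : ℝ) * (2 * (H'.index : ℝ) + 1) ≤ b)
    (hQ : Rch S Q ⌊b⌋₊) (hQC : ¬ Q ≤ C) (hQθ : Q ≤ pre (θ.comp lam) (alternatingGroup (Fin 3))) :
    YY S C ((30 : ℝ) ^ κ * b) ∨ AA S C H' ((30 : ℝ) ^ κ * b) := by
  have hCpre : C ≤ pre lam ⊥ := YALb hAff C hC hCH
  have hc0 : (0 : ℝ) ≤ (c1 : ℝ) := Nat.cast_nonneg c1
  have hi0 : (0 : ℝ) ≤ (H'.index : ℝ) := Nat.cast_nonneg _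
  have hb1 : (c1 : ℝ) ≤ b := by
    refine le_trans ?_ hb
    nlinarith
  have hb0 : (0 : ℝ) ≤ b := hc0.trans hb1
  have hR : (c1 : ℝ) * (((2 * H'.index : ℕ) : ℝ) + 1) ≤ b := by
    push_cast
    exact hb
  have hmon : ∀ c : ℝ, 0 ≤ c → c ≤ 30 → c ^ κ * b ≤ (30 : ℝ) ^ κ * b := fun c h0 h30 =>
    mul_le_mul_of_nonneg_right (Real.rpow_le_rpow h0 h30 hκ) hb0
  have hb30 : b ≤ (30 : ℝ) ^ κ * b := YB9b_le hκ 30 (by norm_num) hb0
  have hcomm : ∀ x ∈ pm9, ∀ y ∈ pm9, x * y = y * x := fun x hx y _ => pm9_comm x hx y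
  have hQH : Q ≤ H.normalCore := fun x hx => (hQθ hx).1
  have hQv : ∀ x ∈ Q, ∀ v : G, ev (θ.comp lam) (v⁻¹ * x * v) ∈ alternatingGroup (Fin 3) :=
    fun x hx v => (hQθ hx).2 v
  have hev : ∀ x ∈ Q, ∀ v : G, ev (θ.comp lam) (v⁻¹ * x * v) = θ (ev lam (v⁻¹ * x * v)) := by
    intro x hx v
    have hm := core_conj (hQH hx) v
    rw [ev_mem _ hm, ev_mem _ hm]
    rfl
  by_cases hcube : ∀ x ∈ (Q : Set G) ∩ wball S (⌊b⌋₊ + 2 * H'.index), x ^ 3 ∈ C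
  swap
  · -- (a)
    push Not at hcube
    obtain ⟨x, hx, hxC⟩ := hcube
    have hR3 := YE0p (S := S) hc b 3 (2 * H'.index) (by norm_num) hR Q
    set Q3 := normalClosure {q | ∃ x ∈ (Q : Set G) ∩ wball S (⌊b⌋₊ + 2 * H'.index), q = x ^ 3}
      with hQ3
    have hQ3C : ¬ Q3 ≤ C := fun h => hxC (h (subset_normalClosure ⟨x, hx, rfl⟩))
    have hR3' : Rch S Q3 ⌊(3 : ℝ) ^ κ * b⌋₊ := by
      have := hR3
      push_cast at this
      exact this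
    have hQ3θ : Q3 ≤ pre lam θ.ker := by
      rw [hQ3]
      refine normalClosure_le_normal ?_
      rintro q ⟨z, hz, rfl⟩
      refine ⟨H.normalCore.pow_mem (hQH hz.1) 3, fun y => ?_⟩
      rw [evc_pow lam (hQH hz.1) y 3, MonoidHom.mem_ker, map_pow, ← hev z hz.1 y]
      exact YB9b_cube _ (hQv z hz.1 y)
    have hb3 : (c1 : ℝ) ≤ (3 : ℝ) ^ κ * b := hb1.trans (YB9b_le hκ 3 (by norm_num) hb0)
    have h := YB9a hc hκ hC hCH hAff θ h1 h2 Q3 _ hb3 hR3' hQ3C hQ3θ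
    have e : (8 : ℝ) ^ κ * ((3 : ℝ) ^ κ * b) = (24 : ℝ) ^ κ * b := by
      rw [← mul_assoc, ← Real.mul_rpow (by norm_num) (by norm_num)]
      norm_num
    rw [e] at h
    have h24 := hmon 24 (by norm_num) (by norm_num)
    exact h.imp (fun h => h.mono h24) (fun h => h.mono h24)
  -- (b)
  have hcmv : ∀ x ∈ Q, ∀ y ∈ Q, ∀ v : G,
      θ (ev lam (v⁻¹ * (x * y * x⁻¹ * y⁻¹) * v)) = 1 := by
    intro x hx y hy v
    have hx' := Q.inv_mem hx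
    have hy' := Q.inv_mem hy
    rw [evc_mul lam (H.normalCore.mul_mem (H.normalCore.mul_mem (hQH hx) (hQH hy)) (hQH hx'))
      (hQH hy'), evc_mul lam (H.normalCore.mul_mem (hQH hx) (hQH hy)) (hQH hx'),
      evc_mul lam (hQH hx) (hQH hy), evc_inv lam (hQH hx), evc_inv lam (hQH hy)]
    rw [map_mul, map_mul, map_mul, map_inv, map_inv, ← hev x hx v, ← hev y hy v]
    rw [YB9b_comm _ (hQv x hx v) _ (hQv y hy v)]
    group
  have hcmm : ∀ x ∈ Q, ∀ y ∈ Q, x * y * x⁻¹ * y⁻¹ ∈ Q := fun x hx y hy =>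
    Q.mul_mem (Q.mul_mem (Q.mul_mem hx hy) (Q.inv_mem hx)) (Q.inv_mem hy)
  have hcm2 : ∀ x ∈ Q, ∀ y ∈ Q, cm2 x y ∈ Q := fun x hx y hy => Q.pow_mem (hcmm x hx y hy) 2
  have hcm2v : ∀ x ∈ Q, ∀ y ∈ Q, ∀ v : G, ev lam (v⁻¹ * cm2 x y * v) ∈ pm9 := by
    intro x hx y hy v
    have e : ev lam (v⁻¹ * cm2 x y * v) = ev lam (v⁻¹ * (x * y * x⁻¹ * y⁻¹) * v) *
        ev lam (v⁻¹ * (x * y * x⁻¹ * y⁻¹) * v) := by
      rw [cm2, evc_pow lam (hQH (hcmm x hx y hy)) v 2, sq]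
    rw [e]
    exact h1 _ (hcmv x hx y hy v)
  by_cases hB1 : ∀ x ∈ (Q : Set G) ∩ wball S ⌊b⌋₊, ∀ y ∈ (Q : Set G) ∩ wball S ⌊b⌋₊, cm2 x y ∈ C
  · -- (b1)
    have hQ1 : ⁅Q, Q⁆ ≤ pre lam pm9 := by
      refine G3 Q _ hQ.gen (pre lam pm9) ?_
      intro x hx y hy
      refine ⟨hQH (hcmm x hx.1 y hy.1), fun v => ?_⟩
      refine h2 _ (hcmv x hx.1 y hy.1 v) ?_
      have h3 := (hCpre (hB1 x hx y hy)).2 v
      rw [Subgroup.mem_bot, cm2, evc_pow lam (hQH (hcmm x hx.1 y hy.1)) v 2, sq] at h3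
      exact h3
    by_cases hQ1C : ⁅Q, Q⁆ ≤ C
    · exact Or.inl ⟨Q, hQ.monoR hb30, hQC, hQ1C⟩
    · have hR1 := YE0 hc b hb1 Q hQ
      have hQ2 : ⁅⁅Q, Q⁆, ⁅Q, Q⁆⁆ ≤ pre lam ⊥ := pre_comm_bot lam hcomm hQ1
      by_cases hQ2C : ⁅⁅Q, Q⁆, ⁅Q, Q⁆⁆ ≤ C
      · exact Or.inl ⟨⁅Q, Q⁆, hR1.monoR (hmon 4 (by norm_num) (by norm_num)), hQ1C, hQ2C⟩
      · right
        have hb4 : (c1 : ℝ) ≤ (4 : ℝ) ^ κ * b := hb1.trans (YB9b_le hκ 4 (by norm_num) hb0)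
        have hR2 := YE0 hc _ hb4 _ hR1
        have e : (4 : ℝ) ^ κ * ((4 : ℝ) ^ κ * b) = (16 : ℝ) ^ κ * b := by
          rw [← mul_assoc, ← Real.mul_rpow (by norm_num) (by norm_num)]
          norm_num
        rw [e] at hR2
        exact AA.mono ⟨_, hR2, hQ2C, YALa hAff _ hR2.nor hQ2⟩ (hmon 16 (by norm_num) (by norm_num))
  -- (b2), (b3)
  push Not at hB1
  obtain ⟨x0, hx0, y0, hy0, hxy0⟩ := hB1
  by_cases hB2 : ∀ x ∈ (Q : Set G) ∩ wball S ⌊b⌋₊, ∀ y ∈ (Q : Set G) ∩ wball S ⌊b⌋₊,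
      ∀ v : G, ev lam (v⁻¹ * cm2 x y * v) = 1
  · -- (b2)
    right
    have hE : {q | ∃ x ∈ (Q : Set G) ∩ wball S ⌊b⌋₊, ∃ y ∈ (Q : Set G) ∩ wball S ⌊b⌋₊,
        q = cm2 x y} ⊆ wball S (8 * (⌊b⌋₊ + 0)) := by
      rintro q ⟨x, hx, y, hy, rfl⟩
      exact YE0c hx.2 hy.2
    have hRF := hc.ncl _ 8 0 b (by norm_num) (by simpa using hb1) hE
    set F := normalClosure {q | ∃ x ∈ (Q : Set G) ∩ wball S ⌊b⌋₊,
      ∃ y ∈ (Q : Set G) ∩ wball S ⌊b⌋₊, q = cm2 x y} with hF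
    have hFC : ¬ F ≤ C := fun h => hxy0 (h (subset_normalClosure ⟨x0, hx0, y0, hy0, rfl⟩))
    have hFpre : F ≤ pre lam ⊥ := by
      rw [hF]
      refine normalClosure_le_normal ?_
      rintro q ⟨x, hx, y, hy, rfl⟩
      refine ⟨hQH (hcm2 x hx.1 y hy.1), fun v => ?_⟩
      rw [Subgroup.mem_bot]
      exact hB2 x hx y hy v
    have hRF' : Rch S F ⌊(8 : ℝ) ^ κ * b⌋₊ := by
      have := hRF
      push_cast at this
      exact this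
    exact AA.mono ⟨F, hRF', hFC, YALa hAff _ hRF'.nor hFpre⟩ (hmon 8 (by norm_num) (by norm_num))
  -- (b3)
  right
  push Not at hB2
  obtain ⟨x1, hx1, y1, hy1, u, hu⟩ := hB2
  have hu' : ev lam (u⁻¹ * cm2 x1 y1 * u) = ng := by
    rcases hcm2v x1 hx1.1 y1 hy1.1 u with h | h
    · exact absurd h hu
    · exact h
  obtain ⟨x, hx, y, hy, z, hz, hw⟩ := YB9c hS hC hCH hH' hAff Q hQ.nor hQH ⌊b⌋₊ (2 * H'.index)
    le_rfl hcube x1 y1 hx1 hy1 u hu'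
  have hE : {q | ∃ x ∈ (Q : Set G) ∩ wball S (⌊b⌋₊ + 2 * H'.index),
      ∃ y ∈ (Q : Set G) ∩ wball S (⌊b⌋₊ + 2 * H'.index),
      ∃ z ∈ (Q : Set G) ∩ wball S (⌊b⌋₊ + 2 * H'.index), q = w30 x y z} ⊆
      wball S (30 * (⌊b⌋₊ + 2 * H'.index)) := by
    rintro q ⟨x, hx, y, hy, z, hz, rfl⟩
    exact YE0w hx.2 hy.2 hz.2
  have hRE := hc.ncl _ 30 (2 * H'.index) b (by norm_num) hR hE
  set E30 := normalClosure {q | ∃ x ∈ (Q : Set G) ∩ wball S (⌊b⌋₊ + 2 * H'.index),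
      ∃ y ∈ (Q : Set G) ∩ wball S (⌊b⌋₊ + 2 * H'.index),
      ∃ z ∈ (Q : Set G) ∩ wball S (⌊b⌋₊ + 2 * H'.index), q = w30 x y z} with hE30
  have hEC : ¬ E30 ≤ C := fun h => hw (h (subset_normalClosure ⟨x, hx, y, hy, z, hz, rfl⟩))
  have hEpre : E30 ≤ pre lam ⊥ := by
    rw [hE30]
    refine normalClosure_le_normal ?_
    rintro q ⟨x, hx, y, hy, z, hz, rfl⟩
    have m1 := hQH (hcm2 y hy.1 x hx.1)
    have m2 := hQH (hcm2 x hx.1 z hz.1)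
    have m1' := H.normalCore.inv_mem m1
    have m2' := H.normalCore.inv_mem m2
    refine ⟨?_, fun v => ?_⟩
    · rw [w30]
      exact H.normalCore.mul_mem (H.normalCore.mul_mem (H.normalCore.mul_mem m1 m2) m1') m2'
    · rw [Subgroup.mem_bot, w30, evc_mul lam (H.normalCore.mul_mem (H.normalCore.mul_mem m1 m2)
        m1') m2', evc_mul lam (H.normalCore.mul_mem m1 m2) m1', evc_mul lam m1 m2,
        evc_inv lam m1, evc_inv lam m2,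
        pm9_comm _ (hcm2v y hy.1 x hx.1 v) (ev lam (v⁻¹ * cm2 x z * v))]
      group
  have hRE' : Rch S E30 ⌊(30 : ℝ) ^ κ * b⌋₊ := by
    have := hRE
    push_cast at this
    exact this
  exact ⟨E30, hRE', hEC, YALa hAff _ hRE'.nor hEpre⟩

end GP48
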