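import Mathlib
import Pool.Agent.LibGP48.YDefs
import Pool.Agent.LibGP48.YB9b
import Pool.Agent.LibGP48.YSTQ
import Pool.Agent.LibGP48.YS43

/-!
# LibGP48 YB9 (MEDIUM (assembly))

θ, h1, h2 from YGL9. π = θ.comp lam. C <= pre lam ⊥ <= pre π ⊥ (YALb; ev (θ.comp lam) x = θ (ev lam x)). hA gives W; N' = ⁅W,W⁆; if N' <= C: YY with W. YDI for N', π. Full: YSTQ: Q at 8^κ b, ¬ Q <= C; YB9b with 8^κ b: its hypothesis c1 (2 H'.index + 1) <= 8^κ b: H'.index = 9 * H.index (Subgroup.relIndex_mul_index, relIndex = 9), 18 idx + 1 <= 432 idx^2 + 1,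
8^κ >= 1. Total 30^κ 8^κ = 240^κ. Otherwise N'' = ⁅N',N'⁆ <= pre π ⊥, so N'' <= pre lam θ.ker: N' at 4^κ b, if N'' <= C: YY with N'; N'' at 16^κ b, YB9a: 8^κ 16^κ = 128^κ <= 240^κ.
-/

namespace GP48

open Subgroup

private lemma YB9_ev {G : Type} [Group G] {H : Subgroup G} (lam : H →* GLV 3 2)
    (θ : GLV 3 2 →* Equiv.Perm (Fin 3)) (x : G) : ev (θ.comp lam) x = θ (ev lam x) := by
  classical
  unfold ev
  split_ifs with h
  · rfl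
  · exact θ.map_one.symm

private lemma YB9_pre {G : Type} [Group G] {H : Subgroup G} (lam : H →* GLV 3 2)
    (θ : GLV 3 2 →* Equiv.Perm (Fin 3)) : pre (θ.comp lam) ⊥ ≤ pre lam θ.ker := by
  rintro x ⟨hx, hx'⟩
  refine ⟨hx, fun y => ?_⟩
  have h := hx' y
  rw [YB9_ev, Subgroup.mem_bot] at h
  exact MonoidHom.mem_ker.2 h

private lemma YB9_pre' {G : Type} [Group G] {H : Subgroup G} (lam : H →* GLV 3 2)
    (θ : GLV 3 2 →* Equiv.Perm (Fin 3)) : pre lam ⊥ ≤ pre (θ.comp lam) ⊥ := by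
  rintro x ⟨hx, hx'⟩
  refine ⟨hx, fun y => ?_⟩
  have h := hx' y
  rw [Subgroup.mem_bot] at h
  rw [YB9_ev, h, Subgroup.mem_bot]
  exact θ.map_one

/-- block of degree 9 -/
theorem YB9 {G : Type} [Group G] {S : Set G} {κ : ℝ} {c1 : ℕ} (hc : CostE S κ c1)
    (hS : closure S = ⊤) (hκ : 0 ≤ κ) {C : Subgroup G} (hC : C.Normal) {H' H : Subgroup G}
    (hH : H.index ≠ 0) (hrel : H'.relIndex H = 9) (hCH : C ≤ H') {lam : H →* GLV 3 2}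
    {τ : H → VV 3 2} (hAff : Aff H' H 3 2 lam τ) (b : ℝ)
    (hb : (c1 : ℝ) * (432 * (H.index : ℝ) ^ 2 + 1) ≤ b) (hA : AA S C H b) :
    YY S C ((240 : ℝ) ^ κ * b) ∨ AA S C H' ((240 : ℝ) ^ κ * b) := by
  obtain ⟨θ, h1, h2⟩ := YGL9
  have hCl : C ≤ pre lam ⊥ := YALb hAff C hC hCH
  have hCp : C ≤ pre (θ.comp lam) ⊥ := hCl.trans (YB9_pre' lam θ)
  have hc0 : (0 : ℝ) ≤ c1 := Nat.cast_nonneg _
  have hidx1 : (1 : ℝ) ≤ H.index := by exact_mod_cast Nat.one_le_iff_ne_zero.2 hH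
  have hcb : (c1 : ℝ) ≤ b := by
    refine le_trans ?_ hb
    nlinarith [mul_nonneg hc0 (sq_nonneg (H.index : ℝ))]
  have hb0 : 0 ≤ b := hc0.trans hcb
  have h4 : (1 : ℝ) ≤ (4 : ℝ) ^ κ := Real.one_le_rpow (by norm_num) hκ
  have h8 : (1 : ℝ) ≤ (8 : ℝ) ^ κ := Real.one_le_rpow (by norm_num) hκ
  have h240 : (1 : ℝ) ≤ (240 : ℝ) ^ κ := Real.one_le_rpow (by norm_num) hκ
  have hb4 : b ≤ (4 : ℝ) ^ κ * b := le_mul_of_one_le_left hb0 h4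
  have hb8 : b ≤ (8 : ℝ) ^ κ * b := le_mul_of_one_le_left hb0 h8
  have hb240 : b ≤ (240 : ℝ) ^ κ * b := le_mul_of_one_le_left hb0 h240
  have hH'i : H'.index = 9 * H.index := by
    rw [← Subgroup.relIndex_mul_index hAff.le, hrel]
  have hH' : H'.index ≠ 0 := by
    rw [hH'i]
    exact Nat.mul_ne_zero (by norm_num) hH
  obtain ⟨W, hW, hWC, hWH⟩ := hA
  by_cases hN : ⁅W, W⁆ ≤ C
  · exact Or.inl ⟨W, hW.monoR hb240, hWC, hN⟩
  have hWn : W.Normal := hW.nor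
  have hNn : (⁅W, W⁆ : Subgroup G).Normal := Subgroup.commutator_normal W W
  rcases YDI (θ.comp lam) ⁅W, W⁆ hNn hWH with hfull | hnf
  · obtain ⟨Q, hQ, -, hQA, hQn⟩ := YSTQ hc hS hH (θ.comp lam) W b hW hWH hfull hb
    have hQC : ¬ Q ≤ C := fun h => hQn (h.trans hCp)
    have hb' : (c1 : ℝ) * (2 * (H'.index : ℝ) + 1) ≤ (8 : ℝ) ^ κ * b := by
      refine le_trans ?_ hb8
      refine le_trans ?_ hb
      refine mul_le_mul_of_nonneg_left ?_ hc0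
      rw [hH'i]
      push_cast
      nlinarith
    have h := YB9b hc hS hκ hC hCH hH' hAff θ h1 h2 Q ((8 : ℝ) ^ κ * b) hb' hQ hQC hQA
    have he : (30 : ℝ) ^ κ * ((8 : ℝ) ^ κ * b) = (240 : ℝ) ^ κ * b := by
      rw [← mul_assoc, ← Real.mul_rpow (by norm_num) (by norm_num)]
      norm_num
    rwa [he] at h
  · have hN1 : Rch S ⁅W, W⁆ ⌊(4 : ℝ) ^ κ * b⌋₊ := YE0 hc b hcb W hW
    have h4_240 : (4 : ℝ) ^ κ * b ≤ (240 : ℝ) ^ κ * b :=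
      mul_le_mul_of_nonneg_right (Real.rpow_le_rpow (by norm_num) (by norm_num) hκ) hb0
    by_cases hN2 : ⁅(⁅W, W⁆ : Subgroup G), ⁅W, W⁆⁆ ≤ C
    · exact Or.inl ⟨⁅W, W⁆, hN1.monoR h4_240, hN, hN2⟩
    · have hcb4 : (c1 : ℝ) ≤ (4 : ℝ) ^ κ * b := hcb.trans hb4
      have hN3 : Rch S ⁅(⁅W, W⁆ : Subgroup G), ⁅W, W⁆⁆ ⌊(4 : ℝ) ^ κ * ((4 : ℝ) ^ κ * b)⌋₊ :=
        YE0 hc _ hcb4 _ hN1
      have hb44 : (4 : ℝ) ^ κ * b ≤ (4 : ℝ) ^ κ * ((4 : ℝ) ^ κ * b) :=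
        le_mul_of_one_le_left (hb0.trans hb4) h4
      have h := YB9a hc hκ hC hCH hAff θ h1 h2 _ _ (hcb4.trans hb44) hN3 hN2
        (hnf.trans (YB9_pre lam θ))
      have he : (8 : ℝ) ^ κ * ((4 : ℝ) ^ κ * ((4 : ℝ) ^ κ * b)) ≤ (240 : ℝ) ^ κ * b := by
        have he1 : (8 : ℝ) ^ κ * ((4 : ℝ) ^ κ * ((4 : ℝ) ^ κ * b)) = (128 : ℝ) ^ κ * b := by
          rw [← mul_assoc, ← mul_assoc, ← Real.mul_rpow (by norm_num) (by norm_num),
            ← Real.mul_rpow (by norm_num) (by norm_num)]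
          norm_num
        rw [he1]
        exact mul_le_mul_of_nonneg_right (Real.rpow_le_rpow (by norm_num) (by norm_num) hκ) hb0
      rcases h with h | h
      · exact Or.inl (h.mono he)
      · exact Or.inr (h.mono he)

end GP48
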