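import Mathlib
import Pool.Agent.LibGP48.YDefs
import Pool.Agent.LibGP48.YE0

/-!
# LibGP48 YGB (MEDIUM)

Induction on e, generalizing X and b. e = 0: ds X 1 = ⁅X,X⁆ <= H, it is normal in G, so <= H.normalCore (Subgroup.normal_le_normalCore): AA with W = X, (4^0)^κ = 1.
e+1: X' = ⁅X,X⁆, ds X' (e+1) = ds X (e+2) (ds_add / induction: ds ⁅X,X⁆ j = ds X (j+1)). If X' <= C: YY with Y = X (b <= (4^(e+1))^κ b because b >= c1 >= 0 and 4^(..) >= 1). Otherwise YE0: Rch S X' ⌊4^κ b⌋₊,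
and c1 <= b <= 4^κ b; IH with 4^κ b; (4^e)^κ * (4^κ * b) = (4^(e+1))^κ * b (Real.mul_rpow).
-/

namespace GP48

open Subgroup

/-- general block: at most `e` commutator steps -/
theorem YGB {G : Type*} [Group G] {S : Set G} {κ : ℝ} {c1 : ℕ} (hc : CostE S κ c1) (hκ : 0 ≤ κ)
    (C : Subgroup G) (H : Subgroup G) (e : ℕ) (X : Subgroup G) (b : ℝ) (hb : (c1 : ℝ) ≤ b)
    (hX : Rch S X ⌊b⌋₊) (hXC : ¬ X ≤ C) (he : ds X (e + 1) ≤ H) :
    YY S C (((4 : ℝ) ^ e) ^ κ * b) ∨ AA S C H (((4 : ℝ) ^ e) ^ κ * b) := by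
  have hb0 : 0 ≤ b := (Nat.cast_nonneg c1).trans hb
  induction e generalizing X b with
  | zero =>
    right
    have e1 : (((4 : ℝ) ^ 0) ^ κ * b) = b := by rw [pow_zero, Real.one_rpow, one_mul]
    rw [e1]
    refine ⟨X, hX, hXC, ?_⟩
    have hn : X.Normal := hX.nor
    have hn' : (⁅X, X⁆ : Subgroup G).Normal := Subgroup.commutator_normal X X
    exact (Subgroup.normal_le_normalCore).2 he
  | succ e ih =>
    by_cases h : ⁅X, X⁆ ≤ C
    · left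
      refine ⟨X, hX.monoR ?_, hXC, h⟩
      have h1 : (1 : ℝ) ≤ ((4 : ℝ) ^ (e + 1)) ^ κ := Real.one_le_rpow (one_le_pow₀ (by norm_num)) hκ
      nlinarith
    · have h1 : (1 : ℝ) ≤ (4 : ℝ) ^ κ := Real.one_le_rpow (by norm_num) hκ
      have h2 : b ≤ (4 : ℝ) ^ κ * b := by nlinarith
      have he' : ds ⁅X, X⁆ (e + 1) ≤ H := by
        have h3 : ds X (e + 1 + 1) = ds ⁅X, X⁆ (e + 1) := by
          rw [add_comm (e + 1) 1, ds_add]
          rfl
        rw [← h3]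
        exact he
      have h4 := ih ⁅X, X⁆ ((4 : ℝ) ^ κ * b) (hb.trans h2) (YE0 hc b hb X hX) h he' (hb0.trans h2)
      have h5 : ((4 : ℝ) ^ e) ^ κ * ((4 : ℝ) ^ κ * b) = ((4 : ℝ) ^ (e + 1)) ^ κ * b := by
        rw [pow_succ, Real.mul_rpow (by positivity) (by norm_num)]
        ring
      rwa [h5] at h4

end GP48
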