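import Mathlib
import Pool.Agent.LibGP48.YDefs
import Pool.Agent.LibGP48.YGB
import Pool.Agent.LibGP48.YAL

/-!
# LibGP48 YBG (SHORT/MEDIUM (assembly))

hA gives W: Rch S W ⌊b⌋₊, ¬ W <= C, ⁅W,W⁆ <= H.normalCore. X = ⁅W,W⁆ normal: YALc: ds X g <= pre lam ⊥, YALa: ds X (g+1) = ⁅ds X g, ds X g⁆ <= H'.normalCore <= H'. ds W (g+2) = ds X (g+1) (ds_add with i = 1). YGB with X = W, e = g+1, H = H'. (4:ℝ)^(g+1) = ((4^(g+1) : ℕ):ℝ) (push_cast).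
-/

namespace GP48

open Subgroup

/-- general block -/
theorem YBG {G : Type*} [Group G] {S : Set G} {κ : ℝ} {c1 : ℕ} (hc : CostE S κ c1) (hκ : 0 ≤ κ)
    {C : Subgroup G} (hC : C.Normal) (hsol : ∃ e, ds (⊤ : Subgroup G) e ≤ C)
    {H' H : Subgroup G} (hCH : C ≤ H') {r k g : ℕ} {lam : H →* GLV r k} {τ : H → VV r k}
    (hAff : Aff H' H r k lam τ) (hr : r.Prime) (hirr : Irr lam) (hLB : LB k r g) (b : ℝ)
    (hb : (c1 : ℝ) ≤ b) (hA : AA S C H b) :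
    YY S C (((4 ^ (g + 1) : ℕ) : ℝ) ^ κ * b) ∨ AA S C H' (((4 ^ (g + 1) : ℕ) : ℝ) ^ κ * b) := by
  obtain ⟨W, hW, hWC, hWH⟩ := hA
  have hWn : W.Normal := hW.nor
  have hX : (⁅W, W⁆ : Subgroup G).Normal := Subgroup.commutator_normal W W
  have h1 : ds ⁅W, W⁆ g ≤ pre lam ⊥ :=
    YALc hAff hr hirr C hC hCH hsol hLB ⁅W, W⁆ hX hWH
  have h2 : ⁅ds ⁅W, W⁆ g, ds ⁅W, W⁆ g⁆ ≤ H'.normalCore :=
    YALa hAff (ds ⁅W, W⁆ g) inferInstance h1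
  have h3 : ds W (g + 1 + 1) ≤ H' := by
    rw [show g + 1 + 1 = 1 + (g + 1) by omega, ds_add, ds_succ W 0, ds_zero, ds_succ]
    exact h2.trans H'.normalCore_le
  have h4 := YGB hc hκ C H' (g + 1) W b hb hW hWC h3
  have h5 : (((4 ^ (g + 1) : ℕ) : ℝ)) = (4 : ℝ) ^ (g + 1) := by push_cast; rfl
  rw [h5]
  exact h4

end GP48
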