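import Mathlib
import Pool.Agent.LibGP48.YDefs
import Pool.Agent.LibGP48.YB3
import Pool.Agent.LibGP48.YB4
import Pool.Agent.LibGP48.YB9
import Pool.Agent.LibGP48.YBG
import Pool.Agent.LibGP48.YAF

/-!
# LibGP48 YTR (MEDIUM (assembly))

YAF (H'.relIndex H ≠ 0 from H'.index ≠ 0 and H' <= H; hsol: ds H e <= ds ⊤ e <= C <= H'): r, k, n = r^k, lam, τ. Cases (r,k) = (3,1): n = 3, YB3, 8^κ <= cst κ 3 (le_cst with 8^2 <= 3^5); (2,2): n = 4, YB4, 32^κ <= cst κ 4 (32^2 = 4^5); (3,2): subst r, k; n = 9, YB9, 240^κ <= cst κ 9 (240^2 <= 9^5);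
otherwise hN r k gives g, LB k r g, 16^(g+1) <= n^5, YBG, (4^(g+1))^2 = 16^(g+1) <= n^5 (le_cst). YY.mono, AA.mono (b >= 0). c1 <= b from hb.
-/

namespace GP48

open Subgroup

/-- transition from `H` to a maximal subgroup `H'` of `H` -/
theorem YTR (hN : NumH) {G : Type} [Group G] {S : Set G} {κ : ℝ} {c1 : ℕ} (hc : CostE S κ c1)
    (hS : closure S = ⊤) (hκ : 0 ≤ κ) {C : Subgroup G} (hC : C.Normal)
    (hsol : ∃ e, ds (⊤ : Subgroup G) e ≤ C) {H' H : Subgroup G} (hcov : H' ⋖ H)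
    (hH' : H'.index ≠ 0) (hCH : C ≤ H') (b : ℝ)
    (hb : (c1 : ℝ) * (432 * (H.index : ℝ) ^ 2 + 1) ≤ b) (hA : AA S C H b) :
    YY S C (cst κ (H'.relIndex H) * b) ∨ AA S C H' (cst κ (H'.relIndex H) * b) := by
  have hle : H' ≤ H := hcov.le
  have hmul := Subgroup.relIndex_mul_index hle
  have hrel0 : H'.relIndex H ≠ 0 := by
    intro h
    rw [h, zero_mul] at hmul
    exact hH' hmul.symm
  have hH0 : H.index ≠ 0 := by
    intro h
    rw [h, mul_zero] at hmul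
    exact hH' hmul.symm
  have hc0 : (0 : ℝ) ≤ c1 := Nat.cast_nonneg c1
  have hi0 : (0 : ℝ) ≤ 432 * (H.index : ℝ) ^ 2 := by positivity
  have hc1b : (c1 : ℝ) ≤ b := by nlinarith
  have hb0 : 0 ≤ b := hc0.trans hc1b
  obtain ⟨e, he⟩ := hsol
  obtain ⟨r, k, hr, hk, hrk, lam, τ, hAff, hirr⟩ := YAF H' H hcov hrel0
    ⟨e, (ds_mono le_top e).trans (he.trans hCH)⟩
  by_cases h31 : r = 3 ∧ k = 1
  · obtain ⟨rfl, rfl⟩ := h31
    rw [pow_one] at hrk
    have hcst : ((8 : ℕ) : ℝ) ^ κ ≤ cst κ (H'.relIndex H) := by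
      rw [hrk]
      exact le_cst hκ (by norm_num)
    have hmon : (8 : ℝ) ^ κ * b ≤ cst κ (H'.relIndex H) * b := by
      refine mul_le_mul_of_nonneg_right ?_ hb0
      exact_mod_cast hcst
    exact (YB3 hc hS hκ hC hH0 hle hrk hCH b hb hA).imp (fun h => h.mono hmon)
      (fun h => h.mono hmon)
  by_cases h22 : r = 2 ∧ k = 2
  · obtain ⟨rfl, rfl⟩ := h22
    have hrk' : H'.relIndex H = 4 := by rw [hrk]; norm_num
    have hcst : ((32 : ℕ) : ℝ) ^ κ ≤ cst κ (H'.relIndex H) := by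
      rw [hrk']
      exact le_cst hκ (by norm_num)
    have hmon : (32 : ℝ) ^ κ * b ≤ cst κ (H'.relIndex H) * b := by
      refine mul_le_mul_of_nonneg_right ?_ hb0
      exact_mod_cast hcst
    exact (YB4 hc hS hκ hC hH0 hle hrk' hCH b hb hA).imp (fun h => h.mono hmon)
      (fun h => h.mono hmon)
  by_cases h32 : r = 3 ∧ k = 2
  · obtain ⟨rfl, rfl⟩ := h32
    have hrk' : H'.relIndex H = 9 := by rw [hrk]; norm_num
    have hcst : ((240 : ℕ) : ℝ) ^ κ ≤ cst κ (H'.relIndex H) := by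
      rw [hrk']
      exact le_cst hκ (by norm_num)
    have hmon : (240 : ℝ) ^ κ * b ≤ cst κ (H'.relIndex H) * b := by
      refine mul_le_mul_of_nonneg_right ?_ hb0
      exact_mod_cast hcst
    exact (YB9 hc hS hκ hC hH0 hrk' hCH hAff b hb hA).imp (fun h => h.mono hmon)
      (fun h => h.mono hmon)
  obtain ⟨g, hLB, hg⟩ := hN r k hr hk h31 h22 h32
  have hcst : ((4 ^ (g + 1) : ℕ) : ℝ) ^ κ ≤ cst κ (H'.relIndex H) := by
    rw [hrk]
    refine le_cst hκ (le_trans (le_of_eq ?_) hg)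
    rw [← pow_mul, mul_comm, pow_mul]
    norm_num
  have hmon : ((4 ^ (g + 1) : ℕ) : ℝ) ^ κ * b ≤ cst κ (H'.relIndex H) * b :=
    mul_le_mul_of_nonneg_right hcst hb0
  exact (YBG hc hκ hC ⟨e, he⟩ hCH hAff hr hirr hLB b hc1b hA).imp (fun h => h.mono hmon)
    (fun h => h.mono hmon)

end GP48
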