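import Mathlib
import Pool.Agent.LibGP48.YDefs
import Pool.Agent.LibGP48.YTR

/-!
# LibGP48 YTW (MEDIUM (assembly))

Strong induction on H.index. b(H) = cst κ H.index * b0. H = ⊤: index 1, cst κ 1 = 1, AA with X (⊤.normalCore = ⊤). H < ⊤: there is H2 with H ⋖ H2 (among the K > H (⊤ is one) choose one with maximal K.index; all K > H have K.index < H.index).
H2.index < H.index (H.index = H.relIndex H2 * H2.index, relIndex ≠ 1). IH: YY (then YY.mono: cst κ H2.index <= cst κ H.index) or AA S C H2 b(H2). hb of YTR: c1 (432 idx^2 + 1) <= 433 c1 idx^2 <= cst κ idx * b0 with idx = H2.index >= 1 (idx^2 <= idx^(5/2) <= (idx^(5/2))^κ as κ >= 1). YTR with H' = H, H = H2; cst_mul: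
cst κ (H.relIndex H2) * (cst κ H2.index * b0) = cst κ H.index * b0.
-/

namespace GP48

open Subgroup

private theorem YTW_sq {κ : ℝ} (hκ : 1 ≤ κ) {n : ℕ} (hn : 1 ≤ n) : (n : ℝ) ^ 2 ≤ cst κ n := by
  have h1 : (1 : ℝ) ≤ n := by exact_mod_cast hn
  have h2 : (n : ℝ) ^ (2 : ℝ) ≤ (n : ℝ) ^ (5 / 2 : ℝ) :=
    Real.rpow_le_rpow_of_exponent_le h1 (by norm_num)
  have h3 : (1 : ℝ) ≤ (n : ℝ) ^ (5 / 2 : ℝ) := Real.one_le_rpow h1 (by norm_num)
  have h4 : (n : ℝ) ^ (5 / 2 : ℝ) ≤ ((n : ℝ) ^ (5 / 2 : ℝ)) ^ κ := by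
    have := Real.rpow_le_rpow_of_exponent_le h3 hκ
    rwa [Real.rpow_one] at this
  rw [Real.rpow_two] at h2
  exact h2.trans h4

private theorem YTW_one {κ : ℝ} (hκ : 1 ≤ κ) {n : ℕ} (hn : 1 ≤ n) : 1 ≤ cst κ n := by
  have h1 : (1 : ℝ) ≤ n := by exact_mod_cast hn
  have h2 := YTW_sq hκ hn
  nlinarith

private theorem YTW_cov {G : Type} [Group G] (H : Subgroup G) (hH : H.index ≠ 0) (hT : H ≠ ⊤) :
    ∃ K : Subgroup G, H ⋖ K := by
  classical
  have hex : ∃ m, ∃ K : Subgroup G, H < K ∧ H.relIndex K = m := ⟨_, ⊤, lt_top_iff_ne_top.2 hT, rfl⟩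
  obtain ⟨K, hHK, hKm⟩ := Nat.find_spec hex
  refine ⟨K, hHK, fun L hHL hLK => ?_⟩
  have h1 := Subgroup.relIndex_mul_relIndex H L K hHL.le hLK.le
  have h2 : L.relIndex K ≠ 1 := fun h => absurd (Subgroup.relIndex_eq_one.1 h) hLK.not_ge
  have h3 : H.relIndex K ≠ 0 := by
    intro h
    have := Subgroup.relIndex_mul_index hHK.le
    rw [h, zero_mul] at this
    exact hH this.symm
  have h4 : H.relIndex L < H.relIndex K := by
    rw [← h1]
    have h5 : H.relIndex L ≠ 0 := fun h => h3 (by rw [← h1, h, zero_mul])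
    have h6 : L.relIndex K ≠ 0 := fun h => h3 (by rw [← h1, h, mul_zero])
    have h7 : 2 ≤ L.relIndex K := by omega
    have h8 : 0 < H.relIndex L := Nat.pos_of_ne_zero h5
    nlinarith
  rw [hKm] at h4
  exact Nat.find_min hex h4 ⟨L, hHL, rfl⟩

/-- the tower -/
theorem YTW (hN : NumH) {G : Type} [Group G] {S : Set G} {κ : ℝ} {c1 : ℕ}
    (hc : CostE S κ c1) (hS : closure S = ⊤) (hκ : 1 ≤ κ) {C : Subgroup G} (hC : C.Normal)
    (hsol : ∃ e, ds (⊤ : Subgroup G) e ≤ C) (X : Subgroup G) (b0 : ℝ)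
    (hb0 : 433 * (c1 : ℝ) ≤ b0) (hX : Rch S X ⌊b0⌋₊) (hXC : ¬ X ≤ C) (H : Subgroup G)
    (hH : H.index ≠ 0) (hCH : C ≤ H) :
    YY S C (cst κ H.index * b0) ∨ AA S C H (cst κ H.index * b0) := by
  have hb00 : 0 ≤ b0 := le_trans (by positivity) hb0
  induction hn : H.index using Nat.strong_induction_on generalizing H with
  | _ n ih =>
  subst hn
  by_cases hT : H = ⊤
  · right
    have h1 : cst κ H.index = 1 := by
      rw [hT, Subgroup.index_top]
      simp [cst]
    rw [h1, one_mul]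
    refine ⟨X, hX, hXC, ?_⟩
    rw [hT, Subgroup.normalCore_eq_self]
    exact le_top
  · obtain ⟨K, hcov⟩ := YTW_cov H hH hT
    have h1 := Subgroup.relIndex_mul_index hcov.le
    have hr0 : H.relIndex K ≠ 0 := fun h => hH (by rw [← h1, h, zero_mul])
    have hk0 : K.index ≠ 0 := fun h => hH (by rw [← h1, h, mul_zero])
    have hr1 : H.relIndex K ≠ 1 := fun h => absurd (Subgroup.relIndex_eq_one.1 h) hcov.lt.not_ge
    have hr2 : 2 ≤ H.relIndex K := by omega
    have hk1 : 1 ≤ K.index := Nat.pos_of_ne_zero hk0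
    have hlt : K.index < H.index := by
      rw [← h1]
      nlinarith
    have e : cst κ H.index * b0 = cst κ (H.relIndex K) * (cst κ K.index * b0) := by
      rw [← h1, cst_mul, mul_assoc]
    have hpos : 0 ≤ cst κ K.index * b0 := mul_nonneg (cst_nonneg _ _) hb00
    rw [e]
    rcases ih K.index hlt K hk0 (hCH.trans hcov.le) rfl with h | h
    · left
      refine h.mono ?_
      exact le_mul_of_one_le_left hpos (YTW_one hκ (by omega))
    · refine YTR hN hc hS (by linarith) hC hsol hcov hH hCH _ ?_ h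
      have h2 : (1 : ℝ) ≤ K.index := by exact_mod_cast hk1
      have h3 := YTW_sq hκ hk1
      have h4 : (c1 : ℝ) * (432 * (K.index : ℝ) ^ 2 + 1) ≤ (433 * (c1 : ℝ)) * (K.index : ℝ) ^ 2 := by
        have h5 : (1 : ℝ) ≤ (K.index : ℝ) ^ 2 := one_le_pow₀ h2
        have h6 : (0 : ℝ) ≤ c1 := Nat.cast_nonneg _
        nlinarith
      refine h4.trans ?_
      rw [mul_comm (cst κ K.index)]
      exact mul_le_mul hb0 h3 (by positivity) hb00

end GP48
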