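import Mathlib
import Pool.Agent.LibGP48.YDefs
import Pool.Agent.LibGP48.YTW
import Pool.Agent.LibGP48.YN3

/-!
# LibGP48 TOW (MEDIUM (assembly))

K from YN3 κ1 κ, A := 4 * 433 * K (real). c1 = K * m0, b0 = 433 * K * m >= 433 * c1 (m >= m0) and >= m (Rch.mono). H = stabiliser of the point 0 of Fin t: H = {g : φ g 0 = 0}, H.index = t (orbit-stabiliser, transitivity; or injection/surjection G ⧸ H → Fin t), H.normalCore = φ.ker
(g in the core fixes all points φ y 0; ker is normal and inside H), C <= φ.ker <= H. YTW. YY -> OutY: Y, m' = ⌊cst κ t * b0⌋₊ (>= m0 since cst κ t >= 1 and b0 >= m >= m0; Nat.floor_le for the bound), and cst κ t * b0 <= (A t^(5/2))^κ m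
((A t^(5/2))^κ = A^κ (t^(5/2))^κ by Real.mul_rpow, A^κ >= A >= 433 K as κ >= 1, A >= 1). AA -> W: if ⁅W,W⁆ <= C: OutY with W; else Z = ⁅W,W⁆ <= H.normalCore = φ.ker, at 4^κ (cst κ t b0) (YE0): OutZ; A^κ = 4^κ (433 K)^κ >= 4^κ 433 K.
-/

namespace GP48

open Subgroup

/-- the block theorem -/
theorem TOW (hN : NumH) (κ1 κ : ℝ) (h1 : 1 < κ1) (h2 : κ1 < κ) : ∃ A : ℝ, 1 ≤ A ∧
    ∀ {G : Type} [Group G] (S : Set G), closure S = ⊤ → ∀ m0 : ℕ, 1 ≤ m0 → CostH S κ1 m0 →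
      ∀ C : Subgroup G, C.Normal → (∃ e, ds (⊤ : Subgroup G) e ≤ C) →
        ∀ t : ℕ, 1 ≤ t → ∀ φ : G →* Equiv.Perm (Fin t), (∀ i j, ∃ g, φ g i = j) → C ≤ φ.ker →
          ∀ (X : Subgroup G) (m : ℕ), Rch S X m → m0 ≤ m → ¬ X ≤ C →
            OutY S m0 C ((A * (t : ℝ) ^ (5 / 2 : ℝ)) ^ κ * m) ∨
              OutZ S m0 C φ.ker ((A * (t : ℝ) ^ (5 / 2 : ℝ)) ^ κ * m) := by
  obtain ⟨K, hK, hYN⟩ := YN3.{0} κ1 κ h1.le h2
  have hKr : (1 : ℝ) ≤ K := by exact_mod_cast hK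
  have hκ : (1 : ℝ) ≤ κ := (h1.trans h2).le
  refine ⟨4 * (433 * (K : ℝ)), by linarith, ?_⟩
  intro G _ S hS m0 hm0 hcost C hC hsol t ht φ htr hCφ X m hX hm hXC
  have hc := hYN S m0 hm0 hcost
  let act : MulAction G (Fin t) := MulAction.compHom (Fin t) φ
  have : MulAction.IsPretransitive G (Fin t) := ⟨fun i j => htr i j⟩
  set x0 : Fin t := ⟨0, ht⟩ with hx0
  set H : Subgroup G := MulAction.stabilizer G x0 with hHdef
  have hmemH : ∀ g : G, g ∈ H ↔ φ g x0 = x0 := fun g => Iff.rfl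
  have hidx : H.index = t := by
    rw [hHdef, MulAction.index_stabilizer_of_transitive, Nat.card_fin]
  have hkerH : φ.ker ≤ H := by
    intro g hg
    rw [hmemH, MonoidHom.mem_ker.mp hg]
    rfl
  have hcore : H.normalCore ≤ φ.ker := by
    intro x hx
    rw [MonoidHom.mem_ker]
    ext i
    obtain ⟨g, hg⟩ := htr x0 i
    have h3 : g⁻¹ * x * g ∈ H := core_conj hx g
    rw [hmemH, map_mul, map_mul, Equiv.Perm.mul_apply, Equiv.Perm.mul_apply, hg, map_inv,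
      Equiv.Perm.inv_eq_iff_eq] at h3
    rw [h3, hg]
    rfl
  have hmr : (m0 : ℝ) ≤ m := by exact_mod_cast hm
  have hm0r : (1 : ℝ) ≤ m0 := by exact_mod_cast hm0
  set b0 : ℝ := 433 * (K : ℝ) * m with hb0
  have hKm : (m : ℝ) ≤ K * m := le_mul_of_one_le_left (by linarith) hKr
  have hb0m : (m : ℝ) ≤ b0 := by
    rw [hb0, mul_assoc]
    linarith
  have hb0c : 433 * ((K * m0 : ℕ) : ℝ) ≤ b0 := by
    rw [hb0, mul_assoc]
    push_cast
    have : (K : ℝ) * m0 ≤ K * m := mul_le_mul_of_nonneg_left hmr (by linarith)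
    linarith
  have hX' : Rch S X ⌊b0⌋₊ := hX.mono (Nat.le_floor hb0m)
  have hH0 : H.index ≠ 0 := by omega
  have hmain := YTW hN hc hS hκ hC hsol X b0 hb0c hX' hXC H hH0 (hCφ.trans hkerH)
  rw [hidx] at hmain
  have htr' : (1 : ℝ) ≤ t := by exact_mod_cast ht
  have hcst1 : 1 ≤ cst κ t :=
    Real.one_le_rpow (Real.one_le_rpow htr' (by norm_num)) (by linarith)
  have hcb : b0 ≤ cst κ t * b0 := le_mul_of_one_le_left (by linarith) hcst1
  have hcb0 : 0 ≤ cst κ t * b0 := by linarith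
  have h4κ : (1 : ℝ) ≤ 4 ^ κ := Real.one_le_rpow (by norm_num) (by linarith)
  have hcb4 : cst κ t * b0 ≤ 4 ^ κ * (cst κ t * b0) := le_mul_of_one_le_left hcb0 h4κ
  have hfin : 4 ^ κ * (cst κ t * b0) ≤ (4 * (433 * (K : ℝ)) * (t : ℝ) ^ (5 / 2 : ℝ)) ^ κ * m := by
    have e1 : (4 * (433 * (K : ℝ)) * (t : ℝ) ^ (5 / 2 : ℝ)) ^ κ =
        4 ^ κ * (433 * (K : ℝ)) ^ κ * cst κ t := by
      rw [Real.mul_rpow (by positivity) (by positivity), Real.mul_rpow (by norm_num) (by positivity)]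
      rfl
    have e2 : 433 * (K : ℝ) ≤ (433 * (K : ℝ)) ^ κ := by
      have := Real.rpow_le_rpow_of_exponent_le (show (1 : ℝ) ≤ 433 * (K : ℝ) by linarith) hκ
      rwa [Real.rpow_one] at this
    rw [e1, hb0]
    calc (4 : ℝ) ^ κ * (cst κ t * (433 * (K : ℝ) * m)) =
        (4 ^ κ * cst κ t * m) * (433 * (K : ℝ)) := by ring
      _ ≤ (4 ^ κ * cst κ t * m) * (433 * (K : ℝ)) ^ κ :=
          mul_le_mul_of_nonneg_left e2 (by positivity)
      _ = 4 ^ κ * (433 * (K : ℝ)) ^ κ * cst κ t * m := by ring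
  have hm0c : (m0 : ℝ) ≤ cst κ t * b0 := by linarith
  rcases hmain with ⟨Y, hY1, hY2, hY3⟩ | ⟨W, hW1, hW2, hW3⟩
  · left
    exact ⟨Y, _, hY1, Nat.le_floor hm0c, (Nat.floor_le hcb0).trans (hcb4.trans hfin), hY2, hY3⟩
  · by_cases hWC : ⁅W, W⁆ ≤ C
    · left
      exact ⟨W, _, hW1, Nat.le_floor hm0c, (Nat.floor_le hcb0).trans (hcb4.trans hfin), hW2, hWC⟩
    · right
      have hZ := YE0 hc (cst κ t * b0) (by
        have : ((K * m0 : ℕ) : ℝ) ≤ 433 * ((K * m0 : ℕ) : ℝ) := by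
          have : (0 : ℝ) ≤ ((K * m0 : ℕ) : ℝ) := Nat.cast_nonneg _
          linarith
        linarith) W hW1
      exact ⟨⁅W, W⁆, _, hZ, Nat.le_floor (hm0c.trans hcb4), (Nat.floor_le (hcb0.trans hcb4)).trans hfin,
        hWC, hW3.trans hcore⟩

end GP48
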