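import Mathlib
import Pool.Agent.LibGP48.Defs
import Pool.Agent.LibGP48.M1
import Pool.Agent.LibGP48.M2

/-!
# LibGP48 NUM (SHORT)

M2 part (c) with HL from M1.
-/

namespace GP48

open Subgroup

theorem NUM (r k : ℕ) (hr : r.Prime) (hk : 1 ≤ k) (h1 : ¬ (r = 3 ∧ k = 1))
    (h2 : ¬ (r = 2 ∧ k = 2)) (h3 : ¬ (r = 3 ∧ k = 2)) :
    ∃ g, LB k r g ∧ 16 ^ (g + 1) ≤ (r ^ k) ^ 5 := by
  refine (M2 k r hr hk (fun d hd => (M1 k hk).1 r hr d hd)).2.2 ?_ ?_ ?_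
  · rintro ⟨a, b⟩
    exact h1 ⟨b, a⟩
  · rintro ⟨a, b⟩
    exact h2 ⟨b, a⟩
  · rintro ⟨a, b⟩
    exact h3 ⟨b, a⟩

end GP48
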