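import Mathlib
import Pool.Agent.LibGP48.YDefs
import Pool.Agent.LibGP48.NUM

/-!
# LibGP48 YADP: small adapters between the two halves
-/

namespace GP48

open Subgroup

/-- larger cost exponents -/
lemma CostH.mono {G : Type*} [Group G] {S : Set G} {κ1 κ : ℝ} {m0 : ℕ} (h : κ1 ≤ κ)
    (hC : CostH S κ1 m0) : CostH S κ m0 := by
  intro T E c m hT hc hm hE hTE
  obtain ⟨m', h1, h2, h3⟩ := hC T E c m hT hc hm hE hTE
  refine ⟨m', h1, h2.trans (mul_le_mul_of_nonneg_right ?_ (Nat.cast_nonneg _)), h3⟩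
  exact Real.rpow_le_rpow_of_exponent_le (by exact_mod_cast (by omega : 1 ≤ c)) h

theorem numH : NumH := fun r k hr hk h1 h2 h3 => NUM r k hr hk h1 h2 h3

end GP48
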