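import Mathlib
import Pool.Agent.LibGP48.XDefs
import Pool.Agent.LibGP48.TOW
import Pool.Agent.LibGP48.YADP
import Pool.Agent.LibGP48.LIN
import Pool.Agent.LibGP48.NL
import Pool.Agent.LibGP48.ITER

/-!
# LibGP48 LC: short normal subgroups, abelian modulo the kernel of an irreducible representation
-/

namespace GP48

open Subgroup

universe u

lemma Rch_top {G : Type*} [Group G] {S : Set G} (hS : closure S = ⊤) {m : ℕ} (hm : 1 ≤ m) :
    Rch S (⊤ : Subgroup G) m := by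
  refine ⟨inferInstance, ?_⟩
  refine (top_unique ?_).symm
  exact hS.symm.le.trans (closure_mono fun x hx => ⟨mem_top x, wball_mono S hm (wball_gen hx)⟩)

theorem LC (κ1 κ : ℝ) (hκ1 : 1 < κ1) (hκ2 : κ1 < κ) : ∃ A : ℝ, 1 ≤ A ∧
    ∀ {G : Type} [Group G] (S : Set G), S.Finite → closure S = ⊤ → ∀ m0 : ℕ, 1 ≤ m0 →
      CostH S κ1 m0 → ∀ (p s : ℕ) [Fact p.Prime] (ψ : G →* GLV p s), Irr ψ →
      (∃ e, ds (⊤ : Subgroup G) e ≤ ψ.ker) → ψ.ker ≠ ⊤ →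
        OutY S m0 ψ.ker ((A * (s : ℝ) ^ (5 / 2 : ℝ)) ^ κ * m0) := by
  have hκ : 1 < κ := hκ1.trans hκ2
  obtain ⟨A1, hA1, hT⟩ := TOW numH κ1 κ hκ1 hκ2
  obtain ⟨A2, hA2, hN⟩ := NL
  have hκ0 : 0 ≤ κ := by linarith
  refine ⟨A1 * A2, one_le_mul_of_one_le_of_one_le hA1 hA2, ?_⟩
  intro G _ S hSf hS m0 hm0 hC p s _ ψ hirr hsol hne
  obtain ⟨t, n, φ, ht, hn, htn, htr, hker, hd⟩ := LIN ψ hirr hsol
  obtain ⟨g, hg1, hg2, hg3⟩ := hN n hn
  have hd' := hd g hg1 hg2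
  haveI : Finite (GLV p s) := Finite.of_injective (fun f : GLV p s => (f : VV p s → VV p s))
    DFunLike.coe_injective
  have hidx : ψ.ker.index ≠ 0 := by
    rw [index_ker]
    exact (Nat.card_pos).ne'
  have htR : (1 : ℝ) ≤ (t : ℝ) ^ (5 / 2 : ℝ) :=
    Real.one_le_rpow (by exact_mod_cast ht) (by norm_num)
  have hnR : (1 : ℝ) ≤ (n : ℝ) ^ (5 / 2 : ℝ) :=
    Real.one_le_rpow (by exact_mod_cast hn) (by norm_num)
  have hsR : (s : ℝ) ^ (5 / 2 : ℝ) = (t : ℝ) ^ (5 / 2 : ℝ) * (n : ℝ) ^ (5 / 2 : ℝ) := by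
    rw [← Real.mul_rpow (by positivity) (by positivity), ← htn]
    push_cast
    ring_nf
  have hm0R : (0 : ℝ) ≤ (m0 : ℝ) := by positivity
  rcases hT S hS m0 hm0 hC ψ.ker inferInstance hsol t ht φ htr hker ⊤ m0
    (Rch_top hS hm0) le_rfl (fun h => hne (top_unique h)) with h | ⟨Z, m, h1, h2, h3, h4, h5⟩
  · refine h.mono (mul_le_mul_of_nonneg_right (Real.rpow_le_rpow (by positivity) ?_ hκ0) hm0R)
    rw [hsR]
    calc A1 * (t : ℝ) ^ (5 / 2 : ℝ) ≤ (A1 * (t : ℝ) ^ (5 / 2 : ℝ)) * (A2 * (n : ℝ) ^ (5 / 2 : ℝ)) :=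
          le_mul_of_one_le_right (by positivity) (one_le_mul_of_one_le_of_one_le hA2 hnR)
      _ = _ := by ring
  · have hZ : ds Z (g + 2) ≤ ψ.ker := (ds_mono h5 _).trans hd'
    refine (ITER hκ.le (hC.mono hκ2.le) ψ.ker Z m h1 h2 h4 (g + 2) hZ).mono ?_
    calc ((4 : ℝ) ^ (g + 2)) ^ κ * m
        ≤ (A2 * (n : ℝ) ^ (5 / 2 : ℝ)) ^ κ * ((A1 * (t : ℝ) ^ (5 / 2 : ℝ)) ^ κ * m0) :=
          mul_le_mul (Real.rpow_le_rpow (by positivity) hg3 hκ0) h3 (by positivity)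
            (Real.rpow_nonneg (by positivity) _)
      _ = (A1 * A2 * (s : ℝ) ^ (5 / 2 : ℝ)) ^ κ * m0 := by
          rw [← mul_assoc, ← Real.mul_rpow (by positivity) (by positivity), hsR]
          congr 2
          ring

end GP48
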