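import Mathlib
import Pool.Agent.LibGP48.XDefs
import Pool.Agent.LibGP48.LC
import Pool.Agent.LibGP48.D1
import Pool.Agent.LibGP48.D3x
import Pool.Agent.LibGP48.V1

/-!
# LibGP48 F1: a self-centralising minimal normal subgroup is generated by short elements
-/

namespace GP48

open Subgroup

universe u

/-- a self-centralising minimal normal subgroup of rank `s` is generated by elements of length
at most `(A s^(5/2))^κ` -/
theorem F1 (κ1 κ : ℝ) (hκ1 : 1 < κ1) (hκ2 : κ1 < κ) : ∃ A : ℝ, 1 ≤ A ∧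
    ∀ {Q : Type} [Group Q] (S : Set Q), S.Finite → closure S = ⊤ → ∀ m0 : ℕ, 1 ≤ m0 →
      CostH S κ1 m0 → ∀ V : Subgroup Q, Chief ⊥ V → (∀ x, (∀ v ∈ V, x * v = v * x) → x ∈ V) →
      (∃ e, ds (⊤ : Subgroup Q) e = ⊥) → V ≠ ⊤ →
      ∃ r s m : ℕ, r.Prime ∧ 1 ≤ s ∧ 1 ≤ m ∧ (⊥ : Subgroup Q).relIndex V = r ^ s ∧
        (∀ x ∈ V, x ^ r = 1) ∧ Rch S V m ∧ (m : ℝ) ≤ (A * (s : ℝ) ^ (5 / 2 : ℝ)) ^ κ * m0 ∧
        ∀ g, LB s r g → ds (⊤ : Subgroup Q) g ≤ V := by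
  have hκ : 1 < κ := hκ1.trans hκ2
  obtain ⟨A, hA, hL⟩ := LC κ1 κ hκ1 hκ2
  have hκ0 : 0 ≤ κ := by linarith
  refine ⟨4 * A, by linarith, ?_⟩
  intro Q _ S hSf hS m0 hm0 hC V hV hself hsol hne
  have hVn := hV.nX
  obtain ⟨r, s, hr, ψ, hs, hcard, hpow, hirr, hker⟩ := D3x hV
  have hVcomm : ∀ x ∈ V, ∀ v ∈ V, x * v = v * x := by
    intro x hx v hv
    have h1 : x * v * x⁻¹ * v⁻¹ ∈ (⊥ : Subgroup Q) := hV.ab (commutator_mem_commutator hx hv)
    rw [mem_bot] at h1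
    calc x * v = (x * v * x⁻¹ * v⁻¹) * (v * x) := by group
      _ = v * x := by rw [h1, one_mul]
  have hkerV : ψ.ker = V := by
    refine le_antisymm ?_ ?_
    · intro x hx
      refine hself x fun v hv => ?_
      have h1 := (hker x).1 hx v hv
      rw [mem_bot] at h1
      calc x * v = (x * v * x⁻¹ * v⁻¹) * (v * x) := by group
        _ = v * x := by rw [h1, one_mul]
    · intro x hx
      refine (hker x).2 fun v hv => ?_
      rw [mem_bot, hVcomm x hx v hv]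
      group
  have hsol' : ∃ e, ds (⊤ : Subgroup Q) e ≤ ψ.ker := by
    obtain ⟨e, he⟩ := hsol
    exact ⟨e, by rw [he]; exact bot_le⟩
  obtain ⟨Y, m, hY1, hY2, hY3, hY4, hY5⟩ := hL S hSf hS m0 hm0 hC r s ψ hirr hsol'
    (by rw [hkerV]; exact hne)
  rw [hkerV] at hY4 hY5
  have hYn := hY1.nor
  -- `V = ⁅Y, Y⁆`
  have hC1 : ∀ X : Subgroup Q, ⁅X, V⁆ = ⊥ → X ≤ V := by
    intro X hX x hx
    refine hself x fun v hv => ?_
    have h1 : x * v * x⁻¹ * v⁻¹ ∈ ⁅X, V⁆ := commutator_mem_commutator hx hv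
    rw [hX, mem_bot] at h1
    calc x * v = (x * v * x⁻¹ * v⁻¹) * (v * x) := by group
      _ = v * x := by rw [h1, one_mul]
  have hVY : V ≤ Y := by
    rcases hV.min (Y ⊓ V) inferInstance bot_le inf_le_right with h | h
    · exfalso
      refine hY4 (hC1 Y ?_)
      rw [eq_bot_iff, ← h]
      exact commutator_le_inf Y V
    · rw [← h]
      exact inf_le_left
  have hYY : ⁅Y, Y⁆ = V := by
    rcases hV.min ⁅Y, Y⁆ inferInstance bot_le hY5 with h | h
    · exfalso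
      refine hY4 (hC1 Y ?_)
      rw [eq_bot_iff, ← h]
      exact commutator_mono le_rfl hVY
    · exact h
  obtain ⟨m', hm1, hm2, hm3⟩ := V1 (hC.mono hκ2.le) Y Y m m hY1 hY1 (by omega)
  rw [hYY] at hm3
  refine ⟨r, s, m', hr.out, hs, by omega, hcard, ?_, hm3, ?_, ?_⟩
  · intro x hx
    have := hpow x hx
    rwa [mem_bot] at this
  · have h2 : (2 : ℝ) ≤ 2 ^ κ := by
      calc (2 : ℝ) = 2 ^ (1 : ℝ) := by simp
        _ ≤ 2 ^ κ := Real.rpow_le_rpow_of_exponent_le (by norm_num) hκ.le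
    have hb : (0 : ℝ) ≤ (A * (s : ℝ) ^ (5 / 2 : ℝ)) ^ κ * m0 := by positivity
    calc (m' : ℝ) ≤ 2 ^ κ * ((m : ℝ) + m) := hm2
      _ = 2 ^ κ * (2 * m) := by ring
      _ ≤ 2 ^ κ * (2 ^ κ * ((A * (s : ℝ) ^ (5 / 2 : ℝ)) ^ κ * m0)) :=
          mul_le_mul_of_nonneg_left (mul_le_mul h2 hY3 (by positivity) (by positivity))
            (by positivity)
      _ = (4 * A * (s : ℝ) ^ (5 / 2 : ℝ)) ^ κ * m0 := by
          rw [← mul_assoc, ← mul_assoc, ← Real.mul_rpow (by norm_num) (by norm_num),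
            ← Real.mul_rpow (by norm_num) (by positivity)]
          congr 2
          ring
  · intro g hg
    have h1 := D1 hg (by simp) ψ hirr hsol'
    rwa [hkerV] at h1

end GP48
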