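import Mathlib
import Pool.Agent.LibGP48.Defs

/-!
# LibGP48 G1 (SHORT)

Products b_0^e_0 ... b_(t-1)^e_(t-1), e in {0,1}^t, are 2^t distinct elements of length <= t*l: if two
of them agree and k is the last index where they differ, then b_k lies in P k. Induction on t: a finset Q of 2^t elements of
wball S (t*l) inside P t; Q together with Q*b_t is the next one. Copy lemma pow_le_ncard of
Pool/Agent/Results/MP_419902_al/NormalClosures.lean (origin/main).
-/

namespace GP48

open Subgroup

theorem G1 {G : Type*} [Group G] {S : Set G} (hS : S.Finite) (t l : ℕ) (P : ℕ → Subgroup G)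
    (b : ℕ → G) (hb : ∀ k < t, b k ∈ P (k + 1)) (hb' : ∀ k < t, b k ∉ P k)
    (hP : ∀ k < t, P k ≤ P (k + 1)) (hl : ∀ k < t, b k ∈ wball S l) :
    2 ^ t ≤ (wball S (t * l)).ncard := by
  classical
  have key : ∀ j ≤ t, ∃ Q : Finset G, Q.card = 2 ^ j ∧ (∀ x ∈ Q, x ∈ wball S (j * l)) ∧
      ∀ x ∈ Q, x ∈ P j := by
    intro j
    induction j with
    | zero =>
      intro _
      refine ⟨{1}, by simp, ?_, ?_⟩
      · intro x hx
        rw [Finset.mem_singleton] at hx
        rw [hx]; exact wball_one S _
      · intro x hx
        rw [Finset.mem_singleton] at hx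
        rw [hx]; exact one_mem _
    | succ j ih =>
      intro hj
      obtain ⟨Q, hQ, hQw, hQP⟩ := ih (by omega)
      have hjt : j < t := by omega
      have hdis : Disjoint Q (Q.image (fun x => x * b j)) := by
        rw [Finset.disjoint_left]
        intro x hx hx'
        obtain ⟨y, hy, rfl⟩ := Finset.mem_image.1 hx'
        apply hb' j hjt
        have h1 := (P j).mul_mem ((P j).inv_mem (hQP y hy)) (hQP _ hx)
        simpa using h1
      refine ⟨Q ∪ Q.image (fun x => x * b j), ?_, ?_, ?_⟩
      · rw [Finset.card_union_of_disjoint hdis,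
          Finset.card_image_of_injective _ (mul_left_injective (b j)), hQ, pow_succ]
        ring
      · intro x hx
        rcases Finset.mem_union.1 hx with hx | hx
        · exact wball_mono S (Nat.mul_le_mul_right l (Nat.le_succ j)) (hQw x hx)
        · obtain ⟨y, hy, rfl⟩ := Finset.mem_image.1 hx
          have := wball_mul (hQw y hy) (hl j hjt)
          rw [Nat.succ_mul]
          exact this
      · intro x hx
        rcases Finset.mem_union.1 hx with hx | hx
        · exact hP j hjt (hQP x hx)
        · obtain ⟨y, hy, rfl⟩ := Finset.mem_image.1 hx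
          exact (P (j + 1)).mul_mem (hP j hjt (hQP y hy)) (hb j hjt)
  obtain ⟨Q, hQ, hQw, -⟩ := key t le_rfl
  rw [← hQ, ← Set.ncard_coe_finset Q]
  exact Set.ncard_le_ncard (fun x hx => hQw x hx) (wball_finite hS _)

end GP48
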