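import Mathlib
import Pool.Agent.LibGP48.Defs

/-!
# LibGP48 G7a (MEDIUM/STRONG)

T/U is an abelian group generated by k = F.card elements, X/U a subgroup of it, X/Y an elementary abelian r-group of order r^s.
So Z^k -> T/U onto; the preimage of X/U is a subgroup of Z^k, free of rank <= k (Submodule.finrank_le, free over a PID), so X/U and X/Y are
generated by <= k elements, so dim_(F_r) X/Y = s <= k.  (Other way: induction on F.card: for a in F, T' = closure (F \ {a}) ⊔ U; X n T' modulo Y n T' has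
order r^s' and [X : (X n T') Y] is 1 or r, because X/(X n T')... cyclic and of exponent r modulo Y. Then s <= s'+1. This is elementary and perhaps easier:
X/((X n T')Y) is cyclic (quotient of X/(X n T') which embeds in the cyclic group T/T') and has exponent r, so order 1 or r;
((X n T')Y)/Y = (X n T')/(X n T' n Y), apply the induction hypothesis to T', U, X n T', Y n T' (note U <= T').)
-/

namespace GP48

open Subgroup

private theorem G7a_cyc {A : Type*} [CommGroup A] {r : ℕ} (hr : 0 < r) (Z : Subgroup A) (x : A)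
    (hx : x ^ r ∈ Z) : Z.relIndex (zpowers x) ≤ r := by
  classical
  have hsurj : Function.Surjective (fun i : Fin r =>
      (QuotientGroup.mk (⟨x ^ (i : ℕ), ⟨(i : ℕ), by simp⟩⟩ : zpowers x) :
        zpowers x ⧸ Z.subgroupOf (zpowers x))) := by
    intro y
    obtain ⟨⟨z, n, hn⟩, rfl⟩ := QuotientGroup.mk_surjective y
    have hr' : (r : ℤ) ≠ 0 := by exact_mod_cast hr.ne'
    have h0 : 0 ≤ n % r := Int.emod_nonneg _ hr'
    have h1 : n % r < r := Int.emod_lt_of_pos _ (by exact_mod_cast hr)
    refine ⟨⟨(n % r).toNat, by omega⟩, ?_⟩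
    apply QuotientGroup.eq.2
    rw [Subgroup.mem_subgroupOf]
    have h2 : x ^ (n % r).toNat = x ^ (n % r) := by
      rw [← zpow_natCast, Int.toNat_of_nonneg h0]
    have hn' : x ^ n = z := hn
    have h3 : (x ^ (n % r).toNat)⁻¹ * z = (x ^ r) ^ (n / r) := by
      rw [h2, ← hn', ← zpow_neg, ← zpow_add, ← zpow_natCast, ← zpow_mul]
      congr 1
      have := Int.emod_add_mul_ediv n r
      linarith
    change (x ^ (n % r).toNat)⁻¹ * z ∈ Z
    rw [h3]
    exact Z.zpow_mem hx _
  have h4 := Nat.card_le_card_of_surjective _ hsurj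
  rw [Nat.card_fin] at h4
  exact h4

private theorem G7a_comm {A : Type*} [CommGroup A] {r : ℕ} (hr : 0 < r) [DecidableEq A]
    (F : Finset A) :
    ∀ X Y : Subgroup A, Y ≤ X → X ≤ closure (F : Set A) → (∀ x ∈ X, x ^ r ∈ Y) →
      Y.relIndex X ≤ r ^ F.card := by
  induction F using Finset.induction_on with
  | empty =>
    intro X Y hYX hX _
    rw [Finset.coe_empty, Subgroup.closure_empty, le_bot_iff] at hX
    subst hX
    rw [le_bot_iff] at hYX
    subst hYX
    simp
  | insert a F' ha ih =>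
    intro X Y hYX hX hexp
    set T' := closure (F' : Set A) with hT'
    set X' := X ⊓ T' with hX'
    have hins : closure ((insert a F' : Finset A) : Set A) = zpowers a ⊔ T' := by
      rw [Finset.coe_insert, Set.insert_eq, Subgroup.closure_union, zpowers_eq_closure]
    -- the subgroup of exponents
    let E : AddSubgroup ℤ :=
      { carrier := {n | ∃ t ∈ T', a ^ n * t ∈ X}
        add_mem' := by
          rintro m n ⟨t, ht, h1⟩ ⟨t', ht', h2⟩
          refine ⟨t * t', T'.mul_mem ht ht', ?_⟩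
          have : a ^ (m + n) * (t * t') = (a ^ m * t) * (a ^ n * t') := by
            rw [zpow_add]
            exact mul_mul_mul_comm _ _ _ _
          rw [this]
          exact X.mul_mem h1 h2
        zero_mem' := ⟨1, T'.one_mem, by simp⟩
        neg_mem' := by
          rintro n ⟨t, ht, h1⟩
          refine ⟨t⁻¹, T'.inv_mem ht, ?_⟩
          have : a ^ (-n) * t⁻¹ = (a ^ n * t)⁻¹ := by
            rw [zpow_neg, mul_inv]
          rw [this]
          exact X.inv_mem h1 }
    obtain ⟨d, hd⟩ := Int.subgroup_cyclic E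
    have hdE : d ∈ E := by
      rw [hd]
      exact AddSubgroup.mem_closure_singleton_self d
    obtain ⟨t₀, ht₀, hx₀⟩ := hdE
    set x₀ := a ^ d * t₀ with hx₀def
    have hXle : X ≤ zpowers x₀ ⊔ (X' ⊔ Y) := by
      intro x hx
      have h1 := hX hx
      rw [hins, Subgroup.mem_sup] at h1
      obtain ⟨_, ⟨n, rfl⟩, t, ht, hxt⟩ := h1
      have hnE : n ∈ E := ⟨t, ht, by
        have : a ^ n * t = x := hxt
        rw [this]
        exact hx⟩
      rw [hd, AddSubgroup.mem_closure_singleton] at hnE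
      obtain ⟨c, hc⟩ := hnE
      have h2 : x * (x₀ ^ c)⁻¹ ∈ X' := by
        refine ⟨X.mul_mem hx (X.inv_mem (X.zpow_mem hx₀ c)), ?_⟩
        have h3 : x * (x₀ ^ c)⁻¹ = t * (t₀ ^ c)⁻¹ := by
          have h4 : a ^ n * t = x := hxt
          rw [← h4, hx₀def, mul_zpow, ← zpow_mul, ← hc, smul_eq_mul, mul_comm c d, mul_inv,
            mul_mul_mul_comm, mul_inv_cancel, one_mul]
        rw [h3]
        exact T'.mul_mem ht (T'.inv_mem (T'.zpow_mem ht₀ c))
      rw [Subgroup.mem_sup]
      refine ⟨x₀ ^ c, ⟨c, rfl⟩, x * (x₀ ^ c)⁻¹, Subgroup.mem_sup_left h2, ?_⟩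
      rw [mul_comm x, mul_inv_cancel_left]
    have hZX : X' ⊔ Y ≤ X := sup_le inf_le_left hYX
    have hXeq : X = zpowers x₀ ⊔ (X' ⊔ Y) :=
      le_antisymm hXle (sup_le (by rw [zpowers_le]; exact hx₀) hZX)
    have h5 : (X' ⊔ Y).relIndex X ≤ r := by
      have h6 : (X' ⊔ Y).relIndex X = (X' ⊔ Y).relIndex (zpowers x₀) := by
        conv_lhs => rw [hXeq]
        exact relIndex_sup_right _ _
      rw [h6]
      exact G7a_cyc hr _ _ (Subgroup.mem_sup_right (hexp _ hx₀))
    have h7 : Y.relIndex (X' ⊔ Y) ≤ r ^ F'.card := by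
      rw [relIndex_sup_right, ← inf_relIndex_right]
      exact ih X' (Y ⊓ X') inf_le_right inf_le_right
        (fun x hx => ⟨hexp x hx.1, X'.pow_mem hx r⟩)
    rw [← relIndex_mul_relIndex Y (X' ⊔ Y) X le_sup_right hZX, Finset.card_insert_of_notMem ha,
      pow_succ]
    exact Nat.mul_le_mul h7 h5

theorem G7a {G : Type*} [Group G] (T U X Y : Subgroup G) [U.Normal] (hUY : U ≤ Y) (hYX : Y ≤ X)
    (hXT : X ≤ T) (hTU : ⁅T, T⁆ ≤ U) (F : Finset G) (hF : T = closure (F : Set G) ⊔ U)
    (r s : ℕ) (hr : r.Prime) (hexp : ∀ x ∈ X, x ^ r ∈ Y) (hcard : Y.relIndex X = r ^ s) :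
    s ≤ F.card := by
  classical
  have hUT : U ≤ T := hUY.trans (hYX.trans hXT)
  have hFT : ∀ a ∈ F, a ∈ T := by
    intro a ha
    rw [hF]
    exact Subgroup.mem_sup_left (Subgroup.subset_closure ha)
  let _ : CommGroup (T ⧸ U.subgroupOf T) :=
    { (inferInstance : Group (T ⧸ U.subgroupOf T)) with
      mul_comm := by
        intro x y
        obtain ⟨x, rfl⟩ := QuotientGroup.mk_surjective x
        obtain ⟨y, rfl⟩ := QuotientGroup.mk_surjective y
        apply QuotientGroup.eq.2
        rw [Subgroup.mem_subgroupOf]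
        have h1 := hTU (Subgroup.commutator_mem_commutator (y⁻¹).2 (x⁻¹).2)
        rw [commutatorElement_def] at h1
        have h2 : (((x * y)⁻¹ * (y * x) : T) : G) = ((y⁻¹ : T) : G) * ((x⁻¹ : T) : G) *
            ((y⁻¹ : T) : G)⁻¹ * ((x⁻¹ : T) : G)⁻¹ := by
          push_cast
          group
        rw [h2]
        exact h1 }
  set π : T →* T ⧸ U.subgroupOf T := QuotientGroup.mk' (U.subgroupOf T) with hπ
  have hπs : Function.Surjective π := QuotientGroup.mk'_surjective _
  have hker : ∀ t : T, π t = 1 ↔ (t : G) ∈ U := fun t => QuotientGroup.eq_one_iff t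
  let F' : Finset (T ⧸ U.subgroupOf T) := F.attach.image (fun a : {x // x ∈ F} => π ⟨(a : G), hFT a a.2⟩)
  have hF' : F'.card ≤ F.card := by
    have := Finset.card_image_le (s := F.attach) (f := fun a : {x // x ∈ F} => π ⟨(a : G), hFT a a.2⟩)
    rwa [Finset.card_attach] at this
  have hcl : closure (F' : Set (T ⧸ U.subgroupOf T)) = ⊤ := by
    rw [eq_top_iff]
    intro y _
    obtain ⟨t, rfl⟩ := hπs y
    have h1 : T ≤ ((closure (F' : Set (T ⧸ U.subgroupOf T))).comap π).map T.subtype := by
      conv_lhs => rw [hF]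
      refine sup_le ?_ ?_
      · rw [closure_le]
        intro a ha
        refine ⟨⟨a, hFT a ha⟩, ?_, rfl⟩
        change π ⟨a, hFT a ha⟩ ∈ closure (F' : Set (T ⧸ U.subgroupOf T))
        apply Subgroup.subset_closure
        rw [Finset.mem_coe, Finset.mem_image]
        exact ⟨⟨a, ha⟩, Finset.mem_attach _ _, rfl⟩
      · intro a ha
        refine ⟨⟨a, hUT ha⟩, ?_, rfl⟩
        change π ⟨a, hUT ha⟩ ∈ closure (F' : Set (T ⧸ U.subgroupOf T))
        rw [(hker ⟨a, hUT ha⟩).2 ha]
        exact one_mem _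
    obtain ⟨t', ht', h2⟩ := h1 t.2
    have h3 : t' = t := Subtype.ext h2
    rw [h3] at ht'
    exact ht'
  have hcom : ((Y.subgroupOf T).map π).comap π = Y.subgroupOf T := by
    apply le_antisymm
    · rintro t ⟨y, hy, hyt⟩
      have h4 : π (y⁻¹ * t) = 1 := by
        rw [map_mul, map_inv, hyt, inv_mul_cancel]
      have h5 : ((y⁻¹ * t : T) : G) ∈ Y := hUY ((hker _).1 h4)
      have h6 : (y : G) ∈ Y := hy
      have h7 : (t : G) = (y : G) * ((y⁻¹ * t : T) : G) := by
        push_cast
        group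
      change (t : G) ∈ Y
      rw [h7]
      exact Y.mul_mem h6 h5
    · exact le_comap_map _ _
  have key := G7a_comm hr.pos F' ((X.subgroupOf T).map π) ((Y.subgroupOf T).map π)
    (Subgroup.map_mono (fun t ht => hYX ht)) (by rw [hcl]; exact le_top) (by
      rintro _ ⟨x, hx, rfl⟩
      exact ⟨x ^ r, hexp x hx, map_pow π x r⟩)
  rw [← relIndex_comap, hcom, relIndex_subgroupOf hXT, hcard] at key
  exact (Nat.pow_le_pow_iff_right hr.one_lt).1 (key.trans (Nat.pow_le_pow_right hr.pos hF'))

end GP48
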