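import Mathlib
import Pool.Agent.LibGP48.Defs
import Pool.Agent.LibGP48.G1
import Pool.Agent.LibGP48.G7a

/-!
# LibGP48 G7 (MEDIUM)

Greedy: for k < s and elements b_0..b_(k-1) of T n wball S m, the subgroup P k = closure {b_j : j<k} ⊔ U is not T by G7a (the finset has
<= k < s elements), so some element b_k of T n wball S m is not in P k. Then G1 with l = m.
-/

namespace GP48

open Subgroup

private theorem G7_step {G : Type*} [Group G] {S : Set G} (T U X Y : Subgroup G)
    [U.Normal] (hUY : U ≤ Y) (hYX : Y ≤ X) (hXT : X ≤ T) (hTU : ⁅T, T⁆ ≤ U) (m : ℕ)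
    (hgen : T = closure ((T : Set G) ∩ wball S m)) (r s : ℕ) (hr : r.Prime)
    (hexp : ∀ x ∈ X, x ^ r ∈ Y) (hcard : Y.relIndex X = r ^ s) :
    ∀ k ≤ s, ∃ b : ℕ → G, ∀ j < k, b j ∈ T ∧ b j ∈ wball S m ∧
      b j ∉ closure (b '' {i | i < j}) ⊔ U := by
  classical
  intro k
  induction k with
  | zero => exact fun _ => ⟨fun _ => 1, fun j hj => absurd hj (Nat.not_lt_zero j)⟩
  | succ k ih =>
    intro hk
    obtain ⟨b, hb⟩ := ih (by omega)
    let F : Finset G := (Finset.range k).image b
    have hF : (F : Set G) = b '' {i | i < k} := by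
      simp only [F, Finset.coe_image, Finset.coe_range]
      rfl
    have hFc : F.card ≤ k := by
      have := Finset.card_image_le (s := Finset.range k) (f := b)
      rwa [Finset.card_range] at this
    have hUT : U ≤ T := hUY.trans (hYX.trans hXT)
    have hle : closure (F : Set G) ⊔ U ≤ T := by
      refine sup_le ?_ hUT
      rw [closure_le, hF]
      rintro _ ⟨i, hi, rfl⟩
      exact (hb i hi).1
    have hex : ∃ x, x ∈ T ∧ x ∈ wball S m ∧ x ∉ closure (F : Set G) ⊔ U := by
      by_contra hcon
      push Not at hcon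
      have h1 : T ≤ closure (F : Set G) ⊔ U := by
        conv_lhs => rw [hgen]
        rw [closure_le]
        rintro x ⟨hx, hx'⟩
        exact hcon x hx hx'
      have h2 := G7a T U X Y hUY hYX hXT hTU F (le_antisymm h1 hle) r s hr hexp hcard
      omega
    obtain ⟨x, hx1, hx2, hx3⟩ := hex
    have hup : ∀ j ≤ k, (Function.update b k x) '' {i | i < j} = b '' {i | i < j} := by
      intro j hj
      apply Set.image_congr
      intro i hi
      have hi' : i < j := hi
      exact Function.update_of_ne (by omega) _ _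
    refine ⟨Function.update b k x, fun j hj => ?_⟩
    rcases Nat.lt_succ_iff_lt_or_eq.1 hj with h | h
    · rw [hup j h.le, Function.update_of_ne h.ne]
      exact hb j h
    · subst h
      rw [hup j le_rfl, Function.update_self, ← hF]
      exact ⟨hx1, hx2, hx3⟩

theorem G7 {G : Type*} [Group G] {S : Set G} (hS : S.Finite) (T U X Y : Subgroup G) [U.Normal]
    (hUY : U ≤ Y) (hYX : Y ≤ X) (hXT : X ≤ T) (hTU : ⁅T, T⁆ ≤ U) (m : ℕ)
    (hgen : T = closure ((T : Set G) ∩ wball S m)) (r s : ℕ) (hr : r.Prime)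
    (hexp : ∀ x ∈ X, x ^ r ∈ Y) (hcard : Y.relIndex X = r ^ s) :
    2 ^ s ≤ (wball S (s * m)).ncard := by
  obtain ⟨b, hb⟩ := G7_step T U X Y hUY hYX hXT hTU m hgen r s hr hexp hcard s le_rfl
  apply G1 hS s m (fun k => closure (b '' {i | i < k}) ⊔ U) b
  · intro k _
    exact Subgroup.mem_sup_left (Subgroup.subset_closure ⟨k, Nat.lt_succ_self k, rfl⟩)
  · intro k hk
    exact (hb k hk).2.2
  · intro k _
    apply sup_le_sup_right
    apply Subgroup.closure_mono
    apply Set.image_mono
    intro i hi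
    exact Nat.lt_succ_of_lt hi
  · intro k hk
    exact (hb k hk).2.1

end GP48
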