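import Mathlib
import Pool.Agent.LibGP48.Defs
import Pool.Agent.LibGP48.G1

/-!
# LibGP48 G2 (MEDIUM)

P k := closure (T n wball S (x0+2k)), k = 0..t+1. If k <= t and P (k+1) <= P k then P k is invariant
under conjugation by S and S^-1 (a in T of length <= x0+2k, s in S: s^-1 a s in T has length <= x0+2k+2), so normal (hgen), it contains E,
so normalClosure E <= P k and T <= P k <= P t, against hbad. So for k = 0..t there is b_k in T n wball S (x0+2(k+1)), b_k not in P k.
G1 with t+1, l = x0+2(t+1). (Compare cl_stop in NormalClosures.lean of MP_419902_al.)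
-/

namespace GP48

open Subgroup

theorem G2 {G : Type*} [Group G] {S : Set G} (hS : S.Finite) (hgen : closure S = ⊤)
    (T : Subgroup G) [T.Normal] (E : Set G) (x0 : ℕ) (hE : E ⊆ (T : Set G) ∩ wball S x0)
    (hT : T ≤ normalClosure E) (t : ℕ)
    (hbad : ¬ T ≤ closure ((T : Set G) ∩ wball S (x0 + 2 * t))) :
    2 ^ (t + 1) ≤ (wball S ((t + 1) * (x0 + 2 * (t + 1)))).ncard := by
  set P : ℕ → Subgroup G := fun k => closure ((T : Set G) ∩ wball S (x0 + 2 * k)) with hPdef
  have hmono : ∀ {k m : ℕ}, k ≤ m → P k ≤ P m := by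
    intro k m hkm
    exact Subgroup.closure_mono (Set.inter_subset_inter_right _ (wball_mono S (by omega)))
  have hex : ∀ k, ∃ b, k < t + 1 → b ∈ (T : Set G) ∩ wball S (x0 + 2 * (k + 1)) ∧ b ∉ P k := by
    intro k
    by_cases hk : k < t + 1
    swap
    · exact ⟨1, fun h => absurd h hk⟩
    by_contra hcon
    have hcon' : ∀ b ∈ (T : Set G) ∩ wball S (x0 + 2 * (k + 1)), b ∈ P k := by
      intro b hb
      by_contra hbk
      exact hcon ⟨b, fun _ => ⟨hb, hbk⟩⟩
    have hs : ∀ s ∈ wball S 1, ∀ x ∈ P k, s⁻¹ * x * s ∈ P k := by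
      intro s hs x hx
      induction hx using Subgroup.closure_induction with
      | mem x hx =>
        refine hcon' _ ⟨?_, ?_⟩
        · have h1 : s⁻¹ * x * s⁻¹⁻¹ ∈ T := Subgroup.Normal.conj_mem inferInstance x hx.1 s⁻¹
          rw [inv_inv] at h1
          exact h1
        · exact wball_mono S (by omega) (wball_mul (wball_mul (wball_inv hs) hx.2) hs)
      | one => simp
      | mul x y _ _ hx hy =>
        have h1 := Subgroup.mul_mem _ hx hy
        have e : s⁻¹ * x * s * (s⁻¹ * y * s) = s⁻¹ * (x * y) * s := by group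
        rwa [e] at h1
      | inv x _ hx =>
        have h1 := Subgroup.inv_mem _ hx
        have e : (s⁻¹ * x * s)⁻¹ = s⁻¹ * x⁻¹ * s := by group
        rwa [e] at h1
    have hall : ∀ g ∈ closure S, (∀ x ∈ P k, g⁻¹ * x * g ∈ P k) ∧ ∀ x ∈ P k, g * x * g⁻¹ ∈ P k := by
      intro g hg
      induction hg using Subgroup.closure_induction with
      | mem s hs' =>
        refine ⟨hs s (wball_gen hs'), fun x hx => ?_⟩
        have h1 := hs s⁻¹ (wball_inv (wball_gen hs')) x hx
        rwa [inv_inv] at h1
      | one => exact ⟨fun x hx => by simpa using hx, fun x hx => by simpa using hx⟩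
      | mul a b _ _ ha hb =>
        refine ⟨fun x hx => ?_, fun x hx => ?_⟩
        · have h1 := hb.1 _ (ha.1 x hx)
          have e : b⁻¹ * (a⁻¹ * x * a) * b = (a * b)⁻¹ * x * (a * b) := by group
          rwa [e] at h1
        · have h1 := ha.2 _ (hb.2 x hx)
          have e : a * (b * x * b⁻¹) * a⁻¹ = a * b * x * (a * b)⁻¹ := by group
          rwa [e] at h1
      | inv a _ ha =>
        refine ⟨fun x hx => ?_, fun x hx => ?_⟩
        · have h1 := ha.2 x hx
          rwa [inv_inv]
        · have h1 := ha.1 x hx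
          rwa [inv_inv]
    have hn : (P k).Normal := ⟨fun x hx g => (hall g (by rw [hgen]; exact Subgroup.mem_top g)).2 x hx⟩
    have h1 : E ⊆ P k := by
      intro e he
      have h2 := hE he
      exact Subgroup.subset_closure ⟨h2.1, wball_mono S (by omega) h2.2⟩
    exact hbad ((hT.trans (Subgroup.normalClosure_le_normal h1)).trans (hmono (by omega)))
  choose b hb using hex
  exact G1 hS (t + 1) (x0 + 2 * (t + 1)) P b (fun k hk => Subgroup.subset_closure (hb k hk).1)
    (fun k hk => (hb k hk).2) (fun k _ => hmono (Nat.le_succ k))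
    (fun k hk => wball_mono S (by omega) (hb k hk).1.2)

end GP48
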