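import Mathlib
import Pool.Agent.LibGP48.XDefs
import Pool.Agent.LibGP48.G2
import Pool.Agent.LibGP48.G4

/-!
# LibGP48 N1 (MEDIUM (assembly))

θ = β/(1-β) < 1, C from G4a for f n = (wball S n).ncard. Choose m0 >= 1 such that for all y >= m0: 2 C y^θ + 2 <= (2^(κ-1) - 1) y (y natural or real; possible since θ < 1 and 2^(κ-1) > 1).
Given T, E, c, m: put x0 = c*m (>= m0 >= 1). Claim: there is t with T <= closure (T n wball S (x0+2t)): otherwise G2 for every t gives 2^(t+1) <= f((t+1)(x0+2(t+1))), so by G4a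
t+1 <= C x0^θ for all t, absurd. Let t be minimal (Nat.find), m' = x0+2t. If t >= 1, G2 with t-1 and G4a give t <= C x0^θ. So m' <= x0 + 2 C x0^θ <= c m + (2^(κ-1)-1) c m = 2^(κ-1) c m <= c^(κ-1) c m = c^κ m
(c >= 2, κ > 1). m0 <= m <= m'. Rch: closure (T n wball) <= T (closure_le), the other inclusion is the choice of t.
-/

namespace GP48

open Subgroup

private theorem N1_large (C θ δ : ℝ) (hC : 1 ≤ C) (hθ : θ < 1) (hδ : 0 < δ) :
    ∃ m0 : ℕ, 1 ≤ m0 ∧ ∀ y : ℝ, (m0 : ℝ) ≤ y → 2 * C * y ^ θ ≤ δ * y := by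
  have h1 := tendsto_rpow_neg_atTop (show 0 < 1 - θ by linarith)
  have h2 := h1.eventually (gt_mem_nhds (show 0 < δ / (2 * C) by positivity))
  obtain ⟨N, hN⟩ := Filter.eventually_atTop.1 h2
  refine ⟨max ⌈N⌉₊ 1, le_max_right _ _, ?_⟩
  intro y hy
  push_cast at hy
  have hy1 : N ≤ y := (Nat.le_ceil N).trans ((le_max_left _ _).trans hy)
  have hy2 : 1 ≤ y := (le_max_right _ _).trans hy
  have h3 := hN y hy1
  have e : y ^ θ = y ^ (-(1 - θ)) * y := by
    rw [← Real.rpow_add_one (by linarith)]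
    congr 1
    ring
  rw [e]
  have h4 : 2 * C * (y ^ (-(1 - θ)) * y) ≤ 2 * C * (δ / (2 * C) * y) :=
    mul_le_mul_of_nonneg_left (mul_le_mul_of_nonneg_right h3.le (by linarith)) (by positivity)
  have h5 : 2 * C * (δ / (2 * C) * y) = δ * y := by field_simp
  linarith

theorem N1 {G : Type*} [Group G] (S : Set G) (hSf : S.Finite) (hS : closure S = ⊤) (β : ℝ)
    (h0 : 0 < β) (h1 : β < 1 / 2) (hg : Gro (fun n => (wball S n).ncard) β) (κ : ℝ)
    (hκ : 1 < κ) : ∃ m0 : ℕ, 1 ≤ m0 ∧ CostH S κ m0 := by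
  classical
  obtain ⟨C, hC, hG⟩ := G4a (fun n => (wball S n).ncard) β h0 h1 hg
  set θ : ℝ := β / (1 - β) with hθ
  have hθ1 : θ < 1 := by
    rw [hθ, div_lt_one (by linarith)]
    linarith
  set δ : ℝ := (2 : ℝ) ^ (κ - 1) - 1 with hδ
  have hδ0 : 0 < δ := by
    have : (1 : ℝ) < (2 : ℝ) ^ (κ - 1) := Real.one_lt_rpow (by norm_num) (by linarith)
    linarith
  obtain ⟨m0, hm0, hL⟩ := N1_large C θ δ hC hθ1 hδ0
  refine ⟨m0, hm0, ?_⟩
  intro T E c m hTn hc hm hE hT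
  have := hTn
  have hx1 : 1 ≤ c * m := by
    have : 1 ≤ m := hm0.trans hm
    exact Nat.one_le_iff_ne_zero.2 (Nat.mul_ne_zero (by omega) (by omega))
  have hbound : ∀ t : ℕ, ¬ T ≤ closure ((T : Set G) ∩ wball S (c * m + 2 * t)) →
      ((t + 1 : ℕ) : ℝ) ≤ C * ((c * m : ℕ) : ℝ) ^ θ := by
    intro t ht
    exact hG (c * m) (t + 1) hx1 (G2 hSf hS T E (c * m) hE hT t ht)
  have hex : ∃ t : ℕ, T ≤ closure ((T : Set G) ∩ wball S (c * m + 2 * t)) := by
    by_contra hcon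
    push Not at hcon
    obtain ⟨t, ht⟩ := exists_nat_gt (C * ((c * m : ℕ) : ℝ) ^ θ)
    have h2 := hbound t (hcon t)
    push_cast at h2 ht
    linarith
  have hspec := Nat.find_spec hex
  have hmin : (Nat.find hex : ℝ) ≤ C * ((c * m : ℕ) : ℝ) ^ θ := by
    rcases Nat.eq_zero_or_pos (Nat.find hex) with h2 | h2
    · rw [h2]
      have : (0 : ℝ) ≤ ((c * m : ℕ) : ℝ) ^ θ := Real.rpow_nonneg (Nat.cast_nonneg _) _
      simp only [Nat.cast_zero]
      positivity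
    · obtain ⟨t', ht'⟩ : ∃ t', Nat.find hex = t' + 1 := ⟨Nat.find hex - 1, by omega⟩
      have h3 : ¬ T ≤ closure ((T : Set G) ∩ wball S (c * m + 2 * t')) := Nat.find_min hex (by omega)
      rw [ht']
      exact hbound t' h3
  set t := Nat.find hex with ht
  have hcR : (2 : ℝ) ≤ c := by exact_mod_cast hc
  have hmle : m ≤ c * m := Nat.le_mul_of_pos_left m (by omega)
  refine ⟨c * m + 2 * t, by omega, ?_, ?_⟩
  · have hy : (m0 : ℝ) ≤ ((c * m : ℕ) : ℝ) := by exact_mod_cast hm.trans hmle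
    have h2 := hL _ hy
    have h3 : ((c * m + 2 * t : ℕ) : ℝ) ≤ (2 : ℝ) ^ (κ - 1) * ((c * m : ℕ) : ℝ) := by
      have h4 : (2 : ℝ) ^ (κ - 1) = 1 + δ := by rw [hδ]; ring
      rw [h4]
      push_cast at h2 hmin ⊢
      nlinarith
    refine h3.trans ?_
    have h4 : (c : ℝ) ^ κ = (c : ℝ) ^ (κ - 1) * c := by
      rw [← Real.rpow_add_one (by linarith)]
      congr 1
      ring
    rw [h4]
    push_cast
    have h5 : (2 : ℝ) ^ (κ - 1) ≤ (c : ℝ) ^ (κ - 1) := Real.rpow_le_rpow (by norm_num) hcR (by linarith)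
    calc (2 : ℝ) ^ (κ - 1) * ((c : ℝ) * m) ≤ (c : ℝ) ^ (κ - 1) * ((c : ℝ) * m) :=
          mul_le_mul_of_nonneg_right h5 (by positivity)
      _ = (c : ℝ) ^ (κ - 1) * c * m := by ring
  · exact ⟨hTn, le_antisymm hspec ((closure_le _).2 Set.inter_subset_left)⟩

end GP48
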