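import Mathlib
import Pool.Agent.LibGP48.XDefs
import Pool.Agent.LibGP48.F0
import Pool.Agent.LibGP48.F1
import Pool.Agent.LibGP48.CQ
import Pool.Agent.LibGP48.N1
import Pool.Agent.LibGP48.G7
import Pool.Agent.LibGP48.M1

/-!
# LibGP48 F2: primitive quotients of a group of small growth have bounded derived length
-/

namespace GP48

open Subgroup

universe u

/-- exponent `κ > 1` with room -/
lemma exists_kappa (β : ℝ) (h0 : 0 < β) (h1 : β < 2 / 7) :
    ∃ κ : ℝ, 1 < κ ∧ 5 / 2 * κ * (β / (1 - β)) < 1 := by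
  have h2 : 0 < 1 - β := by linarith
  have h3 : β / (1 - β) < 2 / 5 := by
    rw [div_lt_iff₀ h2]
    linarith
  have h4 : 0 < β / (1 - β) := div_pos h0 h2
  set x := β / (1 - β) with hx
  refine ⟨(1 + 1 / (5 / 2 * x)) / 2, ?_, ?_⟩
  · have : 1 < 1 / (5 / 2 * x) := by
      rw [lt_div_iff₀ (by positivity)]
      linarith
    linarith
  · have h5 : 5 / 2 * ((1 + 1 / (5 / 2 * x)) / 2) * x = (5 / 2 * x + 1) / 2 := by
      field_simp
    rw [h5]
    linarith

/-- images of a chief pair in the quotient -/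
lemma chief_quot {G : Type} [Group G] {Y V : Subgroup G} [Y.Normal] (h : Chief Y V) :
    Chief (⊥ : Subgroup (G ⧸ Y)) (V.map (QuotientGroup.mk' Y)) := by
  have hV := h.nX
  have hsur := QuotientGroup.mk'_surjective Y
  refine ⟨inferInstance, hV.map _ hsur, ?_, ?_, ?_, ?_⟩
  · rw [bot_lt_iff_ne_bot]
    intro h1
    rw [Subgroup.map_eq_bot_iff, QuotientGroup.ker_mk'] at h1
    exact absurd h1 (not_le_of_gt h.lt)
  · rw [← Subgroup.map_commutator]
    rintro _ ⟨x, hx, rfl⟩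
    rw [mem_bot]
    exact (QuotientGroup.eq_one_iff x).2 (h.ab hx)
  · rw [relIndex_bot_left]
    have h1 : Nat.card (V.map (QuotientGroup.mk' Y)) = Y.relIndex V := by
      have h2 := Subgroup.relIndex_ker (K := V) (QuotientGroup.mk' Y)
      rw [QuotientGroup.ker_mk'] at h2
      exact h2.symm
    rw [h1]
    exact h.fin
  · intro Z hZn _ hZV
    have h1 : Y ≤ Z.comap (QuotientGroup.mk' Y) := by
      intro y hy
      rw [mem_comap]
      have : (QuotientGroup.mk' Y) y = 1 := (QuotientGroup.eq_one_iff y).2 hy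
      rw [this]
      exact Z.one_mem
    have h2 : Z.comap (QuotientGroup.mk' Y) ≤ V := by
      intro x hx
      obtain ⟨v, hv, hvx⟩ := hZV (mem_comap.1 hx)
      have h3 : v⁻¹ * x ∈ Y := QuotientGroup.eq.1 hvx
      have : x = v * (v⁻¹ * x) := by group
      rw [this]
      exact V.mul_mem hv (h.lt.le h3)
    rcases h.min _ (hZn.comap _) h1 h2 with h3 | h3
    · left
      rw [← Subgroup.map_comap_eq_self_of_surjective hsur Z, h3]
      rw [Subgroup.map_eq_bot_iff, QuotientGroup.ker_mk']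
    · right
      rw [← h3, Subgroup.map_comap_eq_self_of_surjective hsur Z]

/-- primitive quotients have bounded derived length -/
theorem F2 {G : Type} [Group G] (S : Set G) (hSf : S.Finite) (hS : closure S = ⊤) (β : ℝ)
    (h0 : 0 < β) (h1 : β < 2 / 7) (hg : Gro (fun n => (wball S n).ncard) β) :
    ∃ d0 : ℕ, ∀ Y V : Subgroup G, Chief Y V → (∃ e, ds (⊤ : Subgroup G) e ≤ Y) →
      (∀ x, (∀ v ∈ V, x * v * x⁻¹ * v⁻¹ ∈ Y) → x ∈ V) → ds (⊤ : Subgroup G) d0 ≤ V := by
  obtain ⟨κ, hκ1, hκ2⟩ := exists_kappa β h0 h1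
  have hκ3 : 1 < (1 + κ) / 2 := by linarith
  have hκ4 : (1 + κ) / 2 < κ := by linarith
  obtain ⟨m0, hm0, hC⟩ := N1 S hSf hS β h0 (by linarith) hg ((1 + κ) / 2) hκ3
  obtain ⟨A, hA, hF⟩ := F1 ((1 + κ) / 2) κ hκ3 hκ4
  have hκ0 : 0 < κ := by linarith
  have hm0R : (1 : ℝ) ≤ m0 := by exact_mod_cast hm0
  obtain ⟨s0, hs0⟩ := F0 _ β κ (A * m0) h0 (by linarith) hκ0
    (one_le_mul_of_one_le_of_one_le hA hm0R) hκ2 hg
  -- a bound for the derived length of linear groups of degree at most `s0`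
  obtain ⟨d0, hd0⟩ : ∃ d0 : ℕ, s0 ^ 5 * 9 ^ 5 < 9 ^ (d0 + 1) := by
    refine ⟨s0 ^ 5 * 9 ^ 5, ?_⟩
    calc s0 ^ 5 * 9 ^ 5 < 9 ^ (s0 ^ 5 * 9 ^ 5) := Nat.lt_pow_self (by norm_num)
      _ ≤ 9 ^ (s0 ^ 5 * 9 ^ 5 + 1) := Nat.pow_le_pow_right (by norm_num) (Nat.le_succ _)
  refine ⟨d0, ?_⟩
  intro Y V hYV hsol hself
  have hYn := hYV.nY
  by_cases hV : V = ⊤
  · rw [hV]
    exact le_top
  have hsur := QuotientGroup.mk'_surjective Y
  set f := QuotientGroup.mk' Y with hf
  have hSQ : closure (f '' S) = ⊤ := by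
    rw [← MonoidHom.map_closure, hS, ← MonoidHom.range_eq_map]
    exact MonoidHom.range_eq_top.2 hsur
  have hYleV : Y ≤ V := hYV.lt.le
  have hmemV : ∀ x, f x ∈ V.map f → x ∈ V := by
    intro x hx
    obtain ⟨v, hv, hvx⟩ := hx
    have h3 : v⁻¹ * x ∈ Y := QuotientGroup.eq.1 hvx
    have : x = v * (v⁻¹ * x) := by group
    rw [this]
    exact V.mul_mem hv (hYleV h3)
  obtain ⟨r, s, m, hr, hs, hm, hcard, hpow, hRch, hmle, hLB⟩ :=
    hF (f '' S) (hSf.image f) hSQ m0 hm0 (CQ f hsur S ((1 + κ) / 2) m0 hC) (V.map f) (chief_quot hYV)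
      (by
        intro x hx
        obtain ⟨y, rfl⟩ := hsur x
        refine mem_map_of_mem f (hself y fun v hv => ?_)
        have h3 := hx (f v) (mem_map_of_mem f hv)
        have h4 : f (y * v * y⁻¹ * v⁻¹) = 1 := by
          rw [map_mul, map_mul, map_mul, map_inv, map_inv, h3]
          group
        exact (QuotientGroup.eq_one_iff _).1 h4)
      (by
        obtain ⟨e, he⟩ := hsol
        refine ⟨e, ?_⟩
        have h3 : (⊤ : Subgroup (G ⧸ Y)) = (⊤ : Subgroup G).map f := by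
          rw [← MonoidHom.range_eq_map]
          exact (MonoidHom.range_eq_top.2 hsur).symm
        rw [h3, ← ds_map, Subgroup.map_eq_bot_iff, QuotientGroup.ker_mk']
        exact he)
      (by
        intro h3
        apply hV
        refine top_unique fun x _ => hmemV x ?_
        rw [h3]
        exact mem_top _)
  have h5 : 2 ^ s ≤ (wball (f '' S) (s * m)).ncard := by
    refine G7 (hSf.image f) (V.map f) ⊥ (V.map f) ⊥ le_rfl bot_le le_rfl (chief_quot hYV).ab m
      hRch.gen r s hr ?_ hcard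
    intro x hx
    rw [mem_bot]
    exact hpow x hx
  have h6 : s ≤ s0 := by
    refine hs0 s m hs hm (h5.trans (WQ' f hSf _)) (hmle.trans ?_)
    have h7 : (m0 : ℝ) ≤ (m0 : ℝ) ^ κ := by
      calc (m0 : ℝ) = (m0 : ℝ) ^ (1 : ℝ) := by simp
        _ ≤ _ := Real.rpow_le_rpow_of_exponent_le hm0R hκ1.le
    calc (A * (s : ℝ) ^ (5 / 2 : ℝ)) ^ κ * m0 ≤ (A * (s : ℝ) ^ (5 / 2 : ℝ)) ^ κ * (m0 : ℝ) ^ κ :=
          mul_le_mul_of_nonneg_left h7 (by positivity)
      _ = (A * m0 * (s : ℝ) ^ (5 / 2 : ℝ)) ^ κ := by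
          rw [← Real.mul_rpow (by positivity) (by positivity)]
          congr 1
          ring
  have h7 : LB s r d0 := by
    refine (M1 s hs).1 r hr d0 (lt_of_le_of_lt ?_ hd0)
    exact Nat.mul_le_mul_right _ (Nat.pow_le_pow_left h6 5)
  have h8 := hLB d0 h7
  intro x hx
  refine hmemV x (h8 ?_)
  have h3 : (⊤ : Subgroup (G ⧸ Y)) = (⊤ : Subgroup G).map f := by
    rw [← MonoidHom.range_eq_map]
    exact (MonoidHom.range_eq_top.2 hsur).symm
  rw [h3, ← ds_map]
  exact mem_map_of_mem f hx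

end GP48
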