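import Mathlib
import Pool.Agent.LibGP48.Defs

/-!
# LibGP48 FN1 (STRONG)

Work in Q = G ⧸ Z, finite; V', R' the images; V' is in every maximal subgroup of Q (coatoms of Q correspond to coatoms of G above Z). Replace R by B = R ⊔ V: B' = image in Q. hR: B'/V' is nilpotent (ic B' B' k <= V', as V <= B: [V,B] may be anything in V). Let P be a Sylow p-subgroup of B' (as a
subgroup of Q). PV'/V' is a Sylow subgroup of the nilpotent group B'/V', so characteristic there, and PV' is normal in Q. Frattini argument (Mathlib: Sylow.normalizer_sup_eq_top and variants, for the normal subgroup PV' and its Sylow subgroup P): Q = N_Q(P) PV' = N_Q(P) V'. If N_Q(P) != ⊤ it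
lies in a maximal subgroup (Q finite: IsCoatomic), which contains V', so it contains Q: contradiction. So P is normal in Q, all Sylow subgroups of B' are normal, B' is nilpotent (isNilpotent_of_finite_tfae), so is R', and NM R Z: ic R R k <= Z for k = nilpotency class (translate: the image of
ic R R k in Q is the lower central term of R').
-/

namespace GP48

open Subgroup

private theorem FN1_ic {Q : Type*} [Group Q] (R : Subgroup Q) (k : ℕ) : ic R R k = R.lowerCentralSeries k := by
  induction k with
  | zero => rfl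
  | succ k ih => rw [ic_succ, ih, Subgroup.lowerCentralSeries_succ]

private theorem FN1_aux {Q : Type*} [Group Q] [Finite Q] (U R : Subgroup Q) (hU : U.Normal) (hRn : R.Normal)
    (hUR : U ≤ R) (hM : ∀ M : Subgroup Q, IsCoatom M → U ≤ M) {k : ℕ} (hk : R.lowerCentralSeries k ≤ U) :
    Group.IsNilpotent R := by
  have hq := (Group.isNilpotent_of_finite_tfae (G := R)).out 0 3
  rw [hq]
  intro p hp P
  have hsurj : Function.Surjective (QuotientGroup.mk' (U.subgroupOf R)) := QuotientGroup.mk'_surjective _
  have hnil : Group.IsNilpotent (R ⧸ U.subgroupOf R) := by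
    rw [Subgroup.nilpotent_iff_lowerCentralSeries]
    refine ⟨k, ?_⟩
    have h1 : Subgroup.lowerCentralSeries (⊤ : Subgroup (R ⧸ U.subgroupOf R)) k =
        (Subgroup.lowerCentralSeries (⊤ : Subgroup R) k).map (QuotientGroup.mk' (U.subgroupOf R)) := by
      rw [map_lowerCentralSeries, Subgroup.map_top_of_surjective _ hsurj]
    rw [h1, Subgroup.map_eq_bot_iff, QuotientGroup.ker_mk']
    intro x hx
    rw [Subgroup.mem_subgroupOf]
    apply hk
    rw [← top_subtype_lowerCentralSeries]
    exact ⟨x, hx, rfl⟩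
  have hP1n : ∀ S : Sylow p (R ⧸ U.subgroupOf R), (S : Subgroup (R ⧸ U.subgroupOf R)).Normal := by
    have hq2 := (Group.isNilpotent_of_finite_tfae (G := R ⧸ U.subgroupOf R)).out 0 3
    rw [hq2] at hnil
    exact fun S => hnil p hp S
  have hP1c : ((P.mapSurjective hsurj : Sylow p (R ⧸ U.subgroupOf R)) : Subgroup (R ⧸ U.subgroupOf R)) =
      (P : Subgroup R).map (QuotientGroup.mk' (U.subgroupOf R)) := rfl
  have hmem : ∀ x : R, QuotientGroup.mk' (U.subgroupOf R) x ∈ (P.mapSurjective hsurj : Sylow p (R ⧸ U.subgroupOf R)) ↔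
      ∃ j : ℕ, (x : Q) ^ (p ^ j) ∈ U := by
    intro x
    have e : ∀ j : ℕ, (QuotientGroup.mk' (U.subgroupOf R) x) ^ (p ^ j) = 1 ↔ (x : Q) ^ (p ^ j) ∈ U := by
      intro j
      rw [← map_pow, ← MonoidHom.mem_ker, QuotientGroup.ker_mk', Subgroup.mem_subgroupOf]
      simp
    constructor
    · intro hx
      obtain ⟨j, hj⟩ := (P.mapSurjective hsurj).2 ⟨_, hx⟩
      refine ⟨j, (e j).1 ?_⟩
      exact congrArg Subtype.val hj
    · rintro ⟨j, hj⟩
      have h1 := (e j).2 hj
      have hz : IsPGroup p (Subgroup.zpowers (QuotientGroup.mk' (U.subgroupOf R) x)) := by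
        apply IsPGroup.of_card (n := (Nat.card (Subgroup.zpowers (QuotientGroup.mk' (U.subgroupOf R) x))).factorization p)
        obtain ⟨i, _, hi⟩ := (Nat.dvd_prime_pow hp.out).1 (orderOf_dvd_of_pow_eq_one h1)
        rw [Nat.card_zpowers, hi, Nat.factorization_pow, hp.out.factorization]
        simp
      obtain ⟨S, hS⟩ := hz.exists_le_sylow
      haveI := hP1n (P.mapSurjective hsurj)
      haveI := Sylow.unique_of_normal (P.mapSurjective hsurj) this
      have h2 : S = P.mapSurjective hsurj := Subsingleton.elim _ _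
      rw [← h2]
      exact hS (Subgroup.mem_zpowers _)
  -- the preimage of the Sylow subgroup of the quotient, as a subgroup of `Q`
  set NR : Subgroup R := (P : Subgroup R) ⊔ U.subgroupOf R with hNR
  have hNRmem : ∀ x : R, x ∈ NR ↔ ∃ j : ℕ, (x : Q) ^ (p ^ j) ∈ U := by
    intro x
    rw [← hmem x]
    have h1 : NR = ((P : Subgroup R).map (QuotientGroup.mk' (U.subgroupOf R))).comap
        (QuotientGroup.mk' (U.subgroupOf R)) := by
      rw [Subgroup.comap_map_eq, QuotientGroup.ker_mk']
    rw [h1]
    rfl
  have hNn : (NR.map R.subtype).Normal := by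
    constructor
    rintro _ ⟨x, hx, rfl⟩ g
    obtain ⟨j, hj⟩ := (hNRmem x).1 hx
    have hg : g * (x : Q) * g⁻¹ ∈ R := hRn.conj_mem _ x.2 g
    refine ⟨⟨_, hg⟩, (hNRmem _).2 ⟨j, ?_⟩, rfl⟩
    show (g * (x : Q) * g⁻¹) ^ (p ^ j) ∈ U
    rw [conj_pow]
    exact hU.conj_mem _ hj g
  have hNle : NR.map R.subtype ≤ R := by
    rintro _ ⟨x, _, rfl⟩
    exact x.2
  have hPr : (P : Subgroup R) ≤ (Subgroup.inclusion hNle).range := by
    intro x hx
    exact ⟨⟨x, x, (le_sup_left : (P : Subgroup R) ≤ NR) hx, rfl⟩, rfl⟩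
  have hfr := Sylow.normalizer_sup_eq_top (N := NR.map R.subtype)
    (P.comapOfInjective (Subgroup.inclusion hNle) (Subgroup.inclusion_injective hNle) hPr)
  have hmap : ((P.comapOfInjective (Subgroup.inclusion hNle) (Subgroup.inclusion_injective hNle) hPr :
      Sylow p (NR.map R.subtype)) : Subgroup (NR.map R.subtype)).map (NR.map R.subtype).subtype =
      (P : Subgroup R).map R.subtype := by
    ext x
    constructor
    · rintro ⟨y, hy, rfl⟩
      exact ⟨Subgroup.inclusion hNle y, hy, rfl⟩
    · rintro ⟨y, hy, rfl⟩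
      exact ⟨⟨y, y, (le_sup_left : (P : Subgroup R) ≤ NR) hy, rfl⟩, hy, rfl⟩
  rw [hmap] at hfr
  have hnorm : normalizer (((P : Subgroup R).map R.subtype : Subgroup Q) : Set Q) = ⊤ := by
    by_contra hne
    obtain ⟨M, hMc, hle⟩ := (IsCoatomic.eq_top_or_exists_le_coatom
      (normalizer (((P : Subgroup R).map R.subtype : Subgroup Q) : Set Q))).resolve_left hne
    have hPM : (P : Subgroup R).map R.subtype ≤ M := le_trans Subgroup.le_normalizer hle
    have hNM : NR.map R.subtype ≤ M := by
      rw [hNR, Subgroup.map_sup]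
      refine sup_le hPM ?_
      rintro _ ⟨x, hx, rfl⟩
      exact hM M hMc hx
    have : (⊤ : Subgroup Q) ≤ M := by
      rw [← hfr]
      exact sup_le hle hNM
    exact hMc.1 (top_le_iff.1 this)
  have hPn : ((P : Subgroup R).map R.subtype).Normal := normalizer_eq_top_iff.mp hnorm
  exact hPn.of_map_subtype

/-- Gaschuetz: nilpotent modulo a subgroup of the Frattini subgroup -/
theorem FN1 {G : Type*} [Group G] (Z V R : Subgroup G) (hZn : Z.Normal) (hVn : V.Normal)
    (hRn : R.Normal) (hfin : Z.index ≠ 0) (hZV : Z ≤ V)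
    (hV : ∀ M : Subgroup G, IsCoatom M → Z ≤ M → V ≤ M) (hR : NM R V) : NM R Z := by
  obtain ⟨k, hk⟩ := hR
  haveI : Finite (G ⧸ Z) := @Subgroup.finite_quotient_of_finiteIndex _ _ Z ⟨hfin⟩
  have hsurj : Function.Surjective (QuotientGroup.mk' Z) := QuotientGroup.mk'_surjective Z
  have hR' : (R.map (QuotientGroup.mk' Z)).Normal := hRn.map _ hsurj
  have hU' : ((V ⊓ R).map (QuotientGroup.mk' Z)).Normal :=
    (inferInstance : (V ⊓ R).Normal).map _ hsurj
  have hnil : Group.IsNilpotent (R.map (QuotientGroup.mk' Z)) := by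
    refine FN1_aux ((V ⊓ R).map (QuotientGroup.mk' Z)) _ hU' hR' (Subgroup.map_mono inf_le_right) ?_ (k := k) ?_
    · intro M hMc
      have h1 : IsCoatom (M.comap (QuotientGroup.mk' Z)) := by
        refine ⟨fun h => hMc.1 ?_, fun N hN => ?_⟩
        · rw [← Subgroup.map_comap_eq_self_of_surjective hsurj M, h, Subgroup.map_top_of_surjective _ hsurj]
        · have h2 : M < N.map (QuotientGroup.mk' Z) := by
            have h3 : (QuotientGroup.mk' Z).ker ≤ N := by
              refine le_trans ?_ hN.le
              intro x hx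
              rw [Subgroup.mem_comap, (MonoidHom.mem_ker).1 hx]
              exact M.one_mem
            rw [← Subgroup.map_comap_eq_self_of_surjective hsurj M]
            refine lt_of_le_of_ne (Subgroup.map_mono hN.le) fun h => ?_
            have h4 := congrArg (Subgroup.comap (QuotientGroup.mk' Z)) h
            rw [Subgroup.comap_map_eq_self h3, Subgroup.map_comap_eq_self_of_surjective hsurj] at h4
            exact hN.ne h4
          have h3 := hMc.2 _ h2
          have h4 : (QuotientGroup.mk' Z).ker ≤ N := by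
            refine le_trans ?_ hN.le
            intro x hx
            rw [Subgroup.mem_comap, (MonoidHom.mem_ker).1 hx]
            exact M.one_mem
          rw [← Subgroup.comap_map_eq_self h4, h3, Subgroup.comap_top]
      have h2 : Z ≤ M.comap (QuotientGroup.mk' Z) := by
        intro x hx
        rw [Subgroup.mem_comap]
        have : QuotientGroup.mk' Z x = 1 := by
          rw [← MonoidHom.mem_ker, QuotientGroup.ker_mk']
          exact hx
        rw [this]
        exact M.one_mem
      rw [Subgroup.map_le_iff_le_comap]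
      exact le_trans inf_le_left (hV _ h1 h2)
    · rw [← map_lowerCentralSeries, ← FN1_ic]
      exact Subgroup.map_mono (le_inf hk (ic_le R R k))
  obtain ⟨n, hn⟩ := (isNilpotent_iff_lowerCentralSeries _).1 hnil
  refine ⟨n, ?_⟩
  rw [← map_lowerCentralSeries, Subgroup.map_eq_bot_iff, QuotientGroup.ker_mk'] at hn
  rw [FN1_ic]
  exact hn

end GP48
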