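import Mathlib
import Pool.Agent.LibGP48.Defs

/-!
# LibGP48 FN2 (MEDIUM)

V ⊔ M = ⊤ (M coatom, ¬ V ≤ M). V ⊓ M is normal in G: normalised by M (V normal) and by V ([V,V] <= Z <= V ⊓ M), and V ⊔ M = ⊤; Z <= V ⊓ M <= V, so = Z (Chief.min; = V is excluded). Let C = {x | forall v in V, x v x⁻¹ v⁻¹ in Z}: a normal subgroup containing V (Chief.ab).
C ⊓ M is normalised by M and by V: for c in C ⊓ M, v in V: v c v⁻¹ = (v c v⁻¹ c⁻¹) c with v c v⁻¹ c⁻¹ in Z <= C ⊓ M. So C ⊓ M is normal, contains Z; if C ⊓ M != Z then V <= C ⊓ M <= M (huniq), no. So C ⊓ M = Z. x in C: x = v m (⊤ = V ⊔ M, V normal: Subgroup.mem_sup), m = v⁻¹ x in C ⊓ M = Z <= V,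
so x in V.
-/

namespace GP48

open Subgroup

/-- the unique minimal normal subgroup outside the Frattini subgroup is self-centralising -/
theorem FN2 {G : Type*} [Group G] (Z V : Subgroup G) (hV : Chief Z V)
    (huniq : ∀ N : Subgroup G, N.Normal → Z ≤ N → N ≠ Z → V ≤ N) (M : Subgroup G)
    (hM : IsCoatom M) (hZM : Z ≤ M) (hVM : ¬ V ≤ M) :
    ∀ x : G, (∀ v ∈ V, x * v * x⁻¹ * v⁻¹ ∈ Z) → x ∈ V := by
  have hZn : Z.Normal := hV.nY
  have hVn : V.Normal := hV.nX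
  have hZV : Z ≤ V := hV.lt.le
  have hsup : V ⊔ M = ⊤ := by
    apply hM.2
    refine lt_of_le_of_ne le_sup_right ?_
    intro h
    apply hVM
    rw [h]
    exact le_sup_left
  have hdec : ∀ x : G, ∃ v ∈ V, ∃ m ∈ M, v * m = x := by
    intro x
    have h1 : x ∈ ((V ⊔ M : Subgroup G) : Set G) := by
      rw [hsup]
      exact Subgroup.mem_top x
    rw [Subgroup.normal_mul] at h1
    exact Set.mem_mul.1 h1
  have hab : ∀ a ∈ V, ∀ b ∈ V, a * b * a⁻¹ * b⁻¹ ∈ Z := by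
    intro a ha b hb
    apply hV.ab
    have h1 := Subgroup.commutator_mem_commutator ha hb
    rw [commutatorElement_def] at h1
    exact h1
  -- the centraliser of `V` modulo `Z`
  let C : Subgroup G :=
    { carrier := {x | ∀ v ∈ V, x * v * x⁻¹ * v⁻¹ ∈ Z}
      mul_mem' := by
        intro x y hx hy v hv
        have h1 : x * y * v * (x * y)⁻¹ * v⁻¹ =
            (x * (y * v * y⁻¹ * v⁻¹) * x⁻¹) * (x * v * x⁻¹ * v⁻¹) := by group
        rw [h1]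
        exact Z.mul_mem (hZn.conj_mem _ (hy v hv) x) (hx v hv)
      one_mem' := by
        intro v _
        have h1 : 1 * v * 1⁻¹ * v⁻¹ = 1 := by group
        rw [h1]
        exact Z.one_mem
      inv_mem' := by
        intro x hx v hv
        have h1 := hx (x⁻¹ * v * x) (by
          have := hVn.conj_mem v hv x⁻¹
          rwa [inv_inv] at this)
        have h2 := Z.inv_mem h1
        have h3 : (x * (x⁻¹ * v * x) * x⁻¹ * (x⁻¹ * v * x)⁻¹)⁻¹ = x⁻¹ * v * x⁻¹⁻¹ * v⁻¹ := by group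
        rw [h3] at h2
        exact h2 }
  have hC : ∀ x, x ∈ C ↔ ∀ v ∈ V, x * v * x⁻¹ * v⁻¹ ∈ Z := fun x => Iff.rfl
  have hVC : V ≤ C := fun a ha b hb => hab a ha b hb
  have hCn : C.Normal := by
    refine ⟨fun x hx g => ?_⟩
    rw [hC] at hx ⊢
    intro v hv
    have h1 := hx (g⁻¹ * v * g) (by
      have := hVn.conj_mem v hv g⁻¹
      rwa [inv_inv] at this)
    have h2 := hZn.conj_mem _ h1 g
    have h3 : g * (x * (g⁻¹ * v * g) * x⁻¹ * (g⁻¹ * v * g)⁻¹) * g⁻¹ =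
        g * x * g⁻¹ * v * (g * x * g⁻¹)⁻¹ * v⁻¹ := by group
    rw [h3] at h2
    exact h2
  have hKn : (C ⊓ M).Normal := by
    refine ⟨fun c hc g => ?_⟩
    obtain ⟨hc1, hc2⟩ := Subgroup.mem_inf.1 hc
    obtain ⟨v, hv, m, hm, rfl⟩ := hdec g
    have h1 : m * c * m⁻¹ ∈ C ⊓ M :=
      Subgroup.mem_inf.2 ⟨hCn.conj_mem c hc1 m, M.mul_mem (M.mul_mem hm hc2) (M.inv_mem hm)⟩
    obtain ⟨h2, h3⟩ := Subgroup.mem_inf.1 h1
    have h4 : m * c * m⁻¹ * v * (m * c * m⁻¹)⁻¹ * v⁻¹ ∈ Z := (hC _).1 h2 v hv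
    have h5 := Z.inv_mem h4
    have h6 : v * m * c * (v * m)⁻¹ =
        (m * c * m⁻¹ * v * (m * c * m⁻¹)⁻¹ * v⁻¹)⁻¹ * (m * c * m⁻¹) := by group
    rw [h6]
    exact (C ⊓ M).mul_mem (Subgroup.mem_inf.2 ⟨hVC (hZV h5), hZM h5⟩) h1
  have hK : C ⊓ M = Z := by
    by_contra hne
    exact hVM ((huniq (C ⊓ M) hKn (le_inf (hZV.trans hVC) hZM) hne).trans inf_le_right)
  intro x hx
  obtain ⟨v, hv, m, hm, rfl⟩ := hdec x
  have h1 : m ∈ C := by
    have h2 := C.mul_mem (C.inv_mem (hVC hv)) hx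
    rwa [inv_mul_cancel_left] at h2
  have h2 : m ∈ C ⊓ M := Subgroup.mem_inf.2 ⟨h1, hm⟩
  rw [hK] at h2
  exact V.mul_mem hv (hZV h2)

end GP48
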