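import Mathlib
import Pool.Agent.LibGP48.Defs

/-!
# LibGP48 FN3 (MEDIUM)

G/Z is finite and soluble, Z != ⊤. Let V be minimal among the normal subgroups N of G with Z < N (finitely many subgroups contain Z; or choose N with minimal Z.relIndex N, well founded). ⁅V,V⁆ ⊔ Z is normal, between Z and V, so it is Z or V. If it is V then ds V j ⊔ Z = V for all j (induction:
ds V (j+1) ⊔ Z contains ⁅ds V j ⊔ Z, ds V j ⊔ Z⁆ ⊔ Z = ⁅V,V⁆ ⊔ Z), but ds V e <= ds ⊤ e <= Z: contradiction. So ⁅V,V⁆ <= Z. relIndex: Z.index != 0 implies Z.relIndex V != 0. N >= Z normal, N not minimal: fine. Last clause: for every normal N0 with Z < N0 there is such a V below N0 (same argument inside N0).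
-/

namespace GP48

open Subgroup

/-- minimal normal subgroups above `Z` -/
theorem FN3 {G : Type*} [Group G] (Z N : Subgroup G) (hZn : Z.Normal) (hNn : N.Normal)
    (hfin : Z.index ≠ 0) (e : ℕ) (he : ds (⊤ : Subgroup G) e ≤ Z) (hZN : Z < N) :
    ∃ V : Subgroup G, Chief Z V ∧ V ≤ N := by
  have hne : {k : ℕ | ∃ V : Subgroup G, (V.Normal ∧ Z < V ∧ V ≤ N) ∧ Z.relIndex V = k}.Nonempty :=
    ⟨_, N, ⟨hNn, hZN, le_rfl⟩, rfl⟩
  obtain ⟨V, ⟨hVn, hZV, hVN⟩, hk⟩ := Nat.sInf_mem hne
  have hmin : ∀ W : Subgroup G, W.Normal → Z < W → W ≤ N → Z.relIndex V ≤ Z.relIndex W := by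
    intro W h1 h2 h3
    rw [hk]
    exact Nat.sInf_le ⟨W, ⟨h1, h2, h3⟩, rfl⟩
  have hrel : Z.relIndex V ≠ 0 := by
    intro h0
    apply hfin
    rw [← Subgroup.relIndex_mul_index hZV.le, h0, zero_mul]
  have hmin2 : ∀ W : Subgroup G, W.Normal → Z ≤ W → W ≤ V → W = Z ∨ W = V := by
    intro W hWn hZW hWV
    by_cases hWZ : W = Z
    · exact Or.inl hWZ
    · right
      have h1 : Z < W := lt_of_le_of_ne hZW (Ne.symm hWZ)
      have h2 := hmin W hWn h1 (hWV.trans hVN)
      have h3 := Subgroup.relIndex_mul_relIndex Z W V hZW hWV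
      have h4 : Z.relIndex W ≠ 0 := by
        intro h0
        rw [h0, zero_mul] at h3
        exact hrel h3.symm
      have h5 : W.relIndex V = 1 := by
        have h6 : W.relIndex V ≠ 0 := by
          intro h0
          rw [h0, mul_zero] at h3
          exact hrel h3.symm
        rw [← h3] at h2
        have h7 : 0 < Z.relIndex W := Nat.pos_of_ne_zero h4
        by_contra h8
        have h9 : 2 ≤ W.relIndex V := by omega
        have h10 := Nat.mul_le_mul_left (Z.relIndex W) h9
        omega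
      exact le_antisymm hWV (Subgroup.relIndex_eq_one.1 h5)
  refine ⟨V, ⟨hZn, hVn, hZV, ?_, hrel, hmin2⟩, hVN⟩
  have hWn : (⁅V, V⁆ ⊔ Z).Normal := by
    have : (⁅V, V⁆ : Subgroup G).Normal := Subgroup.commutator_normal V V
    exact Subgroup.sup_normal _ _
  rcases hmin2 (⁅V, V⁆ ⊔ Z) hWn le_sup_right (sup_le (comm_le_self V) hZV.le) with h | h
  · rw [← h]
    exact le_sup_left
  · exfalso
    have hZbot : Z.map (QuotientGroup.mk' Z) = ⊥ := by
      rw [Subgroup.map_eq_bot_iff, QuotientGroup.ker_mk']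
    have h1 : V.map (QuotientGroup.mk' Z) =
        ⁅V.map (QuotientGroup.mk' Z), V.map (QuotientGroup.mk' Z)⁆ := by
      calc V.map (QuotientGroup.mk' Z) = (⁅V, V⁆ ⊔ Z).map (QuotientGroup.mk' Z) := by rw [h]
        _ = (⁅V, V⁆ : Subgroup G).map (QuotientGroup.mk' Z) ⊔ Z.map (QuotientGroup.mk' Z) :=
          Subgroup.map_sup _ _ _
        _ = _ := by rw [hZbot, sup_bot_eq, Subgroup.map_commutator]
    have h2 : ∀ j, ds (V.map (QuotientGroup.mk' Z)) j = V.map (QuotientGroup.mk' Z) := by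
      intro j
      induction j with
      | zero => rfl
      | succ j ih => rw [ds_succ, ih, ← h1]
    have h3 : (ds V e).map (QuotientGroup.mk' Z) = ⊥ := by
      rw [Subgroup.map_eq_bot_iff, QuotientGroup.ker_mk']
      exact (ds_mono le_top e).trans he
    rw [ds_map, h2 e, Subgroup.map_eq_bot_iff, QuotientGroup.ker_mk'] at h3
    exact absurd h3 (not_le_of_gt hZV)

end GP48
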