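import Mathlib
import Pool.Agent.LibGP48.Defs
import Pool.Agent.LibGP48.FN1
import Pool.Agent.LibGP48.FN2
import Pool.Agent.LibGP48.FN3

/-!
# LibGP48 FNG: nilpotency from self-centralising chief factors
-/

namespace GP48

open Subgroup

/-- if `R` lies in every self-centralising chief factor above `Z`, then `R` is nilpotent
modulo `Z` -/
theorem FNG {G : Type*} [Group G] (R : Subgroup G) (hRn : R.Normal) (e : ℕ) :
    ∀ (k : ℕ) (Z : Subgroup G), Z.Normal → Z.index ≠ 0 → Z.index ≤ k →
      ds (⊤ : Subgroup G) e ≤ Z →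
      (∀ Y V : Subgroup G, Z ≤ Y → Chief Y V → (∀ x, (∀ v ∈ V, x * v * x⁻¹ * v⁻¹ ∈ Y) → x ∈ V) →
        R ≤ V) → NM R Z := by
  intro k
  induction k with
  | zero =>
    intro Z _ h1 h2
    exact absurd (Nat.le_zero.1 h2) h1
  | succ k ih =>
    intro Z hZn hfin hk he h
    by_cases hZ : Z = ⊤
    · exact ⟨0, by rw [hZ]; exact le_top⟩
    obtain ⟨V, hV, -⟩ := FN3 Z ⊤ hZn inferInstance hfin e he (lt_top_iff_ne_top.2 hZ)
    -- indices
    have hidx : ∀ W : Subgroup G, Z < W → W.index ≠ 0 ∧ W.index ≤ k := by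
      intro W hW
      have h1 := Subgroup.relIndex_mul_index hW.le
      have h2 : W.index ≠ 0 := by
        intro h3
        rw [h3, mul_zero] at h1
        exact hfin h1.symm
      have h3 : Z.relIndex W ≠ 0 := by
        intro h3
        rw [h3, zero_mul] at h1
        exact hfin h1.symm
      have h4 : Z.relIndex W ≠ 1 := by
        rw [Ne, relIndex_eq_one]
        exact not_le_of_gt hW
      refine ⟨h2, ?_⟩
      have h5 : 2 ≤ Z.relIndex W := by omega
      have h6 : 2 * W.index ≤ k + 1 := by
        calc 2 * W.index ≤ Z.relIndex W * W.index := Nat.mul_le_mul_right _ h5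
          _ = Z.index := h1
          _ ≤ k + 1 := hk
      omega
    have step : ∀ W : Subgroup G, W.Normal → Z < W → NM R W := by
      intro W hWn hW
      obtain ⟨h1, h2⟩ := hidx W hW
      exact ih W hWn h1 h2 (he.trans hW.le) fun Y X hY => h Y X (hW.le.trans hY)
    by_cases huniq : ∀ N : Subgroup G, N.Normal → Z ≤ N → N ≠ Z → V ≤ N
    · by_cases hfr : ∀ M : Subgroup G, IsCoatom M → Z ≤ M → V ≤ M
      · exact FN1 Z V R hZn hV.nX hRn hfin hV.lt.le hfr (step V hV.nX hV.lt)
      · push Not at hfr
        obtain ⟨M, hM, hZM, hVM⟩ := hfr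
        have h1 := h Z V le_rfl hV (FN2 Z V hV huniq M hM hZM hVM)
        refine ⟨1, ?_⟩
        change ⁅R, R⁆ ≤ Z
        exact (commutator_mono h1 h1).trans hV.ab
    · push Not at huniq
      obtain ⟨N, hNn, hZN, hNZ, hVN⟩ := huniq
      have hZN' : Z < N := lt_of_le_of_ne hZN (Ne.symm hNZ)
      obtain ⟨a, ha⟩ := step V hV.nX hV.lt
      obtain ⟨b, hb⟩ := step N hNn hZN'
      have hVn := hV.nX
      have hmin : V ⊓ N = Z := by
        rcases hV.min (V ⊓ N) inferInstance (le_inf hV.lt.le hZN) inf_le_left with h1 | h1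
        · exact h1
        · exact absurd (h1 ▸ inf_le_right) hVN
      have hanti : ∀ i j, ic R R (i + j) ≤ ic R R i := by
        intro i j
        induction j with
        | zero => exact le_rfl
        | succ j ihj =>
          rw [← add_assoc, ic_succ]
          haveI : (ic R R (i + j)).Normal := inferInstance
          exact (commutator_le_left _ _).trans ihj
      refine ⟨a + b, ?_⟩
      rw [← hmin]
      refine le_inf ((hanti a b).trans ha) ?_
      rw [add_comm]
      exact (hanti b a).trans hb

end GP48
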