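import Mathlib
import Pool.Agent.LibGP48.Defs
import Pool.Agent.LibGP48.H1a

/-!
# LibGP48 H1 (STRONG)

A = T/U is a f.g. abelian group. Let T0 = {x in T : x^m in U for some m >= 1} (normal in G; the torsion subgroup of A is finite, so
U.relIndex T0 is not 0): ic N T0 k1 <= U by H1b. A' = T/T0 is torsion free and f.g., so free of some rank h. For a prime p let V_p = {x in T : exists y in T, x y^(-p) in T0}
(normal in G, T0 <= V_p <= T, V_p.relIndex T = p^h): ic N T h <= V_p by H1a. The intersection of all V_p is T0 (free abelian group: an element divisible by all primes is 0).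
So ic N T h <= T0 and ic N T (h+k1) <= ic N T0 k1 <= U.
-/

namespace GP48

open Subgroup

/-- a finitely generated abelian group modulo its torsion is free, the torsion is finite -/
private theorem h1_add (M : Type*) [AddCommGroup M] [Module.Finite ℤ M] :
    ∃ (h : ℕ) (π : M →+ (Fin h → ℤ)), Function.Surjective π ∧
      (∀ x, π x = 0 ↔ ∃ m : ℕ, m ≠ 0 ∧ m • x = 0) ∧ {x : M | ∃ m : ℕ, m ≠ 0 ∧ m • x = 0}.Finite := by
  have hmem : ∀ x : M, x ∈ Submodule.torsion ℤ M ↔ ∃ m : ℕ, m ≠ 0 ∧ m • x = 0 := by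
    intro x
    rw [Submodule.mem_torsion_iff]
    constructor
    · rintro ⟨a, ha⟩
      refine ⟨(a : ℤ).natAbs, Int.natAbs_ne_zero.2 (nonZeroDivisors.coe_ne_zero a), ?_⟩
      have h1 : (a : ℤ) • x = 0 := ha
      rcases Int.natAbs_eq (a : ℤ) with h2 | h2
      · rw [h2, natCast_zsmul] at h1
        exact h1
      · rw [h2, neg_smul, neg_eq_zero, natCast_zsmul] at h1
        exact h1
    · rintro ⟨m, hm, hx⟩
      refine ⟨⟨(m : ℤ), mem_nonZeroDivisors_of_ne_zero (by exact_mod_cast hm)⟩, ?_⟩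
      change (m : ℤ) • x = 0
      rw [natCast_zsmul]
      exact hx
  have hfree : Module.Free ℤ (M ⧸ Submodule.torsion ℤ M) := inferInstance
  let b := Module.finBasis ℤ (M ⧸ Submodule.torsion ℤ M)
  refine ⟨Module.finrank ℤ (M ⧸ Submodule.torsion ℤ M),
    (b.equivFun.toLinearMap.comp (Submodule.mkQ (Submodule.torsion ℤ M))).toAddMonoidHom, ?_, ?_, ?_⟩
  · exact b.equivFun.surjective.comp (Submodule.mkQ_surjective _)
  · intro x
    change b.equivFun (Submodule.mkQ (Submodule.torsion ℤ M) x) = 0 ↔ _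
    rw [LinearEquiv.map_eq_zero_iff, Submodule.mkQ_apply, Submodule.Quotient.mk_eq_zero, hmem]
  · have hset : {x : M | ∃ m : ℕ, m ≠ 0 ∧ m • x = 0} = (Submodule.torsion ℤ M : Set M) := by
      ext x
      exact (hmem x).symm
    rw [hset]
    have hfin : Module.Finite ℤ (Submodule.torsion ℤ M) := inferInstance
    have htor : Module.IsTorsion ℤ (Submodule.torsion ℤ M) := Submodule.torsion_isTorsion
    have h1 : Finite (Submodule.torsion ℤ M) := Module.finite_of_fg_torsion _ htor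
    exact Set.toFinite _

private theorem h1_mul (Q : Type*) [CommGroup Q] [Group.FG Q] :
    ∃ (h : ℕ) (π : Q →* Multiplicative (Fin h → ℤ)), Function.Surjective π ∧
      (∀ x, π x = 1 ↔ ∃ m : ℕ, m ≠ 0 ∧ x ^ m = 1) ∧ {x : Q | ∃ m : ℕ, m ≠ 0 ∧ x ^ m = 1}.Finite := by
  have hfg : AddGroup.FG (Additive Q) := inferInstance
  have hfin : Module.Finite ℤ (Additive Q) := Module.Finite.iff_addGroup_fg.2 hfg
  obtain ⟨h, π, h1, h2, h3⟩ := h1_add (Additive Q)
  exact ⟨h, AddMonoidHom.toMultiplicativeRight π, h1, h2, h3⟩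

/-- the structure of `T / U` -/
private theorem h1_struct {G : Type*} [Group G] (T U : Subgroup G) [T.Normal] [U.Normal]
    (hUT : U ≤ T) (hab : ⁅T, T⁆ ≤ U) (hfg : ∃ F : Finset G, T = closure (F : Set G) ⊔ U) :
    ∃ (h : ℕ) (π : T →* Multiplicative (Fin h → ℤ)), Function.Surjective π ∧
      (∀ x : T, π x = 1 ↔ ∃ m : ℕ, m ≠ 0 ∧ (x : G) ^ m ∈ U) ∧
      ∀ T0 : Subgroup G, T0 ≤ T → (∀ x ∈ T0, ∃ m : ℕ, m ≠ 0 ∧ x ^ m ∈ U) → U.relIndex T0 ≠ 0 := by
  obtain ⟨F, hF⟩ := hfg
  have hcomm : ∀ a b : T ⧸ U.subgroupOf T, a * b = b * a := by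
    intro a b
    obtain ⟨x, rfl⟩ := QuotientGroup.mk'_surjective _ a
    obtain ⟨y, rfl⟩ := QuotientGroup.mk'_surjective _ b
    rw [← map_mul, ← map_mul]
    change ((x * y : T) : T ⧸ U.subgroupOf T) = ((y * x : T) : T ⧸ U.subgroupOf T)
    rw [QuotientGroup.eq, mem_subgroupOf]
    have h1 : (y : G)⁻¹ * (x : G)⁻¹ * ((y : G)⁻¹)⁻¹ * ((x : G)⁻¹)⁻¹ ∈ ⁅T, T⁆ :=
      commutator_mem_commutator (T.inv_mem y.2) (T.inv_mem x.2)
    have h2 : (((x * y)⁻¹ * (y * x) : T) : G) = (y : G)⁻¹ * (x : G)⁻¹ * ((y : G)⁻¹)⁻¹ * ((x : G)⁻¹)⁻¹ := by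
      push_cast
      group
    rw [h2]
    exact hab h1
  let _ : CommGroup (T ⧸ U.subgroupOf T) :=
    { (inferInstance : Group (T ⧸ U.subgroupOf T)) with mul_comm := hcomm }
  obtain ⟨mk, hmk⟩ : ∃ mk : T →* T ⧸ U.subgroupOf T, mk = QuotientGroup.mk' (U.subgroupOf T) := ⟨_, rfl⟩
  have hmks : Function.Surjective mk := by
    rw [hmk]
    exact QuotientGroup.mk'_surjective _
  have hmk1 : ∀ x : T, mk x = 1 ↔ (x : G) ∈ U := by
    intro x
    rw [hmk]
    change ((x : T) : T ⧸ U.subgroupOf T) = 1 ↔ _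
    rw [QuotientGroup.eq_one_iff, mem_subgroupOf]
  have hfgQ : Group.FG (T ⧸ U.subgroupOf T) := by
    rw [Group.fg_iff]
    refine ⟨mk '' {t : T | (t : G) ∈ F}, ?_, ?_⟩
    · rw [eq_top_iff]
      rintro q -
      obtain ⟨t, rfl⟩ := hmks q
      obtain ⟨K, hK⟩ : ∃ K : Subgroup (T ⧸ U.subgroupOf T), K = closure (mk '' {t : T | (t : G) ∈ F}) := ⟨_, rfl⟩
      rw [← hK]
      have hle : closure (F : Set G) ⊔ U ≤ (K.comap mk).map T.subtype := by
        refine sup_le ?_ ?_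
        · rw [closure_le]
          intro f hf
          have hfT : f ∈ T := by
            rw [hF]
            exact (le_sup_left : closure (F : Set G) ≤ _) (subset_closure hf)
          refine ⟨⟨f, hfT⟩, ?_, rfl⟩
          change mk ⟨f, hfT⟩ ∈ K
          rw [hK]
          exact subset_closure ⟨⟨f, hfT⟩, hf, rfl⟩
        · intro u hu
          refine ⟨⟨u, hUT hu⟩, ?_, rfl⟩
          change mk ⟨u, hUT hu⟩ ∈ K
          rw [(hmk1 ⟨u, hUT hu⟩).2 hu]
          exact K.one_mem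
      rw [← hF] at hle
      obtain ⟨t', ht', htt⟩ := hle t.2
      have h3 : t' = t := Subtype.ext htt
      rw [← h3]
      exact ht'
    · refine Set.Finite.image mk ?_
      exact Set.Finite.preimage (Subtype.val_injective.injOn) F.finite_toSet
  obtain ⟨h, π, h1, h2, h3⟩ := h1_mul (T ⧸ U.subgroupOf T)
  have hpow : ∀ (x : T) (m : ℕ), mk x ^ m = 1 ↔ (x : G) ^ m ∈ U := by
    intro x m
    rw [← map_pow, hmk1]
    rfl
  refine ⟨h, π.comp mk, h1.comp hmks, fun x => ?_, ?_⟩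
  · rw [MonoidHom.comp_apply, h2]
    exact exists_congr fun m => and_congr Iff.rfl (hpow x m)
  · intro T0 hT0 htor
    have hker : U.subgroupOf T0 = (mk.comp (inclusion hT0)).ker := by
      ext x
      rw [mem_subgroupOf, MonoidHom.mem_ker, MonoidHom.comp_apply, hmk1]
      rfl
    change (U.subgroupOf T0).index ≠ 0
    rw [hker, index_ker]
    have hfin : ((mk.comp (inclusion hT0)).range : Set (T ⧸ U.subgroupOf T)).Finite := by
      refine h3.subset ?_
      rintro _ ⟨x, rfl⟩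
      obtain ⟨m, hm, hxm⟩ := htor x x.2
      refine ⟨m, hm, ?_⟩
      rw [MonoidHom.comp_apply, hpow]
      exact hxm
    have h4 : Finite (mk.comp (inclusion hT0)).range := hfin
    exact Nat.card_pos.ne'

/-- reduction modulo `p` -/
private def h1_red (h p : ℕ) : Multiplicative (Fin h → ℤ) →* Multiplicative (Fin h → ZMod p) :=
  AddMonoidHom.toMultiplicative
    { toFun := fun v i => (v i : ZMod p)
      map_zero' := by
        funext i
        simp
      map_add' := by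
        intro v w
        funext i
        simp }

private theorem h1_red_surj (h p : ℕ) : Function.Surjective (h1_red h p) := by
  intro w
  choose v hv using fun i : Fin h => ZMod.intCast_surjective ((Multiplicative.toAdd w) i)
  exact ⟨Multiplicative.ofAdd v, by
    change Multiplicative.ofAdd (fun i => ((v i : ℤ) : ZMod p)) = w
    rw [show (fun i => ((v i : ℤ) : ZMod p)) = Multiplicative.toAdd w from funext hv]
    rfl⟩

private theorem h1_red_one (h p : ℕ) (v : Multiplicative (Fin h → ℤ)) :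
    h1_red h p v = 1 ↔ ∃ w : Multiplicative (Fin h → ℤ), v = w ^ p := by
  constructor
  · intro h1
    have h2 : ∀ i, (p : ℤ) ∣ (Multiplicative.toAdd v) i := by
      intro i
      have h3 := congrFun (congrArg Multiplicative.toAdd h1) i
      change (((Multiplicative.toAdd v) i : ℤ) : ZMod p) = 0 at h3
      exact (ZMod.intCast_zmod_eq_zero_iff_dvd _ _).1 h3
    choose w hw using h2
    refine ⟨Multiplicative.ofAdd w, ?_⟩
    change v = Multiplicative.ofAdd (p • w)
    rw [show p • w = Multiplicative.toAdd v from funext fun i => by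
      rw [hw, Pi.smul_apply, nsmul_eq_mul]]
    rfl
  · rintro ⟨w, rfl⟩
    rw [map_pow]
    change Multiplicative.ofAdd (p • Multiplicative.toAdd (h1_red h p w)) = 1
    rw [show p • Multiplicative.toAdd (h1_red h p w) = 0 from funext fun i => by
      rw [Pi.smul_apply, nsmul_eq_mul, CharP.cast_eq_zero, zero_mul]; rfl]
    rfl

/-- only `0` is divisible by all primes -/
private theorem h1_inter (h : ℕ) (v : Multiplicative (Fin h → ℤ)) (hv : ∀ p : ℕ, p.Prime → h1_red h p v = 1) : v = 1 := by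
  have h1 : Multiplicative.toAdd v = 0 := by
    funext i
    by_contra h2
    obtain ⟨p, hp, hpp⟩ := Nat.exists_infinite_primes (((Multiplicative.toAdd v) i).natAbs + 1)
    have h3 := congrFun (congrArg Multiplicative.toAdd (hv p hpp)) i
    change (((Multiplicative.toAdd v) i : ℤ) : ZMod p) = 0 at h3
    have h4 := (ZMod.intCast_zmod_eq_zero_iff_dvd _ _).1 h3
    have h5 := Nat.le_of_dvd (Int.natAbs_pos.2 h2) (Int.natCast_dvd.1 h4)
    omega
  exact h1

theorem H1 {G : Type*} [Group G] (N T U : Subgroup G) [N.Normal] [T.Normal] [U.Normal]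
    (hUT : U ≤ T) (hab : ⁅T, T⁆ ≤ U) (hfg : ∃ F : Finset G, T = closure (F : Set G) ⊔ U)
    (hch : ∀ Y X : Subgroup G, Chief Y X → U ≤ Y → X ≤ T → ⁅X, N⁆ ≤ Y) :
    ∃ k, ic N T k ≤ U := by
  obtain ⟨h, π, hπs, hπ1, hfin⟩ := h1_struct T U hUT hab hfg
  -- the torsion
  obtain ⟨T0, hT0⟩ : ∃ T0 : Subgroup G, T0 = π.ker.map T.subtype := ⟨_, rfl⟩
  have hmem0 : ∀ x, x ∈ T0 ↔ x ∈ T ∧ ∃ m : ℕ, m ≠ 0 ∧ x ^ m ∈ U := by
    intro x
    rw [hT0]
    constructor
    · rintro ⟨t, ht, rfl⟩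
      exact ⟨t.2, (hπ1 t).1 ht⟩
    · rintro ⟨hx, hm⟩
      exact ⟨⟨x, hx⟩, (hπ1 ⟨x, hx⟩).2 hm, rfl⟩
  have hT0T : T0 ≤ T := fun x hx => ((hmem0 x).1 hx).1
  have hUT0 : U ≤ T0 := fun x hx => (hmem0 x).2 ⟨hUT hx, 1, one_ne_zero, by rw [pow_one]; exact hx⟩
  have hT0n : T0.Normal := by
    refine ⟨fun x hx g => ?_⟩
    obtain ⟨h1, m, hm, hxm⟩ := (hmem0 x).1 hx
    refine (hmem0 _).2 ⟨(inferInstance : T.Normal).conj_mem x h1 g, m, hm, ?_⟩
    rw [conj_pow]
    exact (inferInstance : U.Normal).conj_mem _ hxm g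
  obtain ⟨k1, hk1⟩ := H1b N T0 U hUT0 ((commutator_mono hT0T hT0T).trans hab)
    (hfin T0 hT0T fun x hx => ((hmem0 x).1 hx).2) (fun Y X hYX hUY hXT => hch Y X hYX hUY (hXT.trans hT0T))
  -- multiples of `p`
  have hVp : ∀ p : ℕ, p.Prime → ∀ x ∈ ic N T h, ∀ hx : x ∈ T, h1_red h p (π ⟨x, hx⟩) = 1 := by
    intro p hp
    have hfact : Fact p.Prime := ⟨hp⟩
    obtain ⟨Vp, hVp⟩ : ∃ Vp : Subgroup G, Vp = ((h1_red h p).comp π).ker.map T.subtype := ⟨_, rfl⟩
    have hmemV : ∀ x (hx : x ∈ T), x ∈ Vp ↔ h1_red h p (π ⟨x, hx⟩) = 1 := by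
      intro x hx
      rw [hVp]
      constructor
      · rintro ⟨t, ht, htx⟩
        have h1 : t = ⟨x, hx⟩ := Subtype.ext htx
        rw [← h1]
        exact ht
      · intro h1
        exact ⟨⟨x, hx⟩, h1, rfl⟩
    have hVT : Vp ≤ T := by
      rw [hVp]
      rintro _ ⟨t, -, rfl⟩
      exact t.2
    have hmemV2 : ∀ x, x ∈ Vp ↔ x ∈ T ∧ ∃ y ∈ T, x * (y ^ p)⁻¹ ∈ T0 := by
      intro x
      constructor
      · intro hx
        have hxT := hVT hx
        refine ⟨hxT, ?_⟩
        obtain ⟨w, hw⟩ := (h1_red_one h p _).1 ((hmemV x hxT).1 hx)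
        obtain ⟨y, hy⟩ := hπs w
        refine ⟨y, y.2, ?_⟩
        rw [hT0]
        refine ⟨⟨x, hxT⟩ * (y ^ p)⁻¹, ?_, rfl⟩
        change π _ = 1
        rw [map_mul, hw, map_inv, map_pow, hy, mul_inv_cancel]
      · rintro ⟨hxT, y, hy, hxy⟩
        rw [hmemV x hxT, h1_red_one]
        refine ⟨π ⟨y, hy⟩, ?_⟩
        rw [hT0] at hxy
        obtain ⟨t, ht, htx⟩ := hxy
        have h1 : t = ⟨x, hxT⟩ * (⟨y, hy⟩ ^ p)⁻¹ := Subtype.ext htx
        have h2 : π t = 1 := ht
        rw [h1, map_mul, map_inv, map_pow] at h2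
        exact mul_inv_eq_one.1 h2
    have hVn : Vp.Normal := by
      refine ⟨fun x hx g => ?_⟩
      obtain ⟨h1, y, hy, hxy⟩ := (hmemV2 x).1 hx
      refine (hmemV2 _).2 ⟨(inferInstance : T.Normal).conj_mem x h1 g, g * y * g⁻¹,
        (inferInstance : T.Normal).conj_mem y hy g, ?_⟩
      have h2 : g * x * g⁻¹ * ((g * y * g⁻¹) ^ p)⁻¹ = g * (x * (y ^ p)⁻¹) * g⁻¹ := by
        rw [conj_pow]
        group
      rw [h2]
      exact hT0n.conj_mem _ hxy g
    have hT0V : T0 ≤ Vp := by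
      intro x hx
      refine (hmemV2 x).2 ⟨hT0T hx, 1, T.one_mem, ?_⟩
      rw [one_pow, inv_one, mul_one]
      exact hx
    have hcard : Vp.relIndex T = p ^ h := by
      have h1 : Vp.subgroupOf T = ((h1_red h p).comp π).ker := by
        ext x
        rw [mem_subgroupOf]
        exact hmemV x x.2
      change (Vp.subgroupOf T).index = p ^ h
      rw [h1, index_ker]
      have h2 : ((h1_red h p).comp π).range = ⊤ :=
        MonoidHom.range_eq_top.2 ((h1_red_surj h p).comp hπs)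
      rw [h2, card_top]
      change Nat.card (Fin h → ZMod p) = p ^ h
      rw [Nat.card_fun, Nat.card_zmod, Nat.card_eq_fintype_card, Fintype.card_fin]
    have hic : ic N T h ≤ Vp := H1a N T Vp hVT (hab.trans (hUT0.trans hT0V)) p h hp hcard
      (fun Y X hYX hVY hXT => hch Y X hYX ((hUT0.trans hT0V).trans hVY) hXT)
    intro x hx hxT
    exact (hmemV x hxT).1 (hic hx)
  have hicT : ic N T h ≤ T0 := by
    intro x hx
    have hxT : x ∈ T := ic_le N T h hx
    rw [hT0]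
    exact ⟨⟨x, hxT⟩, h1_inter h _ fun p hp => hVp p hp x hx hxT, rfl⟩
  refine ⟨h + k1, ?_⟩
  rw [ic_add]
  exact (ic_mono le_rfl hicT k1).trans hk1

end GP48
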