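import Mathlib
import Pool.Agent.LibGP48.Defs

/-!
# LibGP48 H2a (SHORT)

Three subgroups lemma modulo the normal subgroup Z: pass to G/Z and use Subgroup.commutator_commutator_eq_bot_of_rotate.
-/

namespace GP48

open Subgroup

theorem H2a {G : Type*} [Group G] (X Y N Z : Subgroup G) [Z.Normal]
    (h1 : ⁅⁅X, N⁆, Y⁆ ≤ Z) (h2 : ⁅X, ⁅Y, N⁆⁆ ≤ Z) : ⁅⁅X, Y⁆, N⁆ ≤ Z := by
  have key : ∀ K : Subgroup G, K ≤ Z ↔ K.map (QuotientGroup.mk' Z) = ⊥ := by
    intro K
    rw [Subgroup.map_eq_bot_iff, QuotientGroup.ker_mk']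
  rw [key, map_commutator, map_commutator] at h1 h2 ⊢
  apply commutator_commutator_eq_bot_of_rotate
  · rw [commutator_comm]
    exact h2
  · rw [commutator_comm (N.map _)]
    exact h1

end GP48
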