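import Mathlib
import Pool.Agent.LibGP48.Defs
import Pool.Agent.LibGP48.H2a

/-!
# LibGP48 H2 (MEDIUM/STRONG)

P. Hall: M = [N,N] nilpotent mod U and N/M' nilpotent => N nilpotent mod U. L_k := ic M M k (so L_0 = M, L_1 = [M,M] = ds N 2).
Claim: for all k there is e_k with ic N (L_k) (e_k) <= L_(k+1). k = 0: ic N M e <= ic N N e (M <= N) <= ds N 2 = L_1. k >= 1: L_k = [L_(k-1), M].
X_a = ic N L_(k-1) a, Y_b = ic N M b (all normal). By H2a, [[X_a,Y_b],N] <= [X_(a+1),Y_b] ⊔ [X_a,Y_(b+1)] (apply it with Z = the sup, normal), so by induction on m: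
ic N L_k m <= any normal Z that contains all [X_a,Y_b] with a+b = m. For m = e_(k-1)+e_0: if a >= e_(k-1) then X_a <= L_k, [X_a,Y_b] <= [L_k,M] = L_(k+1); if b >= e_0 then
Y_b <= L_1 = [M,M] and [L_(k-1),[M,M]] <= L_(k+1) (H2a or commutator_comm: [[M,M],L_(k-1)] <= [[M,L_(k-1)],M]...). So ic N N (1 + e_0+...+e_(c-1)) <= L_c <= U with L_c <= U from h1
(h1 : ic M M c <= U).
-/

namespace GP48

open Subgroup

/-- the largest subgroup `W` with `[W, N] ≤ Z` -/
private theorem exists_W {G : Type*} [Group G] (N Z : Subgroup G) [N.Normal] [Z.Normal] :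
    ∃ W : Subgroup G, W.Normal ∧ ∀ H : Subgroup G, ⁅H, N⁆ ≤ Z ↔ H ≤ W := by
  haveI hn : (N.map (QuotientGroup.mk' Z)).Normal :=
    Subgroup.Normal.map inferInstance _ (QuotientGroup.mk'_surjective Z)
  refine ⟨(centralizer (N.map (QuotientGroup.mk' Z) : Set (G ⧸ Z))).comap (QuotientGroup.mk' Z),
    inferInstance, fun H => ?_⟩
  rw [← Subgroup.map_le_iff_le_comap, ← Subgroup.commutator_eq_bot_iff_le_centralizer,
    ← Subgroup.map_commutator, Subgroup.map_eq_bot_iff, QuotientGroup.ker_mk']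

private theorem ic_comm {G : Type*} [Group G] (N X Y : Subgroup G) [N.Normal] (m : ℕ) :
    ∀ (Z : Subgroup G) [Z.Normal], (∀ a b, a + b = m → ⁅ic N X a, ic N Y b⁆ ≤ Z) →
      ic N ⁅X, Y⁆ m ≤ Z := by
  induction m with
  | zero =>
    intro Z _ h
    exact h 0 0 rfl
  | succ m ih =>
    intro Z _ h
    obtain ⟨W, hWn, hW⟩ := exists_W N Z
    haveI := hWn
    rw [ic_succ, hW]
    refine ih W fun a b hab => ?_
    rw [← hW]
    refine H2a _ _ _ _ ?_ ?_
    · have := h (a + 1) b (by omega)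
      rwa [ic_succ] at this
    · have := h a (b + 1) (by omega)
      rwa [ic_succ] at this

private theorem ic_anti {G : Type*} [Group G] (N X : Subgroup G) [N.Normal] [X.Normal] {a b : ℕ}
    (h : a ≤ b) : ic N X b ≤ ic N X a := by
  obtain ⟨d, rfl⟩ := Nat.exists_eq_add_of_le h
  rw [ic_add]
  exact ic_le N _ d

private theorem claim {G : Type*} [Group G] (N M : Subgroup G) [N.Normal] [M.Normal] (hMN : M ≤ N)
    (e : ℕ) (he : ic N M e ≤ ⁅M, M⁆) (k : ℕ) : ∃ f, ic N (ic M M k) f ≤ ic M M (k + 1) := by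
  induction k with
  | zero => exact ⟨e, he⟩
  | succ k ih =>
    obtain ⟨f, hf⟩ := ih
    refine ⟨f + e, ?_⟩
    have h0 : ic N (ic M M (k + 1)) (f + e) = ic N ⁅ic M M k, M⁆ (f + e) := by rw [ic_succ]
    rw [h0]
    refine ic_comm N _ _ _ _ fun a b hab => ?_
    by_cases ha : f ≤ a
    · rw [ic_succ M M (k + 1)]
      exact Subgroup.commutator_mono ((ic_anti N _ ha).trans hf) (ic_le N M b)
    · have hb : e ≤ b := by omega
      have h1 : ⁅ic N (ic M M k) a, ic N M b⁆ ≤ ⁅ic M M k, ⁅M, M⁆⁆ :=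
        Subgroup.commutator_mono (ic_le N _ a) ((ic_anti N _ hb).trans he)
      refine h1.trans ?_
      rw [Subgroup.commutator_comm]
      refine H2a _ _ _ _ ?_ ?_
      · rw [Subgroup.commutator_comm M (ic M M k), ← ic_succ, ← ic_succ]
      · rw [Subgroup.commutator_comm M (ic M M k), ← ic_succ, Subgroup.commutator_comm,
          ← ic_succ]

theorem H2 {G : Type*} [Group G] (N U : Subgroup G) [N.Normal] [U.Normal]
    (h1 : NM ⁅N, N⁆ U) (h2 : NM N (ds N 2)) : NM N U := by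
  obtain ⟨c, hc⟩ := h1
  obtain ⟨e, he⟩ := h2
  have hMN : ⁅N, N⁆ ≤ N := comm_le_self N
  have he' : ic N ⁅N, N⁆ e ≤ ⁅⁅N, N⁆, ⁅N, N⁆⁆ := (ic_mono le_rfl hMN e).trans he
  have key : ∀ k, ∃ s, ic N N s ≤ ic ⁅N, N⁆ ⁅N, N⁆ k := by
    intro k
    induction k with
    | zero => exact ⟨1, le_rfl⟩
    | succ k ih =>
      obtain ⟨s, hs⟩ := ih
      obtain ⟨f, hf⟩ := claim N ⁅N, N⁆ hMN e he' k
      refine ⟨s + f, ?_⟩
      rw [ic_add]
      exact (ic_mono le_rfl hs f).trans hf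
  obtain ⟨s, hs⟩ := key c
  exact ⟨s, hs.trans hc⟩

end GP48
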