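import Mathlib
import Pool.Agent.LibGP48.Defs

/-!
# LibGP48 RF0 (MEDIUM)

T/Y is a finitely generated abelian group with the finite subgroup X/Y. Let k = exponent of the torsion subgroup of T/Y (finite), or k = the order of X/Y times ...: it is enough that k kills the torsion and then Y1 = {t in T : t = u^k y for some u in T, y in Y}: mod Y it is the subgroup of k-th powers,
which is torsion free? (T/Y = Z^r x F, k F = 0: (T/Y)^k = (kZ)^r has trivial intersection with the torsion subgroup, so with X/Y). Y1 is normal in G (conjugation), finite index in T (T/Y1 is f.g. abelian of exponent k). Use AddCommGroup / Module.Finite ℤ and the torsion submodule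
(Module.Finite, Submodule.torsion ... ; AddCommGroup.equiv_free_prod_directSum_zmod) on Additive (T ⧸ Y.subgroupOf T), which is commutative by hab.
-/

namespace GP48

open Subgroup

private theorem RF0_key {A : Type*} [CommGroup A] [hA : Group.FG A] : ∃ k : ℕ, 0 < k ∧
    (∀ a : A, IsOfFinOrder a → a ^ k = 1) ∧ (powMonoidHom k : A →* A).range.index ≠ 0 := by
  have : Module.Finite ℤ (Additive A) := Module.Finite.iff_addGroup_fg.mpr inferInstance
  have hfin : Finite (Submodule.torsion ℤ (Additive A)) :=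
    Module.finite_of_fg_torsion _ (Submodule.torsion_isTorsion)
  refine ⟨Nat.card (Submodule.torsion ℤ (Additive A)), Nat.card_pos, ?_, ?_⟩
  · intro a ha
    obtain ⟨n, hn, hn'⟩ := isOfFinOrder_iff_pow_eq_one.mp ha
    have hmem : Additive.ofMul a ∈ Submodule.torsion ℤ (Additive A) := by
      rw [Submodule.mem_torsion_iff]
      refine ⟨⟨(n : ℤ), mem_nonZeroDivisors_of_ne_zero (by exact_mod_cast hn.ne')⟩, ?_⟩
      show (n : ℤ) • Additive.ofMul a = 0
      rw [natCast_zsmul, ← ofMul_pow, hn', ofMul_one]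
    have h := card_nsmul_eq_zero' (x := (⟨Additive.ofMul a, hmem⟩ : Submodule.torsion ℤ (Additive A)))
    have h2 := congrArg Subtype.val h
    exact h2
  · set k := Nat.card (Submodule.torsion ℤ (Additive A)) with hk
    have hk0 : 0 < k := Nat.card_pos
    have : Finite (A ⧸ (powMonoidHom k : A →* A).range) := by
      apply CommGroup.finite_of_fg_isMulTorsion
      intro q
      obtain ⟨a, rfl⟩ := QuotientGroup.mk_surjective q
      rw [isOfFinOrder_iff_pow_eq_one]
      refine ⟨k, hk0, ?_⟩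
      rw [← QuotientGroup.mk_pow, QuotientGroup.eq_one_iff]
      exact ⟨a, rfl⟩
    exact Subgroup.index_ne_zero_of_finite

/-- a finite section of a f.g. abelian section survives in a finite quotient -/
theorem RF0 {G : Type*} [Group G] (T Y X : Subgroup G) (hTn : T.Normal) (hYn : Y.Normal)
    (hYX : Y ≤ X) (hXT : X ≤ T) (hT : T.FG) (hab : ⁅T, T⁆ ≤ Y) (hfin : Y.relIndex X ≠ 0) :
    ∃ Y1 : Subgroup G, Y1.Normal ∧ Y ≤ Y1 ∧ Y1 ≤ T ∧ Y1.relIndex T ≠ 0 ∧ X ⊓ Y1 ≤ Y := by
  have hYT : Y ≤ T := hYX.trans hXT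
  set π : G →* G ⧸ Y := QuotientGroup.mk' Y with hπ
  have hker : ∀ g, π g = 1 ↔ g ∈ Y := fun g => QuotientGroup.eq_one_iff g
  have hcomm : ∀ a b : T.map π, a * b = b * a := by
    rintro ⟨_, s, hs, rfl⟩ ⟨_, t, ht, rfl⟩
    apply Subtype.ext
    show π s * π t = π t * π s
    have h1 := hab (Subgroup.commutator_mem_commutator hs ht)
    have h2 := (hker _).mpr h1
    rw [map_commutatorElement, commutatorElement_eq_one_iff_mul_comm] at h2
    exact h2
  let : CommGroup (T.map π) := { (inferInstance : Group (T.map π)) with mul_comm := hcomm }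
  have : Group.FG T := (Group.fg_iff_subgroup_fg T).mpr hT
  have : Group.FG (T.map π) := Group.fg_of_surjective (MonoidHom.subgroupMap_surjective π T)
  obtain ⟨k, hk0, hk1, hk2⟩ := RF0_key (A := T.map π)
  have hTn' : (T.map π).Normal := hTn.map π (QuotientGroup.mk'_surjective Y)
  set P : Subgroup (G ⧸ Y) := ((powMonoidHom k : T.map π →* T.map π).range).map (T.map π).subtype with hP
  have hmemP : ∀ z, z ∈ P ↔ ∃ a ∈ T.map π, a ^ k = z := by
    intro z
    constructor
    · rintro ⟨_, ⟨a, rfl⟩, rfl⟩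
      exact ⟨a, a.2, rfl⟩
    · rintro ⟨a, ha, rfl⟩
      exact ⟨_, ⟨⟨a, ha⟩, rfl⟩, rfl⟩
  have hPT : P ≤ T.map π := by
    intro z hz
    obtain ⟨a, ha, rfl⟩ := (hmemP z).mp hz
    exact pow_mem ha k
  have hPn : P.Normal := by
    refine ⟨fun z hz g => ?_⟩
    obtain ⟨a, ha, rfl⟩ := (hmemP z).mp hz
    rw [hmemP]
    exact ⟨g * a * g⁻¹, hTn'.conj_mem a ha g, conj_pow⟩
  refine ⟨P.comap π, hPn.comap π, ?_, ?_, ?_, ?_⟩
  · intro y hy
    rw [Subgroup.mem_comap, (hker y).mpr hy]
    exact P.one_mem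
  · intro t ht
    obtain ⟨t', ht', he⟩ := hPT ht
    have h1 : t'⁻¹ * t ∈ Y := by
      rw [← hker, map_mul, map_inv, he, inv_mul_cancel]
    have h2 : t = t' * (t'⁻¹ * t) := by group
    rw [h2]
    exact T.mul_mem ht' (hYT h1)
  · rw [Subgroup.relIndex_comap, Subgroup.relIndex, hP, Subgroup.subgroupOf,
      Subgroup.comap_map_eq_self_of_injective (Subgroup.subtype_injective _)]
    exact hk2
  · rintro x ⟨hx, hx1⟩
    obtain ⟨a, ha, he⟩ := (hmemP _).mp hx1
    obtain ⟨n, hn, -, hn'⟩ := Subgroup.exists_pow_mem_of_relIndex_ne_zero hfin hx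
    have h1 : (π x) ^ n = 1 := by
      rw [← map_pow]
      exact (hker _).mpr hn'.1
    rw [← he, ← pow_mul] at h1
    have h2 : (⟨a, ha⟩ : T.map π) ^ (k * n) = 1 := Subtype.ext h1
    have h3 := hk1 ⟨a, ha⟩ (isOfFinOrder_iff_pow_eq_one.mpr ⟨k * n, Nat.mul_pos hk0 hn, h2⟩)
    have h4 : a ^ k = 1 := congrArg Subtype.val h3
    rw [← hker, ← he, h4]

end GP48
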