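import Mathlib
import Pool.Agent.LibGP48.Defs

/-!
# LibGP48 RF1 (STRONG)

B = N/W is a finitely generated group with a finite normal subgroup F' = F/W and B/F' abelian; everything is normalised by G. C = centraliser of F' in B, finite index in B (B acts on the finite F'), so f.g. (Subgroup.fg_of_index_ne_zero), normal in G. For x, y in C: [x,y] in F' n C is central in C,
so [x^k,y] = [x,y]^k = 1 for k = |F'|. So all k-th powers of C are in Z(C); Z(C) has finite index in C (C/Z(C) is f.g., abelian since C' <= F' n C <= Z(C), of exponent k), so Z(C) is f.g. abelian; the subgroup of l-th powers of Z(C), l = exponent of its torsion, is torsion free, of finite index,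
characteristic. W' = its preimage in G: normal in G, W' <= N, finite index in N, W' n F <= W. (All steps can be done with subgroups of the quotient G ⧸ W, where N, F become N.map, F.map with F.map finite; relIndex_map / comap lemmas at the end.)
-/

namespace GP48

open Subgroup

open scoped commutatorElement

/-- the torsion of a finitely generated abelian group has finite exponent -/
private theorem RF1_exp (A : Type*) [CommGroup A] [Group.FG A] :
    ∃ l : ℕ, l ≠ 0 ∧ ∀ a : A, IsOfFinOrder a → a ^ l = 1 := by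
  obtain ⟨ι, j, fι, fj, p, hp, e, ⟨f⟩⟩ := CommGroup.equiv_free_prod_prod_multiplicative_zmod A
  refine ⟨∏ i, p i ^ e i, Finset.prod_ne_zero_iff.mpr fun i _ => pow_ne_zero _ (hp i).ne_zero, ?_⟩
  intro a ha
  have h1 : IsOfFinOrder (f a) := f.toMonoidHom.isOfFinOrder ha
  obtain ⟨m, hm, hma⟩ := isOfFinOrder_iff_pow_eq_one.mp h1
  apply f.injective
  rw [map_pow, map_one]
  apply Prod.ext
  · funext x
    have h2 : ((f a).1 x) ^ m = 1 := by
      have := congrArg (fun q => q.1 x) hma
      simpa using this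
    have h3 : (f a).1 x = 1 := by
      have h4 : (m : ℤ) * Multiplicative.toAdd ((f a).1 x) = 0 := by
        have := congrArg Multiplicative.toAdd h2
        simpa [toAdd_pow] using this
      rcases mul_eq_zero.mp h4 with h5 | h5
      · exact absurd (by exact_mod_cast h5) hm.ne'
      · exact h5
    simp [h3]
  · funext x
    have h2 : ((f a).2 x) ^ (p x ^ e x) = 1 := by
      have : NeZero (p x ^ e x) := ⟨pow_ne_zero _ (hp x).ne_zero⟩
      have h3 := pow_card_eq_one' (x := (f a).2 x)
      rw [Nat.card_congr Multiplicative.toAdd, Nat.card_zmod] at h3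
      exact h3
    obtain ⟨c, hc⟩ := Finset.dvd_prod_of_mem (fun i => p i ^ e i) (Finset.mem_univ x)
    have h4 : ((f a ^ ∏ i, p i ^ e i).2 x) = ((f a).2 x) ^ ∏ i, p i ^ e i := by simp
    rw [h4, hc, pow_mul, h2, one_pow]
    rfl

/-- centralisers of finite normal subgroups have finite index -/
private theorem RF1_cent {Q : Type*} [Group Q] (F : Subgroup Q) (hF : F.Normal) (hfin : Finite F) :
    (centralizer (F : Set Q)).index ≠ 0 := by
  have h1 : (MulAut.conjNormal (H := F)).ker.FiniteIndex := by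
    haveI : Finite (MulAut F) := inferInstance
    infer_instance
  have h2 : (MulAut.conjNormal (H := F)).ker ≤ centralizer (F : Set Q) := by
    intro g hg
    rw [mem_centralizer_iff]
    intro f hf
    have h3 := congrArg (fun e : MulAut F => ((e ⟨f, hf⟩ : F) : Q)) (MonoidHom.mem_ker.mp hg)
    simp only [MulAut.conjNormal_apply, MulAut.one_apply] at h3
    rw [mul_inv_eq_iff_eq_mul] at h3
    exact h3.symm
  intro h0
  have h3 := index_dvd_of_le h2
  rw [h0, zero_dvd_iff] at h3
  exact h1.index_ne_zero h3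

/-- the centre of a finitely generated group with finite central commutator subgroup -/
private theorem RF1_center (C : Type*) [Group C] [Group.FG C] (k : ℕ) (hk : k ≠ 0)
    (h1 : ∀ x y z : C, ⁅x, y⁆ * z = z * ⁅x, y⁆) (h2 : ∀ x y : C, ⁅x, y⁆ ^ k = 1) :
    (center C).index ≠ 0 := by
  have hpow : ∀ x : C, x ^ k ∈ center C := by
    intro x
    rw [mem_center_iff]
    intro y
    have h3 : ∀ m : ℕ, y * x ^ m = ⁅y, x⁆ ^ m * x ^ m * y := by
      intro m
      induction m with
      | zero => simp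
      | succ m ih =>
        have h4 : y * x = ⁅y, x⁆ * x * y := by
          rw [commutatorElement_def]; group
        have hc : x * ⁅y, x⁆ ^ m = ⁅y, x⁆ ^ m * x :=
          ((show Commute ⁅y, x⁆ x from h1 y x x).pow_left m).symm
        calc y * x ^ (m + 1) = (y * x) * x ^ m := by rw [pow_succ']; group
          _ = ⁅y, x⁆ * x * (y * x ^ m) := by rw [h4]; group
          _ = ⁅y, x⁆ * (x * ⁅y, x⁆ ^ m) * x ^ m * y := by rw [ih]; group
          _ = ⁅y, x⁆ * (⁅y, x⁆ ^ m * x) * x ^ m * y := by rw [hc]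
          _ = ⁅y, x⁆ ^ (m + 1) * x ^ (m + 1) * y := by rw [pow_succ', pow_succ']; group
    rw [h3 k, h2, one_mul]
  have h5 : Function.Surjective (Abelianization.of (G := C)) := QuotientGroup.mk_surjective
  have hfg : Group.FG (Abelianization C) := Group.fg_of_surjective h5
  have h3 : ((powMonoidHom (α := Abelianization C) k).range.comap
      (Abelianization.of (G := C))).index ≠ 0 := by
    have h4 : (powMonoidHom (α := Abelianization C) k).range.FiniteIndex :=
      Subgroup.finiteIndex_range_powMonoidHom_of_fg _ hk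
    rw [index_comap_of_surjective _ h5]
    exact h4.index_ne_zero
  have h4 : (powMonoidHom (α := Abelianization C) k).range.comap
      (Abelianization.of (G := C)) ≤ center C := by
    intro x hx
    obtain ⟨y', hy'⟩ := hx
    obtain ⟨y, rfl⟩ := QuotientGroup.mk_surjective y'
    have h5 : Abelianization.of (y ^ k) = Abelianization.of x := by
      rw [map_pow]; exact hy'
    have h6 : (y ^ k)⁻¹ * x ∈ commutator C := by
      rw [← Abelianization.ker_of, MonoidHom.mem_ker, map_mul, map_inv, h5, inv_mul_cancel]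
    have h7 : commutator C ≤ center C := by
      rw [_root_.commutator_def, commutator_le]
      intro a _ b _
      rw [mem_center_iff]
      intro z
      exact (h1 a b z).symm
    have h8 : x = y ^ k * ((y ^ k)⁻¹ * x) := by group
    rw [h8]
    exact mul_mem (hpow y) (h7 h6)
  intro h0
  have h5 := index_dvd_of_le h4
  rw [h0, zero_dvd_iff] at h5
  exact h3 h5

private theorem RF1_pow (C : Type*) [Group C] [Group.FG C] (h : (center C).index ≠ 0) :
    ∃ (l : ℕ) (W1 : Subgroup C), l ≠ 0 ∧ W1.index ≠ 0 ∧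
      (∀ x, x ∈ W1 → ∃ a ∈ center C, a ^ l = x) ∧ (∀ a ∈ center C, a ^ l ∈ W1) ∧
      ∀ a ∈ center C, IsOfFinOrder a → a ^ l = 1 := by
  have f1 : (center C).FiniteIndex := ⟨h⟩
  have f2 : Group.FG (center C) := inferInstance
  let cg : CommGroup (center C) :=
    { (inferInstance : Group (center C)) with
      mul_comm := fun a b => Subtype.ext (mem_center_iff.mp b.2 a) }
  have f3 : @Group.FG (center C) cg.toGroup := f2
  obtain ⟨l, hl, hlt⟩ := @RF1_exp (center C) cg f3
  have h1 : (@powMonoidHom (center C) _ l).range.index ≠ 0 :=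
    (@Subgroup.finiteIndex_range_powMonoidHom_of_fg (center C) cg f3 l hl).index_ne_zero
  refine ⟨l, ((@powMonoidHom (center C) _ l).range).map (center C).subtype, hl, ?_, ?_, ?_, ?_⟩
  · rw [index_map_subtype]
    exact mul_ne_zero h1 h
  · rintro x ⟨x1, ⟨a, rfl⟩, rfl⟩
    exact ⟨a, a.2, rfl⟩
  · intro a ha
    exact ⟨_, ⟨⟨a, ha⟩, rfl⟩, rfl⟩
  · intro a ha hfin
    have h2 : IsOfFinOrder (⟨a, ha⟩ : center C) := by
      obtain ⟨m, hm, hma⟩ := isOfFinOrder_iff_pow_eq_one.mp hfin
      exact isOfFinOrder_iff_pow_eq_one.mpr ⟨m, hm, Subtype.ext hma⟩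
    exact congrArg Subtype.val (hlt _ h2)

/-- the case `W = 1` -/
private theorem RF1_bot {Q : Type*} [Group Q] (N F : Subgroup Q) (hNn : N.Normal) (hFn : F.Normal)
    (hN : N.FG) (hab : ⁅N, N⁆ ≤ F) (hfin : Finite F) :
    ∃ W' : Subgroup Q, W'.Normal ∧ W' ≤ N ∧ W'.relIndex N ≠ 0 ∧ W' ⊓ F ≤ ⊥ := by
  set Z0 := centralizer (F : Set Q) with hZ0
  have hZ0n : Z0.Normal := by
    rw [hZ0]; infer_instance
  set C := N ⊓ Z0 with hC
  have hCn : C.Normal := by
    rw [hC]; infer_instance
  have hCN : C ≤ N := inf_le_left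
  have hCrel : C.relIndex N ≠ 0 := by
    rw [hC, inf_comm, inf_relIndex_right]
    intro h0
    have h1 : Z0.relIndex N ∣ Z0.index := relIndex_dvd_index_of_normal Z0 N
    rw [h0, zero_dvd_iff] at h1
    exact RF1_cent F hFn hfin h1
  haveI hNfg : Group.FG N := (Group.fg_iff_subgroup_fg N).mpr hN
  haveI hCfg' : Group.FG (C.subgroupOf N) := by
    haveI : (C.subgroupOf N).FiniteIndex := ⟨hCrel⟩
    infer_instance
  haveI hCfg : Group.FG C := by
    have e := Subgroup.subgroupOfEquivOfLe hCN
    exact Group.fg_of_surjective (f := e.toMonoidHom) e.surjective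
  have hk : Nat.card F ≠ 0 := Nat.card_pos.ne'
  have hcomF : ∀ x y : C, ((⁅x, y⁆ : C) : Q) ∈ F := by
    intro x y
    have : ((⁅x, y⁆ : C) : Q) = ⁅(x : Q), (y : Q)⁆ := rfl
    rw [this]
    exact hab (commutator_mem_commutator (hCN x.2) (hCN y.2))
  have hcen : (center C).index ≠ 0 := by
    apply RF1_center C (Nat.card F) hk
    · intro x y z
      apply Subtype.ext
      have h1 := (mem_centralizer_iff.mp (inf_le_right (a := N) (b := Z0) z.2)) _ (hcomF x y)
      exact h1
    · intro x y
      apply Subtype.ext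
      have h1 : (⟨_, hcomF x y⟩ : F) ^ Nat.card F = 1 := pow_card_eq_one'
      exact congrArg (fun q : F => (q : Q)) h1
  obtain ⟨l, W1, hl, hW1i, hW1a, hW1b, hlt⟩ := RF1_pow C hcen
  refine ⟨W1.map C.subtype, ?_, ?_, ?_, ?_⟩
  · refine ⟨?_⟩
    rintro x ⟨x1, hx1, rfl⟩ g
    obtain ⟨a, hac, rfl⟩ := hW1a x1 hx1
    have hga : g * (a : Q) * g⁻¹ ∈ C := hCn.conj_mem _ a.2 g
    have hgc : (⟨_, hga⟩ : C) ∈ center C := by
      rw [mem_center_iff]
      intro z
      apply Subtype.ext
      change (z : Q) * (g * (a : Q) * g⁻¹) = g * (a : Q) * g⁻¹ * z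
      have hz : g⁻¹ * (z : Q) * g ∈ C := by
        have := hCn.conj_mem _ z.2 g⁻¹
        rwa [inv_inv] at this
      have h1 := congrArg (fun q : C => (q : Q)) (mem_center_iff.mp hac ⟨_, hz⟩)
      have h2 : (g⁻¹ * (z : Q) * g) * (a : Q) = (a : Q) * (g⁻¹ * (z : Q) * g) := h1
      calc (z : Q) * (g * (a : Q) * g⁻¹) = g * ((g⁻¹ * (z : Q) * g) * (a : Q)) * g⁻¹ := by
            group
        _ = g * ((a : Q) * (g⁻¹ * (z : Q) * g)) * g⁻¹ := by rw [h2]
        _ = g * (a : Q) * g⁻¹ * z := by group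
    refine ⟨_, hW1b _ hgc, ?_⟩
    change (g * (a : Q) * g⁻¹) ^ l = g * ((a : Q) ^ l) * g⁻¹
    rw [conj_pow]
  · rintro x ⟨x1, -, rfl⟩
    exact hCN x1.2
  · have h1 : (W1.map C.subtype).relIndex C = W1.index := by
      rw [relIndex, subgroupOf, comap_map_eq_self_of_injective C.subtype_injective]
    have h2 : W1.map C.subtype ≤ C := by
      rintro x ⟨x1, -, rfl⟩
      exact x1.2
    rw [← relIndex_mul_relIndex _ C N h2 hCN, h1]
    exact mul_ne_zero hW1i hCrel
  · rintro x ⟨⟨x1, hx1, rfl⟩, hxF⟩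
    obtain ⟨a, hac, rfl⟩ := hW1a x1 hx1
    rw [mem_bot]
    have hxF' : (a : Q) ^ l ∈ F := hxF
    have h1 : (⟨_, hxF'⟩ : F) ^ Nat.card F = 1 := pow_card_eq_one'
    have h2 : ((a : Q) ^ l) ^ Nat.card F = 1 := by
      exact congrArg (fun q : F => (q : Q)) h1
    have h3 : IsOfFinOrder a := by
      rw [isOfFinOrder_iff_pow_eq_one]
      refine ⟨l * Nat.card F, Nat.mul_pos (Nat.pos_of_ne_zero hl) (Nat.pos_of_ne_zero hk), ?_⟩
      apply Subtype.ext
      change (a : Q) ^ (l * Nat.card F) = 1
      rw [pow_mul, h2]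
    exact congrArg (fun q : C => (q : Q)) (hlt a hac h3)

/-- finite-by-abelian f.g. normal sections are residually finite in `G` -/
theorem RF1 {G : Type*} [Group G] (N F W : Subgroup G) (hNn : N.Normal) (hFn : F.Normal)
    (hWn : W.Normal) (hFN : F ≤ N) (hN : N.FG) (hab : ⁅N, N⁆ ≤ F) (hWF : W ≤ F)
    (hfin : W.relIndex F ≠ 0) :
    ∃ W' : Subgroup G, W'.Normal ∧ W' ≤ N ∧ W'.relIndex N ≠ 0 ∧ W' ⊓ F ≤ W := by
  have hsurj : Function.Surjective (QuotientGroup.mk' W) := QuotientGroup.mk'_surjective W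
  have hker : (QuotientGroup.mk' W).ker = W := QuotientGroup.ker_mk' W
  have hFfin : Finite (F.map (QuotientGroup.mk' W)) := by
    have h1 : (⊥ : Subgroup (G ⧸ W)).relIndex (F.map (QuotientGroup.mk' W)) = W.relIndex F := by
      rw [← relIndex_comap, MonoidHom.comap_bot, hker]
    rw [relIndex_bot_left] at h1
    rw [← h1] at hfin
    exact Nat.finite_of_card_ne_zero hfin
  obtain ⟨W', hW'n, hW'N, hW'i, hW'F⟩ := RF1_bot (N.map (QuotientGroup.mk' W))
    (F.map (QuotientGroup.mk' W)) (hNn.map _ hsurj) (hFn.map _ hsurj)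
    (by
      have h1 : Group.FG N := (Group.fg_iff_subgroup_fg N).mpr hN
      exact (Group.fg_iff_subgroup_fg _).mp
        (Group.fg_of_surjective ((QuotientGroup.mk' W).subgroupMap_surjective N)))
    (by rw [← map_commutator]; exact map_mono hab) hFfin
  refine ⟨W'.comap (QuotientGroup.mk' W), hW'n.comap _, ?_, ?_, ?_⟩
  · intro x hx
    obtain ⟨y, hy, hyx⟩ := hW'N hx
    have h1 : y⁻¹ * x ∈ W := by
      rw [← hker, MonoidHom.mem_ker, map_mul, map_inv, hyx, inv_mul_cancel]
    have h2 : x = y * (y⁻¹ * x) := by group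
    rw [h2]
    exact mul_mem hy (hFN (hWF h1))
  · rw [relIndex_comap]
    exact hW'i
  · rintro x ⟨hx, hxF⟩
    have h1 : QuotientGroup.mk' W x ∈ W' ⊓ F.map (QuotientGroup.mk' W) :=
      ⟨hx, mem_map_of_mem _ hxF⟩
    have h2 := mem_bot.mp (hW'F h1)
    rw [← hker, MonoidHom.mem_ker]
    exact h2

end GP48
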