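import Mathlib
import Pool.Agent.LibGP48.XDefs
import Pool.Agent.LibGP48.F2
import Pool.Agent.LibGP48.FNG
import Pool.Agent.LibGP48.RF0
import Pool.Agent.LibGP48.RF1
import Pool.Agent.LibGP48.H1
import Pool.Agent.LibGP48.H2

/-!
# LibGP48 Fin2: some term of the derived series is nilpotent modulo all others
-/

namespace GP48

open Subgroup

universe u

/-- subgroups of finite index of `G^(i)` contain traces of subgroups of finite index of `G` -/
theorem RFC {G : Type*} [Group G] (hfg : ∀ i, (ds (⊤ : Subgroup G) i).FG) (i : ℕ) :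
    ∀ Y1 : Subgroup G, Y1.Normal → Y1 ≤ ds (⊤ : Subgroup G) i →
      Y1.relIndex (ds (⊤ : Subgroup G) i) ≠ 0 →
      ∃ Z : Subgroup G, Z.Normal ∧ Z.index ≠ 0 ∧ Z ⊓ ds (⊤ : Subgroup G) i ≤ Y1 := by
  induction i with
  | zero =>
    intro Y1 h1 _ h3
    refine ⟨Y1, h1, ?_, inf_le_left⟩
    rwa [ds_zero, relIndex_top_right] at h3
  | succ i ih =>
    intro Y1 h1 h2 h3
    obtain ⟨W, hW1, hW2, hW3, hW4⟩ := RF1 (ds (⊤ : Subgroup G) i) (ds (⊤ : Subgroup G) (i + 1)) Y1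
      inferInstance inferInstance h1 (ds_succ_le _ _) (hfg i) (by rw [ds_succ]) h2 h3
    obtain ⟨Z, hZ1, hZ2, hZ3⟩ := ih W hW1 hW2 hW3
    refine ⟨Z, hZ1, hZ2, ?_⟩
    exact (le_inf ((inf_le_inf_left Z (ds_succ_le _ _)).trans hZ3) inf_le_right).trans hW4

/-- a nilpotent normal subgroup acts trivially on chief factors -/
lemma chief_of_nil {G : Type*} [Group G] {Y X : Subgroup G} (h : Chief Y X) (T Z : Subgroup G)
    (hT : T.Normal) (hZ : Z.Normal) (hXT : X ≤ T) (hn : NM T Z) (hZX : Z ⊓ X ≤ Y) :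
    ⁅X, T⁆ ≤ Y := by
  have hXn := h.nX
  have hYn := h.nY
  rcases h.min (⁅X, T⁆ ⊔ Y) inferInstance le_sup_right
    (sup_le (commutator_le_left X T) h.lt.le) with h1 | h1
  · rw [← h1]
    exact le_sup_left
  · exfalso
    -- `X ≤ ic T X k ⊔ Y` for all `k`
    have h2 : ∀ k, X ≤ ic T X k ⊔ Y := by
      intro k
      induction k with
      | zero => exact le_sup_left
      | succ k ihk =>
        have h3 : ⁅X, T⁆ ≤ ⁅ic T X k, T⁆ ⊔ Y := by
          rw [commutator_le]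
          intro x hx t ht
          obtain ⟨a, ha, y, hy, rfl⟩ := mem_sup_of_normal_right.1 (ihk hx)
          have h4 : a * y * t * (a * y)⁻¹ * t⁻¹ = (a * (y * (t * y⁻¹ * t⁻¹)) * a⁻¹) *
              (a * t * a⁻¹ * t⁻¹) := by group
          rw [commutatorElement_def, h4]
          refine mul_mem (mem_sup_right ?_) (mem_sup_left (commutator_mem_commutator ha ht))
          exact hYn.conj_mem _ (Y.mul_mem hy (hYn.conj_mem _ (Y.inv_mem hy) t)) a
        calc X = ⁅X, T⁆ ⊔ Y := h1.symm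
          _ ≤ _ := sup_le h3 le_sup_right
    obtain ⟨k, hk⟩ := hn
    have h5 : ic T X k ≤ Z := (ic_mono le_rfl hXT k).trans hk
    have h6 : ic T X k ≤ X := ic_le T X k
    have h7 : X ≤ Y := (h2 k).trans (sup_le ((le_inf h5 h6).trans hZX) le_rfl)
    exact absurd h7 (not_le_of_gt h.lt)

/-- central action on the chief factors of `G^(i) / G^(i+1)` -/
theorem CENT {G : Type*} [Group G] (hfg : ∀ i, (ds (⊤ : Subgroup G) i).FG) (d0 : ℕ)
    (hF : ∀ Y V : Subgroup G, Chief Y V → (∃ e, ds (⊤ : Subgroup G) e ≤ Y) →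
      (∀ x, (∀ v ∈ V, x * v * x⁻¹ * v⁻¹ ∈ Y) → x ∈ V) → ds (⊤ : Subgroup G) d0 ≤ V)
    (i : ℕ) (hi : d0 ≤ i) (Y X : Subgroup G) (h : Chief Y X)
    (hY : ds (⊤ : Subgroup G) (i + 2) ≤ Y) (hX : X ≤ ds (⊤ : Subgroup G) (i + 1)) :
    ⁅X, ds (⊤ : Subgroup G) i⁆ ≤ Y := by
  have hYn := h.nY
  obtain ⟨Y1, k1, k2, k3, k4, k5⟩ := RF0 (ds (⊤ : Subgroup G) (i + 1)) Y X inferInstance h.nY
    h.lt.le hX (hfg (i + 1)) (by rw [← ds_succ]; exact hY) h.fin
  obtain ⟨Z, z1, z2, z3⟩ := RFC hfg (i + 1) Y1 k1 k3 k4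
  -- make the quotient soluble
  have z4 : (Z ⊔ ds (⊤ : Subgroup G) (i + 2)).index ≠ 0 := by
    intro h1
    have h2 := Subgroup.relIndex_mul_index (le_sup_left : Z ≤ Z ⊔ ds (⊤ : Subgroup G) (i + 2))
    rw [h1, mul_zero] at h2
    exact z2 h2.symm
  have h3 := FNG (ds (⊤ : Subgroup G) d0) inferInstance (i + 2) _ (Z ⊔ ds (⊤ : Subgroup G) (i + 2))
    inferInstance z4 le_rfl le_sup_right (fun Y' V' hZY' hV' hself =>
      hF Y' V' hV' ⟨i + 2, le_sup_right.trans hZY'⟩ hself)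
  have h4 : NM (ds (⊤ : Subgroup G) i) (Z ⊔ ds (⊤ : Subgroup G) (i + 2)) := by
    obtain ⟨k, hk⟩ := h3
    exact ⟨k, (ic_mono (ds_antitone _ hi) (ds_antitone _ hi) k).trans hk⟩
  refine chief_of_nil h _ _ inferInstance inferInstance (hX.trans (ds_succ_le _ _)) h4 ?_
  intro x hx
  obtain ⟨hx1, hx2⟩ := hx
  obtain ⟨z, hz, t, ht, rfl⟩ := mem_sup_of_normal_right.1 hx1
  have hz' : z ∈ ds (⊤ : Subgroup G) (i + 1) := by
    have h5 : z = (z * t) * t⁻¹ := by group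
    rw [h5]
    exact mul_mem (hX hx2) (inv_mem (ds_succ_le _ _ ht))
  have h6 : z ∈ Y1 := z3 ⟨hz, hz'⟩
  exact k5 ⟨hx2, Y1.mul_mem h6 (k2 (hY ht))⟩

/-- all derived subgroups are finitely generated -/
lemma ds_fg {G : Type*} [Group G] (S : Set G) (hSf : S.Finite) (hS : closure S = ⊤) (β : ℝ)
    (h0 : 0 < β) (h1 : β < 1 / 2) (hg : Gro (fun n => (wball S n).ncard) β) (i : ℕ) :
    (ds (⊤ : Subgroup G) i).FG := by
  obtain ⟨m0, hm0, hC⟩ := N1 S hSf hS β h0 h1 hg 2 (by norm_num)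
  have key : ∀ i, ∃ m, m0 ≤ m ∧ Rch S (ds (⊤ : Subgroup G) i) m := by
    intro i
    induction i with
    | zero => exact ⟨m0, le_rfl, Rch_top hS hm0⟩
    | succ i ih =>
      obtain ⟨m, h2, h3⟩ := ih
      obtain ⟨m', h4, -, h5⟩ := V1 hC _ _ m m h3 h3 (by omega)
      exact ⟨m', h4, h5⟩
  obtain ⟨m, -, hm⟩ := key i
  rw [Subgroup.fg_iff]
  exact ⟨_, hm.gen.symm, (wball_finite hSf m).subset Set.inter_subset_right⟩

lemma ic_shift {G : Type*} [Group G] (N : Subgroup G) (k : ℕ) :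
    ic N N (1 + k) = ic N (ds N 1) k := by
  rw [ic_add]
  rfl

/-- **Theorem A.** -/
theorem MAINA {G : Type} [Group G] (S : Set G) (hSf : S.Finite) (hS : closure S = ⊤) (β : ℝ)
    (h0 : 0 < β) (h1 : β < 2 / 7) (hg : Gro (fun n => (wball S n).ncard) β) :
    (∀ i, (ds (⊤ : Subgroup G) i).FG) ∧
      ∃ j, ∀ l, NM (ds (⊤ : Subgroup G) j) (ds (⊤ : Subgroup G) l) := by
  have hfg := ds_fg S hSf hS β h0 (by linarith) hg
  obtain ⟨d0, hF⟩ := F2 S hSf hS β h0 h1 hg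
  -- two steps
  have two : ∀ j, d0 ≤ j → NM (ds (⊤ : Subgroup G) j) (ds (ds (⊤ : Subgroup G) j) 2) := by
    intro j hj
    have hj2 : ds (ds (⊤ : Subgroup G) j) 2 = ds (⊤ : Subgroup G) (j + 2) := (ds_add _ _ _).symm
    obtain ⟨F, hF1⟩ := hfg (j + 1)
    obtain ⟨k, hk⟩ := H1 (ds (⊤ : Subgroup G) j) (ds (⊤ : Subgroup G) (j + 1))
      (ds (⊤ : Subgroup G) (j + 2)) (ds_succ_le _ _) (by rw [ds_succ ⊤ (j + 1)])
      ⟨F, by rw [hF1]; exact (sup_eq_left.2 (ds_succ_le _ _)).symm⟩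
      (fun Y X hYX hY hX => CENT hfg d0 hF j hj Y X hYX hY hX)
    refine ⟨1 + k, ?_⟩
    rw [ic_shift, hj2]
    exact hk
  have all : ∀ m l, d0 ≤ l → NM (ds (⊤ : Subgroup G) l) (ds (⊤ : Subgroup G) (l + m)) := by
    intro m
    induction m with
    | zero => exact fun _ _ => ⟨0, le_rfl⟩
    | succ m ih =>
      intro l hl
      refine H2 _ _ ?_ (two l hl)
      have := ih (l + 1) (by omega)
      rw [show l + 1 + m = l + (m + 1) by ring] at this
      rw [ds_succ] at this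
      exact this
  refine ⟨hfg, d0, ?_⟩
  intro l
  rcases le_total d0 l with h | h
  · obtain ⟨m, rfl⟩ := Nat.exists_eq_add_of_le h
    exact all m d0 le_rfl
  · exact ⟨0, ds_antitone _ h⟩

end GP48
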