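import Mathlib
import Pool.Agent.LibGP48.XDefs

/-!
# LibGP48 UNI: passage from countable groups in `Type` to groups in `Type u`
-/

namespace GP48

open Subgroup

universe u

lemma vn_congr {G G' : Type*} [Group G] [Group G'] (e : G' ≃* G)
    (h : ∃ H : Subgroup G', H.FiniteIndex ∧ Group.IsNilpotent H) :
    ∃ H : Subgroup G, H.FiniteIndex ∧ Group.IsNilpotent H := by
  obtain ⟨H, h1, h2⟩ := h
  refine ⟨H.map (e : G' →* G), ⟨?_⟩, ?_⟩
  · rw [index_map_equiv]
    exact h1.index_ne_zero
  · exact (Group.isNilpotent_congr (e.subgroupMap H)).1 h2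

lemma ds_equiv {G G' : Type*} [Group G] [Group G'] (e : G' ≃* G) (n : ℕ) :
    (derivedSeries G' n).map (e : G' →* G) = derivedSeries G n :=
  map_derivedSeries_eq e.surjective n

lemma concl_congr {G G' : Type*} [Group G] [Group G'] (e : G' ≃* G)
    (h1 : ∀ i, (derivedSeries G' i).FG)
    (h2 : ∃ m, derivedSeries G' m = derivedSeries G' (m + 1) ∧
      ∃ H : Subgroup (G' ⧸ derivedSeries G' m), H.FiniteIndex ∧ Group.IsNilpotent H)
    (h3 : (⨅ n, derivedSeries G' n) = ⊥ →
      ∃ H : Subgroup G', H.FiniteIndex ∧ Group.IsNilpotent H) :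
    (∀ i, (derivedSeries G i).FG) ∧
      (∃ m, derivedSeries G m = derivedSeries G (m + 1) ∧
        ∃ H : Subgroup (G ⧸ derivedSeries G m), H.FiniteIndex ∧ Group.IsNilpotent H) ∧
      ((⨅ n, derivedSeries G n) = ⊥ →
        ∃ H : Subgroup G, H.FiniteIndex ∧ Group.IsNilpotent H) := by
  refine ⟨fun i => ?_, ?_, fun h => vn_congr e (h3 ?_)⟩
  · rw [← ds_equiv e i]
    obtain ⟨F, hF⟩ := h1 i
    classical
    refine ⟨F.image e, ?_⟩
    rw [Finset.coe_image, ← hF]
    exact (MonoidHom.map_closure (e : G' →* G) (F : Set G')).symm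
  · obtain ⟨m, h4, h5⟩ := h2
    refine ⟨m, ?_, vn_congr (QuotientGroup.congr _ _ e (ds_equiv e m)) h5⟩
    rw [← ds_equiv e m, ← ds_equiv e (m + 1), h4]
  · rw [eq_bot_iff]
    intro x hx
    have h4 : e x ∈ (⨅ n, derivedSeries G n) := by
      rw [mem_iInf]
      intro n
      rw [← ds_equiv e n]
      exact mem_map_of_mem _ ((mem_iInf.1 hx) n)
    rw [h, mem_bot] at h4
    rw [mem_bot]
    exact e.injective (h4.trans e.map_one.symm)

lemma wball_equiv {G G' : Type*} [Group G] [Group G'] (e : G ≃* G') (S : Set G) (n : ℕ) :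
    wball (e '' S) n = e '' wball S n := by
  ext y
  constructor
  · rintro ⟨l, h1, h2, h3⟩
    refine ⟨e.symm y, ⟨l.map e.symm, by simpa using h1, ?_, ?_⟩, e.apply_symm_apply y⟩
    · intro x hx
      obtain ⟨z, hz, rfl⟩ := List.mem_map.1 hx
      rcases h2 z hz with h | h
      · obtain ⟨w, hw, rfl⟩ := h
        left
        rwa [e.symm_apply_apply]
      · obtain ⟨w, hw, hwz⟩ := h
        right
        rw [← map_inv, ← hwz, e.symm_apply_apply]
        exact hw
    · rw [← h3]
      exact (map_list_prod e.symm l).symm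
  · rintro ⟨x, ⟨l, h1, h2, h3⟩, rfl⟩
    refine ⟨l.map e, by simpa using h1, ?_, ?_⟩
    · intro y hy
      obtain ⟨z, hz, rfl⟩ := List.mem_map.1 hy
      rcases h2 z hz with h | h
      · exact Or.inl ⟨z, h, rfl⟩
      · right
        rw [← map_inv]
        exact ⟨z⁻¹, h, rfl⟩
    · rw [← h3]
      exact (map_list_prod e l).symm

/-- passage to arbitrary universes, removal of the hypothesis `0 < β` -/
theorem UNI (main0 : ∀ {G : Type} [Group G] (S : Set G), S.Finite → closure S = ⊤ → ∀ β : ℝ,
      0 < β → β < 2 / 7 → Gro (fun n => (wball S n).ncard) β →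
      (∀ i, (derivedSeries G i).FG) ∧
        (∃ m, derivedSeries G m = derivedSeries G (m + 1) ∧
          ∃ H : Subgroup (G ⧸ derivedSeries G m), H.FiniteIndex ∧ Group.IsNilpotent H) ∧
        ((⨅ n, derivedSeries G n) = ⊥ →
          ∃ H : Subgroup G, H.FiniteIndex ∧ Group.IsNilpotent H))
    {G : Type u} [Group G] (S : Set G) (hSf : S.Finite) (hS : closure S = ⊤) (β : ℝ)
    (hβ : β < 2 / 7) (hg : Gro (fun n => (wball S n).ncard) β) :
    (∀ i, (derivedSeries G i).FG) ∧
      (∃ m, derivedSeries G m = derivedSeries G (m + 1) ∧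
        ∃ H : Subgroup (G ⧸ derivedSeries G m), H.FiniteIndex ∧ Group.IsNilpotent H) ∧
      ((⨅ n, derivedSeries G n) = ⊥ →
        ∃ H : Subgroup G, H.FiniteIndex ∧ Group.IsNilpotent H) := by
  have hcount : Countable G := by
    have h1 : (⋃ n, wball S n).Countable := Set.countable_iUnion fun n => (wball_finite hSf n).countable
    have h2 : (⋃ n, wball S n) = Set.univ := by
      rw [Set.eq_univ_iff_forall]
      intro x
      have hx : x ∈ closure S := by rw [hS]; exact mem_top x
      rw [Set.mem_iUnion]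
      induction hx using Subgroup.closure_induction with
      | mem x hx => exact ⟨1, wball_gen hx⟩
      | one => exact ⟨0, wball_one S 0⟩
      | mul x y _ _ hx hy =>
        obtain ⟨m, hm⟩ := hx
        obtain ⟨n, hn⟩ := hy
        exact ⟨m + n, wball_mul hm hn⟩
      | inv x _ hx =>
        obtain ⟨m, hm⟩ := hx
        exact ⟨m, wball_inv hm⟩
    rw [h2] at h1
    exact Set.countable_univ_iff.1 h1
  have hsm : Small.{0} G := inferInstance
  have e : Shrink.{0} G ≃* G := Shrink.mulEquiv
  obtain ⟨c1, c2, c3⟩ := main0 (G := Shrink.{0} G) (e.symm '' S) (hSf.image _)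
    (by
      have h1 := MonoidHom.map_closure (e.symm : G →* Shrink.{0} G) S
      rw [hS, ← MonoidHom.range_eq_map, MonoidHom.range_eq_top.2 e.symm.surjective] at h1
      exact h1.symm) (max β (1 / 7)) (by positivity) (max_lt hβ (by norm_num))
    (by
      unfold Gro at hg ⊢
      filter_upwards [hg, Filter.eventually_ge_atTop 1] with n hn hn1
      rw [wball_equiv e.symm S n, Set.ncard_image_of_injective _ e.symm.injective]
      refine hn.trans (Real.exp_le_exp.2 ?_)
      exact Real.rpow_le_rpow_of_exponent_le (by exact_mod_cast hn1) (le_max_left _ _))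
  exact concl_congr e c1 c2 c3

end GP48
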