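import Mathlib
import Pool.Agent.LibGP48.XDefs
import Pool.Agent.LibGP48.V1

/-!
# LibGP48 N2 (SHORT/MEDIUM)

Induction on i, μ by choice (first prove: forall i, exists m, ... , then choose). i = 0: ds ⊤ 0 = ⊤ = closure S <= closure (⊤ n wball S 1), so Rch S ⊤ 1 and Rch S ⊤ m0 (Rch.mono, 1 <= m0); μ = m0.
Step: V1 with X = Y = ds ⊤ i, a = b = μ_i: m' <= 2^κ (2 μ_i) <= 2^κ 2^κ μ_i = 4^κ μ_i since 2 <= 2^κ (κ >= 1). Normality: ds_normal.
-/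

namespace GP48

open Subgroup

/-- the derived series -/
theorem N2 {G : Type*} [Group G] {S : Set G} (hS : closure S = ⊤) {κ : ℝ} (hκ : 1 ≤ κ)
    {m0 : ℕ} (hm0 : 1 ≤ m0) (hC : CostH S κ m0) :
    ∃ μ : ℕ → ℕ, ∀ i, Rch S (ds (⊤ : Subgroup G) i) (μ i) ∧ m0 ≤ μ i ∧
      (μ i : ℝ) ≤ m0 * ((4 : ℝ) ^ κ) ^ i := by
  have key : ∀ i : ℕ, ∃ m : ℕ, Rch S (ds (⊤ : Subgroup G) i) m ∧ m0 ≤ m ∧
      (m : ℝ) ≤ m0 * ((4 : ℝ) ^ κ) ^ i := by
    intro i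
    induction i with
    | zero =>
      refine ⟨m0, ?_, le_refl _, by simp⟩
      have h1 : Rch S (ds (⊤ : Subgroup G) 0) 1 := by
        rw [ds_zero]
        refine ⟨inferInstance, le_antisymm ?_ le_top⟩
        rw [← hS]
        apply Subgroup.closure_mono
        intro g hg
        exact ⟨Subgroup.subset_closure hg, wball_gen hg⟩
      exact h1.mono hm0
    | succ i ih =>
      obtain ⟨m, h1, h2, h3⟩ := ih
      obtain ⟨m', k1, k2, k3⟩ := V1 hC _ _ m m h1 h1 (by omega)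
      refine ⟨m', k3, k1, ?_⟩
      have e1 : (2 : ℝ) ≤ (2 : ℝ) ^ κ := by
        calc (2 : ℝ) = (2 : ℝ) ^ (1 : ℝ) := (Real.rpow_one 2).symm
          _ ≤ (2 : ℝ) ^ κ := Real.rpow_le_rpow_of_exponent_le (by norm_num) hκ
      have e2 : (4 : ℝ) ^ κ = (2 : ℝ) ^ κ * (2 : ℝ) ^ κ := by
        rw [← Real.mul_rpow (by norm_num) (by norm_num)]
        norm_num
      have e3 : (0 : ℝ) < (2 : ℝ) ^ κ := Real.rpow_pos_of_pos (by norm_num) κ
      have e4 : (0 : ℝ) ≤ m := Nat.cast_nonneg m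
      calc (m' : ℝ) ≤ (2 : ℝ) ^ κ * ((m : ℝ) + m) := k2
        _ = (2 : ℝ) ^ κ * (2 * m) := by ring
        _ ≤ (2 : ℝ) ^ κ * ((2 : ℝ) ^ κ * m) := by
          apply mul_le_mul_of_nonneg_left _ e3.le
          exact mul_le_mul_of_nonneg_right e1 e4
        _ = (4 : ℝ) ^ κ * m := by rw [e2]; ring
        _ ≤ (4 : ℝ) ^ κ * (m0 * ((4 : ℝ) ^ κ) ^ i) := by
          apply mul_le_mul_of_nonneg_left h3
          rw [e2]; positivity
        _ = m0 * ((4 : ℝ) ^ κ) ^ (i + 1) := by ring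
  choose μ hμ using key
  exact ⟨μ, hμ⟩

end GP48
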