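import Mathlib
import Pool.Agent.LibGP48.XDefs

/-!
# LibGP48 V2 (MEDIUM)

Induction on t. t = 0: 2^0 = 1, Yc D 0 X ε = X, the last claim is ⁅X, D 0⁆ <= ⁅X, D 0⁆. Step: for ε < 2^t, Yc D (t+1) X ε = Yc D t X ε; for ε >= 2^t it is Yc D t X' (ε - 2^t) with X' = ⁅X, D t⁆ (normal). Chain property:
ε+1 < 2^t: induction for X. ε+1 = 2^t: Yc D (t+1) X (2^t) = Yc D t X' 0 = X' (small lemma: Yc D t X 0 = X, by induction) <= ⁅Yc D t X (2^t-1), D 0⁆ (third claim for X). ε >= 2^t: induction for X'. Last claim: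
⁅X, D (t+1)⁆ = ⁅X, ⁅D t, D t⁆⁆ <= ⁅⁅X, D t⁆, D t⁆ (three subgroups lemma for normal subgroups: mod N = ⁅⁅X, D t⁆, D t⁆ use Subgroup.commutator_commutator_eq_bot_of_rotate in G/N) = ⁅X', D t⁆ <= ⁅Yc D t X' (2^t-1), D 0⁆ and
Yc D t X' (2^t-1) = Yc D (t+1) X (2^(t+1)-1).
-/

namespace GP48

open Subgroup

private lemma V2_three {G : Type*} [Group G] (X E : Subgroup G) [hX : X.Normal] [hE : E.Normal] :
    ⁅X, ⁅E, E⁆⁆ ≤ ⁅⁅X, E⁆, E⁆ := by
  set N : Subgroup G := ⁅⁅X, E⁆, E⁆ with hN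
  have hNn : N.Normal := by rw [hN]; infer_instance
  have hker : ∀ K : Subgroup G, K.map (QuotientGroup.mk' N) = ⊥ ↔ K ≤ N := by
    intro K
    rw [Subgroup.map_eq_bot_iff, QuotientGroup.ker_mk']
  rw [Subgroup.commutator_comm X ⁅E, E⁆]
  rw [← hker, Subgroup.map_commutator, Subgroup.map_commutator]
  apply Subgroup.commutator_commutator_eq_bot_of_rotate
  · rw [← Subgroup.map_commutator, ← Subgroup.map_commutator, hker, Subgroup.commutator_comm E X]
  · rw [← Subgroup.map_commutator, ← Subgroup.map_commutator, hker]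

private lemma V2_zero {G : Type*} [Group G] (D : ℕ → Subgroup G) (t : ℕ) : ∀ X : Subgroup G,
    Yc D t X 0 = X := by
  induction t with
  | zero => intro X; rfl
  | succ t ih =>
    intro X
    have : (0 : ℕ) < 2 ^ t := by positivity
    simp only [Yc, this, if_true]
    exact ih X

/-- the binary chain descends through commutators with `D 0` -/
theorem V2 {G : Type*} [Group G] (D : ℕ → Subgroup G) (hn : ∀ s, (D s).Normal)
    (hD : ∀ s, D (s + 1) = ⁅D s, D s⁆) (t : ℕ) : ∀ X : Subgroup G, X.Normal →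
    (∀ ε, (Yc D t X ε).Normal) ∧
    (∀ ε, ε + 1 < 2 ^ t → Yc D t X (ε + 1) ≤ ⁅Yc D t X ε, D 0⁆) ∧
    ⁅X, D t⁆ ≤ ⁅Yc D t X (2 ^ t - 1), D 0⁆ := by
  induction t with
  | zero =>
    intro X hX
    refine ⟨fun ε => hX, fun ε h => ?_, ?_⟩
    · simp at h
    · exact le_refl _
  | succ t ih =>
    intro X hX
    have := hX
    have := hn t
    have hX' : (⁅X, D t⁆ : Subgroup G).Normal := inferInstance
    obtain ⟨a1, a2, a3⟩ := ih X hX
    obtain ⟨b1, b2, b3⟩ := ih ⁅X, D t⁆ hX'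
    have hp : (2 : ℕ) ^ (t + 1) = 2 ^ t + 2 ^ t := by rw [pow_succ]; omega
    have hpos : 0 < (2 : ℕ) ^ t := by positivity
    have e1 : ∀ ε, ε < 2 ^ t → Yc D (t + 1) X ε = Yc D t X ε := by
      intro ε h; simp only [Yc, h, if_true]
    have e2 : ∀ ε, ¬ ε < 2 ^ t → Yc D (t + 1) X ε = Yc D t ⁅X, D t⁆ (ε - 2 ^ t) := by
      intro ε h; simp only [Yc, h, if_false]
    refine ⟨fun ε => ?_, fun ε h => ?_, ?_⟩
    · by_cases hε : ε < 2 ^ t
      · rw [e1 ε hε]; exact a1 ε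
      · rw [e2 ε hε]; exact b1 _
    · by_cases h1 : ε + 1 < 2 ^ t
      · rw [e1 _ h1, e1 _ (by omega)]
        exact a2 ε h1
      · by_cases h2 : ε < 2 ^ t
        · have h3 : ε + 1 = 2 ^ t := by omega
          rw [e2 _ h1, e1 _ h2, h3, Nat.sub_self, V2_zero]
          have h4 : ε = 2 ^ t - 1 := by omega
          rw [h4]
          exact a3
        · rw [e2 _ h1, e2 _ h2]
          have h5 : ε + 1 - 2 ^ t = (ε - 2 ^ t) + 1 := by omega
          rw [h5]
          exact b2 _ (by omega)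
    · have h6 : ¬ (2 ^ (t + 1) - 1 < 2 ^ t) := by omega
      rw [e2 _ h6]
      have h7 : 2 ^ (t + 1) - 1 - 2 ^ t = 2 ^ t - 1 := by omega
      rw [h7, hD t]
      exact (V2_three X (D t)).trans b3

end GP48
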