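import Mathlib
import Pool.Agent.LibGP48.XDefs
import Pool.Agent.LibGP48.V1

/-!
# LibGP48 V3 (MEDIUM)

Induction on t. t = 0: m' = a, pc 0 ε = 0, B <= B + 2A. Step, ε < 2^t: induction for X, and (4^κ)^t <= (4^κ)^(t+1). Step, ε >= 2^t: X' = ⁅X, D t⁆, V1 with (a, μ t): m1 <= 2^κ (a + μ t) <= B' := 2^κ (B + A (4^κ)^t). Induction for X', B' (m0 <= m1):
m' <= (2^κ)^(pc t (ε-2^t)) (B' + 2 A (4^κ)^t) <= (2^κ)^(pc t (ε-2^t) + 1) (B + 2 A (4^κ)^(t+1)), since B' + 2A(4^κ)^t <= 2^κ (B + 2 A (4^κ)^t) (2 <= 2^κ). B >= 0 because B >= a.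
-/

namespace GP48

open Subgroup

/-- cost of the terms of the binary chain -/
theorem V3 {G : Type*} [Group G] {S : Set G} {κ : ℝ} {m0 : ℕ} (hκ : 1 ≤ κ)
    (hC : CostH S κ m0) (D : ℕ → Subgroup G) (μ : ℕ → ℕ) (A : ℝ) (hA : 0 ≤ A)
    (hD : ∀ s, Rch S (D s) (μ s)) (hμ0 : ∀ s, m0 ≤ μ s)
    (hμ : ∀ s, (μ s : ℝ) ≤ A * ((4 : ℝ) ^ κ) ^ s) (t : ℕ) :
    ∀ (X : Subgroup G) (a : ℕ) (B : ℝ), Rch S X a → m0 ≤ a → (a : ℝ) ≤ B → ∀ ε : ℕ,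
      ∃ m' : ℕ, m0 ≤ m' ∧ Rch S (Yc D t X ε) m' ∧
        (m' : ℝ) ≤ ((2 : ℝ) ^ κ) ^ (pc t ε) * (B + 2 * A * ((4 : ℝ) ^ κ) ^ t) := by
  have hc1 : (2 : ℝ) ≤ (2 : ℝ) ^ κ := by
    calc (2 : ℝ) = (2 : ℝ) ^ (1 : ℝ) := (Real.rpow_one 2).symm
      _ ≤ (2 : ℝ) ^ κ := Real.rpow_le_rpow_of_exponent_le (by norm_num) hκ
  have hc4 : (1 : ℝ) ≤ (4 : ℝ) ^ κ := Real.one_le_rpow (by norm_num) (by linarith)
  have hc1' : (0 : ℝ) < (2 : ℝ) ^ κ := by linarith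
  have hmono : ∀ t : ℕ, A * ((4 : ℝ) ^ κ) ^ t ≤ A * ((4 : ℝ) ^ κ) ^ (t + 1) := fun t =>
    mul_le_mul_of_nonneg_left (pow_le_pow_right₀ hc4 (Nat.le_succ t)) hA
  have hnn : ∀ t : ℕ, 0 ≤ A * ((4 : ℝ) ^ κ) ^ t := fun t =>
    mul_nonneg hA (pow_nonneg (by linarith) t)
  induction t with
  | zero =>
    intro X a B hX ha haB ε
    refine ⟨a, ha, hX, ?_⟩
    simp only [pc, pow_zero, one_mul, mul_one]
    linarith
  | succ t ih =>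
    intro X a B hX ha haB ε
    by_cases hε : ε < 2 ^ t
    · obtain ⟨m', h1, h2, h3⟩ := ih X a B hX ha haB ε
      refine ⟨m', h1, ?_, ?_⟩
      · simp only [Yc, if_pos hε]
        exact h2
      · simp only [pc, if_pos hε]
        refine h3.trans (mul_le_mul_of_nonneg_left ?_ (pow_nonneg hc1'.le _))
        have := hmono t
        linarith
    · obtain ⟨m1, h1, h2, h3⟩ := V1 hC X (D t) a (μ t) hX (hD t) (by omega)
      have h4 : (m1 : ℝ) ≤ (2 : ℝ) ^ κ * (B + A * ((4 : ℝ) ^ κ) ^ t) := by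
        refine h2.trans (mul_le_mul_of_nonneg_left ?_ hc1'.le)
        have := hμ t
        linarith
      obtain ⟨m', h5, h6, h7⟩ := ih ⁅X, D t⁆ m1 _ h3 h1 h4 (ε - 2 ^ t)
      refine ⟨m', h5, ?_, ?_⟩
      · simp only [Yc, if_neg hε]
        exact h6
      · simp only [pc, if_neg hε]
        refine h7.trans ?_
        rw [pow_succ ((2 : ℝ) ^ κ) (pc t (ε - 2 ^ t)),
          mul_assoc (((2 : ℝ) ^ κ) ^ (pc t (ε - 2 ^ t)))]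
        refine mul_le_mul_of_nonneg_left ?_ (pow_nonneg hc1'.le _)
        have h8 : 2 * (A * ((4 : ℝ) ^ κ) ^ t) ≤ (2 : ℝ) ^ κ * (A * ((4 : ℝ) ^ κ) ^ t) :=
          mul_le_mul_of_nonneg_right hc1 (hnn t)
        have h9 : (2 : ℝ) ^ κ * (A * ((4 : ℝ) ^ κ) ^ t)
            ≤ (2 : ℝ) ^ κ * (A * ((4 : ℝ) ^ κ) ^ (t + 1)) :=
          mul_le_mul_of_nonneg_left (hmono t) hc1'.le
        nlinarith

end GP48
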