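import Mathlib
import Pool.Agent.LibGP48.XDefs

/-!
# LibGP48 V4 (SHORT/MEDIUM)

Complement: ε ↦ 2^T - 1 - ε maps range (2^T) to itself and pc T (2^T-1-ε) + pc T ε = T (induction on T: for ε < 2^t the complement in 2^(t+1) is >= 2^t and complement - 2^t = 2^t-1-ε; the other case is symmetric).
So every ε < 2^T with 2 pc > T has a complement with 2 pc <= T: the complement set (filter with ¬) has card <= card of the filter (injection), and the two cards add up to 2^T (Finset.card_filter_add_card_filter_not or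
filter_card_add_filter_neg_card_eq_card).
-/

namespace GP48

open Subgroup

private lemma pc_compl : ∀ T ε : ℕ, ε < 2 ^ T → pc T (2 ^ T - 1 - ε) + pc T ε = T := by
  intro T
  induction T with
  | zero => intro ε _; rfl
  | succ T ih =>
    intro ε hε
    have h2 : 2 ^ (T + 1) = 2 ^ T + 2 ^ T := by ring
    have hp : 0 < 2 ^ T := Nat.two_pow_pos T
    by_cases h : ε < 2 ^ T
    · have hc : ¬ (2 ^ (T + 1) - 1 - ε < 2 ^ T) := by omega
      have e1 : pc (T + 1) ε = pc T ε := by simp only [pc, if_pos h]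
      have e2 : pc (T + 1) (2 ^ (T + 1) - 1 - ε) = pc T (2 ^ (T + 1) - 1 - ε - 2 ^ T) + 1 := by
        simp only [pc, if_neg hc]
      have e3 : 2 ^ (T + 1) - 1 - ε - 2 ^ T = 2 ^ T - 1 - ε := by omega
      have := ih ε h
      rw [e1, e2, e3]
      omega
    · have hc : 2 ^ (T + 1) - 1 - ε < 2 ^ T := by omega
      have e1 : pc (T + 1) ε = pc T (ε - 2 ^ T) + 1 := by simp only [pc, if_neg h]
      have e2 : pc (T + 1) (2 ^ (T + 1) - 1 - ε) = pc T (2 ^ (T + 1) - 1 - ε) := by
        simp only [pc, if_pos hc]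
      have e3 : 2 ^ (T + 1) - 1 - ε = 2 ^ T - 1 - (ε - 2 ^ T) := by omega
      have := ih (ε - 2 ^ T) (by omega)
      rw [e1, e2, e3]
      omega

/-- at least half of the binary numbers have at most `T/2` digits 1 -/
theorem V4 (T : ℕ) :
    2 ^ T ≤ 2 * ((Finset.range (2 ^ T)).filter (fun ε => 2 * pc T ε ≤ T)).card := by
  have h1 : ((Finset.range (2 ^ T)).filter (fun ε => ¬ (2 * pc T ε ≤ T))).card ≤
      ((Finset.range (2 ^ T)).filter (fun ε => 2 * pc T ε ≤ T)).card := by
    refine Finset.card_le_card_of_injOn (fun ε => 2 ^ T - 1 - ε) ?_ ?_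
    · intro ε hε
      have hε' := Finset.mem_filter.1 (Finset.mem_coe.1 hε)
      have hr := Finset.mem_range.1 hε'.1
      have hn := hε'.2
      have := pc_compl T ε hr
      refine Finset.mem_coe.2 (Finset.mem_filter.2 ⟨Finset.mem_range.2 ?_, ?_⟩)
      · show 2 ^ T - 1 - ε < 2 ^ T
        have hp : 0 < 2 ^ T := Nat.two_pow_pos T
        omega
      · show 2 * pc T (2 ^ T - 1 - ε) ≤ T
        omega
    · intro a ha b hb hab
      have ha' := Finset.mem_range.1 (Finset.mem_filter.1 (Finset.mem_coe.1 ha)).1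
      have hb' := Finset.mem_range.1 (Finset.mem_filter.1 (Finset.mem_coe.1 hb)).1
      have hab' : 2 ^ T - 1 - a = 2 ^ T - 1 - b := hab
      omega
  have h2 := Finset.card_filter_add_card_filter_not (s := Finset.range (2 ^ T))
    (fun ε => 2 * pc T ε ≤ T)
  rw [Finset.card_range] at h2
  omega

end GP48
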