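import Mathlib
import Pool.Agent.LibGP48.XDefs
import Pool.Agent.LibGP48.G1

/-!
# LibGP48 V5 (MEDIUM)

P is strictly decreasing on [0, N). Let c = Ch.card; c = 0 or 1: 2^0 = 1 <= ncard (wball S 0) (contains 1, finite: wball_finite; or G1 with t = 0). Otherwise enumerate Ch increasingly (Finset.orderEmbOfFin) and put e k = the element number c-1-k (so e 0 > e 1 > ...),
Q k = P (e k) for k < c (and Q k = ⊤ or P (e (c-1)) beyond). Q k < Q (k+1) for k+1 < c. Q (k+1) = closure (Q (k+1) n wball S M), so some b k in Q (k+1) n wball S M is not in Q k. G1 with t = c-1, l = M.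
(Alternative: induction on Ch by its minimum: statement: for every finset Ch and every ε0 < N, ε0 in Ch minimal, there are 2^(card-1) elements of wball inside P ε0. Choose what is easier.)
-/

namespace GP48

open Subgroup

/-- a strictly decreasing chain with many cheap members -/
theorem V5 {G : Type*} [Group G] {S : Set G} (hS : S.Finite) (N M : ℕ) (P : ℕ → Subgroup G)
    (hP : ∀ ε, ε + 1 < N → P (ε + 1) < P ε) (Ch : Finset ℕ)
    (hCh : ∀ ε ∈ Ch, ε < N ∧ P ε = closure ((P ε : Set G) ∩ wball S M)) :
    2 ^ (Ch.card - 1) ≤ (wball S ((Ch.card - 1) * M)).ncard := by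
  classical
  have hanti : ∀ i j, i < j → j < N → P j < P i := by
    intro i j hij
    induction j, hij using Nat.le_induction with
    | base => intro h; exact hP i h
    | succ j hj ih => intro h; exact (hP j h).trans (ih (by omega))
  set c := Ch.card with hc
  let f := Ch.orderEmbOfFin hc.symm
  let e : ℕ → ℕ := fun k => if h : k < c then f ⟨c - 1 - k, by omega⟩ else 0
  have he : ∀ k < c, e k ∈ Ch := by
    intro k hk
    have : e k = f ⟨c - 1 - k, by omega⟩ := dif_pos hk
    rw [this]
    exact Ch.orderEmbOfFin_mem hc.symm _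
  have hlt : ∀ k, k + 1 < c → e (k + 1) < e k := by
    intro k hk
    have h1 : e (k + 1) = f ⟨c - 1 - (k + 1), by omega⟩ := dif_pos hk
    have h2 : e k = f ⟨c - 1 - k, by omega⟩ := dif_pos (by omega)
    rw [h1, h2]
    apply f.strictMono
    rw [Fin.mk_lt_mk]
    omega
  have hb : ∀ k, ∃ b : G, k < c - 1 → b ∈ P (e (k + 1)) ∧ b ∉ P (e k) ∧ b ∈ wball S M := by
    intro k
    by_cases hk : k < c - 1
    · by_contra hcon
      have hcon2 : ∀ b : G, b ∈ P (e (k + 1)) → b ∈ wball S M → b ∈ P (e k) := by
        intro b h1 h2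
        by_contra h3
        exact hcon ⟨b, fun _ => ⟨h1, h3, h2⟩⟩
      have hle : P (e (k + 1)) ≤ P (e k) := by
        rw [(hCh _ (he (k + 1) (by omega))).2, closure_le]
        rintro b ⟨h1, h2⟩
        exact hcon2 b h1 h2
      have hlt' := hanti _ _ (hlt k (by omega)) (hCh _ (he k (by omega))).1
      exact absurd hle (not_le_of_gt hlt')
    · exact ⟨1, fun h => absurd h hk⟩
  choose b hb using hb
  refine G1 hS (c - 1) M (fun k => P (e k)) b (fun k hk => (hb k hk).1) (fun k hk => (hb k hk).2.1)
    (fun k hk => ?_) (fun k hk => (hb k hk).2.2)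
  exact (hanti _ _ (hlt k (by omega)) (hCh _ (he k (by omega))).1).le

end GP48
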