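import Mathlib
import Pool.Agent.LibGP48.XDefs

/-!
# LibGP48 V6 (MEDIUM (real analysis))

n0 from Gro; F = max of f n for n < n0. Suppose 2^t <= f(t M) with T large; 2^T <= 2(t+1) gives t >= 2^(T-1) - 1 >= 2^(T-2) (T >= 2), so t -> infinity with T. If t M < n0 then 2^t <= F, false for large T. Otherwise
t log 2 <= (t M)^β = t^β M^β (Real.mul_rpow), t^(1-β) log 2 <= M^β <= (3A)^β 2^((5/2) κ β T) (2^(κ T/2) (4^κ)^T = 2^((5/2) κ T)), and t^(1-β) >= 2^((T-2)(1-β)). So 2^(T ((1-β) - (5/2) κ β)) <= const, false for large T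
since (1-β) - (5/2) κ β > 0 (hβ).
-/

namespace GP48

open Subgroup

theorem V6 (f : ℕ → ℕ) (β κ A : ℝ) (h0 : 0 < β) (hκ : 1 ≤ κ) (hβ : (1 + 5 / 2 * κ) * β < 1)
    (hA : 0 < A) (h : Gro f β) : ∃ T0 : ℕ, ∀ T ≥ T0, ∀ t M : ℕ, 2 ^ T ≤ 2 * (t + 1) →
      (M : ℝ) ≤ 3 * A * (2 : ℝ) ^ (κ * T / 2) * ((4 : ℝ) ^ κ) ^ T → ¬ 2 ^ t ≤ f (t * M) := by
  obtain ⟨n0, hn0⟩ := Filter.eventually_atTop.mp h
  set F : ℕ := ∑ n ∈ Finset.range n0, f n with hFd
  have hF : ∀ n < n0, f n ≤ F := fun n hn =>
    Finset.single_le_sum (f := f) (fun i hi => Nat.zero_le (f i)) (Finset.mem_range.2 hn)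
  have hl2 : 0 < Real.log 2 := Real.log_pos (by norm_num)
  have hl4 : Real.log 4 = 2 * Real.log 2 := by
    have : (4 : ℝ) = 2 ^ 2 := by norm_num
    rw [this, Real.log_pow]
    push_cast
    ring
  set γ : ℝ := (1 - β) - 5 / 2 * κ * β with hγd
  have hγ : 0 < γ := by
    have : (1 + 5 / 2 * κ) * β = β + 5 / 2 * κ * β := by ring
    rw [hγd]
    linarith
  have hκβ : 0 < 5 / 2 * κ * β := by positivity
  have hβ1 : β < 1 := by
    rw [hγd] at hγ
    linarith
  set Cst : ℝ := β * Real.log (3 * A) + 2 * (1 - β) * Real.log 2 - Real.log (Real.log 2) with hC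
  obtain ⟨T1, hT1⟩ := exists_nat_gt (Cst / (γ * Real.log 2))
  refine ⟨F + 2 + T1, fun T hT t M ht hM hcon => ?_⟩
  have hT2 : 2 ≤ T := by omega
  have hpow : 2 ^ T = 4 * 2 ^ (T - 2) := by
    obtain ⟨s, rfl⟩ : ∃ s, T = s + 2 := ⟨T - 2, by omega⟩
    rw [Nat.add_sub_cancel]
    ring
  have hlt : T - 2 < 2 ^ (T - 2) := Nat.lt_two_pow_self
  have ht2 : 2 ^ (T - 2) ≤ t := by omega
  have htF : F ≤ t := by omega
  by_cases hc : t * M < n0
  · have h1 := hcon.trans (hF _ hc)
    have h2 : t < 2 ^ t := Nat.lt_two_pow_self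
    omega
  · have h1 := hn0 (t * M) (not_lt.1 hc)
    have h2 : (2 : ℝ) ^ t ≤ Real.exp (((t * M : ℕ) : ℝ) ^ β) := by
      refine le_trans ?_ h1
      exact_mod_cast hcon
    have h3 : (t : ℝ) * Real.log 2 ≤ ((t * M : ℕ) : ℝ) ^ β := by
      rw [← Real.log_pow, Real.log_le_iff_le_exp (by positivity)]
      exact h2
    have htpos : 0 < t := by omega
    have htR : (0 : ℝ) < t := by exact_mod_cast htpos
    have hM0 : 0 < M := by
      rcases Nat.eq_zero_or_pos M with h0' | h0'
      · exfalso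
        rw [h0', Nat.mul_zero, Nat.cast_zero, Real.zero_rpow h0.ne'] at h3
        have : 0 < (t : ℝ) * Real.log 2 := mul_pos htR hl2
        linarith
      · exact h0'
    have hMR : (0 : ℝ) < M := by exact_mod_cast hM0
    have h4 : Real.log t + Real.log (Real.log 2) ≤ β * (Real.log t + Real.log M) := by
      have h5 := Real.log_le_log (mul_pos htR hl2) h3
      push_cast at h5
      rw [Real.log_mul htR.ne' hl2.ne', Real.log_rpow (by positivity),
        Real.log_mul htR.ne' hMR.ne'] at h5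
      exact h5
    have h5 : Real.log M ≤ Real.log (3 * A) + 5 / 2 * κ * T * Real.log 2 := by
      have h6 := Real.log_le_log hMR hM
      rw [Real.log_mul (by positivity) (by positivity), Real.log_mul (by positivity) (by positivity),
        Real.log_rpow (by norm_num), Real.log_pow, Real.log_rpow (by norm_num), hl4] at h6
      linarith
    have h6 : ((T : ℝ) - 2) * Real.log 2 ≤ Real.log t := by
      have h7 : ((2 : ℝ) ^ (T - 2)) ≤ t := by exact_mod_cast ht2
      have h8 := Real.log_le_log (by positivity) h7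
      rw [Real.log_pow, Nat.cast_sub hT2] at h8
      exact_mod_cast h8
    have h7 : Cst < T * (γ * Real.log 2) := by
      have h8 : (T1 : ℝ) ≤ T := by
        have : T1 ≤ T := by omega
        exact_mod_cast this
      have h9 := hT1.trans_le h8
      rwa [div_lt_iff₀ (by positivity)] at h9
    have h8 : (1 - β) * (((T : ℝ) - 2) * Real.log 2) ≤ (1 - β) * Real.log t :=
      mul_le_mul_of_nonneg_left h6 (by linarith)
    have h9 : β * Real.log M ≤ β * (Real.log (3 * A) + 5 / 2 * κ * T * Real.log 2) :=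
      mul_le_mul_of_nonneg_left h5 h0.le
    have h10 : (T : ℝ) * (γ * Real.log 2) = (1 - β) * (((T : ℝ) - 2) * Real.log 2) +
        2 * (1 - β) * Real.log 2 - β * (5 / 2 * κ * T * Real.log 2) := by
      rw [hγd]
      ring
    rw [h10, hC] at h7
    have h11 : β * (Real.log t + Real.log M) = β * Real.log t + β * Real.log M := by ring
    have h12 : (1 - β) * Real.log t = Real.log t - β * Real.log t := by ring
    have h13 : β * (Real.log (3 * A) + 5 / 2 * κ * T * Real.log 2) =
        β * Real.log (3 * A) + β * (5 / 2 * κ * T * Real.log 2) := by ring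
    linarith

end GP48
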