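import Mathlib
import Pool.Agent.LibGP48.XDefs
import Pool.Agent.LibGP48.N1
import Pool.Agent.LibGP48.N2
import Pool.Agent.LibGP48.V2
import Pool.Agent.LibGP48.V3
import Pool.Agent.LibGP48.V4
import Pool.Agent.LibGP48.V5
import Pool.Agent.LibGP48.V6

/-!
# LibGP48 V7 (MEDIUM (assembly))

Choose κ > 1 with (1 + 5/2 κ) β < 1 (β < 2/7: (1+5/2) β < 1). N1: m0, CostH S κ m0; N2: μ. Suppose ds ⊤ T != ds ⊤ (T+1) for all T. D s = ds ⊤ (j+s), A = m0 * (4^κ)^j: Rch S (D s) (μ (j+s)), μ (j+s) <= A (4^κ)^s. T = T0 from V6 (or larger, T >= 1).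
P ε = Yc D T (D T) ε. V2 (X = D T): P normal, P (ε+1) <= ⁅P ε, D 0⁆ <= P ε (normal: commutator_le_left) for ε+1 < 2^T, and ⁅D T, D T⁆ = D (T+1) <= ⁅P (2^T-1), D 0⁆ <= P (2^T-1), so D (T+1) <= P ε for all ε < 2^T (descending).
Strict: if P (ε+1) = P ε then P ε = ⁅P ε, D 0⁆, so P ε = ic (D 0) (P ε) k for all k, P ε <= D 0 (P ε <= X = D T <= D 0), so P ε <= ic (D 0) (D 0) k <= ds ⊤ (j+T+2) for the k of hnil (j+T+2): D (T+1) <= D (T+2), so D (T+1) = D (T+2), contradiction.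
V3 (X = D T, a = μ (j+T), B = A (4^κ)^T): P ε has Rch with m' <= (2^κ)^(pc T ε) 3 A (4^κ)^T; for 2 pc T ε <= T: (2^κ)^(pc) <= 2^(κ T/2). M = ⌊3 A 2^(κT/2) (4^κ)^T⌋₊, Rch.mono. Ch = the filter of V4, V5 with N = 2^T: 2^t <= f(t M), t = card - 1, and
2^T <= 2 card = 2 (t+1) (card >= 1 as 2^T >= 1). Contradiction to V6.
-/

namespace GP48

open Subgroup

private theorem V7_Yc_le {G : Type*} [Group G] (D : ℕ → Subgroup G) (t : ℕ) :
    ∀ (X : Subgroup G), X.Normal → (∀ s, (D s).Normal) → ∀ ε, Yc D t X ε ≤ X := by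
  induction t with
  | zero => intro X _ _ ε; exact le_rfl
  | succ t ih =>
    intro X hX hD ε
    rw [Yc]
    split_ifs with h
    · exact ih X hX hD ε
    · have hXn : (⁅X, D t⁆ : Subgroup G).Normal := by
        haveI := hX
        haveI := hD t
        exact Subgroup.commutator_normal _ _
      haveI := hX
      exact (ih _ hXn hD _).trans (Subgroup.commutator_le_left X (D t))

private theorem V7_ic_le {G : Type*} [Group G] (N X : Subgroup G) (h : X ≤ ⁅X, N⁆) (k : ℕ) :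
    X ≤ ic N X k := by
  induction k with
  | zero => exact le_rfl
  | succ k ih =>
    rw [ic_succ]
    exact h.trans (Subgroup.commutator_mono ih le_rfl)

/-- the derived series stabilises -/
theorem V7 {G : Type*} [Group G] (S : Set G) (hSf : S.Finite) (hS : closure S = ⊤) (β : ℝ)
    (h0 : 0 < β) (h1 : β < 2 / 7) (hg : Gro (fun n => (wball S n).ncard) β) (j : ℕ)
    (hnil : ∀ l, NM (ds (⊤ : Subgroup G) j) (ds (⊤ : Subgroup G) l)) :
    ∃ T, ds (⊤ : Subgroup G) T = ds (⊤ : Subgroup G) (T + 1) := by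
  by_contra hcon
  push Not at hcon
  -- choice of κ
  obtain ⟨κ, hκ, hκβ⟩ : ∃ κ : ℝ, 1 < κ ∧ (1 + 5 / 2 * κ) * β < 1 := by
    refine ⟨1 + (1 - 7 / 2 * β) / (5 * β), ?_, ?_⟩
    · have : 0 < (1 - 7 / 2 * β) / (5 * β) := div_pos (by linarith) (by linarith)
      linarith
    · have e : (1 + 5 / 2 * (1 + (1 - 7 / 2 * β) / (5 * β))) * β = (1 + 7 / 2 * β) / 2 := by
        field_simp
        ring
      rw [e]
      linarith
  obtain ⟨m0, hm0, hC⟩ := N1 S hSf hS β h0 (by linarith) hg κ hκ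
  obtain ⟨μ, hμ⟩ := N2 hS hκ.le hm0 hC
  -- the sequence
  set D : ℕ → Subgroup G := fun s => ds (⊤ : Subgroup G) (j + s) with hDdef
  have hn : ∀ s, (D s).Normal := fun s => ds_normal _ _
  have hD : ∀ s, D (s + 1) = ⁅D s, D s⁆ := fun s => rfl
  have h4 : (0 : ℝ) < (4 : ℝ) ^ κ := Real.rpow_pos_of_pos (by norm_num) _
  have hm0' : (0 : ℝ) < m0 := by exact_mod_cast hm0
  set A : ℝ := m0 * ((4 : ℝ) ^ κ) ^ j with hAdef
  have hA : 0 < A := mul_pos hm0' (pow_pos h4 _)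
  have hDR : ∀ s, Rch S (D s) (μ (j + s)) := fun s => (hμ (j + s)).1
  have hμ0 : ∀ s, m0 ≤ μ (j + s) := fun s => (hμ (j + s)).2.1
  have hμA : ∀ s, (μ (j + s) : ℝ) ≤ A * ((4 : ℝ) ^ κ) ^ s := by
    intro s
    have := (hμ (j + s)).2.2
    rw [pow_add, ← mul_assoc] at this
    exact this
  obtain ⟨T, hT⟩ := V6 (fun n => (wball S n).ncard) β κ A h0 hκ.le hκβ hA hg
  have hT := hT T le_rfl
  -- the chain
  obtain ⟨hPn, hPc, hPl⟩ := V2 D hn hD T (D T) (hn T)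
  set P : ℕ → Subgroup G := fun ε => Yc D T (D T) ε with hPdef
  have hPX : ∀ ε, P ε ≤ D T := fun ε => V7_Yc_le D T (D T) (hn T) hn ε
  have hpos : 0 < 2 ^ T := Nat.two_pow_pos T
  have hlow : ∀ i, ∀ ε, ε + i + 1 = 2 ^ T → D (T + 1) ≤ ⁅P ε, D 0⁆ := by
    intro i
    induction i with
    | zero =>
      intro ε hε
      have : ε = 2 ^ T - 1 := by omega
      rw [hD T, this]
      exact hPl
    | succ i ih =>
      intro ε hε
      have h2 := ih (ε + 1) (by omega)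
      haveI := hPn (ε + 1)
      exact (h2.trans (Subgroup.commutator_le_left (P (ε + 1)) (D 0))).trans (hPc ε (by omega))
  have hstrict : ∀ ε, ε + 1 < 2 ^ T → P (ε + 1) < P ε := by
    intro ε hε
    haveI := hPn ε
    have hle : P (ε + 1) ≤ P ε := (hPc ε hε).trans (Subgroup.commutator_le_left (P ε) (D 0))
    refine lt_of_le_not_ge hle ?_
    intro hge
    have hPP : P ε ≤ ⁅P ε, D 0⁆ := hge.trans (hPc ε hε)
    obtain ⟨k, hk⟩ := hnil (j + T + 2)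
    have hD0 : D T ≤ D 0 := ds_antitone _ (by omega)
    have h5 : P ε ≤ ds (⊤ : Subgroup G) (j + T + 2) := by
      refine (V7_ic_le (D 0) (P ε) hPP k).trans ?_
      exact (ic_mono le_rfl ((hPX ε).trans hD0) k).trans hk
    have h6 : D (T + 1) ≤ P ε :=
      (hlow (2 ^ T - 1 - ε) ε (by omega)).trans (Subgroup.commutator_le_left (P ε) (D 0))
    have h7 : ds (⊤ : Subgroup G) (j + T + 1) ≤ ds (⊤ : Subgroup G) (j + T + 1 + 1) := h6.trans h5
    exact hcon (j + T + 1) (le_antisymm h7 (ds_succ_le _ _))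
  -- the costs
  set M : ℕ := ⌊3 * A * (2 : ℝ) ^ (κ * T / 2) * ((4 : ℝ) ^ κ) ^ T⌋₊ with hM
  have h2κ : (0 : ℝ) < (2 : ℝ) ^ (κ * T / 2) := Real.rpow_pos_of_pos (by norm_num) _
  have hMpos : (0 : ℝ) ≤ 3 * A * (2 : ℝ) ^ (κ * T / 2) * ((4 : ℝ) ^ κ) ^ T := by positivity
  have hCh : ∀ ε ∈ (Finset.range (2 ^ T)).filter (fun ε => 2 * pc T ε ≤ T),
      ε < 2 ^ T ∧ P ε = closure ((P ε : Set G) ∩ wball S M) := by
    intro ε hε
    rw [Finset.mem_filter, Finset.mem_range] at hε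
    refine ⟨hε.1, ?_⟩
    obtain ⟨m', -, hR, hm'⟩ := V3 hκ.le hC D (fun s => μ (j + s)) A hA.le hDR hμ0 hμA T (D T)
      (μ (j + T)) (A * ((4 : ℝ) ^ κ) ^ T) (hDR T) (hμ0 T) (hμA T) ε
    have hpc : ((2 : ℝ) ^ κ) ^ (pc T ε) ≤ (2 : ℝ) ^ (κ * T / 2) := by
      rw [← Real.rpow_natCast, ← Real.rpow_mul (by norm_num)]
      apply Real.rpow_le_rpow_of_exponent_le (by norm_num)
      have h8 : (2 : ℝ) * (pc T ε : ℝ) ≤ T := by exact_mod_cast hε.2
      nlinarith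
    have hb : (m' : ℝ) ≤ 3 * A * (2 : ℝ) ^ (κ * T / 2) * ((4 : ℝ) ^ κ) ^ T := by
      have h9 : (0 : ℝ) ≤ A * ((4 : ℝ) ^ κ) ^ T := by positivity
      calc (m' : ℝ) ≤ ((2 : ℝ) ^ κ) ^ (pc T ε) *
            (A * ((4 : ℝ) ^ κ) ^ T + 2 * A * ((4 : ℝ) ^ κ) ^ T) := hm'
        _ = ((2 : ℝ) ^ κ) ^ (pc T ε) * (3 * (A * ((4 : ℝ) ^ κ) ^ T)) := by ring
        _ ≤ (2 : ℝ) ^ (κ * T / 2) * (3 * (A * ((4 : ℝ) ^ κ) ^ T)) :=
            mul_le_mul_of_nonneg_right hpc (by linarith)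
        _ = 3 * A * (2 : ℝ) ^ (κ * T / 2) * ((4 : ℝ) ^ κ) ^ T := by ring
    exact (hR.mono (Nat.le_floor hb)).gen
  have hV5 := V5 hSf (2 ^ T) M P hstrict _ hCh
  have hV4 := V4 T
  refine hT _ M ?_ (Nat.floor_le hMpos) hV5
  have hc1 : 1 ≤ ((Finset.range (2 ^ T)).filter (fun ε => 2 * pc T ε ≤ T)).card := by omega
  omega

end GP48
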