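import Mathlib
import Pool.Agent.LibGP48.Defs

/-!
# LibGP48 H3 (SHORT/MEDIUM)

ic N N k <= U. The lower central series of N/U: lowerCentralSeries (N ⧸ U.subgroupOf N) k is the image of (ic N N k) (induction on k, Subgroup.map_commutator; or work with lowerCentralSeries N
and its map to G, equal to ic N N k, then the surjection to the quotient: lowerCentralSeries.map / Group.nilpotent...). Note lowerCentralSeries G 0 = ⊤, succ: ⁅lcs n, ⊤⁆.
-/

namespace GP48

open Subgroup

private theorem H3_lcs {G : Type*} [Group G] (N : Subgroup G) (k : ℕ) :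
    N.lowerCentralSeries k = ic N N k := by
  induction k with
  | zero => rfl
  | succ k ih => rw [Subgroup.lowerCentralSeries_succ, ih, ic_succ]

theorem H3 {G : Type*} [Group G] (N U : Subgroup G) [N.Normal] [U.Normal]
    (h : NM N U) : Group.IsNilpotent (N ⧸ U.subgroupOf N) := by
  obtain ⟨k, hk⟩ := h
  rw [Subgroup.nilpotent_iff_lowerCentralSeries]
  refine ⟨k, ?_⟩
  have h1 : (⊤ : Subgroup (N ⧸ U.subgroupOf N)) =
      (⊤ : Subgroup N).map (QuotientGroup.mk' (U.subgroupOf N)) :=
    (Subgroup.map_top_of_surjective _ (QuotientGroup.mk'_surjective _)).symm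
  rw [h1, ← Subgroup.map_lowerCentralSeries, eq_bot_iff]
  rintro _ ⟨x, hx, rfl⟩
  rw [Subgroup.mem_bot, QuotientGroup.mk'_apply, QuotientGroup.eq_one_iff,
    Subgroup.mem_subgroupOf]
  apply hk
  rw [← H3_lcs, ← Subgroup.top_subtype_lowerCentralSeries]
  exact Subgroup.mem_map_of_mem N.subtype hx

end GP48
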