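import Mathlib
import Pool.Agent.LibGP48.XDefs

/-!
# LibGP48 W1 (MEDIUM)

v = toAdd (ψ t), t in T. t in wball S a, g in wball S b for some a, b (closure S = ⊤: closure_induction with wball_mul, wball_inv, wball_gen). For ε : Fin n → Bool (or a finset of range n) put w_ε = prod_(i<n) g^i t^(ε_i) g^(-i) in T;
it equals t^(ε_0) g t^(ε_1) g ... t^(ε_(n-1)) g^(-(n-1))..., of length <= n (a+2b) (induction on n: for the partial product times g^n). toAdd (ψ w_ε) = sum_i ε_i (ρ g)^i v (eqv, map_prod/List). If all 2^n values differ then the w_ε are distinct and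
2^n <= (wball S (n(a+2b))).ncard <= exp((n(a+2b))^β) for n large (Gro): n log 2 <= (a+2b)^β n^β, false for large n since β < 1 (a+2b >= 1 w.l.o.g.; replace a by a+1). So two subsets ε != ε' give p = sum (ε_i - ε'_i) X^i, Sml, aeval (en (ρ g)) p v = 0
(en (ρ g) ^ i = (ρ g)^i as maps).
-/

namespace GP48

open Subgroup

section W1aux

variable {G : Type} [Group G] {T U : Subgroup G} {A : Type} [AddCommGroup A] (L : Lay T U A)
  (g : G) (t : T) (E : Finset ℕ)

/-- the partial products -/
private noncomputable def W1_w : ℕ → T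
  | 0 => 1
  | n + 1 => W1_w n * ⟨g ^ n * ((if n ∈ E then t else 1 : T) : G) * (g ^ n)⁻¹,
      L.nor.conj_mem _ (if n ∈ E then t else 1 : T).2 (g ^ n)⟩

private theorem W1_val (n : ℕ) : Multiplicative.toAdd (L.ψ (W1_w L g t E n)) =
    ∑ i ∈ Finset.range n, (if i ∈ E then L.ρ (g ^ i) (Multiplicative.toAdd (L.ψ t)) else 0) := by
  induction n with
  | zero => simp [W1_w]
  | succ n ih =>
    rw [W1_w, map_mul, toAdd_mul, ih, Finset.sum_range_succ, L.eqv]
    congr 1
    split_ifs <;> simp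

private theorem W1_len (S : Set G) {a b : ℕ} (hb : g ∈ wball S b) (ha : (t : G) ∈ wball S a)
    (n : ℕ) : ((W1_w L g t E n : T) : G) * g ^ n ∈ wball S (n * (a + b)) := by
  induction n with
  | zero => simpa [W1_w] using wball_one S 0
  | succ n ih =>
    have h1 : ((W1_w L g t E (n + 1) : T) : G) * g ^ (n + 1) =
        (((W1_w L g t E n : T) : G) * g ^ n) * ((((if n ∈ E then t else 1 : T) : G)) * g) := by
      rw [W1_w, Subgroup.coe_mul]
      change _ * (g ^ n * ((if n ∈ E then t else 1 : T) : G) * (g ^ n)⁻¹) * g ^ (n + 1) = _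
      rw [pow_succ]
      group
    rw [h1]
    have h2 : ((if n ∈ E then t else 1 : T) : G) ∈ wball S a := by
      split_ifs
      · exact ha
      · exact wball_one S a
    have h3 := wball_mul ih (wball_mul h2 hb)
    have h4 : n * (a + b) + (a + b) = (n + 1) * (a + b) := by ring
    rw [h4] at h3
    exact h3

private theorem W1_pow {S : Set G} {b : ℕ} {g : G} (hb : g ∈ wball S b) (n : ℕ) :
    g ^ n ∈ wball S (n * b) := by
  induction n with
  | zero => simpa using wball_one S 0
  | succ n ih =>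
    rw [pow_succ]
    have h3 := wball_mul ih hb
    have h4 : n * b + b = (n + 1) * b := by ring
    rw [h4] at h3
    exact h3

private theorem W1_len' (S : Set G) {a b : ℕ} (hb : g ∈ wball S b) (ha : (t : G) ∈ wball S a)
    (n : ℕ) : ((W1_w L g t E n : T) : G) ∈ wball S (n * (a + 2 * b)) := by
  have h1 := wball_mul (W1_len L g t E S hb ha n) (wball_inv (W1_pow hb n))
  rw [mul_inv_cancel_right] at h1
  have h2 : n * (a + b) + n * b = n * (a + 2 * b) := by ring
  rw [h2] at h1
  exact h1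

private theorem W1_mem {S : Set G} (hS : closure S = ⊤) (x : G) : ∃ a, x ∈ wball S a := by
  have hx : x ∈ closure S := by rw [hS]; exact Subgroup.mem_top x
  induction hx using Subgroup.closure_induction with
  | mem x hx => exact ⟨1, wball_gen hx⟩
  | one => exact ⟨0, wball_one S 0⟩
  | mul x y _ _ ihx ihy =>
    obtain ⟨a, ha⟩ := ihx
    obtain ⟨b, hb⟩ := ihy
    exact ⟨a + b, wball_mul ha hb⟩
  | inv x _ ihx =>
    obtain ⟨a, ha⟩ := ihx
    exact ⟨a, wball_inv ha⟩

private theorem W1_grow {f : ℕ → ℕ} {β : ℝ} (h0 : 0 < β) (h1 : β < 1) (hg : Gro f β) (c : ℕ)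
    (hc : 1 ≤ c) : ∃ n : ℕ, f (n * c) < 2 ^ n := by
  have hcr : (1 : ℝ) ≤ c := by exact_mod_cast hc
  have hl2 : 0 < Real.log 2 := Real.log_pos (by norm_num)
  have hT : Filter.Tendsto (fun n : ℕ => (n : ℝ) ^ (1 - β)) Filter.atTop Filter.atTop :=
    (tendsto_rpow_atTop (by linarith)).comp tendsto_natCast_atTop_atTop
  have hM : Filter.Tendsto (fun n : ℕ => n * c) Filter.atTop Filter.atTop :=
    Filter.tendsto_id.atTop_mul_const' (by omega)
  have e1 := hT.eventually_gt_atTop (c / Real.log 2)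
  have e2 := hM.eventually hg
  obtain ⟨n, ⟨h2, h3⟩, h4⟩ := ((e1.and e2).and (Filter.eventually_ge_atTop 1)).exists
  refine ⟨n, ?_⟩
  have hn : (0 : ℝ) < n := by exact_mod_cast h4
  have h5 : ((n * c : ℕ) : ℝ) ^ β < n * Real.log 2 := by
    push_cast
    rw [Real.mul_rpow hn.le (by linarith)]
    have h6 : (c : ℝ) ^ β ≤ c := by
      calc (c : ℝ) ^ β ≤ (c : ℝ) ^ (1 : ℝ) := Real.rpow_le_rpow_of_exponent_le hcr h1.le
        _ = c := Real.rpow_one _
    rw [div_lt_iff₀ hl2] at h2
    have h7 : (n : ℝ) ^ β * (n : ℝ) ^ (1 - β) = n := by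
      rw [← Real.rpow_add hn]
      simp
    have h8 : 0 < (n : ℝ) ^ β := Real.rpow_pos_of_pos hn _
    calc (n : ℝ) ^ β * (c : ℝ) ^ β ≤ (n : ℝ) ^ β * c := by gcongr
      _ < (n : ℝ) ^ β * ((n : ℝ) ^ (1 - β) * Real.log 2) := by gcongr
      _ = n * Real.log 2 := by rw [← mul_assoc, h7]
  have h6 : (f (n * c) : ℝ) < 2 ^ n := by
    calc (f (n * c) : ℝ) ≤ Real.exp (((n * c : ℕ) : ℝ) ^ β) := h3
      _ < Real.exp (n * Real.log 2) := Real.exp_lt_exp.2 h5
      _ = 2 ^ n := by
        rw [mul_comm, Real.exp_mul, Real.exp_log (by norm_num), Real.rpow_natCast]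
  exact_mod_cast h6

end W1aux

/-- relations with coefficients -1, 0, 1 -/
theorem W1 {G : Type} [Group G] (S : Set G) (hSf : S.Finite) (hS : closure S = ⊤) (β : ℝ)
    (h0 : 0 < β) (h1 : β < 1) (hg : Gro (fun n => (wball S n).ncard) β) (T U : Subgroup G)
    {A : Type} [AddCommGroup A] (L : Lay T U A) (g : G) (v : A) :
    ∃ p : Polynomial ℤ, Sml p ∧ Polynomial.aeval (en (L.ρ g)) p v = 0 := by
  obtain ⟨y, hy⟩ := L.sur (Multiplicative.ofAdd v)
  obtain ⟨a, ha⟩ := W1_mem hS (y : G)
  obtain ⟨b, hb⟩ := W1_mem hS g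
  have ha' : (y : G) ∈ wball S (a + 1) := wball_mono S (Nat.le_succ a) ha
  obtain ⟨n, hn⟩ := W1_grow h0 h1 hg (a + 1 + 2 * b) (by omega)
  have hv : Multiplicative.toAdd (L.ψ y) = v := by rw [hy]; rfl
  have hcard : (wball_finite hSf (n * (a + 1 + 2 * b))).toFinset.card <
      (Finset.range n).powerset.card := by
    rw [Finset.card_powerset, Finset.card_range, ← Set.ncard_eq_toFinset_card _ _]
    exact hn
  obtain ⟨E, hE, E', hE', hne, heq⟩ := Finset.exists_ne_map_eq_of_card_lt_of_maps_to hcard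
    (f := fun E => ((W1_w L g y E n : T) : G)) (fun E _ => by
      rw [Finset.mem_coe, Set.Finite.mem_toFinset]
      exact W1_len' L g y E S hb ha' n)
  have heq' : W1_w L g y E n = W1_w L g y E' n := Subtype.ext heq
  have hsum : ∑ i ∈ Finset.range n, (if i ∈ E then L.ρ (g ^ i) v else 0) =
      ∑ i ∈ Finset.range n, (if i ∈ E' then L.ρ (g ^ i) v else 0) := by
    have e1 := W1_val L g y E n
    have e2 := W1_val L g y E' n
    rw [hv] at e1 e2
    rw [← e1, ← e2, heq']
  let q : Polynomial ℤ := ∑ i ∈ Finset.range n,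
    Polynomial.C ((if i ∈ E then 1 else 0) - (if i ∈ E' then 1 else 0) : ℤ) * Polynomial.X ^ i
  have hq : ∀ i, q.coeff i = if i < n then
      ((if i ∈ E then 1 else 0) - (if i ∈ E' then 1 else 0) : ℤ) else 0 := by
    intro i
    simp only [q, Polynomial.finset_sum_coeff, Polynomial.coeff_C_mul_X_pow]
    rw [Finset.sum_ite_eq]
    simp
  rw [Finset.mem_powerset] at hE hE'
  refine ⟨q, ⟨?_, ?_⟩, ?_⟩
  · intro h
    apply hne
    ext i
    have h3 := hq i
    rw [h, Polynomial.coeff_zero] at h3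
    by_cases hi : i < n
    · rw [if_pos hi] at h3
      by_cases h4 : i ∈ E <;> by_cases h5 : i ∈ E' <;> simp [h4, h5] at h3 ⊢
    · have h4 : i ∉ E := fun h => hi (Finset.mem_range.1 (hE h))
      have h5 : i ∉ E' := fun h => hi (Finset.mem_range.1 (hE' h))
      simp [h4, h5]
  · intro i
    rw [hq]
    split_ifs <;> simp
  · have hpow : ∀ i : ℕ, ((en (L.ρ g)) ^ i) v = L.ρ (g ^ i) v := by
      intro i
      induction i with
      | zero => simp
      | succ i ih =>
        rw [pow_succ', Module.End.mul_apply, ih, pow_succ', map_mul]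
        rfl
    simp only [q, map_sum, map_mul, map_pow, Polynomial.aeval_X, Polynomial.aeval_C,
      LinearMap.sum_apply, Module.End.mul_apply, Module.algebraMap_end_apply, hpow]
    rw [← sub_eq_zero, ← Finset.sum_sub_distrib] at hsum
    rw [← hsum]
    refine Finset.sum_congr rfl fun i _ => ?_
    split_ifs <;> simp

end GP48
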