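import Mathlib
import Pool.Agent.LibGP48.XDefs

/-!
# LibGP48 W2 (MEDIUM)

Root bound: if Sml p and w in C with aeval w p = 0 then |w| < 2: d = natDegree, leading coefficient ±1, |w|^d <= sum_(i<d) |w|^i; if |w| >= 2 the sum is (|w|^d - 1)/(|w| - 1) <= |w|^d - 1, contradiction (d = 0: constant ±1 has no root).
Fix l >= 1. Basis b_j of A (Module.Free.chooseBasis), p_j for v = b_j. Q = prod_j p_j: aeval (φ^l) Q kills every b_j (commuting factors), so aeval (φ^l) Q = 0. Let M = matrix of φ over Z, z root of charpoly over C: there is a nonzero complex vector x with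
M x = z x (Matrix: det (z - M) = 0, Matrix.exists_mulVec_eq_zero_iff; or Module.End.hasEigenvalue_iff_isRoot_charpoly for the base change). Then 0 = (aeval (M^l) Q) x = Q(z^l) x, so Q(z^l) = 0, so p_j(z^l) = 0 for some j and |z|^l < 2. For all l >= 1: |z| <= 1.
-/

namespace GP48

open Subgroup

private lemma W2_geom (r : ℝ) (hr : 2 ≤ r) (d : ℕ) : ∑ i ∈ Finset.range d, r ^ i + 1 ≤ r ^ d := by
  induction d with
  | zero => simp
  | succ d ih =>
    rw [Finset.sum_range_succ, pow_succ]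
    have h1 : 0 ≤ r ^ d := by positivity
    nlinarith

private lemma W2_root (p : Polynomial ℤ) (hp : Sml p) (w : ℂ) (hw : Polynomial.aeval w p = 0) :
    ‖w‖ < 2 := by
  by_contra hcon
  rw [not_lt] at hcon
  have h1 := W2_geom ‖w‖ hcon p.natDegree
  rw [Polynomial.aeval_eq_sum_range, Finset.sum_range_succ] at hw
  have hlc : p.coeff p.natDegree ≠ 0 := by
    rw [Polynomial.coeff_natDegree]
    exact Polynomial.leadingCoeff_ne_zero.2 hp.1
  have hn : ∀ i, ‖(p.coeff i • w ^ i : ℂ)‖ ≤ ‖w‖ ^ i := by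
    intro i
    rw [zsmul_eq_mul, norm_mul, norm_pow]
    have : ‖((p.coeff i : ℤ) : ℂ)‖ ≤ 1 := by
      rcases hp.2 i with h | h | h <;> rw [h] <;> simp
    calc ‖((p.coeff i : ℤ) : ℂ)‖ * ‖w‖ ^ i ≤ 1 * ‖w‖ ^ i :=
          mul_le_mul_of_nonneg_right this (by positivity)
      _ = ‖w‖ ^ i := one_mul _
  have htop : ‖(p.coeff p.natDegree • w ^ p.natDegree : ℂ)‖ = ‖w‖ ^ p.natDegree := by
    rw [zsmul_eq_mul, norm_mul, norm_pow]
    have : ‖((p.coeff p.natDegree : ℤ) : ℂ)‖ = 1 := by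
      rcases hp.2 p.natDegree with h | h | h
      · rw [h]; simp
      · exact absurd h hlc
      · rw [h]; simp
    rw [this, one_mul]
  have h2 : ‖w‖ ^ p.natDegree ≤ ∑ i ∈ Finset.range p.natDegree, ‖w‖ ^ i := by
    rw [← htop]
    have h3 : (p.coeff p.natDegree • w ^ p.natDegree : ℂ) =
        -∑ i ∈ Finset.range p.natDegree, p.coeff i • w ^ i := by
      rw [eq_neg_iff_add_eq_zero, add_comm]
      exact hw
    rw [h3, norm_neg]
    exact (norm_sum_le _ _).trans (Finset.sum_le_sum fun i _ => hn i)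
  linarith

theorem W2 {A : Type} [AddCommGroup A] [Module.Free ℤ A] [Module.Finite ℤ A]
    (φ : Module.End ℤ A)
    (h : ∀ v : A, ∀ l : ℕ, 1 ≤ l → ∃ p : Polynomial ℤ, Sml p ∧
      Polynomial.aeval (φ ^ l) p v = 0) :
    ∀ z : ℂ, (φ.charpoly.map (algebraMap ℤ ℂ)).IsRoot z → ‖z‖ ≤ 1 := by
  classical
  intro z hz
  have hkey : ∀ l : ℕ, 1 ≤ l → ‖z‖ ^ l < 2 := by
    intro l hl
    choose p hp hpv using fun j => h (Module.Free.chooseBasis ℤ A j) l hl
    obtain ⟨Q, hQ⟩ : ∃ Q : Polynomial ℤ, Q = ∏ j, p j := ⟨_, rfl⟩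
    have hQ0 : Polynomial.aeval (φ ^ l) Q = 0 := by
      refine (Module.Free.chooseBasis ℤ A).ext fun j => ?_
      rw [hQ, ← Finset.prod_erase_mul _ _ (Finset.mem_univ j), map_mul, Module.End.mul_apply, hpv,
        map_zero, LinearMap.zero_apply]
    have hP0 : Polynomial.aeval φ (Polynomial.expand ℤ l Q) = 0 := by
      rw [Polynomial.expand_aeval, hQ0]
    have hroot : (LinearMap.charpoly (LinearMap.baseChange ℂ φ)).IsRoot z := by
      rw [LinearMap.charpoly_baseChange]
      exact hz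
    have heig : Module.End.HasEigenvalue (LinearMap.baseChange ℂ φ) z :=
      (Module.End.hasEigenvalue_iff_isRoot_charpoly _ _).2 hroot
    have hmin := Module.End.hasEigenvalue_iff_isRoot.1 heig
    have hC0 : Polynomial.aeval (LinearMap.baseChange ℂ φ)
        ((Polynomial.expand ℤ l Q).map (algebraMap ℤ ℂ)) = 0 := by
      rw [Polynomial.aeval_map_algebraMap]
      have h1 := Polynomial.aeval_algHom_apply (Module.End.baseChangeHom ℤ ℂ A) φ
        (Polynomial.expand ℤ l Q)
      rw [hP0, map_zero] at h1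
      exact h1
    have hdvd := minpoly.dvd ℂ (LinearMap.baseChange ℂ φ) hC0
    have hz2 := hmin.dvd hdvd
    have hz3 : Polynomial.aeval (z ^ l) Q = 0 := by
      rw [← Polynomial.expand_aeval, ← Polynomial.eval_map_algebraMap]
      exact hz2
    rw [hQ, map_prod, Finset.prod_eq_zero_iff] at hz3
    obtain ⟨j, _, hj⟩ := hz3
    rw [← norm_pow]
    exact W2_root (p j) (hp j) _ hj
  by_contra hcon
  rw [not_le] at hcon
  obtain ⟨n, hn⟩ := pow_unbounded_of_one_lt 2 hcon
  have hn1 : 1 ≤ n := by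
    rcases Nat.eq_zero_or_pos n with h0 | h0
    · rw [h0, pow_zero] at hn
      norm_num at hn
    · exact h0
  exact absurd (hkey n hn1) (not_lt.2 hn.le)

end GP48
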