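import Mathlib
import Pool.Agent.LibGP48.XDefs

/-!
# LibGP48 W3 (MEDIUM)

Choose a basis, matrices over Z: Φ = 1 + 3 Ψ. If w is a complex root of the charpoly of Ψ then 1 + 3 w is a root of the charpoly of Φ (eigenvector), so |1+3w| <= 1, |w| <= 2/3 < 1. The charpoly of Ψ is monic in Z[X]; write it as X^k q with q(0) != 0
(Polynomial: rootMultiplicity 0 / exists_eq_pow_mul_and_not_dvd). Over C, q(0) = ± product of its roots (q monic, splits: Polynomial.prod_roots_eq_coeff_zero_of_monic_of_splits or coeff_zero_eq_prod_roots), so if q has positive degree 0 < |q(0)| < 1, impossible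
for an integer. So the charpoly is X^k and Ψ^k = 0 (Cayley-Hamilton, LinearMap.aeval_self_charpoly).
-/

namespace GP48

open Subgroup

theorem W3 {A : Type} [AddCommGroup A] [Module.Free ℤ A] [Module.Finite ℤ A]
    (φ ψ : Module.End ℤ A) (h : φ = 1 + (3 : ℤ) • ψ)
    (hz : ∀ z : ℂ, (φ.charpoly.map (algebraMap ℤ ℂ)).IsRoot z → ‖z‖ ≤ 1) : IsNilpotent ψ := by
  classical
  let b := Module.Free.chooseBasis ℤ A
  let M := LinearMap.toMatrix b b ψ
  let MC : Matrix _ _ ℂ := M.map (algebraMap ℤ ℂ)
  have hN : LinearMap.toMatrix b b φ = 1 + (3 : ℤ) • M := by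
    rw [h, map_add, map_smul, LinearMap.toMatrix_one]
  have hψ : ψ.charpoly.map (algebraMap ℤ ℂ) = MC.charpoly := by
    rw [← LinearMap.charpoly_toMatrix ψ b, ← Matrix.charpoly_map]
  have hφ : φ.charpoly.map (algebraMap ℤ ℂ) = (1 + (3 : ℂ) • MC).charpoly := by
    rw [← LinearMap.charpoly_toMatrix φ b, ← Matrix.charpoly_map, hN]
    congr 1
    ext i j
    simp only [MC, Matrix.map_apply, Matrix.add_apply, Matrix.smul_apply, map_add, smul_eq_mul,
      map_mul, Matrix.one_apply]
    split_ifs <;> simp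
  have hroot : ∀ w : ℂ, (ψ.charpoly.map (algebraMap ℤ ℂ)).IsRoot w → ‖w‖ < 1 := by
    intro w hw
    rw [hψ, Polynomial.IsRoot.def, Matrix.eval_charpoly] at hw
    have h1 : (φ.charpoly.map (algebraMap ℤ ℂ)).IsRoot (1 + 3 * w) := by
      rw [hφ, Polynomial.IsRoot.def, Matrix.eval_charpoly]
      have h2 : (Matrix.scalar (Module.Free.ChooseBasisIndex ℤ A)) (1 + 3 * w) -
          (1 + (3 : ℂ) • MC) =
          (3 : ℂ) • ((Matrix.scalar (Module.Free.ChooseBasisIndex ℤ A)) w - MC) := by
        rw [map_add, map_one, map_mul, smul_sub]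
        have h3 : (Matrix.scalar (Module.Free.ChooseBasisIndex ℤ A)) (3 : ℂ) *
            (Matrix.scalar (Module.Free.ChooseBasisIndex ℤ A)) w =
            (3 : ℂ) • (Matrix.scalar (Module.Free.ChooseBasisIndex ℤ A)) w := by
          rw [← map_mul]
          ext i j
          simp [Matrix.scalar_apply, Matrix.diagonal_apply]
        rw [h3]
        abel
      rw [h2, Matrix.det_smul, hw, mul_zero]
    have h4 := hz _ h1
    have h5 : ‖(3 : ℂ) * w‖ ≤ ‖1 + 3 * w‖ + ‖(1 : ℂ)‖ := by
      have := norm_sub_le (1 + 3 * w) 1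
      rwa [add_sub_cancel_left] at this
    rw [norm_mul, norm_one] at h5
    have h6 : ‖(3 : ℂ)‖ = 3 := by norm_num
    rw [h6] at h5
    linarith
  have hmon : ψ.charpoly.Monic := ψ.charpoly_monic
  obtain ⟨q, hq, hqd⟩ := Polynomial.exists_eq_pow_rootMultiplicity_mul_and_not_dvd ψ.charpoly
    hmon.ne_zero 0
  rw [Polynomial.C_0, sub_zero] at hq hqd
  generalize Polynomial.rootMultiplicity 0 ψ.charpoly = k at hq
  have hqm : q.Monic := (Polynomial.monic_X_pow k).of_mul_monic_left (by rw [← hq]; exact hmon)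
  have hq0 : q.coeff 0 ≠ 0 := fun h0 => hqd (Polynomial.X_dvd_iff.2 h0)
  have hq1 : q = 1 := by
    by_contra hne
    have hqmC : (q.map (algebraMap ℤ ℂ)).Monic := hqm.map _
    have hsp : (q.map (algebraMap ℤ ℂ)).Splits := IsAlgClosed.splits _
    have h7 := hsp.coeff_zero_eq_prod_roots_of_monic hqmC
    have hcard : Multiset.card (q.map (algebraMap ℤ ℂ)).roots ≠ 0 := by
      rw [← hsp.natDegree_eq_card_roots, hqm.natDegree_map]
      intro h8
      exact hne (hqm.natDegree_eq_zero.1 h8)
    have hlt : ∀ s : Multiset ℂ, Multiset.card s ≠ 0 → (∀ z ∈ s, ‖z‖ < 1) → ‖s.prod‖ < 1 := by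
      intro s
      induction s using Multiset.induction with
      | empty => intro h9; simp at h9
      | cons a s ih =>
        intro _ h10
        rw [Multiset.prod_cons, norm_mul]
        have h11 := h10 a (Multiset.mem_cons_self a s)
        by_cases hs : Multiset.card s = 0
        · rw [Multiset.card_eq_zero.1 hs]
          simpa using h11
        · have h12 := ih hs fun z hz => h10 z (Multiset.mem_cons_of_mem hz)
          calc ‖a‖ * ‖s.prod‖ ≤ ‖a‖ * 1 := by gcongr
            _ < 1 := by rw [mul_one]; exact h11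
    have h13 : ‖(q.map (algebraMap ℤ ℂ)).roots.prod‖ < 1 := by
      refine hlt _ hcard fun z hz' => hroot z ?_
      rw [Polynomial.mem_roots hqmC.ne_zero] at hz'
      rw [hq, Polynomial.map_mul, Polynomial.IsRoot.def, Polynomial.eval_mul,
        Polynomial.IsRoot.def.1 hz', mul_zero]
    have h14 : ‖(q.map (algebraMap ℤ ℂ)).coeff 0‖ < 1 := by
      rw [h7, norm_mul, norm_pow, norm_neg, norm_one, one_pow, one_mul]
      exact h13
    rw [Polynomial.coeff_map] at h14
    have h15 : |q.coeff 0| < 1 := by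
      have h16 : ‖(algebraMap ℤ ℂ) (q.coeff 0)‖ = |((q.coeff 0 : ℤ) : ℝ)| := by
        rw [eq_intCast]
        exact Complex.norm_intCast _
      rw [h16] at h14
      exact_mod_cast h14
    exact hq0 (Int.abs_lt_one_iff.1 h15)
  refine ⟨k, ?_⟩
  have h17 := LinearMap.aeval_self_charpoly ψ
  rw [hq, hq1, mul_one, map_pow, Polynomial.aeval_X] at h17
  exact h17

end GP48
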