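import Mathlib
import Pool.Agent.LibGP48.XDefs

/-!
# LibGP48 W4 (MEDIUM/STRONG)

(a) Claim: if B <= A is a nonzero subgroup invariant under N (ρ h B = B for h in N) then some b != 0 in B is fixed by N. Induction on e with ds N e acting trivially (N normal is not needed, ds N 1 is normal in N): e = 0: N acts trivially. Step: B' = fixed points of ds N 1 in B,
nonzero by induction (for the group ds N 1), N-invariant (normality of ds N 1 in N: conjugates), on B' the operators ρ h, h in N, commute (commutators act trivially). Among the nonzero N-invariant subgroups of B' choose one, C, of minimal rank (finrank ℤ); for h in N: n = ρ h - 1 is nilpotent,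
commutes with N on B', so ker n in C is N-invariant and nonzero (nilpotent), so has the same rank as C, and C/ker is torsion free (embeds in A via n), so ker = C... (rank of C = rank ker + rank image, so the image n(C) has rank 0, it is a subgroup of the torsion free A, so n(C) = 0.)
So C is fixed by N. (b) Induction on the rank of A for the statement of the theorem (A free finite): if A != 0 the fixed subgroup F = A^N is nonzero and A/F is torsion free (n a fixed, n != 0 implies a fixed, as A is torsion free), finitely generated, so free of smaller rank;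
ρ induces ρ' on A/F (N normal in G, so F is G-invariant; or do the induction for N only, with G replaced by N: ρ restricted), unipotent and soluble; au ρ' N k = ⊥ gives au ρ N k <= F and au ρ N (k+1) = ⊥.
-/

namespace GP48

open Subgroup

private lemma W4_bra {G : Type} [Group G] (N : Subgroup G) {a b : G} (ha : a ∈ N) (hb : b ∈ N) :
    a * b * a⁻¹ * b⁻¹ ∈ ⁅N, N⁆ := by
  have := Subgroup.commutator_mem_commutator ha hb
  rwa [commutatorElement_def] at this

private lemma W4_comm {G : Type} [Group G] {M : Type} [AddCommGroup M] [Module.Finite ℤ M]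
    [Module.IsTorsionFree ℤ M] (σ : G →* Module.End ℤ M)
    (N : Subgroup G) (hu : ∀ h ∈ N, IsNilpotent (σ h - 1)) :
    ∀ (r : ℕ) (C : Submodule ℤ M), Module.finrank ℤ C ≤ r → C ≠ ⊥ →
      (∀ h ∈ N, ∀ c ∈ C, σ h c ∈ C) →
      (∀ g ∈ N, ∀ h ∈ N, ∀ c ∈ C, σ g (σ h c) = σ h (σ g c)) →
      ∃ b ∈ C, b ≠ 0 ∧ ∀ h ∈ N, σ h b = b := by
  intro r
  induction r with
  | zero =>
    intro C hr hC _ _
    exfalso
    have h0 : Module.finrank ℤ C = 0 := by omega
    have h1 : Subsingleton C := Module.finrank_zero_iff.1 h0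
    apply hC
    exact (Submodule.subsingleton_iff_eq_bot).1 h1
  | succ r ih =>
    intro C hr hC hinv hcom
    by_cases hall : ∀ h ∈ N, ∀ c ∈ C, σ h c = c
    · obtain ⟨b, hb, hb0⟩ := (Submodule.ne_bot_iff C).1 hC
      exact ⟨b, hb, hb0, fun h hh => hall h hh b hb⟩
    · push Not at hall
      obtain ⟨h, hh, c0, hc0, hne⟩ := hall
      let n : M →ₗ[ℤ] M := σ h - 1
      have hnap : ∀ x, n x = σ h x - x := fun x => rfl
      have hnC : ∀ c ∈ C, n c ∈ C := fun c hc => by
        rw [hnap]; exact C.sub_mem (hinv h hh c hc) hc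
      let f : C →ₗ[ℤ] M := n.domRestrict C
      have hf : ∀ x : C, f x = n x := fun x => rfl
      have hrn : Module.finrank ℤ (LinearMap.range f) + Module.finrank ℤ (LinearMap.ker f) =
          Module.finrank ℤ C := by
        rw [← (LinearMap.ker f).finrank_quotient_add_finrank,
          LinearEquiv.finrank_eq f.quotKerEquivRange]
      have hrange : 0 < Module.finrank ℤ (LinearMap.range f) := by
        rw [Module.finrank_pos_iff_exists_ne_zero]
        refine ⟨⟨f ⟨c0, hc0⟩, LinearMap.mem_range_self f _⟩, ?_⟩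
        intro h0
        apply hne
        have h1 : f ⟨c0, hc0⟩ = 0 := congrArg Subtype.val h0
        rw [hf, hnap] at h1
        exact sub_eq_zero.1 h1
      let K : Submodule ℤ M := (LinearMap.ker f).map C.subtype
      have hKmem : ∀ x, x ∈ K ↔ x ∈ C ∧ n x = 0 := by
        intro x
        constructor
        · rintro ⟨y, hy, rfl⟩
          exact ⟨y.2, by simpa [hf] using hy⟩
        · rintro ⟨hx, hx0⟩
          exact ⟨⟨x, hx⟩, by simpa [hf] using hx0, rfl⟩
      have hKr : Module.finrank ℤ K = Module.finrank ℤ (LinearMap.ker f) :=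
        (LinearEquiv.finrank_eq (Submodule.equivMapOfInjective C.subtype
          C.injective_subtype (LinearMap.ker f))).symm
      have hK0 : K ≠ ⊥ := by
        obtain ⟨b, hb, hb0⟩ := (Submodule.ne_bot_iff C).1 hC
        obtain ⟨k, hk⟩ := hu h hh
        have hex : ∃ m, (n ^ m) b = 0 := ⟨k, by
          have : (n : Module.End ℤ M) ^ k = 0 := hk
          rw [this]; rfl⟩
        classical
        have hfind := Nat.find_spec hex
        have hmin : ∀ m < Nat.find hex, ¬ (n ^ m) b = 0 := fun m hm => Nat.find_min hex hm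
        have hpos : Nat.find hex ≠ 0 := by
          intro h0
          rw [h0] at hfind
          exact hb0 (by simpa using hfind)
        obtain ⟨m, hm⟩ := Nat.exists_eq_succ_of_ne_zero hpos
        have hmC : ∀ m, (n ^ m) b ∈ C := by
          intro m
          induction m with
          | zero => simpa using hb
          | succ m ihm => rw [pow_succ']; exact hnC _ ihm
        rw [Submodule.ne_bot_iff]
        refine ⟨(n ^ m) b, (hKmem _).2 ⟨hmC m, ?_⟩, hmin m (by omega)⟩
        rw [hm, pow_succ'] at hfind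
        exact hfind
      have hKle : ∀ x ∈ K, x ∈ C := fun x hx => ((hKmem x).1 hx).1
      obtain ⟨b, hb, hb0, hbf⟩ := ih K (by omega) hK0 (by
          intro g hg x hx
          rw [hKmem] at hx ⊢
          refine ⟨hinv g hg x hx.1, ?_⟩
          rw [hnap, ← hcom g hg h hh x hx.1]
          have h1 : σ h x = x := by
            have := hx.2
            rw [hnap] at this
            exact sub_eq_zero.1 this
          rw [h1, sub_self]) (fun g hg g' hg' x hx => hcom g hg g' hg' x (hKle x hx))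
      exact ⟨b, hKle b hb, hb0, hbf⟩

private lemma W4_kol {G : Type} [Group G] {M : Type} [AddCommGroup M] [Module.Finite ℤ M]
    [Module.IsTorsionFree ℤ M] (σ : G →* Module.End ℤ M) (e : ℕ) :
    ∀ N : Subgroup G, (∀ h ∈ N, IsNilpotent (σ h - 1)) → (∀ h ∈ ds N e, σ h = 1) →
      ∀ B : Submodule ℤ M, B ≠ ⊥ → (∀ h ∈ N, ∀ b ∈ B, σ h b ∈ B) →
      ∃ b ∈ B, b ≠ 0 ∧ ∀ h ∈ N, σ h b = b := by
  induction e with
  | zero =>
    intro N _ hs B hB _
    obtain ⟨b, hb, hb0⟩ := (Submodule.ne_bot_iff B).1 hB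
    refine ⟨b, hb, hb0, fun h hh => ?_⟩
    rw [hs h hh]; rfl
  | succ e ih =>
    intro N hu hs B hB hinv
    have hle : ⁅N, N⁆ ≤ N := comm_le_self N
    have hds : ds N (e + 1) = ds ⁅N, N⁆ e := by
      have := ds_add N 1 e
      rw [Nat.add_comm] at this
      rw [this]; rfl
    obtain ⟨b1, hb1, hb10, hb1f⟩ := ih ⁅N, N⁆ (fun h hh => hu h (hle hh))
      (fun h hh => hs h (by rw [hds]; exact hh)) B hB (fun h hh => hinv h (hle hh))
    let B' : Submodule ℤ M :=
      { carrier := {b | b ∈ B ∧ ∀ h ∈ ⁅N, N⁆, σ h b = b}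
        add_mem' := by
          rintro a b ⟨ha, ha'⟩ ⟨hb, hb'⟩
          exact ⟨B.add_mem ha hb, fun h hh => by rw [map_add, ha' h hh, hb' h hh]⟩
        zero_mem' := ⟨B.zero_mem, fun h _ => map_zero _⟩
        smul_mem' := by
          rintro c a ⟨ha, ha'⟩
          exact ⟨B.smul_mem c ha, fun h hh => by rw [map_smul, ha' h hh]⟩ }
    have hB'mem : ∀ b, b ∈ B' ↔ b ∈ B ∧ ∀ h ∈ ⁅N, N⁆, σ h b = b := fun b => Iff.rfl
    have hmul : ∀ g h x, σ (g * h) x = σ g (σ h x) := fun g h x => by rw [map_mul]; rfl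
    have hB'0 : B' ≠ ⊥ := by
      rw [Submodule.ne_bot_iff]
      exact ⟨b1, (hB'mem _).2 ⟨hb1, hb1f⟩, hb10⟩
    have hinv' : ∀ h ∈ N, ∀ b ∈ B', σ h b ∈ B' := by
      intro g hg b hb
      rw [hB'mem] at hb ⊢
      refine ⟨hinv g hg b hb.1, ?_⟩
      intro h hh
      have h1 : g⁻¹ * h * g ∈ ⁅N, N⁆ := by
        have h2 : g⁻¹ * h * g = (g⁻¹ * h * g⁻¹⁻¹ * h⁻¹) * h := by group
        rw [h2]
        exact mul_mem (W4_bra N (inv_mem hg) (hle hh)) hh
      have h3 : h * g = g * (g⁻¹ * h * g) := by group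
      rw [← hmul, h3, hmul, hb.2 _ h1]
    have hcom' : ∀ g ∈ N, ∀ h ∈ N, ∀ c ∈ B', σ g (σ h c) = σ h (σ g c) := by
      intro g hg h hh c hc
      have h1 : g * h = h * g * (g⁻¹ * h⁻¹ * g⁻¹⁻¹ * h⁻¹⁻¹) := by group
      rw [← hmul, ← hmul, h1, hmul, hc.2 _ (W4_bra N (inv_mem hg) (inv_mem hh))]
    obtain ⟨b, hb, hb0, hbf⟩ := W4_comm σ N hu _ B' le_rfl hB'0 hinv' hcom'
    exact ⟨b, hb.1, hb0, hbf⟩

private def W4_up {G : Type} [Group G] {A : Type} [AddCommGroup A]
    (ρ : G →* (A ≃ₗ[ℤ] A)) (N : Subgroup G) : ℕ → Submodule ℤ A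
  | 0 => ⊥
  | i + 1 =>
    { carrier := {a | ∀ h ∈ N, ρ h a - a ∈ W4_up ρ N i}
      add_mem' := by
        intro a b ha hb h hh
        have h1 : ρ h (a + b) - (a + b) = (ρ h a - a) + (ρ h b - b) := by
          rw [map_add]; abel
        rw [h1]
        exact (W4_up ρ N i).add_mem (ha h hh) (hb h hh)
      zero_mem' := by
        intro h _
        rw [map_zero, sub_zero]
        exact (W4_up ρ N i).zero_mem
      smul_mem' := by
        intro c a ha h hh
        have h1 : ρ h (c • a) - c • a = c • (ρ h a - a) := by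
          rw [map_smul, smul_sub]
        rw [h1]
        exact (W4_up ρ N i).smul_mem c (ha h hh) }

private lemma W4_up_mem {G : Type} [Group G] {A : Type} [AddCommGroup A]
    (ρ : G →* (A ≃ₗ[ℤ] A)) (N : Subgroup G) (i : ℕ) (a : A) :
    a ∈ W4_up ρ N (i + 1) ↔ ∀ h ∈ N, ρ h a - a ∈ W4_up ρ N i := Iff.rfl

private lemma W4_up_le {G : Type} [Group G] {A : Type} [AddCommGroup A]
    (ρ : G →* (A ≃ₗ[ℤ] A)) (N : Subgroup G) (i : ℕ) :
    W4_up ρ N i ≤ W4_up ρ N (i + 1) := by
  induction i with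
  | zero => exact bot_le
  | succ i ih =>
    intro a ha
    rw [W4_up_mem]
    intro h hh
    exact ih ((W4_up_mem ρ N i a).1 ha h hh)

private lemma W4_up_inv {G : Type} [Group G] {A : Type} [AddCommGroup A]
    (ρ : G →* (A ≃ₗ[ℤ] A)) (N : Subgroup G) (hN : N.Normal) (i : ℕ) :
    ∀ (g : G) (a : A), a ∈ W4_up ρ N i → ρ g a ∈ W4_up ρ N i := by
  induction i with
  | zero =>
    intro g a ha
    have h1 : a = 0 := ha
    rw [h1, map_zero]
    exact Submodule.zero_mem _
  | succ i ih =>
    intro g a ha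
    rw [W4_up_mem] at ha ⊢
    intro h hh
    have h1 : g⁻¹ * h * g ∈ N := by
      have := hN.conj_mem h hh g⁻¹
      rwa [inv_inv] at this
    have h2 : ρ h (ρ g a) - ρ g a = ρ g (ρ (g⁻¹ * h * g) a - a) := by
      have h3 : ρ h (ρ g a) = ρ g (ρ (g⁻¹ * h * g) a) := by
        have h4 : ρ (h * g) a = ρ (g * (g⁻¹ * h * g)) a := by
          congr 2; group
        rw [map_mul, map_mul] at h4
        exact h4
      rw [map_sub, h3]
    rw [h2]
    exact ih g _ (ha _ h1)

private lemma W4_up_pure {G : Type} [Group G] {A : Type} [AddCommGroup A]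
    [Module.IsTorsionFree ℤ A]
    (ρ : G →* (A ≃ₗ[ℤ] A)) (N : Subgroup G) (i : ℕ) :
    ∀ (n : ℤ) (a : A), n ≠ 0 → n • a ∈ W4_up ρ N i → a ∈ W4_up ρ N i := by
  induction i with
  | zero =>
    intro n a hn ha
    have h1 : n • a = 0 := ha
    rcases smul_eq_zero.1 h1 with h | h
    · exact absurd h hn
    · rw [h]; exact Submodule.zero_mem _
  | succ i ih =>
    intro n a hn ha
    rw [W4_up_mem] at ha ⊢
    intro h hh
    refine ih n _ hn ?_
    have h1 := ha h hh
    rwa [map_smul, ← smul_sub] at h1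

private lemma W4_up_lt {G : Type} [Group G] {A : Type} [AddCommGroup A] [Module.Free ℤ A]
    [Module.Finite ℤ A] (ρ : G →* (A ≃ₗ[ℤ] A)) (N : Subgroup G) (hN : N.Normal)
    (hu : ∀ h ∈ N, IsNilpotent (en (ρ h) - 1)) (hs : ∃ e, ∀ h ∈ ds N e, ρ h = 1) (i : ℕ)
    (hi : W4_up ρ N i ≠ ⊤) : W4_up ρ N i ≠ W4_up ρ N (i + 1) := by
  obtain ⟨e, he⟩ := hs
  let U : Submodule ℤ A := W4_up ρ N i
  have hinv : ∀ g : G, U ≤ U.comap (en (ρ g)) := fun g a ha => W4_up_inv ρ N hN i g a ha
  let σ : G →* Module.End ℤ (A ⧸ U) :=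
    { toFun := fun g => U.mapQ U (en (ρ g)) (hinv g)
      map_one' := by
        ext x
        simp [en]
      map_mul' := by
        intro g h
        ext x
        simp [en] }
  have hσ : ∀ g a, σ g (Submodule.Quotient.mk a) = Submodule.Quotient.mk (ρ g a) := fun g a => rfl
  have htf : Module.IsTorsionFree ℤ (A ⧸ U) := by
    constructor
    intro n hn x y hxy
    have hn0 : n ≠ 0 := hn.ne_zero
    obtain ⟨a, rfl⟩ := Submodule.Quotient.mk_surjective U x
    obtain ⟨b, rfl⟩ := Submodule.Quotient.mk_surjective U y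
    have h1 : n • (Submodule.Quotient.mk a : A ⧸ U) = n • (Submodule.Quotient.mk b : A ⧸ U) := hxy
    rw [← Submodule.Quotient.mk_smul, ← Submodule.Quotient.mk_smul, Submodule.Quotient.eq,
      ← smul_sub] at h1
    rw [Submodule.Quotient.eq]
    exact W4_up_pure ρ N i n _ hn0 h1
  have hpow : ∀ (g : G) (k : ℕ) (a : A), ((σ g - 1) ^ k) (Submodule.Quotient.mk a) =
      (Submodule.Quotient.mk (((en (ρ g) - 1) ^ k) a) : A ⧸ U) := by
    intro g k
    induction k with
    | zero => intro a; rfl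
    | succ k ihk =>
      intro a
      rw [pow_succ, pow_succ]
      have h1 : (σ g - 1) (Submodule.Quotient.mk a : A ⧸ U) =
          Submodule.Quotient.mk ((en (ρ g) - 1) a) := rfl
      rw [Module.End.mul_apply, h1, ihk]
      rfl
  have hne : (⊤ : Submodule ℤ (A ⧸ U)) ≠ ⊥ := by
    intro h0
    apply hi
    rw [eq_top_iff]
    intro a _
    have h1 : (Submodule.Quotient.mk a : A ⧸ U) ∈ (⊤ : Submodule ℤ (A ⧸ U)) := trivial
    rw [h0, Submodule.mem_bot, Submodule.Quotient.mk_eq_zero] at h1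
    exact h1
  obtain ⟨b, _, hb0, hbf⟩ := W4_kol σ e N (by
      intro h hh
      obtain ⟨k, hk⟩ := hu h hh
      refine ⟨k, ?_⟩
      apply LinearMap.ext
      intro x
      obtain ⟨a, rfl⟩ := Submodule.Quotient.mk_surjective U x
      rw [hpow, hk]
      rfl) (by
      intro h hh
      apply LinearMap.ext
      intro x
      obtain ⟨a, rfl⟩ := Submodule.Quotient.mk_surjective U x
      rw [hσ, he h hh]
      rfl) ⊤ hne (fun _ _ _ _ => trivial)
  obtain ⟨a, rfl⟩ := Submodule.Quotient.mk_surjective U b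
  intro heq
  apply hb0
  rw [Submodule.Quotient.mk_eq_zero]
  change a ∈ W4_up ρ N i
  rw [heq, W4_up_mem]
  intro h hh
  have h1 := hbf h hh
  rw [hσ, Submodule.Quotient.eq] at h1
  exact h1

private lemma W4_au_le {G : Type} [Group G] {A : Type} [AddCommGroup A]
    (ρ : G →* (A ≃ₗ[ℤ] A)) (N : Subgroup G) (k : ℕ) : ∀ i,
    W4_up ρ N (i + k) = ⊤ → ∀ a ∈ au ρ N k, a ∈ W4_up ρ N i := by
  induction k with
  | zero =>
    intro i hi a _
    have h1 : W4_up ρ N i = ⊤ := hi
    rw [h1]; trivial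
  | succ k ih =>
    intro i hi a ha
    have h1 : W4_up ρ N (i + 1 + k) = ⊤ := by
      rw [← hi]; congr 1; omega
    have h2 := ih (i + 1) h1
    have h3 : au ρ N (k + 1) ≤ (W4_up ρ N i).toAddSubgroup := by
      change AddSubgroup.closure {x | ∃ h ∈ N, ∃ a ∈ au ρ N k, x = ρ h a - a} ≤ _
      rw [AddSubgroup.closure_le]
      rintro x ⟨h, hh, a, ha, rfl⟩
      exact (W4_up_mem ρ N i a).1 (h2 a ha) h hh
    exact h3 ha

theorem W4 {G : Type} [Group G] {A : Type} [AddCommGroup A] [Module.Free ℤ A]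
    [Module.Finite ℤ A] (ρ : G →* (A ≃ₗ[ℤ] A)) (N : Subgroup G) (hN : N.Normal)
    (hu : ∀ h ∈ N, IsNilpotent (en (ρ h) - 1)) (hs : ∃ e, ∀ h ∈ ds N e, ρ h = 1) :
    ∃ k, au ρ N k = ⊥ := by
  have hex : ∃ k, W4_up ρ N k = ⊤ := by
    have hmono : Monotone (W4_up ρ N) := monotone_nat_of_le_succ (W4_up_le ρ N)
    obtain ⟨n, hn⟩ := monotone_stabilizes_iff_noetherian.2
      (inferInstance : IsNoetherian ℤ A) ⟨W4_up ρ N, hmono⟩
    refine ⟨n, ?_⟩
    by_contra hne
    exact W4_up_lt ρ N hN hu hs n hne (hn (n + 1) (Nat.le_succ n))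
  obtain ⟨k, hk⟩ := hex
  refine ⟨k, ?_⟩
  rw [eq_bot_iff]
  intro a ha
  have h1 := W4_au_le ρ N k 0 (by rw [Nat.zero_add]; exact hk) a ha
  have h2 : a = 0 := h1
  rw [h2]
  exact AddSubgroup.zero_mem _

end GP48
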