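import Mathlib
import Pool.Agent.LibGP48.XDefs
import Pool.Agent.LibGP48.W0
import Pool.Agent.LibGP48.W1
import Pool.Agent.LibGP48.W2
import Pool.Agent.LibGP48.W3
import Pool.Agent.LibGP48.W4

/-!
# LibGP48 W5 (MEDIUM (assembly))

A, L from W0; W0a: Module.Finite ℤ A; W0b: torsion free, so Module.Free ℤ A. N = {g : forall a, exists b, ρ g a - a = 3 • b}: the kernel of G → Aut (A / 3A) (finite group: A/3A is finite), so normal of finite index (e.g. Subgroup.finiteIndex_ker for the hom into the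
permutations of the finite type A ⧸ 3A, or MulAction on the quotient). For g in N: ρ g a - a = 3 • ψ a with ψ a unique (torsion free), ψ is ℤ-linear: en (ρ g) = 1 + 3 • ψ. W1 for g^l: en (ρ (g^l)) = en (ρ g)^l, so W2 and W3 apply: ψ nilpotent, en (ρ g) - 1 = 3 • ψ nilpotent.
u in U acts trivially (ρ u = 1): u t u⁻¹ t⁻¹ in U for t in T (U normal); ds N e <= ds ⊤ e <= U. W4: au ρ N k = ⊥. By induction on k: x in ic N T k implies x in T and toAdd (ψ x) in au ρ N k (the generator [x, n] = x n x⁻¹ n⁻¹ of ⁅X, N⁆ has ψ-image a - ρ n a = -(ρ n a - a)).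
So ic N T k <= U (L.ker).
-/

namespace GP48

open Subgroup

private lemma en_pow {A : Type*} [AddCommGroup A] (f : A ≃ₗ[ℤ] A) (l : ℕ) :
    en (f ^ l) = en f ^ l := by
  induction l with
  | zero => ext a; rfl
  | succ l ih =>
    rw [pow_succ, pow_succ, ← ih]
    ext a
    rfl

/-- the kernel of the action on `A / 3 A` -/
private lemma exists_N {G : Type} [Group G] {A : Type} [AddCommGroup A] [Module.Finite ℤ A]
    (ρ : G →* (A ≃ₗ[ℤ] A)) :
    ∃ N : Subgroup G, N.Normal ∧ N.FiniteIndex ∧ ∀ g ∈ N, ∀ a : A, ∃ b : A,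
      ρ g a - a = (3 : ℤ) • b := by
  classical
  let P : Submodule ℤ A := LinearMap.range ((3 : ℤ) • (LinearMap.id : A →ₗ[ℤ] A))
  have hmem : ∀ x : A, x ∈ P ↔ ∃ z : A, (3 : ℤ) • z = x := fun x => Iff.rfl
  have hP : ∀ g : G, P.map ((ρ g : A ≃ₗ[ℤ] A) : A →ₗ[ℤ] A) = P := by
    intro g
    ext x
    rw [Submodule.mem_map, hmem]
    constructor
    · rintro ⟨y, hy, rfl⟩
      obtain ⟨z, rfl⟩ := (hmem y).1 hy
      exact ⟨ρ g z, (map_zsmul (ρ g) 3 z).symm⟩
    · rintro ⟨z, rfl⟩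
      refine ⟨(3 : ℤ) • (ρ g).symm z, (hmem _).2 ⟨(ρ g).symm z, rfl⟩, ?_⟩
      change ρ g ((3 : ℤ) • (ρ g).symm z) = _
      rw [map_zsmul, LinearEquiv.apply_symm_apply]
  let f : G →* ((A ⧸ P) ≃ₗ[ℤ] (A ⧸ P)) := MonoidHom.mk'
    (fun g => Submodule.Quotient.equiv P P (ρ g) (hP g)) (by
      intro g h
      ext x
      obtain ⟨x, rfl⟩ := Submodule.Quotient.mk_surjective P x
      simp [LinearEquiv.mul_apply])
  have htor : Module.IsTorsion ℤ (A ⧸ P) := by
    intro x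
    obtain ⟨x, rfl⟩ := Submodule.Quotient.mk_surjective P x
    refine ⟨⟨3, by simp⟩, ?_⟩
    change (3 : ℤ) • (Submodule.Quotient.mk x : A ⧸ P) = 0
    rw [← Submodule.Quotient.mk_smul, Submodule.Quotient.mk_eq_zero, hmem]
    exact ⟨x, rfl⟩
  have : Finite (A ⧸ P) := Module.finite_of_fg_torsion _ htor
  have : Finite ((A ⧸ P) ≃ₗ[ℤ] (A ⧸ P)) :=
    Finite.of_injective (fun e : (A ⧸ P) ≃ₗ[ℤ] (A ⧸ P) => (e : (A ⧸ P) → (A ⧸ P)))
      DFunLike.coe_injective
  refine ⟨f.ker, inferInstance, inferInstance, ?_⟩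
  intro g hg a
  have h1 : f g = 1 := hg
  have h2 : f g (Submodule.Quotient.mk a) = (Submodule.Quotient.mk a : A ⧸ P) := by
    rw [h1]; rfl
  have h3 : (Submodule.Quotient.mk (ρ g a) : A ⧸ P) = Submodule.Quotient.mk a := by
    simpa [f] using h2
  rw [Submodule.Quotient.eq, hmem] at h3
  obtain ⟨b, hb⟩ := h3
  exact ⟨b, hb.symm⟩

/-- torsion free layers -/
theorem W5 {G : Type} [Group G] (S : Set G) (hSf : S.Finite) (hS : closure S = ⊤) (β : ℝ)
    (h0 : 0 < β) (h1 : β < 1) (hg : Gro (fun n => (wball S n).ncard) β) (T U : Subgroup G)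
    (hT : T.Normal) (hU : U.Normal) (hUT : U ≤ T) (hab : ⁅T, T⁆ ≤ U) (F : Finset G)
    (hF : T = closure (F : Set G) ⊔ U) (htf : ∀ x ∈ T, ∀ n : ℕ, 1 ≤ n → x ^ n ∈ U → x ∈ U)
    (he : ∃ e, ds (⊤ : Subgroup G) e ≤ U) :
    ∃ N : Subgroup G, N.Normal ∧ N.FiniteIndex ∧ ∃ k, ic N T k ≤ U := by
  obtain ⟨A, _, ⟨L⟩⟩ := W0 T U hT hU hab
  have : Module.Finite ℤ A := W0a T U hU L F hF
  have ht : ∀ (n : ℤ), n ≠ 0 → ∀ a : A, n • a = 0 → a = 0 := fun n hn a ha =>
    W0b T U L htf n hn a ha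
  have : Module.IsTorsionFree ℤ A := by
    refine Module.IsTorsionFree.of_smul_eq_zero ?_
    intro n a ha
    by_cases hn : n = 0
    · exact Or.inl hn
    · exact Or.inr (ht n hn a ha)
  have : Module.Free ℤ A := Module.free_of_finite_type_torsion_free'
  obtain ⟨N, hN, hNf, hN3⟩ := exists_N L.ρ
  refine ⟨N, hN, hNf, ?_⟩
  -- unipotent
  have hu : ∀ h ∈ N, IsNilpotent (en (L.ρ h) - 1) := by
    intro g hgN
    choose b hb using hN3 g hgN
    have hinj : ∀ x y : A, (3 : ℤ) • x = (3 : ℤ) • y → x = y := by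
      intro x y hxy
      have : (3 : ℤ) • (x - y) = 0 := by rw [smul_sub, hxy, sub_self]
      exact sub_eq_zero.1 (ht 3 (by norm_num) _ this)
    let ψ : Module.End ℤ A := (AddMonoidHom.mk' b (by
      intro x y
      apply hinj
      rw [← hb, smul_add, ← hb, ← hb, map_add]
      abel)).toIntLinearMap
    have hψ : ∀ a, ψ a = b a := fun a => rfl
    have hφ : en (L.ρ g) = 1 + (3 : ℤ) • ψ := by
      ext a
      have e1 : (1 + (3 : ℤ) • ψ) a = a + (3 : ℤ) • b a := rfl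
      rw [e1, ← hb a]
      change L.ρ g a = _
      abel
    have hroot := W2 (en (L.ρ g)) (by
      intro v l _
      rw [← en_pow, ← map_pow]
      exact W1 S hSf hS β h0 h1 hg T U L (g ^ l) v)
    have hnil := W3 (en (L.ρ g)) ψ hφ hroot
    rw [hφ, add_sub_cancel_left]
    exact hnil.smul _
  -- U acts trivially
  have hU1 : ∀ u ∈ U, L.ρ u = 1 := by
    intro u huU
    ext a
    obtain ⟨t, htt⟩ := L.sur (Multiplicative.ofAdd a)
    have ha : a = Multiplicative.toAdd (L.ψ t) := by rw [htt]; rfl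
    have e1 := L.eqv u t
    rw [ha, ← e1]
    change Multiplicative.toAdd (L.ψ _) = Multiplicative.toAdd (L.ψ t)
    congr 1
    have e2 : L.ψ (⟨u * t * u⁻¹, L.nor.conj_mem t t.2 u⟩ * t⁻¹) = 1 := by
      rw [L.ker]
      have : ((⟨u * t * u⁻¹, L.nor.conj_mem t t.2 u⟩ * t⁻¹ : T) : G) = u * (t * u⁻¹ * t⁻¹) := by
        simp [mul_assoc]
      rw [this]
      exact U.mul_mem huU (hU.conj_mem _ (U.inv_mem huU) _)
    rw [map_mul, map_inv, mul_inv_eq_one] at e2
    exact e2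
  obtain ⟨e, he⟩ := he
  have hs : ∃ e, ∀ h ∈ ds N e, L.ρ h = 1 :=
    ⟨e, fun h hh => hU1 h (he (ds_mono le_top e hh))⟩
  obtain ⟨k, hk⟩ := W4 L.ρ N hN hu hs
  refine ⟨k, ?_⟩
  have key : ∀ k, ic N T k ≤
      ((AddSubgroup.toSubgroup (au L.ρ N k)).comap L.ψ).map T.subtype := by
    intro k
    induction k with
    | zero =>
      intro x hx
      exact ⟨⟨x, hx⟩, by simp [au], rfl⟩
    | succ k ih =>
      rw [ic_succ, Subgroup.commutator_le]
      intro x hx n hn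
      obtain ⟨t, htm, rfl⟩ := ih hx
      have hmem : (n * ((t⁻¹ : T) : G) * n⁻¹) ∈ T := L.nor.conj_mem _ (t⁻¹).2 n
      refine ⟨t * ⟨n * ((t⁻¹ : T) : G) * n⁻¹, hmem⟩, ?_, ?_⟩
      · have e1 := L.eqv n t⁻¹
        have e2 : L.ψ (⟨n * ((t⁻¹ : T) : G) * n⁻¹, hmem⟩ : T) =
            Multiplicative.ofAdd (L.ρ n (Multiplicative.toAdd (L.ψ t⁻¹))) := by
          rw [← e1]; rfl
        change L.ψ (t * ⟨n * ((t⁻¹ : T) : G) * n⁻¹, hmem⟩) ∈
          AddSubgroup.toSubgroup (au L.ρ N (k + 1))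
        rw [map_mul, e2, map_inv]
        change Multiplicative.toAdd (L.ψ t) + L.ρ n (- Multiplicative.toAdd (L.ψ t)) ∈
          au L.ρ N (k + 1)
        have e3 : Multiplicative.toAdd (L.ψ t) + L.ρ n (- Multiplicative.toAdd (L.ψ t)) =
            -(L.ρ n (Multiplicative.toAdd (L.ψ t)) - Multiplicative.toAdd (L.ψ t)) := by
          rw [map_neg]; abel
        rw [e3]
        exact AddSubgroup.neg_mem _ (AddSubgroup.subset_closure
          ⟨n, hn, Multiplicative.toAdd (L.ψ t), htm, rfl⟩)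
      · simp [commutatorElement_def, mul_assoc]
  intro x hx
  obtain ⟨t, htm, rfl⟩ := key k hx
  rw [hk] at htm
  have e1 : Multiplicative.toAdd (L.ψ t) ∈ (⊥ : AddSubgroup A) := htm
  rw [AddSubgroup.mem_bot] at e1
  exact (L.ker t).1 (by
    apply Multiplicative.toAdd.injective
    rw [e1]; rfl)

end GP48
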