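import Mathlib
import Pool.Agent.LibGP48.XDefs

/-!
# LibGP48 W6 (SHORT/MEDIUM)

G acts by conjugation on the finite set of cosets T ⧸ U.subgroupOf T (finite: relIndex != 0). N = kernel of this action = {g : forall t in T, g t g⁻¹ t⁻¹ in U}: normal, finite index (kernel of a hom into the finite group Equiv.Perm of a finite type).
[t, n] = t (n t⁻¹ n⁻¹) in U for t in T, n in N. (commutator_le)
-/

namespace GP48

open Subgroup

/-- finite layers -/
theorem W6 {G : Type} [Group G] (T U : Subgroup G) (hT : T.Normal) (hU : U.Normal)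
    (hUT : U ≤ T) (hfin : U.relIndex T ≠ 0) :
    ∃ N : Subgroup G, N.Normal ∧ N.FiniteIndex ∧ ⁅T, N⁆ ≤ U := by
  classical
  have := hU
  have := hT
  have hTm : (T.map (QuotientGroup.mk' U)).Normal :=
    hT.map (QuotientGroup.mk' U) (QuotientGroup.mk'_surjective U)
  have hcard : Nat.card (T.map (QuotientGroup.mk' U)) ≠ 0 := by
    have h := Subgroup.relIndex_ker (K := T) (QuotientGroup.mk' U)
    rw [QuotientGroup.ker_mk'] at h
    rw [← h]
    exact hfin
  have hf : Finite (T.map (QuotientGroup.mk' U)) := Nat.finite_of_card_ne_zero hcard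
  have hfa : Finite (MulAut (T.map (QuotientGroup.mk' U))) :=
    Finite.of_injective (fun e : MulAut (T.map (QuotientGroup.mk' U)) => (e : _ → _))
      DFunLike.coe_injective
  let f : G →* MulAut (T.map (QuotientGroup.mk' U)) :=
    (MulAut.conjNormal (H := T.map (QuotientGroup.mk' U))).comp (QuotientGroup.mk' U)
  refine ⟨f.ker, inferInstance, inferInstance, ?_⟩
  rw [Subgroup.commutator_le]
  intro t ht n hn
  have hn' : f n = 1 := hn
  have hmem : (QuotientGroup.mk' U) t ∈ T.map (QuotientGroup.mk' U) := Subgroup.mem_map_of_mem _ ht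
  have h1 : ((f n) ⟨_, hmem⟩ : G ⧸ U) = (QuotientGroup.mk' U) n * (QuotientGroup.mk' U) t *
      ((QuotientGroup.mk' U) n)⁻¹ := MulAut.conjNormal_apply _ _
  rw [hn'] at h1
  have h2 : (QuotientGroup.mk' U) t = (QuotientGroup.mk' U) n * (QuotientGroup.mk' U) t *
      ((QuotientGroup.mk' U) n)⁻¹ := h1
  have h3 : (QuotientGroup.mk' U) (t * n * t⁻¹ * n⁻¹) = 1 := by
    simp only [map_mul, map_inv]
    have h4 : (QuotientGroup.mk' U) t * (QuotientGroup.mk' U) n =
        (QuotientGroup.mk' U) n * (QuotientGroup.mk' U) t := by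
      calc (QuotientGroup.mk' U) t * (QuotientGroup.mk' U) n
          = ((QuotientGroup.mk' U) n * (QuotientGroup.mk' U) t *
            ((QuotientGroup.mk' U) n)⁻¹) * (QuotientGroup.mk' U) n := by rw [← h2]
        _ = (QuotientGroup.mk' U) n * (QuotientGroup.mk' U) t := by group
    rw [h4]
    group
  have h5 : (t * n * t⁻¹ * n⁻¹) ∈ (QuotientGroup.mk' U).ker := h3
  rw [QuotientGroup.ker_mk'] at h5
  exact h5

end GP48
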