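import Mathlib
import Pool.Agent.LibGP48.XDefs
import Pool.Agent.LibGP48.W5
import Pool.Agent.LibGP48.W6

/-!
# LibGP48 W7 (MEDIUM)

T0 = {x in T : x^n in U for some n >= 1}: a subgroup (T/U abelian: (xy)^(nm) = x^(nm) y^(nm) mod U), normal in G, U <= T0 <= T. T0 / U is the torsion subgroup of the f.g. abelian group T/U, so finite: U.relIndex T0 != 0
(a finitely generated torsion abelian group is finite; subgroups of f.g. abelian groups are f.g.; Mathlib: Module.finite_of_fg_torsion, AddCommGroup... or CommGroup.finite_of_fg_torsion; work in the abelian group T ⧸ U.subgroupOf T). T/T0 is torsion free.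
T = closure F ⊔ T0 (U <= T0). W5 for (T, T0): N1, k. W6 for (T0, U): N2. N = N1 ⊓ N2: ic N T (k+1) = ⁅ic N T k, N⁆ <= ⁅ic N1 T k, N2⁆ <= ⁅T0, N2⁆ <= U (ic_mono, commutator_mono).
-/

namespace GP48

open Subgroup
open scoped commutatorElement

private theorem W7_tor {C : Type} [CommGroup C] [Group.FG C] :
    {x : C | ∃ n : ℕ, 1 ≤ n ∧ x ^ n = 1}.Finite := by
  haveI h1 : AddGroup.FG (Additive C) := GroupFG.iff_add_fg.1 inferInstance
  haveI h2 : Module.Finite ℤ (Additive C) := Module.Finite.iff_addGroup_fg.mpr h1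
  haveI h3 : Finite (Submodule.torsion ℤ (Additive C)) :=
    Module.finite_of_fg_torsion _ Submodule.torsion_isTorsion
  refine (Set.finite_range (fun x : Submodule.torsion ℤ (Additive C) => Additive.toMul x.1)).subset ?_
  rintro x ⟨n, hn, hx⟩
  refine ⟨⟨Additive.ofMul x, ?_⟩, rfl⟩
  rw [Submodule.mem_torsion_iff]
  refine ⟨⟨(n : ℤ), mem_nonZeroDivisors_of_ne_zero (by omega)⟩, ?_⟩
  show (n : ℤ) • Additive.ofMul x = 0
  rw [natCast_zsmul, ← ofMul_pow, hx, ofMul_one]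

/-- arbitrary finitely generated abelian layers -/
theorem W7 {G : Type} [Group G] (S : Set G) (hSf : S.Finite) (hS : closure S = ⊤) (β : ℝ)
    (h0 : 0 < β) (h1 : β < 1) (hg : Gro (fun n => (wball S n).ncard) β) (T U : Subgroup G)
    (hT : T.Normal) (hU : U.Normal) (hUT : U ≤ T) (hab : ⁅T, T⁆ ≤ U) (F : Finset G)
    (hF : T = closure (F : Set G) ⊔ U) (he : ∃ e, ds (⊤ : Subgroup G) e ≤ U) :
    ∃ N : Subgroup G, N.Normal ∧ N.FiniteIndex ∧ ∃ k, ic N T k ≤ U := by
  have hcom : ∀ x ∈ T, ∀ y ∈ T, Commute (QuotientGroup.mk' U x) (QuotientGroup.mk' U y) := by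
    intro x hx y hy
    have h2 : ⁅x, y⁆ ∈ U := hab (commutator_mem_commutator hx hy)
    have h3 : QuotientGroup.mk' U ⁅x, y⁆ = 1 := (QuotientGroup.eq_one_iff _).2 h2
    rw [map_commutatorElement] at h3
    exact commutatorElement_eq_one_iff_mul_comm.1 h3
  have hmk : ∀ x : G, QuotientGroup.mk' U x = 1 ↔ x ∈ U := fun x => QuotientGroup.eq_one_iff x
  obtain ⟨T0, hT0⟩ : ∃ T0 : Subgroup G, ∀ x, x ∈ T0 ↔ x ∈ T ∧ ∃ n : ℕ, 1 ≤ n ∧ x ^ n ∈ U := by
    refine ⟨{ carrier := {x | x ∈ T ∧ ∃ n : ℕ, 1 ≤ n ∧ x ^ n ∈ U}, mul_mem' := ?_, one_mem' := ?_,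
              inv_mem' := ?_ }, fun x => Iff.rfl⟩
    · rintro x y ⟨hx, n, hn, hxn⟩ ⟨hy, m, hm, hym⟩
      refine ⟨T.mul_mem hx hy, n * m, Nat.mul_pos hn hm, ?_⟩
      rw [← hmk, map_pow, map_mul, (hcom x hx y hy).mul_pow, ← map_pow, ← map_pow]
      have e1 : QuotientGroup.mk' U (x ^ (n * m)) = 1 := by
        rw [hmk, pow_mul]; exact U.pow_mem hxn m
      have e2 : QuotientGroup.mk' U (y ^ (n * m)) = 1 := by
        rw [hmk, mul_comm n m, pow_mul]; exact U.pow_mem hym n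
      rw [e1, e2, one_mul]
    · exact ⟨T.one_mem, 1, le_rfl, by rw [one_pow]; exact U.one_mem⟩
    · rintro x ⟨hx, n, hn, hxn⟩
      exact ⟨T.inv_mem hx, n, hn, by rw [inv_pow]; exact U.inv_mem hxn⟩
  have hT0n : T0.Normal := by
    constructor
    intro x hx g
    rw [hT0] at hx ⊢
    obtain ⟨hx1, n, hn, hxn⟩ := hx
    exact ⟨hT.conj_mem x hx1 g, n, hn, by rw [conj_pow]; exact hU.conj_mem _ hxn g⟩
  have hUT0 : U ≤ T0 := fun x hx => (hT0 x).2 ⟨hUT hx, 1, le_rfl, by rwa [pow_one]⟩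
  have hT0T : T0 ≤ T := fun x hx => ((hT0 x).1 hx).1
  -- finiteness
  have hfin : U.relIndex T0 ≠ 0 := by
    letI hC : CommGroup (T.map (QuotientGroup.mk' U)) :=
      { (inferInstance : Group (T.map (QuotientGroup.mk' U))) with
        mul_comm := by
          rintro ⟨_, x, hx, rfl⟩ ⟨_, y, hy, rfl⟩
          exact Subtype.ext (hcom x hx y hy) }
    haveI hFG : Group.FG (T.map (QuotientGroup.mk' U)) := by
      rw [Group.fg_iff_subgroup_fg]
      refine (Subgroup.fg_iff _).2 ⟨QuotientGroup.mk' U '' (F : Set G), ?_, (F.finite_toSet.image _)⟩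
      have e1 : U.map (QuotientGroup.mk' U) = ⊥ := by
        rw [Subgroup.map_eq_bot_iff, QuotientGroup.ker_mk']
      rw [hF, Subgroup.map_sup, e1, sup_bot_eq, MonoidHom.map_closure]
    have hfs := W7_tor (C := T.map (QuotientGroup.mk' U))
    haveI : Finite ((QuotientGroup.mk' U).comp T0.subtype).range := by
      apply Set.Finite.to_subtype
      refine (hfs.image (fun x : (T.map (QuotientGroup.mk' U)) => (x : G ⧸ U))).subset ?_
      rintro _ ⟨⟨x, hx⟩, rfl⟩
      obtain ⟨hx1, n, hn, hxn⟩ := (hT0 x).1 hx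
      refine ⟨⟨QuotientGroup.mk' U x, x, hx1, rfl⟩, ⟨n, hn, ?_⟩, rfl⟩
      apply Subtype.ext
      show (QuotientGroup.mk' U x) ^ n = 1
      rw [← map_pow, hmk]
      exact hxn
    have h2 : ((QuotientGroup.mk' U).comp T0.subtype).ker = U.subgroupOf T0 := by
      ext x
      rw [MonoidHom.mem_ker, Subgroup.mem_subgroupOf]
      exact hmk x
    have h3 := (Subgroup.finiteIndex_ker ((QuotientGroup.mk' U).comp T0.subtype)).index_ne_zero
    rw [h2] at h3
    exact h3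
  have hFT : closure (F : Set G) ≤ T := by rw [hF]; exact le_sup_left
  have hF0 : T = closure (F : Set G) ⊔ T0 := by
    apply le_antisymm
    · calc T = closure (F : Set G) ⊔ U := hF
        _ ≤ _ := sup_le_sup_left hUT0 _
    · exact sup_le hFT hT0T
  obtain ⟨e, he⟩ := he
  obtain ⟨N1, hN1, hN1f, k, hk⟩ := W5 S hSf hS β h0 h1 hg T T0 hT hT0n hT0T (hab.trans hUT0) F hF0
    (by
      intro x hx n hn hxn
      obtain ⟨-, m, hm, hxm⟩ := (hT0 _).1 hxn
      rw [← pow_mul] at hxm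
      exact (hT0 x).2 ⟨hx, n * m, Nat.mul_pos hn hm, hxm⟩) ⟨e, he.trans hUT0⟩
  obtain ⟨N2, hN2, hN2f, hk2⟩ := W6 T0 U hT0n hU hUT0 hfin
  refine ⟨N1 ⊓ N2, inferInstance, inferInstance, k + 1, ?_⟩
  rw [ic_succ]
  refine le_trans (commutator_mono ((ic_mono inf_le_left le_rfl k).trans hk) inf_le_right) hk2

end GP48
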