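import Mathlib
import Pool.Agent.LibGP48.XDefs
import Pool.Agent.LibGP48.W7
import Pool.Agent.LibGP48.H3

/-!
# LibGP48 W8 (SHORT/MEDIUM (assembly))

First claim: by induction on i: exists N normal of finite index and K with ic N ⊤ K <= ds ⊤ i. i = 0: N = ⊤, K = 0. Step: W7 for T = ds ⊤ i, U = ds ⊤ (i+1) (F from hfg; closure F ⊔ U = T as U <= T; he: e = i+1): N', k. N'' = N ⊓ N' (finite index, normal);
ic N'' ⊤ (K+k) = ic N'' (ic N'' ⊤ K) k (ic_add) <= ic N' (ds ⊤ i) k <= ds ⊤ (i+1) (ic_mono). Then NM N (ds ⊤ e): ic N N K <= ic N ⊤ K.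
Second claim: H = image of N in Q = G ⧸ derivedSeries G e (ds_top), finite index; H3: N ⧸ (ds ⊤ e).subgroupOf N is nilpotent and maps onto H (Group.nilpotent_of_surjective).
-/

namespace GP48

open Subgroup

/-- Milnor-Wolf for the soluble quotients of a group of small growth -/
theorem W8 {G : Type} [Group G] (S : Set G) (hSf : S.Finite) (hS : closure S = ⊤) (β : ℝ)
    (h0 : 0 < β) (h1 : β < 1) (hg : Gro (fun n => (wball S n).ncard) β)
    (hfg : ∀ i, ∃ F : Finset G, ds (⊤ : Subgroup G) i = closure (F : Set G)) (e : ℕ) :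
    (∃ N : Subgroup G, N.Normal ∧ N.FiniteIndex ∧ NM N (ds (⊤ : Subgroup G) e)) ∧
    ∃ H : Subgroup (G ⧸ derivedSeries G e), H.FiniteIndex ∧ Group.IsNilpotent H := by
  have key : ∀ i : ℕ, ∃ N : Subgroup G, N.Normal ∧ N.FiniteIndex ∧ ∃ K, ic N ⊤ K ≤ ds (⊤ : Subgroup G) i := by
    intro i
    induction i with
    | zero => exact ⟨⊤, inferInstance, inferInstance, 0, le_rfl⟩
    | succ i ih =>
      obtain ⟨N, hN1, hN2, K, hK⟩ := ih
      obtain ⟨F, hF⟩ := hfg i
      have hle : ds (⊤ : Subgroup G) (i + 1) ≤ ds (⊤ : Subgroup G) i := ds_succ_le _ i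
      obtain ⟨N', hN1', hN2', k, hk⟩ := W7 S hSf hS β h0 h1 hg (ds (⊤ : Subgroup G) i)
        (ds (⊤ : Subgroup G) (i + 1)) inferInstance inferInstance hle le_rfl F
        (by rw [← hF, sup_eq_left.2 hle]) ⟨i + 1, le_rfl⟩
      refine ⟨N ⊓ N', Subgroup.normal_inf_normal N N', inferInstance, K + k, ?_⟩
      rw [ic_add]
      exact (ic_mono inf_le_right ((ic_mono inf_le_left le_rfl K).trans hK) k).trans hk
  obtain ⟨N, hN1, hN2, K, hK⟩ := key e
  have hNM : NM N (ds (⊤ : Subgroup G) e) := ⟨K, (ic_mono le_rfl le_top K).trans hK⟩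
  refine ⟨⟨N, hN1, hN2, hNM⟩, N.map (QuotientGroup.mk' (derivedSeries G e)), ?_, ?_⟩
  · refine ⟨fun h => hN2.index_ne_zero ?_⟩
    have h2 := N.index_map_dvd (QuotientGroup.mk'_surjective (derivedSeries G e))
    rw [h] at h2
    exact Nat.eq_zero_of_zero_dvd h2
  · have h3 : Group.IsNilpotent (N ⧸ (ds (⊤ : Subgroup G) e).subgroupOf N) := H3 N _ hNM
    have h4 : (ds (⊤ : Subgroup G) e).subgroupOf N ≤
        ((QuotientGroup.mk' (derivedSeries G e)).subgroupMap N).ker := by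
      intro x hx
      rw [Subgroup.mem_subgroupOf, ds_top] at hx
      rw [MonoidHom.mem_ker]
      apply Subtype.ext
      change (QuotientGroup.mk' (derivedSeries G e)) (x : G) = 1
      rw [QuotientGroup.mk'_apply, QuotientGroup.eq_one_iff]
      exact hx
    refine Group.nilpotent_of_surjective
      (QuotientGroup.lift _ ((QuotientGroup.mk' (derivedSeries G e)).subgroupMap N) h4) ?_
    intro y
    obtain ⟨x, hx⟩ := (QuotientGroup.mk' (derivedSeries G e)).subgroupMap_surjective N y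
    exact ⟨(x : N ⧸ (ds (⊤ : Subgroup G) e).subgroupOf N), hx⟩

end GP48
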