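import Mathlib
import Pool.Agent.LibGP48.XDefs
import Pool.Agent.LibGP48.N1
import Pool.Agent.LibGP48.N2
import Pool.Agent.LibGP48.V7
import Pool.Agent.LibGP48.W8

/-!
# LibGP48 XFin: second half of the theorem (assembly, helper50)
-/

namespace GP48

open Subgroup

private lemma stab {G : Type} [Group G] {m : ℕ} (h : ds (⊤ : Subgroup G) m = ds ⊤ (m + 1)) :
    ∀ k, ds (⊤ : Subgroup G) (m + k) = ds ⊤ m := by
  intro k
  induction k with
  | zero => rfl
  | succ k ih => rw [← Nat.add_assoc, ds_succ, ih, ← ds_succ, ← h]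

theorem XFin {G : Type} [Group G] (S : Set G) (hSf : S.Finite) (hS : closure S = ⊤) (β : ℝ)
    (h0 : 0 < β) (h1 : β < 2 / 7) (hg : Gro (fun n => (wball S n).ncard) β)
    (hj : ∃ j, ∀ l, NM (ds (⊤ : Subgroup G) j) (ds (⊤ : Subgroup G) l)) :
    (∃ m, derivedSeries G m = derivedSeries G (m + 1) ∧
      ∃ H : Subgroup (G ⧸ derivedSeries G m), H.FiniteIndex ∧ Group.IsNilpotent H) ∧
    ((⨅ n, derivedSeries G n) = ⊥ → ∃ H : Subgroup G, H.FiniteIndex ∧ Group.IsNilpotent H) := by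
  obtain ⟨j, hj⟩ := hj
  obtain ⟨m, hm⟩ := V7 S hSf hS β h0 h1 hg j hj
  obtain ⟨m0, hm0, hC⟩ := N1 S hSf hS β h0 (by linarith) hg 2 (by norm_num)
  obtain ⟨μ, hμ⟩ := N2 hS (by norm_num) hm0 hC
  have hfg : ∀ i, ∃ F : Finset G, ds (⊤ : Subgroup G) i = closure (F : Set G) := by
    intro i
    have hfin : ((ds (⊤ : Subgroup G) i : Set G) ∩ wball S (μ i)).Finite :=
      (wball_finite hSf _).inter_of_right _
    exact ⟨hfin.toFinset, by rw [Set.Finite.coe_toFinset]; exact (hμ i).1.gen⟩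
  have hW := W8 S hSf hS β h0 (by linarith) hg hfg m
  have hm' : derivedSeries G m = derivedSeries G (m + 1) := by rw [← ds_top, ← ds_top, hm]
  refine ⟨⟨m, hm', hW.2⟩, fun hinf => ?_⟩
  have hbot : derivedSeries G m = ⊥ := by
    rw [← le_bot_iff, ← hinf, le_iInf_iff]
    intro n
    rw [← ds_top, ← ds_top]
    rcases le_total n m with h | h
    · exact ds_antitone _ h
    · obtain ⟨k, rfl⟩ := Nat.exists_eq_add_of_le h
      exact (stab hm k).ge
  obtain ⟨N, hN, hNf, k, hk⟩ := hW.1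
  rw [ds_top, hbot] at hk
  refine ⟨N, hNf, ?_⟩
  have hq := H3 N (⊥ : Subgroup G) ⟨k, hk⟩
  have hb : (⊥ : Subgroup G).subgroupOf N = ⊥ := by simp
  exact (Group.isNilpotent_congr
    ((QuotientGroup.quotientMulEquivOfEq hb).trans QuotientGroup.quotientBot)).1 hq

end GP48
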