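import Mathlib
import Pool.Agent.LibGP48.Fin2
import Pool.Agent.LibGP48.XFin
import Pool.Agent.LibGP48.UNI

/-!
# LibGP48 FIN0: groups of growth below `exp (n^β)`, `β < 2/7`
-/

namespace GP48

open Subgroup

theorem FIN0 {G : Type} [Group G] (S : Set G) (hSf : S.Finite) (hS : closure S = ⊤) (β : ℝ)
    (h0 : 0 < β) (h1 : β < 2 / 7) (hg : Gro (fun n => (wball S n).ncard) β) :
    (∀ i, (derivedSeries G i).FG) ∧
      (∃ m, derivedSeries G m = derivedSeries G (m + 1) ∧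
        ∃ H : Subgroup (G ⧸ derivedSeries G m), H.FiniteIndex ∧ Group.IsNilpotent H) ∧
      ((⨅ n, derivedSeries G n) = ⊥ →
        ∃ H : Subgroup G, H.FiniteIndex ∧ Group.IsNilpotent H) := by
  obtain ⟨a1, a2⟩ := MAINA S hSf hS β h0 h1 hg
  refine ⟨fun i => ?_, XFin S hSf hS β h0 h1 hg a2⟩
  rw [← ds_top]
  exact a1 i

end GP48
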