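import Mathlib
import Pool.Agent.LibGP48.Fin2
import Pool.Agent.LibGP48.XFin

/-!
# LibGP48 FinAll: growth below `exp (n ^ β)`, `β < 2 / 7` (both halves glued, `G : Type`)
-/

namespace GP48

open Subgroup

private lemma pos_exp {f : ℕ → ℕ} {β : ℝ} (hβ : β < 2 / 7) (hg : Gro f β) :
    ∃ b : ℝ, 0 < b ∧ b < 2 / 7 ∧ Gro f b := by
  refine ⟨max β (1 / 7), lt_max_of_lt_right (by norm_num), max_lt hβ (by norm_num), ?_⟩
  unfold Gro at hg ⊢
  filter_upwards [hg, Filter.eventually_ge_atTop 1] with n hn hn1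
  refine hn.trans (Real.exp_le_exp.2 ?_)
  exact Real.rpow_le_rpow_of_exponent_le (by exact_mod_cast hn1) (le_max_left _ _)

/-- **Theorem.** -/
theorem FinAll {G : Type} [Group G] (S : Set G) (hSf : S.Finite) (hS : closure S = ⊤)
    (β : ℝ) (hβ : β < 2 / 7) (hg : Gro (fun n => (wball S n).ncard) β) :
    (∃ m, derivedSeries G m = derivedSeries G (m + 1) ∧
      ∃ H : Subgroup (G ⧸ derivedSeries G m), H.FiniteIndex ∧ Group.IsNilpotent H) ∧
    ((⨅ n, derivedSeries G n) = ⊥ → ∃ H : Subgroup G, H.FiniteIndex ∧ Group.IsNilpotent H) := by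
  obtain ⟨b, hb0, hb1, hb⟩ := pos_exp hβ hg
  exact XFin S hSf hS b hb0 hb1 hb (MAINA S hSf hS b hb0 hb1 hb).2

end GP48
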